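import Pool.Agent.Strip051.FourG.Defs
import Pool.Agent.Strip051.FourF.Defs

/-! # The inequalities above the height `s` -/

namespace Pool.Agent.Strip051.FourG

open Pool.Agent.StripNear Pool.Agent.StripSquare Pool.Agent.Strip051
open Pool.Agent.Strip051.Four (mirP j1 gn)
open Pool.Agent.Strip051.FourC (ga gn_eq)

/-- What the coupled rows below `h0` need and give. -/
noncomputable def del (y : ℝ) : ℝ := (h0 - y) * (21 / 10 - 30 * (h0 - y))

/-- The new point is between `s` and `h0`. Close to `h0` the virtual disc is in the window. -/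
def MidW (s e : ℝ) : Prop := ∀ y r : ℝ, s ≤ y → y ≤ h0 → 1 / 2 ≤ r → r ≤ 1 →
  (17 / 20 ≤ y → r - ext r ≤ 3 / 8) → (17 / 20 ≤ y → ext r - r ≤ 3 / 8) →
  4 * (1 + g s - 2 * g y) ≤ FourF.mid s e r y y

/-- The new point is close to `h0`, large virtual discs. -/
def MidO (s e : ℝ) : Prop := ∀ y r : ℝ, 17 / 20 ≤ y → y ≤ h0 → r ≤ 1 → 3 / 8 ≤ r - ext r →
  4 * (1 + g s - 2 * g y) - 2 * del y ≤ FourF.mid s e r y y

/-- The new point is close to `h0`, small virtual discs. -/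
def MidI (s e : ℝ) : Prop := ∀ y r : ℝ, 17 / 20 ≤ y → y ≤ h0 → 1 / 2 ≤ r → 3 / 8 ≤ ext r - r →
  4 * (1 + g s - 2 * g y) + 2 * del y ≤ FourF.mid s e r y y

/-- The new point is between `h0` and `h0 + s / 2`. -/
def HighC (s e t : ℝ) : Prop := ∀ y r q : ℝ, h0 ≤ y → y ≤ h0 + s / 2 → 1 / 2 ≤ r → r ≤ 1 →
  r ≤ 2 * h0 + s - y → ext r ≤ 2 * h0 + s - y → 1 / 2 ≤ q → q ≤ 1 → q ≤ y → ext q ≤ y →
  2 * (1 + g s) ≤ 2 * gn (j1 t) r q y + FourF.mid s e r q y

theorem jP_eq (s : ℝ) : jP s = FourF.p2 s (h0 + s - 1) := by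
  unfold jP FourF.p2
  rw [add_comm 1 s]
  rfl

theorem jQ_eq (s : ℝ) : jQ s = FourF.q2 s (h0 + s - 1) := by
  unfold jQ FourF.q2
  have : aQ s = FourF.bq s (h0 + s - 1) := by
    funext z
    unfold aQ FourF.bq
    split
    · ring
    · rfl
  rw [this]

/-- The gains of the four bodies in the two notations. -/
theorem mid_eq (s r q y : ℝ) : mid s (gam r q) y = FourF.mid s (h0 + s - 1) r q y / 2 := by
  unfold mid FourF.mid jR jS FourF.p3 FourF.q3
  rw [jP_eq, jQ_eq]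
  simp only [gn_eq]
  ring

end Pool.Agent.Strip051.FourG
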