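import Pool.Agent.Strip051.FourF.HighSum
import Pool.Agent.Strip051.FourG.Props

/-! # The new point above `h0`: the sum of the gains, the wall probe of weight two -/

namespace Pool.Agent.Strip051.FourG

open Pool.Agent.StripNear Pool.Agent.StripSquare Pool.Agent.Strip051
open Pool.Agent.Strip051.Four (gn j1 gn_nonneg)
open Pool.Agent.Strip051.FourB (lo up)
open Pool.Agent.Strip051.FourF (hsM hsT hw_end hw_low hs_realG hs_realG' ht20 Uht2 hr_h0)
open Pool.Agent.Strip051.Four.Low (ph ph_neg ph_nonneg ph_mono ph_abs ph_zero h0_hi h0_lo)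

theorem hsG_t {s t : ℝ} (P : Par s t) :
    2 * ph t = ph s ∧ 41 / 100 ≤ t ∧ t ≤ 4437 / 10000 := by
  have h1 := P.gt
  have s1 := P.s0
  have s2 := P.s1
  have t0 := P.t0
  have ts := P.ts
  have g1 := g_sq (r := s) (by linear_combination (1177 / 1000) * s2 + (mul_nonneg (sub_nonneg.mpr s1) (sub_nonneg.mpr s2)))
  have g2 := g_sq (r := t) (by linear_combination (607 / 1000) * ts + (607 / 1000) * s2 + (mul_nonneg (sub_nonneg.mpr t0) (sub_nonneg.mpr ts)) +
    (mul_nonneg (sub_nonneg.mpr t0) (sub_nonneg.mpr s2)))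
  have g3 := g_nonneg s
  have g4 := g_nonneg t
  have b1 : g s ≤ 8217 / 10000 := by
    by_contra hc
    push Not at hc
    exact absurd hc (not_lt.mpr (by linear_combination (5000 / 8217) * g1 + (1900 / 2739) * s1 + (5000 / 8217) * (mul_pos (sub_pos.mpr hc) (sub_pos.mpr hc)) + (5000 / 8217) * (mul_nonneg (sub_nonneg.mpr s1) (sub_nonneg.mpr s1))))
  have b2 : 7946 / 10000 ≤ g s := by
    by_contra hc
    push Not at hc
    exact absurd hc (not_lt.mpr (by linear_combination -(5000 / 3973) * g1 + (5885 / 3973) * s2 + (5000 / 3973) * (mul_nonneg (sub_nonneg.mpr (le_of_lt hc)) (sub_nonneg.mpr g3)) + (5000 / 3973) * (mul_nonneg (sub_nonneg.mpr s1) (sub_nonneg.mpr s2))))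
  refine ⟨?_, ?_, ?_⟩
  · unfold Four.Low.ph
    linear_combination -h1
  · have b3 : g t ≤ 91085 / 100000 := by linear_combination (1 / 2) * h1 + (1 / 2) * b1
    by_contra hc
    push Not at hc
    exact absurd b3 (not_le.mpr (by linear_combination (8200 / 18217) * hc - (20000 / 18217) * g2 + (20000 / 18217) * (mul_nonneg (sub_nonneg.mpr (le_of_lt hc)) (sub_nonneg.mpr t0)) + (20000 / 18217) * (mul_nonneg (sub_nonneg.mpr g4) (sub_nonneg.mpr b3))))
  · have b3 : 8973 / 10000 ≤ g t := by linear_combination -(1 / 2) * h1 + (1 / 2) * b2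
    by_contra hc
    push Not at hc
    exact absurd b3 (not_le.mpr (by linear_combination (986 / 997) * hc + (10000 / 8973) * g2 + (10000 / 8973) * (mul_pos (sub_pos.mpr hc) (sub_pos.mpr hc)) + (10000 / 8973) * (mul_nonneg (sub_nonneg.mpr g4) (sub_nonneg.mpr b3))))

theorem hsG_ok {s t : ℝ} (P : Par s t) : (j1 t).Ok (2 * h0 + s) := by
  have := h0_gt
  have := P.s0
  have := P.s1
  have := P.t0
  have := P.ts
  refine ⟨le_rfl, by simp only [j1]; linear_combination (‹0 ≤ t›), by simp only [j1]; linear_combination this + 2 * (‹0.866 < h0›), 1,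
    fun z _ _ => g_le_one _⟩

/-- The new point is not above the height one. -/
theorem hs_lowG {s e t y r q d m : ℝ} (P : Par s t) (he : e = h0 + s - 1) (y0 : h0 ≤ y)
    (y1 : y ≤ 1) (q1 : 1 / 2 ≤ q) (q2 : q ≤ 1) (hq : q ≤ y) (hc : ext q ≤ y)
    (d1 : y - h0 ≤ 1 / 20 → d ≤ y - h0) (d2 : 1 / 20 < y - h0 → d ≤ 1 / 20)
    (d3 : 11 / 100 < y - h0 → d ≤ 0) (hm : hsM s e (y - h0) - d ≤ m) :
    2 * (1 + g s) ≤ 2 * gn (j1 t) r q y + m := by
  have hp := h0_gt
  have s1 := P.s0
  have s2 := P.s1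
  obtain ⟨hT, T0, T1⟩ := hsG_t P
  obtain ⟨B, B0, B1, hB⟩ := hw_end y0 y1
  have ht : y - h0 = B / 2 - h0 * ph B := by linear_combination hB
  rw [ht] at d1 d2 d3 hm
  have a6 : ph s = 1 - g s := rfl
  rcases le_total B t with h | h
  · have a1 := hw_low (r := r) (hsG_ok P) (by linear_combination T0) (by linear_combination T1) (by linear_combination y0 + hp + T1) q1 q2 hq hc
      B0 B1 hB h
    have a3 := hs_realG he hT T0 T1 s1 (by linear_combination s2) B0 B1 h d1 d2 d3
    linear_combination hm + 2 * a6 + 2 * a1 + a3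
  · have a2 := gn_nonneg (r := r) (q := q) (y := y) (hsG_ok P)
    obtain ⟨a3, a4⟩ := hs_realG' he hT T0 T1 s1 (by linear_combination s2) B1 h
    have a5 := d3 a3
    linear_combination hm + 2 * a6 + 2 * a2 + a4 + a5

/-- The new point is above the height one. -/
theorem hs_topG {s e t y r q m : ℝ} (P : Par s t) (he : e = h0 + s - 1) (y0 : 1 ≤ y)
    (y1 : y ≤ h0 + s / 2) (hm : hsT s e (y - h0) ≤ m) :
    2 * (1 + g s) ≤ 2 * gn (j1 t) r q y + m := by
  have hl := h0_lo
  have hu := h0_hi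
  have s1 := P.s0
  have s2 := P.s1
  have a6 : ph s = 1 - g s := rfl
  have a2 := gn_nonneg (r := r) (q := q) (y := y) (hsG_ok P)
  unfold hsT at hm
  have u := ht20 (s := s) (t := y - h0) ⟨hl, hu, by linear_combination y0, by linear_combination y1, s1, by linear_combination s2,
    by linear_combination y0 + hu, by linear_combination y1 + (1 / 2) * s2⟩ s1 (by linear_combination s2) (by linear_combination y0 + hu) (by linear_combination y1 + (1 / 2) * s2)
  unfold Uht2 at u
  rw [← he] at u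
  linear_combination hm + 2 * a6 + 2 * a2 + u

end Pool.Agent.Strip051.FourG
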