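import Pool.Agent.Strip051.FourG.Box

set_option linter.unusedVariables false

/-! # Boxes, `r ≤ ext r` -/

namespace Pool.Agent.Strip051.FourG.LA

open Pool.Agent.StripNear Pool.Agent.StripSquare Pool.Agent.Strip051
open Pool.Agent.Strip051.Four.Low (ph)
open Pool.Agent.Strip051.FourC.LA (lo up)

theorem wa6 {s b t k G1 G2 G3 G4 : ℝ} (R : RegA s b t k G1 G2 G3 G4) (hT : t ≤ 284 / 1000 * s) (hb : 0 ≤ s - t - b)
    (s1 : 57 / 100 ≤ s) (s2 : s ≤ 607 / 1000)
    (b1 : 3 / 50 ≤ b) (b2 : b ≤ 23 / 200) (t1 : 0 ≤ t) (t2 : t ≤ 216 / 10000) :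
    4 * ph (s - t) - 2 * ph s ≤ (G1 + G2 + G3 + G4) / 2 := by
  have e1 := up (t1 := (67 / 1000)) (t2 := (68 / 1000)) (x := 1 - h0) (by norm_num)
    (by linear_combination (1004489 / 1000000) * R.h2) (by linear_combination (62789 / 62500) * R.h1)
  have e2 := up (t1 := (229 / 1000)) (t2 := (252 / 1000)) (x := h0 + s - 1) (by norm_num)
    (by linear_combination (1052441 / 1000000) * s1 + (1052441 / 1000000) * R.h1) (by linear_combination (66469 / 62500) * s2 + (66469 / 62500) * R.h2)
  have e3 := lo (t := (346 / 1000)) (x := s - t + b / 2 - k) (by norm_num)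
    (by linear_combination s1 + (1 / 2) * b1 + t2 + R.k4) (by linear_combination s2 + (1 / 2) * b2 + t1 + R.k3)
  have e4 := lo (t := (207 / 1000)) (x := h0 + s - 1 - t - b / 2 - k) (by norm_num)
    (by linear_combination s1 + (1 / 2) * b2 + t2 + R.k4 + R.h1) (by linear_combination s2 + (1 / 2) * b1 + t1 + R.k3 + R.h2)
  have e5 := lo (t := (287 / 1000)) (x := s - t - b / 2 - k) (by norm_num)
    (by linear_combination s1 + (1 / 2) * b2 + t2 + R.k4) (by linear_combination s2 + (1 / 2) * b1 + t1 + R.k3)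
  have e6 := up (t1 := (298 / 1000)) (t2 := (339 / 1000)) (x := s - t) (by norm_num)
    (by linear_combination (272201 / 250000) * s1 + (272201 / 250000) * t2) (by linear_combination (1114921 / 1000000) * s2 + (1114921 / 1000000) * t1)
  have e7 := lo (t := (-38 / 1000)) (x := h0 - 1 + t + b / 2 + k) (by norm_num)
    (by linear_combination (1 / 2) * b1 + t1 + R.k3 + R.h1) (by linear_combination (1 / 2) * b2 + t2 + R.k4 + R.h2)
  have e8 := lo (t := (29 / 1000)) (x := t + b / 2 + k) (by norm_num)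
    (by linear_combination (1 / 2) * b1 + t1 + R.k3) (by linear_combination (1 / 2) * b2 + t2 + R.k4)
  have e9 := up (t1 := (577 / 1000)) (t2 := (608 / 1000)) (x := h0 + t) (by norm_num)
    (by linear_combination (1332929 / 1000000) * t1 + (1332929 / 1000000) * R.h1) (by linear_combination (21401 / 15625) * t2 + (21401 / 15625) * R.h2)
  have e10 := lo (t := (325 / 1000)) (x := s) (by norm_num)
    (by linear_combination s1) (by linear_combination s2)
  have e11 := up (t1 := (30 / 1000)) (t2 := (58 / 1000)) (x := b) (by norm_num)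
    (by linear_combination (10009 / 10000) * b1) (by linear_combination (250841 / 250000) * b2)
  have c1 := R.ph1
  have c2 := R.qhh
  have c3 := R.rh1
  have c4 := R.syv (by linear_combination (86603 / 99826) * e11 + R.k2 + (2643246 / 6239125) * b1 + t2) (by linear_combination (86603 / 49913) * e11 + 2 * R.k2 + (7191758 / 6239125) * b2 + t2 + R.h1)
  linear_combination (796209565238233214883645046577 / 92980225115919996630973797600) * e11 +
    (3200 / 1431) * e10 + (15625 / 20287) * e9 + (500000 / 999159) * e8 + (125000 / 249639) * e7 +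
    (2000000 / 449489) * e6 + (500000 / 917631) * e5 + (500000 / 957151) * e4 + (125000 / 73357) * e3 +
    (125000 / 235573) * e2 + (375000 / 248861) * e1 + (3527368469378189319882287966942543 / 6641444651137142616498128400) * R.k1 +
    (2743517679954584269338720104333089 / 5165568061995555368387433200) * R.k2 + (20139058540554898525401115 / 279072639973090209888863793) * s1 +
    (6850670073753755143008837533368625 / 33512510988752628830005532941673256) * t1 + (813630241779764819950625 / 1034791864157625543680856) * R.h2 +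
    (1 / 2) * R.h3 + (1 / 2) * c1 + (1 / 2) * c2 + (1 / 2) * c3 + (1 / 2) * c4

theorem wa7 {s b t k G1 G2 G3 G4 : ℝ} (R : RegA s b t k G1 G2 G3 G4) (hT : t ≤ 284 / 1000 * s) (hb : 0 ≤ s - t - b)
    (s1 : 57 / 100 ≤ s) (s2 : s ≤ 607 / 1000)
    (b1 : 3 / 50 ≤ b) (b2 : b ≤ 23 / 200) (t1 : 216 / 10000 ≤ t) (t2 : t ≤ 431 / 10000) :
    4 * ph (s - t) - 2 * ph s ≤ (G1 + G2 + G3 + G4) / 2 := by
  have e1 := up (t1 := (67 / 1000)) (t2 := (68 / 1000)) (x := 1 - h0) (by norm_num)
    (by linear_combination (1004489 / 1000000) * R.h2) (by linear_combination (62789 / 62500) * R.h1)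
  have e2 := up (t1 := (229 / 1000)) (t2 := (252 / 1000)) (x := h0 + s - 1) (by norm_num)
    (by linear_combination (1052441 / 1000000) * s1 + (1052441 / 1000000) * R.h1) (by linear_combination (66469 / 62500) * s2 + (66469 / 62500) * R.h2)
  have e3 := lo (t := (331 / 1000)) (x := s - t + b / 2 - k) (by norm_num)
    (by linear_combination s1 + (1 / 2) * b1 + t2 + R.k4) (by linear_combination s2 + (1 / 2) * b2 + t1 + R.k3)
  have e4 := lo (t := (194 / 1000)) (x := h0 + s - 1 - t - b / 2 - k) (by norm_num)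
    (by linear_combination s1 + (1 / 2) * b2 + t2 + R.k4 + R.h1) (by linear_combination s2 + (1 / 2) * b1 + t1 + R.k3 + R.h2)
  have e5 := lo (t := (273 / 1000)) (x := s - t - b / 2 - k) (by norm_num)
    (by linear_combination s1 + (1 / 2) * b2 + t2 + R.k4) (by linear_combination s2 + (1 / 2) * b1 + t1 + R.k3)
  have e6 := up (t1 := (284 / 1000)) (t2 := (324 / 1000)) (x := s - t) (by norm_num)
    (by linear_combination (67541 / 62500) * s1 + (67541 / 62500) * t2) (by linear_combination (69061 / 62500) * s2 + (69061 / 62500) * t1)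
  have e7 := lo (t := (-27 / 1000)) (x := h0 - 1 + t + b / 2 + k) (by norm_num)
    (by linear_combination (1 / 2) * b1 + t1 + R.k3 + R.h1) (by linear_combination (1 / 2) * b2 + t2 + R.k4 + R.h2)
  have e8 := lo (t := (71 / 1000)) (x := 1 - h0 - t + b / 2 - k) (by norm_num)
    (by linear_combination (1 / 2) * b1 + t2 + R.k4 + R.h2) (by linear_combination (1 / 2) * b2 + t1 + R.k3 + R.h1)
  have e9 := lo (t := (325 / 1000)) (x := s) (by norm_num)
    (by linear_combination s1) (by linear_combination s2)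
  have e10 := up (t1 := (30 / 1000)) (t2 := (58 / 1000)) (x := b) (by norm_num)
    (by linear_combination (10009 / 10000) * b1) (by linear_combination (250841 / 250000) * b2)
  have c1 := R.ph1
  have c2 := R.qhh
  have c3 := R.rh1
  have c4 := R.sHH (by linear_combination (86603 / 99826) * e10 + R.k2 + (3595879 / 6239125) * b2 + t2 + R.h2)
  linear_combination (9566198761366248088374343750 / 2647546625380415080896412839) * e10 +
    (3200 / 1431) * e9 + (500000 / 994959) * e8 + (1000000 / 999271) * e7 + (250000 / 56749) * e6 +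
    (500000 / 925471) * e5 + (125000 / 240591) * e4 + (500000 / 296813) * e3 + (125000 / 235573) * e2 +
    (375000 / 248861) * e1 + (9047491838369929545690077479000 / 882515541793471693632137613) * R.k1 +
    (1428793405474597014454371669500 / 139344559230548162152442781) * R.k2 + (526199183083582313413685 / 3998744812835127157169367) * s1 +
    (226560204894287228518653500 / 240686056852765007354219349) * t1 + (96356854272629029712000 / 3951338182938517075234803) * R.h1 +
    (1 / 2) * c1 + (1 / 2) * c2 + (1 / 2) * c3 + (1 / 2) * c4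

theorem wa8 {s b t k G1 G2 G3 G4 : ℝ} (R : RegA s b t k G1 G2 G3 G4) (hT : t ≤ 284 / 1000 * s) (hb : 0 ≤ s - t - b)
    (s1 : 57 / 100 ≤ s) (s2 : s ≤ 607 / 1000)
    (b1 : 23 / 200 ≤ b) (b2 : b ≤ 17 / 100) (t1 : 0 ≤ t) (t2 : t ≤ 431 / 10000) :
    4 * ph (s - t) - 2 * ph s ≤ (G1 + G2 + G3 + G4) / 2 := by
  have e1 := up (t1 := (67 / 1000)) (t2 := (68 / 1000)) (x := 1 - h0) (by norm_num)
    (by linear_combination (1004489 / 1000000) * R.h2) (by linear_combination (62789 / 62500) * R.h1)
  have e2 := up (t1 := (229 / 1000)) (t2 := (252 / 1000)) (x := h0 + s - 1) (by norm_num)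
    (by linear_combination (1052441 / 1000000) * s1 + (1052441 / 1000000) * R.h1) (by linear_combination (66469 / 62500) * s2 + (66469 / 62500) * R.h2)
  have e3 := lo (t := (354 / 1000)) (x := s - t + b / 2 - k) (by norm_num)
    (by linear_combination s1 + (1 / 2) * b1 + t2 + R.k4) (by linear_combination s2 + (1 / 2) * b2 + t1 + R.k3)
  have e4 := lo (t := (182 / 1000)) (x := h0 + s - 1 - t - b / 2 - k) (by norm_num)
    (by linear_combination s1 + (1 / 2) * b2 + t2 + R.k4 + R.h1) (by linear_combination s2 + (1 / 2) * b1 + t1 + R.k3 + R.h2)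
  have e5 := lo (t := (260 / 1000)) (x := s - t - b / 2 - k) (by norm_num)
    (by linear_combination s1 + (1 / 2) * b2 + t2 + R.k4) (by linear_combination s2 + (1 / 2) * b1 + t1 + R.k3)
  have e6 := up (t1 := (284 / 1000)) (t2 := (339 / 1000)) (x := s - t) (by norm_num)
    (by linear_combination (67541 / 62500) * s1 + (67541 / 62500) * t2) (by linear_combination (1114921 / 1000000) * s2 + (1114921 / 1000000) * t1)
  have e7 := lo (t := (-16 / 1000)) (x := h0 - 1 + t + b / 2 + k) (by norm_num)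
    (by linear_combination (1 / 2) * b1 + t1 + R.k3 + R.h1) (by linear_combination (1 / 2) * b2 + t2 + R.k4 + R.h2)
  have e8 := lo (t := (51 / 1000)) (x := t + b / 2 + k) (by norm_num)
    (by linear_combination (1 / 2) * b1 + t1 + R.k3) (by linear_combination (1 / 2) * b2 + t2 + R.k4)
  have e9 := up (t1 := (577 / 1000)) (t2 := (642 / 1000)) (x := h0 + t) (by norm_num)
    (by linear_combination (1332929 / 1000000) * t1 + (1332929 / 1000000) * R.h1) (by linear_combination (353041 / 250000) * t2 + (353041 / 250000) * R.h2)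
  have e10 := lo (t := (325 / 1000)) (x := s) (by norm_num)
    (by linear_combination s1) (by linear_combination s2)
  have e11 := up (t1 := (57 / 1000)) (t2 := (86 / 1000)) (x := b) (by norm_num)
    (by linear_combination (1003249 / 1000000) * b1) (by linear_combination (251849 / 250000) * b2)
  have c1 := R.ph1
  have c2 := R.qhh
  have c3 := R.rh1
  have c4 := R.syv (by linear_combination (433015 / 497549) * e11 + R.k2 + (2874667 / 7654600) * b1 + t2) (by linear_combination (866030 / 497549) * e11 + 2 * R.k2 + (4779933 / 3827300) * b2 + t2 + R.h1)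
  linear_combination (17577767317697069735552538389 / 3050110282035384131917052700) * e11 +
    (3200 / 1431) * e10 + (250000 / 314783) * e9 + (500000 / 997399) * e8 + (15625 / 31242) * e7 +
    (1000000 / 225931) * e6 + (1250 / 2331) * e5 + (125000 / 241719) * e4 + (375000 / 218671) * e3 +
    (125000 / 235573) * e2 + (375000 / 248861) * e1 + (100073486160492529177221503287399 / 391039779748126170758596500) * R.k1 +
    (42888912794867060839409308523171 / 167588477034911216039398500) * R.k2 + (3263241191925657750009185 / 26734871927077439450115357) * s1 +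
    (310413517082871120229780930876850 / 2167048141777908400442326630050771) * t1 + (1514571871717411461269500 / 1786687664095612937057259) * R.h2 +
    (1 / 2) * R.h3 + (1 / 2) * c1 + (1 / 2) * c2 + (1 / 2) * c3 + (1 / 2) * c4

theorem wa9 {s b t k G1 G2 G3 G4 : ℝ} (R : RegA s b t k G1 G2 G3 G4) (hT : t ≤ 284 / 1000 * s) (hb : 0 ≤ s - t - b)
    (s1 : 57 / 100 ≤ s) (s2 : s ≤ 607 / 1000)
    (b1 : 17 / 100 ≤ b) (b2 : b ≤ 7 / 25) (t1 : 0 ≤ t) (t2 : t ≤ 431 / 10000) :
    4 * ph (s - t) - 2 * ph s ≤ (G1 + G2 + G3 + G4) / 2 := by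
  have e1 := up (t1 := (67 / 1000)) (t2 := (68 / 1000)) (x := 1 - h0) (by norm_num)
    (by linear_combination (1004489 / 1000000) * R.h2) (by linear_combination (62789 / 62500) * R.h1)
  have e2 := up (t1 := (229 / 1000)) (t2 := (252 / 1000)) (x := h0 + s - 1) (by norm_num)
    (by linear_combination (1052441 / 1000000) * s1 + (1052441 / 1000000) * R.h1) (by linear_combination (66469 / 62500) * s2 + (66469 / 62500) * R.h2)
  have e3 := lo (t := (374 / 1000)) (x := s - t + b / 2 - k) (by norm_num)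
    (by linear_combination s1 + (1 / 2) * b1 + t2 + R.k4) (by linear_combination s2 + (1 / 2) * b2 + t1 + R.k3)
  have e4 := lo (t := (152 / 1000)) (x := h0 + s - 1 - t - b / 2 - k) (by norm_num)
    (by linear_combination s1 + (1 / 2) * b2 + t2 + R.k4 + R.h1) (by linear_combination s2 + (1 / 2) * b1 + t1 + R.k3 + R.h2)
  have e5 := lo (t := (226 / 1000)) (x := s - t - b / 2 - k) (by norm_num)
    (by linear_combination s1 + (1 / 2) * b2 + t2 + R.k4) (by linear_combination s2 + (1 / 2) * b1 + t1 + R.k3)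
  have e6 := up (t1 := (284 / 1000)) (t2 := (339 / 1000)) (x := s - t) (by norm_num)
    (by linear_combination (67541 / 62500) * s1 + (67541 / 62500) * t2) (by linear_combination (1114921 / 1000000) * s2 + (1114921 / 1000000) * t1)
  have e7 := lo (t := (12 / 1000)) (x := h0 - 1 + t + b / 2 + k) (by norm_num)
    (by linear_combination (1 / 2) * b1 + t1 + R.k3 + R.h1) (by linear_combination (1 / 2) * b2 + t2 + R.k4 + R.h2)
  have e8 := lo (t := (79 / 1000)) (x := t + b / 2 + k) (by norm_num)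
    (by linear_combination (1 / 2) * b1 + t1 + R.k3) (by linear_combination (1 / 2) * b2 + t2 + R.k4)
  have e9 := up (t1 := (577 / 1000)) (t2 := (642 / 1000)) (x := h0 + t) (by norm_num)
    (by linear_combination (1332929 / 1000000) * t1 + (1332929 / 1000000) * R.h1) (by linear_combination (353041 / 250000) * t2 + (353041 / 250000) * R.h2)
  have e10 := lo (t := (325 / 1000)) (x := s) (by norm_num)
    (by linear_combination s1) (by linear_combination s2)
  have e11 := up (t1 := (85 / 1000)) (t2 := (143 / 1000)) (x := b) (by norm_num)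
    (by linear_combination (40289 / 40000) * b1) (by linear_combination (1020449 / 1000000) * b2)
  have c1 := R.ph1
  have c2 := R.qhh
  have c3 := R.rh1
  have c4 := R.syv (by linear_combination (125 / 57) * e11 + (14823383 / 114) * R.k1 + (14823497 / 114) * R.k2 + t2) (by linear_combination (346412 / 197569) * e11 + 2 * R.k2 + (34568867 / 24696125) * b2 + t2 + R.h1)
  linear_combination (89365152901193191153989829 / 21812460571028299935391200) * e11 +
    (3200 / 1431) * e10 + (250000 / 314783) * e9 + (500000 / 993759) * e8 + (31250 / 62491) * e7 +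
    (1000000 / 225931) * e6 + (125000 / 237231) * e5 + (15625 / 30528) * e4 + (125000 / 71677) * e3 +
    (125000 / 235573) * e2 + (375000 / 248861) * e1 + (3951138476740428844300479106951 / 43624921142056599870782400) * R.k1 +
    (47604922529794704335865797147 / 525601459542850600852800) * R.k2 + (49250139936612020239205 / 354206353509640791903456) * s1 +
    (198811928334771191034086158579375 / 1088621455528169215735233177298272) * t1 + (1154104664275659611844625 / 1354054373100418034197152) * R.h2 +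
    (1 / 2) * R.h3 + (1 / 2) * c1 + (1 / 2) * c2 + (1 / 2) * c3 + (1 / 2) * c4

theorem wa10 {s b t k G1 G2 G3 G4 : ℝ} (R : RegA s b t k G1 G2 G3 G4) (hT : t ≤ 284 / 1000 * s) (hb : 0 ≤ s - t - b)
    (s1 : 57 / 100 ≤ s) (s2 : s ≤ 607 / 1000)
    (b1 : 3 / 50 ≤ b) (b2 : b ≤ 7 / 25) (t1 : 431 / 10000 ≤ t) (t2 : t ≤ 862 / 10000) :
    4 * ph (s - t) - 2 * ph s ≤ (G1 + G2 + G3 + G4) / 2 := by
  have e1 := up (t1 := (67 / 1000)) (t2 := (68 / 1000)) (x := 1 - h0) (by norm_num)
    (by linear_combination (1004489 / 1000000) * R.h2) (by linear_combination (62789 / 62500) * R.h1)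
  have e2 := up (t1 := (229 / 1000)) (t2 := (252 / 1000)) (x := h0 + s - 1) (by norm_num)
    (by linear_combination (1052441 / 1000000) * s1 + (1052441 / 1000000) * R.h1) (by linear_combination (66469 / 62500) * s2 + (66469 / 62500) * R.h2)
  have e3 := lo (t := (327 / 1000)) (x := s - t + b / 2 - k) (by norm_num)
    (by linear_combination s1 + (1 / 2) * b1 + t2 + R.k4) (by linear_combination s2 + (1 / 2) * b2 + t1 + R.k3)
  have e4 := lo (t := (146 / 1000)) (x := h0 + s - 1 - t - b / 2 - k) (by norm_num)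
    (by linear_combination s1 + (1 / 2) * b2 + t2 + R.k4 + R.h1) (by linear_combination s2 + (1 / 2) * b1 + t1 + R.k3 + R.h2)
  have e5 := lo (t := (221 / 1000)) (x := s - t - b / 2 - k) (by norm_num)
    (by linear_combination s1 + (1 / 2) * b2 + t2 + R.k4) (by linear_combination s2 + (1 / 2) * b1 + t1 + R.k3)
  have e6 := up (t1 := (258 / 1000)) (t2 := (309 / 1000)) (x := s - t) (by norm_num)
    (by linear_combination (266641 / 250000) * s1 + (266641 / 250000) * t2) (by linear_combination (1095481 / 1000000) * s2 + (1095481 / 1000000) * t1)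
  have e7 := lo (t := (17 / 1000)) (x := h0 - 1 + t + b / 2 + k) (by norm_num)
    (by linear_combination (1 / 2) * b1 + t1 + R.k3 + R.h1) (by linear_combination (1 / 2) * b2 + t2 + R.k4 + R.h2)
  have e8 := lo (t := (325 / 1000)) (x := s) (by norm_num)
    (by linear_combination s1) (by linear_combination s2)
  have e9 := up (t1 := (30 / 1000)) (t2 := (143 / 1000)) (x := b) (by norm_num)
    (by linear_combination (10009 / 10000) * b1) (by linear_combination (1020449 / 1000000) * b2)
  have c1 := R.ph1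
  have c2 := R.qhh
  have c3 := R.rh1
  linear_combination (580721120458042365805308500 / 208974719354697968528319561) * e9 +
    (3200 / 1431) * e8 + (500000 / 999711) * e7 + (2000000 / 460139) * e6 + (500000 / 951159) * e5 +
    (125000 / 244671) * e4 + (1500000 / 893071) * e3 + (125000 / 235573) * e2 + (375000 / 248861) * e1 +
    (33774735839440187514500 / 23086259180902849763601) * R.k2 + (58914612491446875091581034945 / 275543350341933223742560929099) * s1 +
    (174371641644038123377707217 / 1532481275267785102541010114) * b2 + (10638744736719663189189018500 / 10622888213241456387373600539) * t1 +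
    (42056762824273754000 / 367683986141610304887) * R.h1 + (1 / 2) * c1 + (1 / 2) * c2 +
    (1 / 2) * c3 + (1 / 2) * R.n4

theorem wa11 {s b t k G1 G2 G3 G4 : ℝ} (R : RegA s b t k G1 G2 G3 G4) (hT : t ≤ 284 / 1000 * s) (hb : 0 ≤ s - t - b)
    (s1 : 57 / 100 ≤ s) (s2 : s ≤ 607 / 1000)
    (b1 : 3 / 50 ≤ b) (b2 : b ≤ 7 / 25) (t1 : 862 / 10000 ≤ t) (t2 : t ≤ 345 / 2000) :
    4 * ph (s - t) - 2 * ph s ≤ (G1 + G2 + G3 + G4) / 2 := by
  have e1 := up (t1 := (67 / 1000)) (t2 := (68 / 1000)) (x := 1 - h0) (by norm_num)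
    (by linear_combination (1004489 / 1000000) * R.h2) (by linear_combination (62789 / 62500) * R.h1)
  have e2 := up (t1 := (229 / 1000)) (t2 := (252 / 1000)) (x := h0 + s - 1) (by norm_num)
    (by linear_combination (1052441 / 1000000) * s1 + (1052441 / 1000000) * R.h1) (by linear_combination (66469 / 62500) * s2 + (66469 / 62500) * R.h2)
  have e3 := lo (t := (284 / 1000)) (x := s - t + b / 2 - k) (by norm_num)
    (by linear_combination s1 + (1 / 2) * b1 + t2 + R.k4) (by linear_combination s2 + (1 / 2) * b2 + t1 + R.k3)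
  have e4 := lo (t := (112 / 1000)) (x := h0 + s - 1 - t - b / 2 - k) (by norm_num)
    (by linear_combination s1 + (1 / 2) * b2 + t2 + R.k4 + R.h1) (by linear_combination s2 + (1 / 2) * b1 + t1 + R.k3 + R.h2)
  have e5 := lo (t := (184 / 1000)) (x := s - t - b / 2 - k) (by norm_num)
    (by linear_combination s1 + (1 / 2) * b2 + t2 + R.k4) (by linear_combination s2 + (1 / 2) * b1 + t1 + R.k3)
  have e6 := up (t1 := (207 / 1000)) (t2 := (281 / 1000)) (x := s - t) (by norm_num)
    (by linear_combination (1042849 / 1000000) * s1 + (1042849 / 1000000) * t2) (by linear_combination (1078961 / 1000000) * s2 + (1078961 / 1000000) * t1)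
  have e7 := lo (t := (49 / 1000)) (x := h0 - 1 + t + b / 2 + k) (by norm_num)
    (by linear_combination (1 / 2) * b1 + t1 + R.k3 + R.h1) (by linear_combination (1 / 2) * b2 + t2 + R.k4 + R.h2)
  have e8 := lo (t := (325 / 1000)) (x := s) (by norm_num)
    (by linear_combination s1) (by linear_combination s2)
  have e9 := up (t1 := (30 / 1000)) (t2 := (143 / 1000)) (x := b) (by norm_num)
    (by linear_combination (10009 / 10000) * b1) (by linear_combination (1020449 / 1000000) * b2)
  have c1 := R.ph1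
  have c2 := R.qhh
  have c3 := R.rh1
  linear_combination (3372115722797133719375 / 1330702936632179218776) * e9 + (3200 / 1431) * e8 +
    (500000 / 997599) * e7 + (4000000 / 941833) * e6 + (15625 / 30192) * e5 + (15625 / 30858) * e4 +
    (31250 / 19153) * e3 + (125000 / 235573) * e2 + (375000 / 248861) * e1 + (15789999775898125 / 13364362481366856) * R.k2 +
    (116595604639115810639485 / 327180896966984608082952) * s1 + (363368206738611673705 / 3548541164352477916736) * b2 +
    (11215692704694644148875 / 12586997608913190087048) * t1 + (2562189610629624250 / 23137238947571719917) * R.h1 +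
    (1 / 2) * c1 + (1 / 2) * c2 + (1 / 2) * c3 + (1 / 2) * R.n4

theorem wa13 {s b t k G1 G2 G3 G4 : ℝ} (R : RegA s b t k G1 G2 G3 G4) (hT : t ≤ 284 / 1000 * s) (hb : 0 ≤ s - t - b)
    (s1 : 57 / 100 ≤ s) (s2 : s ≤ 607 / 1000)
    (b1 : 7 / 25 ≤ b) (b2 : b ≤ 1 / 2) (t1 : 0 ≤ t) (t2 : t ≤ 862 / 10000) :
    4 * ph (s - t) - 2 * ph s ≤ (G1 + G2 + G3 + G4) / 2 := by
  have e1 := up (t1 := (67 / 1000)) (t2 := (68 / 1000)) (x := 1 - h0) (by norm_num)
    (by linear_combination (1004489 / 1000000) * R.h2) (by linear_combination (62789 / 62500) * R.h1)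
  have e2 := up (t1 := (229 / 1000)) (t2 := (252 / 1000)) (x := h0 + s - 1) (by norm_num)
    (by linear_combination (1052441 / 1000000) * s1 + (1052441 / 1000000) * R.h1) (by linear_combination (66469 / 62500) * s2 + (66469 / 62500) * R.h2)
  have e3 := lo (t := (381 / 1000)) (x := s - t + b / 2 - k) (by norm_num)
    (by linear_combination s1 + (1 / 2) * b1 + t2 + R.k4) (by linear_combination s2 + (1 / 2) * b2 + t1 + R.k3)
  have e4 := lo (t := (71 / 1000)) (x := h0 + s - 1 - t - b / 2 - k) (by norm_num)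
    (by linear_combination s1 + (1 / 2) * b2 + t2 + R.k4 + R.h1) (by linear_combination s2 + (1 / 2) * b1 + t1 + R.k3 + R.h2)
  have e5 := lo (t := (140 / 1000)) (x := s - t - b / 2 - k) (by norm_num)
    (by linear_combination s1 + (1 / 2) * b2 + t2 + R.k4) (by linear_combination s2 + (1 / 2) * b1 + t1 + R.k3)
  have e6 := up (t1 := (258 / 1000)) (t2 := (339 / 1000)) (x := s - t) (by norm_num)
    (by linear_combination (266641 / 250000) * s1 + (266641 / 250000) * t2) (by linear_combination (1114921 / 1000000) * s2 + (1114921 / 1000000) * t1)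
  have e7 := lo (t := (90 / 1000)) (x := h0 - 1 + t + b / 2 + k) (by norm_num)
    (by linear_combination (1 / 2) * b1 + t1 + R.k3 + R.h1) (by linear_combination (1 / 2) * b2 + t2 + R.k4 + R.h2)
  have e8 := lo (t := (161 / 1000)) (x := t + b / 2 + k) (by norm_num)
    (by linear_combination (1 / 2) * b1 + t1 + R.k3) (by linear_combination (1 / 2) * b2 + t2 + R.k4)
  have e9 := up (t1 := (577 / 1000)) (t2 := (730 / 1000)) (x := h0 + t) (by norm_num)
    (by linear_combination (1332929 / 1000000) * t1 + (1332929 / 1000000) * R.h1) (by linear_combination (15329 / 10000) * t2 + (15329 / 10000) * R.h2)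
  have e10 := lo (t := (325 / 1000)) (x := s) (by norm_num)
    (by linear_combination s1) (by linear_combination s2)
  have e11 := up (t1 := (142 / 1000)) (t2 := (268 / 1000)) (x := b) (by norm_num)
    (by linear_combination (255041 / 250000) * b1) (by linear_combination (66989 / 62500) * b2)
  have c1 := R.ph1
  have c2 := R.qhh
  have c3 := R.rh1
  have c4 := R.syv (by linear_combination (50 / 41) * e11 + (1258997 / 41) * R.k1 + (1259038 / 41) * R.k2 + t2) (by linear_combination (433015 / 240486) * e11 + 2 * R.k2 + (8360443 / 4809720) * b2 + t2 + R.h1)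
  linear_combination (1779284286733513800256803125 / 596011217358611562426600318) * e11 +
    (3200 / 1431) * e10 + (50000 / 57879) * e9 + (500000 / 974079) * e8 + (5000 / 9919) * e7 +
    (2000000 / 456269) * e6 + (1250 / 2451) * e5 + (500000 / 994959) * e4 + (1500000 / 854839) * e3 +
    (125000 / 235573) * e2 + (375000 / 248861) * e1 + (3210055902842247898750 / 2478361390511761859013) * R.k2 +
    (121199892189745127830416035 / 913506867097707918874246947) * s1 + (33237108697268222580427103051 / 327478690856379979355274900000) * b2 +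
    (12847359195608879459483748800 / 66717168923957253227350147323) * t1 + (42462629440524988650 / 41679599729754870793) * R.h2 +
    (1 / 2) * R.h3 + (1 / 2) * c1 + (1 / 2) * c2 + (1 / 2) * c3 + (1 / 2) * c4

theorem wa15 {s b t k G1 G2 G3 G4 : ℝ} (R : RegA s b t k G1 G2 G3 G4) (hT : t ≤ 284 / 1000 * s) (hb : 0 ≤ s - t - b)
    (s1 : 57 / 100 ≤ s) (s2 : s ≤ 607 / 1000)
    (b1 : 7 / 25 ≤ b) (b2 : b ≤ 39 / 100) (t1 : 862 / 10000 ≤ t) (t2 : t ≤ 345 / 2000) :
    4 * ph (s - t) - 2 * ph s ≤ (G1 + G2 + G3 + G4) / 2 := by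
  have e1 := up (t1 := (67 / 1000)) (t2 := (68 / 1000)) (x := 1 - h0) (by norm_num)
    (by linear_combination (1004489 / 1000000) * R.h2) (by linear_combination (62789 / 62500) * R.h1)
  have e2 := up (t1 := (229 / 1000)) (t2 := (252 / 1000)) (x := h0 + s - 1) (by norm_num)
    (by linear_combination (1052441 / 1000000) * s1 + (1052441 / 1000000) * R.h1) (by linear_combination (66469 / 62500) * s2 + (66469 / 62500) * R.h2)
  have e3 := lo (t := (316 / 1000)) (x := s - t + b / 2 - k) (by norm_num)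
    (by linear_combination s1 + (1 / 2) * b1 + t2 + R.k4) (by linear_combination s2 + (1 / 2) * b2 + t1 + R.k3)
  have e4 := lo (t := (53 / 1000)) (x := h0 + s - 1 - t - b / 2 - k) (by norm_num)
    (by linear_combination s1 + (1 / 2) * b2 + t2 + R.k4 + R.h1) (by linear_combination s2 + (1 / 2) * b1 + t1 + R.k3 + R.h2)
  have e5 := lo (t := (122 / 1000)) (x := s - t - b / 2 - k) (by norm_num)
    (by linear_combination s1 + (1 / 2) * b2 + t2 + R.k4) (by linear_combination s2 + (1 / 2) * b1 + t1 + R.k3)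
  have e6 := up (t1 := (207 / 1000)) (t2 := (281 / 1000)) (x := s - t) (by norm_num)
    (by linear_combination (1042849 / 1000000) * s1 + (1042849 / 1000000) * t2) (by linear_combination (1078961 / 1000000) * s2 + (1078961 / 1000000) * t1)
  have e7 := lo (t := (109 / 1000)) (x := h0 - 1 + t + b / 2 + k) (by norm_num)
    (by linear_combination (1 / 2) * b1 + t1 + R.k3 + R.h1) (by linear_combination (1 / 2) * b2 + t2 + R.k4 + R.h2)
  have e8 := lo (t := (325 / 1000)) (x := s) (by norm_num)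
    (by linear_combination s1) (by linear_combination s2)
  have e9 := up (t1 := (142 / 1000)) (t2 := (204 / 1000)) (x := b) (by norm_num)
    (by linear_combination (255041 / 250000) * b1) (by linear_combination (65101 / 62500) * b2)
  have c1 := R.ph1
  have c2 := R.qhh
  have c3 := R.rh1
  linear_combination (10618350514993649751875 / 4174698664443737280942) * e9 + (3200 / 1431) * e8 +
    (500000 / 988119) * e7 + (4000000 / 941833) * e6 + (125000 / 246279) * e5 + (500000 / 997191) * e4 +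
    (31250 / 18753) * e3 + (125000 / 235573) * e2 + (375000 / 248861) * e1 + (211837519848302750 / 189166516896996639) * R.k2 +
    (3505098219597367043420755 / 9848453781288410843445891) * s1 + (71051858478587206425545 / 183686741235524440361448) * b2 +
    (3611435620247891816750 / 3790707832098915648921) * t1 + (6125355624301767500 / 54858203826533164629) * R.h1 +
    (1 / 2) * c1 + (1 / 2) * c2 + (1 / 2) * c3 + (1 / 2) * R.n4

theorem wa18 {s b t k G1 G2 G3 G4 : ℝ} (R : RegA s b t k G1 G2 G3 G4) (hT : t ≤ 284 / 1000 * s) (hb : 0 ≤ s - t - b)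
    (s1 : 57 / 100 ≤ s) (s2 : s ≤ 607 / 1000)
    (b1 : 39 / 100 ≤ b) (b2 : b ≤ 1 / 2) (t1 : 862 / 10000 ≤ t) (t2 : t ≤ 1078 / 10000) :
    4 * ph (s - t) - 2 * ph s ≤ (G1 + G2 + G3 + G4) / 2 := by
  have e1 := up (t1 := (67 / 1000)) (t2 := (68 / 1000)) (x := 1 - h0) (by norm_num)
    (by linear_combination (1004489 / 1000000) * R.h2) (by linear_combination (62789 / 62500) * R.h1)
  have e2 := up (t1 := (229 / 1000)) (t2 := (252 / 1000)) (x := h0 + s - 1) (by norm_num)
    (by linear_combination (1052441 / 1000000) * s1 + (1052441 / 1000000) * R.h1) (by linear_combination (66469 / 62500) * s2 + (66469 / 62500) * R.h2)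
  have e3 := lo (t := (349 / 1000)) (x := s - t + b / 2 - k) (by norm_num)
    (by linear_combination s1 + (1 / 2) * b1 + t2 + R.k4) (by linear_combination s2 + (1 / 2) * b2 + t1 + R.k3)
  have e4 := lo (t := (21 / 1000)) (x := h0 + s - 1 - t - b / 2 - k) (by norm_num)
    (by linear_combination s1 + (1 / 2) * b2 + t2 + R.k4 + R.h1) (by linear_combination s2 + (1 / 2) * b1 + t1 + R.k3 + R.h2)
  have e5 := up (t1 := (244 / 1000)) (t2 := (281 / 1000)) (x := s - t) (by norm_num)
    (by linear_combination (66221 / 62500) * s1 + (66221 / 62500) * t2) (by linear_combination (1078961 / 1000000) * s2 + (1078961 / 1000000) * t1)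
  have e6 := lo (t := (142 / 1000)) (x := h0 - 1 + t + b / 2 + k) (by norm_num)
    (by linear_combination (1 / 2) * b1 + t1 + R.k3 + R.h1) (by linear_combination (1 / 2) * b2 + t2 + R.k4 + R.h2)
  have e7 := lo (t := (215 / 1000)) (x := t + b / 2 + k) (by norm_num)
    (by linear_combination (1 / 2) * b1 + t1 + R.k3) (by linear_combination (1 / 2) * b2 + t2 + R.k4)
  have e8 := up (t1 := (729 / 1000)) (t2 := (794 / 1000)) (x := h0 + t) (by norm_num)
    (by linear_combination (1531441 / 1000000) * t1 + (1531441 / 1000000) * R.h1) (by linear_combination (407609 / 250000) * t2 + (407609 / 250000) * R.h2)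
  have e9 := lo (t := (325 / 1000)) (x := s) (by norm_num)
    (by linear_combination s1) (by linear_combination s2)
  have e10 := up (t1 := (203 / 1000)) (t2 := (268 / 1000)) (x := b) (by norm_num)
    (by linear_combination (1041209 / 1000000) * b1) (by linear_combination (66989 / 62500) * b2)
  have c1 := R.ph1
  have c2 := R.qh1
  have c3 := R.rh1
  have c4 := R.syv (by linear_combination (500 / 471) * e10 + (6489787 / 471) * R.k1 + (6490258 / 471) * R.k2 + t2) (by linear_combination (433015 / 236399) * e10 + 2 * R.k2 + (88069813 / 47279800) * b2 + t2 + R.h1)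
  linear_combination (4704700642087284257456750 / 1780813559849715276091479) * e10 + (3200 / 1431) * e9 +
    (250000 / 210587) * e8 + (20000 / 38151) * e7 + (125000 / 244959) * e6 + (1000000 / 232859) * e5 +
    (1000000 / 999559) * e4 + (500000 / 292733) * e3 + (125000 / 235573) * e2 + (250000 / 248861) * e1 +
    (71585231891056514900 / 82863925644130762131) * R.k2 + (28582220232419055946115 / 160620973751149658208693) * s1 +
    (7692214022723977756499132387 / 150684224294975907976971300000) * b2 + (82930708570584794772909050 / 198709218274963817296677627) * t2 +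
    (217730761731491777033125 / 125081478058091508220773) * R.h2 + (1 / 2) * R.h3 + (1 / 2) * c1 +
    (1 / 2) * c2 + (1 / 2) * c3 + (1 / 2) * c4

theorem wa20 {s b t k G1 G2 G3 G4 : ℝ} (R : RegA s b t k G1 G2 G3 G4) (hT : t ≤ 284 / 1000 * s) (hb : 0 ≤ s - t - b)
    (s1 : 57 / 100 ≤ s) (s2 : s ≤ 607 / 1000)
    (b1 : 39 / 100 ≤ b) (b2 : b ≤ 89 / 200) (t1 : 1078 / 10000 ≤ t) (t2 : t ≤ 1294 / 10000) :
    4 * ph (s - t) - 2 * ph s ≤ (G1 + G2 + G3 + G4) / 2 := by
  have e1 := up (t1 := (67 / 1000)) (t2 := (68 / 1000)) (x := 1 - h0) (by norm_num)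
    (by linear_combination (1004489 / 1000000) * R.h2) (by linear_combination (62789 / 62500) * R.h1)
  have e2 := up (t1 := (229 / 1000)) (t2 := (252 / 1000)) (x := h0 + s - 1) (by norm_num)
    (by linear_combination (1052441 / 1000000) * s1 + (1052441 / 1000000) * R.h1) (by linear_combination (66469 / 62500) * s2 + (66469 / 62500) * R.h2)
  have e3 := lo (t := (333 / 1000)) (x := s - t + b / 2 - k) (by norm_num)
    (by linear_combination s1 + (1 / 2) * b1 + t2 + R.k4) (by linear_combination s2 + (1 / 2) * b2 + t1 + R.k3)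
  have e4 := lo (t := (24 / 1000)) (x := h0 + s - 1 - t - b / 2 - k) (by norm_num)
    (by linear_combination s1 + (1 / 2) * b2 + t2 + R.k4 + R.h1) (by linear_combination s2 + (1 / 2) * b1 + t1 + R.k3 + R.h2)
  have e5 := lo (t := (92 / 1000)) (x := s - t - b / 2 - k) (by norm_num)
    (by linear_combination s1 + (1 / 2) * b2 + t2 + R.k4) (by linear_combination s2 + (1 / 2) * b1 + t1 + R.k3)
  have e6 := up (t1 := (232 / 1000)) (t2 := (268 / 1000)) (x := s - t) (by norm_num)
    (by linear_combination (16466 / 15625) * s1 + (16466 / 15625) * t2) (by linear_combination (66989 / 62500) * s2 + (66989 / 62500) * t1)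
  have e7 := lo (t := (139 / 1000)) (x := h0 - 1 + t + b / 2 + k) (by norm_num)
    (by linear_combination (1 / 2) * b1 + t1 + R.k3 + R.h1) (by linear_combination (1 / 2) * b2 + t2 + R.k4 + R.h2)
  have e8 := lo (t := (325 / 1000)) (x := s) (by norm_num)
    (by linear_combination s1) (by linear_combination s2)
  have e9 := up (t1 := (203 / 1000)) (t2 := (235 / 1000)) (x := b) (by norm_num)
    (by linear_combination (1041209 / 1000000) * b1) (by linear_combination (42209 / 40000) * b2)
  have c1 := R.ph1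
  have c2 := R.qhh
  have c3 := R.rh1
  linear_combination (3283423162713532256829625 / 1275475491717428977795456) * e9 + (3200 / 1431) * e8 +
    (500000 / 980679) * e7 + (125000 / 29307) * e6 + (31250 / 61971) * e5 + (15625 / 31232) * e4 +
    (1500000 / 889111) * e3 + (125000 / 235573) * e2 + (375000 / 248861) * e1 + (14715055437170484875 / 13393701444588378368) * R.k2 +
    (22239474596230454937639815 / 72654904606754344376855808) * s1 + (935909964166500278633 / 1691612057980675036864) * b2 +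
    (405852210589618247768375 / 392529208236551604830976) * t1 + (7869581977221165125 / 69061447722052310784) * R.h1 +
    (1 / 2) * c1 + (1 / 2) * c2 + (1 / 2) * c3 + (1 / 2) * R.n4

theorem wa21 {s b t k G1 G2 G3 G4 : ℝ} (R : RegA s b t k G1 G2 G3 G4) (hT : t ≤ 284 / 1000 * s) (hb : 0 ≤ s - t - b)
    (s1 : 57 / 100 ≤ s) (s2 : s ≤ 607 / 1000)
    (b1 : 89 / 200 ≤ b) (b2 : b ≤ 1 / 2) (t1 : 1078 / 10000 ≤ t) (t2 : t ≤ 1294 / 10000) :
    4 * ph (s - t) - 2 * ph s ≤ (G1 + G2 + G3 + G4) / 2 := by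
  have e1 := up (t1 := (67 / 1000)) (t2 := (68 / 1000)) (x := 1 - h0) (by norm_num)
    (by linear_combination (1004489 / 1000000) * R.h2) (by linear_combination (62789 / 62500) * R.h1)
  have e2 := up (t1 := (229 / 1000)) (t2 := (252 / 1000)) (x := h0 + s - 1) (by norm_num)
    (by linear_combination (1052441 / 1000000) * s1 + (1052441 / 1000000) * R.h1) (by linear_combination (66469 / 62500) * s2 + (66469 / 62500) * R.h2)
  have e3 := lo (t := (335 / 1000)) (x := s - t + b / 2 - k) (by norm_num)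
    (by linear_combination s1 + (1 / 2) * b1 + t2 + R.k4) (by linear_combination s2 + (1 / 2) * b2 + t1 + R.k3)
  have e4 := lo (t := (-2 / 1000)) (x := h0 + s - 1 - t - b / 2 - k) (by norm_num)
    (by linear_combination s1 + (1 / 2) * b2 + t2 + R.k4 + R.h1) (by linear_combination s2 + (1 / 2) * b1 + t1 + R.k3 + R.h2)
  have e5 := up (t1 := (232 / 1000)) (t2 := (268 / 1000)) (x := s - t) (by norm_num)
    (by linear_combination (16466 / 15625) * s1 + (16466 / 15625) * t2) (by linear_combination (66989 / 62500) * s2 + (66989 / 62500) * t1)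
  have e6 := lo (t := (167 / 1000)) (x := h0 - 1 + t + b / 2 + k) (by norm_num)
    (by linear_combination (1 / 2) * b1 + t1 + R.k3 + R.h1) (by linear_combination (1 / 2) * b2 + t2 + R.k4 + R.h2)
  have e7 := lo (t := (243 / 1000)) (x := t + b / 2 + k) (by norm_num)
    (by linear_combination (1 / 2) * b1 + t1 + R.k3) (by linear_combination (1 / 2) * b2 + t2 + R.k4)
  have e8 := up (t1 := (793 / 1000)) (t2 := (909 / 1000)) (x := h0 + t) (by norm_num)
    (by linear_combination (1628849 / 1000000) * t1 + (1628849 / 1000000) * R.h1) (by linear_combination (1826281 / 1000000) * t2 + (1826281 / 1000000) * R.h2)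
  have e9 := lo (t := (325 / 1000)) (x := s) (by norm_num)
    (by linear_combination s1) (by linear_combination s2)
  have e10 := up (t1 := (234 / 1000)) (t2 := (268 / 1000)) (x := b) (by norm_num)
    (by linear_combination (263689 / 250000) * b1) (by linear_combination (66989 / 62500) * b2)
  have c1 := R.ph1
  have c2 := R.qh1
  have c3 := R.rh1
  have c4 := R.syv (by linear_combination (39365 / 42604) * e10 + R.k2 + (154077 / 4260400) * b1 + t2) (by linear_combination (39365 / 21302) * e10 + 2 * R.k2 + (4106323 / 2130200) * b2 + t2 + R.h1)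
  linear_combination (3448720290238195029072250 / 1372884097974073437023733) * e10 + (3200 / 1431) * e9 +
    (500000 / 279163) * e8 + (500000 / 940951) * e7 + (500000 / 972111) * e6 + (125000 / 29307) * e5 +
    (250000 / 249999) * e4 + (20000 / 11837) * e3 + (125000 / 235573) * e2 + (250000 / 248861) * e1 +
    (89970650124939683600 / 128897201950434084783) * R.k2 + (48413528876969657245 / 249879465388690607799) * s1 +
    (6175909383242690947982287367 / 137288409797407343702373300000) * b2 + (567286607903214955374531648700 / 351521146746041738077992388701) * t2 +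
    (101990870308017369373052125 / 33994485968004917080104463) * R.h2 + (1 / 2) * R.h3 +
    (1 / 2) * c1 + (1 / 2) * c2 + (1 / 2) * c3 + (1 / 2) * c4

theorem wa23 {s b t k G1 G2 G3 G4 : ℝ} (R : RegA s b t k G1 G2 G3 G4) (hT : t ≤ 284 / 1000 * s) (hb : 0 ≤ s - t - b)
    (s1 : 57 / 100 ≤ s) (s2 : s ≤ 607 / 1000)
    (b1 : 39 / 100 ≤ b) (b2 : b ≤ 89 / 200) (t1 : 1294 / 10000 ≤ t) (t2 : t ≤ 345 / 2000) :
    4 * ph (s - t) - 2 * ph s ≤ (G1 + G2 + G3 + G4) / 2 := by
  have e1 := up (t1 := (67 / 1000)) (t2 := (68 / 1000)) (x := 1 - h0) (by norm_num)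
    (by linear_combination (1004489 / 1000000) * R.h2) (by linear_combination (62789 / 62500) * R.h1)
  have e2 := up (t1 := (229 / 1000)) (t2 := (252 / 1000)) (x := h0 + s - 1) (by norm_num)
    (by linear_combination (1052441 / 1000000) * s1 + (1052441 / 1000000) * R.h1) (by linear_combination (66469 / 62500) * s2 + (66469 / 62500) * R.h2)
  have e3 := lo (t := (311 / 1000)) (x := s - t + b / 2 - k) (by norm_num)
    (by linear_combination s1 + (1 / 2) * b1 + t2 + R.k4) (by linear_combination s2 + (1 / 2) * b2 + t1 + R.k3)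
  have e4 := lo (t := (8 / 1000)) (x := h0 + s - 1 - t - b / 2 - k) (by norm_num)
    (by linear_combination s1 + (1 / 2) * b2 + t2 + R.k4 + R.h1) (by linear_combination s2 + (1 / 2) * b1 + t1 + R.k3 + R.h2)
  have e5 := up (t1 := (207 / 1000)) (t2 := (255 / 1000)) (x := s - t) (by norm_num)
    (by linear_combination (1042849 / 1000000) * s1 + (1042849 / 1000000) * t2) (by linear_combination (42601 / 40000) * s2 + (42601 / 40000) * t1)
  have e6 := lo (t := (156 / 1000)) (x := h0 - 1 + t + b / 2 + k) (by norm_num)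
    (by linear_combination (1 / 2) * b1 + t1 + R.k3 + R.h1) (by linear_combination (1 / 2) * b2 + t2 + R.k4 + R.h2)
  have e7 := lo (t := (325 / 1000)) (x := s) (by norm_num)
    (by linear_combination s1) (by linear_combination s2)
  have e8 := up (t1 := (203 / 1000)) (t2 := (235 / 1000)) (x := b) (by norm_num)
    (by linear_combination (1041209 / 1000000) * b1) (by linear_combination (42209 / 40000) * b2)
  have c1 := R.ph1
  have c2 := R.qh1
  have c3 := R.rh1
  linear_combination (32557590751028733625 / 13658867610903744138) * e8 + (3200 / 1431) * e7 +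
    (31250 / 60979) * e6 + (800000 / 189443) * e5 + (15625 / 15624) * e4 + (500000 / 301093) * e3 +
    (125000 / 235573) * e2 + (250000 / 248861) * e1 + (127512125052875 / 143431054567164) * R.k2 +
    (7175668386395135245 / 24223944964085583444) * s1 + (3111695578773719617 / 6829433805451872069) * b2 +
    (28855838261632015775 / 27172009270367249652) * t1 + (120905321506342375 / 2148233748202878588) * R.h1 +
    (1 / 2) * c1 + (1 / 2) * c2 + (1 / 2) * c3 + (1 / 2) * R.n4

theorem wa26 {s b t k G1 G2 G3 G4 : ℝ} (R : RegA s b t k G1 G2 G3 G4) (hT : t ≤ 284 / 1000 * s) (hb : 0 ≤ s - t - b)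
    (s1 : 57 / 100 ≤ s) (s2 : s ≤ 607 / 1000)
    (b1 : 89 / 200 ≤ b) (b2 : b ≤ 945 / 2000) (t1 : 1294 / 10000 ≤ t) (t2 : t ≤ 1509 / 10000) :
    4 * ph (s - t) - 2 * ph s ≤ (G1 + G2 + G3 + G4) / 2 := by
  have e1 := up (t1 := (67 / 1000)) (t2 := (68 / 1000)) (x := 1 - h0) (by norm_num)
    (by linear_combination (1004489 / 1000000) * R.h2) (by linear_combination (62789 / 62500) * R.h1)
  have e2 := up (t1 := (229 / 1000)) (t2 := (252 / 1000)) (x := h0 + s - 1) (by norm_num)
    (by linear_combination (1052441 / 1000000) * s1 + (1052441 / 1000000) * R.h1) (by linear_combination (66469 / 62500) * s2 + (66469 / 62500) * R.h2)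
  have e3 := lo (t := (320 / 1000)) (x := s - t + b / 2 - k) (by norm_num)
    (by linear_combination s1 + (1 / 2) * b1 + t2 + R.k4) (by linear_combination s2 + (1 / 2) * b2 + t1 + R.k3)
  have e4 := lo (t := (-6 / 1000)) (x := h0 + s - 1 - t - b / 2 - k) (by norm_num)
    (by linear_combination s1 + (1 / 2) * b2 + t2 + R.k4 + R.h1) (by linear_combination s2 + (1 / 2) * b1 + t1 + R.k3 + R.h2)
  have e5 := up (t1 := (219 / 1000)) (t2 := (255 / 1000)) (x := s - t) (by norm_num)
    (by linear_combination (1047961 / 1000000) * s1 + (1047961 / 1000000) * t2) (by linear_combination (42601 / 40000) * s2 + (42601 / 40000) * t1)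
  have e6 := lo (t := (171 / 1000)) (x := h0 - 1 + t + b / 2 + k) (by norm_num)
    (by linear_combination (1 / 2) * b1 + t1 + R.k3 + R.h1) (by linear_combination (1 / 2) * b2 + t2 + R.k4 + R.h2)
  have e7 := lo (t := (325 / 1000)) (x := s) (by norm_num)
    (by linear_combination s1) (by linear_combination s2)
  have e8 := up (t1 := (234 / 1000)) (t2 := (252 / 1000)) (x := b) (by norm_num)
    (by linear_combination (263689 / 250000) * b1) (by linear_combination (66469 / 62500) * b2)
  have c1 := R.ph1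
  have c2 := R.qh1
  have c3 := R.rh1
  linear_combination (1167172549669524250 / 485287523266957117) * e8 + (3200 / 1431) * e7 +
    (500000 / 970759) * e6 + (800000 / 188831) * e5 + (250000 / 249991) * e4 + (625 / 374) * e3 +
    (125000 / 235573) * e2 + (250000 / 248861) * e1 + (39997644627800 / 45381349462603) * R.k2 +
    (56694503021851563035 / 228908050920478098477) * s1 + (5765761881767519081 / 10676325511873056574) * b2 +
    (9655812483506955800 / 8569405600372787093) * t1 + (48743916791877103625 / 1094396767722317473589) * R.h1 +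
    (1 / 2) * c1 + (1 / 2) * c2 + (1 / 2) * c3 + (1 / 2) * R.n4

theorem wa28 {s b t k G1 G2 G3 G4 : ℝ} (R : RegA s b t k G1 G2 G3 G4) (hT : t ≤ 284 / 1000 * s) (hb : 0 ≤ s - t - b)
    (s1 : 57 / 100 ≤ s) (s2 : s ≤ 607 / 1000)
    (b1 : 945 / 2000 ≤ b) (b2 : b ≤ 4863 / 10000) (t1 : 1294 / 10000 ≤ t) (t2 : t ≤ 1509 / 10000) :
    4 * ph (s - t) - 2 * ph s ≤ (G1 + G2 + G3 + G4) / 2 := by
  have e1 := up (t1 := (67 / 1000)) (t2 := (68 / 1000)) (x := 1 - h0) (by norm_num)
    (by linear_combination (1004489 / 1000000) * R.h2) (by linear_combination (62789 / 62500) * R.h1)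
  have e2 := up (t1 := (229 / 1000)) (t2 := (252 / 1000)) (x := h0 + s - 1) (by norm_num)
    (by linear_combination (1052441 / 1000000) * s1 + (1052441 / 1000000) * R.h1) (by linear_combination (66469 / 62500) * s2 + (66469 / 62500) * R.h2)
  have e3 := lo (t := (321 / 1000)) (x := s - t + b / 2 - k) (by norm_num)
    (by linear_combination s1 + (1 / 2) * b1 + t2 + R.k4) (by linear_combination s2 + (1 / 2) * b2 + t1 + R.k3)
  have e4 := lo (t := (-16 / 1000)) (x := h0 + s - 1 - t - b / 2 - k) (by norm_num)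
    (by linear_combination s1 + (1 / 2) * b2 + t2 + R.k4 + R.h1) (by linear_combination s2 + (1 / 2) * b1 + t1 + R.k3 + R.h2)
  have e5 := up (t1 := (219 / 1000)) (t2 := (255 / 1000)) (x := s - t) (by norm_num)
    (by linear_combination (1047961 / 1000000) * s1 + (1047961 / 1000000) * t2) (by linear_combination (42601 / 40000) * s2 + (42601 / 40000) * t1)
  have e6 := lo (t := (182 / 1000)) (x := h0 - 1 + t + b / 2 + k) (by norm_num)
    (by linear_combination (1 / 2) * b1 + t1 + R.k3 + R.h1) (by linear_combination (1 / 2) * b2 + t2 + R.k4 + R.h2)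
  have e7 := lo (t := (325 / 1000)) (x := s) (by norm_num)
    (by linear_combination s1) (by linear_combination s2)
  have e8 := up (t1 := (251 / 1000)) (t2 := (260 / 1000)) (x := b) (by norm_num)
    (by linear_combination (1063001 / 1000000) * b1) (by linear_combination (2669 / 2500) * b2)
  have c1 := R.ph1
  have c2 := R.qh1
  have c3 := R.rh1
  linear_combination (126388048943109601000 / 52763280620204218239) * e8 + (3200 / 1431) * e7 +
    (125000 / 241719) * e6 + (800000 / 188831) * e5 + (15625 / 15621) * e4 + (1500000 / 896959) * e3 +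
    (125000 / 235573) * e2 + (250000 / 248861) * e1 + (963419972584000 / 1128940253336847) * R.k2 +
    (5300558510168294041315 / 22869425598190858173753) * s1 + (30449854679288287111 / 52763280620204218239) * b2 +
    (246170587222323078400 / 213178916977850155857) * t1 + (69276747688431875 / 1891978139539103591) * R.h1 +
    (1 / 2) * c1 + (1 / 2) * c2 + (1 / 2) * c3 + (1 / 2) * R.n4

theorem wa29 {s b t k G1 G2 G3 G4 : ℝ} (R : RegA s b t k G1 G2 G3 G4) (hT : t ≤ 284 / 1000 * s) (hb : 0 ≤ s - t - b)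
    (s1 : 57 / 100 ≤ s) (s2 : s ≤ 607 / 1000)
    (b1 : 4863 / 10000 ≤ b) (b2 : b ≤ 1 / 2) (t1 : 1294 / 10000 ≤ t) (t2 : t ≤ 1509 / 10000) :
    4 * ph (s - t) - 2 * ph s ≤ (G1 + G2 + G3 + G4) / 2 := by
  exfalso
  exact absurd b1 (not_le.mpr (by linear_combination s2 + t1 + hb))

theorem wa30 {s b t k G1 G2 G3 G4 : ℝ} (R : RegA s b t k G1 G2 G3 G4) (hT : t ≤ 284 / 1000 * s) (hb : 0 ≤ s - t - b)
    (s1 : 57 / 100 ≤ s) (s2 : s ≤ 607 / 1000)
    (b1 : 89 / 200 ≤ b) (b2 : b ≤ 1 / 2) (t1 : 1509 / 10000 ≤ t) (t2 : t ≤ 345 / 2000) :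
    4 * ph (s - t) - 2 * ph s ≤ (G1 + G2 + G3 + G4) / 2 := by
  have e1 := up (t1 := (67 / 1000)) (t2 := (68 / 1000)) (x := 1 - h0) (by norm_num)
    (by linear_combination (1004489 / 1000000) * R.h2) (by linear_combination (62789 / 62500) * R.h1)
  have e2 := up (t1 := (229 / 1000)) (t2 := (252 / 1000)) (x := h0 + s - 1) (by norm_num)
    (by linear_combination (1052441 / 1000000) * s1 + (1052441 / 1000000) * R.h1) (by linear_combination (66469 / 62500) * s2 + (66469 / 62500) * R.h2)
  have e3 := lo (t := (306 / 1000)) (x := s - t + b / 2 - k) (by norm_num)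
    (by linear_combination s1 + (1 / 2) * b1 + t2 + R.k4) (by linear_combination s2 + (1 / 2) * b2 + t1 + R.k3)
  have e4 := lo (t := (-23 / 1000)) (x := h0 + s - 1 - t - b / 2 - k) (by norm_num)
    (by linear_combination s1 + (1 / 2) * b2 + t2 + R.k4 + R.h1) (by linear_combination s2 + (1 / 2) * b1 + t1 + R.k3 + R.h2)
  have e5 := up (t1 := (207 / 1000)) (t2 := (242 / 1000)) (x := s - t) (by norm_num)
    (by linear_combination (1042849 / 1000000) * s1 + (1042849 / 1000000) * t2) (by linear_combination (264641 / 250000) * s2 + (264641 / 250000) * t1)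
  have e6 := lo (t := (190 / 1000)) (x := h0 - 1 + t + b / 2 + k) (by norm_num)
    (by linear_combination (1 / 2) * b1 + t1 + R.k3 + R.h1) (by linear_combination (1 / 2) * b2 + t2 + R.k4 + R.h2)
  have e7 := lo (t := (325 / 1000)) (x := s) (by norm_num)
    (by linear_combination s1) (by linear_combination s2)
  have e8 := up (t1 := (234 / 1000)) (t2 := (268 / 1000)) (x := b) (by norm_num)
    (by linear_combination (263689 / 250000) * b1) (by linear_combination (66989 / 62500) * b2)
  have c1 := R.ph1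
  have c2 := R.qh1
  have c3 := R.rh1
  linear_combination (17914963520534024500 / 7750218805108199343) * e8 + (3200 / 1431) * e7 +
    (5000 / 9639) * e6 + (2000000 / 474953) * e5 + (1000000 / 999471) * e4 + (375000 / 226591) * e3 +
    (125000 / 235573) * e2 + (250000 / 248861) * e1 + (560072009715200 / 727651751488893) * R.k2 +
    (255122713750847435183855 / 929745378122712085661661) * s1 + (4126258214653724399 / 7750218805108199343) * b2 +
    (387423391606762528400 / 345600382324904197029) * t1 + (455894036841079175 / 14481712630849388463) * R.h1 +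
    (1 / 2) * c1 + (1 / 2) * c2 + (1 / 2) * c3 + (1 / 2) * R.n4

theorem wa27 {s b t k G1 G2 G3 G4 : ℝ} (R : RegA s b t k G1 G2 G3 G4) (hT : t ≤ 284 / 1000 * s) (hb : 0 ≤ s - t - b)
    (s1 : 57 / 100 ≤ s) (s2 : s ≤ 607 / 1000)
    (b1 : 945 / 2000 ≤ b) (b2 : b ≤ 1 / 2) (t1 : 1294 / 10000 ≤ t) (t2 : t ≤ 1509 / 10000) :
    4 * ph (s - t) - 2 * ph s ≤ (G1 + G2 + G3 + G4) / 2 := by
  rcases le_total b (4863 / 10000) with h | h
  · exact wa28 R hT hb s1 s2 b1 h t1 t2
  · exact wa29 R hT hb s1 s2 h b2 t1 t2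

theorem wa25 {s b t k G1 G2 G3 G4 : ℝ} (R : RegA s b t k G1 G2 G3 G4) (hT : t ≤ 284 / 1000 * s) (hb : 0 ≤ s - t - b)
    (s1 : 57 / 100 ≤ s) (s2 : s ≤ 607 / 1000)
    (b1 : 89 / 200 ≤ b) (b2 : b ≤ 1 / 2) (t1 : 1294 / 10000 ≤ t) (t2 : t ≤ 1509 / 10000) :
    4 * ph (s - t) - 2 * ph s ≤ (G1 + G2 + G3 + G4) / 2 := by
  rcases le_total b (945 / 2000) with h | h
  · exact wa26 R hT hb s1 s2 b1 h t1 t2
  · exact wa27 R hT hb s1 s2 h b2 t1 t2

theorem wa24 {s b t k G1 G2 G3 G4 : ℝ} (R : RegA s b t k G1 G2 G3 G4) (hT : t ≤ 284 / 1000 * s) (hb : 0 ≤ s - t - b)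
    (s1 : 57 / 100 ≤ s) (s2 : s ≤ 607 / 1000)
    (b1 : 89 / 200 ≤ b) (b2 : b ≤ 1 / 2) (t1 : 1294 / 10000 ≤ t) (t2 : t ≤ 345 / 2000) :
    4 * ph (s - t) - 2 * ph s ≤ (G1 + G2 + G3 + G4) / 2 := by
  rcases le_total t (1509 / 10000) with h | h
  · exact wa25 R hT hb s1 s2 b1 b2 t1 h
  · exact wa30 R hT hb s1 s2 b1 b2 h t2

theorem wa22 {s b t k G1 G2 G3 G4 : ℝ} (R : RegA s b t k G1 G2 G3 G4) (hT : t ≤ 284 / 1000 * s) (hb : 0 ≤ s - t - b)
    (s1 : 57 / 100 ≤ s) (s2 : s ≤ 607 / 1000)
    (b1 : 39 / 100 ≤ b) (b2 : b ≤ 1 / 2) (t1 : 1294 / 10000 ≤ t) (t2 : t ≤ 345 / 2000) :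
    4 * ph (s - t) - 2 * ph s ≤ (G1 + G2 + G3 + G4) / 2 := by
  rcases le_total b (89 / 200) with h | h
  · exact wa23 R hT hb s1 s2 b1 h t1 t2
  · exact wa24 R hT hb s1 s2 h b2 t1 t2

theorem wa19 {s b t k G1 G2 G3 G4 : ℝ} (R : RegA s b t k G1 G2 G3 G4) (hT : t ≤ 284 / 1000 * s) (hb : 0 ≤ s - t - b)
    (s1 : 57 / 100 ≤ s) (s2 : s ≤ 607 / 1000)
    (b1 : 39 / 100 ≤ b) (b2 : b ≤ 1 / 2) (t1 : 1078 / 10000 ≤ t) (t2 : t ≤ 1294 / 10000) :
    4 * ph (s - t) - 2 * ph s ≤ (G1 + G2 + G3 + G4) / 2 := by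
  rcases le_total b (89 / 200) with h | h
  · exact wa20 R hT hb s1 s2 b1 h t1 t2
  · exact wa21 R hT hb s1 s2 h b2 t1 t2

theorem wa17 {s b t k G1 G2 G3 G4 : ℝ} (R : RegA s b t k G1 G2 G3 G4) (hT : t ≤ 284 / 1000 * s) (hb : 0 ≤ s - t - b)
    (s1 : 57 / 100 ≤ s) (s2 : s ≤ 607 / 1000)
    (b1 : 39 / 100 ≤ b) (b2 : b ≤ 1 / 2) (t1 : 862 / 10000 ≤ t) (t2 : t ≤ 1294 / 10000) :
    4 * ph (s - t) - 2 * ph s ≤ (G1 + G2 + G3 + G4) / 2 := by
  rcases le_total t (1078 / 10000) with h | h
  · exact wa18 R hT hb s1 s2 b1 b2 t1 h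
  · exact wa19 R hT hb s1 s2 b1 b2 h t2

theorem wa16 {s b t k G1 G2 G3 G4 : ℝ} (R : RegA s b t k G1 G2 G3 G4) (hT : t ≤ 284 / 1000 * s) (hb : 0 ≤ s - t - b)
    (s1 : 57 / 100 ≤ s) (s2 : s ≤ 607 / 1000)
    (b1 : 39 / 100 ≤ b) (b2 : b ≤ 1 / 2) (t1 : 862 / 10000 ≤ t) (t2 : t ≤ 345 / 2000) :
    4 * ph (s - t) - 2 * ph s ≤ (G1 + G2 + G3 + G4) / 2 := by
  rcases le_total t (1294 / 10000) with h | h
  · exact wa17 R hT hb s1 s2 b1 b2 t1 h
  · exact wa22 R hT hb s1 s2 b1 b2 h t2

theorem wa14 {s b t k G1 G2 G3 G4 : ℝ} (R : RegA s b t k G1 G2 G3 G4) (hT : t ≤ 284 / 1000 * s) (hb : 0 ≤ s - t - b)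
    (s1 : 57 / 100 ≤ s) (s2 : s ≤ 607 / 1000)
    (b1 : 7 / 25 ≤ b) (b2 : b ≤ 1 / 2) (t1 : 862 / 10000 ≤ t) (t2 : t ≤ 345 / 2000) :
    4 * ph (s - t) - 2 * ph s ≤ (G1 + G2 + G3 + G4) / 2 := by
  rcases le_total b (39 / 100) with h | h
  · exact wa15 R hT hb s1 s2 b1 h t1 t2
  · exact wa16 R hT hb s1 s2 h b2 t1 t2

theorem wa12 {s b t k G1 G2 G3 G4 : ℝ} (R : RegA s b t k G1 G2 G3 G4) (hT : t ≤ 284 / 1000 * s) (hb : 0 ≤ s - t - b)
    (s1 : 57 / 100 ≤ s) (s2 : s ≤ 607 / 1000)
    (b1 : 7 / 25 ≤ b) (b2 : b ≤ 1 / 2) (t1 : 0 ≤ t) (t2 : t ≤ 345 / 2000) :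
    4 * ph (s - t) - 2 * ph s ≤ (G1 + G2 + G3 + G4) / 2 := by
  rcases le_total t (862 / 10000) with h | h
  · exact wa13 R hT hb s1 s2 b1 b2 t1 h
  · exact wa14 R hT hb s1 s2 b1 b2 h t2

theorem wa5 {s b t k G1 G2 G3 G4 : ℝ} (R : RegA s b t k G1 G2 G3 G4) (hT : t ≤ 284 / 1000 * s) (hb : 0 ≤ s - t - b)
    (s1 : 57 / 100 ≤ s) (s2 : s ≤ 607 / 1000)
    (b1 : 3 / 50 ≤ b) (b2 : b ≤ 23 / 200) (t1 : 0 ≤ t) (t2 : t ≤ 431 / 10000) :
    4 * ph (s - t) - 2 * ph s ≤ (G1 + G2 + G3 + G4) / 2 := by
  rcases le_total t (216 / 10000) with h | h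
  · exact wa6 R hT hb s1 s2 b1 b2 t1 h
  · exact wa7 R hT hb s1 s2 b1 b2 h t2

theorem wa4 {s b t k G1 G2 G3 G4 : ℝ} (R : RegA s b t k G1 G2 G3 G4) (hT : t ≤ 284 / 1000 * s) (hb : 0 ≤ s - t - b)
    (s1 : 57 / 100 ≤ s) (s2 : s ≤ 607 / 1000)
    (b1 : 3 / 50 ≤ b) (b2 : b ≤ 17 / 100) (t1 : 0 ≤ t) (t2 : t ≤ 431 / 10000) :
    4 * ph (s - t) - 2 * ph s ≤ (G1 + G2 + G3 + G4) / 2 := by
  rcases le_total b (23 / 200) with h | h
  · exact wa5 R hT hb s1 s2 b1 h t1 t2
  · exact wa8 R hT hb s1 s2 h b2 t1 t2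

theorem wa3 {s b t k G1 G2 G3 G4 : ℝ} (R : RegA s b t k G1 G2 G3 G4) (hT : t ≤ 284 / 1000 * s) (hb : 0 ≤ s - t - b)
    (s1 : 57 / 100 ≤ s) (s2 : s ≤ 607 / 1000)
    (b1 : 3 / 50 ≤ b) (b2 : b ≤ 7 / 25) (t1 : 0 ≤ t) (t2 : t ≤ 431 / 10000) :
    4 * ph (s - t) - 2 * ph s ≤ (G1 + G2 + G3 + G4) / 2 := by
  rcases le_total b (17 / 100) with h | h
  · exact wa4 R hT hb s1 s2 b1 h t1 t2
  · exact wa9 R hT hb s1 s2 h b2 t1 t2

theorem wa2 {s b t k G1 G2 G3 G4 : ℝ} (R : RegA s b t k G1 G2 G3 G4) (hT : t ≤ 284 / 1000 * s) (hb : 0 ≤ s - t - b)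
    (s1 : 57 / 100 ≤ s) (s2 : s ≤ 607 / 1000)
    (b1 : 3 / 50 ≤ b) (b2 : b ≤ 7 / 25) (t1 : 0 ≤ t) (t2 : t ≤ 862 / 10000) :
    4 * ph (s - t) - 2 * ph s ≤ (G1 + G2 + G3 + G4) / 2 := by
  rcases le_total t (431 / 10000) with h | h
  · exact wa3 R hT hb s1 s2 b1 b2 t1 h
  · exact wa10 R hT hb s1 s2 b1 b2 h t2

theorem wa1 {s b t k G1 G2 G3 G4 : ℝ} (R : RegA s b t k G1 G2 G3 G4) (hT : t ≤ 284 / 1000 * s) (hb : 0 ≤ s - t - b)
    (s1 : 57 / 100 ≤ s) (s2 : s ≤ 607 / 1000)
    (b1 : 3 / 50 ≤ b) (b2 : b ≤ 7 / 25) (t1 : 0 ≤ t) (t2 : t ≤ 345 / 2000) :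
    4 * ph (s - t) - 2 * ph s ≤ (G1 + G2 + G3 + G4) / 2 := by
  rcases le_total t (862 / 10000) with h | h
  · exact wa2 R hT hb s1 s2 b1 b2 t1 h
  · exact wa11 R hT hb s1 s2 b1 b2 h t2

theorem wa0 {s b t k G1 G2 G3 G4 : ℝ} (R : RegA s b t k G1 G2 G3 G4) (hT : t ≤ 284 / 1000 * s) (hb : 0 ≤ s - t - b)
    (s1 : 57 / 100 ≤ s) (s2 : s ≤ 607 / 1000)
    (b1 : 3 / 50 ≤ b) (b2 : b ≤ 1 / 2) (t1 : 0 ≤ t) (t2 : t ≤ 345 / 2000) :
    4 * ph (s - t) - 2 * ph s ≤ (G1 + G2 + G3 + G4) / 2 := by
  rcases le_total b (7 / 25) with h | h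
  · exact wa1 R hT hb s1 s2 b1 h t1 t2
  · exact wa12 R hT hb s1 s2 h b2 t1 t2

theorem wz1 {s b t k G1 G2 G3 G4 : ℝ} (R : RegA s b t k G1 G2 G3 G4) (hT : t ≤ 284 / 1000 * s)
    (s1 : 57 / 100 ≤ s) (s2 : s ≤ 607 / 1000)
    (b1 : 0 ≤ b) (b2 : b ≤ 3 / 50) (t1 : 1 / 50 ≤ t) (t2 : t ≤ 962 / 10000) :
    4 * ph (s - t) - 2 * ph s ≤ (G1 + G2 + G3 + G4) / 2 := by
  have e1 := up (t1 := (67 / 1000)) (t2 := (68 / 1000)) (x := 1 - h0) (by norm_num)
    (by linear_combination (1004489 / 1000000) * R.h2) (by linear_combination (62789 / 62500) * R.h1)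
  have e2 := up (t1 := (229 / 1000)) (t2 := (252 / 1000)) (x := h0 + s - 1) (by norm_num)
    (by linear_combination (1052441 / 1000000) * s1 + (1052441 / 1000000) * R.h1) (by linear_combination (66469 / 62500) * s2 + (66469 / 62500) * R.h2)
  have e3 := lo (t := (296 / 1000)) (x := s - t + b / 2 - k) (by norm_num)
    (by linear_combination s1 + (1 / 2) * b1 + t2 + R.k4) (by linear_combination s2 + (1 / 2) * b2 + t1 + R.k3)
  have e4 := lo (t := (198 / 1000)) (x := h0 + s - 1 - t - b / 2 - k) (by norm_num)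
    (by linear_combination s1 + (1 / 2) * b2 + t2 + R.k4 + R.h1) (by linear_combination s2 + (1 / 2) * b1 + t1 + R.k3 + R.h2)
  have e5 := lo (t := (277 / 1000)) (x := s - t - b / 2 - k) (by norm_num)
    (by linear_combination s1 + (1 / 2) * b2 + t2 + R.k4) (by linear_combination s2 + (1 / 2) * b1 + t1 + R.k3)
  have e6 := up (t1 := (251 / 1000)) (t2 := (325 / 1000)) (x := s - t) (by norm_num)
    (by linear_combination (1063001 / 1000000) * s1 + (1063001 / 1000000) * t2) (by linear_combination (1769 / 1600) * s2 + (1769 / 1600) * t1)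
  have e7 := lo (t := (-30 / 1000)) (x := h0 - 1 + t + b / 2 + k) (by norm_num)
    (by linear_combination (1 / 2) * b1 + t1 + R.k3 + R.h1) (by linear_combination (1 / 2) * b2 + t2 + R.k4 + R.h2)
  have e8 := lo (t := (45 / 1000)) (x := 1 - h0 - t + b / 2 - k) (by norm_num)
    (by linear_combination (1 / 2) * b1 + t2 + R.k4 + R.h2) (by linear_combination (1 / 2) * b2 + t1 + R.k3 + R.h1)
  have e9 := lo (t := (325 / 1000)) (x := s) (by norm_num)
    (by linear_combination s1) (by linear_combination s2)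
  have e10 := up (t1 := (0 / 1000)) (t2 := (31 / 1000)) (x := b) (by norm_num)
    (by linear_combination b1) (by linear_combination (1000961 / 1000000) * b2)
  have c1 := R.ph1
  have c2 := R.qhh
  have c3 := R.rh1
  have c4 := R.sHH (by linear_combination (86603 / 100000) * e10 + R.k2 + (52684693 / 100000000) * b2 + t2 + R.h2)
  linear_combination (23224275579662537846875 / 3184135220845694780676) * e10 + (3200 / 1431) * e9 +
    (20000 / 39919) * e8 + (10000 / 9991) * e7 + (160000 / 36737) * e6 + (500000 / 923271) * e5 +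
    (125000 / 240199) * e4 + (15625 / 9504) * e3 + (125000 / 235573) * e2 + (375000 / 248861) * e1 +
    (1664880514595507116489426175 / 4245513627794259707568) * R.k1 + (2497330862539724434291918675 / 6368270441691389561352) * R.k2 +
    (698334944595965222241125 / 4131388443283391448549072) * s1 + (432399449534287175663846615 / 467902302432833156630776848) * t1 +
    (21225691017911517945200 / 432014983490655284097851) * R.h1 + (1 / 2) * c1 + (1 / 2) * c2 +
    (1 / 2) * c3 + (1 / 2) * c4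

theorem wz2 {s b t k G1 G2 G3 G4 : ℝ} (R : RegA s b t k G1 G2 G3 G4) (hT : t ≤ 284 / 1000 * s)
    (s1 : 57 / 100 ≤ s) (s2 : s ≤ 607 / 1000)
    (b1 : 0 ≤ b) (b2 : b ≤ 3 / 50) (t1 : 962 / 10000 ≤ t) (t2 : t ≤ 345 / 2000) :
    4 * ph (s - t) - 2 * ph s ≤ (G1 + G2 + G3 + G4) / 2 := by
  have e1 := up (t1 := (67 / 1000)) (t2 := (68 / 1000)) (x := 1 - h0) (by norm_num)
    (by linear_combination (1004489 / 1000000) * R.h2) (by linear_combination (62789 / 62500) * R.h1)
  have e2 := up (t1 := (229 / 1000)) (t2 := (252 / 1000)) (x := h0 + s - 1) (by norm_num)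
    (by linear_combination (1052441 / 1000000) * s1 + (1052441 / 1000000) * R.h1) (by linear_combination (66469 / 62500) * s2 + (66469 / 62500) * R.h2)
  have e3 := lo (t := (249 / 1000)) (x := s - t + b / 2 - k) (by norm_num)
    (by linear_combination s1 + (1 / 2) * b1 + t2 + R.k4) (by linear_combination s2 + (1 / 2) * b2 + t1 + R.k3)
  have e4 := lo (t := (156 / 1000)) (x := h0 + s - 1 - t - b / 2 - k) (by norm_num)
    (by linear_combination s1 + (1 / 2) * b2 + t2 + R.k4 + R.h1) (by linear_combination s2 + (1 / 2) * b1 + t1 + R.k3 + R.h2)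
  have e5 := lo (t := (231 / 1000)) (x := s - t - b / 2 - k) (by norm_num)
    (by linear_combination s1 + (1 / 2) * b2 + t2 + R.k4) (by linear_combination s2 + (1 / 2) * b1 + t1 + R.k3)
  have e6 := up (t1 := (207 / 1000)) (t2 := (275 / 1000)) (x := s - t) (by norm_num)
    (by linear_combination (1042849 / 1000000) * s1 + (1042849 / 1000000) * t2) (by linear_combination (1721 / 1600) * s2 + (1721 / 1600) * t1)
  have e7 := lo (t := (8 / 1000)) (x := h0 - 1 + t + b / 2 + k) (by norm_num)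
    (by linear_combination (1 / 2) * b1 + t1 + R.k3 + R.h1) (by linear_combination (1 / 2) * b2 + t2 + R.k4 + R.h2)
  have e8 := lo (t := (325 / 1000)) (x := s) (by norm_num)
    (by linear_combination s1) (by linear_combination s2)
  have e9 := up (t1 := (0 / 1000)) (t2 := (31 / 1000)) (x := b) (by norm_num)
    (by linear_combination b1) (by linear_combination (1000961 / 1000000) * b2)
  have c1 := R.ph1
  have c2 := R.qhh
  have c3 := R.rh1
  linear_combination (42348020757131696546875 / 6556332930875930243034) * e9 + (3200 / 1431) * e8 +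
    (15625 / 31248) * e7 + (160000 / 37723) * e6 + (500000 / 946639) * e5 + (31250 / 60979) * e4 +
    (1500000 / 937999) * e3 + (125000 / 235573) * e2 + (375000 / 248861) * e1 + (10297493255963959807933707875 / 26225331723503720972136) * R.k1 +
    (1716254087351737573384963375 / 4370888620583953495356) * R.k2 + (1103596104318246568173611015 / 3115632048680238760494466911) * s1 +
    (32644127072515077209965 / 38310738047698984092936) * t1 + (498775599126929875 / 4296467496405757176) * R.h1 +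
    (1 / 2) * c1 + (1 / 2) * c2 + (1 / 2) * c3 + (1 / 2) * R.n4

theorem wz0 {s b t k G1 G2 G3 G4 : ℝ} (R : RegA s b t k G1 G2 G3 G4) (hT : t ≤ 284 / 1000 * s)
    (s1 : 57 / 100 ≤ s) (s2 : s ≤ 607 / 1000)
    (b1 : 0 ≤ b) (b2 : b ≤ 3 / 50) (t1 : 1 / 50 ≤ t) (t2 : t ≤ 345 / 2000) :
    4 * ph (s - t) - 2 * ph s ≤ (G1 + G2 + G3 + G4) / 2 := by
  rcases le_total t (962 / 10000) with h | h
  · exact wz1 R hT s1 s2 b1 b2 t1 h
  · exact wz2 R hT s1 s2 b1 b2 h t2

theorem oa1 {s b t k G1 G2 G3 G4 : ℝ} (R : RegA s b t k G1 G2 G3 G4) (hT : t ≤ 284 / 1000 * s) (hy : 0 ≤ 1 / 2 - s + t) (hb : 0 ≤ t - s + b)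
    (s1 : 57 / 100 ≤ s) (s2 : s ≤ 607 / 1000)
    (b1 : 15 / 40 ≤ b) (b2 : b ≤ 1 / 2) (t1 : 0 ≤ t) (t2 : t ≤ 862 / 10000) :
    4 * ph (s - t) - 2 * ph s - dl s ≤ (G1 + G2 + G3 + G4) / 2 := by
  have e1 := up (t1 := (67 / 1000)) (t2 := (68 / 1000)) (x := 1 - h0) (by norm_num)
    (by linear_combination (1004489 / 1000000) * R.h2) (by linear_combination (62789 / 62500) * R.h1)
  have e2 := up (t1 := (229 / 1000)) (t2 := (252 / 1000)) (x := h0 + s - 1) (by norm_num)
    (by linear_combination (1052441 / 1000000) * s1 + (1052441 / 1000000) * R.h1) (by linear_combination (66469 / 62500) * s2 + (66469 / 62500) * R.h2)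
  have e3 := lo (t := (388 / 1000)) (x := s - t + b / 2 - k) (by norm_num)
    (by linear_combination s1 + (1 / 2) * b1 + t2 + R.k4) (by linear_combination s2 + (1 / 2) * b2 + t1 + R.k3)
  have e4 := lo (t := (52 / 1000)) (x := h0 + s - 1 - t - b / 2 - k) (by norm_num)
    (by linear_combination s1 + (1 / 2) * b2 + t2 + R.k4 + R.h1) (by linear_combination s2 + (1 / 2) * b1 + t1 + R.k3 + R.h2)
  have e5 := lo (t := (120 / 1000)) (x := s - t - b / 2 - k) (by norm_num)
    (by linear_combination s1 + (1 / 2) * b2 + t2 + R.k4) (by linear_combination s2 + (1 / 2) * b1 + t1 + R.k3)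
  have e6 := up (t1 := (258 / 1000)) (t2 := (339 / 1000)) (x := s - t) (by norm_num)
    (by linear_combination (266641 / 250000) * s1 + (266641 / 250000) * t2) (by linear_combination (1114921 / 1000000) * s2 + (1114921 / 1000000) * t1)
  have e7 := lo (t := (110 / 1000)) (x := h0 - 1 + t + b / 2 + k) (by norm_num)
    (by linear_combination (1 / 2) * b1 + t1 + R.k3 + R.h1) (by linear_combination (1 / 2) * b2 + t2 + R.k4 + R.h2)
  have e8 := lo (t := (182 / 1000)) (x := t + b / 2 + k) (by norm_num)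
    (by linear_combination (1 / 2) * b1 + t1 + R.k3) (by linear_combination (1 / 2) * b2 + t2 + R.k4)
  have e9 := up (t1 := (577 / 1000)) (t2 := (730 / 1000)) (x := h0 + t) (by norm_num)
    (by linear_combination (1332929 / 1000000) * t1 + (1332929 / 1000000) * R.h1) (by linear_combination (15329 / 10000) * t2 + (15329 / 10000) * R.h2)
  have e10 := lo (t := (325 / 1000)) (x := s) (by norm_num)
    (by linear_combination s1) (by linear_combination s2)
  have e11 := up (t1 := (194 / 1000)) (t2 := (268 / 1000)) (x := b) (by norm_num)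
    (by linear_combination (259409 / 250000) * b1) (by linear_combination (66989 / 62500) * b2)
  have c1 := R.ph1
  have c2 := R.qhh
  have c3 := R.rh1
  have c4 := R.syv (by linear_combination (250 / 231) * e11 + (3694907 / 231) * R.k1 + (3695138 / 231) * R.k2 + t2) (by linear_combination (433015 / 237002) * e11 + 2 * R.k2 + (43705493 / 23700200) * b2 + t2 + R.h1)
  unfold dl
  linear_combination (7724669611038094039786375 / 2589606575472639199308384) * e11 + (3200 / 1431) * e10 +
    (50000 / 57879) * e9 + (125000 / 241719) * e8 + (5000 / 9879) * e7 + (2000000 / 456269) * e6 +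
    (625 / 1232) * e5 + (31250 / 62331) * e4 + (31250 / 17697) * e3 + (125000 / 235573) * e2 +
    (375000 / 248861) * e1 + (74795327485202891675 / 60095847989044462056) * R.k2 + (70809863746004652261983 / 406033647205476367206360) * s2 +
    (70190448450880459663486885447 / 356070904127487889904902800000) * b2 + (11695826521478774858653687975 / 48091963589884039136590557432) * t1 +
    (18168683153722850583500 / 17858072912211148673439) * R.h2 + (1 / 2) * R.h3 + (1 / 2) * c1 +
    (1 / 2) * c2 + (1 / 2) * c3 + (1 / 2) * c4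

theorem oa4 {s b t k G1 G2 G3 G4 : ℝ} (R : RegA s b t k G1 G2 G3 G4) (hT : t ≤ 284 / 1000 * s) (hy : 0 ≤ 1 / 2 - s + t) (hb : 0 ≤ t - s + b)
    (s1 : 57 / 100 ≤ s) (s2 : s ≤ 607 / 1000)
    (b1 : 15 / 40 ≤ b) (b2 : b ≤ 875 / 2000) (t1 : 862 / 10000 ≤ t) (t2 : t ≤ 1294 / 10000) :
    4 * ph (s - t) - 2 * ph s - dl s ≤ (G1 + G2 + G3 + G4) / 2 := by
  exfalso
  exact absurd b2 (not_le.mpr (by linear_combination s1 + t2 + hb))

theorem oa5 {s b t k G1 G2 G3 G4 : ℝ} (R : RegA s b t k G1 G2 G3 G4) (hT : t ≤ 284 / 1000 * s) (hy : 0 ≤ 1 / 2 - s + t) (hb : 0 ≤ t - s + b)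
    (s1 : 57 / 100 ≤ s) (s2 : s ≤ 607 / 1000)
    (b1 : 875 / 2000 ≤ b) (b2 : b ≤ 1 / 2) (t1 : 862 / 10000 ≤ t) (t2 : t ≤ 1294 / 10000) :
    4 * ph (s - t) - 2 * ph s - dl s ≤ (G1 + G2 + G3 + G4) / 2 := by
  have e1 := up (t1 := (67 / 1000)) (t2 := (68 / 1000)) (x := 1 - h0) (by norm_num)
    (by linear_combination (1004489 / 1000000) * R.h2) (by linear_combination (62789 / 62500) * R.h1)
  have e2 := up (t1 := (229 / 1000)) (t2 := (252 / 1000)) (x := h0 + s - 1) (by norm_num)
    (by linear_combination (1052441 / 1000000) * s1 + (1052441 / 1000000) * R.h1) (by linear_combination (66469 / 62500) * s2 + (66469 / 62500) * R.h2)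
  have e3 := lo (t := (343 / 1000)) (x := s - t + b / 2 - k) (by norm_num)
    (by linear_combination s1 + (1 / 2) * b1 + t2 + R.k4) (by linear_combination s2 + (1 / 2) * b2 + t1 + R.k3)
  have e4 := lo (t := (5 / 1000)) (x := h0 + s - 1 - t - b / 2 - k) (by norm_num)
    (by linear_combination s1 + (1 / 2) * b2 + t2 + R.k4 + R.h1) (by linear_combination s2 + (1 / 2) * b1 + t1 + R.k3 + R.h2)
  have e5 := up (t1 := (232 / 1000)) (t2 := (281 / 1000)) (x := s - t) (by norm_num)
    (by linear_combination (16466 / 15625) * s1 + (16466 / 15625) * t2) (by linear_combination (1078961 / 1000000) * s2 + (1078961 / 1000000) * t1)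
  have e6 := lo (t := (159 / 1000)) (x := h0 - 1 + t + b / 2 + k) (by norm_num)
    (by linear_combination (1 / 2) * b1 + t1 + R.k3 + R.h1) (by linear_combination (1 / 2) * b2 + t2 + R.k4 + R.h2)
  have e7 := lo (t := (234 / 1000)) (x := t + b / 2 + k) (by norm_num)
    (by linear_combination (1 / 2) * b1 + t1 + R.k3) (by linear_combination (1 / 2) * b2 + t2 + R.k4)
  have e8 := up (t1 := (729 / 1000)) (t2 := (909 / 1000)) (x := h0 + t) (by norm_num)
    (by linear_combination (1531441 / 1000000) * t1 + (1531441 / 1000000) * R.h1) (by linear_combination (1826281 / 1000000) * t2 + (1826281 / 1000000) * R.h2)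
  have e9 := lo (t := (325 / 1000)) (x := s) (by norm_num)
    (by linear_combination s1) (by linear_combination s2)
  have e10 := up (t1 := (230 / 1000)) (t2 := (268 / 1000)) (x := b) (by norm_num)
    (by linear_combination (10529 / 10000) * b1) (by linear_combination (66989 / 62500) * b2)
  have c1 := R.ph1
  have c2 := R.qh1
  have c3 := R.rh1
  have c4 := R.syv (by linear_combination (86603 / 93836) * e10 + R.k2 + (1894853 / 46918000) * b1 + t2) (by linear_combination (86603 / 46918) * e10 + 2 * R.k2 + (45023147 / 23459000) * b2 + t2 + R.h1)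
  unfold dl
  linear_combination (18162742629852683156421475 / 7063169312415650873142097) * e10 +
    (3200 / 1431) * e9 + (500000 / 337339) * e8 + (125000 / 236311) * e7 + (500000 / 974719) * e6 +
    (500000 / 116851) * e5 + (40000 / 39999) * e4 + (500000 / 294117) * e3 + (125000 / 235573) * e2 +
    (250000 / 248861) * e1 + (230488250332738060300 / 301085694719112105083) * R.k2 + (4776707068569904922611 / 39607823627012821224870) * s2 +
    (135914593274001616253345538409 / 2118950793724695261942629100000) * b2 + (11847492216470549078316900473200 / 11868316194861058601537441502587) * t2 +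
    (140822424939780763035095725 / 59310846311407354561203879) * R.h2 + (1 / 2) * R.h3 +
    (1 / 2) * c1 + (1 / 2) * c2 + (1 / 2) * c3 + (1 / 2) * c4

theorem oa6 {s b t k G1 G2 G3 G4 : ℝ} (R : RegA s b t k G1 G2 G3 G4) (hT : t ≤ 284 / 1000 * s) (hy : 0 ≤ 1 / 2 - s + t) (hb : 0 ≤ t - s + b)
    (s1 : 57 / 100 ≤ s) (s2 : s ≤ 607 / 1000)
    (b1 : 15 / 40 ≤ b) (b2 : b ≤ 1 / 2) (t1 : 1294 / 10000 ≤ t) (t2 : t ≤ 345 / 2000) :
    4 * ph (s - t) - 2 * ph s - dl s ≤ (G1 + G2 + G3 + G4) / 2 := by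
  have e1 := up (t1 := (67 / 1000)) (t2 := (68 / 1000)) (x := 1 - h0) (by norm_num)
    (by linear_combination (1004489 / 1000000) * R.h2) (by linear_combination (62789 / 62500) * R.h1)
  have e2 := up (t1 := (229 / 1000)) (t2 := (252 / 1000)) (x := h0 + s - 1) (by norm_num)
    (by linear_combination (1052441 / 1000000) * s1 + (1052441 / 1000000) * R.h1) (by linear_combination (66469 / 62500) * s2 + (66469 / 62500) * R.h2)
  have e3 := lo (t := (311 / 1000)) (x := s - t + b / 2 - k) (by norm_num)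
    (by linear_combination s1 + (1 / 2) * b1 + t2 + R.k4) (by linear_combination s2 + (1 / 2) * b2 + t1 + R.k3)
  have e4 := lo (t := (-2 / 1000)) (x := h0 + s - 1 - t - b / 2 - k) (by norm_num)
    (by linear_combination s1 + (1 / 2) * b2 + t2 + R.k4 + R.h1) (by linear_combination s2 + (1 / 2) * b1 + t1 + R.k3 + R.h2)
  have e5 := up (t1 := (207 / 1000)) (t2 := (255 / 1000)) (x := s - t) (by norm_num)
    (by linear_combination (1042849 / 1000000) * s1 + (1042849 / 1000000) * t2) (by linear_combination (42601 / 40000) * s2 + (42601 / 40000) * t1)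
  have e6 := lo (t := (167 / 1000)) (x := h0 - 1 + t + b / 2 + k) (by norm_num)
    (by linear_combination (1 / 2) * b1 + t1 + R.k3 + R.h1) (by linear_combination (1 / 2) * b2 + t2 + R.k4 + R.h2)
  have e7 := lo (t := (325 / 1000)) (x := s) (by norm_num)
    (by linear_combination s1) (by linear_combination s2)
  have e8 := up (t1 := (194 / 1000)) (t2 := (268 / 1000)) (x := b) (by norm_num)
    (by linear_combination (259409 / 250000) * b1) (by linear_combination (66989 / 62500) * b2)
  have c1 := R.ph1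
  have c2 := R.qh1
  have c3 := R.rh1
  unfold dl
  linear_combination (6836508540874629921250 / 2890384025800385719059) * e8 + (3200 / 1431) * e7 +
    (500000 / 972111) * e6 + (800000 / 189443) * e5 + (250000 / 249999) * e4 + (500000 / 301093) * e3 +
    (125000 / 235573) * e2 + (250000 / 248861) * e1 + (20906016546229000 / 24391220544977559) * R.k2 +
    (553011609569335727917 / 23256382554056957662890) * s2 + (2823342465006050790235 / 5780768051600771438118) * b2 +
    (12993564578037134600 / 11878524405404071233) * t1 + (5867042357152794625 / 121772892424873343101) * R.h1 +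
    (1 / 2) * c1 + (1 / 2) * c2 + (1 / 2) * c3 + (1 / 2) * R.n4

theorem oa3 {s b t k G1 G2 G3 G4 : ℝ} (R : RegA s b t k G1 G2 G3 G4) (hT : t ≤ 284 / 1000 * s) (hy : 0 ≤ 1 / 2 - s + t) (hb : 0 ≤ t - s + b)
    (s1 : 57 / 100 ≤ s) (s2 : s ≤ 607 / 1000)
    (b1 : 15 / 40 ≤ b) (b2 : b ≤ 1 / 2) (t1 : 862 / 10000 ≤ t) (t2 : t ≤ 1294 / 10000) :
    4 * ph (s - t) - 2 * ph s - dl s ≤ (G1 + G2 + G3 + G4) / 2 := by
  rcases le_total b (875 / 2000) with h | h
  · exact oa4 R hT hy hb s1 s2 b1 h t1 t2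
  · exact oa5 R hT hy hb s1 s2 h b2 t1 t2

theorem oa2 {s b t k G1 G2 G3 G4 : ℝ} (R : RegA s b t k G1 G2 G3 G4) (hT : t ≤ 284 / 1000 * s) (hy : 0 ≤ 1 / 2 - s + t) (hb : 0 ≤ t - s + b)
    (s1 : 57 / 100 ≤ s) (s2 : s ≤ 607 / 1000)
    (b1 : 15 / 40 ≤ b) (b2 : b ≤ 1 / 2) (t1 : 862 / 10000 ≤ t) (t2 : t ≤ 345 / 2000) :
    4 * ph (s - t) - 2 * ph s - dl s ≤ (G1 + G2 + G3 + G4) / 2 := by
  rcases le_total t (1294 / 10000) with h | h
  · exact oa3 R hT hy hb s1 s2 b1 b2 t1 h
  · exact oa6 R hT hy hb s1 s2 b1 b2 h t2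

theorem oa0 {s b t k G1 G2 G3 G4 : ℝ} (R : RegA s b t k G1 G2 G3 G4) (hT : t ≤ 284 / 1000 * s) (hy : 0 ≤ 1 / 2 - s + t) (hb : 0 ≤ t - s + b)
    (s1 : 57 / 100 ≤ s) (s2 : s ≤ 607 / 1000)
    (b1 : 15 / 40 ≤ b) (b2 : b ≤ 1 / 2) (t1 : 0 ≤ t) (t2 : t ≤ 345 / 2000) :
    4 * ph (s - t) - 2 * ph s - dl s ≤ (G1 + G2 + G3 + G4) / 2 := by
  rcases le_total t (862 / 10000) with h | h
  · exact oa1 R hT hy hb s1 s2 b1 b2 t1 h
  · exact oa2 R hT hy hb s1 s2 b1 b2 h t2

theorem ia1 {s b t k G1 G2 G3 G4 : ℝ} (R : RegA s b t k G1 G2 G3 G4) (hT : t ≤ 284 / 1000 * s) (hy : 0 ≤ 1 / 2 - s + t) (hb : 0 ≤ s - t - b)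
    (s1 : 57 / 100 ≤ s) (s2 : s ≤ 607 / 1000)
    (b1 : 15 / 40 ≤ b) (b2 : b ≤ 1 / 2) (t1 : 0 ≤ t) (t2 : t ≤ 862 / 10000) :
    4 * ph (s - t) - 2 * ph s + dl s ≤ (G1 + G2 + G3 + G4) / 2 := by
  have e1 := up (t1 := (67 / 1000)) (t2 := (68 / 1000)) (x := 1 - h0) (by norm_num)
    (by linear_combination (1004489 / 1000000) * R.h2) (by linear_combination (62789 / 62500) * R.h1)
  have e2 := up (t1 := (229 / 1000)) (t2 := (252 / 1000)) (x := h0 + s - 1) (by norm_num)
    (by linear_combination (1052441 / 1000000) * s1 + (1052441 / 1000000) * R.h1) (by linear_combination (66469 / 62500) * s2 + (66469 / 62500) * R.h2)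
  have e3 := lo (t := (388 / 1000)) (x := s - t + b / 2 - k) (by norm_num)
    (by linear_combination s1 + (1 / 2) * b1 + t2 + R.k4) (by linear_combination s2 + (1 / 2) * b2 + t1 + R.k3)
  have e4 := lo (t := (52 / 1000)) (x := h0 + s - 1 - t - b / 2 - k) (by norm_num)
    (by linear_combination s1 + (1 / 2) * b2 + t2 + R.k4 + R.h1) (by linear_combination s2 + (1 / 2) * b1 + t1 + R.k3 + R.h2)
  have e5 := lo (t := (120 / 1000)) (x := s - t - b / 2 - k) (by norm_num)
    (by linear_combination s1 + (1 / 2) * b2 + t2 + R.k4) (by linear_combination s2 + (1 / 2) * b1 + t1 + R.k3)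
  have e6 := up (t1 := (258 / 1000)) (t2 := (339 / 1000)) (x := s - t) (by norm_num)
    (by linear_combination (266641 / 250000) * s1 + (266641 / 250000) * t2) (by linear_combination (1114921 / 1000000) * s2 + (1114921 / 1000000) * t1)
  have e7 := lo (t := (110 / 1000)) (x := h0 - 1 + t + b / 2 + k) (by norm_num)
    (by linear_combination (1 / 2) * b1 + t1 + R.k3 + R.h1) (by linear_combination (1 / 2) * b2 + t2 + R.k4 + R.h2)
  have e8 := lo (t := (182 / 1000)) (x := t + b / 2 + k) (by norm_num)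
    (by linear_combination (1 / 2) * b1 + t1 + R.k3) (by linear_combination (1 / 2) * b2 + t2 + R.k4)
  have e9 := up (t1 := (577 / 1000)) (t2 := (730 / 1000)) (x := h0 + t) (by norm_num)
    (by linear_combination (1332929 / 1000000) * t1 + (1332929 / 1000000) * R.h1) (by linear_combination (15329 / 10000) * t2 + (15329 / 10000) * R.h2)
  have e10 := lo (t := (325 / 1000)) (x := s) (by norm_num)
    (by linear_combination s1) (by linear_combination s2)
  have e11 := up (t1 := (194 / 1000)) (t2 := (268 / 1000)) (x := b) (by norm_num)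
    (by linear_combination (259409 / 250000) * b1) (by linear_combination (66989 / 62500) * b2)
  have c1 := R.ph1
  have c2 := R.qhh
  have c3 := R.rh1
  have c4 := R.syv (by linear_combination (250 / 231) * e11 + (3694907 / 231) * R.k1 + (3695138 / 231) * R.k2 + t2) (by linear_combination (433015 / 237002) * e11 + 2 * R.k2 + (43705493 / 23700200) * b2 + t2 + R.h1)
  unfold dl
  linear_combination (7724669611038094039786375 / 2589606575472639199308384) * e11 + (3200 / 1431) * e10 +
    (50000 / 57879) * e9 + (125000 / 241719) * e8 + (5000 / 9879) * e7 + (2000000 / 456269) * e6 +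
    (625 / 1232) * e5 + (31250 / 62331) * e4 + (31250 / 17697) * e3 + (125000 / 235573) * e2 +
    (375000 / 248861) * e1 + (74795327485202891675 / 60095847989044462056) * R.k2 + (172810324577281168061833 / 406033647205476367206360) * s1 +
    (70190448450880459663486885447 / 356070904127487889904902800000) * b2 + (11695826521478774858653687975 / 48091963589884039136590557432) * t1 +
    (18168683153722850583500 / 17858072912211148673439) * R.h2 + (1 / 2) * R.h3 + (1 / 2) * c1 +
    (1 / 2) * c2 + (1 / 2) * c3 + (1 / 2) * c4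

theorem ia4 {s b t k G1 G2 G3 G4 : ℝ} (R : RegA s b t k G1 G2 G3 G4) (hT : t ≤ 284 / 1000 * s) (hy : 0 ≤ 1 / 2 - s + t) (hb : 0 ≤ s - t - b)
    (s1 : 57 / 100 ≤ s) (s2 : s ≤ 607 / 1000)
    (b1 : 15 / 40 ≤ b) (b2 : b ≤ 1 / 2) (t1 : 862 / 10000 ≤ t) (t2 : t ≤ 1078 / 10000) :
    4 * ph (s - t) - 2 * ph s + dl s ≤ (G1 + G2 + G3 + G4) / 2 := by
  have e1 := up (t1 := (67 / 1000)) (t2 := (68 / 1000)) (x := 1 - h0) (by norm_num)
    (by linear_combination (1004489 / 1000000) * R.h2) (by linear_combination (62789 / 62500) * R.h1)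
  have e2 := up (t1 := (229 / 1000)) (t2 := (252 / 1000)) (x := h0 + s - 1) (by norm_num)
    (by linear_combination (1052441 / 1000000) * s1 + (1052441 / 1000000) * R.h1) (by linear_combination (66469 / 62500) * s2 + (66469 / 62500) * R.h2)
  have e3 := lo (t := (348 / 1000)) (x := s - t + b / 2 - k) (by norm_num)
    (by linear_combination s1 + (1 / 2) * b1 + t2 + R.k4) (by linear_combination s2 + (1 / 2) * b2 + t1 + R.k3)
  have e4 := lo (t := (25 / 1000)) (x := h0 + s - 1 - t - b / 2 - k) (by norm_num)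
    (by linear_combination s1 + (1 / 2) * b2 + t2 + R.k4 + R.h1) (by linear_combination s2 + (1 / 2) * b1 + t1 + R.k3 + R.h2)
  have e5 := up (t1 := (244 / 1000)) (t2 := (281 / 1000)) (x := s - t) (by norm_num)
    (by linear_combination (66221 / 62500) * s1 + (66221 / 62500) * t2) (by linear_combination (1078961 / 1000000) * s2 + (1078961 / 1000000) * t1)
  have e6 := lo (t := (138 / 1000)) (x := h0 - 1 + t + b / 2 + k) (by norm_num)
    (by linear_combination (1 / 2) * b1 + t1 + R.k3 + R.h1) (by linear_combination (1 / 2) * b2 + t2 + R.k4 + R.h2)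
  have e7 := lo (t := (212 / 1000)) (x := t + b / 2 + k) (by norm_num)
    (by linear_combination (1 / 2) * b1 + t1 + R.k3) (by linear_combination (1 / 2) * b2 + t2 + R.k4)
  have e8 := up (t1 := (729 / 1000)) (t2 := (794 / 1000)) (x := h0 + t) (by norm_num)
    (by linear_combination (1531441 / 1000000) * t1 + (1531441 / 1000000) * R.h1) (by linear_combination (407609 / 250000) * t2 + (407609 / 250000) * R.h2)
  have e9 := lo (t := (325 / 1000)) (x := s) (by norm_num)
    (by linear_combination s1) (by linear_combination s2)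
  have e10 := up (t1 := (194 / 1000)) (t2 := (268 / 1000)) (x := b) (by norm_num)
    (by linear_combination (259409 / 250000) * b1) (by linear_combination (66989 / 62500) * b2)
  have c1 := R.ph1
  have c2 := R.qh1
  have c3 := R.rh1
  have c4 := R.syv (by linear_combination (250 / 231) * e10 + (3694907 / 231) * R.k1 + (3695138 / 231) * R.k2 + t2) (by linear_combination (433015 / 237002) * e10 + 2 * R.k2 + (43705493 / 23700200) * b2 + t2 + R.h1)
  unfold dl
  linear_combination (134361958270271217528775 / 50788468930825369457727) * e10 + (3200 / 1431) * e9 +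
    (250000 / 210587) * e8 + (31250 / 59691) * e7 + (125000 / 245239) * e6 + (1000000 / 232859) * e5 +
    (1600 / 1599) * e4 + (93750 / 54931) * e3 + (125000 / 235573) * e2 + (250000 / 248861) * e1 +
    (375115544672751340 / 428591057719558227) * R.k2 + (851428027460733446071 / 1767907492974997301070) * s1 +
    (15229345080902970814028321 / 390680530237118226597900000) * b2 + (693051111783638838864841690 / 1616681017489091950122905607) * t2 +
    (49756575626587347666595 / 28646080498489791448059) * R.h2 + (1 / 2) * R.h3 + (1 / 2) * c1 +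
    (1 / 2) * c2 + (1 / 2) * c3 + (1 / 2) * c4

theorem ia7 {s b t k G1 G2 G3 G4 : ℝ} (R : RegA s b t k G1 G2 G3 G4) (hT : t ≤ 284 / 1000 * s) (hy : 0 ≤ 1 / 2 - s + t) (hb : 0 ≤ s - t - b)
    (s1 : 57 / 100 ≤ s) (s2 : s ≤ 607 / 1000)
    (b1 : 15 / 40 ≤ b) (b2 : b ≤ 875 / 2000) (t1 : 1078 / 10000 ≤ t) (t2 : t ≤ 1186 / 10000) :
    4 * ph (s - t) - 2 * ph s + dl s ≤ (G1 + G2 + G3 + G4) / 2 := by
  have e1 := up (t1 := (67 / 1000)) (t2 := (68 / 1000)) (x := 1 - h0) (by norm_num)
    (by linear_combination (1004489 / 1000000) * R.h2) (by linear_combination (62789 / 62500) * R.h1)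
  have e2 := up (t1 := (229 / 1000)) (t2 := (252 / 1000)) (x := h0 + s - 1) (by norm_num)
    (by linear_combination (1052441 / 1000000) * s1 + (1052441 / 1000000) * R.h1) (by linear_combination (66469 / 62500) * s2 + (66469 / 62500) * R.h2)
  have e3 := lo (t := (336 / 1000)) (x := s - t + b / 2 - k) (by norm_num)
    (by linear_combination s1 + (1 / 2) * b1 + t2 + R.k4) (by linear_combination s2 + (1 / 2) * b2 + t1 + R.k3)
  have e4 := lo (t := (32 / 1000)) (x := h0 + s - 1 - t - b / 2 - k) (by norm_num)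
    (by linear_combination s1 + (1 / 2) * b2 + t2 + R.k4 + R.h1) (by linear_combination s2 + (1 / 2) * b1 + t1 + R.k3 + R.h2)
  have e5 := lo (t := (99 / 1000)) (x := s - t - b / 2 - k) (by norm_num)
    (by linear_combination s1 + (1 / 2) * b2 + t2 + R.k4) (by linear_combination s2 + (1 / 2) * b1 + t1 + R.k3)
  have e6 := up (t1 := (238 / 1000)) (t2 := (268 / 1000)) (x := s - t) (by norm_num)
    (by linear_combination (264161 / 250000) * s1 + (264161 / 250000) * t2) (by linear_combination (66989 / 62500) * s2 + (66989 / 62500) * t1)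
  have e7 := lo (t := (131 / 1000)) (x := h0 - 1 + t + b / 2 + k) (by norm_num)
    (by linear_combination (1 / 2) * b1 + t1 + R.k3 + R.h1) (by linear_combination (1 / 2) * b2 + t2 + R.k4 + R.h2)
  have e8 := lo (t := (204 / 1000)) (x := t + b / 2 + k) (by norm_num)
    (by linear_combination (1 / 2) * b1 + t1 + R.k3) (by linear_combination (1 / 2) * b2 + t2 + R.k4)
  have e9 := up (t1 := (793 / 1000)) (t2 := (839 / 1000)) (x := h0 + t) (by norm_num)
    (by linear_combination (1628849 / 1000000) * t1 + (1628849 / 1000000) * R.h1) (by linear_combination (1703921 / 1000000) * t2 + (1703921 / 1000000) * R.h2)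
  have e10 := lo (t := (325 / 1000)) (x := s) (by norm_num)
    (by linear_combination s1) (by linear_combination s2)
  have e11 := up (t1 := (194 / 1000)) (t2 := (231 / 1000)) (x := b) (by norm_num)
    (by linear_combination (259409 / 250000) * b1) (by linear_combination (1053361 / 1000000) * b2)
  have c1 := R.ph1
  have c2 := R.qhh
  have c3 := R.rh1
  have c4 := R.syv (by linear_combination (433015 / 477593) * e11 + R.k2 + (438121 / 3820744) * b1 + t2) (by linear_combination (866030 / 477593) * e11 + 2 * R.k2 + (3382623 / 1910372) * b2 + t2 + R.h1)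
  unfold dl
  linear_combination (49031234394977907521500000 / 18376282486304750067967907) * e11 +
    (3200 / 1431) * e10 + (500000 / 334673) * e9 + (31250 / 59899) * e8 + (500000 / 982839) * e7 +
    (500000 / 117027) * e6 + (500000 / 990199) * e5 + (15625 / 31218) * e4 + (46875 / 27722) * e3 +
    (125000 / 235573) * e2 + (375000 / 248861) * e1 + (390295325898755575000 / 423245540343665528489) * R.k2 +
    (2747265190910022113634101 / 4543184352515990624074170) * s1 + (520696456602597799068863248923 / 20213910734935225074764697700000) * b2 +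
    (19866482693439573057221684432000 / 16576740521719494850154126324619) * t2 + (1631048502799351978105000 / 701622004616885144689611) * R.h2 +
    (1 / 2) * R.h3 + (1 / 2) * c1 + (1 / 2) * c2 + (1 / 2) * c3 + (1 / 2) * c4

theorem ia9 {s b t k G1 G2 G3 G4 : ℝ} (R : RegA s b t k G1 G2 G3 G4) (hT : t ≤ 284 / 1000 * s) (hy : 0 ≤ 1 / 2 - s + t) (hb : 0 ≤ s - t - b)
    (s1 : 57 / 100 ≤ s) (s2 : s ≤ 607 / 1000)
    (b1 : 15 / 40 ≤ b) (b2 : b ≤ 875 / 2000) (t1 : 1186 / 10000 ≤ t) (t2 : t ≤ 124 / 1000) :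
    4 * ph (s - t) - 2 * ph s + dl s ≤ (G1 + G2 + G3 + G4) / 2 := by
  have e1 := up (t1 := (67 / 1000)) (t2 := (68 / 1000)) (x := 1 - h0) (by norm_num)
    (by linear_combination (1004489 / 1000000) * R.h2) (by linear_combination (62789 / 62500) * R.h1)
  have e2 := up (t1 := (229 / 1000)) (t2 := (252 / 1000)) (x := h0 + s - 1) (by norm_num)
    (by linear_combination (1052441 / 1000000) * s1 + (1052441 / 1000000) * R.h1) (by linear_combination (66469 / 62500) * s2 + (66469 / 62500) * R.h2)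
  have e3 := lo (t := (330 / 1000)) (x := s - t + b / 2 - k) (by norm_num)
    (by linear_combination s1 + (1 / 2) * b1 + t2 + R.k4) (by linear_combination s2 + (1 / 2) * b2 + t1 + R.k3)
  have e4 := lo (t := (27 / 1000)) (x := h0 + s - 1 - t - b / 2 - k) (by norm_num)
    (by linear_combination s1 + (1 / 2) * b2 + t2 + R.k4 + R.h1) (by linear_combination s2 + (1 / 2) * b1 + t1 + R.k3 + R.h2)
  have e5 := lo (t := (95 / 1000)) (x := s - t - b / 2 - k) (by norm_num)
    (by linear_combination s1 + (1 / 2) * b2 + t2 + R.k4) (by linear_combination s2 + (1 / 2) * b1 + t1 + R.k3)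
  have e6 := up (t1 := (235 / 1000)) (t2 := (261 / 1000)) (x := s - t) (by norm_num)
    (by linear_combination (42209 / 40000) * s1 + (42209 / 40000) * t2) (by linear_combination (1068121 / 1000000) * s2 + (1068121 / 1000000) * t1)
  have e7 := lo (t := (135 / 1000)) (x := h0 - 1 + t + b / 2 + k) (by norm_num)
    (by linear_combination (1 / 2) * b1 + t1 + R.k3 + R.h1) (by linear_combination (1 / 2) * b2 + t2 + R.k4 + R.h2)
  have e8 := lo (t := (209 / 1000)) (x := t + b / 2 + k) (by norm_num)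
    (by linear_combination (1 / 2) * b1 + t1 + R.k3) (by linear_combination (1 / 2) * b2 + t2 + R.k4)
  have e9 := up (t1 := (838 / 1000)) (t2 := (868 / 1000)) (x := h0 + t) (by norm_num)
    (by linear_combination (425561 / 250000) * t1 + (425561 / 250000) * R.h1) (by linear_combination (109589 / 62500) * t2 + (109589 / 62500) * R.h2)
  have e10 := lo (t := (325 / 1000)) (x := s) (by norm_num)
    (by linear_combination s1) (by linear_combination s2)
  have e11 := up (t1 := (194 / 1000)) (t2 := (231 / 1000)) (x := b) (by norm_num)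
    (by linear_combination (259409 / 250000) * b1) (by linear_combination (1053361 / 1000000) * b2)
  have c1 := R.ph1
  have c2 := R.qhh
  have c3 := R.rh1
  have c4 := R.syv (by linear_combination (433015 / 477593) * e11 + R.k2 + (438121 / 3820744) * b1 + t2) (by linear_combination (866030 / 477593) * e11 + 2 * R.k2 + (3382623 / 1910372) * b2 + t2 + R.h1)
  unfold dl
  linear_combination (8706183916822621227002220500 / 3312870255888267484181477433) * e11 +
    (3200 / 1431) * e10 + (62500 / 34077) * e9 + (500000 / 956319) * e8 + (20000 / 39271) * e7 +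
    (800000 / 187733) * e6 + (20000 / 39639) * e5 + (500000 / 999271) * e4 + (15000 / 8911) * e3 +
    (125000 / 235573) * e2 + (375000 / 248861) * e1 + (6089076328388090749700 / 6936597177697888126881) * R.k2 +
    (5561551056576041642340131 / 8991541324488410624934270) * s1 + (68628878692620585951927226731 / 5812053080505732428388556900000) * b2 +
    (14653626947154474733243688325 / 7740455311688250098770321837) * t2 + (18189406889394429981724825 / 6030531644844008815457217) * R.h2 +
    (1 / 2) * R.h3 + (1 / 2) * c1 + (1 / 2) * c2 + (1 / 2) * c3 + (1 / 2) * c4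

theorem ia10 {s b t k G1 G2 G3 G4 : ℝ} (R : RegA s b t k G1 G2 G3 G4) (hT : t ≤ 284 / 1000 * s) (hy : 0 ≤ 1 / 2 - s + t) (hb : 0 ≤ s - t - b)
    (s1 : 57 / 100 ≤ s) (s2 : s ≤ 607 / 1000)
    (b1 : 15 / 40 ≤ b) (b2 : b ≤ 875 / 2000) (t1 : 124 / 1000 ≤ t) (t2 : t ≤ 1294 / 10000) :
    4 * ph (s - t) - 2 * ph s + dl s ≤ (G1 + G2 + G3 + G4) / 2 := by
  have e1 := up (t1 := (67 / 1000)) (t2 := (68 / 1000)) (x := 1 - h0) (by norm_num)
    (by linear_combination (1004489 / 1000000) * R.h2) (by linear_combination (62789 / 62500) * R.h1)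
  have e2 := up (t1 := (229 / 1000)) (t2 := (252 / 1000)) (x := h0 + s - 1) (by norm_num)
    (by linear_combination (1052441 / 1000000) * s1 + (1052441 / 1000000) * R.h1) (by linear_combination (66469 / 62500) * s2 + (66469 / 62500) * R.h2)
  have e3 := lo (t := (326 / 1000)) (x := s - t + b / 2 - k) (by norm_num)
    (by linear_combination s1 + (1 / 2) * b1 + t2 + R.k4) (by linear_combination s2 + (1 / 2) * b2 + t1 + R.k3)
  have e4 := lo (t := (25 / 1000)) (x := h0 + s - 1 - t - b / 2 - k) (by norm_num)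
    (by linear_combination s1 + (1 / 2) * b2 + t2 + R.k4 + R.h1) (by linear_combination s2 + (1 / 2) * b1 + t1 + R.k3 + R.h2)
  have e5 := lo (t := (93 / 1000)) (x := s - t - b / 2 - k) (by norm_num)
    (by linear_combination s1 + (1 / 2) * b2 + t2 + R.k4) (by linear_combination s2 + (1 / 2) * b1 + t1 + R.k3)
  have e6 := up (t1 := (232 / 1000)) (t2 := (258 / 1000)) (x := s - t) (by norm_num)
    (by linear_combination (16466 / 15625) * s1 + (16466 / 15625) * t2) (by linear_combination (266641 / 250000) * s2 + (266641 / 250000) * t1)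
  have e7 := lo (t := (138 / 1000)) (x := h0 - 1 + t + b / 2 + k) (by norm_num)
    (by linear_combination (1 / 2) * b1 + t1 + R.k3 + R.h1) (by linear_combination (1 / 2) * b2 + t2 + R.k4 + R.h2)
  have e8 := lo (t := (325 / 1000)) (x := s) (by norm_num)
    (by linear_combination s1) (by linear_combination s2)
  have e9 := up (t1 := (194 / 1000)) (t2 := (231 / 1000)) (x := b) (by norm_num)
    (by linear_combination (259409 / 250000) * b1) (by linear_combination (1053361 / 1000000) * b2)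
  have c1 := R.ph1
  have c2 := R.qhh
  have c3 := R.rh1
  unfold dl
  linear_combination (2704585150623326836163600 / 1063658522857285690699767) * e9 + (3200 / 1431) * e8 +
    (125000 / 245239) * e7 + (250000 / 58759) * e6 + (500000 / 991351) * e5 + (800 / 1599) * e4 +
    (125000 / 74477) * e3 + (125000 / 235573) * e2 + (375000 / 248861) * e1 + (2388468383147666240 / 2227123351592853519) * R.k2 +
    (28903223286598256073486739 / 46124287497596617473807630) * s1 + (4519086537603525876530 / 8647630267132403989429) * b2 +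
    (132478596844750835481340 / 130863541016244479922921) * t1 + (201406402385939360 / 1768385733594036141) * R.h1 +
    (1 / 2) * c1 + (1 / 2) * c2 + (1 / 2) * c3 + (1 / 2) * R.n4

theorem ia11 {s b t k G1 G2 G3 G4 : ℝ} (R : RegA s b t k G1 G2 G3 G4) (hT : t ≤ 284 / 1000 * s) (hy : 0 ≤ 1 / 2 - s + t) (hb : 0 ≤ s - t - b)
    (s1 : 57 / 100 ≤ s) (s2 : s ≤ 607 / 1000)
    (b1 : 875 / 2000 ≤ b) (b2 : b ≤ 1 / 2) (t1 : 1078 / 10000 ≤ t) (t2 : t ≤ 1294 / 10000) :
    4 * ph (s - t) - 2 * ph s + dl s ≤ (G1 + G2 + G3 + G4) / 2 := by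
  have e1 := up (t1 := (67 / 1000)) (t2 := (68 / 1000)) (x := 1 - h0) (by norm_num)
    (by linear_combination (1004489 / 1000000) * R.h2) (by linear_combination (62789 / 62500) * R.h1)
  have e2 := up (t1 := (229 / 1000)) (t2 := (252 / 1000)) (x := h0 + s - 1) (by norm_num)
    (by linear_combination (1052441 / 1000000) * s1 + (1052441 / 1000000) * R.h1) (by linear_combination (66469 / 62500) * s2 + (66469 / 62500) * R.h2)
  have e3 := lo (t := (335 / 1000)) (x := s - t + b / 2 - k) (by norm_num)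
    (by linear_combination s1 + (1 / 2) * b1 + t2 + R.k4) (by linear_combination s2 + (1 / 2) * b2 + t1 + R.k3)
  have e4 := lo (t := (0 / 1000)) (x := h0 + s - 1 - t - b / 2 - k) (by norm_num)
    (by linear_combination s1 + (1 / 2) * b2 + t2 + R.k4 + R.h1) (by linear_combination s2 + (1 / 2) * b1 + t1 + R.k3 + R.h2)
  have e5 := up (t1 := (232 / 1000)) (t2 := (268 / 1000)) (x := s - t) (by norm_num)
    (by linear_combination (16466 / 15625) * s1 + (16466 / 15625) * t2) (by linear_combination (66989 / 62500) * s2 + (66989 / 62500) * t1)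
  have e6 := lo (t := (165 / 1000)) (x := h0 - 1 + t + b / 2 + k) (by norm_num)
    (by linear_combination (1 / 2) * b1 + t1 + R.k3 + R.h1) (by linear_combination (1 / 2) * b2 + t2 + R.k4 + R.h2)
  have e7 := lo (t := (240 / 1000)) (x := t + b / 2 + k) (by norm_num)
    (by linear_combination (1 / 2) * b1 + t1 + R.k3) (by linear_combination (1 / 2) * b2 + t2 + R.k4)
  have e8 := up (t1 := (793 / 1000)) (t2 := (909 / 1000)) (x := h0 + t) (by norm_num)
    (by linear_combination (1628849 / 1000000) * t1 + (1628849 / 1000000) * R.h1) (by linear_combination (1826281 / 1000000) * t2 + (1826281 / 1000000) * R.h2)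
  have e9 := lo (t := (325 / 1000)) (x := s) (by norm_num)
    (by linear_combination s1) (by linear_combination s2)
  have e10 := up (t1 := (230 / 1000)) (t2 := (268 / 1000)) (x := b) (by norm_num)
    (by linear_combination (10529 / 10000) * b1) (by linear_combination (66989 / 62500) * b2)
  have c1 := R.ph1
  have c2 := R.qh1
  have c3 := R.rh1
  have c4 := R.syv (by linear_combination (86603 / 93836) * e10 + R.k2 + (1894853 / 46918000) * b1 + t2) (by linear_combination (86603 / 46918) * e10 + 2 * R.k2 + (45023147 / 23459000) * b2 + t2 + R.h1)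
  unfold dl
  linear_combination (1686934348681875 / 669908093172206) * e10 + (3200 / 1431) * e9 +
    (500000 / 279163) * e8 + (625 / 1178) * e7 + (20000 / 38911) * e6 + (125000 / 29307) * e5 +
    e4 + (20000 / 11837) * e3 + (125000 / 235573) * e2 + (250000 / 248861) * e1 + (10105546250 / 14278274717) * R.k2 +
    (14925286543532459 / 29985655789266030) * s1 + (1435862375431341497 / 33495404658610300000) * b2 +
    (189658785327680227750 / 116816705703314573397) * t2 + (146878272353527145075 / 48985692420062310233) * R.h2 +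
    (1 / 2) * R.h3 + (1 / 2) * c1 + (1 / 2) * c2 + (1 / 2) * c3 + (1 / 2) * c4

theorem ia13 {s b t k G1 G2 G3 G4 : ℝ} (R : RegA s b t k G1 G2 G3 G4) (hT : t ≤ 284 / 1000 * s) (hy : 0 ≤ 1 / 2 - s + t) (hb : 0 ≤ s - t - b)
    (s1 : 57 / 100 ≤ s) (s2 : s ≤ 607 / 1000)
    (b1 : 15 / 40 ≤ b) (b2 : b ≤ 875 / 2000) (t1 : 1294 / 10000 ≤ t) (t2 : t ≤ 345 / 2000) :
    4 * ph (s - t) - 2 * ph s + dl s ≤ (G1 + G2 + G3 + G4) / 2 := by
  have e1 := up (t1 := (67 / 1000)) (t2 := (68 / 1000)) (x := 1 - h0) (by norm_num)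
    (by linear_combination (1004489 / 1000000) * R.h2) (by linear_combination (62789 / 62500) * R.h1)
  have e2 := up (t1 := (229 / 1000)) (t2 := (252 / 1000)) (x := h0 + s - 1) (by norm_num)
    (by linear_combination (1052441 / 1000000) * s1 + (1052441 / 1000000) * R.h1) (by linear_combination (66469 / 62500) * s2 + (66469 / 62500) * R.h2)
  have e3 := lo (t := (310 / 1000)) (x := s - t + b / 2 - k) (by norm_num)
    (by linear_combination s1 + (1 / 2) * b1 + t2 + R.k4) (by linear_combination s2 + (1 / 2) * b2 + t1 + R.k3)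
  have e4 := lo (t := (13 / 1000)) (x := h0 + s - 1 - t - b / 2 - k) (by norm_num)
    (by linear_combination s1 + (1 / 2) * b2 + t2 + R.k4 + R.h1) (by linear_combination s2 + (1 / 2) * b1 + t1 + R.k3 + R.h2)
  have e5 := lo (t := (80 / 1000)) (x := s - t - b / 2 - k) (by norm_num)
    (by linear_combination s1 + (1 / 2) * b2 + t2 + R.k4) (by linear_combination s2 + (1 / 2) * b1 + t1 + R.k3)
  have e6 := up (t1 := (207 / 1000)) (t2 := (255 / 1000)) (x := s - t) (by norm_num)
    (by linear_combination (1042849 / 1000000) * s1 + (1042849 / 1000000) * t2) (by linear_combination (42601 / 40000) * s2 + (42601 / 40000) * t1)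
  have e7 := lo (t := (151 / 1000)) (x := h0 - 1 + t + b / 2 + k) (by norm_num)
    (by linear_combination (1 / 2) * b1 + t1 + R.k3 + R.h1) (by linear_combination (1 / 2) * b2 + t2 + R.k4 + R.h2)
  have e8 := lo (t := (325 / 1000)) (x := s) (by norm_num)
    (by linear_combination s1) (by linear_combination s2)
  have e9 := up (t1 := (194 / 1000)) (t2 := (231 / 1000)) (x := b) (by norm_num)
    (by linear_combination (259409 / 250000) * b1) (by linear_combination (1053361 / 1000000) * b2)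
  have c1 := R.ph1
  have c2 := R.qhh
  have c3 := R.rh1
  unfold dl
  linear_combination (10324816441820554763750 / 4217819118824697724863) * e9 + (3200 / 1431) * e8 +
    (500000 / 977199) * e7 + (800000 / 189443) * e6 + (625 / 1242) * e5 + (500000 / 999831) * e4 +
    (5000 / 3013) * e3 + (125000 / 235573) * e2 + (375000 / 248861) * e1 + (8547647752084250 / 8831409000602391) * R.k2 +
    (3670701886690049737081 / 5481031805419344370770) * s1 + (928705437011625236275 / 1874586275033198988828) * b2 +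
    (1644796733524547140850 / 1673048615301118758213) * t1 + (56653646999129445500 / 489560201370500394421) * R.h1 +
    (1 / 2) * c1 + (1 / 2) * c2 + (1 / 2) * c3 + (1 / 2) * R.n4

theorem ia19 {s b t k G1 G2 G3 G4 : ℝ} (R : RegA s b t k G1 G2 G3 G4) (hT : t ≤ 284 / 1000 * s) (hy : 0 ≤ 1 / 2 - s + t) (hb : 0 ≤ s - t - b)
    (s1 : 57 / 100 ≤ s) (s2 : s ≤ 1177 / 2000)
    (b1 : 875 / 2000 ≤ b) (b2 : b ≤ 4532 / 10000) (t1 : 1294 / 10000 ≤ t) (t2 : t ≤ 1402 / 10000) :
    4 * ph (s - t) - 2 * ph s + dl s ≤ (G1 + G2 + G3 + G4) / 2 := by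
  have e1 := up (t1 := (67 / 1000)) (t2 := (68 / 1000)) (x := 1 - h0) (by norm_num)
    (by linear_combination (1004489 / 1000000) * R.h2) (by linear_combination (62789 / 62500) * R.h1)
  have e2 := up (t1 := (229 / 1000)) (t2 := (241 / 1000)) (x := h0 + s - 1) (by norm_num)
    (by linear_combination (1052441 / 1000000) * s1 + (1052441 / 1000000) * R.h1) (by linear_combination (1058081 / 1000000) * s2 + (1058081 / 1000000) * R.h2)
  have e3 := lo (t := (317 / 1000)) (x := s - t + b / 2 - k) (by norm_num)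
    (by linear_combination s1 + (1 / 2) * b1 + t2 + R.k4) (by linear_combination s2 + (1 / 2) * b2 + t1 + R.k3)
  have e4 := lo (t := (-1 / 1000)) (x := h0 + s - 1 - t - b / 2 - k) (by norm_num)
    (by linear_combination s1 + (1 / 2) * b2 + t2 + R.k4 + R.h1) (by linear_combination s2 + (1 / 2) * b1 + t1 + R.k3 + R.h2)
  have e5 := up (t1 := (225 / 1000)) (t2 := (244 / 1000)) (x := s - t) (by norm_num)
    (by linear_combination (1681 / 1600) * s1 + (1681 / 1600) * t2) (by linear_combination (66221 / 62500) * s2 + (66221 / 62500) * t1)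
  have e6 := lo (t := (161 / 1000)) (x := h0 - 1 + t + b / 2 + k) (by norm_num)
    (by linear_combination (1 / 2) * b1 + t1 + R.k3 + R.h1) (by linear_combination (1 / 2) * b2 + t2 + R.k4 + R.h2)
  have e7 := lo (t := (319 / 1000)) (x := s) (by norm_num)
    (by linear_combination s1) (by linear_combination s2)
  have e8 := up (t1 := (230 / 1000)) (t2 := (240 / 1000)) (x := b) (by norm_num)
    (by linear_combination (10529 / 10000) * b1) (by linear_combination (661 / 625) * b2)
  have c1 := R.ph1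
  have c2 := R.qh1
  have c3 := R.rh1
  unfold dl
  linear_combination (2791244557906678525 / 1161374854012075521) * e8 + (2000000 / 898239) * e7 +
    (500000 / 974079) * e6 + (40000 / 9451) * e5 + (1000000 / 999999) * e4 + (500000 / 299837) * e3 +
    (500000 / 944811) * e2 + (250000 / 248861) * e1 + (9626847986684000 / 10817208631780551) * R.k2 +
    (1768680701059801298934061 / 3262668800386686071250870) * s1 + (2937334479072648433 / 5677832619614591436) * b2 +
    (8611345662311742520 / 7864110675304460577) * t1 + (2251952346148120750 / 44881768444889673297) * R.h1 +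
    (1 / 2) * c1 + (1 / 2) * c2 + (1 / 2) * c3 + (1 / 2) * R.n4

theorem ia21 {s b t k G1 G2 G3 G4 : ℝ} (R : RegA s b t k G1 G2 G3 G4) (hT : t ≤ 284 / 1000 * s) (hy : 0 ≤ 1 / 2 - s + t) (hb : 0 ≤ s - t - b)
    (s1 : 57 / 100 ≤ s) (s2 : s ≤ 5793 / 10000)
    (b1 : 4532 / 10000 ≤ b) (b2 : b ≤ 4688 / 10000) (t1 : 1294 / 10000 ≤ t) (t2 : t ≤ 1402 / 10000) :
    4 * ph (s - t) - 2 * ph s + dl s ≤ (G1 + G2 + G3 + G4) / 2 := by
  exfalso
  exact absurd b1 (not_le.mpr (by linear_combination s2 + t1 + hb))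

theorem ia23 {s b t k G1 G2 G3 G4 : ℝ} (R : RegA s b t k G1 G2 G3 G4) (hT : t ≤ 284 / 1000 * s) (hy : 0 ≤ 1 / 2 - s + t) (hb : 0 ≤ s - t - b)
    (s1 : 5793 / 10000 ≤ s) (s2 : s ≤ 1177 / 2000)
    (b1 : 4532 / 10000 ≤ b) (b2 : b ≤ 461 / 1000) (t1 : 1294 / 10000 ≤ t) (t2 : t ≤ 1402 / 10000) :
    4 * ph (s - t) - 2 * ph s + dl s ≤ (G1 + G2 + G3 + G4) / 2 := by
  have e1 := up (t1 := (67 / 1000)) (t2 := (68 / 1000)) (x := 1 - h0) (by norm_num)
    (by linear_combination (1004489 / 1000000) * R.h2) (by linear_combination (62789 / 62500) * R.h1)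
  have e2 := up (t1 := (234 / 1000)) (t2 := (241 / 1000)) (x := h0 + s - 1) (by norm_num)
    (by linear_combination (263689 / 250000) * s1 + (263689 / 250000) * R.h1) (by linear_combination (1058081 / 1000000) * s2 + (1058081 / 1000000) * R.h2)
  have e3 := lo (t := (321 / 1000)) (x := s - t + b / 2 - k) (by norm_num)
    (by linear_combination s1 + (1 / 2) * b1 + t2 + R.k4) (by linear_combination s2 + (1 / 2) * b2 + t1 + R.k3)
  have e4 := lo (t := (-5 / 1000)) (x := h0 + s - 1 - t - b / 2 - k) (by norm_num)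
    (by linear_combination s1 + (1 / 2) * b2 + t2 + R.k4 + R.h1) (by linear_combination s2 + (1 / 2) * b1 + t1 + R.k3 + R.h2)
  have e5 := up (t1 := (231 / 1000)) (t2 := (244 / 1000)) (x := s - t) (by norm_num)
    (by linear_combination (1053361 / 1000000) * s1 + (1053361 / 1000000) * t2) (by linear_combination (66221 / 62500) * s2 + (66221 / 62500) * t1)
  have e6 := lo (t := (167 / 1000)) (x := h0 - 1 + t + b / 2 + k) (by norm_num)
    (by linear_combination (1 / 2) * b1 + t1 + R.k3 + R.h1) (by linear_combination (1 / 2) * b2 + t2 + R.k4 + R.h2)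
  have e7 := lo (t := (322 / 1000)) (x := s) (by norm_num)
    (by linear_combination s1) (by linear_combination s2)
  have e8 := up (t1 := (239 / 1000)) (t2 := (245 / 1000)) (x := b) (by norm_num)
    (by linear_combination (1057121 / 1000000) * b1) (by linear_combination (42401 / 40000) * b2)
  have c1 := R.ph1
  have c2 := R.qh1
  have c3 := R.rh1
  unfold dl
  linear_combination (251595921263196524800 / 104237018959682122353) * e8 + (500000 / 224079) * e7 +
    (500000 / 972111) * e6 + (1000000 / 235909) * e5 + (40000 / 39999) * e4 + (1500000 / 896959) * e3 +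
    (250000 / 471803) * e2 + (250000 / 248861) * e1 + (493721678810800 / 553601213876977) * R.k2 +
    (1597041859210268655714113053 / 2982681197099511822917988510) * s1 + (40244184881905898288 / 74455013542630087395) * b2 +
    (8616893474411003400 / 7682324044970809829) * t1 + (69569181838897767100 / 1521812953830924191829) * R.h1 +
    (1 / 2) * c1 + (1 / 2) * c2 + (1 / 2) * c3 + (1 / 2) * R.n4

theorem ia24 {s b t k G1 G2 G3 G4 : ℝ} (R : RegA s b t k G1 G2 G3 G4) (hT : t ≤ 284 / 1000 * s) (hy : 0 ≤ 1 / 2 - s + t) (hb : 0 ≤ s - t - b)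
    (s1 : 5793 / 10000 ≤ s) (s2 : s ≤ 1177 / 2000)
    (b1 : 461 / 1000 ≤ b) (b2 : b ≤ 4688 / 10000) (t1 : 1294 / 10000 ≤ t) (t2 : t ≤ 1402 / 10000) :
    4 * ph (s - t) - 2 * ph s + dl s ≤ (G1 + G2 + G3 + G4) / 2 := by
  exfalso
  exact absurd b1 (not_le.mpr (by linear_combination s2 + t1 + hb))

theorem ia25 {s b t k G1 G2 G3 G4 : ℝ} (R : RegA s b t k G1 G2 G3 G4) (hT : t ≤ 284 / 1000 * s) (hy : 0 ≤ 1 / 2 - s + t) (hb : 0 ≤ s - t - b)
    (s1 : 1177 / 2000 ≤ s) (s2 : s ≤ 607 / 1000)
    (b1 : 875 / 2000 ≤ b) (b2 : b ≤ 4688 / 10000) (t1 : 1294 / 10000 ≤ t) (t2 : t ≤ 1402 / 10000) :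
    4 * ph (s - t) - 2 * ph s + dl s ≤ (G1 + G2 + G3 + G4) / 2 := by
  have e1 := up (t1 := (67 / 1000)) (t2 := (68 / 1000)) (x := 1 - h0) (by norm_num)
    (by linear_combination (1004489 / 1000000) * R.h2) (by linear_combination (62789 / 62500) * R.h1)
  have e2 := up (t1 := (240 / 1000)) (t2 := (252 / 1000)) (x := h0 + s - 1) (by norm_num)
    (by linear_combination (661 / 625) * s1 + (661 / 625) * R.h1) (by linear_combination (66469 / 62500) * s2 + (66469 / 62500) * R.h2)
  have e3 := lo (t := (330 / 1000)) (x := s - t + b / 2 - k) (by norm_num)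
    (by linear_combination s1 + (1 / 2) * b1 + t2 + R.k4) (by linear_combination s2 + (1 / 2) * b2 + t1 + R.k3)
  have e4 := lo (t := (4 / 1000)) (x := h0 + s - 1 - t - b / 2 - k) (by norm_num)
    (by linear_combination s1 + (1 / 2) * b2 + t2 + R.k4 + R.h1) (by linear_combination s2 + (1 / 2) * b1 + t1 + R.k3 + R.h2)
  have e5 := up (t1 := (236 / 1000)) (t2 := (255 / 1000)) (x := s - t) (by norm_num)
    (by linear_combination (65981 / 62500) * s1 + (65981 / 62500) * t2) (by linear_combination (42601 / 40000) * s2 + (42601 / 40000) * t1)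
  have e6 := lo (t := (165 / 1000)) (x := h0 - 1 + t + b / 2 + k) (by norm_num)
    (by linear_combination (1 / 2) * b1 + t1 + R.k3 + R.h1) (by linear_combination (1 / 2) * b2 + t2 + R.k4 + R.h2)
  have e7 := lo (t := (332 / 1000)) (x := s) (by norm_num)
    (by linear_combination s1) (by linear_combination s2)
  have e8 := up (t1 := (230 / 1000)) (t2 := (249 / 1000)) (x := b) (by norm_num)
    (by linear_combination (10529 / 10000) * b1) (by linear_combination (1062001 / 1000000) * b2)
  have c1 := R.ph1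
  have c2 := R.qh1
  have c3 := R.rh1
  unfold dl
  linear_combination (5032318466636482600 / 2042957029691582067) * e8 + (125000 / 55611) * e7 +
    (20000 / 38911) * e6 + (200000 / 46991) * e5 + (62500 / 62499) * e4 + (15000 / 8911) * e3 +
    (3125 / 5872) * e2 + (250000 / 248861) * e1 + (20573435304200 / 21670648326579) * R.k2 +
    (2278513462860870361069 / 4069505654596686336480) * s1 + (1850904599159013609 / 3404928382819303445) * b2 +
    (165898766755770800 / 145475062216324827) * t1 + (365326869080725925 / 7107524170107722976) * R.h1 +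
    (1 / 2) * c1 + (1 / 2) * c2 + (1 / 2) * c3 + (1 / 2) * R.n4

theorem ia26 {s b t k G1 G2 G3 G4 : ℝ} (R : RegA s b t k G1 G2 G3 G4) (hT : t ≤ 284 / 1000 * s) (hy : 0 ≤ 1 / 2 - s + t) (hb : 0 ≤ s - t - b)
    (s1 : 57 / 100 ≤ s) (s2 : s ≤ 607 / 1000)
    (b1 : 875 / 2000 ≤ b) (b2 : b ≤ 4688 / 10000) (t1 : 1402 / 10000 ≤ t) (t2 : t ≤ 1509 / 10000) :
    4 * ph (s - t) - 2 * ph s + dl s ≤ (G1 + G2 + G3 + G4) / 2 := by
  have e1 := up (t1 := (67 / 1000)) (t2 := (68 / 1000)) (x := 1 - h0) (by norm_num)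
    (by linear_combination (1004489 / 1000000) * R.h2) (by linear_combination (62789 / 62500) * R.h1)
  have e2 := up (t1 := (229 / 1000)) (t2 := (252 / 1000)) (x := h0 + s - 1) (by norm_num)
    (by linear_combination (1052441 / 1000000) * s1 + (1052441 / 1000000) * R.h1) (by linear_combination (66469 / 62500) * s2 + (66469 / 62500) * R.h2)
  have e3 := lo (t := (316 / 1000)) (x := s - t + b / 2 - k) (by norm_num)
    (by linear_combination s1 + (1 / 2) * b1 + t2 + R.k4) (by linear_combination s2 + (1 / 2) * b2 + t1 + R.k3)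
  have e4 := lo (t := (-6 / 1000)) (x := h0 + s - 1 - t - b / 2 - k) (by norm_num)
    (by linear_combination s1 + (1 / 2) * b2 + t2 + R.k4 + R.h1) (by linear_combination s2 + (1 / 2) * b1 + t1 + R.k3 + R.h2)
  have e5 := up (t1 := (219 / 1000)) (t2 := (248 / 1000)) (x := s - t) (by norm_num)
    (by linear_combination (1047961 / 1000000) * s1 + (1047961 / 1000000) * t2) (by linear_combination (16586 / 15625) * s2 + (16586 / 15625) * t1)
  have e6 := lo (t := (171 / 1000)) (x := h0 - 1 + t + b / 2 + k) (by norm_num)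
    (by linear_combination (1 / 2) * b1 + t1 + R.k3 + R.h1) (by linear_combination (1 / 2) * b2 + t2 + R.k4 + R.h2)
  have e7 := lo (t := (325 / 1000)) (x := s) (by norm_num)
    (by linear_combination s1) (by linear_combination s2)
  have e8 := up (t1 := (230 / 1000)) (t2 := (249 / 1000)) (x := b) (by norm_num)
    (by linear_combination (10529 / 10000) * b1) (by linear_combination (1062001 / 1000000) * b2)
  have c1 := R.ph1
  have c2 := R.qh1
  have c3 := R.rh1
  unfold dl
  linear_combination (146225335843239488750 / 61290877706854966023) * e8 + (3200 / 1431) * e7 +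
    (500000 / 970759) * e6 + (500000 / 118211) * e5 + (250000 / 249991) * e4 + (31250 / 18753) * e3 +
    (125000 / 235573) * e2 + (250000 / 248861) * e1 + (562382027196250 / 650142434279751) * R.k2 +
    (3860785226092566256579 / 6843141464885416001430) * s1 + (128005038717675323945 / 245163510827419864092) * b2 +
    (85328516587425949750 / 76853987298643645461) * t1 + (48743916791877103625 / 1094396767722317473589) * R.h1 +
    (1 / 2) * c1 + (1 / 2) * c2 + (1 / 2) * c3 + (1 / 2) * R.n4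

theorem ia28 {s b t k G1 G2 G3 G4 : ℝ} (R : RegA s b t k G1 G2 G3 G4) (hT : t ≤ 284 / 1000 * s) (hy : 0 ≤ 1 / 2 - s + t) (hb : 0 ≤ s - t - b)
    (s1 : 57 / 100 ≤ s) (s2 : s ≤ 1177 / 2000)
    (b1 : 4688 / 10000 ≤ b) (b2 : b ≤ 1 / 2) (t1 : 1294 / 10000 ≤ t) (t2 : t ≤ 1509 / 10000) :
    4 * ph (s - t) - 2 * ph s + dl s ≤ (G1 + G2 + G3 + G4) / 2 := by
  exfalso
  exact absurd b1 (not_le.mpr (by linear_combination s2 + t1 + hb))

theorem ia31 {s b t k G1 G2 G3 G4 : ℝ} (R : RegA s b t k G1 G2 G3 G4) (hT : t ≤ 284 / 1000 * s) (hy : 0 ≤ 1 / 2 - s + t) (hb : 0 ≤ s - t - b)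
    (s1 : 1177 / 2000 ≤ s) (s2 : s ≤ 5978 / 10000)
    (b1 : 4688 / 10000 ≤ b) (b2 : b ≤ 4844 / 10000) (t1 : 1294 / 10000 ≤ t) (t2 : t ≤ 1509 / 10000) :
    4 * ph (s - t) - 2 * ph s + dl s ≤ (G1 + G2 + G3 + G4) / 2 := by
  exfalso
  exact absurd b1 (not_le.mpr (by linear_combination s2 + t1 + hb))

theorem ia35 {s b t k G1 G2 G3 G4 : ℝ} (R : RegA s b t k G1 G2 G3 G4) (hT : t ≤ 284 / 1000 * s) (hy : 0 ≤ 1 / 2 - s + t) (hb : 0 ≤ s - t - b)
    (s1 : 5978 / 10000 ≤ s) (s2 : s ≤ 607 / 1000)
    (b1 : 4688 / 10000 ≤ b) (b2 : b ≤ 4844 / 10000) (t1 : 1294 / 10000 ≤ t) (t2 : t ≤ 1321 / 10000) :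
    4 * ph (s - t) - 2 * ph s + dl s ≤ (G1 + G2 + G3 + G4) / 2 := by
  have e1 := up (t1 := (67 / 1000)) (t2 := (68 / 1000)) (x := 1 - h0) (by norm_num)
    (by linear_combination (1004489 / 1000000) * R.h2) (by linear_combination (62789 / 62500) * R.h1)
  have e2 := up (t1 := (245 / 1000)) (t2 := (252 / 1000)) (x := h0 + s - 1) (by norm_num)
    (by linear_combination (42401 / 40000) * s1 + (42401 / 40000) * R.h1) (by linear_combination (66469 / 62500) * s2 + (66469 / 62500) * R.h2)
  have e3 := lo (t := (337 / 1000)) (x := s - t + b / 2 - k) (by norm_num)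
    (by linear_combination s1 + (1 / 2) * b1 + t2 + R.k4) (by linear_combination s2 + (1 / 2) * b2 + t1 + R.k3)
  have e4 := lo (t := (-3 / 1000)) (x := h0 + s - 1 - t - b / 2 - k) (by norm_num)
    (by linear_combination s1 + (1 / 2) * b2 + t2 + R.k4 + R.h1) (by linear_combination s2 + (1 / 2) * b1 + t1 + R.k3 + R.h2)
  have e5 := up (t1 := (247 / 1000)) (t2 := (255 / 1000)) (x := s - t) (by norm_num)
    (by linear_combination (1061009 / 1000000) * s1 + (1061009 / 1000000) * t2) (by linear_combination (42601 / 40000) * s2 + (42601 / 40000) * t1)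
  have e6 := lo (t := (175 / 1000)) (x := h0 - 1 + t + b / 2 + k) (by norm_num)
    (by linear_combination (1 / 2) * b1 + t1 + R.k3 + R.h1) (by linear_combination (1 / 2) * b2 + t2 + R.k4 + R.h2)
  have e7 := lo (t := (252 / 1000)) (x := t + b / 2 + k) (by norm_num)
    (by linear_combination (1 / 2) * b1 + t1 + R.k3) (by linear_combination (1 / 2) * b2 + t2 + R.k4)
  have e8 := up (t1 := (908 / 1000)) (t2 := (941 / 1000)) (x := h0 + t) (by norm_num)
    (by linear_combination (114029 / 62500) * t1 + (114029 / 62500) * R.h1) (by linear_combination (1885481 / 1000000) * t2 + (1885481 / 1000000) * R.h2)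
  have e9 := lo (t := (335 / 1000)) (x := s) (by norm_num)
    (by linear_combination s1) (by linear_combination s2)
  have e10 := up (t1 := (248 / 1000)) (t2 := (259 / 1000)) (x := b) (by norm_num)
    (by linear_combination (16586 / 15625) * b1) (by linear_combination (1067081 / 1000000) * b2)
  have c1 := R.ph1
  have c2 := R.qh1
  have c3 := R.rh1
  have c4 := R.syv (by linear_combination (433015 / 467884) * e10 + R.k2 + (2880679 / 93576800) * b1 + t2) (by linear_combination (433015 / 233942) * e10 + 2 * R.k2 + (90696121 / 46788400) * b2 + t2 + R.h1)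
  unfold dl
  linear_combination (449340092943598039075 / 179449602032012163306) * e10 + (80000 / 35511) * e9 +
    (125000 / 36393) * e8 + (31250 / 58531) * e7 + (800 / 1551) * e6 + (800000 / 187403) * e5 +
    (1000000 / 999991) * e4 + (500000 / 295477) * e3 + (25000 / 46913) * e2 + (250000 / 248861) * e1 +
    (525374439068210 / 767068769318943) * R.k2 + (244453663258910872946633 / 455991279231715057349610) * s1 +
    (344905317101491244394697 / 8972480101600608165300000) * b2 + (406294358880144067843505 / 83040154401127585808419) * t2 +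
    (461693569411827902134320 / 73220600319168816476501) * R.h2 + (1 / 2) * R.h3 + (1 / 2) * c1 +
    (1 / 2) * c2 + (1 / 2) * c3 + (1 / 2) * c4

theorem ia36 {s b t k G1 G2 G3 G4 : ℝ} (R : RegA s b t k G1 G2 G3 G4) (hT : t ≤ 284 / 1000 * s) (hy : 0 ≤ 1 / 2 - s + t) (hb : 0 ≤ s - t - b)
    (s1 : 5978 / 10000 ≤ s) (s2 : s ≤ 607 / 1000)
    (b1 : 4688 / 10000 ≤ b) (b2 : b ≤ 4844 / 10000) (t1 : 1321 / 10000 ≤ t) (t2 : t ≤ 1348 / 10000) :
    4 * ph (s - t) - 2 * ph s + dl s ≤ (G1 + G2 + G3 + G4) / 2 := by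
  have e1 := up (t1 := (67 / 1000)) (t2 := (68 / 1000)) (x := 1 - h0) (by norm_num)
    (by linear_combination (1004489 / 1000000) * R.h2) (by linear_combination (62789 / 62500) * R.h1)
  have e2 := up (t1 := (245 / 1000)) (t2 := (252 / 1000)) (x := h0 + s - 1) (by norm_num)
    (by linear_combination (42401 / 40000) * s1 + (42401 / 40000) * R.h1) (by linear_combination (66469 / 62500) * s2 + (66469 / 62500) * R.h2)
  have e3 := lo (t := (335 / 1000)) (x := s - t + b / 2 - k) (by norm_num)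
    (by linear_combination s1 + (1 / 2) * b1 + t2 + R.k4) (by linear_combination s2 + (1 / 2) * b2 + t1 + R.k3)
  have e4 := lo (t := (-4 / 1000)) (x := h0 + s - 1 - t - b / 2 - k) (by norm_num)
    (by linear_combination s1 + (1 / 2) * b2 + t2 + R.k4 + R.h1) (by linear_combination s2 + (1 / 2) * b1 + t1 + R.k3 + R.h2)
  have e5 := up (t1 := (245 / 1000)) (t2 := (253 / 1000)) (x := s - t) (by norm_num)
    (by linear_combination (42401 / 40000) * s1 + (42401 / 40000) * t2) (by linear_combination (1064009 / 1000000) * s2 + (1064009 / 1000000) * t1)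
  have e6 := lo (t := (177 / 1000)) (x := h0 - 1 + t + b / 2 + k) (by norm_num)
    (by linear_combination (1 / 2) * b1 + t1 + R.k3 + R.h1) (by linear_combination (1 / 2) * b2 + t2 + R.k4 + R.h2)
  have e7 := lo (t := (335 / 1000)) (x := s) (by norm_num)
    (by linear_combination s1) (by linear_combination s2)
  have e8 := up (t1 := (248 / 1000)) (t2 := (259 / 1000)) (x := b) (by norm_num)
    (by linear_combination (16586 / 15625) * b1) (by linear_combination (1067081 / 1000000) * b2)
  have c1 := R.ph1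
  have c2 := R.qh1
  have c3 := R.rh1
  unfold dl
  linear_combination (18853796090303061625 / 7620378303580482153) * e8 + (80000 / 35511) * e7 +
    (500000 / 968671) * e6 + (800000 / 187603) * e5 + (62500 / 62499) * e4 + (20000 / 11837) * e3 +
    (25000 / 46913) * e2 + (250000 / 248861) * e1 + (674571185644100 / 716623448028873) * R.k2 +
    (5068809318456946403 / 9301428700040220510) * s1 + (397661193311911477061 / 670593290715082429464) * b2 +
    (158951203554312910900 / 134440708720560661419) * t1 + (32152802988189356425 / 706804677170620565097) * R.h1 +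
    (1 / 2) * c1 + (1 / 2) * c2 + (1 / 2) * c3 + (1 / 2) * R.n4

theorem ia37 {s b t k G1 G2 G3 G4 : ℝ} (R : RegA s b t k G1 G2 G3 G4) (hT : t ≤ 284 / 1000 * s) (hy : 0 ≤ 1 / 2 - s + t) (hb : 0 ≤ s - t - b)
    (s1 : 5978 / 10000 ≤ s) (s2 : s ≤ 607 / 1000)
    (b1 : 4688 / 10000 ≤ b) (b2 : b ≤ 4844 / 10000) (t1 : 1348 / 10000 ≤ t) (t2 : t ≤ 1402 / 10000) :
    4 * ph (s - t) - 2 * ph s + dl s ≤ (G1 + G2 + G3 + G4) / 2 := by
  have e1 := up (t1 := (67 / 1000)) (t2 := (68 / 1000)) (x := 1 - h0) (by norm_num)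
    (by linear_combination (1004489 / 1000000) * R.h2) (by linear_combination (62789 / 62500) * R.h1)
  have e2 := up (t1 := (245 / 1000)) (t2 := (252 / 1000)) (x := h0 + s - 1) (by norm_num)
    (by linear_combination (42401 / 40000) * s1 + (42401 / 40000) * R.h1) (by linear_combination (66469 / 62500) * s2 + (66469 / 62500) * R.h2)
  have e3 := lo (t := (332 / 1000)) (x := s - t + b / 2 - k) (by norm_num)
    (by linear_combination s1 + (1 / 2) * b1 + t2 + R.k4) (by linear_combination s2 + (1 / 2) * b2 + t1 + R.k3)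
  have e4 := lo (t := (-6 / 1000)) (x := h0 + s - 1 - t - b / 2 - k) (by norm_num)
    (by linear_combination s1 + (1 / 2) * b2 + t2 + R.k4 + R.h1) (by linear_combination s2 + (1 / 2) * b1 + t1 + R.k3 + R.h2)
  have e5 := up (t1 := (242 / 1000)) (t2 := (251 / 1000)) (x := s - t) (by norm_num)
    (by linear_combination (264641 / 250000) * s1 + (264641 / 250000) * t2) (by linear_combination (1063001 / 1000000) * s2 + (1063001 / 1000000) * t1)
  have e6 := lo (t := (179 / 1000)) (x := h0 - 1 + t + b / 2 + k) (by norm_num)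
    (by linear_combination (1 / 2) * b1 + t1 + R.k3 + R.h1) (by linear_combination (1 / 2) * b2 + t2 + R.k4 + R.h2)
  have e7 := lo (t := (335 / 1000)) (x := s) (by norm_num)
    (by linear_combination s1) (by linear_combination s2)
  have e8 := up (t1 := (248 / 1000)) (t2 := (259 / 1000)) (x := b) (by norm_num)
    (by linear_combination (16586 / 15625) * b1) (by linear_combination (1067081 / 1000000) * b2)
  have c1 := R.ph1
  have c2 := R.qh1
  have c3 := R.rh1
  unfold dl
  linear_combination (859320194761878536875 / 349790273994707175042) * e8 + (80000 / 35511) * e7 +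
    (500000 / 967959) * e6 + (2000000 / 469629) * e5 + (250000 / 249991) * e4 + (31250 / 18537) * e3 +
    (25000 / 46913) * e2 + (250000 / 248861) * e1 + (1379258830438250 / 1495200836082051) * R.k2 +
    (45413383421852659474817 / 82212196175469645661890) * s1 + (1643675100206379915565 / 2798322191957657400336) * b2 +
    (10204050359222436750 / 8669008314177500359) * t1 + (123429820760116605425 / 2825084120951251672317) * R.h1 +
    (1 / 2) * c1 + (1 / 2) * c2 + (1 / 2) * c3 + (1 / 2) * R.n4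

theorem ia38 {s b t k G1 G2 G3 G4 : ℝ} (R : RegA s b t k G1 G2 G3 G4) (hT : t ≤ 284 / 1000 * s) (hy : 0 ≤ 1 / 2 - s + t) (hb : 0 ≤ s - t - b)
    (s1 : 5978 / 10000 ≤ s) (s2 : s ≤ 607 / 1000)
    (b1 : 4688 / 10000 ≤ b) (b2 : b ≤ 4844 / 10000) (t1 : 1402 / 10000 ≤ t) (t2 : t ≤ 1509 / 10000) :
    4 * ph (s - t) - 2 * ph s + dl s ≤ (G1 + G2 + G3 + G4) / 2 := by
  exfalso
  exact absurd b1 (not_le.mpr (by linear_combination s2 + t1 + hb))

theorem ia39 {s b t k G1 G2 G3 G4 : ℝ} (R : RegA s b t k G1 G2 G3 G4) (hT : t ≤ 284 / 1000 * s) (hy : 0 ≤ 1 / 2 - s + t) (hb : 0 ≤ s - t - b)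
    (s1 : 1177 / 2000 ≤ s) (s2 : s ≤ 607 / 1000)
    (b1 : 4844 / 10000 ≤ b) (b2 : b ≤ 1 / 2) (t1 : 1294 / 10000 ≤ t) (t2 : t ≤ 1509 / 10000) :
    4 * ph (s - t) - 2 * ph s + dl s ≤ (G1 + G2 + G3 + G4) / 2 := by
  exfalso
  exact absurd b1 (not_le.mpr (by linear_combination s2 + t1 + hb))

theorem ia41 {s b t k G1 G2 G3 G4 : ℝ} (R : RegA s b t k G1 G2 G3 G4) (hT : t ≤ 284 / 1000 * s) (hy : 0 ≤ 1 / 2 - s + t) (hb : 0 ≤ s - t - b)
    (s1 : 57 / 100 ≤ s) (s2 : s ≤ 607 / 1000)
    (b1 : 875 / 2000 ≤ b) (b2 : b ≤ 4688 / 10000) (t1 : 1509 / 10000 ≤ t) (t2 : t ≤ 345 / 2000) :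
    4 * ph (s - t) - 2 * ph s + dl s ≤ (G1 + G2 + G3 + G4) / 2 := by
  have e1 := up (t1 := (67 / 1000)) (t2 := (68 / 1000)) (x := 1 - h0) (by norm_num)
    (by linear_combination (1004489 / 1000000) * R.h2) (by linear_combination (62789 / 62500) * R.h1)
  have e2 := up (t1 := (229 / 1000)) (t2 := (252 / 1000)) (x := h0 + s - 1) (by norm_num)
    (by linear_combination (1052441 / 1000000) * s1 + (1052441 / 1000000) * R.h1) (by linear_combination (66469 / 62500) * s2 + (66469 / 62500) * R.h2)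
  have e3 := lo (t := (306 / 1000)) (x := s - t + b / 2 - k) (by norm_num)
    (by linear_combination s1 + (1 / 2) * b1 + t2 + R.k4) (by linear_combination s2 + (1 / 2) * b2 + t1 + R.k3)
  have e4 := lo (t := (-14 / 1000)) (x := h0 + s - 1 - t - b / 2 - k) (by norm_num)
    (by linear_combination s1 + (1 / 2) * b2 + t2 + R.k4 + R.h1) (by linear_combination s2 + (1 / 2) * b1 + t1 + R.k3 + R.h2)
  have e5 := up (t1 := (207 / 1000)) (t2 := (242 / 1000)) (x := s - t) (by norm_num)
    (by linear_combination (1042849 / 1000000) * s1 + (1042849 / 1000000) * t2) (by linear_combination (264641 / 250000) * s2 + (264641 / 250000) * t1)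
  have e6 := lo (t := (180 / 1000)) (x := h0 - 1 + t + b / 2 + k) (by norm_num)
    (by linear_combination (1 / 2) * b1 + t1 + R.k3 + R.h1) (by linear_combination (1 / 2) * b2 + t2 + R.k4 + R.h2)
  have e7 := lo (t := (325 / 1000)) (x := s) (by norm_num)
    (by linear_combination s1) (by linear_combination s2)
  have e8 := up (t1 := (230 / 1000)) (t2 := (249 / 1000)) (x := b) (by norm_num)
    (by linear_combination (10529 / 10000) * b1) (by linear_combination (1062001 / 1000000) * b2)
  have c1 := R.ph1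
  have c2 := R.qh1
  have c3 := R.rh1
  unfold dl
  linear_combination (30028402075370272150 / 12915782729494290867) * e8 + (3200 / 1431) * e7 +
    (1250 / 2419) * e6 + (2000000 / 474953) * e5 + (250000 / 249951) * e4 + (375000 / 226591) * e3 +
    (125000 / 235573) * e2 + (250000 / 248861) * e1 + (109439565564050 / 137004049192179) * R.k2 +
    (1377456975468432658490573 / 2325137868003674028793410) * s1 + (43070704785548077899 / 86105218196628605780) * b2 +
    (71050986191234502350 / 65070484175972992587) * t1 + (104733247410673075 / 2726652228355385889) * R.h1 +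
    (1 / 2) * c1 + (1 / 2) * c2 + (1 / 2) * c3 + (1 / 2) * R.n4

theorem ia42 {s b t k G1 G2 G3 G4 : ℝ} (R : RegA s b t k G1 G2 G3 G4) (hT : t ≤ 284 / 1000 * s) (hy : 0 ≤ 1 / 2 - s + t) (hb : 0 ≤ s - t - b)
    (s1 : 57 / 100 ≤ s) (s2 : s ≤ 607 / 1000)
    (b1 : 4688 / 10000 ≤ b) (b2 : b ≤ 1 / 2) (t1 : 1509 / 10000 ≤ t) (t2 : t ≤ 345 / 2000) :
    4 * ph (s - t) - 2 * ph s + dl s ≤ (G1 + G2 + G3 + G4) / 2 := by
  exfalso
  exact absurd b1 (not_le.mpr (by linear_combination s2 + t1 + hb))

theorem ia40 {s b t k G1 G2 G3 G4 : ℝ} (R : RegA s b t k G1 G2 G3 G4) (hT : t ≤ 284 / 1000 * s) (hy : 0 ≤ 1 / 2 - s + t) (hb : 0 ≤ s - t - b)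
    (s1 : 57 / 100 ≤ s) (s2 : s ≤ 607 / 1000)
    (b1 : 875 / 2000 ≤ b) (b2 : b ≤ 1 / 2) (t1 : 1509 / 10000 ≤ t) (t2 : t ≤ 345 / 2000) :
    4 * ph (s - t) - 2 * ph s + dl s ≤ (G1 + G2 + G3 + G4) / 2 := by
  rcases le_total b (4688 / 10000) with h | h
  · exact ia41 R hT hy hb s1 s2 b1 h t1 t2
  · exact ia42 R hT hy hb s1 s2 h b2 t1 t2

theorem ia34 {s b t k G1 G2 G3 G4 : ℝ} (R : RegA s b t k G1 G2 G3 G4) (hT : t ≤ 284 / 1000 * s) (hy : 0 ≤ 1 / 2 - s + t) (hb : 0 ≤ s - t - b)
    (s1 : 5978 / 10000 ≤ s) (s2 : s ≤ 607 / 1000)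
    (b1 : 4688 / 10000 ≤ b) (b2 : b ≤ 4844 / 10000) (t1 : 1294 / 10000 ≤ t) (t2 : t ≤ 1348 / 10000) :
    4 * ph (s - t) - 2 * ph s + dl s ≤ (G1 + G2 + G3 + G4) / 2 := by
  rcases le_total t (1321 / 10000) with h | h
  · exact ia35 R hT hy hb s1 s2 b1 b2 t1 h
  · exact ia36 R hT hy hb s1 s2 b1 b2 h t2

theorem ia33 {s b t k G1 G2 G3 G4 : ℝ} (R : RegA s b t k G1 G2 G3 G4) (hT : t ≤ 284 / 1000 * s) (hy : 0 ≤ 1 / 2 - s + t) (hb : 0 ≤ s - t - b)
    (s1 : 5978 / 10000 ≤ s) (s2 : s ≤ 607 / 1000)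
    (b1 : 4688 / 10000 ≤ b) (b2 : b ≤ 4844 / 10000) (t1 : 1294 / 10000 ≤ t) (t2 : t ≤ 1402 / 10000) :
    4 * ph (s - t) - 2 * ph s + dl s ≤ (G1 + G2 + G3 + G4) / 2 := by
  rcases le_total t (1348 / 10000) with h | h
  · exact ia34 R hT hy hb s1 s2 b1 b2 t1 h
  · exact ia37 R hT hy hb s1 s2 b1 b2 h t2

theorem ia32 {s b t k G1 G2 G3 G4 : ℝ} (R : RegA s b t k G1 G2 G3 G4) (hT : t ≤ 284 / 1000 * s) (hy : 0 ≤ 1 / 2 - s + t) (hb : 0 ≤ s - t - b)
    (s1 : 5978 / 10000 ≤ s) (s2 : s ≤ 607 / 1000)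
    (b1 : 4688 / 10000 ≤ b) (b2 : b ≤ 4844 / 10000) (t1 : 1294 / 10000 ≤ t) (t2 : t ≤ 1509 / 10000) :
    4 * ph (s - t) - 2 * ph s + dl s ≤ (G1 + G2 + G3 + G4) / 2 := by
  rcases le_total t (1402 / 10000) with h | h
  · exact ia33 R hT hy hb s1 s2 b1 b2 t1 h
  · exact ia38 R hT hy hb s1 s2 b1 b2 h t2

theorem ia30 {s b t k G1 G2 G3 G4 : ℝ} (R : RegA s b t k G1 G2 G3 G4) (hT : t ≤ 284 / 1000 * s) (hy : 0 ≤ 1 / 2 - s + t) (hb : 0 ≤ s - t - b)
    (s1 : 1177 / 2000 ≤ s) (s2 : s ≤ 607 / 1000)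
    (b1 : 4688 / 10000 ≤ b) (b2 : b ≤ 4844 / 10000) (t1 : 1294 / 10000 ≤ t) (t2 : t ≤ 1509 / 10000) :
    4 * ph (s - t) - 2 * ph s + dl s ≤ (G1 + G2 + G3 + G4) / 2 := by
  rcases le_total s (5978 / 10000) with h | h
  · exact ia31 R hT hy hb s1 h b1 b2 t1 t2
  · exact ia32 R hT hy hb h s2 b1 b2 t1 t2

theorem ia29 {s b t k G1 G2 G3 G4 : ℝ} (R : RegA s b t k G1 G2 G3 G4) (hT : t ≤ 284 / 1000 * s) (hy : 0 ≤ 1 / 2 - s + t) (hb : 0 ≤ s - t - b)
    (s1 : 1177 / 2000 ≤ s) (s2 : s ≤ 607 / 1000)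
    (b1 : 4688 / 10000 ≤ b) (b2 : b ≤ 1 / 2) (t1 : 1294 / 10000 ≤ t) (t2 : t ≤ 1509 / 10000) :
    4 * ph (s - t) - 2 * ph s + dl s ≤ (G1 + G2 + G3 + G4) / 2 := by
  rcases le_total b (4844 / 10000) with h | h
  · exact ia30 R hT hy hb s1 s2 b1 h t1 t2
  · exact ia39 R hT hy hb s1 s2 h b2 t1 t2

theorem ia27 {s b t k G1 G2 G3 G4 : ℝ} (R : RegA s b t k G1 G2 G3 G4) (hT : t ≤ 284 / 1000 * s) (hy : 0 ≤ 1 / 2 - s + t) (hb : 0 ≤ s - t - b)
    (s1 : 57 / 100 ≤ s) (s2 : s ≤ 607 / 1000)
    (b1 : 4688 / 10000 ≤ b) (b2 : b ≤ 1 / 2) (t1 : 1294 / 10000 ≤ t) (t2 : t ≤ 1509 / 10000) :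
    4 * ph (s - t) - 2 * ph s + dl s ≤ (G1 + G2 + G3 + G4) / 2 := by
  rcases le_total s (1177 / 2000) with h | h
  · exact ia28 R hT hy hb s1 h b1 b2 t1 t2
  · exact ia29 R hT hy hb h s2 b1 b2 t1 t2

theorem ia22 {s b t k G1 G2 G3 G4 : ℝ} (R : RegA s b t k G1 G2 G3 G4) (hT : t ≤ 284 / 1000 * s) (hy : 0 ≤ 1 / 2 - s + t) (hb : 0 ≤ s - t - b)
    (s1 : 5793 / 10000 ≤ s) (s2 : s ≤ 1177 / 2000)
    (b1 : 4532 / 10000 ≤ b) (b2 : b ≤ 4688 / 10000) (t1 : 1294 / 10000 ≤ t) (t2 : t ≤ 1402 / 10000) :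
    4 * ph (s - t) - 2 * ph s + dl s ≤ (G1 + G2 + G3 + G4) / 2 := by
  rcases le_total b (461 / 1000) with h | h
  · exact ia23 R hT hy hb s1 s2 b1 h t1 t2
  · exact ia24 R hT hy hb s1 s2 h b2 t1 t2

theorem ia20 {s b t k G1 G2 G3 G4 : ℝ} (R : RegA s b t k G1 G2 G3 G4) (hT : t ≤ 284 / 1000 * s) (hy : 0 ≤ 1 / 2 - s + t) (hb : 0 ≤ s - t - b)
    (s1 : 57 / 100 ≤ s) (s2 : s ≤ 1177 / 2000)
    (b1 : 4532 / 10000 ≤ b) (b2 : b ≤ 4688 / 10000) (t1 : 1294 / 10000 ≤ t) (t2 : t ≤ 1402 / 10000) :
    4 * ph (s - t) - 2 * ph s + dl s ≤ (G1 + G2 + G3 + G4) / 2 := by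
  rcases le_total s (5793 / 10000) with h | h
  · exact ia21 R hT hy hb s1 h b1 b2 t1 t2
  · exact ia22 R hT hy hb h s2 b1 b2 t1 t2

theorem ia18 {s b t k G1 G2 G3 G4 : ℝ} (R : RegA s b t k G1 G2 G3 G4) (hT : t ≤ 284 / 1000 * s) (hy : 0 ≤ 1 / 2 - s + t) (hb : 0 ≤ s - t - b)
    (s1 : 57 / 100 ≤ s) (s2 : s ≤ 1177 / 2000)
    (b1 : 875 / 2000 ≤ b) (b2 : b ≤ 4688 / 10000) (t1 : 1294 / 10000 ≤ t) (t2 : t ≤ 1402 / 10000) :
    4 * ph (s - t) - 2 * ph s + dl s ≤ (G1 + G2 + G3 + G4) / 2 := by
  rcases le_total b (4532 / 10000) with h | h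
  · exact ia19 R hT hy hb s1 s2 b1 h t1 t2
  · exact ia20 R hT hy hb s1 s2 h b2 t1 t2

theorem ia17 {s b t k G1 G2 G3 G4 : ℝ} (R : RegA s b t k G1 G2 G3 G4) (hT : t ≤ 284 / 1000 * s) (hy : 0 ≤ 1 / 2 - s + t) (hb : 0 ≤ s - t - b)
    (s1 : 57 / 100 ≤ s) (s2 : s ≤ 607 / 1000)
    (b1 : 875 / 2000 ≤ b) (b2 : b ≤ 4688 / 10000) (t1 : 1294 / 10000 ≤ t) (t2 : t ≤ 1402 / 10000) :
    4 * ph (s - t) - 2 * ph s + dl s ≤ (G1 + G2 + G3 + G4) / 2 := by
  rcases le_total s (1177 / 2000) with h | h
  · exact ia18 R hT hy hb s1 h b1 b2 t1 t2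
  · exact ia25 R hT hy hb h s2 b1 b2 t1 t2

theorem ia16 {s b t k G1 G2 G3 G4 : ℝ} (R : RegA s b t k G1 G2 G3 G4) (hT : t ≤ 284 / 1000 * s) (hy : 0 ≤ 1 / 2 - s + t) (hb : 0 ≤ s - t - b)
    (s1 : 57 / 100 ≤ s) (s2 : s ≤ 607 / 1000)
    (b1 : 875 / 2000 ≤ b) (b2 : b ≤ 4688 / 10000) (t1 : 1294 / 10000 ≤ t) (t2 : t ≤ 1509 / 10000) :
    4 * ph (s - t) - 2 * ph s + dl s ≤ (G1 + G2 + G3 + G4) / 2 := by
  rcases le_total t (1402 / 10000) with h | h
  · exact ia17 R hT hy hb s1 s2 b1 b2 t1 h
  · exact ia26 R hT hy hb s1 s2 b1 b2 h t2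

theorem ia15 {s b t k G1 G2 G3 G4 : ℝ} (R : RegA s b t k G1 G2 G3 G4) (hT : t ≤ 284 / 1000 * s) (hy : 0 ≤ 1 / 2 - s + t) (hb : 0 ≤ s - t - b)
    (s1 : 57 / 100 ≤ s) (s2 : s ≤ 607 / 1000)
    (b1 : 875 / 2000 ≤ b) (b2 : b ≤ 1 / 2) (t1 : 1294 / 10000 ≤ t) (t2 : t ≤ 1509 / 10000) :
    4 * ph (s - t) - 2 * ph s + dl s ≤ (G1 + G2 + G3 + G4) / 2 := by
  rcases le_total b (4688 / 10000) with h | h
  · exact ia16 R hT hy hb s1 s2 b1 h t1 t2
  · exact ia27 R hT hy hb s1 s2 h b2 t1 t2

theorem ia14 {s b t k G1 G2 G3 G4 : ℝ} (R : RegA s b t k G1 G2 G3 G4) (hT : t ≤ 284 / 1000 * s) (hy : 0 ≤ 1 / 2 - s + t) (hb : 0 ≤ s - t - b)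
    (s1 : 57 / 100 ≤ s) (s2 : s ≤ 607 / 1000)
    (b1 : 875 / 2000 ≤ b) (b2 : b ≤ 1 / 2) (t1 : 1294 / 10000 ≤ t) (t2 : t ≤ 345 / 2000) :
    4 * ph (s - t) - 2 * ph s + dl s ≤ (G1 + G2 + G3 + G4) / 2 := by
  rcases le_total t (1509 / 10000) with h | h
  · exact ia15 R hT hy hb s1 s2 b1 b2 t1 h
  · exact ia40 R hT hy hb s1 s2 b1 b2 h t2

theorem ia12 {s b t k G1 G2 G3 G4 : ℝ} (R : RegA s b t k G1 G2 G3 G4) (hT : t ≤ 284 / 1000 * s) (hy : 0 ≤ 1 / 2 - s + t) (hb : 0 ≤ s - t - b)
    (s1 : 57 / 100 ≤ s) (s2 : s ≤ 607 / 1000)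
    (b1 : 15 / 40 ≤ b) (b2 : b ≤ 1 / 2) (t1 : 1294 / 10000 ≤ t) (t2 : t ≤ 345 / 2000) :
    4 * ph (s - t) - 2 * ph s + dl s ≤ (G1 + G2 + G3 + G4) / 2 := by
  rcases le_total b (875 / 2000) with h | h
  · exact ia13 R hT hy hb s1 s2 b1 h t1 t2
  · exact ia14 R hT hy hb s1 s2 h b2 t1 t2

theorem ia8 {s b t k G1 G2 G3 G4 : ℝ} (R : RegA s b t k G1 G2 G3 G4) (hT : t ≤ 284 / 1000 * s) (hy : 0 ≤ 1 / 2 - s + t) (hb : 0 ≤ s - t - b)
    (s1 : 57 / 100 ≤ s) (s2 : s ≤ 607 / 1000)
    (b1 : 15 / 40 ≤ b) (b2 : b ≤ 875 / 2000) (t1 : 1186 / 10000 ≤ t) (t2 : t ≤ 1294 / 10000) :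
    4 * ph (s - t) - 2 * ph s + dl s ≤ (G1 + G2 + G3 + G4) / 2 := by
  rcases le_total t (124 / 1000) with h | h
  · exact ia9 R hT hy hb s1 s2 b1 b2 t1 h
  · exact ia10 R hT hy hb s1 s2 b1 b2 h t2

theorem ia6 {s b t k G1 G2 G3 G4 : ℝ} (R : RegA s b t k G1 G2 G3 G4) (hT : t ≤ 284 / 1000 * s) (hy : 0 ≤ 1 / 2 - s + t) (hb : 0 ≤ s - t - b)
    (s1 : 57 / 100 ≤ s) (s2 : s ≤ 607 / 1000)
    (b1 : 15 / 40 ≤ b) (b2 : b ≤ 875 / 2000) (t1 : 1078 / 10000 ≤ t) (t2 : t ≤ 1294 / 10000) :
    4 * ph (s - t) - 2 * ph s + dl s ≤ (G1 + G2 + G3 + G4) / 2 := by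
  rcases le_total t (1186 / 10000) with h | h
  · exact ia7 R hT hy hb s1 s2 b1 b2 t1 h
  · exact ia8 R hT hy hb s1 s2 b1 b2 h t2

theorem ia5 {s b t k G1 G2 G3 G4 : ℝ} (R : RegA s b t k G1 G2 G3 G4) (hT : t ≤ 284 / 1000 * s) (hy : 0 ≤ 1 / 2 - s + t) (hb : 0 ≤ s - t - b)
    (s1 : 57 / 100 ≤ s) (s2 : s ≤ 607 / 1000)
    (b1 : 15 / 40 ≤ b) (b2 : b ≤ 1 / 2) (t1 : 1078 / 10000 ≤ t) (t2 : t ≤ 1294 / 10000) :
    4 * ph (s - t) - 2 * ph s + dl s ≤ (G1 + G2 + G3 + G4) / 2 := by
  rcases le_total b (875 / 2000) with h | h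
  · exact ia6 R hT hy hb s1 s2 b1 h t1 t2
  · exact ia11 R hT hy hb s1 s2 h b2 t1 t2

theorem ia3 {s b t k G1 G2 G3 G4 : ℝ} (R : RegA s b t k G1 G2 G3 G4) (hT : t ≤ 284 / 1000 * s) (hy : 0 ≤ 1 / 2 - s + t) (hb : 0 ≤ s - t - b)
    (s1 : 57 / 100 ≤ s) (s2 : s ≤ 607 / 1000)
    (b1 : 15 / 40 ≤ b) (b2 : b ≤ 1 / 2) (t1 : 862 / 10000 ≤ t) (t2 : t ≤ 1294 / 10000) :
    4 * ph (s - t) - 2 * ph s + dl s ≤ (G1 + G2 + G3 + G4) / 2 := by
  rcases le_total t (1078 / 10000) with h | h
  · exact ia4 R hT hy hb s1 s2 b1 b2 t1 h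
  · exact ia5 R hT hy hb s1 s2 b1 b2 h t2

theorem ia2 {s b t k G1 G2 G3 G4 : ℝ} (R : RegA s b t k G1 G2 G3 G4) (hT : t ≤ 284 / 1000 * s) (hy : 0 ≤ 1 / 2 - s + t) (hb : 0 ≤ s - t - b)
    (s1 : 57 / 100 ≤ s) (s2 : s ≤ 607 / 1000)
    (b1 : 15 / 40 ≤ b) (b2 : b ≤ 1 / 2) (t1 : 862 / 10000 ≤ t) (t2 : t ≤ 345 / 2000) :
    4 * ph (s - t) - 2 * ph s + dl s ≤ (G1 + G2 + G3 + G4) / 2 := by
  rcases le_total t (1294 / 10000) with h | h
  · exact ia3 R hT hy hb s1 s2 b1 b2 t1 h
  · exact ia12 R hT hy hb s1 s2 b1 b2 h t2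

theorem ia0 {s b t k G1 G2 G3 G4 : ℝ} (R : RegA s b t k G1 G2 G3 G4) (hT : t ≤ 284 / 1000 * s) (hy : 0 ≤ 1 / 2 - s + t) (hb : 0 ≤ s - t - b)
    (s1 : 57 / 100 ≤ s) (s2 : s ≤ 607 / 1000)
    (b1 : 15 / 40 ≤ b) (b2 : b ≤ 1 / 2) (t1 : 0 ≤ t) (t2 : t ≤ 345 / 2000) :
    4 * ph (s - t) - 2 * ph s + dl s ≤ (G1 + G2 + G3 + G4) / 2 := by
  rcases le_total t (862 / 10000) with h | h
  · exact ia1 R hT hy hb s1 s2 b1 b2 t1 h
  · exact ia2 R hT hy hb s1 s2 b1 b2 h t2

end Pool.Agent.Strip051.FourG.LA
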