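import Pool.Agent.Strip051.FourG.Box

set_option linter.unusedVariables false

/-! # Boxes, `ext r ≤ r` -/

namespace Pool.Agent.Strip051.FourG.LA

open Pool.Agent.StripNear Pool.Agent.StripSquare Pool.Agent.Strip051
open Pool.Agent.Strip051.Four.Low (ph)
open Pool.Agent.Strip051.FourC.LA (lo up)

theorem wb1 {s b t k G1 G2 G3 G4 : ℝ} (R : RegB s b t k G1 G2 G3 G4) (hT : t ≤ 284 / 1000 * s) (ha : 0 ≤ h0 - 1 + t)
    (s1 : 57 / 100 ≤ s) (s2 : s ≤ 607 / 1000)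
    (b1 : 3 / 50 ≤ b) (b2 : b ≤ 15 / 40) (t1 : 0 ≤ t) (t2 : t ≤ 862 / 10000) :
    4 * ph (s - t) - 2 * ph s ≤ (G1 + G2 + G3 + G4) / 2 := by
  exfalso
  linarith only [R.k1, R.k2, s1, s2, b1, b2, t1, t2, R.k3, R.k4, R.h1, R.h2, R.hz, ha]

theorem wb3 {s b t k G1 G2 G3 G4 : ℝ} (R : RegB s b t k G1 G2 G3 G4) (hT : t ≤ 284 / 1000 * s) (ha : 0 ≤ h0 - 1 + t)
    (s1 : 57 / 100 ≤ s) (s2 : s ≤ 607 / 1000)
    (b1 : 3 / 50 ≤ b) (b2 : b ≤ 15 / 40) (t1 : 862 / 10000 ≤ t) (t2 : t ≤ 1294 / 10000) :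
    4 * ph (s - t) - 2 * ph s ≤ (G1 + G2 + G3 + G4) / 2 := by
  exfalso
  linarith only [R.k1, R.k2, s1, s2, b1, b2, t1, t2, R.k3, R.k4, R.h1, R.h2, R.hz, ha]

theorem wb4 {s b t k G1 G2 G3 G4 : ℝ} (R : RegB s b t k G1 G2 G3 G4) (hT : t ≤ 284 / 1000 * s) (ha : 0 ≤ h0 - 1 + t)
    (s1 : 57 / 100 ≤ s) (s2 : s ≤ 607 / 1000)
    (b1 : 3 / 50 ≤ b) (b2 : b ≤ 15 / 40) (t1 : 1294 / 10000 ≤ t) (t2 : t ≤ 345 / 2000) :
    4 * ph (s - t) - 2 * ph s ≤ (G1 + G2 + G3 + G4) / 2 := by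
  have e1 := up (t1 := (67 / 1000)) (t2 := (68 / 1000)) (x := 1 - h0) (by norm_num)
    (by linarith only [s1, s2, b1, b2, t1, t2, R.k3, R.k4, R.h1, R.h2, R.hz, hT, ha]) (by linarith only [s1, s2, b1, b2, t1, t2, R.k3, R.k4, R.h1, R.h2, R.hz, hT, ha])
  have e2 := lo (t := (152 / 1000)) (x := s - t - b / 2 - k) (by norm_num)
    (by linarith only [s1, s2, b1, b2, t1, t2, R.k3, R.k4, R.h1, R.h2, R.hz, hT, ha]) (by linarith only [s1, s2, b1, b2, t1, t2, R.k3, R.k4, R.h1, R.h2, R.hz, hT, ha])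
  have e3 := lo (t := (197 / 1000)) (x := h0 + s - 1 - t + b / 2 - k) (by norm_num)
    (by linarith only [s1, s2, b1, b2, t1, t2, R.k3, R.k4, R.h1, R.h2, R.hz, hT, ha]) (by linarith only [s1, s2, b1, b2, t1, t2, R.k3, R.k4, R.h1, R.h2, R.hz, hT, ha])
  have e4 := lo (t := (277 / 1000)) (x := s - t + b / 2 - k) (by norm_num)
    (by linarith only [s1, s2, b1, b2, t1, t2, R.k3, R.k4, R.h1, R.h2, R.hz, hT, ha]) (by linarith only [s1, s2, b1, b2, t1, t2, R.k3, R.k4, R.h1, R.h2, R.hz, hT, ha])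
  have e5 := up (t1 := (207 / 1000)) (t2 := (255 / 1000)) (x := s - t) (by norm_num)
    (by linarith only [s1, s2, b1, b2, t1, t2, R.k3, R.k4, R.h1, R.h2, R.hz, hT, ha]) (by linarith only [s1, s2, b1, b2, t1, t2, R.k3, R.k4, R.h1, R.h2, R.hz, hT, ha])
  have e6 := lo (t := (325 / 1000)) (x := s) (by norm_num)
    (by linarith only [s1, s2, b1, b2, t1, t2, R.k3, R.k4, R.h1, R.h2, R.hz, hT, ha]) (by linarith only [s1, s2, b1, b2, t1, t2, R.k3, R.k4, R.h1, R.h2, R.hz, hT, ha])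
  have e7 := up (t1 := (30 / 1000)) (t2 := (195 / 1000)) (x := b) (by norm_num)
    (by linarith only [s1, s2, b1, b2, t1, t2, R.k3, R.k4, R.h1, R.h2, R.hz, hT, ha]) (by linarith only [s1, s2, b1, b2, t1, t2, R.k3, R.k4, R.h1, R.h2, R.hz, hT, ha])
  have c1 := R.ph1
  have c2 := R.qhh
  linarith only [e7, e6, e5, e4, e3, e2, e1, R.k1, R.k2, s1, s2, b1, b2, t1, t2, R.k3, R.k4, R.h1, R.h2, R.hz, R.h3, R.h4, c1, c2, R.n3, R.n4]

theorem wb2 {s b t k G1 G2 G3 G4 : ℝ} (R : RegB s b t k G1 G2 G3 G4) (hT : t ≤ 284 / 1000 * s) (ha : 0 ≤ h0 - 1 + t)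
    (s1 : 57 / 100 ≤ s) (s2 : s ≤ 607 / 1000)
    (b1 : 3 / 50 ≤ b) (b2 : b ≤ 15 / 40) (t1 : 862 / 10000 ≤ t) (t2 : t ≤ 345 / 2000) :
    4 * ph (s - t) - 2 * ph s ≤ (G1 + G2 + G3 + G4) / 2 := by
  rcases le_total t (1294 / 10000) with h | h
  · exact wb3 R hT ha s1 s2 b1 b2 t1 h
  · exact wb4 R hT ha s1 s2 b1 b2 h t2

theorem wb0 {s b t k G1 G2 G3 G4 : ℝ} (R : RegB s b t k G1 G2 G3 G4) (hT : t ≤ 284 / 1000 * s) (ha : 0 ≤ h0 - 1 + t)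
    (s1 : 57 / 100 ≤ s) (s2 : s ≤ 607 / 1000)
    (b1 : 3 / 50 ≤ b) (b2 : b ≤ 15 / 40) (t1 : 0 ≤ t) (t2 : t ≤ 345 / 2000) :
    4 * ph (s - t) - 2 * ph s ≤ (G1 + G2 + G3 + G4) / 2 := by
  rcases le_total t (862 / 10000) with h | h
  · exact wb1 R hT ha s1 s2 b1 b2 t1 h
  · exact wb2 R hT ha s1 s2 b1 b2 h t2

theorem wc2 {s b t k G1 G2 G3 G4 : ℝ} (R : RegB s b t k G1 G2 G3 G4) (hT : t ≤ 284 / 1000 * s) (ha : 0 ≤ 1 - h0 - t) (hl : 0 ≤ 2 * h0 - 9 / 5 + t)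
    (s1 : 57 / 100 ≤ s) (s2 : s ≤ 607 / 1000)
    (b1 : 3 / 50 ≤ b) (b2 : b ≤ 15 / 40) (t1 : 0 ≤ t) (t2 : t ≤ 431 / 10000) :
    4 * ph (s - t) - 2 * ph s ≤ (G1 + G2 + G3 + G4) / 2 := by
  exfalso
  linarith only [R.k1, R.k2, s1, s2, b1, b2, t1, t2, R.k3, R.k4, R.h1, R.h2, R.hz, hl]

theorem wc4 {s b t k G1 G2 G3 G4 : ℝ} (R : RegB s b t k G1 G2 G3 G4) (hT : t ≤ 284 / 1000 * s) (ha : 0 ≤ 1 - h0 - t) (hl : 0 ≤ 2 * h0 - 9 / 5 + t)
    (s1 : 57 / 100 ≤ s) (s2 : s ≤ 607 / 1000)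
    (b1 : 3 / 50 ≤ b) (b2 : b ≤ 15 / 40) (t1 : 431 / 10000 ≤ t) (t2 : t ≤ 647 / 10000) :
    4 * ph (s - t) - 2 * ph s ≤ (G1 + G2 + G3 + G4) / 2 := by
  exfalso
  linarith only [R.k1, R.k2, s1, s2, b1, b2, t1, t2, R.k3, R.k4, R.h1, R.h2, R.hz, hl]

theorem wc6 {s b t k G1 G2 G3 G4 : ℝ} (R : RegB s b t k G1 G2 G3 G4) (hT : t ≤ 284 / 1000 * s) (ha : 0 ≤ 1 - h0 - t) (hl : 0 ≤ 2 * h0 - 9 / 5 + t)
    (s1 : 57 / 100 ≤ s) (s2 : s ≤ 607 / 1000)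
    (b1 : 3 / 50 ≤ b) (b2 : b ≤ 435 / 2000) (t1 : 647 / 10000 ≤ t) (t2 : t ≤ 862 / 10000) :
    4 * ph (s - t) - 2 * ph s ≤ (G1 + G2 + G3 + G4) / 2 := by
  have e1 := up (t1 := (67 / 1000)) (t2 := (68 / 1000)) (x := 1 - h0) (by norm_num)
    (by linarith only [s1, s2, b1, b2, t1, t2, R.k3, R.k4, R.h1, R.h2, R.hz, hT, ha, hl]) (by linarith only [s1, s2, b1, b2, t1, t2, R.k3, R.k4, R.h1, R.h2, R.hz, hT, ha, hl])
  have e2 := lo (t := (240 / 1000)) (x := h0 + s - 1) (by norm_num)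
    (by linarith only [s1, s2, b1, b2, t1, t2, R.k3, R.k4, R.h1, R.h2, R.hz, hT, ha, hl]) (by linarith only [s1, s2, b1, b2, t1, t2, R.k3, R.k4, R.h1, R.h2, R.hz, hT, ha, hl])
  have e3 := lo (t := (227 / 1000)) (x := s - t - b / 2 - k) (by norm_num)
    (by linarith only [s1, s2, b1, b2, t1, t2, R.k3, R.k4, R.h1, R.h2, R.hz, hT, ha, hl]) (by linarith only [s1, s2, b1, b2, t1, t2, R.k3, R.k4, R.h1, R.h2, R.hz, hT, ha, hl])
  have e4 := lo (t := (555 / 1000)) (x := h0 - t + b / 2 - k) (by norm_num)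
    (by linarith only [s1, s2, b1, b2, t1, t2, R.k3, R.k4, R.h1, R.h2, R.hz, hT, ha, hl]) (by linarith only [s1, s2, b1, b2, t1, t2, R.k3, R.k4, R.h1, R.h2, R.hz, hT, ha, hl])
  have e5 := lo (t := (314 / 1000)) (x := s - t + b / 2 - k) (by norm_num)
    (by linarith only [s1, s2, b1, b2, t1, t2, R.k3, R.k4, R.h1, R.h2, R.hz, hT, ha, hl]) (by linarith only [s1, s2, b1, b2, t1, t2, R.k3, R.k4, R.h1, R.h2, R.hz, hT, ha, hl])
  have e6 := up (t1 := (258 / 1000)) (t2 := (295 / 1000)) (x := s - t) (by norm_num)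
    (by linarith only [s1, s2, b1, b2, t1, t2, R.k3, R.k4, R.h1, R.h2, R.hz, hT, ha, hl]) (by linarith only [s1, s2, b1, b2, t1, t2, R.k3, R.k4, R.h1, R.h2, R.hz, hT, ha, hl])
  have e7 := lo (t := (325 / 1000)) (x := s) (by norm_num)
    (by linarith only [s1, s2, b1, b2, t1, t2, R.k3, R.k4, R.h1, R.h2, R.hz, hT, ha, hl]) (by linarith only [s1, s2, b1, b2, t1, t2, R.k3, R.k4, R.h1, R.h2, R.hz, hT, ha, hl])
  have e8 := up (t1 := (30 / 1000)) (t2 := (111 / 1000)) (x := b) (by norm_num)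
    (by linarith only [s1, s2, b1, b2, t1, t2, R.k3, R.k4, R.h1, R.h2, R.hz, hT, ha, hl]) (by linarith only [s1, s2, b1, b2, t1, t2, R.k3, R.k4, R.h1, R.h2, R.hz, hT, ha, hl])
  have c1 := R.phs
  have c2 := R.qhh
  linarith only [e8, e7, e6, e5, e4, e3, e2, e1, R.k1, R.k2, s1, s2, b1, b2, t1, t2, R.k3, R.k4, R.h1, R.h2, R.hz, R.h3, R.h4, c1, c2, R.n3, R.n4]

theorem wc7 {s b t k G1 G2 G3 G4 : ℝ} (R : RegB s b t k G1 G2 G3 G4) (hT : t ≤ 284 / 1000 * s) (ha : 0 ≤ 1 - h0 - t) (hl : 0 ≤ 2 * h0 - 9 / 5 + t)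
    (s1 : 57 / 100 ≤ s) (s2 : s ≤ 607 / 1000)
    (b1 : 435 / 2000 ≤ b) (b2 : b ≤ 15 / 40) (t1 : 647 / 10000 ≤ t) (t2 : t ≤ 862 / 10000) :
    4 * ph (s - t) - 2 * ph s ≤ (G1 + G2 + G3 + G4) / 2 := by
  have e1 := up (t1 := (67 / 1000)) (t2 := (68 / 1000)) (x := 1 - h0) (by norm_num)
    (by linarith only [s1, s2, b1, b2, t1, t2, R.k3, R.k4, R.h1, R.h2, R.hz, hT, ha, hl]) (by linarith only [s1, s2, b1, b2, t1, t2, R.k3, R.k4, R.h1, R.h2, R.hz, hT, ha, hl])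
  have e2 := lo (t := (240 / 1000)) (x := h0 + s - 1) (by norm_num)
    (by linarith only [s1, s2, b1, b2, t1, t2, R.k3, R.k4, R.h1, R.h2, R.hz, hT, ha, hl]) (by linarith only [s1, s2, b1, b2, t1, t2, R.k3, R.k4, R.h1, R.h2, R.hz, hT, ha, hl])
  have e3 := up (t1 := (688 / 1000)) (t2 := (689 / 1000)) (x := 9 / 5 - h0) (by norm_num)
    (by linarith only [s1, s2, b1, b2, t1, t2, R.k3, R.k4, R.h1, R.h2, R.hz, hT, ha, hl]) (by linarith only [s1, s2, b1, b2, t1, t2, R.k3, R.k4, R.h1, R.h2, R.hz, hT, ha, hl])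
  have e4 := lo (t := (166 / 1000)) (x := s - t - b / 2 - k) (by norm_num)
    (by linarith only [s1, s2, b1, b2, t1, t2, R.k3, R.k4, R.h1, R.h2, R.hz, hT, ha, hl]) (by linarith only [s1, s2, b1, b2, t1, t2, R.k3, R.k4, R.h1, R.h2, R.hz, hT, ha, hl])
  have e5 := lo (t := (135 / 1000)) (x := t + b / 2 + k) (by norm_num)
    (by linarith only [s1, s2, b1, b2, t1, t2, R.k3, R.k4, R.h1, R.h2, R.hz, hT, ha, hl]) (by linarith only [s1, s2, b1, b2, t1, t2, R.k3, R.k4, R.h1, R.h2, R.hz, hT, ha, hl])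
  have e6 := lo (t := (622 / 1000)) (x := h0 - t + b / 2 - k) (by norm_num)
    (by linarith only [s1, s2, b1, b2, t1, t2, R.k3, R.k4, R.h1, R.h2, R.hz, hT, ha, hl]) (by linarith only [s1, s2, b1, b2, t1, t2, R.k3, R.k4, R.h1, R.h2, R.hz, hT, ha, hl])
  have e7 := lo (t := (347 / 1000)) (x := s - t + b / 2 - k) (by norm_num)
    (by linarith only [s1, s2, b1, b2, t1, t2, R.k3, R.k4, R.h1, R.h2, R.hz, hT, ha, hl]) (by linarith only [s1, s2, b1, b2, t1, t2, R.k3, R.k4, R.h1, R.h2, R.hz, hT, ha, hl])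
  have e8 := up (t1 := (258 / 1000)) (t2 := (295 / 1000)) (x := s - t) (by norm_num)
    (by linarith only [s1, s2, b1, b2, t1, t2, R.k3, R.k4, R.h1, R.h2, R.hz, hT, ha, hl]) (by linarith only [s1, s2, b1, b2, t1, t2, R.k3, R.k4, R.h1, R.h2, R.hz, hT, ha, hl])
  have e9 := lo (t := (764 / 1000)) (x := 9 / 5 - h0 - t + b / 2 - k) (by norm_num)
    (by linarith only [s1, s2, b1, b2, t1, t2, R.k3, R.k4, R.h1, R.h2, R.hz, hT, ha, hl]) (by linarith only [s1, s2, b1, b2, t1, t2, R.k3, R.k4, R.h1, R.h2, R.hz, hT, ha, hl])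
  have e10 := lo (t := (325 / 1000)) (x := s) (by norm_num)
    (by linarith only [s1, s2, b1, b2, t1, t2, R.k3, R.k4, R.h1, R.h2, R.hz, hT, ha, hl]) (by linarith only [s1, s2, b1, b2, t1, t2, R.k3, R.k4, R.h1, R.h2, R.hz, hT, ha, hl])
  have e11 := up (t1 := (110 / 1000)) (t2 := (195 / 1000)) (x := b) (by norm_num)
    (by linarith only [s1, s2, b1, b2, t1, t2, R.k3, R.k4, R.h1, R.h2, R.hz, hT, ha, hl]) (by linarith only [s1, s2, b1, b2, t1, t2, R.k3, R.k4, R.h1, R.h2, R.hz, hT, ha, hl])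
  have c1 := R.phs
  have c2 := R.qhh
  have c4 := R.svl (by linarith only [e11, e10, e9, e8, e7, e6, e5, e4, e3, e2, e1, R.k1, R.k2, s1, s2, b1, b2, t1, t2, R.k3, R.k4, R.h1, R.h2, R.hz]) hl
  linarith only [e11, e10, e9, e8, e7, e6, e5, e4, e3, e2, e1, R.k1, R.k2, s1, s2, b1, b2, t1, t2, R.k3, R.k4, R.h1, R.h2, R.hz, R.h3, R.h4, c1, c2, R.n3, c4]

theorem wc9 {s b t k G1 G2 G3 G4 : ℝ} (R : RegB s b t k G1 G2 G3 G4) (hT : t ≤ 284 / 1000 * s) (ha : 0 ≤ 1 - h0 - t) (hl : 0 ≤ 2 * h0 - 9 / 5 + t)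
    (s1 : 57 / 100 ≤ s) (s2 : s ≤ 607 / 1000)
    (b1 : 3 / 50 ≤ b) (b2 : b ≤ 435 / 2000) (t1 : 862 / 10000 ≤ t) (t2 : t ≤ 345 / 2000) :
    4 * ph (s - t) - 2 * ph s ≤ (G1 + G2 + G3 + G4) / 2 := by
  have e1 := up (t1 := (67 / 1000)) (t2 := (68 / 1000)) (x := 1 - h0) (by norm_num)
    (by linarith only [s1, s2, b1, b2, t1, t2, R.k3, R.k4, R.h1, R.h2, R.hz, hT, ha, hl]) (by linarith only [s1, s2, b1, b2, t1, t2, R.k3, R.k4, R.h1, R.h2, R.hz, hT, ha, hl])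
  have e2 := lo (t := (197 / 1000)) (x := s - t - b / 2 - k) (by norm_num)
    (by linarith only [s1, s2, b1, b2, t1, t2, R.k3, R.k4, R.h1, R.h2, R.hz, hT, ha, hl]) (by linarith only [s1, s2, b1, b2, t1, t2, R.k3, R.k4, R.h1, R.h2, R.hz, hT, ha, hl])
  have e3 := lo (t := (199 / 1000)) (x := h0 + s - 1 - t + b / 2 - k) (by norm_num)
    (by linarith only [s1, s2, b1, b2, t1, t2, R.k3, R.k4, R.h1, R.h2, R.hz, hT, ha, hl]) (by linarith only [s1, s2, b1, b2, t1, t2, R.k3, R.k4, R.h1, R.h2, R.hz, hT, ha, hl])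
  have e4 := lo (t := (279 / 1000)) (x := s - t + b / 2 - k) (by norm_num)
    (by linarith only [s1, s2, b1, b2, t1, t2, R.k3, R.k4, R.h1, R.h2, R.hz, hT, ha, hl]) (by linarith only [s1, s2, b1, b2, t1, t2, R.k3, R.k4, R.h1, R.h2, R.hz, hT, ha, hl])
  have e5 := up (t1 := (207 / 1000)) (t2 := (281 / 1000)) (x := s - t) (by norm_num)
    (by linarith only [s1, s2, b1, b2, t1, t2, R.k3, R.k4, R.h1, R.h2, R.hz, hT, ha, hl]) (by linarith only [s1, s2, b1, b2, t1, t2, R.k3, R.k4, R.h1, R.h2, R.hz, hT, ha, hl])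
  have e6 := lo (t := (325 / 1000)) (x := s) (by norm_num)
    (by linarith only [s1, s2, b1, b2, t1, t2, R.k3, R.k4, R.h1, R.h2, R.hz, hT, ha, hl]) (by linarith only [s1, s2, b1, b2, t1, t2, R.k3, R.k4, R.h1, R.h2, R.hz, hT, ha, hl])
  have e7 := up (t1 := (30 / 1000)) (t2 := (111 / 1000)) (x := b) (by norm_num)
    (by linarith only [s1, s2, b1, b2, t1, t2, R.k3, R.k4, R.h1, R.h2, R.hz, hT, ha, hl]) (by linarith only [s1, s2, b1, b2, t1, t2, R.k3, R.k4, R.h1, R.h2, R.hz, hT, ha, hl])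
  have c1 := R.ph1
  have c2 := R.qhh
  linarith only [e7, e6, e5, e4, e3, e2, e1, R.k1, R.k2, s1, s2, b1, b2, t1, t2, R.k3, R.k4, R.h1, R.h2, R.hz, R.h3, R.h4, c1, c2, R.n3, R.n4]

theorem wc12 {s b t k G1 G2 G3 G4 : ℝ} (R : RegB s b t k G1 G2 G3 G4) (hT : t ≤ 284 / 1000 * s) (ha : 0 ≤ 1 - h0 - t) (hl : 0 ≤ 2 * h0 - 9 / 5 + t)
    (s1 : 57 / 100 ≤ s) (s2 : s ≤ 607 / 1000)
    (b1 : 435 / 2000 ≤ b) (b2 : b ≤ 2963 / 10000) (t1 : 862 / 10000 ≤ t) (t2 : t ≤ 1294 / 10000) :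
    4 * ph (s - t) - 2 * ph s ≤ (G1 + G2 + G3 + G4) / 2 := by
  have e1 := up (t1 := (67 / 1000)) (t2 := (68 / 1000)) (x := 1 - h0) (by norm_num)
    (by linarith only [s1, s2, b1, b2, t1, t2, R.k3, R.k4, R.h1, R.h2, R.hz, hT, ha, hl]) (by linarith only [s1, s2, b1, b2, t1, t2, R.k3, R.k4, R.h1, R.h2, R.hz, hT, ha, hl])
  have e2 := lo (t := (240 / 1000)) (x := h0 + s - 1) (by norm_num)
    (by linarith only [s1, s2, b1, b2, t1, t2, R.k3, R.k4, R.h1, R.h2, R.hz, hT, ha, hl]) (by linarith only [s1, s2, b1, b2, t1, t2, R.k3, R.k4, R.h1, R.h2, R.hz, hT, ha, hl])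
  have e3 := lo (t := (166 / 1000)) (x := s - t - b / 2 - k) (by norm_num)
    (by linarith only [s1, s2, b1, b2, t1, t2, R.k3, R.k4, R.h1, R.h2, R.hz, hT, ha, hl]) (by linarith only [s1, s2, b1, b2, t1, t2, R.k3, R.k4, R.h1, R.h2, R.hz, hT, ha, hl])
  have e4 := lo (t := (565 / 1000)) (x := h0 - t + b / 2 - k) (by norm_num)
    (by linarith only [s1, s2, b1, b2, t1, t2, R.k3, R.k4, R.h1, R.h2, R.hz, hT, ha, hl]) (by linarith only [s1, s2, b1, b2, t1, t2, R.k3, R.k4, R.h1, R.h2, R.hz, hT, ha, hl])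
  have e5 := lo (t := (319 / 1000)) (x := s - t + b / 2 - k) (by norm_num)
    (by linarith only [s1, s2, b1, b2, t1, t2, R.k3, R.k4, R.h1, R.h2, R.hz, hT, ha, hl]) (by linarith only [s1, s2, b1, b2, t1, t2, R.k3, R.k4, R.h1, R.h2, R.hz, hT, ha, hl])
  have e6 := up (t1 := (232 / 1000)) (t2 := (281 / 1000)) (x := s - t) (by norm_num)
    (by linarith only [s1, s2, b1, b2, t1, t2, R.k3, R.k4, R.h1, R.h2, R.hz, hT, ha, hl]) (by linarith only [s1, s2, b1, b2, t1, t2, R.k3, R.k4, R.h1, R.h2, R.hz, hT, ha, hl])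
  have e7 := lo (t := (325 / 1000)) (x := s) (by norm_num)
    (by linarith only [s1, s2, b1, b2, t1, t2, R.k3, R.k4, R.h1, R.h2, R.hz, hT, ha, hl]) (by linarith only [s1, s2, b1, b2, t1, t2, R.k3, R.k4, R.h1, R.h2, R.hz, hT, ha, hl])
  have e8 := up (t1 := (110 / 1000)) (t2 := (152 / 1000)) (x := b) (by norm_num)
    (by linarith only [s1, s2, b1, b2, t1, t2, R.k3, R.k4, R.h1, R.h2, R.hz, hT, ha, hl]) (by linarith only [s1, s2, b1, b2, t1, t2, R.k3, R.k4, R.h1, R.h2, R.hz, hT, ha, hl])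
  have c1 := R.phs
  have c2 := R.qhh
  linarith only [e8, e7, e6, e5, e4, e3, e2, e1, R.k1, R.k2, s1, s2, b1, b2, t1, t2, R.k3, R.k4, R.h1, R.h2, R.hz, R.h3, R.h4, c1, c2, R.n3, R.n4]

theorem wc14 {s b t k G1 G2 G3 G4 : ℝ} (R : RegB s b t k G1 G2 G3 G4) (hT : t ≤ 284 / 1000 * s) (ha : 0 ≤ 1 - h0 - t) (hl : 0 ≤ 2 * h0 - 9 / 5 + t)
    (s1 : 57 / 100 ≤ s) (s2 : s ≤ 607 / 1000)
    (b1 : 2963 / 10000 ≤ b) (b2 : b ≤ 15 / 40) (t1 : 862 / 10000 ≤ t) (t2 : t ≤ 1078 / 10000) :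
    4 * ph (s - t) - 2 * ph s ≤ (G1 + G2 + G3 + G4) / 2 := by
  have e1 := up (t1 := (67 / 1000)) (t2 := (68 / 1000)) (x := 1 - h0) (by norm_num)
    (by linarith only [s1, s2, b1, b2, t1, t2, R.k3, R.k4, R.h1, R.h2, R.hz, hT, ha, hl]) (by linarith only [s1, s2, b1, b2, t1, t2, R.k3, R.k4, R.h1, R.h2, R.hz, hT, ha, hl])
  have e2 := lo (t := (240 / 1000)) (x := h0 + s - 1) (by norm_num)
    (by linarith only [s1, s2, b1, b2, t1, t2, R.k3, R.k4, R.h1, R.h2, R.hz, hT, ha, hl]) (by linarith only [s1, s2, b1, b2, t1, t2, R.k3, R.k4, R.h1, R.h2, R.hz, hT, ha, hl])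
  have e3 := up (t1 := (411 / 1000)) (t2 := (444 / 1000)) (x := s - h0 + 1) (by norm_num)
    (by linarith only [s1, s2, b1, b2, t1, t2, R.k3, R.k4, R.h1, R.h2, R.hz, hT, ha, hl]) (by linarith only [s1, s2, b1, b2, t1, t2, R.k3, R.k4, R.h1, R.h2, R.hz, hT, ha, hl])
  have e4 := up (t1 := (688 / 1000)) (t2 := (689 / 1000)) (x := 9 / 5 - h0) (by norm_num)
    (by linarith only [s1, s2, b1, b2, t1, t2, R.k3, R.k4, R.h1, R.h2, R.hz, hT, ha, hl]) (by linarith only [s1, s2, b1, b2, t1, t2, R.k3, R.k4, R.h1, R.h2, R.hz, hT, ha, hl])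
  have e5 := lo (t := (139 / 1000)) (x := s - t - b / 2 - k) (by norm_num)
    (by linarith only [s1, s2, b1, b2, t1, t2, R.k3, R.k4, R.h1, R.h2, R.hz, hT, ha, hl]) (by linarith only [s1, s2, b1, b2, t1, t2, R.k3, R.k4, R.h1, R.h2, R.hz, hT, ha, hl])
  have e6 := lo (t := (162 / 1000)) (x := t + b / 2 + k) (by norm_num)
    (by linarith only [s1, s2, b1, b2, t1, t2, R.k3, R.k4, R.h1, R.h2, R.hz, hT, ha, hl]) (by linarith only [s1, s2, b1, b2, t1, t2, R.k3, R.k4, R.h1, R.h2, R.hz, hT, ha, hl])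
  have e7 := lo (t := (605 / 1000)) (x := h0 - t + b / 2 - k) (by norm_num)
    (by linarith only [s1, s2, b1, b2, t1, t2, R.k3, R.k4, R.h1, R.h2, R.hz, hT, ha, hl]) (by linarith only [s1, s2, b1, b2, t1, t2, R.k3, R.k4, R.h1, R.h2, R.hz, hT, ha, hl])
  have e8 := lo (t := (339 / 1000)) (x := s - t + b / 2 - k) (by norm_num)
    (by linarith only [s1, s2, b1, b2, t1, t2, R.k3, R.k4, R.h1, R.h2, R.hz, hT, ha, hl]) (by linarith only [s1, s2, b1, b2, t1, t2, R.k3, R.k4, R.h1, R.h2, R.hz, hT, ha, hl])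
  have e9 := up (t1 := (244 / 1000)) (t2 := (281 / 1000)) (x := s - t) (by norm_num)
    (by linarith only [s1, s2, b1, b2, t1, t2, R.k3, R.k4, R.h1, R.h2, R.hz, hT, ha, hl]) (by linarith only [s1, s2, b1, b2, t1, t2, R.k3, R.k4, R.h1, R.h2, R.hz, hT, ha, hl])
  have e10 := lo (t := (444 / 1000)) (x := s - h0 + 1 - t + b / 2 - k) (by norm_num)
    (by linarith only [s1, s2, b1, b2, t1, t2, R.k3, R.k4, R.h1, R.h2, R.hz, hT, ha, hl]) (by linarith only [s1, s2, b1, b2, t1, t2, R.k3, R.k4, R.h1, R.h2, R.hz, hT, ha, hl])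
  have e11 := lo (t := (733 / 1000)) (x := 9 / 5 - h0 - t + b / 2 - k) (by norm_num)
    (by linarith only [s1, s2, b1, b2, t1, t2, R.k3, R.k4, R.h1, R.h2, R.hz, hT, ha, hl]) (by linarith only [s1, s2, b1, b2, t1, t2, R.k3, R.k4, R.h1, R.h2, R.hz, hT, ha, hl])
  have e12 := lo (t := (325 / 1000)) (x := s) (by norm_num)
    (by linarith only [s1, s2, b1, b2, t1, t2, R.k3, R.k4, R.h1, R.h2, R.hz, hT, ha, hl]) (by linarith only [s1, s2, b1, b2, t1, t2, R.k3, R.k4, R.h1, R.h2, R.hz, hT, ha, hl])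
  have e13 := up (t1 := (151 / 1000)) (t2 := (195 / 1000)) (x := b) (by norm_num)
    (by linarith only [s1, s2, b1, b2, t1, t2, R.k3, R.k4, R.h1, R.h2, R.hz, hT, ha, hl]) (by linarith only [s1, s2, b1, b2, t1, t2, R.k3, R.k4, R.h1, R.h2, R.hz, hT, ha, hl])
  have c1 := R.phs
  have c2 := R.qhh
  have c3 := R.rv2 (by linarith only [e13, e12, e11, e10, e9, e8, e7, e6, e5, e4, e3, e2, e1, R.k1, R.k2, s1, s2, b1, b2, t1, t2, R.k3, R.k4, R.h1, R.h2, R.hz])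
  have c4 := R.svl (by linarith only [e13, e12, e11, e10, e9, e8, e7, e6, e5, e4, e3, e2, e1, R.k1, R.k2, s1, s2, b1, b2, t1, t2, R.k3, R.k4, R.h1, R.h2, R.hz]) hl
  linarith only [e13, e12, e11, e10, e9, e8, e7, e6, e5, e4, e3, e2, e1, R.k1, R.k2, s1, s2, b1, b2, t1, t2, R.k3, R.k4, R.h1, R.h2, R.hz, R.h3, R.h4, c1, c2, c3, c4]

theorem wc16 {s b t k G1 G2 G3 G4 : ℝ} (R : RegB s b t k G1 G2 G3 G4) (hT : t ≤ 284 / 1000 * s) (ha : 0 ≤ 1 - h0 - t) (hl : 0 ≤ 2 * h0 - 9 / 5 + t)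
    (s1 : 57 / 100 ≤ s) (s2 : s ≤ 607 / 1000)
    (b1 : 2963 / 10000 ≤ b) (b2 : b ≤ 3357 / 10000) (t1 : 1078 / 10000 ≤ t) (t2 : t ≤ 1294 / 10000) :
    4 * ph (s - t) - 2 * ph s ≤ (G1 + G2 + G3 + G4) / 2 := by
  have e1 := up (t1 := (67 / 1000)) (t2 := (68 / 1000)) (x := 1 - h0) (by norm_num)
    (by linarith only [s1, s2, b1, b2, t1, t2, R.k3, R.k4, R.h1, R.h2, R.hz, hT, ha, hl]) (by linarith only [s1, s2, b1, b2, t1, t2, R.k3, R.k4, R.h1, R.h2, R.hz, hT, ha, hl])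
  have e2 := lo (t := (240 / 1000)) (x := h0 + s - 1) (by norm_num)
    (by linarith only [s1, s2, b1, b2, t1, t2, R.k3, R.k4, R.h1, R.h2, R.hz, hT, ha, hl]) (by linarith only [s1, s2, b1, b2, t1, t2, R.k3, R.k4, R.h1, R.h2, R.hz, hT, ha, hl])
  have e3 := lo (t := (136 / 1000)) (x := s - t - b / 2 - k) (by norm_num)
    (by linarith only [s1, s2, b1, b2, t1, t2, R.k3, R.k4, R.h1, R.h2, R.hz, hT, ha, hl]) (by linarith only [s1, s2, b1, b2, t1, t2, R.k3, R.k4, R.h1, R.h2, R.hz, hT, ha, hl])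
  have e4 := lo (t := (571 / 1000)) (x := h0 - t + b / 2 - k) (by norm_num)
    (by linarith only [s1, s2, b1, b2, t1, t2, R.k3, R.k4, R.h1, R.h2, R.hz, hT, ha, hl]) (by linarith only [s1, s2, b1, b2, t1, t2, R.k3, R.k4, R.h1, R.h2, R.hz, hT, ha, hl])
  have e5 := lo (t := (322 / 1000)) (x := s - t + b / 2 - k) (by norm_num)
    (by linarith only [s1, s2, b1, b2, t1, t2, R.k3, R.k4, R.h1, R.h2, R.hz, hT, ha, hl]) (by linarith only [s1, s2, b1, b2, t1, t2, R.k3, R.k4, R.h1, R.h2, R.hz, hT, ha, hl])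
  have e6 := up (t1 := (232 / 1000)) (t2 := (268 / 1000)) (x := s - t) (by norm_num)
    (by linarith only [s1, s2, b1, b2, t1, t2, R.k3, R.k4, R.h1, R.h2, R.hz, hT, ha, hl]) (by linarith only [s1, s2, b1, b2, t1, t2, R.k3, R.k4, R.h1, R.h2, R.hz, hT, ha, hl])
  have e7 := lo (t := (325 / 1000)) (x := s) (by norm_num)
    (by linarith only [s1, s2, b1, b2, t1, t2, R.k3, R.k4, R.h1, R.h2, R.hz, hT, ha, hl]) (by linarith only [s1, s2, b1, b2, t1, t2, R.k3, R.k4, R.h1, R.h2, R.hz, hT, ha, hl])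
  have e8 := up (t1 := (151 / 1000)) (t2 := (173 / 1000)) (x := b) (by norm_num)
    (by linarith only [s1, s2, b1, b2, t1, t2, R.k3, R.k4, R.h1, R.h2, R.hz, hT, ha, hl]) (by linarith only [s1, s2, b1, b2, t1, t2, R.k3, R.k4, R.h1, R.h2, R.hz, hT, ha, hl])
  have c1 := R.phs
  have c2 := R.qhh
  linarith only [e8, e7, e6, e5, e4, e3, e2, e1, R.k1, R.k2, s1, s2, b1, b2, t1, t2, R.k3, R.k4, R.h1, R.h2, R.hz, R.h3, R.h4, c1, c2, R.n3, R.n4]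

theorem wc19 {s b t k G1 G2 G3 G4 : ℝ} (R : RegB s b t k G1 G2 G3 G4) (hT : t ≤ 284 / 1000 * s) (ha : 0 ≤ 1 - h0 - t) (hl : 0 ≤ 2 * h0 - 9 / 5 + t)
    (s1 : 57 / 100 ≤ s) (s2 : s ≤ 607 / 1000)
    (b1 : 3357 / 10000 ≤ b) (b2 : b ≤ 15 / 40) (t1 : 1078 / 10000 ≤ t) (t2 : t ≤ 1132 / 10000) :
    4 * ph (s - t) - 2 * ph s ≤ (G1 + G2 + G3 + G4) / 2 := by
  have e1 := up (t1 := (67 / 1000)) (t2 := (68 / 1000)) (x := 1 - h0) (by norm_num)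
    (by linarith only [s1, s2, b1, b2, t1, t2, R.k3, R.k4, R.h1, R.h2, R.hz, hT, ha, hl]) (by linarith only [s1, s2, b1, b2, t1, t2, R.k3, R.k4, R.h1, R.h2, R.hz, hT, ha, hl])
  have e2 := lo (t := (240 / 1000)) (x := h0 + s - 1) (by norm_num)
    (by linarith only [s1, s2, b1, b2, t1, t2, R.k3, R.k4, R.h1, R.h2, R.hz, hT, ha, hl]) (by linarith only [s1, s2, b1, b2, t1, t2, R.k3, R.k4, R.h1, R.h2, R.hz, hT, ha, hl])
  have e3 := up (t1 := (411 / 1000)) (t2 := (444 / 1000)) (x := s - h0 + 1) (by norm_num)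
    (by linarith only [s1, s2, b1, b2, t1, t2, R.k3, R.k4, R.h1, R.h2, R.hz, hT, ha, hl]) (by linarith only [s1, s2, b1, b2, t1, t2, R.k3, R.k4, R.h1, R.h2, R.hz, hT, ha, hl])
  have e4 := up (t1 := (688 / 1000)) (t2 := (689 / 1000)) (x := 9 / 5 - h0) (by norm_num)
    (by linarith only [s1, s2, b1, b2, t1, t2, R.k3, R.k4, R.h1, R.h2, R.hz, hT, ha, hl]) (by linarith only [s1, s2, b1, b2, t1, t2, R.k3, R.k4, R.h1, R.h2, R.hz, hT, ha, hl])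
  have e5 := lo (t := (124 / 1000)) (x := s - t - b / 2 - k) (by norm_num)
    (by linarith only [s1, s2, b1, b2, t1, t2, R.k3, R.k4, R.h1, R.h2, R.hz, hT, ha, hl]) (by linarith only [s1, s2, b1, b2, t1, t2, R.k3, R.k4, R.h1, R.h2, R.hz, hT, ha, hl])
  have e6 := lo (t := (178 / 1000)) (x := t + b / 2 + k) (by norm_num)
    (by linarith only [s1, s2, b1, b2, t1, t2, R.k3, R.k4, R.h1, R.h2, R.hz, hT, ha, hl]) (by linarith only [s1, s2, b1, b2, t1, t2, R.k3, R.k4, R.h1, R.h2, R.hz, hT, ha, hl])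
  have e7 := lo (t := (592 / 1000)) (x := h0 - t + b / 2 - k) (by norm_num)
    (by linarith only [s1, s2, b1, b2, t1, t2, R.k3, R.k4, R.h1, R.h2, R.hz, hT, ha, hl]) (by linarith only [s1, s2, b1, b2, t1, t2, R.k3, R.k4, R.h1, R.h2, R.hz, hT, ha, hl])
  have e8 := lo (t := (333 / 1000)) (x := s - t + b / 2 - k) (by norm_num)
    (by linarith only [s1, s2, b1, b2, t1, t2, R.k3, R.k4, R.h1, R.h2, R.hz, hT, ha, hl]) (by linarith only [s1, s2, b1, b2, t1, t2, R.k3, R.k4, R.h1, R.h2, R.hz, hT, ha, hl])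
  have e9 := up (t1 := (241 / 1000)) (t2 := (268 / 1000)) (x := s - t) (by norm_num)
    (by linarith only [s1, s2, b1, b2, t1, t2, R.k3, R.k4, R.h1, R.h2, R.hz, hT, ha, hl]) (by linarith only [s1, s2, b1, b2, t1, t2, R.k3, R.k4, R.h1, R.h2, R.hz, hT, ha, hl])
  have e10 := lo (t := (436 / 1000)) (x := s - h0 + 1 - t + b / 2 - k) (by norm_num)
    (by linarith only [s1, s2, b1, b2, t1, t2, R.k3, R.k4, R.h1, R.h2, R.hz, hT, ha, hl]) (by linarith only [s1, s2, b1, b2, t1, t2, R.k3, R.k4, R.h1, R.h2, R.hz, hT, ha, hl])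
  have e11 := lo (t := (711 / 1000)) (x := 9 / 5 - h0 - t + b / 2 - k) (by norm_num)
    (by linarith only [s1, s2, b1, b2, t1, t2, R.k3, R.k4, R.h1, R.h2, R.hz, hT, ha, hl]) (by linarith only [s1, s2, b1, b2, t1, t2, R.k3, R.k4, R.h1, R.h2, R.hz, hT, ha, hl])
  have e12 := lo (t := (325 / 1000)) (x := s) (by norm_num)
    (by linarith only [s1, s2, b1, b2, t1, t2, R.k3, R.k4, R.h1, R.h2, R.hz, hT, ha, hl]) (by linarith only [s1, s2, b1, b2, t1, t2, R.k3, R.k4, R.h1, R.h2, R.hz, hT, ha, hl])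
  have e13 := up (t1 := (172 / 1000)) (t2 := (195 / 1000)) (x := b) (by norm_num)
    (by linarith only [s1, s2, b1, b2, t1, t2, R.k3, R.k4, R.h1, R.h2, R.hz, hT, ha, hl]) (by linarith only [s1, s2, b1, b2, t1, t2, R.k3, R.k4, R.h1, R.h2, R.hz, hT, ha, hl])
  have c1 := R.phs
  have c2 := R.qhh
  have c3 := R.rv2 (by linarith only [e13, e12, e11, e10, e9, e8, e7, e6, e5, e4, e3, e2, e1, R.k1, R.k2, s1, s2, b1, b2, t1, t2, R.k3, R.k4, R.h1, R.h2, R.hz])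
  have c4 := R.svl (by linarith only [e13, e12, e11, e10, e9, e8, e7, e6, e5, e4, e3, e2, e1, R.k1, R.k2, s1, s2, b1, b2, t1, t2, R.k3, R.k4, R.h1, R.h2, R.hz]) hl
  linarith only [e13, e12, e11, e10, e9, e8, e7, e6, e5, e4, e3, e2, e1, R.k1, R.k2, s1, s2, b1, b2, t1, t2, R.k3, R.k4, R.h1, R.h2, R.hz, R.h3, R.h4, c1, c2, c3, c4]

theorem wc20 {s b t k G1 G2 G3 G4 : ℝ} (R : RegB s b t k G1 G2 G3 G4) (hT : t ≤ 284 / 1000 * s) (ha : 0 ≤ 1 - h0 - t) (hl : 0 ≤ 2 * h0 - 9 / 5 + t)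
    (s1 : 57 / 100 ≤ s) (s2 : s ≤ 607 / 1000)
    (b1 : 3357 / 10000 ≤ b) (b2 : b ≤ 15 / 40) (t1 : 1132 / 10000 ≤ t) (t2 : t ≤ 1186 / 10000) :
    4 * ph (s - t) - 2 * ph s ≤ (G1 + G2 + G3 + G4) / 2 := by
  have e1 := up (t1 := (67 / 1000)) (t2 := (68 / 1000)) (x := 1 - h0) (by norm_num)
    (by linarith only [s1, s2, b1, b2, t1, t2, R.k3, R.k4, R.h1, R.h2, R.hz, hT, ha, hl]) (by linarith only [s1, s2, b1, b2, t1, t2, R.k3, R.k4, R.h1, R.h2, R.hz, hT, ha, hl])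
  have e2 := lo (t := (240 / 1000)) (x := h0 + s - 1) (by norm_num)
    (by linarith only [s1, s2, b1, b2, t1, t2, R.k3, R.k4, R.h1, R.h2, R.hz, hT, ha, hl]) (by linarith only [s1, s2, b1, b2, t1, t2, R.k3, R.k4, R.h1, R.h2, R.hz, hT, ha, hl])
  have e3 := lo (t := (121 / 1000)) (x := s - t - b / 2 - k) (by norm_num)
    (by linarith only [s1, s2, b1, b2, t1, t2, R.k3, R.k4, R.h1, R.h2, R.hz, hT, ha, hl]) (by linarith only [s1, s2, b1, b2, t1, t2, R.k3, R.k4, R.h1, R.h2, R.hz, hT, ha, hl])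
  have e4 := lo (t := (584 / 1000)) (x := h0 - t + b / 2 - k) (by norm_num)
    (by linarith only [s1, s2, b1, b2, t1, t2, R.k3, R.k4, R.h1, R.h2, R.hz, hT, ha, hl]) (by linarith only [s1, s2, b1, b2, t1, t2, R.k3, R.k4, R.h1, R.h2, R.hz, hT, ha, hl])
  have e5 := lo (t := (329 / 1000)) (x := s - t + b / 2 - k) (by norm_num)
    (by linarith only [s1, s2, b1, b2, t1, t2, R.k3, R.k4, R.h1, R.h2, R.hz, hT, ha, hl]) (by linarith only [s1, s2, b1, b2, t1, t2, R.k3, R.k4, R.h1, R.h2, R.hz, hT, ha, hl])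
  have e6 := up (t1 := (238 / 1000)) (t2 := (265 / 1000)) (x := s - t) (by norm_num)
    (by linarith only [s1, s2, b1, b2, t1, t2, R.k3, R.k4, R.h1, R.h2, R.hz, hT, ha, hl]) (by linarith only [s1, s2, b1, b2, t1, t2, R.k3, R.k4, R.h1, R.h2, R.hz, hT, ha, hl])
  have e7 := lo (t := (325 / 1000)) (x := s) (by norm_num)
    (by linarith only [s1, s2, b1, b2, t1, t2, R.k3, R.k4, R.h1, R.h2, R.hz, hT, ha, hl]) (by linarith only [s1, s2, b1, b2, t1, t2, R.k3, R.k4, R.h1, R.h2, R.hz, hT, ha, hl])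
  have e8 := up (t1 := (172 / 1000)) (t2 := (195 / 1000)) (x := b) (by norm_num)
    (by linarith only [s1, s2, b1, b2, t1, t2, R.k3, R.k4, R.h1, R.h2, R.hz, hT, ha, hl]) (by linarith only [s1, s2, b1, b2, t1, t2, R.k3, R.k4, R.h1, R.h2, R.hz, hT, ha, hl])
  have c1 := R.phs
  have c2 := R.qhh
  linarith only [e8, e7, e6, e5, e4, e3, e2, e1, R.k1, R.k2, s1, s2, b1, b2, t1, t2, R.k3, R.k4, R.h1, R.h2, R.hz, R.h3, R.h4, c1, c2, R.n3, R.n4]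

theorem wc21 {s b t k G1 G2 G3 G4 : ℝ} (R : RegB s b t k G1 G2 G3 G4) (hT : t ≤ 284 / 1000 * s) (ha : 0 ≤ 1 - h0 - t) (hl : 0 ≤ 2 * h0 - 9 / 5 + t)
    (s1 : 57 / 100 ≤ s) (s2 : s ≤ 607 / 1000)
    (b1 : 3357 / 10000 ≤ b) (b2 : b ≤ 15 / 40) (t1 : 1186 / 10000 ≤ t) (t2 : t ≤ 1294 / 10000) :
    4 * ph (s - t) - 2 * ph s ≤ (G1 + G2 + G3 + G4) / 2 := by
  have e1 := up (t1 := (67 / 1000)) (t2 := (68 / 1000)) (x := 1 - h0) (by norm_num)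
    (by linarith only [s1, s2, b1, b2, t1, t2, R.k3, R.k4, R.h1, R.h2, R.hz, hT, ha, hl]) (by linarith only [s1, s2, b1, b2, t1, t2, R.k3, R.k4, R.h1, R.h2, R.hz, hT, ha, hl])
  have e2 := lo (t := (240 / 1000)) (x := h0 + s - 1) (by norm_num)
    (by linarith only [s1, s2, b1, b2, t1, t2, R.k3, R.k4, R.h1, R.h2, R.hz, hT, ha, hl]) (by linarith only [s1, s2, b1, b2, t1, t2, R.k3, R.k4, R.h1, R.h2, R.hz, hT, ha, hl])
  have e3 := lo (t := (117 / 1000)) (x := s - t - b / 2 - k) (by norm_num)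
    (by linarith only [s1, s2, b1, b2, t1, t2, R.k3, R.k4, R.h1, R.h2, R.hz, hT, ha, hl]) (by linarith only [s1, s2, b1, b2, t1, t2, R.k3, R.k4, R.h1, R.h2, R.hz, hT, ha, hl])
  have e4 := lo (t := (573 / 1000)) (x := h0 - t + b / 2 - k) (by norm_num)
    (by linarith only [s1, s2, b1, b2, t1, t2, R.k3, R.k4, R.h1, R.h2, R.hz, hT, ha, hl]) (by linarith only [s1, s2, b1, b2, t1, t2, R.k3, R.k4, R.h1, R.h2, R.hz, hT, ha, hl])
  have e5 := lo (t := (323 / 1000)) (x := s - t + b / 2 - k) (by norm_num)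
    (by linarith only [s1, s2, b1, b2, t1, t2, R.k3, R.k4, R.h1, R.h2, R.hz, hT, ha, hl]) (by linarith only [s1, s2, b1, b2, t1, t2, R.k3, R.k4, R.h1, R.h2, R.hz, hT, ha, hl])
  have e6 := up (t1 := (232 / 1000)) (t2 := (261 / 1000)) (x := s - t) (by norm_num)
    (by linarith only [s1, s2, b1, b2, t1, t2, R.k3, R.k4, R.h1, R.h2, R.hz, hT, ha, hl]) (by linarith only [s1, s2, b1, b2, t1, t2, R.k3, R.k4, R.h1, R.h2, R.hz, hT, ha, hl])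
  have e7 := lo (t := (325 / 1000)) (x := s) (by norm_num)
    (by linarith only [s1, s2, b1, b2, t1, t2, R.k3, R.k4, R.h1, R.h2, R.hz, hT, ha, hl]) (by linarith only [s1, s2, b1, b2, t1, t2, R.k3, R.k4, R.h1, R.h2, R.hz, hT, ha, hl])
  have e8 := up (t1 := (172 / 1000)) (t2 := (195 / 1000)) (x := b) (by norm_num)
    (by linarith only [s1, s2, b1, b2, t1, t2, R.k3, R.k4, R.h1, R.h2, R.hz, hT, ha, hl]) (by linarith only [s1, s2, b1, b2, t1, t2, R.k3, R.k4, R.h1, R.h2, R.hz, hT, ha, hl])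
  have c1 := R.phs
  have c2 := R.qhh
  linarith only [e8, e7, e6, e5, e4, e3, e2, e1, R.k1, R.k2, s1, s2, b1, b2, t1, t2, R.k3, R.k4, R.h1, R.h2, R.hz, R.h3, R.h4, c1, c2, R.n3, R.n4]

theorem wc22 {s b t k G1 G2 G3 G4 : ℝ} (R : RegB s b t k G1 G2 G3 G4) (hT : t ≤ 284 / 1000 * s) (ha : 0 ≤ 1 - h0 - t) (hl : 0 ≤ 2 * h0 - 9 / 5 + t)
    (s1 : 57 / 100 ≤ s) (s2 : s ≤ 607 / 1000)
    (b1 : 435 / 2000 ≤ b) (b2 : b ≤ 15 / 40) (t1 : 1294 / 10000 ≤ t) (t2 : t ≤ 345 / 2000) :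
    4 * ph (s - t) - 2 * ph s ≤ (G1 + G2 + G3 + G4) / 2 := by
  have e1 := up (t1 := (67 / 1000)) (t2 := (68 / 1000)) (x := 1 - h0) (by norm_num)
    (by linarith only [s1, s2, b1, b2, t1, t2, R.k3, R.k4, R.h1, R.h2, R.hz, hT, ha, hl]) (by linarith only [s1, s2, b1, b2, t1, t2, R.k3, R.k4, R.h1, R.h2, R.hz, hT, ha, hl])
  have e2 := lo (t := (126 / 1000)) (x := s - t - b / 2 - k) (by norm_num)
    (by linarith only [s1, s2, b1, b2, t1, t2, R.k3, R.k4, R.h1, R.h2, R.hz, hT, ha, hl]) (by linarith only [s1, s2, b1, b2, t1, t2, R.k3, R.k4, R.h1, R.h2, R.hz, hT, ha, hl])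
  have e3 := lo (t := (214 / 1000)) (x := h0 + s - 1 - t + b / 2 - k) (by norm_num)
    (by linarith only [s1, s2, b1, b2, t1, t2, R.k3, R.k4, R.h1, R.h2, R.hz, hT, ha, hl]) (by linarith only [s1, s2, b1, b2, t1, t2, R.k3, R.k4, R.h1, R.h2, R.hz, hT, ha, hl])
  have e4 := lo (t := (296 / 1000)) (x := s - t + b / 2 - k) (by norm_num)
    (by linarith only [s1, s2, b1, b2, t1, t2, R.k3, R.k4, R.h1, R.h2, R.hz, hT, ha, hl]) (by linarith only [s1, s2, b1, b2, t1, t2, R.k3, R.k4, R.h1, R.h2, R.hz, hT, ha, hl])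
  have e5 := up (t1 := (207 / 1000)) (t2 := (255 / 1000)) (x := s - t) (by norm_num)
    (by linarith only [s1, s2, b1, b2, t1, t2, R.k3, R.k4, R.h1, R.h2, R.hz, hT, ha, hl]) (by linarith only [s1, s2, b1, b2, t1, t2, R.k3, R.k4, R.h1, R.h2, R.hz, hT, ha, hl])
  have e6 := lo (t := (325 / 1000)) (x := s) (by norm_num)
    (by linarith only [s1, s2, b1, b2, t1, t2, R.k3, R.k4, R.h1, R.h2, R.hz, hT, ha, hl]) (by linarith only [s1, s2, b1, b2, t1, t2, R.k3, R.k4, R.h1, R.h2, R.hz, hT, ha, hl])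
  have e7 := up (t1 := (110 / 1000)) (t2 := (195 / 1000)) (x := b) (by norm_num)
    (by linarith only [s1, s2, b1, b2, t1, t2, R.k3, R.k4, R.h1, R.h2, R.hz, hT, ha, hl]) (by linarith only [s1, s2, b1, b2, t1, t2, R.k3, R.k4, R.h1, R.h2, R.hz, hT, ha, hl])
  have c1 := R.ph1
  have c2 := R.qhh
  linarith only [e7, e6, e5, e4, e3, e2, e1, R.k1, R.k2, s1, s2, b1, b2, t1, t2, R.k3, R.k4, R.h1, R.h2, R.hz, R.h3, R.h4, c1, c2, R.n3, R.n4]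

theorem wc18 {s b t k G1 G2 G3 G4 : ℝ} (R : RegB s b t k G1 G2 G3 G4) (hT : t ≤ 284 / 1000 * s) (ha : 0 ≤ 1 - h0 - t) (hl : 0 ≤ 2 * h0 - 9 / 5 + t)
    (s1 : 57 / 100 ≤ s) (s2 : s ≤ 607 / 1000)
    (b1 : 3357 / 10000 ≤ b) (b2 : b ≤ 15 / 40) (t1 : 1078 / 10000 ≤ t) (t2 : t ≤ 1186 / 10000) :
    4 * ph (s - t) - 2 * ph s ≤ (G1 + G2 + G3 + G4) / 2 := by
  rcases le_total t (1132 / 10000) with h | h
  · exact wc19 R hT ha hl s1 s2 b1 b2 t1 h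
  · exact wc20 R hT ha hl s1 s2 b1 b2 h t2

theorem wc17 {s b t k G1 G2 G3 G4 : ℝ} (R : RegB s b t k G1 G2 G3 G4) (hT : t ≤ 284 / 1000 * s) (ha : 0 ≤ 1 - h0 - t) (hl : 0 ≤ 2 * h0 - 9 / 5 + t)
    (s1 : 57 / 100 ≤ s) (s2 : s ≤ 607 / 1000)
    (b1 : 3357 / 10000 ≤ b) (b2 : b ≤ 15 / 40) (t1 : 1078 / 10000 ≤ t) (t2 : t ≤ 1294 / 10000) :
    4 * ph (s - t) - 2 * ph s ≤ (G1 + G2 + G3 + G4) / 2 := by
  rcases le_total t (1186 / 10000) with h | h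
  · exact wc18 R hT ha hl s1 s2 b1 b2 t1 h
  · exact wc21 R hT ha hl s1 s2 b1 b2 h t2

theorem wc15 {s b t k G1 G2 G3 G4 : ℝ} (R : RegB s b t k G1 G2 G3 G4) (hT : t ≤ 284 / 1000 * s) (ha : 0 ≤ 1 - h0 - t) (hl : 0 ≤ 2 * h0 - 9 / 5 + t)
    (s1 : 57 / 100 ≤ s) (s2 : s ≤ 607 / 1000)
    (b1 : 2963 / 10000 ≤ b) (b2 : b ≤ 15 / 40) (t1 : 1078 / 10000 ≤ t) (t2 : t ≤ 1294 / 10000) :
    4 * ph (s - t) - 2 * ph s ≤ (G1 + G2 + G3 + G4) / 2 := by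
  rcases le_total b (3357 / 10000) with h | h
  · exact wc16 R hT ha hl s1 s2 b1 h t1 t2
  · exact wc17 R hT ha hl s1 s2 h b2 t1 t2

theorem wc13 {s b t k G1 G2 G3 G4 : ℝ} (R : RegB s b t k G1 G2 G3 G4) (hT : t ≤ 284 / 1000 * s) (ha : 0 ≤ 1 - h0 - t) (hl : 0 ≤ 2 * h0 - 9 / 5 + t)
    (s1 : 57 / 100 ≤ s) (s2 : s ≤ 607 / 1000)
    (b1 : 2963 / 10000 ≤ b) (b2 : b ≤ 15 / 40) (t1 : 862 / 10000 ≤ t) (t2 : t ≤ 1294 / 10000) :
    4 * ph (s - t) - 2 * ph s ≤ (G1 + G2 + G3 + G4) / 2 := by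
  rcases le_total t (1078 / 10000) with h | h
  · exact wc14 R hT ha hl s1 s2 b1 b2 t1 h
  · exact wc15 R hT ha hl s1 s2 b1 b2 h t2

theorem wc11 {s b t k G1 G2 G3 G4 : ℝ} (R : RegB s b t k G1 G2 G3 G4) (hT : t ≤ 284 / 1000 * s) (ha : 0 ≤ 1 - h0 - t) (hl : 0 ≤ 2 * h0 - 9 / 5 + t)
    (s1 : 57 / 100 ≤ s) (s2 : s ≤ 607 / 1000)
    (b1 : 435 / 2000 ≤ b) (b2 : b ≤ 15 / 40) (t1 : 862 / 10000 ≤ t) (t2 : t ≤ 1294 / 10000) :
    4 * ph (s - t) - 2 * ph s ≤ (G1 + G2 + G3 + G4) / 2 := by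
  rcases le_total b (2963 / 10000) with h | h
  · exact wc12 R hT ha hl s1 s2 b1 h t1 t2
  · exact wc13 R hT ha hl s1 s2 h b2 t1 t2

theorem wc10 {s b t k G1 G2 G3 G4 : ℝ} (R : RegB s b t k G1 G2 G3 G4) (hT : t ≤ 284 / 1000 * s) (ha : 0 ≤ 1 - h0 - t) (hl : 0 ≤ 2 * h0 - 9 / 5 + t)
    (s1 : 57 / 100 ≤ s) (s2 : s ≤ 607 / 1000)
    (b1 : 435 / 2000 ≤ b) (b2 : b ≤ 15 / 40) (t1 : 862 / 10000 ≤ t) (t2 : t ≤ 345 / 2000) :
    4 * ph (s - t) - 2 * ph s ≤ (G1 + G2 + G3 + G4) / 2 := by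
  rcases le_total t (1294 / 10000) with h | h
  · exact wc11 R hT ha hl s1 s2 b1 b2 t1 h
  · exact wc22 R hT ha hl s1 s2 b1 b2 h t2

theorem wc8 {s b t k G1 G2 G3 G4 : ℝ} (R : RegB s b t k G1 G2 G3 G4) (hT : t ≤ 284 / 1000 * s) (ha : 0 ≤ 1 - h0 - t) (hl : 0 ≤ 2 * h0 - 9 / 5 + t)
    (s1 : 57 / 100 ≤ s) (s2 : s ≤ 607 / 1000)
    (b1 : 3 / 50 ≤ b) (b2 : b ≤ 15 / 40) (t1 : 862 / 10000 ≤ t) (t2 : t ≤ 345 / 2000) :
    4 * ph (s - t) - 2 * ph s ≤ (G1 + G2 + G3 + G4) / 2 := by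
  rcases le_total b (435 / 2000) with h | h
  · exact wc9 R hT ha hl s1 s2 b1 h t1 t2
  · exact wc10 R hT ha hl s1 s2 h b2 t1 t2

theorem wc5 {s b t k G1 G2 G3 G4 : ℝ} (R : RegB s b t k G1 G2 G3 G4) (hT : t ≤ 284 / 1000 * s) (ha : 0 ≤ 1 - h0 - t) (hl : 0 ≤ 2 * h0 - 9 / 5 + t)
    (s1 : 57 / 100 ≤ s) (s2 : s ≤ 607 / 1000)
    (b1 : 3 / 50 ≤ b) (b2 : b ≤ 15 / 40) (t1 : 647 / 10000 ≤ t) (t2 : t ≤ 862 / 10000) :
    4 * ph (s - t) - 2 * ph s ≤ (G1 + G2 + G3 + G4) / 2 := by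
  rcases le_total b (435 / 2000) with h | h
  · exact wc6 R hT ha hl s1 s2 b1 h t1 t2
  · exact wc7 R hT ha hl s1 s2 h b2 t1 t2

theorem wc3 {s b t k G1 G2 G3 G4 : ℝ} (R : RegB s b t k G1 G2 G3 G4) (hT : t ≤ 284 / 1000 * s) (ha : 0 ≤ 1 - h0 - t) (hl : 0 ≤ 2 * h0 - 9 / 5 + t)
    (s1 : 57 / 100 ≤ s) (s2 : s ≤ 607 / 1000)
    (b1 : 3 / 50 ≤ b) (b2 : b ≤ 15 / 40) (t1 : 431 / 10000 ≤ t) (t2 : t ≤ 862 / 10000) :
    4 * ph (s - t) - 2 * ph s ≤ (G1 + G2 + G3 + G4) / 2 := by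
  rcases le_total t (647 / 10000) with h | h
  · exact wc4 R hT ha hl s1 s2 b1 b2 t1 h
  · exact wc5 R hT ha hl s1 s2 b1 b2 h t2

theorem wc1 {s b t k G1 G2 G3 G4 : ℝ} (R : RegB s b t k G1 G2 G3 G4) (hT : t ≤ 284 / 1000 * s) (ha : 0 ≤ 1 - h0 - t) (hl : 0 ≤ 2 * h0 - 9 / 5 + t)
    (s1 : 57 / 100 ≤ s) (s2 : s ≤ 607 / 1000)
    (b1 : 3 / 50 ≤ b) (b2 : b ≤ 15 / 40) (t1 : 0 ≤ t) (t2 : t ≤ 862 / 10000) :
    4 * ph (s - t) - 2 * ph s ≤ (G1 + G2 + G3 + G4) / 2 := by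
  rcases le_total t (431 / 10000) with h | h
  · exact wc2 R hT ha hl s1 s2 b1 b2 t1 h
  · exact wc3 R hT ha hl s1 s2 b1 b2 h t2

theorem wc0 {s b t k G1 G2 G3 G4 : ℝ} (R : RegB s b t k G1 G2 G3 G4) (hT : t ≤ 284 / 1000 * s) (ha : 0 ≤ 1 - h0 - t) (hl : 0 ≤ 2 * h0 - 9 / 5 + t)
    (s1 : 57 / 100 ≤ s) (s2 : s ≤ 607 / 1000)
    (b1 : 3 / 50 ≤ b) (b2 : b ≤ 15 / 40) (t1 : 0 ≤ t) (t2 : t ≤ 345 / 2000) :
    4 * ph (s - t) - 2 * ph s ≤ (G1 + G2 + G3 + G4) / 2 := by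
  rcases le_total t (862 / 10000) with h | h
  · exact wc1 R hT ha hl s1 s2 b1 b2 t1 h
  · exact wc8 R hT ha hl s1 s2 b1 b2 h t2

theorem wd4 {s b t k G1 G2 G3 G4 : ℝ} (R : RegB s b t k G1 G2 G3 G4) (hT : t ≤ 284 / 1000 * s) (hl : 0 ≤ 9 / 5 - 2 * h0 - t)
    (s1 : 57 / 100 ≤ s) (s2 : s ≤ 607 / 1000)
    (b1 : 3 / 50 ≤ b) (b2 : b ≤ 1387 / 10000) (t1 : 0 ≤ t) (t2 : t ≤ 431 / 10000) :
    4 * ph (s - t) - 2 * ph s ≤ (G1 + G2 + G3 + G4) / 2 := by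
  have e1 := up (t1 := (67 / 1000)) (t2 := (68 / 1000)) (x := 1 - h0) (by norm_num)
    (by linarith only [s1, s2, b1, b2, t1, t2, R.k3, R.k4, R.h1, R.h2, R.hz, hT, hl]) (by linarith only [s1, s2, b1, b2, t1, t2, R.k3, R.k4, R.h1, R.h2, R.hz, hT, hl])
  have e2 := up (t1 := (411 / 1000)) (t2 := (444 / 1000)) (x := s - h0 + 1) (by norm_num)
    (by linarith only [s1, s2, b1, b2, t1, t2, R.k3, R.k4, R.h1, R.h2, R.hz, hT, hl]) (by linarith only [s1, s2, b1, b2, t1, t2, R.k3, R.k4, R.h1, R.h2, R.hz, hT, hl])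
  have e3 := lo (t := (276 / 1000)) (x := s - t - b / 2 - k) (by norm_num)
    (by linarith only [s1, s2, b1, b2, t1, t2, R.k3, R.k4, R.h1, R.h2, R.hz, hT, hl]) (by linarith only [s1, s2, b1, b2, t1, t2, R.k3, R.k4, R.h1, R.h2, R.hz, hT, hl])
  have e4 := lo (t := (610 / 1000)) (x := h0 - t + b / 2 - k) (by norm_num)
    (by linarith only [s1, s2, b1, b2, t1, t2, R.k3, R.k4, R.h1, R.h2, R.hz, hT, hl]) (by linarith only [s1, s2, b1, b2, t1, t2, R.k3, R.k4, R.h1, R.h2, R.hz, hT, hl])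
  have e5 := lo (t := (341 / 1000)) (x := s - t + b / 2 - k) (by norm_num)
    (by linarith only [s1, s2, b1, b2, t1, t2, R.k3, R.k4, R.h1, R.h2, R.hz, hT, hl]) (by linarith only [s1, s2, b1, b2, t1, t2, R.k3, R.k4, R.h1, R.h2, R.hz, hT, hl])
  have e6 := up (t1 := (284 / 1000)) (t2 := (339 / 1000)) (x := s - t) (by norm_num)
    (by linarith only [s1, s2, b1, b2, t1, t2, R.k3, R.k4, R.h1, R.h2, R.hz, hT, hl]) (by linarith only [s1, s2, b1, b2, t1, t2, R.k3, R.k4, R.h1, R.h2, R.hz, hT, hl])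
  have e7 := lo (t := (79 / 1000)) (x := 1 - h0 - t + b / 2 - k) (by norm_num)
    (by linarith only [s1, s2, b1, b2, t1, t2, R.k3, R.k4, R.h1, R.h2, R.hz, hT, hl]) (by linarith only [s1, s2, b1, b2, t1, t2, R.k3, R.k4, R.h1, R.h2, R.hz, hT, hl])
  have e8 := lo (t := (447 / 1000)) (x := s - h0 + 1 - t + b / 2 - k) (by norm_num)
    (by linarith only [s1, s2, b1, b2, t1, t2, R.k3, R.k4, R.h1, R.h2, R.hz, hT, hl]) (by linarith only [s1, s2, b1, b2, t1, t2, R.k3, R.k4, R.h1, R.h2, R.hz, hT, hl])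
  have e9 := lo (t := (-29 / 1000)) (x := h0 - 1 + t + b / 2 + k) (by norm_num)
    (by linarith only [s1, s2, b1, b2, t1, t2, R.k3, R.k4, R.h1, R.h2, R.hz, hT, hl]) (by linarith only [s1, s2, b1, b2, t1, t2, R.k3, R.k4, R.h1, R.h2, R.hz, hT, hl])
  have e10 := lo (t := (325 / 1000)) (x := s) (by norm_num)
    (by linarith only [s1, s2, b1, b2, t1, t2, R.k3, R.k4, R.h1, R.h2, R.hz, hT, hl]) (by linarith only [s1, s2, b1, b2, t1, t2, R.k3, R.k4, R.h1, R.h2, R.hz, hT, hl])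
  have e11 := up (t1 := (30 / 1000)) (t2 := (70 / 1000)) (x := b) (by norm_num)
    (by linarith only [s1, s2, b1, b2, t1, t2, R.k3, R.k4, R.h1, R.h2, R.hz, hT, hl]) (by linarith only [s1, s2, b1, b2, t1, t2, R.k3, R.k4, R.h1, R.h2, R.hz, hT, hl])
  have c1 := R.phs
  have c2 := R.qhh
  have c3 := R.rh2
  have c4 := R.sHH (by linarith only [e11, e10, e9, e8, e7, e6, e5, e4, e3, e2, e1, R.k1, R.k2, s1, s2, b1, b2, t1, t2, R.k3, R.k4, R.h1, R.h2, R.hz])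
  linarith only [e11, e10, e9, e8, e7, e6, e5, e4, e3, e2, e1, R.k1, R.k2, s1, s2, b1, b2, t1, t2, R.k3, R.k4, R.h1, R.h2, R.hz, R.h3, R.h4, c1, c2, c3, c4]

theorem wd5 {s b t k G1 G2 G3 G4 : ℝ} (R : RegB s b t k G1 G2 G3 G4) (hT : t ≤ 284 / 1000 * s) (hl : 0 ≤ 9 / 5 - 2 * h0 - t)
    (s1 : 57 / 100 ≤ s) (s2 : s ≤ 607 / 1000)
    (b1 : 1387 / 10000 ≤ b) (b2 : b ≤ 435 / 2000) (t1 : 0 ≤ t) (t2 : t ≤ 431 / 10000) :
    4 * ph (s - t) - 2 * ph s ≤ (G1 + G2 + G3 + G4) / 2 := by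
  have e1 := up (t1 := (67 / 1000)) (t2 := (68 / 1000)) (x := 1 - h0) (by norm_num)
    (by linarith only [s1, s2, b1, b2, t1, t2, R.k3, R.k4, R.h1, R.h2, R.hz, hT, hl]) (by linarith only [s1, s2, b1, b2, t1, t2, R.k3, R.k4, R.h1, R.h2, R.hz, hT, hl])
  have e2 := up (t1 := (411 / 1000)) (t2 := (444 / 1000)) (x := s - h0 + 1) (by norm_num)
    (by linarith only [s1, s2, b1, b2, t1, t2, R.k3, R.k4, R.h1, R.h2, R.hz, hT, hl]) (by linarith only [s1, s2, b1, b2, t1, t2, R.k3, R.k4, R.h1, R.h2, R.hz, hT, hl])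
  have e3 := lo (t := (246 / 1000)) (x := s - t - b / 2 - k) (by norm_num)
    (by linarith only [s1, s2, b1, b2, t1, t2, R.k3, R.k4, R.h1, R.h2, R.hz, hT, hl]) (by linarith only [s1, s2, b1, b2, t1, t2, R.k3, R.k4, R.h1, R.h2, R.hz, hT, hl])
  have e4 := lo (t := (659 / 1000)) (x := h0 - t + b / 2 - k) (by norm_num)
    (by linarith only [s1, s2, b1, b2, t1, t2, R.k3, R.k4, R.h1, R.h2, R.hz, hT, hl]) (by linarith only [s1, s2, b1, b2, t1, t2, R.k3, R.k4, R.h1, R.h2, R.hz, hT, hl])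
  have e5 := lo (t := (363 / 1000)) (x := s - t + b / 2 - k) (by norm_num)
    (by linarith only [s1, s2, b1, b2, t1, t2, R.k3, R.k4, R.h1, R.h2, R.hz, hT, hl]) (by linarith only [s1, s2, b1, b2, t1, t2, R.k3, R.k4, R.h1, R.h2, R.hz, hT, hl])
  have e6 := up (t1 := (284 / 1000)) (t2 := (339 / 1000)) (x := s - t) (by norm_num)
    (by linarith only [s1, s2, b1, b2, t1, t2, R.k3, R.k4, R.h1, R.h2, R.hz, hT, hl]) (by linarith only [s1, s2, b1, b2, t1, t2, R.k3, R.k4, R.h1, R.h2, R.hz, hT, hl])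
  have e7 := lo (t := (475 / 1000)) (x := s - h0 + 1 - t + b / 2 - k) (by norm_num)
    (by linarith only [s1, s2, b1, b2, t1, t2, R.k3, R.k4, R.h1, R.h2, R.hz, hT, hl]) (by linarith only [s1, s2, b1, b2, t1, t2, R.k3, R.k4, R.h1, R.h2, R.hz, hT, hl])
  have e8 := lo (t := (-4 / 1000)) (x := h0 - 1 + t + b / 2 + k) (by norm_num)
    (by linarith only [s1, s2, b1, b2, t1, t2, R.k3, R.k4, R.h1, R.h2, R.hz, hT, hl]) (by linarith only [s1, s2, b1, b2, t1, t2, R.k3, R.k4, R.h1, R.h2, R.hz, hT, hl])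
  have e9 := up (t1 := (577 / 1000)) (t2 := (642 / 1000)) (x := h0 + t) (by norm_num)
    (by linarith only [s1, s2, b1, b2, t1, t2, R.k3, R.k4, R.h1, R.h2, R.hz, hT, hl]) (by linarith only [s1, s2, b1, b2, t1, t2, R.k3, R.k4, R.h1, R.h2, R.hz, hT, hl])
  have e10 := lo (t := (325 / 1000)) (x := s) (by norm_num)
    (by linarith only [s1, s2, b1, b2, t1, t2, R.k3, R.k4, R.h1, R.h2, R.hz, hT, hl]) (by linarith only [s1, s2, b1, b2, t1, t2, R.k3, R.k4, R.h1, R.h2, R.hz, hT, hl])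
  have e11 := up (t1 := (69 / 1000)) (t2 := (111 / 1000)) (x := b) (by norm_num)
    (by linarith only [s1, s2, b1, b2, t1, t2, R.k3, R.k4, R.h1, R.h2, R.hz, hT, hl]) (by linarith only [s1, s2, b1, b2, t1, t2, R.k3, R.k4, R.h1, R.h2, R.hz, hT, hl])
  have c1 := R.phs
  have c2 := R.qhh
  have c3 := R.rh2
  have c4 := R.sHy (by linarith only [e11, e10, e9, e8, e7, e6, e5, e4, e3, e2, e1, R.k1, R.k2, s1, s2, b1, b2, t1, t2, R.k3, R.k4, R.h1, R.h2, R.hz]) hl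
  linarith only [e11, e10, e9, e8, e7, e6, e5, e4, e3, e2, e1, R.k1, R.k2, s1, s2, b1, b2, t1, t2, R.k3, R.k4, R.h1, R.h2, R.hz, R.h3, R.h4, c1, c2, c3, c4]

theorem wd8 {s b t k G1 G2 G3 G4 : ℝ} (R : RegB s b t k G1 G2 G3 G4) (hT : t ≤ 284 / 1000 * s) (hl : 0 ≤ 9 / 5 - 2 * h0 - t)
    (s1 : 57 / 100 ≤ s) (s2 : s ≤ 607 / 1000)
    (b1 : 3 / 50 ≤ b) (b2 : b ≤ 1387 / 10000) (t1 : 431 / 10000 ≤ t) (t2 : t ≤ 647 / 10000) :
    4 * ph (s - t) - 2 * ph s ≤ (G1 + G2 + G3 + G4) / 2 := by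
  have e1 := up (t1 := (67 / 1000)) (t2 := (68 / 1000)) (x := 1 - h0) (by norm_num)
    (by linarith only [s1, s2, b1, b2, t1, t2, R.k3, R.k4, R.h1, R.h2, R.hz, hT, hl]) (by linarith only [s1, s2, b1, b2, t1, t2, R.k3, R.k4, R.h1, R.h2, R.hz, hT, hl])
  have e2 := up (t1 := (411 / 1000)) (t2 := (444 / 1000)) (x := s - h0 + 1) (by norm_num)
    (by linarith only [s1, s2, b1, b2, t1, t2, R.k3, R.k4, R.h1, R.h2, R.hz, hT, hl]) (by linarith only [s1, s2, b1, b2, t1, t2, R.k3, R.k4, R.h1, R.h2, R.hz, hT, hl])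
  have e3 := lo (t := (256 / 1000)) (x := s - t - b / 2 - k) (by norm_num)
    (by linarith only [s1, s2, b1, b2, t1, t2, R.k3, R.k4, R.h1, R.h2, R.hz, hT, hl]) (by linarith only [s1, s2, b1, b2, t1, t2, R.k3, R.k4, R.h1, R.h2, R.hz, hT, hl])
  have e4 := lo (t := (565 / 1000)) (x := h0 - t + b / 2 - k) (by norm_num)
    (by linarith only [s1, s2, b1, b2, t1, t2, R.k3, R.k4, R.h1, R.h2, R.hz, hT, hl]) (by linarith only [s1, s2, b1, b2, t1, t2, R.k3, R.k4, R.h1, R.h2, R.hz, hT, hl])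
  have e5 := lo (t := (319 / 1000)) (x := s - t + b / 2 - k) (by norm_num)
    (by linarith only [s1, s2, b1, b2, t1, t2, R.k3, R.k4, R.h1, R.h2, R.hz, hT, hl]) (by linarith only [s1, s2, b1, b2, t1, t2, R.k3, R.k4, R.h1, R.h2, R.hz, hT, hl])
  have e6 := up (t1 := (271 / 1000)) (t2 := (309 / 1000)) (x := s - t) (by norm_num)
    (by linarith only [s1, s2, b1, b2, t1, t2, R.k3, R.k4, R.h1, R.h2, R.hz, hT, hl]) (by linarith only [s1, s2, b1, b2, t1, t2, R.k3, R.k4, R.h1, R.h2, R.hz, hT, hl])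
  have e7 := lo (t := (63 / 1000)) (x := 1 - h0 - t + b / 2 - k) (by norm_num)
    (by linarith only [s1, s2, b1, b2, t1, t2, R.k3, R.k4, R.h1, R.h2, R.hz, hT, hl]) (by linarith only [s1, s2, b1, b2, t1, t2, R.k3, R.k4, R.h1, R.h2, R.hz, hT, hl])
  have e8 := lo (t := (419 / 1000)) (x := s - h0 + 1 - t + b / 2 - k) (by norm_num)
    (by linarith only [s1, s2, b1, b2, t1, t2, R.k3, R.k4, R.h1, R.h2, R.hz, hT, hl]) (by linarith only [s1, s2, b1, b2, t1, t2, R.k3, R.k4, R.h1, R.h2, R.hz, hT, hl])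
  have e9 := lo (t := (-13 / 1000)) (x := h0 - 1 + t + b / 2 + k) (by norm_num)
    (by linarith only [s1, s2, b1, b2, t1, t2, R.k3, R.k4, R.h1, R.h2, R.hz, hT, hl]) (by linarith only [s1, s2, b1, b2, t1, t2, R.k3, R.k4, R.h1, R.h2, R.hz, hT, hl])
  have e10 := lo (t := (325 / 1000)) (x := s) (by norm_num)
    (by linarith only [s1, s2, b1, b2, t1, t2, R.k3, R.k4, R.h1, R.h2, R.hz, hT, hl]) (by linarith only [s1, s2, b1, b2, t1, t2, R.k3, R.k4, R.h1, R.h2, R.hz, hT, hl])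
  have e11 := up (t1 := (30 / 1000)) (t2 := (70 / 1000)) (x := b) (by norm_num)
    (by linarith only [s1, s2, b1, b2, t1, t2, R.k3, R.k4, R.h1, R.h2, R.hz, hT, hl]) (by linarith only [s1, s2, b1, b2, t1, t2, R.k3, R.k4, R.h1, R.h2, R.hz, hT, hl])
  have c1 := R.phs
  have c2 := R.qhh
  have c3 := R.rh2
  have c4 := R.sHH (by linarith only [e11, e10, e9, e8, e7, e6, e5, e4, e3, e2, e1, R.k1, R.k2, s1, s2, b1, b2, t1, t2, R.k3, R.k4, R.h1, R.h2, R.hz])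
  linarith only [e11, e10, e9, e8, e7, e6, e5, e4, e3, e2, e1, R.k1, R.k2, s1, s2, b1, b2, t1, t2, R.k3, R.k4, R.h1, R.h2, R.hz, R.h3, R.h4, c1, c2, c3, c4]

theorem wd9 {s b t k G1 G2 G3 G4 : ℝ} (R : RegB s b t k G1 G2 G3 G4) (hT : t ≤ 284 / 1000 * s) (hl : 0 ≤ 9 / 5 - 2 * h0 - t)
    (s1 : 57 / 100 ≤ s) (s2 : s ≤ 607 / 1000)
    (b1 : 1387 / 10000 ≤ b) (b2 : b ≤ 435 / 2000) (t1 : 431 / 10000 ≤ t) (t2 : t ≤ 647 / 10000) :
    4 * ph (s - t) - 2 * ph s ≤ (G1 + G2 + G3 + G4) / 2 := by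
  have e1 := up (t1 := (67 / 1000)) (t2 := (68 / 1000)) (x := 1 - h0) (by norm_num)
    (by linarith only [s1, s2, b1, b2, t1, t2, R.k3, R.k4, R.h1, R.h2, R.hz, hT, hl]) (by linarith only [s1, s2, b1, b2, t1, t2, R.k3, R.k4, R.h1, R.h2, R.hz, hT, hl])
  have e2 := lo (t := (240 / 1000)) (x := h0 + s - 1) (by norm_num)
    (by linarith only [s1, s2, b1, b2, t1, t2, R.k3, R.k4, R.h1, R.h2, R.hz, hT, hl]) (by linarith only [s1, s2, b1, b2, t1, t2, R.k3, R.k4, R.h1, R.h2, R.hz, hT, hl])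
  have e3 := lo (t := (227 / 1000)) (x := s - t - b / 2 - k) (by norm_num)
    (by linarith only [s1, s2, b1, b2, t1, t2, R.k3, R.k4, R.h1, R.h2, R.hz, hT, hl]) (by linarith only [s1, s2, b1, b2, t1, t2, R.k3, R.k4, R.h1, R.h2, R.hz, hT, hl])
  have e4 := lo (t := (606 / 1000)) (x := h0 - t + b / 2 - k) (by norm_num)
    (by linarith only [s1, s2, b1, b2, t1, t2, R.k3, R.k4, R.h1, R.h2, R.hz, hT, hl]) (by linarith only [s1, s2, b1, b2, t1, t2, R.k3, R.k4, R.h1, R.h2, R.hz, hT, hl])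
  have e5 := lo (t := (340 / 1000)) (x := s - t + b / 2 - k) (by norm_num)
    (by linarith only [s1, s2, b1, b2, t1, t2, R.k3, R.k4, R.h1, R.h2, R.hz, hT, hl]) (by linarith only [s1, s2, b1, b2, t1, t2, R.k3, R.k4, R.h1, R.h2, R.hz, hT, hl])
  have e6 := up (t1 := (271 / 1000)) (t2 := (309 / 1000)) (x := s - t) (by norm_num)
    (by linarith only [s1, s2, b1, b2, t1, t2, R.k3, R.k4, R.h1, R.h2, R.hz, hT, hl]) (by linarith only [s1, s2, b1, b2, t1, t2, R.k3, R.k4, R.h1, R.h2, R.hz, hT, hl])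
  have e7 := lo (t := (12 / 1000)) (x := h0 - 1 + t + b / 2 + k) (by norm_num)
    (by linarith only [s1, s2, b1, b2, t1, t2, R.k3, R.k4, R.h1, R.h2, R.hz, hT, hl]) (by linarith only [s1, s2, b1, b2, t1, t2, R.k3, R.k4, R.h1, R.h2, R.hz, hT, hl])
  have e8 := up (t1 := (641 / 1000)) (t2 := (682 / 1000)) (x := h0 + t) (by norm_num)
    (by linarith only [s1, s2, b1, b2, t1, t2, R.k3, R.k4, R.h1, R.h2, R.hz, hT, hl]) (by linarith only [s1, s2, b1, b2, t1, t2, R.k3, R.k4, R.h1, R.h2, R.hz, hT, hl])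
  have e9 := lo (t := (325 / 1000)) (x := s) (by norm_num)
    (by linarith only [s1, s2, b1, b2, t1, t2, R.k3, R.k4, R.h1, R.h2, R.hz, hT, hl]) (by linarith only [s1, s2, b1, b2, t1, t2, R.k3, R.k4, R.h1, R.h2, R.hz, hT, hl])
  have e10 := up (t1 := (69 / 1000)) (t2 := (111 / 1000)) (x := b) (by norm_num)
    (by linarith only [s1, s2, b1, b2, t1, t2, R.k3, R.k4, R.h1, R.h2, R.hz, hT, hl]) (by linarith only [s1, s2, b1, b2, t1, t2, R.k3, R.k4, R.h1, R.h2, R.hz, hT, hl])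
  have c1 := R.phs
  have c2 := R.qhh
  have c4 := R.sHy (by linarith only [e10, e9, e8, e7, e6, e5, e4, e3, e2, e1, R.k1, R.k2, s1, s2, b1, b2, t1, t2, R.k3, R.k4, R.h1, R.h2, R.hz]) hl
  linarith only [e10, e9, e8, e7, e6, e5, e4, e3, e2, e1, R.k1, R.k2, s1, s2, b1, b2, t1, t2, R.k3, R.k4, R.h1, R.h2, R.hz, R.h3, R.h4, c1, c2, R.n3, c4]

theorem wd10 {s b t k G1 G2 G3 G4 : ℝ} (R : RegB s b t k G1 G2 G3 G4) (hT : t ≤ 284 / 1000 * s) (hl : 0 ≤ 9 / 5 - 2 * h0 - t)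
    (s1 : 57 / 100 ≤ s) (s2 : s ≤ 607 / 1000)
    (b1 : 3 / 50 ≤ b) (b2 : b ≤ 435 / 2000) (t1 : 647 / 10000 ≤ t) (t2 : t ≤ 862 / 10000) :
    4 * ph (s - t) - 2 * ph s ≤ (G1 + G2 + G3 + G4) / 2 := by
  have e1 := up (t1 := (67 / 1000)) (t2 := (68 / 1000)) (x := 1 - h0) (by norm_num)
    (by linarith only [s1, s2, b1, b2, t1, t2, R.k3, R.k4, R.h1, R.h2, R.hz, hT, hl]) (by linarith only [s1, s2, b1, b2, t1, t2, R.k3, R.k4, R.h1, R.h2, R.hz, hT, hl])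
  have e2 := lo (t := (240 / 1000)) (x := h0 + s - 1) (by norm_num)
    (by linarith only [s1, s2, b1, b2, t1, t2, R.k3, R.k4, R.h1, R.h2, R.hz, hT, hl]) (by linarith only [s1, s2, b1, b2, t1, t2, R.k3, R.k4, R.h1, R.h2, R.hz, hT, hl])
  have e3 := lo (t := (227 / 1000)) (x := s - t - b / 2 - k) (by norm_num)
    (by linarith only [s1, s2, b1, b2, t1, t2, R.k3, R.k4, R.h1, R.h2, R.hz, hT, hl]) (by linarith only [s1, s2, b1, b2, t1, t2, R.k3, R.k4, R.h1, R.h2, R.hz, hT, hl])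
  have e4 := lo (t := (555 / 1000)) (x := h0 - t + b / 2 - k) (by norm_num)
    (by linarith only [s1, s2, b1, b2, t1, t2, R.k3, R.k4, R.h1, R.h2, R.hz, hT, hl]) (by linarith only [s1, s2, b1, b2, t1, t2, R.k3, R.k4, R.h1, R.h2, R.hz, hT, hl])
  have e5 := lo (t := (314 / 1000)) (x := s - t + b / 2 - k) (by norm_num)
    (by linarith only [s1, s2, b1, b2, t1, t2, R.k3, R.k4, R.h1, R.h2, R.hz, hT, hl]) (by linarith only [s1, s2, b1, b2, t1, t2, R.k3, R.k4, R.h1, R.h2, R.hz, hT, hl])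
  have e6 := up (t1 := (258 / 1000)) (t2 := (295 / 1000)) (x := s - t) (by norm_num)
    (by linarith only [s1, s2, b1, b2, t1, t2, R.k3, R.k4, R.h1, R.h2, R.hz, hT, hl]) (by linarith only [s1, s2, b1, b2, t1, t2, R.k3, R.k4, R.h1, R.h2, R.hz, hT, hl])
  have e7 := lo (t := (325 / 1000)) (x := s) (by norm_num)
    (by linarith only [s1, s2, b1, b2, t1, t2, R.k3, R.k4, R.h1, R.h2, R.hz, hT, hl]) (by linarith only [s1, s2, b1, b2, t1, t2, R.k3, R.k4, R.h1, R.h2, R.hz, hT, hl])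
  have e8 := up (t1 := (30 / 1000)) (t2 := (111 / 1000)) (x := b) (by norm_num)
    (by linarith only [s1, s2, b1, b2, t1, t2, R.k3, R.k4, R.h1, R.h2, R.hz, hT, hl]) (by linarith only [s1, s2, b1, b2, t1, t2, R.k3, R.k4, R.h1, R.h2, R.hz, hT, hl])
  have c1 := R.phs
  have c2 := R.qhh
  linarith only [e8, e7, e6, e5, e4, e3, e2, e1, R.k1, R.k2, s1, s2, b1, b2, t1, t2, R.k3, R.k4, R.h1, R.h2, R.hz, R.h3, R.h4, c1, c2, R.n3, R.n4]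

theorem wd11 {s b t k G1 G2 G3 G4 : ℝ} (R : RegB s b t k G1 G2 G3 G4) (hT : t ≤ 284 / 1000 * s) (hl : 0 ≤ 9 / 5 - 2 * h0 - t)
    (s1 : 57 / 100 ≤ s) (s2 : s ≤ 607 / 1000)
    (b1 : 435 / 2000 ≤ b) (b2 : b ≤ 15 / 40) (t1 : 0 ≤ t) (t2 : t ≤ 862 / 10000) :
    4 * ph (s - t) - 2 * ph s ≤ (G1 + G2 + G3 + G4) / 2 := by
  have e1 := up (t1 := (67 / 1000)) (t2 := (68 / 1000)) (x := 1 - h0) (by norm_num)
    (by linarith only [s1, s2, b1, b2, t1, t2, R.k3, R.k4, R.h1, R.h2, R.hz, hT, hl]) (by linarith only [s1, s2, b1, b2, t1, t2, R.k3, R.k4, R.h1, R.h2, R.hz, hT, hl])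
  have e2 := up (t1 := (411 / 1000)) (t2 := (444 / 1000)) (x := s - h0 + 1) (by norm_num)
    (by linarith only [s1, s2, b1, b2, t1, t2, R.k3, R.k4, R.h1, R.h2, R.hz, hT, hl]) (by linarith only [s1, s2, b1, b2, t1, t2, R.k3, R.k4, R.h1, R.h2, R.hz, hT, hl])
  have e3 := lo (t := (184 / 1000)) (x := s - t - b / 2 - k) (by norm_num)
    (by linarith only [s1, s2, b1, b2, t1, t2, R.k3, R.k4, R.h1, R.h2, R.hz, hT, hl]) (by linarith only [s1, s2, b1, b2, t1, t2, R.k3, R.k4, R.h1, R.h2, R.hz, hT, hl])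
  have e4 := lo (t := (279 / 1000)) (x := h0 + s - 1 - t + b / 2 - k) (by norm_num)
    (by linarith only [s1, s2, b1, b2, t1, t2, R.k3, R.k4, R.h1, R.h2, R.hz, hT, hl]) (by linarith only [s1, s2, b1, b2, t1, t2, R.k3, R.k4, R.h1, R.h2, R.hz, hT, hl])
  have e5 := lo (t := (118 / 1000)) (x := t + b / 2 + k) (by norm_num)
    (by linarith only [s1, s2, b1, b2, t1, t2, R.k3, R.k4, R.h1, R.h2, R.hz, hT, hl]) (by linarith only [s1, s2, b1, b2, t1, t2, R.k3, R.k4, R.h1, R.h2, R.hz, hT, hl])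
  have e6 := lo (t := (370 / 1000)) (x := s - t + b / 2 - k) (by norm_num)
    (by linarith only [s1, s2, b1, b2, t1, t2, R.k3, R.k4, R.h1, R.h2, R.hz, hT, hl]) (by linarith only [s1, s2, b1, b2, t1, t2, R.k3, R.k4, R.h1, R.h2, R.hz, hT, hl])
  have e7 := up (t1 := (258 / 1000)) (t2 := (339 / 1000)) (x := s - t) (by norm_num)
    (by linarith only [s1, s2, b1, b2, t1, t2, R.k3, R.k4, R.h1, R.h2, R.hz, hT, hl]) (by linarith only [s1, s2, b1, b2, t1, t2, R.k3, R.k4, R.h1, R.h2, R.hz, hT, hl])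
  have e8 := lo (t := (485 / 1000)) (x := s - h0 + 1 - t + b / 2 - k) (by norm_num)
    (by linarith only [s1, s2, b1, b2, t1, t2, R.k3, R.k4, R.h1, R.h2, R.hz, hT, hl]) (by linarith only [s1, s2, b1, b2, t1, t2, R.k3, R.k4, R.h1, R.h2, R.hz, hT, hl])
  have e9 := up (t1 := (577 / 1000)) (t2 := (730 / 1000)) (x := h0 + t) (by norm_num)
    (by linarith only [s1, s2, b1, b2, t1, t2, R.k3, R.k4, R.h1, R.h2, R.hz, hT, hl]) (by linarith only [s1, s2, b1, b2, t1, t2, R.k3, R.k4, R.h1, R.h2, R.hz, hT, hl])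
  have e10 := lo (t := (325 / 1000)) (x := s) (by norm_num)
    (by linarith only [s1, s2, b1, b2, t1, t2, R.k3, R.k4, R.h1, R.h2, R.hz, hT, hl]) (by linarith only [s1, s2, b1, b2, t1, t2, R.k3, R.k4, R.h1, R.h2, R.hz, hT, hl])
  have e11 := up (t1 := (110 / 1000)) (t2 := (195 / 1000)) (x := b) (by norm_num)
    (by linarith only [s1, s2, b1, b2, t1, t2, R.k3, R.k4, R.h1, R.h2, R.hz, hT, hl]) (by linarith only [s1, s2, b1, b2, t1, t2, R.k3, R.k4, R.h1, R.h2, R.hz, hT, hl])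
  have c1 := R.ph1
  have c2 := R.qhh
  have c3 := R.rv2 (by linarith only [e11, e10, e9, e8, e7, e6, e5, e4, e3, e2, e1, R.k1, R.k2, s1, s2, b1, b2, t1, t2, R.k3, R.k4, R.h1, R.h2, R.hz])
  have c4 := R.svy (by linarith only [e11, e10, e9, e8, e7, e6, e5, e4, e3, e2, e1, R.k1, R.k2, s1, s2, b1, b2, t1, t2, R.k3, R.k4, R.h1, R.h2, R.hz]) hl
  linarith only [e11, e10, e9, e8, e7, e6, e5, e4, e3, e2, e1, R.k1, R.k2, s1, s2, b1, b2, t1, t2, R.k3, R.k4, R.h1, R.h2, R.hz, R.h3, R.h4, c1, c2, c3, c4]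

theorem wd12 {s b t k G1 G2 G3 G4 : ℝ} (R : RegB s b t k G1 G2 G3 G4) (hT : t ≤ 284 / 1000 * s) (hl : 0 ≤ 9 / 5 - 2 * h0 - t)
    (s1 : 57 / 100 ≤ s) (s2 : s ≤ 607 / 1000)
    (b1 : 3 / 50 ≤ b) (b2 : b ≤ 15 / 40) (t1 : 862 / 10000 ≤ t) (t2 : t ≤ 345 / 2000) :
    4 * ph (s - t) - 2 * ph s ≤ (G1 + G2 + G3 + G4) / 2 := by
  exfalso
  linarith only [R.k1, R.k2, s1, s2, b1, b2, t1, t2, R.k3, R.k4, R.h1, R.h2, R.hz, hl]

theorem wd7 {s b t k G1 G2 G3 G4 : ℝ} (R : RegB s b t k G1 G2 G3 G4) (hT : t ≤ 284 / 1000 * s) (hl : 0 ≤ 9 / 5 - 2 * h0 - t)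
    (s1 : 57 / 100 ≤ s) (s2 : s ≤ 607 / 1000)
    (b1 : 3 / 50 ≤ b) (b2 : b ≤ 435 / 2000) (t1 : 431 / 10000 ≤ t) (t2 : t ≤ 647 / 10000) :
    4 * ph (s - t) - 2 * ph s ≤ (G1 + G2 + G3 + G4) / 2 := by
  rcases le_total b (1387 / 10000) with h | h
  · exact wd8 R hT hl s1 s2 b1 h t1 t2
  · exact wd9 R hT hl s1 s2 h b2 t1 t2

theorem wd6 {s b t k G1 G2 G3 G4 : ℝ} (R : RegB s b t k G1 G2 G3 G4) (hT : t ≤ 284 / 1000 * s) (hl : 0 ≤ 9 / 5 - 2 * h0 - t)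
    (s1 : 57 / 100 ≤ s) (s2 : s ≤ 607 / 1000)
    (b1 : 3 / 50 ≤ b) (b2 : b ≤ 435 / 2000) (t1 : 431 / 10000 ≤ t) (t2 : t ≤ 862 / 10000) :
    4 * ph (s - t) - 2 * ph s ≤ (G1 + G2 + G3 + G4) / 2 := by
  rcases le_total t (647 / 10000) with h | h
  · exact wd7 R hT hl s1 s2 b1 b2 t1 h
  · exact wd10 R hT hl s1 s2 b1 b2 h t2

theorem wd3 {s b t k G1 G2 G3 G4 : ℝ} (R : RegB s b t k G1 G2 G3 G4) (hT : t ≤ 284 / 1000 * s) (hl : 0 ≤ 9 / 5 - 2 * h0 - t)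
    (s1 : 57 / 100 ≤ s) (s2 : s ≤ 607 / 1000)
    (b1 : 3 / 50 ≤ b) (b2 : b ≤ 435 / 2000) (t1 : 0 ≤ t) (t2 : t ≤ 431 / 10000) :
    4 * ph (s - t) - 2 * ph s ≤ (G1 + G2 + G3 + G4) / 2 := by
  rcases le_total b (1387 / 10000) with h | h
  · exact wd4 R hT hl s1 s2 b1 h t1 t2
  · exact wd5 R hT hl s1 s2 h b2 t1 t2

theorem wd2 {s b t k G1 G2 G3 G4 : ℝ} (R : RegB s b t k G1 G2 G3 G4) (hT : t ≤ 284 / 1000 * s) (hl : 0 ≤ 9 / 5 - 2 * h0 - t)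
    (s1 : 57 / 100 ≤ s) (s2 : s ≤ 607 / 1000)
    (b1 : 3 / 50 ≤ b) (b2 : b ≤ 435 / 2000) (t1 : 0 ≤ t) (t2 : t ≤ 862 / 10000) :
    4 * ph (s - t) - 2 * ph s ≤ (G1 + G2 + G3 + G4) / 2 := by
  rcases le_total t (431 / 10000) with h | h
  · exact wd3 R hT hl s1 s2 b1 b2 t1 h
  · exact wd6 R hT hl s1 s2 b1 b2 h t2

theorem wd1 {s b t k G1 G2 G3 G4 : ℝ} (R : RegB s b t k G1 G2 G3 G4) (hT : t ≤ 284 / 1000 * s) (hl : 0 ≤ 9 / 5 - 2 * h0 - t)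
    (s1 : 57 / 100 ≤ s) (s2 : s ≤ 607 / 1000)
    (b1 : 3 / 50 ≤ b) (b2 : b ≤ 15 / 40) (t1 : 0 ≤ t) (t2 : t ≤ 862 / 10000) :
    4 * ph (s - t) - 2 * ph s ≤ (G1 + G2 + G3 + G4) / 2 := by
  rcases le_total b (435 / 2000) with h | h
  · exact wd2 R hT hl s1 s2 b1 h t1 t2
  · exact wd11 R hT hl s1 s2 h b2 t1 t2

theorem wd0 {s b t k G1 G2 G3 G4 : ℝ} (R : RegB s b t k G1 G2 G3 G4) (hT : t ≤ 284 / 1000 * s) (hl : 0 ≤ 9 / 5 - 2 * h0 - t)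
    (s1 : 57 / 100 ≤ s) (s2 : s ≤ 607 / 1000)
    (b1 : 3 / 50 ≤ b) (b2 : b ≤ 15 / 40) (t1 : 0 ≤ t) (t2 : t ≤ 345 / 2000) :
    4 * ph (s - t) - 2 * ph s ≤ (G1 + G2 + G3 + G4) / 2 := by
  rcases le_total t (862 / 10000) with h | h
  · exact wd1 R hT hl s1 s2 b1 b2 t1 h
  · exact wd12 R hT hl s1 s2 b1 b2 h t2

theorem wy2 {s b t k G1 G2 G3 G4 : ℝ} (R : RegB s b t k G1 G2 G3 G4) (hT : t ≤ 284 / 1000 * s)
    (s1 : 57 / 100 ≤ s) (s2 : s ≤ 607 / 1000)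
    (b1 : 0 ≤ b) (b2 : b ≤ 3 / 50) (t1 : 1 / 50 ≤ t) (t2 : t ≤ 581 / 10000) :
    4 * ph (s - t) - 2 * ph s ≤ (G1 + G2 + G3 + G4) / 2 := by
  have e1 := up (t1 := (67 / 1000)) (t2 := (68 / 1000)) (x := 1 - h0) (by norm_num)
    (by linarith only [s1, s2, b1, b2, t1, t2, R.k3, R.k4, R.h1, R.h2, R.hz, hT]) (by linarith only [s1, s2, b1, b2, t1, t2, R.k3, R.k4, R.h1, R.h2, R.hz, hT])
  have e2 := up (t1 := (229 / 1000)) (t2 := (252 / 1000)) (x := h0 + s - 1) (by norm_num)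
    (by linarith only [s1, s2, b1, b2, t1, t2, R.k3, R.k4, R.h1, R.h2, R.hz, hT]) (by linarith only [s1, s2, b1, b2, t1, t2, R.k3, R.k4, R.h1, R.h2, R.hz, hT])
  have e3 := up (t1 := (411 / 1000)) (t2 := (444 / 1000)) (x := s - h0 + 1) (by norm_num)
    (by linarith only [s1, s2, b1, b2, t1, t2, R.k3, R.k4, R.h1, R.h2, R.hz, hT]) (by linarith only [s1, s2, b1, b2, t1, t2, R.k3, R.k4, R.h1, R.h2, R.hz, hT])
  have e4 := lo (t := (289 / 1000)) (x := s - t - b / 2 - k) (by norm_num)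
    (by linarith only [s1, s2, b1, b2, t1, t2, R.k3, R.k4, R.h1, R.h2, R.hz, hT]) (by linarith only [s1, s2, b1, b2, t1, t2, R.k3, R.k4, R.h1, R.h2, R.hz, hT])
  have e5 := lo (t := (226 / 1000)) (x := h0 + s - 1 - t + b / 2 - k) (by norm_num)
    (by linarith only [s1, s2, b1, b2, t1, t2, R.k3, R.k4, R.h1, R.h2, R.hz, hT]) (by linarith only [s1, s2, b1, b2, t1, t2, R.k3, R.k4, R.h1, R.h2, R.hz, hT])
  have e6 := lo (t := (309 / 1000)) (x := s - t + b / 2 - k) (by norm_num)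
    (by linarith only [s1, s2, b1, b2, t1, t2, R.k3, R.k4, R.h1, R.h2, R.hz, hT]) (by linarith only [s1, s2, b1, b2, t1, t2, R.k3, R.k4, R.h1, R.h2, R.hz, hT])
  have e7 := up (t1 := (275 / 1000)) (t2 := (325 / 1000)) (x := s - t) (by norm_num)
    (by linarith only [s1, s2, b1, b2, t1, t2, R.k3, R.k4, R.h1, R.h2, R.hz, hT]) (by linarith only [s1, s2, b1, b2, t1, t2, R.k3, R.k4, R.h1, R.h2, R.hz, hT])
  have e8 := lo (t := (55 / 1000)) (x := 1 - h0 - t + b / 2 - k) (by norm_num)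
    (by linarith only [s1, s2, b1, b2, t1, t2, R.k3, R.k4, R.h1, R.h2, R.hz, hT]) (by linarith only [s1, s2, b1, b2, t1, t2, R.k3, R.k4, R.h1, R.h2, R.hz, hT])
  have e9 := lo (t := (406 / 1000)) (x := s - h0 + 1 - t + b / 2 - k) (by norm_num)
    (by linarith only [s1, s2, b1, b2, t1, t2, R.k3, R.k4, R.h1, R.h2, R.hz, hT]) (by linarith only [s1, s2, b1, b2, t1, t2, R.k3, R.k4, R.h1, R.h2, R.hz, hT])
  have e10 := lo (t := (-40 / 1000)) (x := h0 - 1 + t + b / 2 + k) (by norm_num)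
    (by linarith only [s1, s2, b1, b2, t1, t2, R.k3, R.k4, R.h1, R.h2, R.hz, hT]) (by linarith only [s1, s2, b1, b2, t1, t2, R.k3, R.k4, R.h1, R.h2, R.hz, hT])
  have e11 := lo (t := (325 / 1000)) (x := s) (by norm_num)
    (by linarith only [s1, s2, b1, b2, t1, t2, R.k3, R.k4, R.h1, R.h2, R.hz, hT]) (by linarith only [s1, s2, b1, b2, t1, t2, R.k3, R.k4, R.h1, R.h2, R.hz, hT])
  have e12 := up (t1 := (0 / 1000)) (t2 := (31 / 1000)) (x := b) (by norm_num)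
    (by linarith only [s1, s2, b1, b2, t1, t2, R.k3, R.k4, R.h1, R.h2, R.hz, hT]) (by linarith only [s1, s2, b1, b2, t1, t2, R.k3, R.k4, R.h1, R.h2, R.hz, hT])
  have c1 := R.ph1
  have c2 := R.qhh
  have c3 := R.rh2
  have c4 := R.sHH (by linarith only [e12, e11, e10, e9, e8, e7, e6, e5, e4, e3, e2, e1, R.k1, R.k2, s1, s2, b1, b2, t1, t2, R.k3, R.k4, R.h1, R.h2, R.hz])
  linarith only [e12, e11, e10, e9, e8, e7, e6, e5, e4, e3, e2, e1, R.k1, R.k2, s1, s2, b1, b2, t1, t2, R.k3, R.k4, R.h1, R.h2, R.hz, R.h3, R.h4, c1, c2, c3, c4]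

theorem wy3 {s b t k G1 G2 G3 G4 : ℝ} (R : RegB s b t k G1 G2 G3 G4) (hT : t ≤ 284 / 1000 * s)
    (s1 : 57 / 100 ≤ s) (s2 : s ≤ 607 / 1000)
    (b1 : 0 ≤ b) (b2 : b ≤ 3 / 50) (t1 : 581 / 10000 ≤ t) (t2 : t ≤ 962 / 10000) :
    4 * ph (s - t) - 2 * ph s ≤ (G1 + G2 + G3 + G4) / 2 := by
  have e1 := up (t1 := (67 / 1000)) (t2 := (68 / 1000)) (x := 1 - h0) (by norm_num)
    (by linarith only [s1, s2, b1, b2, t1, t2, R.k3, R.k4, R.h1, R.h2, R.hz, hT]) (by linarith only [s1, s2, b1, b2, t1, t2, R.k3, R.k4, R.h1, R.h2, R.hz, hT])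
  have e2 := up (t1 := (229 / 1000)) (t2 := (252 / 1000)) (x := h0 + s - 1) (by norm_num)
    (by linarith only [s1, s2, b1, b2, t1, t2, R.k3, R.k4, R.h1, R.h2, R.hz, hT]) (by linarith only [s1, s2, b1, b2, t1, t2, R.k3, R.k4, R.h1, R.h2, R.hz, hT])
  have e3 := lo (t := (265 / 1000)) (x := s - t - b / 2 - k) (by norm_num)
    (by linarith only [s1, s2, b1, b2, t1, t2, R.k3, R.k4, R.h1, R.h2, R.hz, hT]) (by linarith only [s1, s2, b1, b2, t1, t2, R.k3, R.k4, R.h1, R.h2, R.hz, hT])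
  have e4 := lo (t := (204 / 1000)) (x := h0 + s - 1 - t + b / 2 - k) (by norm_num)
    (by linarith only [s1, s2, b1, b2, t1, t2, R.k3, R.k4, R.h1, R.h2, R.hz, hT]) (by linarith only [s1, s2, b1, b2, t1, t2, R.k3, R.k4, R.h1, R.h2, R.hz, hT])
  have e5 := lo (t := (284 / 1000)) (x := s - t + b / 2 - k) (by norm_num)
    (by linarith only [s1, s2, b1, b2, t1, t2, R.k3, R.k4, R.h1, R.h2, R.hz, hT]) (by linarith only [s1, s2, b1, b2, t1, t2, R.k3, R.k4, R.h1, R.h2, R.hz, hT])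
  have e6 := up (t1 := (251 / 1000)) (t2 := (299 / 1000)) (x := s - t) (by norm_num)
    (by linarith only [s1, s2, b1, b2, t1, t2, R.k3, R.k4, R.h1, R.h2, R.hz, hT]) (by linarith only [s1, s2, b1, b2, t1, t2, R.k3, R.k4, R.h1, R.h2, R.hz, hT])
  have e7 := lo (t := (36 / 1000)) (x := 1 - h0 - t + b / 2 - k) (by norm_num)
    (by linarith only [s1, s2, b1, b2, t1, t2, R.k3, R.k4, R.h1, R.h2, R.hz, hT]) (by linarith only [s1, s2, b1, b2, t1, t2, R.k3, R.k4, R.h1, R.h2, R.hz, hT])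
  have e8 := lo (t := (-21 / 1000)) (x := h0 - 1 + t + b / 2 + k) (by norm_num)
    (by linarith only [s1, s2, b1, b2, t1, t2, R.k3, R.k4, R.h1, R.h2, R.hz, hT]) (by linarith only [s1, s2, b1, b2, t1, t2, R.k3, R.k4, R.h1, R.h2, R.hz, hT])
  have e9 := lo (t := (325 / 1000)) (x := s) (by norm_num)
    (by linarith only [s1, s2, b1, b2, t1, t2, R.k3, R.k4, R.h1, R.h2, R.hz, hT]) (by linarith only [s1, s2, b1, b2, t1, t2, R.k3, R.k4, R.h1, R.h2, R.hz, hT])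
  have e10 := up (t1 := (0 / 1000)) (t2 := (31 / 1000)) (x := b) (by norm_num)
    (by linarith only [s1, s2, b1, b2, t1, t2, R.k3, R.k4, R.h1, R.h2, R.hz, hT]) (by linarith only [s1, s2, b1, b2, t1, t2, R.k3, R.k4, R.h1, R.h2, R.hz, hT])
  have c1 := R.ph1
  have c2 := R.qhh
  have c3 := R.rh1
  have c4 := R.sHH (by linarith only [e10, e9, e8, e7, e6, e5, e4, e3, e2, e1, R.k1, R.k2, s1, s2, b1, b2, t1, t2, R.k3, R.k4, R.h1, R.h2, R.hz])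
  linarith only [e10, e9, e8, e7, e6, e5, e4, e3, e2, e1, R.k1, R.k2, s1, s2, b1, b2, t1, t2, R.k3, R.k4, R.h1, R.h2, R.hz, R.h3, R.h4, c1, c2, c3, c4]

theorem wy4 {s b t k G1 G2 G3 G4 : ℝ} (R : RegB s b t k G1 G2 G3 G4) (hT : t ≤ 284 / 1000 * s)
    (s1 : 57 / 100 ≤ s) (s2 : s ≤ 607 / 1000)
    (b1 : 0 ≤ b) (b2 : b ≤ 3 / 50) (t1 : 962 / 10000 ≤ t) (t2 : t ≤ 345 / 2000) :
    4 * ph (s - t) - 2 * ph s ≤ (G1 + G2 + G3 + G4) / 2 := by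
  have e1 := up (t1 := (67 / 1000)) (t2 := (68 / 1000)) (x := 1 - h0) (by norm_num)
    (by linarith only [s1, s2, b1, b2, t1, t2, R.k3, R.k4, R.h1, R.h2, R.hz, hT]) (by linarith only [s1, s2, b1, b2, t1, t2, R.k3, R.k4, R.h1, R.h2, R.hz, hT])
  have e2 := up (t1 := (229 / 1000)) (t2 := (252 / 1000)) (x := h0 + s - 1) (by norm_num)
    (by linarith only [s1, s2, b1, b2, t1, t2, R.k3, R.k4, R.h1, R.h2, R.hz, hT]) (by linarith only [s1, s2, b1, b2, t1, t2, R.k3, R.k4, R.h1, R.h2, R.hz, hT])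
  have e3 := lo (t := (231 / 1000)) (x := s - t - b / 2 - k) (by norm_num)
    (by linarith only [s1, s2, b1, b2, t1, t2, R.k3, R.k4, R.h1, R.h2, R.hz, hT]) (by linarith only [s1, s2, b1, b2, t1, t2, R.k3, R.k4, R.h1, R.h2, R.hz, hT])
  have e4 := lo (t := (172 / 1000)) (x := h0 + s - 1 - t + b / 2 - k) (by norm_num)
    (by linarith only [s1, s2, b1, b2, t1, t2, R.k3, R.k4, R.h1, R.h2, R.hz, hT]) (by linarith only [s1, s2, b1, b2, t1, t2, R.k3, R.k4, R.h1, R.h2, R.hz, hT])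
  have e5 := lo (t := (249 / 1000)) (x := s - t + b / 2 - k) (by norm_num)
    (by linarith only [s1, s2, b1, b2, t1, t2, R.k3, R.k4, R.h1, R.h2, R.hz, hT]) (by linarith only [s1, s2, b1, b2, t1, t2, R.k3, R.k4, R.h1, R.h2, R.hz, hT])
  have e6 := up (t1 := (207 / 1000)) (t2 := (275 / 1000)) (x := s - t) (by norm_num)
    (by linarith only [s1, s2, b1, b2, t1, t2, R.k3, R.k4, R.h1, R.h2, R.hz, hT]) (by linarith only [s1, s2, b1, b2, t1, t2, R.k3, R.k4, R.h1, R.h2, R.hz, hT])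
  have e7 := lo (t := (7 / 1000)) (x := 1 - h0 - t + b / 2 - k) (by norm_num)
    (by linarith only [s1, s2, b1, b2, t1, t2, R.k3, R.k4, R.h1, R.h2, R.hz, hT]) (by linarith only [s1, s2, b1, b2, t1, t2, R.k3, R.k4, R.h1, R.h2, R.hz, hT])
  have e8 := lo (t := (325 / 1000)) (x := s) (by norm_num)
    (by linarith only [s1, s2, b1, b2, t1, t2, R.k3, R.k4, R.h1, R.h2, R.hz, hT]) (by linarith only [s1, s2, b1, b2, t1, t2, R.k3, R.k4, R.h1, R.h2, R.hz, hT])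
  have e9 := up (t1 := (0 / 1000)) (t2 := (31 / 1000)) (x := b) (by norm_num)
    (by linarith only [s1, s2, b1, b2, t1, t2, R.k3, R.k4, R.h1, R.h2, R.hz, hT]) (by linarith only [s1, s2, b1, b2, t1, t2, R.k3, R.k4, R.h1, R.h2, R.hz, hT])
  have c1 := R.ph1
  have c2 := R.qhh
  have c3 := R.rh1
  linarith only [e9, e8, e7, e6, e5, e4, e3, e2, e1, R.k1, R.k2, s1, s2, b1, b2, t1, t2, R.k3, R.k4, R.h1, R.h2, R.hz, R.h3, R.h4, c1, c2, c3, R.n4]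

theorem wy1 {s b t k G1 G2 G3 G4 : ℝ} (R : RegB s b t k G1 G2 G3 G4) (hT : t ≤ 284 / 1000 * s)
    (s1 : 57 / 100 ≤ s) (s2 : s ≤ 607 / 1000)
    (b1 : 0 ≤ b) (b2 : b ≤ 3 / 50) (t1 : 1 / 50 ≤ t) (t2 : t ≤ 962 / 10000) :
    4 * ph (s - t) - 2 * ph s ≤ (G1 + G2 + G3 + G4) / 2 := by
  rcases le_total t (581 / 10000) with h | h
  · exact wy2 R hT s1 s2 b1 b2 t1 h
  · exact wy3 R hT s1 s2 b1 b2 h t2

theorem wy0 {s b t k G1 G2 G3 G4 : ℝ} (R : RegB s b t k G1 G2 G3 G4) (hT : t ≤ 284 / 1000 * s)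
    (s1 : 57 / 100 ≤ s) (s2 : s ≤ 607 / 1000)
    (b1 : 0 ≤ b) (b2 : b ≤ 3 / 50) (t1 : 1 / 50 ≤ t) (t2 : t ≤ 345 / 2000) :
    4 * ph (s - t) - 2 * ph s ≤ (G1 + G2 + G3 + G4) / 2 := by
  rcases le_total t (962 / 10000) with h | h
  · exact wy1 R hT s1 s2 b1 b2 t1 h
  · exact wy4 R hT s1 s2 b1 b2 h t2

theorem wf1 {s b t k G1 G2 G3 G4 : ℝ} (R : RegB s b t k G1 G2 G3 G4) (hT : t ≤ 284 / 1000 * s) (hy : 0 ≤ s - 1 / 2 - t) (hl : 0 ≤ 9 / 5 - 2 * h0 - t)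
    (s1 : 57 / 100 ≤ s) (s2 : s ≤ 607 / 1000)
    (b1 : 15 / 40 ≤ b) (b2 : b ≤ 1 / 2) (t1 : 0 ≤ t) (t2 : t ≤ 862 / 10000) :
    4 * ph (s - t) - 2 * ph s ≤ (G1 + G2 + G3 + G4) / 2 := by
  have e1 := up (t1 := (67 / 1000)) (t2 := (68 / 1000)) (x := 1 - h0) (by norm_num)
    (by linarith only [s1, s2, b1, b2, t1, t2, R.k3, R.k4, R.h1, R.h2, R.hz, hT, hy, hl]) (by linarith only [s1, s2, b1, b2, t1, t2, R.k3, R.k4, R.h1, R.h2, R.hz, hT, hy, hl])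
  have e2 := lo (t := (240 / 1000)) (x := h0 + s - 1) (by norm_num)
    (by linarith only [s1, s2, b1, b2, t1, t2, R.k3, R.k4, R.h1, R.h2, R.hz, hT, hy, hl]) (by linarith only [s1, s2, b1, b2, t1, t2, R.k3, R.k4, R.h1, R.h2, R.hz, hT, hy, hl])
  have e3 := up (t1 := (411 / 1000)) (t2 := (444 / 1000)) (x := s - h0 + 1) (by norm_num)
    (by linarith only [s1, s2, b1, b2, t1, t2, R.k3, R.k4, R.h1, R.h2, R.hz, hT, hy, hl]) (by linarith only [s1, s2, b1, b2, t1, t2, R.k3, R.k4, R.h1, R.h2, R.hz, hT, hy, hl])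
  have e4 := lo (t := (120 / 1000)) (x := s - t - b / 2 - k) (by norm_num)
    (by linarith only [s1, s2, b1, b2, t1, t2, R.k3, R.k4, R.h1, R.h2, R.hz, hT, hy, hl]) (by linarith only [s1, s2, b1, b2, t1, t2, R.k3, R.k4, R.h1, R.h2, R.hz, hT, hy, hl])
  have e5 := lo (t := (182 / 1000)) (x := t + b / 2 + k) (by norm_num)
    (by linarith only [s1, s2, b1, b2, t1, t2, R.k3, R.k4, R.h1, R.h2, R.hz, hT, hy, hl]) (by linarith only [s1, s2, b1, b2, t1, t2, R.k3, R.k4, R.h1, R.h2, R.hz, hT, hy, hl])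
  have e6 := lo (t := (729 / 1000)) (x := h0 - t + b / 2 - k) (by norm_num)
    (by linarith only [s1, s2, b1, b2, t1, t2, R.k3, R.k4, R.h1, R.h2, R.hz, hT, hy, hl]) (by linarith only [s1, s2, b1, b2, t1, t2, R.k3, R.k4, R.h1, R.h2, R.hz, hT, hy, hl])
  have e7 := lo (t := (388 / 1000)) (x := s - t + b / 2 - k) (by norm_num)
    (by linarith only [s1, s2, b1, b2, t1, t2, R.k3, R.k4, R.h1, R.h2, R.hz, hT, hy, hl]) (by linarith only [s1, s2, b1, b2, t1, t2, R.k3, R.k4, R.h1, R.h2, R.hz, hT, hy, hl])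
  have e8 := up (t1 := (258 / 1000)) (t2 := (339 / 1000)) (x := s - t) (by norm_num)
    (by linarith only [s1, s2, b1, b2, t1, t2, R.k3, R.k4, R.h1, R.h2, R.hz, hT, hy, hl]) (by linarith only [s1, s2, b1, b2, t1, t2, R.k3, R.k4, R.h1, R.h2, R.hz, hT, hy, hl])
  have e9 := lo (t := (509 / 1000)) (x := s - h0 + 1 - t + b / 2 - k) (by norm_num)
    (by linarith only [s1, s2, b1, b2, t1, t2, R.k3, R.k4, R.h1, R.h2, R.hz, hT, hy, hl]) (by linarith only [s1, s2, b1, b2, t1, t2, R.k3, R.k4, R.h1, R.h2, R.hz, hT, hy, hl])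
  have e10 := up (t1 := (577 / 1000)) (t2 := (730 / 1000)) (x := h0 + t) (by norm_num)
    (by linarith only [s1, s2, b1, b2, t1, t2, R.k3, R.k4, R.h1, R.h2, R.hz, hT, hy, hl]) (by linarith only [s1, s2, b1, b2, t1, t2, R.k3, R.k4, R.h1, R.h2, R.hz, hT, hy, hl])
  have e11 := lo (t := (325 / 1000)) (x := s) (by norm_num)
    (by linarith only [s1, s2, b1, b2, t1, t2, R.k3, R.k4, R.h1, R.h2, R.hz, hT, hy, hl]) (by linarith only [s1, s2, b1, b2, t1, t2, R.k3, R.k4, R.h1, R.h2, R.hz, hT, hy, hl])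
  have e12 := up (t1 := (194 / 1000)) (t2 := (268 / 1000)) (x := b) (by norm_num)
    (by linarith only [s1, s2, b1, b2, t1, t2, R.k3, R.k4, R.h1, R.h2, R.hz, hT, hy, hl]) (by linarith only [s1, s2, b1, b2, t1, t2, R.k3, R.k4, R.h1, R.h2, R.hz, hT, hy, hl])
  have c1 := R.phs
  have c2 := R.qhh
  have c3 := R.rv2 (by linarith only [e12, e11, e10, e9, e8, e7, e6, e5, e4, e3, e2, e1, R.k1, R.k2, s1, s2, b1, b2, t1, t2, R.k3, R.k4, R.h1, R.h2, R.hz])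
  have c4 := R.svy (by linarith only [e12, e11, e10, e9, e8, e7, e6, e5, e4, e3, e2, e1, R.k1, R.k2, s1, s2, b1, b2, t1, t2, R.k3, R.k4, R.h1, R.h2, R.hz]) hl
  linarith only [e12, e11, e10, e9, e8, e7, e6, e5, e4, e3, e2, e1, R.k1, R.k2, s1, s2, b1, b2, t1, t2, R.k3, R.k4, R.h1, R.h2, R.hz, R.h3, R.h4, c1, c2, c3, c4]

theorem wf2 {s b t k G1 G2 G3 G4 : ℝ} (R : RegB s b t k G1 G2 G3 G4) (hT : t ≤ 284 / 1000 * s) (hy : 0 ≤ s - 1 / 2 - t) (hl : 0 ≤ 9 / 5 - 2 * h0 - t)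
    (s1 : 57 / 100 ≤ s) (s2 : s ≤ 607 / 1000)
    (b1 : 15 / 40 ≤ b) (b2 : b ≤ 1 / 2) (t1 : 862 / 10000 ≤ t) (t2 : t ≤ 345 / 2000) :
    4 * ph (s - t) - 2 * ph s ≤ (G1 + G2 + G3 + G4) / 2 := by
  exfalso
  linarith only [R.k1, R.k2, s1, s2, b1, b2, t1, t2, R.k3, R.k4, R.h1, R.h2, R.hz, hl]

theorem wf0 {s b t k G1 G2 G3 G4 : ℝ} (R : RegB s b t k G1 G2 G3 G4) (hT : t ≤ 284 / 1000 * s) (hy : 0 ≤ s - 1 / 2 - t) (hl : 0 ≤ 9 / 5 - 2 * h0 - t)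
    (s1 : 57 / 100 ≤ s) (s2 : s ≤ 607 / 1000)
    (b1 : 15 / 40 ≤ b) (b2 : b ≤ 1 / 2) (t1 : 0 ≤ t) (t2 : t ≤ 345 / 2000) :
    4 * ph (s - t) - 2 * ph s ≤ (G1 + G2 + G3 + G4) / 2 := by
  rcases le_total t (862 / 10000) with h | h
  · exact wf1 R hT hy hl s1 s2 b1 b2 t1 h
  · exact wf2 R hT hy hl s1 s2 b1 b2 h t2

end Pool.Agent.Strip051.FourG.LA
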