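import Pool.Agent.Strip051.FourG.Box

set_option linter.unusedVariables false

/-! # Boxes, `ext r ≤ r`, part 2 -/

namespace Pool.Agent.Strip051.FourG.LA

open Pool.Agent.StripNear Pool.Agent.StripSquare Pool.Agent.Strip051
open Pool.Agent.Strip051.Four.Low (ph)
open Pool.Agent.Strip051.FourC.LA (lo up)

theorem we2 {s b t k G1 G2 G3 G4 : ℝ} (R : RegB s b t k G1 G2 G3 G4) (hT : t ≤ 284 / 1000 * s) (hy : 0 ≤ s - 1 / 2 - t) (ha : 0 ≤ 1 - h0 - t) (hl : 0 ≤ 2 * h0 - 9 / 5 + t)
    (s1 : 57 / 100 ≤ s) (s2 : s ≤ 607 / 1000)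
    (b1 : 15 / 40 ≤ b) (b2 : b ≤ 1 / 2) (t1 : 0 ≤ t) (t2 : t ≤ 431 / 10000) :
    4 * ph (s - t) - 2 * ph s ≤ (G1 + G2 + G3 + G4) / 2 := by
  exfalso
  exact absurd hl (not_le.mpr (by linear_combination t2 + 2 * R.h2))

theorem we4 {s b t k G1 G2 G3 G4 : ℝ} (R : RegB s b t k G1 G2 G3 G4) (hT : t ≤ 284 / 1000 * s) (hy : 0 ≤ s - 1 / 2 - t) (ha : 0 ≤ 1 - h0 - t) (hl : 0 ≤ 2 * h0 - 9 / 5 + t)
    (s1 : 57 / 100 ≤ s) (s2 : s ≤ 607 / 1000)
    (b1 : 15 / 40 ≤ b) (b2 : b ≤ 1 / 2) (t1 : 431 / 10000 ≤ t) (t2 : t ≤ 647 / 10000) :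
    4 * ph (s - t) - 2 * ph s ≤ (G1 + G2 + G3 + G4) / 2 := by
  exfalso
  exact absurd hl (not_le.mpr (by linear_combination t2 + 2 * R.h2))

theorem we6 {s b t k G1 G2 G3 G4 : ℝ} (R : RegB s b t k G1 G2 G3 G4) (hT : t ≤ 284 / 1000 * s) (hy : 0 ≤ s - 1 / 2 - t) (ha : 0 ≤ 1 - h0 - t) (hl : 0 ≤ 2 * h0 - 9 / 5 + t)
    (s1 : 57 / 100 ≤ s) (s2 : s ≤ 607 / 1000)
    (b1 : 15 / 40 ≤ b) (b2 : b ≤ 875 / 2000) (t1 : 647 / 10000 ≤ t) (t2 : t ≤ 862 / 10000) :
    4 * ph (s - t) - 2 * ph s ≤ (G1 + G2 + G3 + G4) / 2 := by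
  have e1 := up (t1 := (67 / 1000)) (t2 := (68 / 1000)) (x := 1 - h0) (by norm_num)
    (by linear_combination (1004489 / 1000000) * R.h2) (by linear_combination (62789 / 62500) * R.h1)
  have e2 := lo (t := (240 / 1000)) (x := h0 + s - 1) (by norm_num)
    (by linear_combination s1 + R.h1) (by linear_combination s2 + R.h2)
  have e3 := up (t1 := (411 / 1000)) (t2 := (444 / 1000)) (x := s - h0 + 1) (by norm_num)
    (by linear_combination (1168921 / 1000000) * s1 + (1168921 / 1000000) * R.h2) (by linear_combination (74821 / 62500) * s2 + (74821 / 62500) * R.h1)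
  have e4 := up (t1 := (688 / 1000)) (t2 := (689 / 1000)) (x := 9 / 5 - h0) (by norm_num)
    (by linear_combination (23021 / 15625) * R.h2) (by linear_combination (1474721 / 1000000) * R.h1)
  have e5 := lo (t := (119 / 1000)) (x := s - t - b / 2 - k) (by norm_num)
    (by linear_combination s1 + (1 / 2) * b2 + t2 + R.k4) (by linear_combination s2 + (1 / 2) * b1 + t1 + R.k3)
  have e6 := lo (t := (183 / 1000)) (x := t + b / 2 + k) (by norm_num)
    (by linear_combination (1 / 2) * b1 + t1 + R.k3) (by linear_combination (1 / 2) * b2 + t2 + R.k4)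
  have e7 := lo (t := (658 / 1000)) (x := h0 - t + b / 2 - k) (by norm_num)
    (by linear_combination (1 / 2) * b1 + t2 + R.k4 + R.h1) (by linear_combination t1 + R.hz)
  have e8 := lo (t := (363 / 1000)) (x := s - t + b / 2 - k) (by norm_num)
    (by linear_combination s1 + (1 / 2) * b1 + t2 + R.k4) (by linear_combination s2 + (1 / 2) * b2 + t1 + R.k3)
  have e9 := up (t1 := (258 / 1000)) (t2 := (295 / 1000)) (x := s - t) (by norm_num)
    (by linear_combination (266641 / 250000) * s1 + (266641 / 250000) * t2) (by linear_combination (43481 / 40000) * s2 + (43481 / 40000) * t1)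
  have e10 := lo (t := (475 / 1000)) (x := s - h0 + 1 - t + b / 2 - k) (by norm_num)
    (by linear_combination s1 + (1 / 2) * b1 + t2 + R.k4 + R.h2) (by linear_combination s2 + (1 / 2) * b2 + t1 + R.k3 + R.h1)
  have e11 := lo (t := (780 / 1000)) (x := 9 / 5 - h0 - t + b / 2 - k) (by norm_num)
    (by linear_combination (1 / 2) * b1 + t2 + R.k4 + R.h2) (by linear_combination R.hz + hl)
  have e12 := lo (t := (325 / 1000)) (x := s) (by norm_num)
    (by linear_combination s1) (by linear_combination s2)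
  have e13 := up (t1 := (194 / 1000)) (t2 := (231 / 1000)) (x := b) (by norm_num)
    (by linear_combination (259409 / 250000) * b1) (by linear_combination (1053361 / 1000000) * b2)
  have c1 := R.phs
  have c2 := R.qhh
  have c3 := R.rv2 (by linear_combination (20 / 17) * e13 + (438121 / 17) * R.k1 + (438138 / 17) * R.k2 + t2)
  have c4 := R.svl (by linear_combination (20 / 17) * e13 + (438121 / 17) * R.k1 + (438138 / 17) * R.k2 + t2) hl
  linear_combination (326739786092670556959253929050 / 56699920282315070139565726449) * e13 + (3200 / 1431) * e12 + (1250 / 979) * e11 + (800 / 1239) * e10 + (400000 / 92389) * e9 + (500000 / 868231) * e8 + (125000 / 141759) * e7 + (1000000 / 966511) * e6 + (1000000 / 985839) * e5 + (31250 / 32873) * e4 + (125000 / 204379) * e3 + (625 / 1178) * e2 + (375000 / 248861) * e1 + (5284380033150945361413970 / 1305921826964519520879123) * R.k2 + (349678854949946151622559065 / 5467482792029674113349368717) * s1 + (720025072791541870139024540815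 / 2494796492421863086140891963756) * b2 + (18122607159839179361564842430 / 10968437424674999455863754077) * t2 + (1434876274723482703191102395 / 1697616083210958372888992412) * R.h1 + (1 / 2) * c1 + (1 / 2) * c2 + (1 / 2) * c3 + (1 / 2) * c4

theorem we8 {s b t k G1 G2 G3 G4 : ℝ} (R : RegB s b t k G1 G2 G3 G4) (hT : t ≤ 284 / 1000 * s) (hy : 0 ≤ s - 1 / 2 - t) (ha : 0 ≤ 1 - h0 - t) (hl : 0 ≤ 2 * h0 - 9 / 5 + t)
    (s1 : 57 / 100 ≤ s) (s2 : s ≤ 607 / 1000)
    (b1 : 875 / 2000 ≤ b) (b2 : b ≤ 4688 / 10000) (t1 : 647 / 10000 ≤ t) (t2 : t ≤ 862 / 10000) :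
    4 * ph (s - t) - 2 * ph s ≤ (G1 + G2 + G3 + G4) / 2 := by
  have e1 := up (t1 := (67 / 1000)) (t2 := (68 / 1000)) (x := 1 - h0) (by norm_num)
    (by linear_combination (1004489 / 1000000) * R.h2) (by linear_combination (62789 / 62500) * R.h1)
  have e2 := lo (t := (240 / 1000)) (x := h0 + s - 1) (by norm_num)
    (by linear_combination s1 + R.h1) (by linear_combination s2 + R.h2)
  have e3 := up (t1 := (411 / 1000)) (t2 := (444 / 1000)) (x := s - h0 + 1) (by norm_num)
    (by linear_combination (1168921 / 1000000) * s1 + (1168921 / 1000000) * R.h2) (by linear_combination (74821 / 62500) * s2 + (74821 / 62500) * R.h1)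
  have e4 := up (t1 := (688 / 1000)) (t2 := (689 / 1000)) (x := 9 / 5 - h0) (by norm_num)
    (by linear_combination (23021 / 15625) * R.h2) (by linear_combination (1474721 / 1000000) * R.h1)
  have e5 := lo (t := (97 / 1000)) (x := s - t - b / 2 - k) (by norm_num)
    (by linear_combination s1 + (1 / 2) * b2 + t2 + R.k4) (by linear_combination s2 + (1 / 2) * b1 + t1 + R.k3)
  have e6 := lo (t := (207 / 1000)) (x := t + b / 2 + k) (by norm_num)
    (by linear_combination (1 / 2) * b1 + t1 + R.k3) (by linear_combination (1 / 2) * b2 + t2 + R.k4)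
  have e7 := lo (t := (666 / 1000)) (x := h0 - t + b / 2 - k) (by norm_num)
    (by linear_combination (1 / 2) * b1 + t2 + R.k4 + R.h1) (by linear_combination t1 + R.hz)
  have e8 := lo (t := (366 / 1000)) (x := s - t + b / 2 - k) (by norm_num)
    (by linear_combination s1 + (1 / 2) * b1 + t2 + R.k4) (by linear_combination s2 + (1 / 2) * b2 + t1 + R.k3)
  have e9 := up (t1 := (258 / 1000)) (t2 := (295 / 1000)) (x := s - t) (by norm_num)
    (by linear_combination (266641 / 250000) * s1 + (266641 / 250000) * t2) (by linear_combination (43481 / 40000) * s2 + (43481 / 40000) * t1)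
  have e10 := lo (t := (479 / 1000)) (x := s - h0 + 1 - t + b / 2 - k) (by norm_num)
    (by linear_combination s1 + (1 / 2) * b1 + t2 + R.k4 + R.h2) (by linear_combination s2 + (1 / 2) * b2 + t1 + R.k3 + R.h1)
  have e11 := lo (t := (780 / 1000)) (x := 9 / 5 - h0 - t + b / 2 - k) (by norm_num)
    (by linear_combination (1 / 2) * b1 + t2 + R.k4 + R.h2) (by linear_combination R.hz + hl)
  have e12 := lo (t := (325 / 1000)) (x := s) (by norm_num)
    (by linear_combination s1) (by linear_combination s2)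
  have e13 := up (t1 := (230 / 1000)) (t2 := (249 / 1000)) (x := b) (by norm_num)
    (by linear_combination (10529 / 10000) * b1) (by linear_combination (1062001 / 1000000) * b2)
  have c1 := R.phs
  have c2 := R.qhh
  have c3 := R.rv2 (by linear_combination (500 / 479) * e13 + (5653663 / 479) * R.k1 + (5654142 / 479) * R.k2 + t2)
  have c4 := R.svl (by linear_combination (500 / 479) * e13 + (5653663 / 479) * R.k1 + (5654142 / 479) * R.k2 + t2) hl
  linear_combination (176221076319513350848154341594850 / 30421622145146149224427548469587) * e13 + (3200 / 1431) * e12 + (1250 / 979) * e11 + (500000 / 770559) * e10 + (400000 / 92389) * e9 + (125000 / 216511) * e8 + (125000 / 139111) * e7 + (1000000 / 957151) * e6 + (1000000 / 990591) * e5 + (31250 / 32873) * e4 + (125000 / 204379) * e3 + (625 / 1178) * e2 + (375000 / 248861) * e1 + (14185400690428227456526124450 / 3549667917607455384560829009) * R.k2 + (30223336753446648874325307295 / 970918331487048210007227719079)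 * s1 + (3613059248482661349565182809316793 / 6692756871932152829374060663309140) * b2 + (47762585546654943219648794092750 / 29813660839985017774926402846591) * t2 + (433470348503108194000350868325 / 496264029891737895285495515364) * R.h1 + (1 / 2) * c1 + (1 / 2) * c2 + (1 / 2) * c3 + (1 / 2) * c4

theorem we10 {s b t k G1 G2 G3 G4 : ℝ} (R : RegB s b t k G1 G2 G3 G4) (hT : t ≤ 284 / 1000 * s) (hy : 0 ≤ s - 1 / 2 - t) (ha : 0 ≤ 1 - h0 - t) (hl : 0 ≤ 2 * h0 - 9 / 5 + t)
    (s1 : 57 / 100 ≤ s) (s2 : s ≤ 607 / 1000)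
    (b1 : 4688 / 10000 ≤ b) (b2 : b ≤ 1 / 2) (t1 : 647 / 10000 ≤ t) (t2 : t ≤ 754 / 10000) :
    4 * ph (s - t) - 2 * ph s ≤ (G1 + G2 + G3 + G4) / 2 := by
  have e1 := up (t1 := (67 / 1000)) (t2 := (68 / 1000)) (x := 1 - h0) (by norm_num)
    (by linear_combination (1004489 / 1000000) * R.h2) (by linear_combination (62789 / 62500) * R.h1)
  have e2 := lo (t := (240 / 1000)) (x := h0 + s - 1) (by norm_num)
    (by linear_combination s1 + R.h1) (by linear_combination s2 + R.h2)
  have e3 := up (t1 := (411 / 1000)) (t2 := (444 / 1000)) (x := s - h0 + 1) (by norm_num)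
    (by linear_combination (1168921 / 1000000) * s1 + (1168921 / 1000000) * R.h2) (by linear_combination (74821 / 62500) * s2 + (74821 / 62500) * R.h1)
  have e4 := up (t1 := (688 / 1000)) (t2 := (689 / 1000)) (x := 9 / 5 - h0) (by norm_num)
    (by linear_combination (23021 / 15625) * R.h2) (by linear_combination (1474721 / 1000000) * R.h1)
  have e5 := lo (t := (84 / 1000)) (x := s - t - b / 2 - k) (by norm_num)
    (by linear_combination s1 + (1 / 2) * b2 + t2 + R.k4) (by linear_combination s2 + (1 / 2) * b1 + t1 + R.k3)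
  have e6 := lo (t := (221 / 1000)) (x := t + b / 2 + k) (by norm_num)
    (by linear_combination (1 / 2) * b1 + t1 + R.k3) (by linear_combination (1 / 2) * b2 + t2 + R.k4)
  have e7 := lo (t := (679 / 1000)) (x := h0 - t + b / 2 - k) (by norm_num)
    (by linear_combination (1 / 2) * b1 + t2 + R.k4 + R.h1) (by linear_combination t1 + R.hz)
  have e8 := lo (t := (371 / 1000)) (x := s - t + b / 2 - k) (by norm_num)
    (by linear_combination s1 + (1 / 2) * b1 + t2 + R.k4) (by linear_combination s2 + (1 / 2) * b2 + t1 + R.k3)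
  have e9 := up (t1 := (264 / 1000)) (t2 := (295 / 1000)) (x := s - t) (by norm_num)
    (by linear_combination (16714 / 15625) * s1 + (16714 / 15625) * t2) (by linear_combination (43481 / 40000) * s2 + (43481 / 40000) * t1)
  have e10 := lo (t := (486 / 1000)) (x := s - h0 + 1 - t + b / 2 - k) (by norm_num)
    (by linear_combination s1 + (1 / 2) * b1 + t2 + R.k4 + R.h2) (by linear_combination s2 + (1 / 2) * b2 + t1 + R.k3 + R.h1)
  have e11 := lo (t := (780 / 1000)) (x := 9 / 5 - h0 - t + b / 2 - k) (by norm_num)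
    (by linear_combination (1 / 2) * b1 + t2 + R.k4 + R.h2) (by linear_combination R.hz + hl)
  have e12 := lo (t := (325 / 1000)) (x := s) (by norm_num)
    (by linear_combination s1) (by linear_combination s2)
  have e13 := up (t1 := (248 / 1000)) (t2 := (268 / 1000)) (x := b) (by norm_num)
    (by linear_combination (16586 / 15625) * b1) (by linear_combination (66989 / 62500) * b2)
  have c1 := R.phs
  have c2 := R.qhh
  have c3 := R.rv2 (by linear_combination (125 / 129) * e13 + (497413 / 129) * R.k1 + (497542 / 129) * R.k2 + t2)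
  have c4 := R.svl (by linear_combination (125 / 129) * e13 + (497413 / 129) * R.k1 + (497542 / 129) * R.k2 + t2) hl
  linear_combination (174499576211242865494017643312375 / 29706249729463205771199991958472) * e13 + (3200 / 1431) * e12 + (1250 / 979) * e11 + (125000 / 190951) * e10 + (100000 / 23053) * e9 + (500000 / 862359) * e8 + (500000 / 538959) * e7 + (1000000 / 951159) * e6 + (62500 / 62059) * e5 + (31250 / 32873) * e4 + (125000 / 204379) * e3 + (625 / 1178) * e2 + (375000 / 248861) * e1 + (5632269594311351349986728150 / 1400133458266613236053885063) * R.k2 + (52441748272977241964277559195 / 13527333729117096853631089267341) * s2 + (157771895416170522421461478392827 / 217845831349396842322133274362128) * b2 + (51573250640555902775831869020250 / 32277276613420234930750212357339) * t2 + (365833640912492667385744313216725 / 396888116036325287119597695766692) * R.h1 + (1 / 2) * c1 + (1 / 2) * c2 + (1 / 2) * c3 + (1 / 2) * c4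

theorem we11 {s b t k G1 G2 G3 G4 : ℝ} (R : RegB s b t k G1 G2 G3 G4) (hT : t ≤ 284 / 1000 * s) (hy : 0 ≤ s - 1 / 2 - t) (ha : 0 ≤ 1 - h0 - t) (hl : 0 ≤ 2 * h0 - 9 / 5 + t)
    (s1 : 57 / 100 ≤ s) (s2 : s ≤ 607 / 1000)
    (b1 : 4688 / 10000 ≤ b) (b2 : b ≤ 1 / 2) (t1 : 754 / 10000 ≤ t) (t2 : t ≤ 862 / 10000) :
    4 * ph (s - t) - 2 * ph s ≤ (G1 + G2 + G3 + G4) / 2 := by
  have e1 := up (t1 := (67 / 1000)) (t2 := (68 / 1000)) (x := 1 - h0) (by norm_num)
    (by linear_combination (1004489 / 1000000) * R.h2) (by linear_combination (62789 / 62500) * R.h1)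
  have e2 := lo (t := (240 / 1000)) (x := h0 + s - 1) (by norm_num)
    (by linear_combination s1 + R.h1) (by linear_combination s2 + R.h2)
  have e3 := up (t1 := (411 / 1000)) (t2 := (444 / 1000)) (x := s - h0 + 1) (by norm_num)
    (by linear_combination (1168921 / 1000000) * s1 + (1168921 / 1000000) * R.h2) (by linear_combination (74821 / 62500) * s2 + (74821 / 62500) * R.h1)
  have e4 := up (t1 := (688 / 1000)) (t2 := (689 / 1000)) (x := 9 / 5 - h0) (by norm_num)
    (by linear_combination (23021 / 15625) * R.h2) (by linear_combination (1474721 / 1000000) * R.h1)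
  have e5 := lo (t := (79 / 1000)) (x := s - t - b / 2 - k) (by norm_num)
    (by linear_combination s1 + (1 / 2) * b2 + t2 + R.k4) (by linear_combination s2 + (1 / 2) * b1 + t1 + R.k3)
  have e6 := lo (t := (227 / 1000)) (x := t + b / 2 + k) (by norm_num)
    (by linear_combination (1 / 2) * b1 + t1 + R.k3) (by linear_combination (1 / 2) * b2 + t2 + R.k4)
  have e7 := lo (t := (659 / 1000)) (x := h0 - t + b / 2 - k) (by norm_num)
    (by linear_combination (1 / 2) * b1 + t2 + R.k4 + R.h1) (by linear_combination t1 + R.hz)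
  have e8 := up (t1 := (258 / 1000)) (t2 := (288 / 1000)) (x := s - t) (by norm_num)
    (by linear_combination (266641 / 250000) * s1 + (266641 / 250000) * t2) (by linear_combination (16921 / 15625) * s2 + (16921 / 15625) * t1)
  have e9 := lo (t := (475 / 1000)) (x := s - h0 + 1 - t + b / 2 - k) (by norm_num)
    (by linear_combination s1 + (1 / 2) * b1 + t2 + R.k4 + R.h2) (by linear_combination s2 + (1 / 2) * b2 + t1 + R.k3 + R.h1)
  have e10 := lo (t := (780 / 1000)) (x := 9 / 5 - h0 - t + b / 2 - k) (by norm_num)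
    (by linear_combination (1 / 2) * b1 + t2 + R.k4 + R.h2) (by linear_combination t1 + 2 * R.h1 + R.hz)
  have e11 := lo (t := (325 / 1000)) (x := s) (by norm_num)
    (by linear_combination s1) (by linear_combination s2)
  have e12 := up (t1 := (248 / 1000)) (t2 := (268 / 1000)) (x := b) (by norm_num)
    (by linear_combination (16586 / 15625) * b1) (by linear_combination (66989 / 62500) * b2)
  have c1 := R.pvs (by linear_combination (125 / 129) * e12 + (497413 / 129) * R.k1 + (497542 / 129) * R.k2 + t2)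
  have c2 := R.qhw ha
  have c3 := R.rv2 (by linear_combination (125 / 129) * e12 + (497413 / 129) * R.k1 + (497542 / 129) * R.k2 + t2)
  have c4 := R.svl (by linear_combination (125 / 129) * e12 + (497413 / 129) * R.k1 + (497542 / 129) * R.k2 + t2) hl
  linear_combination (31549266876624115155373825 / 6600605838781647938173656) * e12 + (3200 / 1431) * e11 + (1250 / 979) * e10 + (800 / 1239) * e9 + (140625 / 28928) * e8 + (500000 / 565719) * e7 + (500000 / 316157) * e6 + (500000 / 993759) * e5 + (31250 / 32873) * e4 + (125000 / 204379) * e3 + (625 / 1178) * e2 + (125000 / 248861) * e1 + (974257220119794114610 / 311103864132066154149) * R.k2 + (87242341627137249987269 / 389566344663651423550464) * s1 + (1705118872577815582615743397 / 9973442888268973532954700000) * b1 + (17185477182940798996740695 / 35998450326449638828889088) * t2 + (3500626851905303489250065 / 4902279876216899201602164) * R.h1 + (1 / 2) * R.h3 + (1 / 2) * c1 + (1 / 2) * c2 + (1 / 2) * c3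 + (1 / 2) * c4

theorem we15 {s b t k G1 G2 G3 G4 : ℝ} (R : RegB s b t k G1 G2 G3 G4) (hT : t ≤ 284 / 1000 * s) (hy : 0 ≤ s - 1 / 2 - t) (ha : 0 ≤ 1 - h0 - t) (hl : 0 ≤ 2 * h0 - 9 / 5 + t)
    (s1 : 57 / 100 ≤ s) (s2 : s ≤ 607 / 1000)
    (b1 : 15 / 40 ≤ b) (b2 : b ≤ 875 / 2000) (t1 : 862 / 10000 ≤ t) (t2 : t ≤ 1078 / 10000) :
    4 * ph (s - t) - 2 * ph s ≤ (G1 + G2 + G3 + G4) / 2 := by
  have e1 := up (t1 := (67 / 1000)) (t2 := (68 / 1000)) (x := 1 - h0) (by norm_num)
    (by linear_combination (1004489 / 1000000) * R.h2) (by linear_combination (62789 / 62500) * R.h1)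
  have e2 := lo (t := (240 / 1000)) (x := h0 + s - 1) (by norm_num)
    (by linear_combination s1 + R.h1) (by linear_combination s2 + R.h2)
  have e3 := up (t1 := (411 / 1000)) (t2 := (444 / 1000)) (x := s - h0 + 1) (by norm_num)
    (by linear_combination (1168921 / 1000000) * s1 + (1168921 / 1000000) * R.h2) (by linear_combination (74821 / 62500) * s2 + (74821 / 62500) * R.h1)
  have e4 := up (t1 := (688 / 1000)) (t2 := (689 / 1000)) (x := 9 / 5 - h0) (by norm_num)
    (by linear_combination (23021 / 15625) * R.h2) (by linear_combination (1474721 / 1000000) * R.h1)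
  have e5 := lo (t := (108 / 1000)) (x := s - t - b / 2 - k) (by norm_num)
    (by linear_combination s1 + (1 / 2) * b2 + t2 + R.k4) (by linear_combination s2 + (1 / 2) * b1 + t1 + R.k3)
  have e6 := lo (t := (195 / 1000)) (x := t + b / 2 + k) (by norm_num)
    (by linear_combination (1 / 2) * b1 + t1 + R.k3) (by linear_combination (1 / 2) * b2 + t2 + R.k4)
  have e7 := lo (t := (622 / 1000)) (x := h0 - t + b / 2 - k) (by norm_num)
    (by linear_combination (1 / 2) * b1 + t2 + R.k4 + R.h1) (by linear_combination (1 / 2) * b2 + t1 + R.k3 + R.h2)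
  have e8 := lo (t := (347 / 1000)) (x := s - t + b / 2 - k) (by norm_num)
    (by linear_combination s1 + (1 / 2) * b1 + t2 + R.k4) (by linear_combination s2 + (1 / 2) * b2 + t1 + R.k3)
  have e9 := up (t1 := (244 / 1000)) (t2 := (281 / 1000)) (x := s - t) (by norm_num)
    (by linear_combination (66221 / 62500) * s1 + (66221 / 62500) * t2) (by linear_combination (1078961 / 1000000) * s2 + (1078961 / 1000000) * t1)
  have e10 := lo (t := (454 / 1000)) (x := s - h0 + 1 - t + b / 2 - k) (by norm_num)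
    (by linear_combination s1 + (1 / 2) * b1 + t2 + R.k4 + R.h2) (by linear_combination s2 + (1 / 2) * b2 + t1 + R.k3 + R.h1)
  have e11 := lo (t := (764 / 1000)) (x := 9 / 5 - h0 - t + b / 2 - k) (by norm_num)
    (by linear_combination (1 / 2) * b1 + t2 + R.k4 + R.h2) (by linear_combination t1 + 2 * R.h1 + R.hz)
  have e12 := lo (t := (325 / 1000)) (x := s) (by norm_num)
    (by linear_combination s1) (by linear_combination s2)
  have e13 := up (t1 := (194 / 1000)) (t2 := (231 / 1000)) (x := b) (by norm_num)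
    (by linear_combination (259409 / 250000) * b1) (by linear_combination (1053361 / 1000000) * b2)
  have c1 := R.phs
  have c2 := R.qhh
  have c3 := R.rv2 (by linear_combination (433015 / 477593) * e13 + R.k2 + (438121 / 3820744) * b1 + t2)
  have c4 := R.svl (by linear_combination (433015 / 477593) * e13 + R.k2 + (438121 / 3820744) * b1 + t2) hl
  linear_combination (153167323011378816450198482195750 / 28447120823644776019835502203679) * e13 + (3200 / 1431) * e12 + (31250 / 26019) * e11 + (125000 / 198471) * e10 + (1000000 / 232859) * e9 + (500000 / 879591) * e8 + (125000 / 153279) * e7 + (40000 / 38479) * e6 + (62500 / 61771) * e5 + (31250 / 32873) * e4 + (125000 / 204379) * e3 + (625 / 1178) * e2 + (375000 / 248861) * e1 + (216167573227212439143903050 / 59563521290397422114301303) * R.k2 + (793794864583981109425041993515 / 6866037072901534058381895307263) * s1 + (32640921613007126367134005079075 / 113788483294579104079342008814716) * b2 + (19065716256656814756601936244950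 / 13869902004160653316114087115277) * t2 + (43165395523808373247520366975 / 48097458747946102812166496556) * R.h1 + (1 / 2) * c1 + (1 / 2) * c2 + (1 / 2) * c3 + (1 / 2) * c4

theorem we18 {s b t k G1 G2 G3 G4 : ℝ} (R : RegB s b t k G1 G2 G3 G4) (hT : t ≤ 284 / 1000 * s) (hy : 0 ≤ s - 1 / 2 - t) (ha : 0 ≤ 1 - h0 - t) (hl : 0 ≤ 2 * h0 - 9 / 5 + t)
    (s1 : 57 / 100 ≤ s) (s2 : s ≤ 607 / 1000)
    (b1 : 875 / 2000 ≤ b) (b2 : b ≤ 4688 / 10000) (t1 : 862 / 10000 ≤ t) (t2 : t ≤ 97 / 1000) :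
    4 * ph (s - t) - 2 * ph s ≤ (G1 + G2 + G3 + G4) / 2 := by
  have e1 := up (t1 := (67 / 1000)) (t2 := (68 / 1000)) (x := 1 - h0) (by norm_num)
    (by linear_combination (1004489 / 1000000) * R.h2) (by linear_combination (62789 / 62500) * R.h1)
  have e2 := lo (t := (240 / 1000)) (x := h0 + s - 1) (by norm_num)
    (by linear_combination s1 + R.h1) (by linear_combination s2 + R.h2)
  have e3 := up (t1 := (411 / 1000)) (t2 := (444 / 1000)) (x := s - h0 + 1) (by norm_num)
    (by linear_combination (1168921 / 1000000) * s1 + (1168921 / 1000000) * R.h2) (by linear_combination (74821 / 62500) * s2 + (74821 / 62500) * R.h1)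
  have e4 := up (t1 := (688 / 1000)) (t2 := (689 / 1000)) (x := 9 / 5 - h0) (by norm_num)
    (by linear_combination (23021 / 15625) * R.h2) (by linear_combination (1474721 / 1000000) * R.h1)
  have e5 := lo (t := (89 / 1000)) (x := s - t - b / 2 - k) (by norm_num)
    (by linear_combination s1 + (1 / 2) * b2 + t2 + R.k4) (by linear_combination s2 + (1 / 2) * b1 + t1 + R.k3)
  have e6 := lo (t := (216 / 1000)) (x := t + b / 2 + k) (by norm_num)
    (by linear_combination (1 / 2) * b1 + t1 + R.k3) (by linear_combination (1 / 2) * b2 + t2 + R.k4)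
  have e7 := lo (t := (638 / 1000)) (x := h0 - t + b / 2 - k) (by norm_num)
    (by linear_combination (1 / 2) * b1 + t2 + R.k4 + R.h1) (by linear_combination t1 + R.hz)
  have e8 := lo (t := (354 / 1000)) (x := s - t + b / 2 - k) (by norm_num)
    (by linear_combination s1 + (1 / 2) * b1 + t2 + R.k4) (by linear_combination s2 + (1 / 2) * b2 + t1 + R.k3)
  have e9 := up (t1 := (251 / 1000)) (t2 := (281 / 1000)) (x := s - t) (by norm_num)
    (by linear_combination (1063001 / 1000000) * s1 + (1063001 / 1000000) * t2) (by linear_combination (1078961 / 1000000) * s2 + (1078961 / 1000000) * t1)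
  have e10 := lo (t := (464 / 1000)) (x := s - h0 + 1 - t + b / 2 - k) (by norm_num)
    (by linear_combination s1 + (1 / 2) * b1 + t2 + R.k4 + R.h2) (by linear_combination s2 + (1 / 2) * b2 + t1 + R.k3 + R.h1)
  have e11 := lo (t := (797 / 1000)) (x := 9 / 5 - h0 - t + b / 2 - k) (by norm_num)
    (by linear_combination (1 / 2) * b1 + t2 + R.k4 + R.h2) (by linear_combination t1 + 2 * R.h1 + R.hz)
  have e12 := lo (t := (325 / 1000)) (x := s) (by norm_num)
    (by linear_combination s1) (by linear_combination s2)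
  have e13 := up (t1 := (230 / 1000)) (t2 := (249 / 1000)) (x := b) (by norm_num)
    (by linear_combination (10529 / 10000) * b1) (by linear_combination (1062001 / 1000000) * b2)
  have c1 := R.phs
  have c2 := R.qhh
  have c3 := R.rv2 (by linear_combination (500 / 479) * e13 + (5653663 / 479) * R.k1 + (5654142 / 479) * R.k2 + t2)
  have c4 := R.svl (by linear_combination (500 / 479) * e13 + (5653663 / 479) * R.k1 + (5654142 / 479) * R.k2 + t2) hl
  linear_combination (703778937835912295016719683375 / 121750160500835190897099751224) * e13 + (3200 / 1431) * e12 + (500000 / 364791) * e11 + (15625 / 24522) * e10 + (4000000 / 929469) * e9 + (125000 / 218671) * e8 + (125000 / 148239) * e7 + (15625 / 14896) * e6 + (1000000 / 992079) * e5 + (31250 / 32873) * e4 + (125000 / 204379) * e3 + (625 / 1178) * e2 + (375000 / 248861) * e1 + (56584045628920764706747375 / 14206101062968051296427368) * R.k2 + (19713356035075405488659087945 / 276726549788698839260124759219)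 * s1 + (88453321479512544900968450543 / 175639575804483554081061936192) * b2 + (7454177748223780364139445596625 / 4401376849631950556813016435864) * t2 + (3493554476429335400030948231675 / 5922453127798877176076894293788) * R.h1 + (1 / 2) * c1 + (1 / 2) * c2 + (1 / 2) * c3 + (1 / 2) * c4

theorem we21 {s b t k G1 G2 G3 G4 : ℝ} (R : RegB s b t k G1 G2 G3 G4) (hT : t ≤ 284 / 1000 * s) (hy : 0 ≤ s - 1 / 2 - t) (ha : 0 ≤ 1 - h0 - t) (hl : 0 ≤ 2 * h0 - 9 / 5 + t)
    (s1 : 57 / 100 ≤ s) (s2 : s ≤ 5793 / 10000)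
    (b1 : 4688 / 10000 ≤ b) (b2 : b ≤ 1 / 2) (t1 : 862 / 10000 ≤ t) (t2 : t ≤ 97 / 1000) :
    4 * ph (s - t) - 2 * ph s ≤ (G1 + G2 + G3 + G4) / 2 := by
  exfalso
  exact absurd hy (not_le.mpr (by linear_combination s2 + t1))

theorem we22 {s b t k G1 G2 G3 G4 : ℝ} (R : RegB s b t k G1 G2 G3 G4) (hT : t ≤ 284 / 1000 * s) (hy : 0 ≤ s - 1 / 2 - t) (ha : 0 ≤ 1 - h0 - t) (hl : 0 ≤ 2 * h0 - 9 / 5 + t)
    (s1 : 5793 / 10000 ≤ s) (s2 : s ≤ 1177 / 2000)
    (b1 : 4688 / 10000 ≤ b) (b2 : b ≤ 1 / 2) (t1 : 862 / 10000 ≤ t) (t2 : t ≤ 97 / 1000) :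
    4 * ph (s - t) - 2 * ph s ≤ (G1 + G2 + G3 + G4) / 2 := by
  have e1 := up (t1 := (67 / 1000)) (t2 := (68 / 1000)) (x := 1 - h0) (by norm_num)
    (by linear_combination (1004489 / 1000000) * R.h2) (by linear_combination (62789 / 62500) * R.h1)
  have e2 := lo (t := (238 / 1000)) (x := h0 + s - 1) (by norm_num)
    (by linear_combination s1 + R.h1) (by linear_combination s2 + R.h2)
  have e3 := up (t1 := (419 / 1000)) (t2 := (428 / 1000)) (x := s - h0 + 1) (by norm_num)
    (by linear_combination (1175561 / 1000000) * s1 + (1175561 / 1000000) * R.h2) (by linear_combination (73949 / 62500) * s2 + (73949 / 62500) * R.h1)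
  have e4 := up (t1 := (688 / 1000)) (t2 := (689 / 1000)) (x := 9 / 5 - h0) (by norm_num)
    (by linear_combination (23021 / 15625) * R.h2) (by linear_combination (1474721 / 1000000) * R.h1)
  have e5 := lo (t := (71 / 1000)) (x := s - t - b / 2 - k) (by norm_num)
    (by linear_combination s1 + (1 / 2) * b2 + t2 + R.k4) (by linear_combination s2 + (1 / 2) * b1 + t1 + R.k3)
  have e6 := lo (t := (233 / 1000)) (x := t + b / 2 + k) (by norm_num)
    (by linear_combination (1 / 2) * b1 + t1 + R.k3) (by linear_combination (1 / 2) * b2 + t2 + R.k4)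
  have e7 := lo (t := (640 / 1000)) (x := h0 - t + b / 2 - k) (by norm_num)
    (by linear_combination (1 / 2) * b1 + t2 + R.k4 + R.h1) (by linear_combination t1 + R.hz)
  have e8 := lo (t := (4 / 1000)) (x := h0 + s - 1 - t - b / 2 - k) (by norm_num)
    (by linear_combination s1 + (1 / 2) * b2 + t2 + R.k4 + R.h1) (by linear_combination s2 + (1 / 2) * b1 + t1 + R.k3 + R.h2)
  have e9 := up (t1 := (257 / 1000)) (t2 := (270 / 1000)) (x := s - t) (by norm_num)
    (by linear_combination (1066049 / 1000000) * s1 + (1066049 / 1000000) * t2) (by linear_combination (10729 / 10000) * s2 + (10729 / 10000) * t1)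
  have e10 := lo (t := (461 / 1000)) (x := s - h0 + 1 - t + b / 2 - k) (by norm_num)
    (by linear_combination s1 + (1 / 2) * b1 + t2 + R.k4 + R.h2) (by linear_combination s2 + (1 / 2) * b2 + t1 + R.k3 + R.h1)
  have e11 := lo (t := (802 / 1000)) (x := 9 / 5 - h0 - t + b / 2 - k) (by norm_num)
    (by linear_combination (1 / 2) * b1 + t2 + R.k4 + R.h2) (by linear_combination t1 + 2 * R.h1 + R.hz)
  have e12 := lo (t := (322 / 1000)) (x := s) (by norm_num)
    (by linear_combination s1) (by linear_combination s2)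
  have e13 := up (t1 := (248 / 1000)) (t2 := (268 / 1000)) (x := b) (by norm_num)
    (by linear_combination (16586 / 15625) * b1) (by linear_combination (66989 / 62500) * b2)
  have c1 := R.phs
  have c2 := R.q1w ha (by linear_combination (125 / 129) * e13 + (497413 / 129) * R.k1 + (497542 / 129) * R.k2 + s1 + t2 + R.h1)
  have c3 := R.rv2 (by linear_combination (125 / 129) * e13 + (497413 / 129) * R.k1 + (497542 / 129) * R.k2 + t2)
  have c4 := R.svl (by linear_combination (125 / 129) * e13 + (497413 / 129) * R.k1 + (497542 / 129) * R.k2 + t2) hl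
  linear_combination (19284723047012430815961488875 / 3765570095523993601179843144) * e13 + (500000 / 224079) * e12 + (125000 / 89199) * e11 + (500000 / 787479) * e10 + (450000 / 93061) * e9 + (31250 / 62499) * e8 + (625 / 738) * e7 + (1000000 / 945711) * e6 + (500000 / 994959) * e5 + (31250 / 32873) * e4 + (125000 / 205167) * e3 + (250000 / 235839) * e2 + (125000 / 248861) * e1 + (621151373557096053605350 / 177481194301082891770551) * R.k2 + (15626702459595866272100754857003108 / 29047243570263040521917258199930933) * s1 + (80219534661766485660207508099 / 1896578344815198242352485100000) * b2 + (15715302746095108061181306700 / 16516577422853074991059246611) * t2 + (69543986348356817846583676921984675 / 106619401192075035124761454801832508) * R.h1 + (1 / 2) * R.h3 + (1 / 2) * c1 + (1 / 2) * c2 + (1 / 2) * c3 + (1 / 2) * c4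

theorem we23 {s b t k G1 G2 G3 G4 : ℝ} (R : RegB s b t k G1 G2 G3 G4) (hT : t ≤ 284 / 1000 * s) (hy : 0 ≤ s - 1 / 2 - t) (ha : 0 ≤ 1 - h0 - t) (hl : 0 ≤ 2 * h0 - 9 / 5 + t)
    (s1 : 1177 / 2000 ≤ s) (s2 : s ≤ 607 / 1000)
    (b1 : 4688 / 10000 ≤ b) (b2 : b ≤ 1 / 2) (t1 : 862 / 10000 ≤ t) (t2 : t ≤ 97 / 1000) :
    4 * ph (s - t) - 2 * ph s ≤ (G1 + G2 + G3 + G4) / 2 := by
  have e1 := up (t1 := (67 / 1000)) (t2 := (68 / 1000)) (x := 1 - h0) (by norm_num)
    (by linear_combination (1004489 / 1000000) * R.h2) (by linear_combination (62789 / 62500) * R.h1)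
  have e2 := lo (t := (246 / 1000)) (x := h0 + s - 1) (by norm_num)
    (by linear_combination s1 + R.h1) (by linear_combination s2 + R.h2)
  have e3 := up (t1 := (427 / 1000)) (t2 := (444 / 1000)) (x := s - h0 + 1) (by norm_num)
    (by linear_combination (1182329 / 1000000) * s1 + (1182329 / 1000000) * R.h2) (by linear_combination (74821 / 62500) * s2 + (74821 / 62500) * R.h1)
  have e4 := up (t1 := (688 / 1000)) (t2 := (689 / 1000)) (x := 9 / 5 - h0) (by norm_num)
    (by linear_combination (23021 / 15625) * R.h2) (by linear_combination (1474721 / 1000000) * R.h1)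
  have e5 := lo (t := (78 / 1000)) (x := s - t - b / 2 - k) (by norm_num)
    (by linear_combination s1 + (1 / 2) * b2 + t2 + R.k4) (by linear_combination s2 + (1 / 2) * b1 + t1 + R.k3)
  have e6 := lo (t := (233 / 1000)) (x := t + b / 2 + k) (by norm_num)
    (by linear_combination (1 / 2) * b1 + t1 + R.k3) (by linear_combination (1 / 2) * b2 + t2 + R.k4)
  have e7 := lo (t := (640 / 1000)) (x := h0 - t + b / 2 - k) (by norm_num)
    (by linear_combination (1 / 2) * b1 + t2 + R.k4 + R.h1) (by linear_combination t1 + R.hz)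
  have e8 := lo (t := (11 / 1000)) (x := h0 + s - 1 - t - b / 2 - k) (by norm_num)
    (by linear_combination s1 + (1 / 2) * b2 + t2 + R.k4 + R.h1) (by linear_combination s2 + (1 / 2) * b1 + t1 + R.k3 + R.h2)
  have e9 := up (t1 := (262 / 1000)) (t2 := (281 / 1000)) (x := s - t) (by norm_num)
    (by linear_combination (267161 / 250000) * s1 + (267161 / 250000) * t2) (by linear_combination (1078961 / 1000000) * s2 + (1078961 / 1000000) * t1)
  have e10 := lo (t := (474 / 1000)) (x := s - h0 + 1 - t + b / 2 - k) (by norm_num)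
    (by linear_combination s1 + (1 / 2) * b1 + t2 + R.k4 + R.h2) (by linear_combination s2 + (1 / 2) * b2 + t1 + R.k3 + R.h1)
  have e11 := lo (t := (802 / 1000)) (x := 9 / 5 - h0 - t + b / 2 - k) (by norm_num)
    (by linear_combination (1 / 2) * b1 + t2 + R.k4 + R.h2) (by linear_combination t1 + 2 * R.h1 + R.hz)
  have e12 := lo (t := (332 / 1000)) (x := s) (by norm_num)
    (by linear_combination s1) (by linear_combination s2)
  have e13 := up (t1 := (248 / 1000)) (t2 := (268 / 1000)) (x := b) (by norm_num)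
    (by linear_combination (16586 / 15625) * b1) (by linear_combination (66989 / 62500) * b2)
  have c1 := R.phs
  have c2 := R.q1w ha (by linear_combination (125 / 129) * e13 + (497413 / 129) * R.k1 + (497542 / 129) * R.k2 + s1 + t2 + R.h1)
  have c3 := R.rv2 (by linear_combination (125 / 129) * e13 + (497413 / 129) * R.k1 + (497542 / 129) * R.k2 + t2)
  have c4 := R.svl (by linear_combination (125 / 129) * e13 + (497413 / 129) * R.k1 + (497542 / 129) * R.k2 + t2) hl
  linear_combination (929958864804836603446744384625 / 180277142629365841970991541188) * e13 + (125000 / 55611) * e12 + (125000 / 89199) * e11 + (125000 / 193831) * e10 + (2250000 / 463189) * e9 + (500000 / 999879) * e8 + (625 / 738) * e7 + (1000000 / 945711) * e6 + (125000 / 248479) * e5 + (31250 / 32873) * e4 + (125000 / 202603) * e3 + (250000 / 234871) * e2 + (125000 / 248861) * e1 + (60156240822171200487139900 / 16993869064914683625963279) * R.k2 + (138488580550785376736522510907033182 /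 255530417523583201579993606776890307) * s1 + (635667298886262183826058269135723 / 11440664820709755355851386267700000) * b2 + (7101449500121141462417207022850 / 7871373218308767394026305236731) * t2 + (7511409664689455261287361539452087025 / 11148354570400021955542554779327745204) * R.h1 + (1 / 2) * R.h3 + (1 / 2) * c1 + (1 / 2) * c2 + (1 / 2) * c3 + (1 / 2) * c4

theorem we25 {s b t k G1 G2 G3 G4 : ℝ} (R : RegB s b t k G1 G2 G3 G4) (hT : t ≤ 284 / 1000 * s) (hy : 0 ≤ s - 1 / 2 - t) (ha : 0 ≤ 1 - h0 - t) (hl : 0 ≤ 2 * h0 - 9 / 5 + t)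
    (s1 : 57 / 100 ≤ s) (s2 : s ≤ 1177 / 2000)
    (b1 : 875 / 2000 ≤ b) (b2 : b ≤ 1 / 2) (t1 : 97 / 1000 ≤ t) (t2 : t ≤ 1078 / 10000) :
    4 * ph (s - t) - 2 * ph s ≤ (G1 + G2 + G3 + G4) / 2 := by
  exfalso
  exact absurd hy (not_le.mpr (by linear_combination s2 + t1))

theorem we28 {s b t k G1 G2 G3 G4 : ℝ} (R : RegB s b t k G1 G2 G3 G4) (hT : t ≤ 284 / 1000 * s) (hy : 0 ≤ s - 1 / 2 - t) (ha : 0 ≤ 1 - h0 - t) (hl : 0 ≤ 2 * h0 - 9 / 5 + t)
    (s1 : 1177 / 2000 ≤ s) (s2 : s ≤ 5932 / 10000)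
    (b1 : 875 / 2000 ≤ b) (b2 : b ≤ 1 / 2) (t1 : 97 / 1000 ≤ t) (t2 : t ≤ 1078 / 10000) :
    4 * ph (s - t) - 2 * ph s ≤ (G1 + G2 + G3 + G4) / 2 := by
  exfalso
  exact absurd hy (not_le.mpr (by linear_combination s2 + t1))

theorem we29 {s b t k G1 G2 G3 G4 : ℝ} (R : RegB s b t k G1 G2 G3 G4) (hT : t ≤ 284 / 1000 * s) (hy : 0 ≤ s - 1 / 2 - t) (ha : 0 ≤ 1 - h0 - t) (hl : 0 ≤ 2 * h0 - 9 / 5 + t)
    (s1 : 5932 / 10000 ≤ s) (s2 : s ≤ 5978 / 10000)
    (b1 : 875 / 2000 ≤ b) (b2 : b ≤ 1 / 2) (t1 : 97 / 1000 ≤ t) (t2 : t ≤ 1078 / 10000) :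
    4 * ph (s - t) - 2 * ph s ≤ (G1 + G2 + G3 + G4) / 2 := by
  have e1 := up (t1 := (67 / 1000)) (t2 := (68 / 1000)) (x := 1 - h0) (by norm_num)
    (by linear_combination (1004489 / 1000000) * R.h2) (by linear_combination (62789 / 62500) * R.h1)
  have e2 := lo (t := (245 / 1000)) (x := h0 + s - 1) (by norm_num)
    (by linear_combination s1 + R.h1) (by linear_combination s2 + R.h2)
  have e3 := up (t1 := (431 / 1000)) (t2 := (436 / 1000)) (x := s - h0 + 1) (by norm_num)
    (by linear_combination (1185761 / 1000000) * s1 + (1185761 / 1000000) * R.h2) (by linear_combination (74381 / 62500) * s2 + (74381 / 62500) * R.h1)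
  have e4 := up (t1 := (688 / 1000)) (t2 := (689 / 1000)) (x := 9 / 5 - h0) (by norm_num)
    (by linear_combination (23021 / 15625) * R.h2) (by linear_combination (1474721 / 1000000) * R.h1)
  have e5 := lo (t := (79 / 1000)) (x := s - t - b / 2 - k) (by norm_num)
    (by linear_combination s1 + (1 / 2) * b2 + t2 + R.k4) (by linear_combination s2 + (1 / 2) * b1 + t1 + R.k3)
  have e6 := lo (t := (231 / 1000)) (x := t + b / 2 + k) (by norm_num)
    (by linear_combination (1 / 2) * b1 + t1 + R.k3) (by linear_combination (1 / 2) * b2 + t2 + R.k4)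
  have e7 := lo (t := (621 / 1000)) (x := h0 - t + b / 2 - k) (by norm_num)
    (by linear_combination (1 / 2) * b1 + t2 + R.k4 + R.h1) (by linear_combination t1 + R.hz)
  have e8 := up (t1 := (258 / 1000)) (t2 := (269 / 1000)) (x := s - t) (by norm_num)
    (by linear_combination (266641 / 250000) * s1 + (266641 / 250000) * t2) (by linear_combination (1072361 / 1000000) * s2 + (1072361 / 1000000) * t1)
  have e9 := lo (t := (460 / 1000)) (x := s - h0 + 1 - t + b / 2 - k) (by norm_num)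
    (by linear_combination s1 + (1 / 2) * b1 + t2 + R.k4 + R.h2) (by linear_combination s2 + (1 / 2) * b2 + t1 + R.k3 + R.h1)
  have e10 := lo (t := (762 / 1000)) (x := 9 / 5 - h0 - t + b / 2 - k) (by norm_num)
    (by linear_combination (1 / 2) * b1 + t2 + R.k4 + R.h2) (by linear_combination t1 + 2 * R.h1 + R.hz)
  have e11 := lo (t := (330 / 1000)) (x := s) (by norm_num)
    (by linear_combination s1) (by linear_combination s2)
  have e12 := up (t1 := (230 / 1000)) (t2 := (268 / 1000)) (x := b) (by norm_num)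
    (by linear_combination (10529 / 10000) * b1) (by linear_combination (66989 / 62500) * b2)
  have c1 := R.phs
  have c2 := R.qhw ha
  have c3 := R.rv2 (by linear_combination (250 / 249) * e12 + (1894853 / 249) * R.k1 + (1895102 / 249) * R.k2 + t2)
  have c4 := R.svl (by linear_combination (250 / 249) * e12 + (1894853 / 249) * R.k1 + (1895102 / 249) * R.k2 + t2) hl
  linear_combination (8796400942816631195896663361825 / 1867735711714435793499199984326) * e12 + (20000 / 8911) * e11 + (125000 / 104839) * e10 + (1250 / 1971) * e9 + (2250000 / 465299) * e8 + (500000 / 614359) * e7 + (1000000 / 946639) * e6 + (1000000 / 993759) * e5 + (31250 / 32873) * e4 + (125000 / 203021) * e3 + (40000 / 37599) * e2 + (250000 / 248861) * e1 + (122701436303284012832239550 / 39808510842628325877045057) * R.k2 + (604532571183060460177442 / 911972042693037719096067) * s1 + (303183450932347008645481805868649 / 7183598891209368436535384555100000) * b2 + (9889913878835210478122054037700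 / 18522860286564117402263187977043) * t2 + (239450503641477654843166043705375 / 215718709797845205623757193082364) * R.h1 + (1 / 2) * R.h3 + (1 / 2) * c1 + (1 / 2) * c2 + (1 / 2) * c3 + (1 / 2) * c4

theorem we30 {s b t k G1 G2 G3 G4 : ℝ} (R : RegB s b t k G1 G2 G3 G4) (hT : t ≤ 284 / 1000 * s) (hy : 0 ≤ s - 1 / 2 - t) (ha : 0 ≤ 1 - h0 - t) (hl : 0 ≤ 2 * h0 - 9 / 5 + t)
    (s1 : 5978 / 10000 ≤ s) (s2 : s ≤ 607 / 1000)
    (b1 : 875 / 2000 ≤ b) (b2 : b ≤ 1 / 2) (t1 : 97 / 1000 ≤ t) (t2 : t ≤ 1078 / 10000) :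
    4 * ph (s - t) - 2 * ph s ≤ (G1 + G2 + G3 + G4) / 2 := by
  have e1 := up (t1 := (67 / 1000)) (t2 := (68 / 1000)) (x := 1 - h0) (by norm_num)
    (by linear_combination (1004489 / 1000000) * R.h2) (by linear_combination (62789 / 62500) * R.h1)
  have e2 := lo (t := (249 / 1000)) (x := h0 + s - 1) (by norm_num)
    (by linear_combination s1 + R.h1) (by linear_combination s2 + R.h2)
  have e3 := up (t1 := (435 / 1000)) (t2 := (444 / 1000)) (x := s - h0 + 1) (by norm_num)
    (by linear_combination (47569 / 40000) * s1 + (47569 / 40000) * R.h2) (by linear_combination (74821 / 62500) * s2 + (74821 / 62500) * R.h1)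
  have e4 := up (t1 := (688 / 1000)) (t2 := (689 / 1000)) (x := 9 / 5 - h0) (by norm_num)
    (by linear_combination (23021 / 15625) * R.h2) (by linear_combination (1474721 / 1000000) * R.h1)
  have e5 := lo (t := (83 / 1000)) (x := s - t - b / 2 - k) (by norm_num)
    (by linear_combination s1 + (1 / 2) * b2 + t2 + R.k4) (by linear_combination s2 + (1 / 2) * b1 + t1 + R.k3)
  have e6 := lo (t := (231 / 1000)) (x := t + b / 2 + k) (by norm_num)
    (by linear_combination (1 / 2) * b1 + t1 + R.k3) (by linear_combination (1 / 2) * b2 + t2 + R.k4)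
  have e7 := lo (t := (621 / 1000)) (x := h0 - t + b / 2 - k) (by norm_num)
    (by linear_combination (1 / 2) * b1 + t2 + R.k4 + R.h1) (by linear_combination t1 + R.hz)
  have e8 := up (t1 := (261 / 1000)) (t2 := (275 / 1000)) (x := s - t) (by norm_num)
    (by linear_combination (1068121 / 1000000) * s1 + (1068121 / 1000000) * t2) (by linear_combination (1721 / 1600) * s2 + (1721 / 1600) * t1)
  have e9 := lo (t := (467 / 1000)) (x := s - h0 + 1 - t + b / 2 - k) (by norm_num)
    (by linear_combination s1 + (1 / 2) * b1 + t2 + R.k4 + R.h2) (by linear_combination s2 + (1 / 2) * b2 + t1 + R.k3 + R.h1)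
  have e10 := lo (t := (762 / 1000)) (x := 9 / 5 - h0 - t + b / 2 - k) (by norm_num)
    (by linear_combination (1 / 2) * b1 + t2 + R.k4 + R.h2) (by linear_combination t1 + 2 * R.h1 + R.hz)
  have e11 := lo (t := (335 / 1000)) (x := s) (by norm_num)
    (by linear_combination s1) (by linear_combination s2)
  have e12 := up (t1 := (230 / 1000)) (t2 := (268 / 1000)) (x := b) (by norm_num)
    (by linear_combination (10529 / 10000) * b1) (by linear_combination (66989 / 62500) * b2)
  have c1 := R.phs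
  have c2 := R.qhw ha
  have c3 := R.rv2 (by linear_combination (250 / 249) * e12 + (1894853 / 249) * R.k1 + (1895102 / 249) * R.k2 + t2)
  have c4 := R.svl (by linear_combination (250 / 249) * e12 + (1894853 / 249) * R.k1 + (1895102 / 249) * R.k2 + t2) hl
  linear_combination (250166282780296224122409948508625 / 52890150527932064819593143350601) * e12 + (80000 / 35511) * e11 + (125000 / 104839) * e10 + (500000 / 781911) * e9 + (180000 / 37129) * e8 + (500000 / 614359) * e7 + (1000000 / 946639) * e6 + (1000000 / 993111) * e5 + (31250 / 32873) * e4 + (25000 / 40343) * e3 + (1000000 / 937999) * e2 + (250000 / 248861) * e1 + (6998763808836344648027936500 / 2254578222768748233922722339) * R.k2 + (3058732171743399614164437352 / 4623912904452340059131079717) * s1 + (261687529620293325814057282630151099 / 5289015052793206481959314335060100000) * b2 + (42335394525555810827765003041780 / 83710234833180853177316757724731) * t2 + (69643447814341470167398875417629459675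 / 62363309757388542760941090254617785324) * R.h1 + (1 / 2) * R.h3 + (1 / 2) * c1 + (1 / 2) * c2 + (1 / 2) * c3 + (1 / 2) * c4

theorem we31 {s b t k G1 G2 G3 G4 : ℝ} (R : RegB s b t k G1 G2 G3 G4) (hT : t ≤ 284 / 1000 * s) (hy : 0 ≤ s - 1 / 2 - t) (ha : 0 ≤ 1 - h0 - t) (hl : 0 ≤ 2 * h0 - 9 / 5 + t)
    (s1 : 57 / 100 ≤ s) (s2 : s ≤ 607 / 1000)
    (b1 : 15 / 40 ≤ b) (b2 : b ≤ 1 / 2) (t1 : 1078 / 10000 ≤ t) (t2 : t ≤ 1294 / 10000) :
    4 * ph (s - t) - 2 * ph s ≤ (G1 + G2 + G3 + G4) / 2 := by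
  exfalso
  exact absurd hy (not_le.mpr (by linear_combination s2 + t1))

theorem we32 {s b t k G1 G2 G3 G4 : ℝ} (R : RegB s b t k G1 G2 G3 G4) (hT : t ≤ 284 / 1000 * s) (hy : 0 ≤ s - 1 / 2 - t) (ha : 0 ≤ 1 - h0 - t) (hl : 0 ≤ 2 * h0 - 9 / 5 + t)
    (s1 : 57 / 100 ≤ s) (s2 : s ≤ 607 / 1000)
    (b1 : 15 / 40 ≤ b) (b2 : b ≤ 1 / 2) (t1 : 1294 / 10000 ≤ t) (t2 : t ≤ 345 / 2000) :
    4 * ph (s - t) - 2 * ph s ≤ (G1 + G2 + G3 + G4) / 2 := by
  exfalso
  exact absurd hy (not_le.mpr (by linear_combination s2 + t1))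

theorem we27 {s b t k G1 G2 G3 G4 : ℝ} (R : RegB s b t k G1 G2 G3 G4) (hT : t ≤ 284 / 1000 * s) (hy : 0 ≤ s - 1 / 2 - t) (ha : 0 ≤ 1 - h0 - t) (hl : 0 ≤ 2 * h0 - 9 / 5 + t)
    (s1 : 1177 / 2000 ≤ s) (s2 : s ≤ 5978 / 10000)
    (b1 : 875 / 2000 ≤ b) (b2 : b ≤ 1 / 2) (t1 : 97 / 1000 ≤ t) (t2 : t ≤ 1078 / 10000) :
    4 * ph (s - t) - 2 * ph s ≤ (G1 + G2 + G3 + G4) / 2 := by
  rcases le_total s (5932 / 10000) with h | h
  · exact we28 R hT hy ha hl s1 h b1 b2 t1 t2
  · exact we29 R hT hy ha hl h s2 b1 b2 t1 t2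

theorem we26 {s b t k G1 G2 G3 G4 : ℝ} (R : RegB s b t k G1 G2 G3 G4) (hT : t ≤ 284 / 1000 * s) (hy : 0 ≤ s - 1 / 2 - t) (ha : 0 ≤ 1 - h0 - t) (hl : 0 ≤ 2 * h0 - 9 / 5 + t)
    (s1 : 1177 / 2000 ≤ s) (s2 : s ≤ 607 / 1000)
    (b1 : 875 / 2000 ≤ b) (b2 : b ≤ 1 / 2) (t1 : 97 / 1000 ≤ t) (t2 : t ≤ 1078 / 10000) :
    4 * ph (s - t) - 2 * ph s ≤ (G1 + G2 + G3 + G4) / 2 := by
  rcases le_total s (5978 / 10000) with h | h
  · exact we27 R hT hy ha hl s1 h b1 b2 t1 t2
  · exact we30 R hT hy ha hl h s2 b1 b2 t1 t2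

theorem we24 {s b t k G1 G2 G3 G4 : ℝ} (R : RegB s b t k G1 G2 G3 G4) (hT : t ≤ 284 / 1000 * s) (hy : 0 ≤ s - 1 / 2 - t) (ha : 0 ≤ 1 - h0 - t) (hl : 0 ≤ 2 * h0 - 9 / 5 + t)
    (s1 : 57 / 100 ≤ s) (s2 : s ≤ 607 / 1000)
    (b1 : 875 / 2000 ≤ b) (b2 : b ≤ 1 / 2) (t1 : 97 / 1000 ≤ t) (t2 : t ≤ 1078 / 10000) :
    4 * ph (s - t) - 2 * ph s ≤ (G1 + G2 + G3 + G4) / 2 := by
  rcases le_total s (1177 / 2000) with h | h
  · exact we25 R hT hy ha hl s1 h b1 b2 t1 t2
  · exact we26 R hT hy ha hl h s2 b1 b2 t1 t2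

theorem we20 {s b t k G1 G2 G3 G4 : ℝ} (R : RegB s b t k G1 G2 G3 G4) (hT : t ≤ 284 / 1000 * s) (hy : 0 ≤ s - 1 / 2 - t) (ha : 0 ≤ 1 - h0 - t) (hl : 0 ≤ 2 * h0 - 9 / 5 + t)
    (s1 : 57 / 100 ≤ s) (s2 : s ≤ 1177 / 2000)
    (b1 : 4688 / 10000 ≤ b) (b2 : b ≤ 1 / 2) (t1 : 862 / 10000 ≤ t) (t2 : t ≤ 97 / 1000) :
    4 * ph (s - t) - 2 * ph s ≤ (G1 + G2 + G3 + G4) / 2 := by
  rcases le_total s (5793 / 10000) with h | h
  · exact we21 R hT hy ha hl s1 h b1 b2 t1 t2
  · exact we22 R hT hy ha hl h s2 b1 b2 t1 t2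

theorem we19 {s b t k G1 G2 G3 G4 : ℝ} (R : RegB s b t k G1 G2 G3 G4) (hT : t ≤ 284 / 1000 * s) (hy : 0 ≤ s - 1 / 2 - t) (ha : 0 ≤ 1 - h0 - t) (hl : 0 ≤ 2 * h0 - 9 / 5 + t)
    (s1 : 57 / 100 ≤ s) (s2 : s ≤ 607 / 1000)
    (b1 : 4688 / 10000 ≤ b) (b2 : b ≤ 1 / 2) (t1 : 862 / 10000 ≤ t) (t2 : t ≤ 97 / 1000) :
    4 * ph (s - t) - 2 * ph s ≤ (G1 + G2 + G3 + G4) / 2 := by
  rcases le_total s (1177 / 2000) with h | h
  · exact we20 R hT hy ha hl s1 h b1 b2 t1 t2
  · exact we23 R hT hy ha hl h s2 b1 b2 t1 t2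

theorem we17 {s b t k G1 G2 G3 G4 : ℝ} (R : RegB s b t k G1 G2 G3 G4) (hT : t ≤ 284 / 1000 * s) (hy : 0 ≤ s - 1 / 2 - t) (ha : 0 ≤ 1 - h0 - t) (hl : 0 ≤ 2 * h0 - 9 / 5 + t)
    (s1 : 57 / 100 ≤ s) (s2 : s ≤ 607 / 1000)
    (b1 : 875 / 2000 ≤ b) (b2 : b ≤ 1 / 2) (t1 : 862 / 10000 ≤ t) (t2 : t ≤ 97 / 1000) :
    4 * ph (s - t) - 2 * ph s ≤ (G1 + G2 + G3 + G4) / 2 := by
  rcases le_total b (4688 / 10000) with h | h
  · exact we18 R hT hy ha hl s1 s2 b1 h t1 t2
  · exact we19 R hT hy ha hl s1 s2 h b2 t1 t2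

theorem we16 {s b t k G1 G2 G3 G4 : ℝ} (R : RegB s b t k G1 G2 G3 G4) (hT : t ≤ 284 / 1000 * s) (hy : 0 ≤ s - 1 / 2 - t) (ha : 0 ≤ 1 - h0 - t) (hl : 0 ≤ 2 * h0 - 9 / 5 + t)
    (s1 : 57 / 100 ≤ s) (s2 : s ≤ 607 / 1000)
    (b1 : 875 / 2000 ≤ b) (b2 : b ≤ 1 / 2) (t1 : 862 / 10000 ≤ t) (t2 : t ≤ 1078 / 10000) :
    4 * ph (s - t) - 2 * ph s ≤ (G1 + G2 + G3 + G4) / 2 := by
  rcases le_total t (97 / 1000) with h | h
  · exact we17 R hT hy ha hl s1 s2 b1 b2 t1 h
  · exact we24 R hT hy ha hl s1 s2 b1 b2 h t2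

theorem we14 {s b t k G1 G2 G3 G4 : ℝ} (R : RegB s b t k G1 G2 G3 G4) (hT : t ≤ 284 / 1000 * s) (hy : 0 ≤ s - 1 / 2 - t) (ha : 0 ≤ 1 - h0 - t) (hl : 0 ≤ 2 * h0 - 9 / 5 + t)
    (s1 : 57 / 100 ≤ s) (s2 : s ≤ 607 / 1000)
    (b1 : 15 / 40 ≤ b) (b2 : b ≤ 1 / 2) (t1 : 862 / 10000 ≤ t) (t2 : t ≤ 1078 / 10000) :
    4 * ph (s - t) - 2 * ph s ≤ (G1 + G2 + G3 + G4) / 2 := by
  rcases le_total b (875 / 2000) with h | h
  · exact we15 R hT hy ha hl s1 s2 b1 h t1 t2
  · exact we16 R hT hy ha hl s1 s2 h b2 t1 t2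

theorem we13 {s b t k G1 G2 G3 G4 : ℝ} (R : RegB s b t k G1 G2 G3 G4) (hT : t ≤ 284 / 1000 * s) (hy : 0 ≤ s - 1 / 2 - t) (ha : 0 ≤ 1 - h0 - t) (hl : 0 ≤ 2 * h0 - 9 / 5 + t)
    (s1 : 57 / 100 ≤ s) (s2 : s ≤ 607 / 1000)
    (b1 : 15 / 40 ≤ b) (b2 : b ≤ 1 / 2) (t1 : 862 / 10000 ≤ t) (t2 : t ≤ 1294 / 10000) :
    4 * ph (s - t) - 2 * ph s ≤ (G1 + G2 + G3 + G4) / 2 := by
  rcases le_total t (1078 / 10000) with h | h
  · exact we14 R hT hy ha hl s1 s2 b1 b2 t1 h
  · exact we31 R hT hy ha hl s1 s2 b1 b2 h t2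

theorem we12 {s b t k G1 G2 G3 G4 : ℝ} (R : RegB s b t k G1 G2 G3 G4) (hT : t ≤ 284 / 1000 * s) (hy : 0 ≤ s - 1 / 2 - t) (ha : 0 ≤ 1 - h0 - t) (hl : 0 ≤ 2 * h0 - 9 / 5 + t)
    (s1 : 57 / 100 ≤ s) (s2 : s ≤ 607 / 1000)
    (b1 : 15 / 40 ≤ b) (b2 : b ≤ 1 / 2) (t1 : 862 / 10000 ≤ t) (t2 : t ≤ 345 / 2000) :
    4 * ph (s - t) - 2 * ph s ≤ (G1 + G2 + G3 + G4) / 2 := by
  rcases le_total t (1294 / 10000) with h | h
  · exact we13 R hT hy ha hl s1 s2 b1 b2 t1 h
  · exact we32 R hT hy ha hl s1 s2 b1 b2 h t2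

theorem we9 {s b t k G1 G2 G3 G4 : ℝ} (R : RegB s b t k G1 G2 G3 G4) (hT : t ≤ 284 / 1000 * s) (hy : 0 ≤ s - 1 / 2 - t) (ha : 0 ≤ 1 - h0 - t) (hl : 0 ≤ 2 * h0 - 9 / 5 + t)
    (s1 : 57 / 100 ≤ s) (s2 : s ≤ 607 / 1000)
    (b1 : 4688 / 10000 ≤ b) (b2 : b ≤ 1 / 2) (t1 : 647 / 10000 ≤ t) (t2 : t ≤ 862 / 10000) :
    4 * ph (s - t) - 2 * ph s ≤ (G1 + G2 + G3 + G4) / 2 := by
  rcases le_total t (754 / 10000) with h | h
  · exact we10 R hT hy ha hl s1 s2 b1 b2 t1 h
  · exact we11 R hT hy ha hl s1 s2 b1 b2 h t2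

theorem we7 {s b t k G1 G2 G3 G4 : ℝ} (R : RegB s b t k G1 G2 G3 G4) (hT : t ≤ 284 / 1000 * s) (hy : 0 ≤ s - 1 / 2 - t) (ha : 0 ≤ 1 - h0 - t) (hl : 0 ≤ 2 * h0 - 9 / 5 + t)
    (s1 : 57 / 100 ≤ s) (s2 : s ≤ 607 / 1000)
    (b1 : 875 / 2000 ≤ b) (b2 : b ≤ 1 / 2) (t1 : 647 / 10000 ≤ t) (t2 : t ≤ 862 / 10000) :
    4 * ph (s - t) - 2 * ph s ≤ (G1 + G2 + G3 + G4) / 2 := by
  rcases le_total b (4688 / 10000) with h | h
  · exact we8 R hT hy ha hl s1 s2 b1 h t1 t2
  · exact we9 R hT hy ha hl s1 s2 h b2 t1 t2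

theorem we5 {s b t k G1 G2 G3 G4 : ℝ} (R : RegB s b t k G1 G2 G3 G4) (hT : t ≤ 284 / 1000 * s) (hy : 0 ≤ s - 1 / 2 - t) (ha : 0 ≤ 1 - h0 - t) (hl : 0 ≤ 2 * h0 - 9 / 5 + t)
    (s1 : 57 / 100 ≤ s) (s2 : s ≤ 607 / 1000)
    (b1 : 15 / 40 ≤ b) (b2 : b ≤ 1 / 2) (t1 : 647 / 10000 ≤ t) (t2 : t ≤ 862 / 10000) :
    4 * ph (s - t) - 2 * ph s ≤ (G1 + G2 + G3 + G4) / 2 := by
  rcases le_total b (875 / 2000) with h | h
  · exact we6 R hT hy ha hl s1 s2 b1 h t1 t2
  · exact we7 R hT hy ha hl s1 s2 h b2 t1 t2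

theorem we3 {s b t k G1 G2 G3 G4 : ℝ} (R : RegB s b t k G1 G2 G3 G4) (hT : t ≤ 284 / 1000 * s) (hy : 0 ≤ s - 1 / 2 - t) (ha : 0 ≤ 1 - h0 - t) (hl : 0 ≤ 2 * h0 - 9 / 5 + t)
    (s1 : 57 / 100 ≤ s) (s2 : s ≤ 607 / 1000)
    (b1 : 15 / 40 ≤ b) (b2 : b ≤ 1 / 2) (t1 : 431 / 10000 ≤ t) (t2 : t ≤ 862 / 10000) :
    4 * ph (s - t) - 2 * ph s ≤ (G1 + G2 + G3 + G4) / 2 := by
  rcases le_total t (647 / 10000) with h | h
  · exact we4 R hT hy ha hl s1 s2 b1 b2 t1 h
  · exact we5 R hT hy ha hl s1 s2 b1 b2 h t2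

theorem we1 {s b t k G1 G2 G3 G4 : ℝ} (R : RegB s b t k G1 G2 G3 G4) (hT : t ≤ 284 / 1000 * s) (hy : 0 ≤ s - 1 / 2 - t) (ha : 0 ≤ 1 - h0 - t) (hl : 0 ≤ 2 * h0 - 9 / 5 + t)
    (s1 : 57 / 100 ≤ s) (s2 : s ≤ 607 / 1000)
    (b1 : 15 / 40 ≤ b) (b2 : b ≤ 1 / 2) (t1 : 0 ≤ t) (t2 : t ≤ 862 / 10000) :
    4 * ph (s - t) - 2 * ph s ≤ (G1 + G2 + G3 + G4) / 2 := by
  rcases le_total t (431 / 10000) with h | h
  · exact we2 R hT hy ha hl s1 s2 b1 b2 t1 h
  · exact we3 R hT hy ha hl s1 s2 b1 b2 h t2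

theorem we0 {s b t k G1 G2 G3 G4 : ℝ} (R : RegB s b t k G1 G2 G3 G4) (hT : t ≤ 284 / 1000 * s) (hy : 0 ≤ s - 1 / 2 - t) (ha : 0 ≤ 1 - h0 - t) (hl : 0 ≤ 2 * h0 - 9 / 5 + t)
    (s1 : 57 / 100 ≤ s) (s2 : s ≤ 607 / 1000)
    (b1 : 15 / 40 ≤ b) (b2 : b ≤ 1 / 2) (t1 : 0 ≤ t) (t2 : t ≤ 345 / 2000) :
    4 * ph (s - t) - 2 * ph s ≤ (G1 + G2 + G3 + G4) / 2 := by
  rcases le_total t (862 / 10000) with h | h
  · exact we1 R hT hy ha hl s1 s2 b1 b2 t1 h
  · exact we12 R hT hy ha hl s1 s2 b1 b2 h t2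

theorem ob1 {s b t k G1 G2 G3 G4 : ℝ} (R : RegB s b t k G1 G2 G3 G4) (hT : t ≤ 284 / 1000 * s) (hy : 0 ≤ 1 / 2 - s + t) (ha : 0 ≤ h0 - 1 + t)
    (s1 : 57 / 100 ≤ s) (s2 : s ≤ 607 / 1000)
    (b1 : 15 / 40 ≤ b) (b2 : b ≤ 1 / 2) (t1 : 0 ≤ t) (t2 : t ≤ 862 / 10000) :
    4 * ph (s - t) - 2 * ph s - dl s ≤ (G1 + G2 + G3 + G4) / 2 := by
  exfalso
  exact absurd ha (not_le.mpr (by linear_combination t2 + R.h2))

theorem ob3 {s b t k G1 G2 G3 G4 : ℝ} (R : RegB s b t k G1 G2 G3 G4) (hT : t ≤ 284 / 1000 * s) (hy : 0 ≤ 1 / 2 - s + t) (ha : 0 ≤ h0 - 1 + t)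
    (s1 : 57 / 100 ≤ s) (s2 : s ≤ 607 / 1000)
    (b1 : 15 / 40 ≤ b) (b2 : b ≤ 1 / 2) (t1 : 862 / 10000 ≤ t) (t2 : t ≤ 1294 / 10000) :
    4 * ph (s - t) - 2 * ph s - dl s ≤ (G1 + G2 + G3 + G4) / 2 := by
  exfalso
  exact absurd ha (not_le.mpr (by linear_combination t2 + R.h2))

theorem ob7 {s b t k G1 G2 G3 G4 : ℝ} (R : RegB s b t k G1 G2 G3 G4) (hT : t ≤ 284 / 1000 * s) (hy : 0 ≤ 1 / 2 - s + t) (ha : 0 ≤ h0 - 1 + t)
    (s1 : 57 / 100 ≤ s) (s2 : s ≤ 1177 / 2000)
    (b1 : 15 / 40 ≤ b) (b2 : b ≤ 875 / 2000) (t1 : 1294 / 10000 ≤ t) (t2 : t ≤ 1509 / 10000) :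
    4 * ph (s - t) - 2 * ph s - dl s ≤ (G1 + G2 + G3 + G4) / 2 := by
  have e1 := up (t1 := (67 / 1000)) (t2 := (68 / 1000)) (x := 1 - h0) (by norm_num)
    (by linear_combination (1004489 / 1000000) * R.h2) (by linear_combination (62789 / 62500) * R.h1)
  have e2 := lo (t := (235 / 1000)) (x := h0 + s - 1) (by norm_num)
    (by linear_combination s1 + R.h1) (by linear_combination s2 + R.h2)
  have e3 := lo (t := (81 / 1000)) (x := s - t - b / 2 - k) (by norm_num)
    (by linear_combination s1 + (1 / 2) * b2 + t2 + R.k4) (by linear_combination s2 + (1 / 2) * b1 + t1 + R.k3)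
  have e4 := lo (t := (561 / 1000)) (x := h0 - t + b / 2 - k) (by norm_num)
    (by linear_combination (1 / 2) * b1 + t2 + R.k4 + R.h1) (by linear_combination (1 / 2) * b2 + t1 + R.k3 + R.h2)
  have e5 := lo (t := (311 / 1000)) (x := s - t + b / 2 - k) (by norm_num)
    (by linear_combination s1 + (1 / 2) * b1 + t2 + R.k4) (by linear_combination s2 + (1 / 2) * b2 + t1 + R.k3)
  have e6 := up (t1 := (219 / 1000)) (t2 := (244 / 1000)) (x := s - t) (by norm_num)
    (by linear_combination (1047961 / 1000000) * s1 + (1047961 / 1000000) * t2) (by linear_combination (66221 / 62500) * s2 + (66221 / 62500) * t1)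
  have e7 := lo (t := (319 / 1000)) (x := s) (by norm_num)
    (by linear_combination s1) (by linear_combination s2)
  have e8 := up (t1 := (194 / 1000)) (t2 := (231 / 1000)) (x := b) (by norm_num)
    (by linear_combination (259409 / 250000) * b1) (by linear_combination (1053361 / 1000000) * b2)
  have c1 := R.phs
  have c2 := R.qhh
  unfold dl
  linear_combination (1248687693806681090000 / 555178735001296570983) * e8 + (2000000 / 898239) * e7 + (1000000 / 236641) * e6 + (500000 / 903279) * e5 + (500000 / 685279) * e4 + (1000000 / 993439) * e3 + (20000 / 37791) * e2 + (375000 / 248861) * e1 + (1541429064506000 / 1162451574879231) * R.k2 + (4896722022598629181661 / 61296865613620258998870) * s2 + (306429418801238895250 / 672058468685780059611) * b2 + (173449763915319607000 / 275083703130996103071) * t1 + (8190163532600225 / 6444847557923229) * R.h1 + (1 / 2) * c1 + (1 / 2) * c2 + (1 / 2) * R.n3 + (1 / 2) * R.n4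

theorem ob8 {s b t k G1 G2 G3 G4 : ℝ} (R : RegB s b t k G1 G2 G3 G4) (hT : t ≤ 284 / 1000 * s) (hy : 0 ≤ 1 / 2 - s + t) (ha : 0 ≤ h0 - 1 + t)
    (s1 : 57 / 100 ≤ s) (s2 : s ≤ 1177 / 2000)
    (b1 : 875 / 2000 ≤ b) (b2 : b ≤ 1 / 2) (t1 : 1294 / 10000 ≤ t) (t2 : t ≤ 1509 / 10000) :
    4 * ph (s - t) - 2 * ph s - dl s ≤ (G1 + G2 + G3 + G4) / 2 := by
  have e1 := up (t1 := (67 / 1000)) (t2 := (68 / 1000)) (x := 1 - h0) (by norm_num)
    (by linear_combination (1004489 / 1000000) * R.h2) (by linear_combination (62789 / 62500) * R.h1)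
  have e2 := lo (t := (52 / 1000)) (x := s - t - b / 2 - k) (by norm_num)
    (by linear_combination s1 + (1 / 2) * b2 + t2 + R.k4) (by linear_combination s2 + (1 / 2) * b1 + t1 + R.k3)
  have e3 := up (t1 := (219 / 1000)) (t2 := (244 / 1000)) (x := s - t) (by norm_num)
    (by linear_combination (1047961 / 1000000) * s1 + (1047961 / 1000000) * t2) (by linear_combination (66221 / 62500) * s2 + (66221 / 62500) * t1)
  have e4 := up (t1 := (571 / 1000)) (t2 := (601 / 1000)) (x := 2 * h0 - 1 + t) (by norm_num)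
    (by linear_combination (1326041 / 1000000) * t1 + (1326041 / 500000) * R.h1) (by linear_combination (1361201 / 1000000) * t2 + (1361201 / 500000) * R.h2)
  have e5 := lo (t := (319 / 1000)) (x := s) (by norm_num)
    (by linear_combination s1) (by linear_combination s2)
  have e6 := up (t1 := (230 / 1000)) (t2 := (268 / 1000)) (x := b) (by norm_num)
    (by linear_combination (10529 / 10000) * b1) (by linear_combination (66989 / 62500) * b2)
  have c2 := R.qhy ha
  unfold dl
  linear_combination (919867375 / 2924445858) * e6 + (2000000 / 898239) * e5 + (500000 / 656829) * e4 + (1000000 / 236641) * e3 + (31250 / 62331) * e2 + (125000 / 248861) * e1 + (3250 / 62331) * R.k2 + (3181961498173287 / 14721209200365410) * s1 + (36598929911129 / 146222292900000) * b1 + (3268965662172250 / 3229424613449253) * t1 + (280581102625 / 163459121769) * R.h2 + (1 / 2) * R.h3 + (1 / 2) * R.n1 + (1 / 2) * c2 + (1 / 2) * R.n3 + (1 / 2) * R.n4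

theorem ob9 {s b t k G1 G2 G3 G4 : ℝ} (R : RegB s b t k G1 G2 G3 G4) (hT : t ≤ 284 / 1000 * s) (hy : 0 ≤ 1 / 2 - s + t) (ha : 0 ≤ h0 - 1 + t)
    (s1 : 1177 / 2000 ≤ s) (s2 : s ≤ 607 / 1000)
    (b1 : 15 / 40 ≤ b) (b2 : b ≤ 1 / 2) (t1 : 1294 / 10000 ≤ t) (t2 : t ≤ 1509 / 10000) :
    4 * ph (s - t) - 2 * ph s - dl s ≤ (G1 + G2 + G3 + G4) / 2 := by
  have e1 := up (t1 := (67 / 1000)) (t2 := (68 / 1000)) (x := 1 - h0) (by norm_num)
    (by linear_combination (1004489 / 1000000) * R.h2) (by linear_combination (62789 / 62500) * R.h1)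
  have e2 := lo (t := (246 / 1000)) (x := h0 + s - 1) (by norm_num)
    (by linear_combination s1 + R.h1) (by linear_combination s2 + R.h2)
  have e3 := lo (t := (75 / 1000)) (x := s - t - b / 2 - k) (by norm_num)
    (by linear_combination s1 + (1 / 2) * b2 + t2 + R.k4) (by linear_combination s2 + (1 / 2) * b1 + t1 + R.k3)
  have e4 := lo (t := (563 / 1000)) (x := h0 - t + b / 2 - k) (by norm_num)
    (by linear_combination (1 / 2) * b1 + t2 + R.k4 + R.h1) (by linear_combination (1 / 2) * b2 + t1 + R.k3 + R.h2)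
  have e5 := up (t1 := (230 / 1000)) (t2 := (255 / 1000)) (x := s - t) (by norm_num)
    (by linear_combination (10529 / 10000) * s1 + (10529 / 10000) * t2) (by linear_combination (42601 / 40000) * s2 + (42601 / 40000) * t1)
  have e6 := up (t1 := (571 / 1000)) (t2 := (601 / 1000)) (x := 2 * h0 - 1 + t) (by norm_num)
    (by linear_combination (1326041 / 1000000) * t1 + (1326041 / 500000) * R.h1) (by linear_combination (1361201 / 1000000) * t2 + (1361201 / 500000) * R.h2)
  have e7 := lo (t := (332 / 1000)) (x := s) (by norm_num)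
    (by linear_combination s1) (by linear_combination s2)
  have e8 := up (t1 := (194 / 1000)) (t2 := (268 / 1000)) (x := b) (by norm_num)
    (by linear_combination (259409 / 250000) * b1) (by linear_combination (66989 / 62500) * b2)
  have c1 := R.phs
  have c2 := R.qhy ha
  unfold dl
  linear_combination (216590558950400 / 128775311740821) * e8 + (125000 / 55611) * e7 + (500000 / 656829) * e6 + (80000 / 18827) * e5 + (500000 / 683031) * e4 + (1600 / 1591) * e3 + (125000 / 234871) * e2 + (250000 / 248861) * e1 + (1059660440 / 1086702321) * R.k2 + (57558014942484187 / 105740090971015410) * s1 + (94399516541189879 / 12877531174082100000) * b2 + (867169060304723560 / 4479430284203217381) * t1 + (4917644637870920559250 / 8740931530906900975923) * R.h2 + (1 / 2) * R.h3 + (1 / 2) * c1 + (1 / 2) * c2 + (1 / 2) * R.n3 + (1 / 2) * R.n4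

theorem ob10 {s b t k G1 G2 G3 G4 : ℝ} (R : RegB s b t k G1 G2 G3 G4) (hT : t ≤ 284 / 1000 * s) (hy : 0 ≤ 1 / 2 - s + t) (ha : 0 ≤ h0 - 1 + t)
    (s1 : 57 / 100 ≤ s) (s2 : s ≤ 607 / 1000)
    (b1 : 15 / 40 ≤ b) (b2 : b ≤ 1 / 2) (t1 : 1509 / 10000 ≤ t) (t2 : t ≤ 345 / 2000) :
    4 * ph (s - t) - 2 * ph s - dl s ≤ (G1 + G2 + G3 + G4) / 2 := by
  have e1 := up (t1 := (67 / 1000)) (t2 := (68 / 1000)) (x := 1 - h0) (by norm_num)
    (by linear_combination (1004489 / 1000000) * R.h2) (by linear_combination (62789 / 62500) * R.h1)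
  have e2 := lo (t := (-8 / 1000)) (x := h0 + s - 1 - t - b / 2 - k) (by norm_num)
    (by linear_combination s1 + (1 / 2) * b2 + t2 + R.k4 + R.h1) (by linear_combination s2 + (1 / 2) * b1 + t1 + R.k3 + R.h2)
  have e3 := lo (t := (304 / 1000)) (x := s - t + b / 2 - k) (by norm_num)
    (by linear_combination s1 + (1 / 2) * b1 + t2 + R.k4) (by linear_combination s2 + (1 / 2) * b2 + t1 + R.k3)
  have e4 := up (t1 := (207 / 1000)) (t2 := (242 / 1000)) (x := s - t) (by norm_num)
    (by linear_combination (1042849 / 1000000) * s1 + (1042849 / 1000000) * t2) (by linear_combination (264641 / 250000) * s2 + (264641 / 250000) * t1)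
  have e5 := lo (t := (325 / 1000)) (x := s) (by norm_num)
    (by linear_combination s1) (by linear_combination s2)
  have e6 := up (t1 := (194 / 1000)) (t2 := (268 / 1000)) (x := b) (by norm_num)
    (by linear_combination (259409 / 250000) * b1) (by linear_combination (66989 / 62500) * b2)
  have c2 := R.q1h (by linear_combination (250 / 231) * e6 + (3694907 / 231) * R.k1 + (3695138 / 231) * R.k2 + s1 + t2 + R.h1)
  unfold dl
  linear_combination (28919729331875 / 35007398570592) * e6 + (3200 / 1431) * e5 + (2000000 / 474953) * e4 + (15625 / 28362) * e3 + (15625 / 31248) * e2 + (125000 / 248861) * e1 + (24147125 / 73854648) * R.k2 + (11439911942497469 / 27886601872077480) * s2 + (29431683674305 / 140029594282368) * b2 + (54852724443875 / 35077486631544) * t1 + (232547375 / 3888204264) * R.h1 + (1 / 2) * R.n1 + (1 / 2) * c2 + (1 / 2) * R.n3 + (1 / 2) * R.n4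

theorem ob6 {s b t k G1 G2 G3 G4 : ℝ} (R : RegB s b t k G1 G2 G3 G4) (hT : t ≤ 284 / 1000 * s) (hy : 0 ≤ 1 / 2 - s + t) (ha : 0 ≤ h0 - 1 + t)
    (s1 : 57 / 100 ≤ s) (s2 : s ≤ 1177 / 2000)
    (b1 : 15 / 40 ≤ b) (b2 : b ≤ 1 / 2) (t1 : 1294 / 10000 ≤ t) (t2 : t ≤ 1509 / 10000) :
    4 * ph (s - t) - 2 * ph s - dl s ≤ (G1 + G2 + G3 + G4) / 2 := by
  rcases le_total b (875 / 2000) with h | h
  · exact ob7 R hT hy ha s1 s2 b1 h t1 t2
  · exact ob8 R hT hy ha s1 s2 h b2 t1 t2

theorem ob5 {s b t k G1 G2 G3 G4 : ℝ} (R : RegB s b t k G1 G2 G3 G4) (hT : t ≤ 284 / 1000 * s) (hy : 0 ≤ 1 / 2 - s + t) (ha : 0 ≤ h0 - 1 + t)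
    (s1 : 57 / 100 ≤ s) (s2 : s ≤ 607 / 1000)
    (b1 : 15 / 40 ≤ b) (b2 : b ≤ 1 / 2) (t1 : 1294 / 10000 ≤ t) (t2 : t ≤ 1509 / 10000) :
    4 * ph (s - t) - 2 * ph s - dl s ≤ (G1 + G2 + G3 + G4) / 2 := by
  rcases le_total s (1177 / 2000) with h | h
  · exact ob6 R hT hy ha s1 h b1 b2 t1 t2
  · exact ob9 R hT hy ha h s2 b1 b2 t1 t2

theorem ob4 {s b t k G1 G2 G3 G4 : ℝ} (R : RegB s b t k G1 G2 G3 G4) (hT : t ≤ 284 / 1000 * s) (hy : 0 ≤ 1 / 2 - s + t) (ha : 0 ≤ h0 - 1 + t)
    (s1 : 57 / 100 ≤ s) (s2 : s ≤ 607 / 1000)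
    (b1 : 15 / 40 ≤ b) (b2 : b ≤ 1 / 2) (t1 : 1294 / 10000 ≤ t) (t2 : t ≤ 345 / 2000) :
    4 * ph (s - t) - 2 * ph s - dl s ≤ (G1 + G2 + G3 + G4) / 2 := by
  rcases le_total t (1509 / 10000) with h | h
  · exact ob5 R hT hy ha s1 s2 b1 b2 t1 h
  · exact ob10 R hT hy ha s1 s2 b1 b2 h t2

theorem ob2 {s b t k G1 G2 G3 G4 : ℝ} (R : RegB s b t k G1 G2 G3 G4) (hT : t ≤ 284 / 1000 * s) (hy : 0 ≤ 1 / 2 - s + t) (ha : 0 ≤ h0 - 1 + t)
    (s1 : 57 / 100 ≤ s) (s2 : s ≤ 607 / 1000)
    (b1 : 15 / 40 ≤ b) (b2 : b ≤ 1 / 2) (t1 : 862 / 10000 ≤ t) (t2 : t ≤ 345 / 2000) :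
    4 * ph (s - t) - 2 * ph s - dl s ≤ (G1 + G2 + G3 + G4) / 2 := by
  rcases le_total t (1294 / 10000) with h | h
  · exact ob3 R hT hy ha s1 s2 b1 b2 t1 h
  · exact ob4 R hT hy ha s1 s2 b1 b2 h t2

theorem ob0 {s b t k G1 G2 G3 G4 : ℝ} (R : RegB s b t k G1 G2 G3 G4) (hT : t ≤ 284 / 1000 * s) (hy : 0 ≤ 1 / 2 - s + t) (ha : 0 ≤ h0 - 1 + t)
    (s1 : 57 / 100 ≤ s) (s2 : s ≤ 607 / 1000)
    (b1 : 15 / 40 ≤ b) (b2 : b ≤ 1 / 2) (t1 : 0 ≤ t) (t2 : t ≤ 345 / 2000) :
    4 * ph (s - t) - 2 * ph s - dl s ≤ (G1 + G2 + G3 + G4) / 2 := by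
  rcases le_total t (862 / 10000) with h | h
  · exact ob1 R hT hy ha s1 s2 b1 b2 t1 h
  · exact ob2 R hT hy ha s1 s2 b1 b2 h t2

theorem oc2 {s b t k G1 G2 G3 G4 : ℝ} (R : RegB s b t k G1 G2 G3 G4) (hT : t ≤ 284 / 1000 * s) (hy : 0 ≤ 1 / 2 - s + t) (ha : 0 ≤ 1 - h0 - t) (hl : 0 ≤ 2 * h0 - 9 / 5 + t)
    (s1 : 57 / 100 ≤ s) (s2 : s ≤ 607 / 1000)
    (b1 : 15 / 40 ≤ b) (b2 : b ≤ 1 / 2) (t1 : 0 ≤ t) (t2 : t ≤ 431 / 10000) :
    4 * ph (s - t) - 2 * ph s - dl s ≤ (G1 + G2 + G3 + G4) / 2 := by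
  exfalso
  exact absurd hy (not_le.mpr (by linear_combination s1 + t2))

theorem oc4 {s b t k G1 G2 G3 G4 : ℝ} (R : RegB s b t k G1 G2 G3 G4) (hT : t ≤ 284 / 1000 * s) (hy : 0 ≤ 1 / 2 - s + t) (ha : 0 ≤ 1 - h0 - t) (hl : 0 ≤ 2 * h0 - 9 / 5 + t)
    (s1 : 57 / 100 ≤ s) (s2 : s ≤ 1177 / 2000)
    (b1 : 15 / 40 ≤ b) (b2 : b ≤ 1 / 2) (t1 : 431 / 10000 ≤ t) (t2 : t ≤ 862 / 10000) :
    4 * ph (s - t) - 2 * ph s - dl s ≤ (G1 + G2 + G3 + G4) / 2 := by
  have e1 := up (t1 := (67 / 1000)) (t2 := (68 / 1000)) (x := 1 - h0) (by norm_num)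
    (by linear_combination (1004489 / 1000000) * R.h2) (by linear_combination (62789 / 62500) * R.h1)
  have e2 := lo (t := (235 / 1000)) (x := h0 + s - 1) (by norm_num)
    (by linear_combination s1 + R.h1) (by linear_combination s2 + R.h2)
  have e3 := up (t1 := (411 / 1000)) (t2 := (428 / 1000)) (x := s - h0 + 1) (by norm_num)
    (by linear_combination (1168921 / 1000000) * s1 + (1168921 / 1000000) * R.h2) (by linear_combination (73949 / 62500) * s2 + (73949 / 62500) * R.h1)
  have e4 := up (t1 := (688 / 1000)) (t2 := (689 / 1000)) (x := 9 / 5 - h0) (by norm_num)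
    (by linear_combination (23021 / 15625) * R.h2) (by linear_combination (1474721 / 1000000) * R.h1)
  have e5 := lo (t := (104 / 1000)) (x := s - t - b / 2 - k) (by norm_num)
    (by linear_combination s1 + (1 / 2) * b2 + t2 + R.k4) (by linear_combination s2 + (1 / 2) * b1 + t1 + R.k3)
  have e6 := lo (t := (193 / 1000)) (x := t + b / 2 + k) (by norm_num)
    (by linear_combination (1 / 2) * b1 + t1 + R.k3) (by linear_combination (1 / 2) * b2 + t2 + R.k4)
  have e7 := lo (t := (681 / 1000)) (x := h0 - t + b / 2 - k) (by norm_num)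
    (by linear_combination (1 / 2) * b1 + t2 + R.k4 + R.h1) (by linear_combination t1 + R.hz)
  have e8 := lo (t := (365 / 1000)) (x := s - t + b / 2 - k) (by norm_num)
    (by linear_combination s1 + (1 / 2) * b1 + t2 + R.k4) (by linear_combination s2 + (1 / 2) * b2 + t1 + R.k3)
  have e9 := up (t1 := (258 / 1000)) (t2 := (297 / 1000)) (x := s - t) (by norm_num)
    (by linear_combination (266641 / 250000) * s1 + (266641 / 250000) * t2) (by linear_combination (1088209 / 1000000) * s2 + (1088209 / 1000000) * t1)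
  have e10 := lo (t := (478 / 1000)) (x := s - h0 + 1 - t + b / 2 - k) (by norm_num)
    (by linear_combination s1 + (1 / 2) * b1 + t2 + R.k4 + R.h2) (by linear_combination s2 + (1 / 2) * b2 + t1 + R.k3 + R.h1)
  have e11 := lo (t := (780 / 1000)) (x := 9 / 5 - h0 - t + b / 2 - k) (by norm_num)
    (by linear_combination (1 / 2) * b1 + t2 + R.k4 + R.h2) (by linear_combination s1 + 2 * R.h1 + R.hz + hy)
  have e12 := lo (t := (319 / 1000)) (x := s) (by norm_num)
    (by linear_combination s1) (by linear_combination s2)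
  have e13 := up (t1 := (194 / 1000)) (t2 := (268 / 1000)) (x := b) (by norm_num)
    (by linear_combination (259409 / 250000) * b1) (by linear_combination (66989 / 62500) * b2)
  have c1 := R.phs
  have c2 := R.qhh
  have c3 := R.rv2 (by linear_combination (250 / 231) * e13 + (3694907 / 231) * R.k1 + (3695138 / 231) * R.k2 + t2)
  have c4 := R.svl (by linear_combination (250 / 231) * e13 + (3694907 / 231) * R.k1 + (3695138 / 231) * R.k2 + t2) hl
  unfold dl
  linear_combination (3776136587416230176470078625 / 643742719160715538268853312) * e13 + (2000000 / 898239) * e12 + (1250 / 979) * e11 + (125000 / 192879) * e10 + (2000000 / 461687) * e9 + (20000 / 34671) * e8 + (500000 / 536239) * e7 + (1000000 / 962751) * e6 + (15625 / 15456) * e5 + (31250 / 32873) * e4 + (125000 / 206023) * e3 + (20000 / 37791) * e2 + (375000 / 248861) * e1 + (61426166535992235009325 / 14939050958995854298608) * R.k2 + (650378587788692078275517462507 / 2219399524206010066691802835440)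 * s2 + (1875488802536211503682794527 / 4046382806153069097689935104) * b2 + (11777315985017248733295351275 / 6897165620105918983561431696) * t2 + (54548146714199635501145536925 / 58730226348520475076406317668) * R.h1 + (1 / 2) * c1 + (1 / 2) * c2 + (1 / 2) * c3 + (1 / 2) * c4

theorem oc5 {s b t k G1 G2 G3 G4 : ℝ} (R : RegB s b t k G1 G2 G3 G4) (hT : t ≤ 284 / 1000 * s) (hy : 0 ≤ 1 / 2 - s + t) (ha : 0 ≤ 1 - h0 - t) (hl : 0 ≤ 2 * h0 - 9 / 5 + t)
    (s1 : 1177 / 2000 ≤ s) (s2 : s ≤ 607 / 1000)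
    (b1 : 15 / 40 ≤ b) (b2 : b ≤ 1 / 2) (t1 : 431 / 10000 ≤ t) (t2 : t ≤ 862 / 10000) :
    4 * ph (s - t) - 2 * ph s - dl s ≤ (G1 + G2 + G3 + G4) / 2 := by
  exfalso
  exact absurd hy (not_le.mpr (by linear_combination s1 + t2))

theorem oc9 {s b t k G1 G2 G3 G4 : ℝ} (R : RegB s b t k G1 G2 G3 G4) (hT : t ≤ 284 / 1000 * s) (hy : 0 ≤ 1 / 2 - s + t) (ha : 0 ≤ 1 - h0 - t) (hl : 0 ≤ 2 * h0 - 9 / 5 + t)
    (s1 : 57 / 100 ≤ s) (s2 : s ≤ 607 / 1000)
    (b1 : 15 / 40 ≤ b) (b2 : b ≤ 875 / 2000) (t1 : 862 / 10000 ≤ t) (t2 : t ≤ 1078 / 10000) :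
    4 * ph (s - t) - 2 * ph s - dl s ≤ (G1 + G2 + G3 + G4) / 2 := by
  have e1 := up (t1 := (67 / 1000)) (t2 := (68 / 1000)) (x := 1 - h0) (by norm_num)
    (by linear_combination (1004489 / 1000000) * R.h2) (by linear_combination (62789 / 62500) * R.h1)
  have e2 := lo (t := (240 / 1000)) (x := h0 + s - 1) (by norm_num)
    (by linear_combination s1 + R.h1) (by linear_combination s2 + R.h2)
  have e3 := up (t1 := (411 / 1000)) (t2 := (444 / 1000)) (x := s - h0 + 1) (by norm_num)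
    (by linear_combination (1168921 / 1000000) * s1 + (1168921 / 1000000) * R.h2) (by linear_combination (74821 / 62500) * s2 + (74821 / 62500) * R.h1)
  have e4 := up (t1 := (688 / 1000)) (t2 := (689 / 1000)) (x := 9 / 5 - h0) (by norm_num)
    (by linear_combination (23021 / 15625) * R.h2) (by linear_combination (1474721 / 1000000) * R.h1)
  have e5 := lo (t := (108 / 1000)) (x := s - t - b / 2 - k) (by norm_num)
    (by linear_combination s1 + (1 / 2) * b2 + t2 + R.k4) (by linear_combination s2 + (1 / 2) * b1 + t1 + R.k3)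
  have e6 := lo (t := (195 / 1000)) (x := t + b / 2 + k) (by norm_num)
    (by linear_combination (1 / 2) * b1 + t1 + R.k3) (by linear_combination (1 / 2) * b2 + t2 + R.k4)
  have e7 := lo (t := (622 / 1000)) (x := h0 - t + b / 2 - k) (by norm_num)
    (by linear_combination (1 / 2) * b1 + t2 + R.k4 + R.h1) (by linear_combination (1 / 2) * b2 + t1 + R.k3 + R.h2)
  have e8 := lo (t := (347 / 1000)) (x := s - t + b / 2 - k) (by norm_num)
    (by linear_combination s1 + (1 / 2) * b1 + t2 + R.k4) (by linear_combination s2 + (1 / 2) * b2 + t1 + R.k3)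
  have e9 := up (t1 := (244 / 1000)) (t2 := (281 / 1000)) (x := s - t) (by norm_num)
    (by linear_combination (66221 / 62500) * s1 + (66221 / 62500) * t2) (by linear_combination (1078961 / 1000000) * s2 + (1078961 / 1000000) * t1)
  have e10 := lo (t := (454 / 1000)) (x := s - h0 + 1 - t + b / 2 - k) (by norm_num)
    (by linear_combination s1 + (1 / 2) * b1 + t2 + R.k4 + R.h2) (by linear_combination s2 + (1 / 2) * b2 + t1 + R.k3 + R.h1)
  have e11 := lo (t := (764 / 1000)) (x := 9 / 5 - h0 - t + b / 2 - k) (by norm_num)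
    (by linear_combination (1 / 2) * b1 + t2 + R.k4 + R.h2) (by linear_combination t1 + 2 * R.h1 + R.hz)
  have e12 := lo (t := (325 / 1000)) (x := s) (by norm_num)
    (by linear_combination s1) (by linear_combination s2)
  have e13 := up (t1 := (194 / 1000)) (t2 := (231 / 1000)) (x := b) (by norm_num)
    (by linear_combination (259409 / 250000) * b1) (by linear_combination (1053361 / 1000000) * b2)
  have c1 := R.phs
  have c2 := R.qhh
  have c3 := R.rv2 (by linear_combination (433015 / 477593) * e13 + R.k2 + (438121 / 3820744) * b1 + t2)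
  have c4 := R.svl (by linear_combination (433015 / 477593) * e13 + R.k2 + (438121 / 3820744) * b1 + t2) hl
  unfold dl
  linear_combination (153167323011378816450198482195750 / 28447120823644776019835502203679) * e13 + (3200 / 1431) * e12 + (31250 / 26019) * e11 + (125000 / 198471) * e10 + (1000000 / 232859) * e9 + (500000 / 879591) * e8 + (125000 / 153279) * e7 + (40000 / 38479) * e6 + (62500 / 61771) * e5 + (31250 / 32873) * e4 + (125000 / 204379) * e3 + (625 / 1178) * e2 + (375000 / 248861) * e1 + (216167573227212439143903050 / 59563521290397422114301303) * R.k2 + (12660162572864791080895265986639 / 68660370729015340583818953072630) * s2 + (32640921613007126367134005079075 / 113788483294579104079342008814716) * b2 + (19065716256656814756601936244950 / 13869902004160653316114087115277) * t2 + (43165395523808373247520366975 / 48097458747946102812166496556) * R.h1 + (1 / 2) * c1 + (1 / 2) * c2 + (1 / 2) * c3 + (1 / 2) * c4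

theorem oc11 {s b t k G1 G2 G3 G4 : ℝ} (R : RegB s b t k G1 G2 G3 G4) (hT : t ≤ 284 / 1000 * s) (hy : 0 ≤ 1 / 2 - s + t) (ha : 0 ≤ 1 - h0 - t) (hl : 0 ≤ 2 * h0 - 9 / 5 + t)
    (s1 : 57 / 100 ≤ s) (s2 : s ≤ 607 / 1000)
    (b1 : 15 / 40 ≤ b) (b2 : b ≤ 875 / 2000) (t1 : 1078 / 10000 ≤ t) (t2 : t ≤ 1186 / 10000) :
    4 * ph (s - t) - 2 * ph s - dl s ≤ (G1 + G2 + G3 + G4) / 2 := by
  have e1 := up (t1 := (67 / 1000)) (t2 := (68 / 1000)) (x := 1 - h0) (by norm_num)
    (by linear_combination (1004489 / 1000000) * R.h2) (by linear_combination (62789 / 62500) * R.h1)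
  have e2 := lo (t := (240 / 1000)) (x := h0 + s - 1) (by norm_num)
    (by linear_combination s1 + R.h1) (by linear_combination s2 + R.h2)
  have e3 := up (t1 := (411 / 1000)) (t2 := (444 / 1000)) (x := s - h0 + 1) (by norm_num)
    (by linear_combination (1168921 / 1000000) * s1 + (1168921 / 1000000) * R.h2) (by linear_combination (74821 / 62500) * s2 + (74821 / 62500) * R.h1)
  have e4 := up (t1 := (688 / 1000)) (t2 := (689 / 1000)) (x := 9 / 5 - h0) (by norm_num)
    (by linear_combination (23021 / 15625) * R.h2) (by linear_combination (1474721 / 1000000) * R.h1)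
  have e5 := lo (t := (99 / 1000)) (x := s - t - b / 2 - k) (by norm_num)
    (by linear_combination s1 + (1 / 2) * b2 + t2 + R.k4) (by linear_combination s2 + (1 / 2) * b1 + t1 + R.k3)
  have e6 := lo (t := (204 / 1000)) (x := t + b / 2 + k) (by norm_num)
    (by linear_combination (1 / 2) * b1 + t1 + R.k3) (by linear_combination (1 / 2) * b2 + t2 + R.k4)
  have e7 := lo (t := (598 / 1000)) (x := h0 - t + b / 2 - k) (by norm_num)
    (by linear_combination (1 / 2) * b1 + t2 + R.k4 + R.h1) (by linear_combination (1 / 2) * b2 + t1 + R.k3 + R.h2)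
  have e8 := lo (t := (336 / 1000)) (x := s - t + b / 2 - k) (by norm_num)
    (by linear_combination s1 + (1 / 2) * b1 + t2 + R.k4) (by linear_combination s2 + (1 / 2) * b2 + t1 + R.k3)
  have e9 := up (t1 := (238 / 1000)) (t2 := (268 / 1000)) (x := s - t) (by norm_num)
    (by linear_combination (264161 / 250000) * s1 + (264161 / 250000) * t2) (by linear_combination (66989 / 62500) * s2 + (66989 / 62500) * t1)
  have e10 := lo (t := (440 / 1000)) (x := s - h0 + 1 - t + b / 2 - k) (by norm_num)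
    (by linear_combination s1 + (1 / 2) * b1 + t2 + R.k4 + R.h2) (by linear_combination s2 + (1 / 2) * b2 + t1 + R.k3 + R.h1)
  have e11 := lo (t := (721 / 1000)) (x := 9 / 5 - h0 - t + b / 2 - k) (by norm_num)
    (by linear_combination (1 / 2) * b1 + t2 + R.k4 + R.h2) (by linear_combination t1 + 2 * R.h1 + R.hz)
  have e12 := lo (t := (325 / 1000)) (x := s) (by norm_num)
    (by linear_combination s1) (by linear_combination s2)
  have e13 := up (t1 := (194 / 1000)) (t2 := (231 / 1000)) (x := b) (by norm_num)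
    (by linear_combination (259409 / 250000) * b1) (by linear_combination (1053361 / 1000000) * b2)
  have c1 := R.phs
  have c2 := R.qhh
  have c3 := R.rv2 (by linear_combination (433015 / 477593) * e13 + R.k2 + (438121 / 3820744) * b1 + t2)
  have c4 := R.svl (by linear_combination (433015 / 477593) * e13 + R.k2 + (438121 / 3820744) * b1 + t2) hl
  unfold dl
  linear_combination (371865438728359418013335453375 / 75387916957450016355615061288) * e13 + (3200 / 1431) * e12 + (500000 / 480159) * e11 + (625 / 1008) * e10 + (500000 / 117027) * e9 + (15625 / 27722) * e8 + (125000 / 160599) * e7 + (62500 / 59899) * e6 + (1000000 / 990199) * e5 + (31250 / 32873) * e4 + (125000 / 204379) * e3 + (625 / 1178) * e2 + (375000 / 248861) * e1 + (494245529302916211135225 / 157849710857257154848616) * R.k2 + (504710732313652350430489 / 3314651621101808542805880) * s2 + (183994982036896734946507447775 / 603103335659600130844920490304) * b2 + (17904094710846315263822128075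 / 18472678112492233060468984632) * t2 + (2555762817994680927167524625 / 2177516429005043789103815976) * R.h1 + (1 / 2) * c1 + (1 / 2) * c2 + (1 / 2) * c3 + (1 / 2) * c4

theorem oc13 {s b t k G1 G2 G3 G4 : ℝ} (R : RegB s b t k G1 G2 G3 G4) (hT : t ≤ 284 / 1000 * s) (hy : 0 ≤ 1 / 2 - s + t) (ha : 0 ≤ 1 - h0 - t) (hl : 0 ≤ 2 * h0 - 9 / 5 + t)
    (s1 : 57 / 100 ≤ s) (s2 : s ≤ 607 / 1000)
    (b1 : 15 / 40 ≤ b) (b2 : b ≤ 875 / 2000) (t1 : 1186 / 10000 ≤ t) (t2 : t ≤ 124 / 1000) :
    4 * ph (s - t) - 2 * ph s - dl s ≤ (G1 + G2 + G3 + G4) / 2 := by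
  have e1 := up (t1 := (67 / 1000)) (t2 := (68 / 1000)) (x := 1 - h0) (by norm_num)
    (by linear_combination (1004489 / 1000000) * R.h2) (by linear_combination (62789 / 62500) * R.h1)
  have e2 := lo (t := (240 / 1000)) (x := h0 + s - 1) (by norm_num)
    (by linear_combination s1 + R.h1) (by linear_combination s2 + R.h2)
  have e3 := up (t1 := (411 / 1000)) (t2 := (444 / 1000)) (x := s - h0 + 1) (by norm_num)
    (by linear_combination (1168921 / 1000000) * s1 + (1168921 / 1000000) * R.h2) (by linear_combination (74821 / 62500) * s2 + (74821 / 62500) * R.h1)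
  have e4 := up (t1 := (688 / 1000)) (t2 := (689 / 1000)) (x := 9 / 5 - h0) (by norm_num)
    (by linear_combination (23021 / 15625) * R.h2) (by linear_combination (1474721 / 1000000) * R.h1)
  have e5 := lo (t := (95 / 1000)) (x := s - t - b / 2 - k) (by norm_num)
    (by linear_combination s1 + (1 / 2) * b2 + t2 + R.k4) (by linear_combination s2 + (1 / 2) * b1 + t1 + R.k3)
  have e6 := lo (t := (209 / 1000)) (x := t + b / 2 + k) (by norm_num)
    (by linear_combination (1 / 2) * b1 + t1 + R.k3) (by linear_combination (1 / 2) * b2 + t2 + R.k4)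
  have e7 := lo (t := (586 / 1000)) (x := h0 - t + b / 2 - k) (by norm_num)
    (by linear_combination (1 / 2) * b1 + t2 + R.k4 + R.h1) (by linear_combination (1 / 2) * b2 + t1 + R.k3 + R.h2)
  have e8 := lo (t := (330 / 1000)) (x := s - t + b / 2 - k) (by norm_num)
    (by linear_combination s1 + (1 / 2) * b1 + t2 + R.k4) (by linear_combination s2 + (1 / 2) * b2 + t1 + R.k3)
  have e9 := up (t1 := (235 / 1000)) (t2 := (261 / 1000)) (x := s - t) (by norm_num)
    (by linear_combination (42209 / 40000) * s1 + (42209 / 40000) * t2) (by linear_combination (1068121 / 1000000) * s2 + (1068121 / 1000000) * t1)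
  have e10 := lo (t := (433 / 1000)) (x := s - h0 + 1 - t + b / 2 - k) (by norm_num)
    (by linear_combination s1 + (1 / 2) * b1 + t2 + R.k4 + R.h2) (by linear_combination s2 + (1 / 2) * b2 + t1 + R.k3 + R.h1)
  have e11 := lo (t := (702 / 1000)) (x := 9 / 5 - h0 - t + b / 2 - k) (by norm_num)
    (by linear_combination (1 / 2) * b1 + t2 + R.k4 + R.h2) (by linear_combination t1 + 2 * R.h1 + R.hz)
  have e12 := lo (t := (325 / 1000)) (x := s) (by norm_num)
    (by linear_combination s1) (by linear_combination s2)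
  have e13 := up (t1 := (194 / 1000)) (t2 := (231 / 1000)) (x := b) (by norm_num)
    (by linear_combination (259409 / 250000) * b1) (by linear_combination (1053361 / 1000000) * b2)
  have c1 := R.phs
  have c2 := R.qhh
  have c3 := R.rv2 (by linear_combination (433015 / 477593) * e13 + R.k2 + (438121 / 3820744) * b1 + t2)
  have c4 := R.svl (by linear_combination (433015 / 477593) * e13 + R.k2 + (438121 / 3820744) * b1 + t2) hl
  unfold dl
  linear_combination (10930478225583468905997276024500 / 2299038234097226071915541507067) * e13 + (3200 / 1431) * e12 + (125000 / 126799) * e11 + (500000 / 812511) * e10 + (800000 / 187733) * e9 + (5000 / 8911) * e8 + (125000 / 164151) * e7 + (1000000 / 956319) * e6 + (40000 / 39639) * e5 + (31250 / 32873) * e4 + (125000 / 204379) * e3 + (625 / 1178) * e2 + (375000 / 248861) * e1 + (14125783230601500364208300 / 4813802199984560225789619) * R.k2 + (23453599686735209619711383 / 175823718819362020242673110) * s2 + (74544041486891798600717242975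 / 242004024641813270727951737586) * b2 + (8151197255787230442643911700 / 9930873938568147745803983997) * t2 + (2529682830097319235629401443775 / 1998941694492510543590725296204) * R.h1 + (1 / 2) * c1 + (1 / 2) * c2 + (1 / 2) * c3 + (1 / 2) * c4

theorem oc15 {s b t k G1 G2 G3 G4 : ℝ} (R : RegB s b t k G1 G2 G3 G4) (hT : t ≤ 284 / 1000 * s) (hy : 0 ≤ 1 / 2 - s + t) (ha : 0 ≤ 1 - h0 - t) (hl : 0 ≤ 2 * h0 - 9 / 5 + t)
    (s1 : 57 / 100 ≤ s) (s2 : s ≤ 607 / 1000)
    (b1 : 15 / 40 ≤ b) (b2 : b ≤ 4063 / 10000) (t1 : 124 / 1000 ≤ t) (t2 : t ≤ 1294 / 10000) :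
    4 * ph (s - t) - 2 * ph s - dl s ≤ (G1 + G2 + G3 + G4) / 2 := by
  have e1 := up (t1 := (67 / 1000)) (t2 := (68 / 1000)) (x := 1 - h0) (by norm_num)
    (by linear_combination (1004489 / 1000000) * R.h2) (by linear_combination (62789 / 62500) * R.h1)
  have e2 := lo (t := (240 / 1000)) (x := h0 + s - 1) (by norm_num)
    (by linear_combination s1 + R.h1) (by linear_combination s2 + R.h2)
  have e3 := lo (t := (100 / 1000)) (x := s - t - b / 2 - k) (by norm_num)
    (by linear_combination s1 + (1 / 2) * b2 + t2 + R.k4) (by linear_combination s2 + (1 / 2) * b1 + t1 + R.k3)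
  have e4 := lo (t := (577 / 1000)) (x := h0 - t + b / 2 - k) (by norm_num)
    (by linear_combination (1 / 2) * b1 + t2 + R.k4 + R.h1) (by linear_combination (1 / 2) * b2 + t1 + R.k3 + R.h2)
  have e5 := lo (t := (325 / 1000)) (x := s - t + b / 2 - k) (by norm_num)
    (by linear_combination s1 + (1 / 2) * b1 + t2 + R.k4) (by linear_combination s2 + (1 / 2) * b2 + t1 + R.k3)
  have e6 := up (t1 := (232 / 1000)) (t2 := (258 / 1000)) (x := s - t) (by norm_num)
    (by linear_combination (16466 / 15625) * s1 + (16466 / 15625) * t2) (by linear_combination (266641 / 250000) * s2 + (266641 / 250000) * t1)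
  have e7 := lo (t := (325 / 1000)) (x := s) (by norm_num)
    (by linear_combination s1) (by linear_combination s2)
  have e8 := up (t1 := (194 / 1000)) (t2 := (213 / 1000)) (x := b) (by norm_num)
    (by linear_combination (259409 / 250000) * b1) (by linear_combination (1045369 / 1000000) * b2)
  have c1 := R.phs
  have c2 := R.qhh
  unfold dl
  linear_combination (16960817159500 / 7262964317853) * e8 + (3200 / 1431) * e7 + (250000 / 58759) * e6 + (800 / 1431) * e5 + (500000 / 667071) * e4 + (100 / 99) * e3 + (625 / 1178) * e2 + (375000 / 248861) * e1 + (1668832100 / 1166707179) * R.k2 + (605723704073 / 5447810717910) * s2 + (69870382547143 / 159785214992766) * b2 + (44862724063600 / 68554547130861) * t1 + (6808850384975 / 5146246640061) * R.h1 + (1 / 2) * c1 + (1 / 2) * c2 + (1 / 2) * R.n3 + (1 / 2) * R.n4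

theorem oc17 {s b t k G1 G2 G3 G4 : ℝ} (R : RegB s b t k G1 G2 G3 G4) (hT : t ≤ 284 / 1000 * s) (hy : 0 ≤ 1 / 2 - s + t) (ha : 0 ≤ 1 - h0 - t) (hl : 0 ≤ 2 * h0 - 9 / 5 + t)
    (s1 : 57 / 100 ≤ s) (s2 : s ≤ 607 / 1000)
    (b1 : 4063 / 10000 ≤ b) (b2 : b ≤ 4219 / 10000) (t1 : 124 / 1000 ≤ t) (t2 : t ≤ 1294 / 10000) :
    4 * ph (s - t) - 2 * ph s - dl s ≤ (G1 + G2 + G3 + G4) / 2 := by
  have e1 := up (t1 := (67 / 1000)) (t2 := (68 / 1000)) (x := 1 - h0) (by norm_num)
    (by linear_combination (1004489 / 1000000) * R.h2) (by linear_combination (62789 / 62500) * R.h1)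
  have e2 := lo (t := (240 / 1000)) (x := h0 + s - 1) (by norm_num)
    (by linear_combination s1 + R.h1) (by linear_combination s2 + R.h2)
  have e3 := lo (t := (89 / 1000)) (x := s - t - b / 2 - k) (by norm_num)
    (by linear_combination s1 + (1 / 2) * b2 + t2 + R.k4) (by linear_combination s2 + (1 / 2) * b1 + t1 + R.k3)
  have e4 := lo (t := (581 / 1000)) (x := h0 - t + b / 2 - k) (by norm_num)
    (by linear_combination (1 / 2) * b1 + t2 + R.k4 + R.h1) (by linear_combination (1 / 2) * b2 + t1 + R.k3 + R.h2)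
  have e5 := lo (t := (327 / 1000)) (x := s - t + b / 2 - k) (by norm_num)
    (by linear_combination s1 + (1 / 2) * b1 + t2 + R.k4) (by linear_combination s2 + (1 / 2) * b2 + t1 + R.k3)
  have e6 := up (t1 := (232 / 1000)) (t2 := (258 / 1000)) (x := s - t) (by norm_num)
    (by linear_combination (16466 / 15625) * s1 + (16466 / 15625) * t2) (by linear_combination (266641 / 250000) * s2 + (266641 / 250000) * t1)
  have e7 := lo (t := (325 / 1000)) (x := s) (by norm_num)
    (by linear_combination s1) (by linear_combination s2)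
  have e8 := up (t1 := (212 / 1000)) (t2 := (222 / 1000)) (x := b) (by norm_num)
    (by linear_combination (65309 / 62500) * b1) (by linear_combination (262321 / 250000) * b2)
  have c1 := R.phs
  have c2 := R.qhh
  unfold dl
  linear_combination (4962232861495163397500 / 2118546222421508688699) * e8 + (3200 / 1431) * e7 + (250000 / 58759) * e6 + (500000 / 893071) * e5 + (500000 / 662439) * e4 + (1000000 / 992079) * e3 + (625 / 1178) * e2 + (375000 / 248861) * e1 + (278323891376866000 / 195639652162467117) * R.k2 + (6387663387328277830843 / 48754988573624762733810) * s2 + (3764793082234371865555 / 7768002815545531858563) * b2 + (7611823856488952538500 / 11495590321414405327803) * t1 + (4182046698475 / 3132249407601) * R.h1 + (1 / 2) * c1 + (1 / 2) * c2 + (1 / 2) * R.n3 + (1 / 2) * R.n4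

theorem oc18 {s b t k G1 G2 G3 G4 : ℝ} (R : RegB s b t k G1 G2 G3 G4) (hT : t ≤ 284 / 1000 * s) (hy : 0 ≤ 1 / 2 - s + t) (ha : 0 ≤ 1 - h0 - t) (hl : 0 ≤ 2 * h0 - 9 / 5 + t)
    (s1 : 57 / 100 ≤ s) (s2 : s ≤ 607 / 1000)
    (b1 : 4219 / 10000 ≤ b) (b2 : b ≤ 875 / 2000) (t1 : 124 / 1000 ≤ t) (t2 : t ≤ 1294 / 10000) :
    4 * ph (s - t) - 2 * ph s - dl s ≤ (G1 + G2 + G3 + G4) / 2 := by
  have e1 := up (t1 := (67 / 1000)) (t2 := (68 / 1000)) (x := 1 - h0) (by norm_num)
    (by linear_combination (1004489 / 1000000) * R.h2) (by linear_combination (62789 / 62500) * R.h1)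
  have e2 := lo (t := (240 / 1000)) (x := h0 + s - 1) (by norm_num)
    (by linear_combination s1 + R.h1) (by linear_combination s2 + R.h2)
  have e3 := up (t1 := (411 / 1000)) (t2 := (444 / 1000)) (x := s - h0 + 1) (by norm_num)
    (by linear_combination (1168921 / 1000000) * s1 + (1168921 / 1000000) * R.h2) (by linear_combination (74821 / 62500) * s2 + (74821 / 62500) * R.h1)
  have e4 := up (t1 := (688 / 1000)) (t2 := (689 / 1000)) (x := 9 / 5 - h0) (by norm_num)
    (by linear_combination (23021 / 15625) * R.h2) (by linear_combination (1474721 / 1000000) * R.h1)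
  have e5 := lo (t := (82 / 1000)) (x := s - t - b / 2 - k) (by norm_num)
    (by linear_combination s1 + (1 / 2) * b2 + t2 + R.k4) (by linear_combination s2 + (1 / 2) * b1 + t1 + R.k3)
  have e6 := lo (t := (223 / 1000)) (x := t + b / 2 + k) (by norm_num)
    (by linear_combination (1 / 2) * b1 + t1 + R.k3) (by linear_combination (1 / 2) * b2 + t2 + R.k4)
  have e7 := lo (t := (583 / 1000)) (x := h0 - t + b / 2 - k) (by norm_num)
    (by linear_combination (1 / 2) * b1 + t2 + R.k4 + R.h1) (by linear_combination (1 / 2) * b2 + t1 + R.k3 + R.h2)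
  have e8 := lo (t := (328 / 1000)) (x := s - t + b / 2 - k) (by norm_num)
    (by linear_combination s1 + (1 / 2) * b1 + t2 + R.k4) (by linear_combination s2 + (1 / 2) * b2 + t1 + R.k3)
  have e9 := up (t1 := (232 / 1000)) (t2 := (258 / 1000)) (x := s - t) (by norm_num)
    (by linear_combination (16466 / 15625) * s1 + (16466 / 15625) * t2) (by linear_combination (266641 / 250000) * s2 + (266641 / 250000) * t1)
  have e10 := lo (t := (431 / 1000)) (x := s - h0 + 1 - t + b / 2 - k) (by norm_num)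
    (by linear_combination s1 + (1 / 2) * b1 + t2 + R.k4 + R.h2) (by linear_combination s2 + (1 / 2) * b2 + t1 + R.k3 + R.h1)
  have e11 := lo (t := (697 / 1000)) (x := 9 / 5 - h0 - t + b / 2 - k) (by norm_num)
    (by linear_combination (1 / 2) * b1 + t2 + R.k4 + R.h2) (by linear_combination t1 + 2 * R.h1 + R.hz)
  have e12 := lo (t := (325 / 1000)) (x := s) (by norm_num)
    (by linear_combination s1) (by linear_combination s2)
  have e13 := up (t1 := (221 / 1000)) (t2 := (231 / 1000)) (x := b) (by norm_num)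
    (by linear_combination (1048841 / 1000000) * b1) (by linear_combination (1053361 / 1000000) * b2)
  have c1 := R.phs
  have c2 := R.qhh
  have c3 := R.rv2 (by linear_combination (866030 / 948949) * e13 + R.k2 + (4151447 / 47447450) * b1 + t2)
  have c4 := R.svl (by linear_combination (866030 / 948949) * e13 + R.k2 + (4151447 / 47447450) * b1 + t2) hl
  unfold dl
  linear_combination (14691885277037401469768815650465625 / 3131566840141445711628854291161668) * e13 + (3200 / 1431) * e12 + (500000 / 514191) * e11 + (500000 / 814239) * e10 + (250000 / 58759) * e9 + (15625 / 27888) * e8 + (500000 / 660111) * e7 + (1000000 / 950271) * e6 + (250000 / 248319) * e5 + (31250 / 32873) * e4 + (125000 / 204379) * e3 + (625 / 1178) * e2 + (375000 / 248861) * e1 + (18687138357463828178589139375 / 6600074061180201911017039464) * R.k2 + (24186492435381171388097197 / 175858000555333918079379240) * s2 + (6452904910938239660747908136299825 / 16105200892156006516948393497402864)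 * b2 + (289528490251642345846131906195625 / 387813751760887484089450221865176) * t2 + (155846661717293311287284879719199825 / 120964676692730205343316674720266612) * R.h1 + (1 / 2) * c1 + (1 / 2) * c2 + (1 / 2) * c3 + (1 / 2) * c4

theorem oc20 {s b t k G1 G2 G3 G4 : ℝ} (R : RegB s b t k G1 G2 G3 G4) (hT : t ≤ 284 / 1000 * s) (hy : 0 ≤ 1 / 2 - s + t) (ha : 0 ≤ 1 - h0 - t) (hl : 0 ≤ 2 * h0 - 9 / 5 + t)
    (s1 : 57 / 100 ≤ s) (s2 : s ≤ 607 / 1000)
    (b1 : 875 / 2000 ≤ b) (b2 : b ≤ 1 / 2) (t1 : 862 / 10000 ≤ t) (t2 : t ≤ 1078 / 10000) :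
    4 * ph (s - t) - 2 * ph s - dl s ≤ (G1 + G2 + G3 + G4) / 2 := by
  have e1 := up (t1 := (67 / 1000)) (t2 := (68 / 1000)) (x := 1 - h0) (by norm_num)
    (by linear_combination (1004489 / 1000000) * R.h2) (by linear_combination (62789 / 62500) * R.h1)
  have e2 := lo (t := (240 / 1000)) (x := h0 + s - 1) (by norm_num)
    (by linear_combination s1 + R.h1) (by linear_combination s2 + R.h2)
  have e3 := up (t1 := (411 / 1000)) (t2 := (444 / 1000)) (x := s - h0 + 1) (by norm_num)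
    (by linear_combination (1168921 / 1000000) * s1 + (1168921 / 1000000) * R.h2) (by linear_combination (74821 / 62500) * s2 + (74821 / 62500) * R.h1)
  have e4 := up (t1 := (688 / 1000)) (t2 := (689 / 1000)) (x := 9 / 5 - h0) (by norm_num)
    (by linear_combination (23021 / 15625) * R.h2) (by linear_combination (1474721 / 1000000) * R.h1)
  have e5 := lo (t := (78 / 1000)) (x := s - t - b / 2 - k) (by norm_num)
    (by linear_combination s1 + (1 / 2) * b2 + t2 + R.k4) (by linear_combination s2 + (1 / 2) * b1 + t1 + R.k3)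
  have e6 := lo (t := (228 / 1000)) (x := t + b / 2 + k) (by norm_num)
    (by linear_combination (1 / 2) * b1 + t1 + R.k3) (by linear_combination (1 / 2) * b2 + t2 + R.k4)
  have e7 := lo (t := (630 / 1000)) (x := h0 - t + b / 2 - k) (by norm_num)
    (by linear_combination (1 / 2) * b1 + t2 + R.k4 + R.h1) (by linear_combination t1 + R.hz)
  have e8 := lo (t := (11 / 1000)) (x := h0 + s - 1 - t - b / 2 - k) (by norm_num)
    (by linear_combination s1 + (1 / 2) * b2 + t2 + R.k4 + R.h1) (by linear_combination s2 + (1 / 2) * b1 + t1 + R.k3 + R.h2)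
  have e9 := up (t1 := (244 / 1000)) (t2 := (281 / 1000)) (x := s - t) (by norm_num)
    (by linear_combination (66221 / 62500) * s1 + (66221 / 62500) * t2) (by linear_combination (1078961 / 1000000) * s2 + (1078961 / 1000000) * t1)
  have e10 := lo (t := (459 / 1000)) (x := s - h0 + 1 - t + b / 2 - k) (by norm_num)
    (by linear_combination s1 + (1 / 2) * b1 + t2 + R.k4 + R.h2) (by linear_combination s2 + (1 / 2) * b2 + t1 + R.k3 + R.h1)
  have e11 := lo (t := (779 / 1000)) (x := 9 / 5 - h0 - t + b / 2 - k) (by norm_num)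
    (by linear_combination (1 / 2) * b1 + t2 + R.k4 + R.h2) (by linear_combination t1 + 2 * R.h1 + R.hz)
  have e12 := lo (t := (325 / 1000)) (x := s) (by norm_num)
    (by linear_combination s1) (by linear_combination s2)
  have e13 := up (t1 := (230 / 1000)) (t2 := (268 / 1000)) (x := b) (by norm_num)
    (by linear_combination (10529 / 10000) * b1) (by linear_combination (66989 / 62500) * b2)
  have c1 := R.phs
  have c2 := R.q1w ha (by linear_combination (250 / 249) * e13 + (1894853 / 249) * R.k1 + (1895102 / 249) * R.k2 + s1 + t2 + R.h1)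
  have c3 := R.rv2 (by linear_combination (250 / 249) * e13 + (1894853 / 249) * R.k1 + (1895102 / 249) * R.k2 + t2)
  have c4 := R.svl (by linear_combination (250 / 249) * e13 + (1894853 / 249) * R.k1 + (1895102 / 249) * R.k2 + t2) hl
  unfold dl
  linear_combination (31552791713933953243379345611528275 / 6528557449706028194538058788281381) * e13 + (3200 / 1431) * e12 + (500000 / 393159) * e11 + (500000 / 789319) * e10 + (1125000 / 232859) * e9 + (500000 / 999879) * e8 + (5000 / 6031) * e7 + (62500 / 59251) * e6 + (125000 / 248479) * e5 + (31250 / 32873) * e4 + (125000 / 204379) * e3 + (625 / 589) * e2 + (125000 / 248861) * e1 + (9844948612779558764611014049700 / 3061261432574547514383334612349) * R.k2 + (310586031317417503942456141337 / 1131346000205651585169658907910) * s1 + (553035310070025366676791787411756461473 / 21544239584029893041975594001328557300000) * b1 + (44038850491717558971445374107314925 / 64803843266170596331980810408815981) * t2 + (51532528963764103760627769837694717375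 / 57144650616643800593777740432610914572) * R.h1 + (1 / 2) * R.h3 + (1 / 2) * c1 + (1 / 2) * c2 + (1 / 2) * c3 + (1 / 2) * c4

theorem oc22 {s b t k G1 G2 G3 G4 : ℝ} (R : RegB s b t k G1 G2 G3 G4) (hT : t ≤ 284 / 1000 * s) (hy : 0 ≤ 1 / 2 - s + t) (ha : 0 ≤ 1 - h0 - t) (hl : 0 ≤ 2 * h0 - 9 / 5 + t)
    (s1 : 57 / 100 ≤ s) (s2 : s ≤ 1177 / 2000)
    (b1 : 875 / 2000 ≤ b) (b2 : b ≤ 1 / 2) (t1 : 1078 / 10000 ≤ t) (t2 : t ≤ 1294 / 10000) :
    4 * ph (s - t) - 2 * ph s - dl s ≤ (G1 + G2 + G3 + G4) / 2 := by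
  have e1 := up (t1 := (67 / 1000)) (t2 := (68 / 1000)) (x := 1 - h0) (by norm_num)
    (by linear_combination (1004489 / 1000000) * R.h2) (by linear_combination (62789 / 62500) * R.h1)
  have e2 := lo (t := (235 / 1000)) (x := h0 + s - 1) (by norm_num)
    (by linear_combination s1 + R.h1) (by linear_combination s2 + R.h2)
  have e3 := up (t1 := (411 / 1000)) (t2 := (428 / 1000)) (x := s - h0 + 1) (by norm_num)
    (by linear_combination (1168921 / 1000000) * s1 + (1168921 / 1000000) * R.h2) (by linear_combination (73949 / 62500) * s2 + (73949 / 62500) * R.h1)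
  have e4 := up (t1 := (688 / 1000)) (t2 := (689 / 1000)) (x := 9 / 5 - h0) (by norm_num)
    (by linear_combination (23021 / 15625) * R.h2) (by linear_combination (1474721 / 1000000) * R.h1)
  have e5 := lo (t := (63 / 1000)) (x := s - t - b / 2 - k) (by norm_num)
    (by linear_combination s1 + (1 / 2) * b2 + t2 + R.k4) (by linear_combination s2 + (1 / 2) * b1 + t1 + R.k3)
  have e6 := lo (t := (240 / 1000)) (x := t + b / 2 + k) (by norm_num)
    (by linear_combination (1 / 2) * b1 + t1 + R.k3) (by linear_combination (1 / 2) * b2 + t2 + R.k4)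
  have e7 := lo (t := (597 / 1000)) (x := h0 - t + b / 2 - k) (by norm_num)
    (by linear_combination (1 / 2) * b1 + t2 + R.k4 + R.h1) (by linear_combination t1 + R.hz)
  have e8 := lo (t := (-5 / 1000)) (x := h0 + s - 1 - t - b / 2 - k) (by norm_num)
    (by linear_combination s1 + (1 / 2) * b2 + t2 + R.k4 + R.h1) (by linear_combination s2 + (1 / 2) * b1 + t1 + R.k3 + R.h2)
  have e9 := up (t1 := (232 / 1000)) (t2 := (257 / 1000)) (x := s - t) (by norm_num)
    (by linear_combination (16466 / 15625) * s1 + (16466 / 15625) * t2) (by linear_combination (1066049 / 1000000) * s2 + (1066049 / 1000000) * t1)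
  have e10 := lo (t := (431 / 1000)) (x := s - h0 + 1 - t + b / 2 - k) (by norm_num)
    (by linear_combination s1 + (1 / 2) * b1 + t2 + R.k4 + R.h2) (by linear_combination s2 + (1 / 2) * b2 + t1 + R.k3 + R.h1)
  have e11 := lo (t := (719 / 1000)) (x := 9 / 5 - h0 - t + b / 2 - k) (by norm_num)
    (by linear_combination (1 / 2) * b1 + t2 + R.k4 + R.h2) (by linear_combination t1 + 2 * R.h1 + R.hz)
  have e12 := lo (t := (319 / 1000)) (x := s) (by norm_num)
    (by linear_combination s1) (by linear_combination s2)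
  have e13 := up (t1 := (230 / 1000)) (t2 := (268 / 1000)) (x := b) (by norm_num)
    (by linear_combination (10529 / 10000) * b1) (by linear_combination (66989 / 62500) * b2)
  have c1 := R.phs
  have c2 := R.q1w ha (by linear_combination (250 / 249) * e13 + (1894853 / 249) * R.k1 + (1895102 / 249) * R.k2 + s1 + t2 + R.h1)
  have c3 := R.rv2 (by linear_combination (86603 / 93836) * e13 + R.k2 + (1894853 / 46918000) * b1 + t2)
  have c4 := R.svl (by linear_combination (86603 / 93836) * e13 + R.k2 + (1894853 / 46918000) * b1 + t2) hl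
  unfold dl
  linear_combination (693732586969767907841616603488125 / 166481270036378377067335550309757) * e13 + (2000000 / 898239) * e12 + (500000 / 483039) * e11 + (500000 / 814239) * e10 + (562500 / 117547) * e9 + (20000 / 39999) * e8 + (500000 / 643591) * e7 + (625 / 589) * e6 + (500000 / 996031) * e5 + (31250 / 32873) * e4 + (125000 / 206023) * e3 + (40000 / 37791) * e2 + (125000 / 248861) * e1 + (17701574468640804835718142500 / 7096690823836411486735817823) * R.k2 + (34524686022393002639658013513944907 / 96831687744647669032266157004835135) * s1 + (933737122382508811127602441779162857 / 16648127003637837706733555030975700000) * b1 + (257466908667635502907779213017125 / 1668389432538997322062670355280362) * t2 + (61874834203094306680541651375658055375 / 48034680845791799190111622437149575308) * R.h1 + (1 / 2) * R.h3 + (1 / 2) * c1 + (1 / 2) * c2 + (1 / 2) * c3 + (1 / 2) * c4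

theorem oc23 {s b t k G1 G2 G3 G4 : ℝ} (R : RegB s b t k G1 G2 G3 G4) (hT : t ≤ 284 / 1000 * s) (hy : 0 ≤ 1 / 2 - s + t) (ha : 0 ≤ 1 - h0 - t) (hl : 0 ≤ 2 * h0 - 9 / 5 + t)
    (s1 : 1177 / 2000 ≤ s) (s2 : s ≤ 607 / 1000)
    (b1 : 875 / 2000 ≤ b) (b2 : b ≤ 1 / 2) (t1 : 1078 / 10000 ≤ t) (t2 : t ≤ 1294 / 10000) :
    4 * ph (s - t) - 2 * ph s - dl s ≤ (G1 + G2 + G3 + G4) / 2 := by
  have e1 := up (t1 := (67 / 1000)) (t2 := (68 / 1000)) (x := 1 - h0) (by norm_num)
    (by linear_combination (1004489 / 1000000) * R.h2) (by linear_combination (62789 / 62500) * R.h1)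
  have e2 := lo (t := (246 / 1000)) (x := h0 + s - 1) (by norm_num)
    (by linear_combination s1 + R.h1) (by linear_combination s2 + R.h2)
  have e3 := up (t1 := (427 / 1000)) (t2 := (444 / 1000)) (x := s - h0 + 1) (by norm_num)
    (by linear_combination (1182329 / 1000000) * s1 + (1182329 / 1000000) * R.h2) (by linear_combination (74821 / 62500) * s2 + (74821 / 62500) * R.h1)
  have e4 := up (t1 := (688 / 1000)) (t2 := (689 / 1000)) (x := 9 / 5 - h0) (by norm_num)
    (by linear_combination (23021 / 15625) * R.h2) (by linear_combination (1474721 / 1000000) * R.h1)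
  have e5 := lo (t := (72 / 1000)) (x := s - t - b / 2 - k) (by norm_num)
    (by linear_combination s1 + (1 / 2) * b2 + t2 + R.k4) (by linear_combination s2 + (1 / 2) * b1 + t1 + R.k3)
  have e6 := lo (t := (240 / 1000)) (x := t + b / 2 + k) (by norm_num)
    (by linear_combination (1 / 2) * b1 + t1 + R.k3) (by linear_combination (1 / 2) * b2 + t2 + R.k4)
  have e7 := lo (t := (597 / 1000)) (x := h0 - t + b / 2 - k) (by norm_num)
    (by linear_combination (1 / 2) * b1 + t2 + R.k4 + R.h1) (by linear_combination t1 + R.hz)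
  have e8 := lo (t := (5 / 1000)) (x := h0 + s - 1 - t - b / 2 - k) (by norm_num)
    (by linear_combination s1 + (1 / 2) * b2 + t2 + R.k4 + R.h1) (by linear_combination s2 + (1 / 2) * b1 + t1 + R.k3 + R.h2)
  have e9 := up (t1 := (243 / 1000)) (t2 := (268 / 1000)) (x := s - t) (by norm_num)
    (by linear_combination (1059049 / 1000000) * s1 + (1059049 / 1000000) * t2) (by linear_combination (66989 / 62500) * s2 + (66989 / 62500) * t1)
  have e10 := lo (t := (448 / 1000)) (x := s - h0 + 1 - t + b / 2 - k) (by norm_num)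
    (by linear_combination s1 + (1 / 2) * b1 + t2 + R.k4 + R.h2) (by linear_combination s2 + (1 / 2) * b2 + t1 + R.k3 + R.h1)
  have e11 := lo (t := (719 / 1000)) (x := 9 / 5 - h0 - t + b / 2 - k) (by norm_num)
    (by linear_combination (1 / 2) * b1 + t2 + R.k4 + R.h2) (by linear_combination t1 + 2 * R.h1 + R.hz)
  have e12 := lo (t := (332 / 1000)) (x := s) (by norm_num)
    (by linear_combination s1) (by linear_combination s2)
  have e13 := up (t1 := (230 / 1000)) (t2 := (268 / 1000)) (x := b) (by norm_num)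
    (by linear_combination (10529 / 10000) * b1) (by linear_combination (66989 / 62500) * b2)
  have c1 := R.phs
  have c2 := R.q1w ha (by linear_combination (250 / 249) * e13 + (1894853 / 249) * R.k1 + (1895102 / 249) * R.k2 + s1 + t2 + R.h1)
  have c3 := R.rv2 (by linear_combination (86603 / 93836) * e13 + R.k2 + (1894853 / 46918000) * b1 + t2)
  have c4 := R.svl (by linear_combination (86603 / 93836) * e13 + R.k2 + (1894853 / 46918000) * b1 + t2) hl
  unfold dl
  linear_combination (2032081457176711045895865271 / 473486270532042977203105800) * e13 + (125000 / 55611) * e12 + (500000 / 483039) * e11 + (15625 / 24978) * e10 + (1125000 / 233719) * e9 + (20000 / 39999) * e8 + (500000 / 643591) * e7 + (625 / 589) * e6 + (15625 / 31088) * e5 + (31250 / 32873) * e4 + (125000 / 202603) * e3 + (250000 / 234871) * e2 + (125000 / 248861) * e1 + (3478856925675447665210795938931 / 473486270532042977203105800) * R.k1 + (9110109354869139118467520133 / 1239492854795924024091900)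 * R.k2 + (490228897838699441262568748029 / 1373169896846006024171087037720) * s1 + (79479374002818164434560175 / 935639295391913359449864168) * t2 + (2731415897291849445979073858263907372975 / 2066876551237915079737860983555776597452) * R.h1 + (1 / 2) * R.h3 + (1 / 2) * c1 + (1 / 2) * c2 + (1 / 2) * c3 + (1 / 2) * c4

theorem oc29 {s b t k G1 G2 G3 G4 : ℝ} (R : RegB s b t k G1 G2 G3 G4) (hT : t ≤ 284 / 1000 * s) (hy : 0 ≤ 1 / 2 - s + t) (ha : 0 ≤ 1 - h0 - t) (hl : 0 ≤ 2 * h0 - 9 / 5 + t)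
    (s1 : 57 / 100 ≤ s) (s2 : s ≤ 1177 / 2000)
    (b1 : 15 / 40 ≤ b) (b2 : b ≤ 875 / 2000) (t1 : 1294 / 10000 ≤ t) (t2 : t ≤ 1348 / 10000) :
    4 * ph (s - t) - 2 * ph s - dl s ≤ (G1 + G2 + G3 + G4) / 2 := by
  have e1 := up (t1 := (67 / 1000)) (t2 := (68 / 1000)) (x := 1 - h0) (by norm_num)
    (by linear_combination (1004489 / 1000000) * R.h2) (by linear_combination (62789 / 62500) * R.h1)
  have e2 := lo (t := (235 / 1000)) (x := h0 + s - 1) (by norm_num)
    (by linear_combination s1 + R.h1) (by linear_combination s2 + R.h2)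
  have e3 := lo (t := (85 / 1000)) (x := s - t - b / 2 - k) (by norm_num)
    (by linear_combination s1 + (1 / 2) * b2 + t2 + R.k4) (by linear_combination s2 + (1 / 2) * b1 + t1 + R.k3)
  have e4 := lo (t := (572 / 1000)) (x := h0 - t + b / 2 - k) (by norm_num)
    (by linear_combination (1 / 2) * b1 + t2 + R.k4 + R.h1) (by linear_combination (1 / 2) * b2 + t1 + R.k3 + R.h2)
  have e5 := lo (t := (316 / 1000)) (x := s - t + b / 2 - k) (by norm_num)
    (by linear_combination s1 + (1 / 2) * b1 + t2 + R.k4) (by linear_combination s2 + (1 / 2) * b2 + t1 + R.k3)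
  have e6 := up (t1 := (229 / 1000)) (t2 := (244 / 1000)) (x := s - t) (by norm_num)
    (by linear_combination (1052441 / 1000000) * s1 + (1052441 / 1000000) * t2) (by linear_combination (66221 / 62500) * s2 + (66221 / 62500) * t1)
  have e7 := lo (t := (319 / 1000)) (x := s) (by norm_num)
    (by linear_combination s1) (by linear_combination s2)
  have e8 := up (t1 := (194 / 1000)) (t2 := (231 / 1000)) (x := b) (by norm_num)
    (by linear_combination (259409 / 250000) * b1) (by linear_combination (1053361 / 1000000) * b2)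
  have c1 := R.phs
  have c2 := R.qhh
  unfold dl
  linear_combination (1631817769571843500 / 712191134711996289) * e8 + (2000000 / 898239) * e7 + (1000000 / 236031) * e6 + (31250 / 56259) * e5 + (31250 / 42051) * e4 + (40000 / 39711) * e3 + (20000 / 37791) * e2 + (375000 / 248861) * e1 + (2046610642900 / 1491209324073) * R.k2 + (622464587025753234547 / 5538526720184415083490) * s2 + (34395021199742825 / 74967487864420662) * b2 + (74092817877399700 / 117323875990091421) * t1 + (171679517824925 / 131825764716867) * R.h1 + (1 / 2) * c1 + (1 / 2) * c2 + (1 / 2) * R.n3 + (1 / 2) * R.n4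

theorem oc35 {s b t k G1 G2 G3 G4 : ℝ} (R : RegB s b t k G1 G2 G3 G4) (hT : t ≤ 284 / 1000 * s) (hy : 0 ≤ 1 / 2 - s + t) (ha : 0 ≤ 1 - h0 - t) (hl : 0 ≤ 2 * h0 - 9 / 5 + t)
    (s1 : 57 / 100 ≤ s) (s2 : s ≤ 5793 / 10000)
    (b1 : 875 / 2000 ≤ b) (b2 : b ≤ 4532 / 10000) (t1 : 1294 / 10000 ≤ t) (t2 : t ≤ 1307 / 10000) :
    4 * ph (s - t) - 2 * ph s - dl s ≤ (G1 + G2 + G3 + G4) / 2 := by
  have e1 := up (t1 := (67 / 1000)) (t2 := (68 / 1000)) (x := 1 - h0) (by norm_num)
    (by linear_combination (1004489 / 1000000) * R.h2) (by linear_combination (62789 / 62500) * R.h1)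
  have e2 := lo (t := (232 / 1000)) (x := h0 + s - 1) (by norm_num)
    (by linear_combination s1 + R.h1) (by linear_combination s2 + R.h2)
  have e3 := up (t1 := (411 / 1000)) (t2 := (420 / 1000)) (x := s - h0 + 1) (by norm_num)
    (by linear_combination (1168921 / 1000000) * s1 + (1168921 / 1000000) * R.h2) (by linear_combination (2941 / 2500) * s2 + (2941 / 2500) * R.h1)
  have e4 := up (t1 := (688 / 1000)) (t2 := (689 / 1000)) (x := 9 / 5 - h0) (by norm_num)
    (by linear_combination (23021 / 15625) * R.h2) (by linear_combination (1474721 / 1000000) * R.h1)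
  have e5 := lo (t := (66 / 1000)) (x := s - t - b / 2 - k) (by norm_num)
    (by linear_combination s1 + (1 / 2) * b2 + t2 + R.k4) (by linear_combination s2 + (1 / 2) * b1 + t1 + R.k3)
  have e6 := lo (t := (234 / 1000)) (x := t + b / 2 + k) (by norm_num)
    (by linear_combination (1 / 2) * b1 + t1 + R.k3) (by linear_combination (1 / 2) * b2 + t2 + R.k4)
  have e7 := lo (t := (580 / 1000)) (x := h0 - t + b / 2 - k) (by norm_num)
    (by linear_combination (1 / 2) * b1 + t2 + R.k4 + R.h1) (by linear_combination (1 / 2) * b2 + t1 + R.k3 + R.h2)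
  have e8 := lo (t := (-1 / 1000)) (x := h0 + s - 1 - t - b / 2 - k) (by norm_num)
    (by linear_combination s1 + (1 / 2) * b2 + t2 + R.k4 + R.h1) (by linear_combination s2 + (1 / 2) * b1 + t1 + R.k3 + R.h2)
  have e9 := up (t1 := (231 / 1000)) (t2 := (238 / 1000)) (x := s - t) (by norm_num)
    (by linear_combination (1053361 / 1000000) * s1 + (1053361 / 1000000) * t2) (by linear_combination (264161 / 250000) * s2 + (264161 / 250000) * t1)
  have e10 := lo (t := (417 / 1000)) (x := s - h0 + 1 - t + b / 2 - k) (by norm_num)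
    (by linear_combination s1 + (1 / 2) * b1 + t2 + R.k4 + R.h2) (by linear_combination s2 + (1 / 2) * b2 + t1 + R.k3 + R.h1)
  have e11 := lo (t := (692 / 1000)) (x := 9 / 5 - h0 - t + b / 2 - k) (by norm_num)
    (by linear_combination (1 / 2) * b1 + t2 + R.k4 + R.h2) (by linear_combination t1 + 2 * R.h1 + R.hz)
  have e12 := lo (t := (316 / 1000)) (x := s) (by norm_num)
    (by linear_combination s1) (by linear_combination s2)
  have e13 := up (t1 := (230 / 1000)) (t2 := (240 / 1000)) (x := b) (by norm_num)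
    (by linear_combination (10529 / 10000) * b1) (by linear_combination (661 / 625) * b2)
  have c1 := R.phs
  have c2 := R.q1w ha (by linear_combination (50 / 47) * e13 + (653659 / 47) * R.k1 + (653706 / 47) * R.k2 + s1 + t2 + R.h1)
  have c3 := R.rv2 (by linear_combination (86603 / 94480) * e13 + R.k2 + (653659 / 9448000) * b1 + t2)
  have c4 := R.svl (by linear_combination (86603 / 94480) * e13 + R.k2 + (653659 / 9448000) * b1 + t2) hl
  unfold dl
  linear_combination (41047196654950315432019665 / 10420025222662032100234293) * e13 + (125000 / 56259) * e12 + (31250 / 32571) * e11 + (500000 / 826111) * e10 + (2250000 / 472511) * e9 + (500000 / 999999) * e8 + (1250 / 1659) * e7 + (250000 / 236311) * e6 + (125000 / 248911) * e5 + (31250 / 32873) * e4 + (25000 / 41369) * e3 + (15625 / 14784) * e2 + (125000 / 248861) * e1 + (20088697992823844919400 / 8823052686420010245753) * R.k2 + (1870472762123669068414501 / 4357949650519592417827680) * s1 + (81762464459607844694483310863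 / 545810844996582633821796300000) * b1 + (13969571534036305759981550 / 320691495993308112402384291) * t2 + (327491947864413547301307089525 / 232299387875629727052721697376) * R.h1 + (1 / 2) * R.h3 + (1 / 2) * c1 + (1 / 2) * c2 + (1 / 2) * c3 + (1 / 2) * c4

theorem oc36 {s b t k G1 G2 G3 G4 : ℝ} (R : RegB s b t k G1 G2 G3 G4) (hT : t ≤ 284 / 1000 * s) (hy : 0 ≤ 1 / 2 - s + t) (ha : 0 ≤ 1 - h0 - t) (hl : 0 ≤ 2 * h0 - 9 / 5 + t)
    (s1 : 57 / 100 ≤ s) (s2 : s ≤ 5793 / 10000)
    (b1 : 875 / 2000 ≤ b) (b2 : b ≤ 4532 / 10000) (t1 : 1307 / 10000 ≤ t) (t2 : t ≤ 1321 / 10000) :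
    4 * ph (s - t) - 2 * ph s - dl s ≤ (G1 + G2 + G3 + G4) / 2 := by
  have e1 := up (t1 := (67 / 1000)) (t2 := (68 / 1000)) (x := 1 - h0) (by norm_num)
    (by linear_combination (1004489 / 1000000) * R.h2) (by linear_combination (62789 / 62500) * R.h1)
  have e2 := lo (t := (232 / 1000)) (x := h0 + s - 1) (by norm_num)
    (by linear_combination s1 + R.h1) (by linear_combination s2 + R.h2)
  have e3 := lo (t := (65 / 1000)) (x := s - t - b / 2 - k) (by norm_num)
    (by linear_combination s1 + (1 / 2) * b2 + t2 + R.k4) (by linear_combination s2 + (1 / 2) * b1 + t1 + R.k3)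
  have e4 := lo (t := (578 / 1000)) (x := h0 - t + b / 2 - k) (by norm_num)
    (by linear_combination (1 / 2) * b1 + t2 + R.k4 + R.h1) (by linear_combination (1 / 2) * b2 + t1 + R.k3 + R.h2)
  have e5 := lo (t := (-2 / 1000)) (x := h0 + s - 1 - t - b / 2 - k) (by norm_num)
    (by linear_combination s1 + (1 / 2) * b2 + t2 + R.k4 + R.h1) (by linear_combination s2 + (1 / 2) * b1 + t1 + R.k3 + R.h2)
  have e6 := up (t1 := (230 / 1000)) (t2 := (237 / 1000)) (x := s - t) (by norm_num)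
    (by linear_combination (10529 / 10000) * s1 + (10529 / 10000) * t2) (by linear_combination (1056169 / 1000000) * s2 + (1056169 / 1000000) * t1)
  have e7 := lo (t := (316 / 1000)) (x := s) (by norm_num)
    (by linear_combination s1) (by linear_combination s2)
  have e8 := up (t1 := (230 / 1000)) (t2 := (240 / 1000)) (x := b) (by norm_num)
    (by linear_combination (10529 / 10000) * b1) (by linear_combination (661 / 625) * b2)
  have c1 := R.phs
  have c2 := R.q1w ha (by linear_combination (50 / 47) * e8 + (653659 / 47) * R.k1 + (653706 / 47) * R.k2 + s1 + t2 + R.h1)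
  unfold dl
  linear_combination (32579241600786040 / 19775780954309769) * e8 + (125000 / 56259) * e7 + (450000 / 94549) * e6 + (125000 / 249999) * e5 + (125000 / 166479) * e4 + (20000 / 39831) * e3 + (15625 / 14784) * e2 + (125000 / 248861) * e1 + (171531613783400 / 184194403469439) * R.k2 + (8363964419596706053 / 19217187294183347040) * s1 + (1328435078785537702159 / 21753359049740745900000) * b1 + (22490311337495919250 / 17415396653631988011) * t1 + (12115442974554768125 / 8506952751420882528) * R.h1 + (1 / 2) * R.h3 + (1 / 2) * c1 + (1 / 2) * c2 + (1 / 2) * R.n3 + (1 / 2) * R.n4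

theorem oc37 {s b t k G1 G2 G3 G4 : ℝ} (R : RegB s b t k G1 G2 G3 G4) (hT : t ≤ 284 / 1000 * s) (hy : 0 ≤ 1 / 2 - s + t) (ha : 0 ≤ 1 - h0 - t) (hl : 0 ≤ 2 * h0 - 9 / 5 + t)
    (s1 : 5793 / 10000 ≤ s) (s2 : s ≤ 1177 / 2000)
    (b1 : 875 / 2000 ≤ b) (b2 : b ≤ 4532 / 10000) (t1 : 1294 / 10000 ≤ t) (t2 : t ≤ 1321 / 10000) :
    4 * ph (s - t) - 2 * ph s - dl s ≤ (G1 + G2 + G3 + G4) / 2 := by
  have e1 := up (t1 := (67 / 1000)) (t2 := (68 / 1000)) (x := 1 - h0) (by norm_num)
    (by linear_combination (1004489 / 1000000) * R.h2) (by linear_combination (62789 / 62500) * R.h1)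
  have e2 := lo (t := (238 / 1000)) (x := h0 + s - 1) (by norm_num)
    (by linear_combination s1 + R.h1) (by linear_combination s2 + R.h2)
  have e3 := lo (t := (70 / 1000)) (x := s - t - b / 2 - k) (by norm_num)
    (by linear_combination s1 + (1 / 2) * b2 + t2 + R.k4) (by linear_combination s2 + (1 / 2) * b1 + t1 + R.k3)
  have e4 := lo (t := (579 / 1000)) (x := h0 - t + b / 2 - k) (by norm_num)
    (by linear_combination (1 / 2) * b1 + t2 + R.k4 + R.h1) (by linear_combination (1 / 2) * b2 + t1 + R.k3 + R.h2)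
  have e5 := up (t1 := (236 / 1000)) (t2 := (244 / 1000)) (x := s - t) (by norm_num)
    (by linear_combination (65981 / 62500) * s1 + (65981 / 62500) * t2) (by linear_combination (66221 / 62500) * s2 + (66221 / 62500) * t1)
  have e6 := lo (t := (322 / 1000)) (x := s) (by norm_num)
    (by linear_combination s1) (by linear_combination s2)
  have e7 := up (t1 := (230 / 1000)) (t2 := (240 / 1000)) (x := b) (by norm_num)
    (by linear_combination (10529 / 10000) * b1) (by linear_combination (661 / 625) * b2)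
  have c1 := R.phs
  have c2 := R.qhw ha
  unfold dl
  linear_combination (26892469752745 / 15624669702858) * e7 + (500000 / 224079) * e6 + (281250 / 58901) * e5 + (500000 / 664759) * e4 + (10000 / 9951) * e3 + (250000 / 235839) * e2 + (250000 / 248861) * e1 + (6692291600 / 6615016809) * R.k2 + (16873694422551334213 / 34416259474300354590) * s1 + (2807520622593457 / 260411161714300000) * b2 + (498844601683400 / 389631105066909) * t1 + (58959835361605750 / 39015456474854661) * R.h1 + (1 / 2) * R.h3 + (1 / 2) * c1 + (1 / 2) * c2 + (1 / 2) * R.n3 + (1 / 2) * R.n4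

theorem oc38 {s b t k G1 G2 G3 G4 : ℝ} (R : RegB s b t k G1 G2 G3 G4) (hT : t ≤ 284 / 1000 * s) (hy : 0 ≤ 1 / 2 - s + t) (ha : 0 ≤ 1 - h0 - t) (hl : 0 ≤ 2 * h0 - 9 / 5 + t)
    (s1 : 57 / 100 ≤ s) (s2 : s ≤ 1177 / 2000)
    (b1 : 4532 / 10000 ≤ b) (b2 : b ≤ 4688 / 10000) (t1 : 1294 / 10000 ≤ t) (t2 : t ≤ 1321 / 10000) :
    4 * ph (s - t) - 2 * ph s - dl s ≤ (G1 + G2 + G3 + G4) / 2 := by
  have e1 := lo (t := (235 / 1000)) (x := h0 + s - 1) (by norm_num)
    (by linear_combination s1 + R.h1) (by linear_combination s2 + R.h2)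
  have e2 := up (t1 := (411 / 1000)) (t2 := (428 / 1000)) (x := s - h0 + 1) (by norm_num)
    (by linear_combination (1168921 / 1000000) * s1 + (1168921 / 1000000) * R.h2) (by linear_combination (73949 / 62500) * s2 + (73949 / 62500) * R.h1)
  have e3 := up (t1 := (688 / 1000)) (t2 := (689 / 1000)) (x := 9 / 5 - h0) (by norm_num)
    (by linear_combination (23021 / 15625) * R.h2) (by linear_combination (1474721 / 1000000) * R.h1)
  have e4 := lo (t := (243 / 1000)) (x := t + b / 2 + k) (by norm_num)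
    (by linear_combination (1 / 2) * b1 + t1 + R.k3) (by linear_combination (1 / 2) * b2 + t2 + R.k4)
  have e5 := lo (t := (580 / 1000)) (x := h0 - t + b / 2 - k) (by norm_num)
    (by linear_combination (1 / 2) * b1 + t2 + R.k4 + R.h1) (by linear_combination (1 / 2) * b2 + t1 + R.k3 + R.h2)
  have e6 := lo (t := (-7 / 1000)) (x := h0 + s - 1 - t - b / 2 - k) (by norm_num)
    (by linear_combination s1 + (1 / 2) * b2 + t2 + R.k4 + R.h1) (by linear_combination s2 + (1 / 2) * b1 + t1 + R.k3 + R.h2)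
  have e7 := up (t1 := (230 / 1000)) (t2 := (244 / 1000)) (x := s - t) (by norm_num)
    (by linear_combination (10529 / 10000) * s1 + (10529 / 10000) * t2) (by linear_combination (66221 / 62500) * s2 + (66221 / 62500) * t1)
  have e8 := lo (t := (421 / 1000)) (x := s - h0 + 1 - t + b / 2 - k) (by norm_num)
    (by linear_combination s1 + (1 / 2) * b1 + t2 + R.k4 + R.h2) (by linear_combination s2 + (1 / 2) * b2 + t1 + R.k3 + R.h1)
  have e9 := lo (t := (693 / 1000)) (x := 9 / 5 - h0 - t + b / 2 - k) (by norm_num)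
    (by linear_combination (1 / 2) * b1 + t2 + R.k4 + R.h2) (by linear_combination t1 + 2 * R.h1 + R.hz)
  have e10 := lo (t := (319 / 1000)) (x := s) (by norm_num)
    (by linear_combination s1) (by linear_combination s2)
  have e11 := up (t1 := (239 / 1000)) (t2 := (249 / 1000)) (x := b) (by norm_num)
    (by linear_combination (1057121 / 1000000) * b1) (by linear_combination (1062001 / 1000000) * b2)
  have c1 := R.pvs (by linear_combination (78730 / 85499) * e11 + R.k2 + (216463 / 4274950) * b1 + t2)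
  have c2 := R.q1w ha (by linear_combination (125 / 122) * e11 + (2381093 / 244) * R.k1 + (2381337 / 244) * R.k2 + s1 + t2 + R.h1)
  have c3 := R.rv2 (by linear_combination (78730 / 85499) * e11 + R.k2 + (216463 / 4274950) * b1 + t2)
  have c4 := R.svl (by linear_combination (78730 / 85499) * e11 + R.k2 + (216463 / 4274950) * b1 + t2) hl
  unfold dl
  linear_combination (3301693756563100990919379875500 / 905900656176927136684721918463) * e11 + (2000000 / 898239) * e10 + (500000 / 519751) * e9 + (500000 / 822759) * e8 + (112500 / 23597) * e7 + (500000 / 999951) * e6 + (1250 / 1659) * e5 + (1500000 / 940951) * e4 + (31250 / 32873) * e3 + (125000 / 206023) * e2 + (20000 / 37791) * e1 + (20526526979634931165559350 / 10595453235440497978745037) * R.k2 + (2337899674209258517873603351 / 22240258210685143880169666930) * s1 + (1111280857801982692989435331802011 / 2745153503566445868741581571100000) * b1 + (11519726663059869143267873725 / 35717272856669918686349519727)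 * t1 + (12953212478236064148422147229475 / 11896855202959400322179344565388) * R.h1 + (1 / 2) * R.h3 + (1 / 2) * c1 + (1 / 2) * c2 + (1 / 2) * c3 + (1 / 2) * c4

theorem oc39 {s b t k G1 G2 G3 G4 : ℝ} (R : RegB s b t k G1 G2 G3 G4) (hT : t ≤ 284 / 1000 * s) (hy : 0 ≤ 1 / 2 - s + t) (ha : 0 ≤ 1 - h0 - t) (hl : 0 ≤ 2 * h0 - 9 / 5 + t)
    (s1 : 57 / 100 ≤ s) (s2 : s ≤ 1177 / 2000)
    (b1 : 875 / 2000 ≤ b) (b2 : b ≤ 4688 / 10000) (t1 : 1321 / 10000 ≤ t) (t2 : t ≤ 1348 / 10000) :
    4 * ph (s - t) - 2 * ph s - dl s ≤ (G1 + G2 + G3 + G4) / 2 := by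
  have e1 := lo (t := (235 / 1000)) (x := h0 + s - 1) (by norm_num)
    (by linear_combination s1 + R.h1) (by linear_combination s2 + R.h2)
  have e2 := lo (t := (-4 / 1000)) (x := h0 + s - 1 - t - b / 2 - k) (by norm_num)
    (by linear_combination s1 + (1 / 2) * b2 + t2 + R.k4 + R.h1) (by linear_combination s2 + (1 / 2) * b1 + t1 + R.k3 + R.h2)
  have e3 := up (t1 := (229 / 1000)) (t2 := (242 / 1000)) (x := s - t) (by norm_num)
    (by linear_combination (1052441 / 1000000) * s1 + (1052441 / 1000000) * t2) (by linear_combination (264641 / 250000) * s2 + (264641 / 250000) * t1)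
  have e4 := lo (t := (319 / 1000)) (x := s) (by norm_num)
    (by linear_combination s1) (by linear_combination s2)
  have e5 := up (t1 := (230 / 1000)) (t2 := (249 / 1000)) (x := b) (by norm_num)
    (by linear_combination (10529 / 10000) * b1) (by linear_combination (1062001 / 1000000) * b2)
  have c2 := R.q1w ha (by linear_combination (500 / 479) * e5 + (5653663 / 479) * R.k1 + (5654142 / 479) * R.k2 + s1 + t2 + R.h1)
  unfold dl
  linear_combination (1540824500 / 5891968227) * e5 + (2000000 / 898239) * e4 + (2250000 / 472291) * e3 + (31250 / 62499) * e2 + (20000 / 37791) * e1 + (250 / 62499) * R.k1 + (135206284118570786743 / 1113321306017995772490) * s1 + (182501035147327 / 589196822700000) * b1 + (66351388000 / 29517715209) * t1 + (192680950 / 787299903) * R.h1 + (1 / 2) * R.h3 + (1 / 2) * R.n1 + (1 / 2) * c2 + (1 / 2) * R.n3 + (1 / 2) * R.n4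

theorem oc40 {s b t k G1 G2 G3 G4 : ℝ} (R : RegB s b t k G1 G2 G3 G4) (hT : t ≤ 284 / 1000 * s) (hy : 0 ≤ 1 / 2 - s + t) (ha : 0 ≤ 1 - h0 - t) (hl : 0 ≤ 2 * h0 - 9 / 5 + t)
    (s1 : 57 / 100 ≤ s) (s2 : s ≤ 1177 / 2000)
    (b1 : 4688 / 10000 ≤ b) (b2 : b ≤ 1 / 2) (t1 : 1294 / 10000 ≤ t) (t2 : t ≤ 1348 / 10000) :
    4 * ph (s - t) - 2 * ph s - dl s ≤ (G1 + G2 + G3 + G4) / 2 := by
  have e1 := lo (t := (235 / 1000)) (x := h0 + s - 1) (by norm_num)
    (by linear_combination s1 + R.h1) (by linear_combination s2 + R.h2)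
  have e2 := lo (t := (-19 / 1000)) (x := h0 + s - 1 - t - b / 2 - k) (by norm_num)
    (by linear_combination s1 + (1 / 2) * b2 + t2 + R.k4 + R.h1) (by linear_combination s2 + (1 / 2) * b1 + t1 + R.k3 + R.h2)
  have e3 := up (t1 := (229 / 1000)) (t2 := (244 / 1000)) (x := s - t) (by norm_num)
    (by linear_combination (1052441 / 1000000) * s1 + (1052441 / 1000000) * t2) (by linear_combination (66221 / 62500) * s2 + (66221 / 62500) * t1)
  have e4 := lo (t := (319 / 1000)) (x := s) (by norm_num)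
    (by linear_combination s1) (by linear_combination s2)
  have e5 := up (t1 := (248 / 1000)) (t2 := (268 / 1000)) (x := b) (by norm_num)
    (by linear_combination (16586 / 15625) * b1) (by linear_combination (66989 / 62500) * b2)
  have c2 := R.q1w ha (by linear_combination (125 / 129) * e5 + (497413 / 129) * R.k1 + (497542 / 129) * R.k2 + s1 + t2 + R.h1)
  unfold dl
  linear_combination (14590960625 / 58324937094) * e5 + (2000000 / 898239) * e4 + (375000 / 78677) * e3 + (500000 / 999639) * e2 + (20000 / 37791) * e1 + (19000 / 999639) * R.k1 + (31580928910720830859 / 329599281048984855870) * s1 + (914031616428647 / 2916246854700000) * b1 + (178805830625 / 78648597603) * t1 + (321428800 / 1399161387) * R.h1 + (1 / 2) * R.h3 + (1 / 2) * R.n1 + (1 / 2) * c2 + (1 / 2) * R.n3 + (1 / 2) * R.n4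

theorem oc41 {s b t k G1 G2 G3 G4 : ℝ} (R : RegB s b t k G1 G2 G3 G4) (hT : t ≤ 284 / 1000 * s) (hy : 0 ≤ 1 / 2 - s + t) (ha : 0 ≤ 1 - h0 - t) (hl : 0 ≤ 2 * h0 - 9 / 5 + t)
    (s1 : 1177 / 2000 ≤ s) (s2 : s ≤ 607 / 1000)
    (b1 : 15 / 40 ≤ b) (b2 : b ≤ 1 / 2) (t1 : 1294 / 10000 ≤ t) (t2 : t ≤ 1348 / 10000) :
    4 * ph (s - t) - 2 * ph s - dl s ≤ (G1 + G2 + G3 + G4) / 2 := by
  have e1 := up (t1 := (67 / 1000)) (t2 := (68 / 1000)) (x := 1 - h0) (by norm_num)
    (by linear_combination (1004489 / 1000000) * R.h2) (by linear_combination (62789 / 62500) * R.h1)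
  have e2 := lo (t := (246 / 1000)) (x := h0 + s - 1) (by norm_num)
    (by linear_combination s1 + R.h1) (by linear_combination s2 + R.h2)
  have e3 := lo (t := (79 / 1000)) (x := s - t - b / 2 - k) (by norm_num)
    (by linear_combination s1 + (1 / 2) * b2 + t2 + R.k4) (by linear_combination s2 + (1 / 2) * b1 + t1 + R.k3)
  have e4 := lo (t := (573 / 1000)) (x := h0 - t + b / 2 - k) (by norm_num)
    (by linear_combination (1 / 2) * b1 + t2 + R.k4 + R.h1) (by linear_combination (1 / 2) * b2 + t1 + R.k3 + R.h2)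
  have e5 := up (t1 := (239 / 1000)) (t2 := (255 / 1000)) (x := s - t) (by norm_num)
    (by linear_combination (1057121 / 1000000) * s1 + (1057121 / 1000000) * t2) (by linear_combination (42601 / 40000) * s2 + (42601 / 40000) * t1)
  have e6 := lo (t := (332 / 1000)) (x := s) (by norm_num)
    (by linear_combination s1) (by linear_combination s2)
  have e7 := up (t1 := (194 / 1000)) (t2 := (268 / 1000)) (x := b) (by norm_num)
    (by linear_combination (259409 / 250000) * b1) (by linear_combination (66989 / 62500) * b2)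
  have c1 := R.phs
  have c2 := R.qhw ha
  unfold dl
  linear_combination (72999871937500 / 42548112416271) * e7 + (125000 / 55611) * e6 + (900000 / 187811) * e5 + (500000 / 671671) * e4 + (1000000 / 993759) * e3 + (250000 / 234871) * e2 + (250000 / 248861) * e1 + (3997325000 / 3949580481) * R.k2 + (24421953728703153869 / 48082190210243222670) * s1 + (7661596344253568347 / 608438007552675300000) * b2 + (77326298175200 / 57059589209007) * t1 + (93211983336750 / 61631594554673) * R.h1 + (1 / 2) * R.h3 + (1 / 2) * c1 + (1 / 2) * c2 + (1 / 2) * R.n3 + (1 / 2) * R.n4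

theorem oc42 {s b t k G1 G2 G3 G4 : ℝ} (R : RegB s b t k G1 G2 G3 G4) (hT : t ≤ 284 / 1000 * s) (hy : 0 ≤ 1 / 2 - s + t) (ha : 0 ≤ 1 - h0 - t) (hl : 0 ≤ 2 * h0 - 9 / 5 + t)
    (s1 : 57 / 100 ≤ s) (s2 : s ≤ 607 / 1000)
    (b1 : 15 / 40 ≤ b) (b2 : b ≤ 1 / 2) (t1 : 1348 / 10000 ≤ t) (t2 : t ≤ 1402 / 10000) :
    4 * ph (s - t) - 2 * ph s - dl s ≤ (G1 + G2 + G3 + G4) / 2 := by
  exfalso
  exact absurd ha (not_le.mpr (by linear_combination t1 + R.h1))

theorem oc43 {s b t k G1 G2 G3 G4 : ℝ} (R : RegB s b t k G1 G2 G3 G4) (hT : t ≤ 284 / 1000 * s) (hy : 0 ≤ 1 / 2 - s + t) (ha : 0 ≤ 1 - h0 - t) (hl : 0 ≤ 2 * h0 - 9 / 5 + t)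
    (s1 : 57 / 100 ≤ s) (s2 : s ≤ 607 / 1000)
    (b1 : 15 / 40 ≤ b) (b2 : b ≤ 1 / 2) (t1 : 1402 / 10000 ≤ t) (t2 : t ≤ 1509 / 10000) :
    4 * ph (s - t) - 2 * ph s - dl s ≤ (G1 + G2 + G3 + G4) / 2 := by
  exfalso
  exact absurd ha (not_le.mpr (by linear_combination t1 + R.h1))

theorem oc44 {s b t k G1 G2 G3 G4 : ℝ} (R : RegB s b t k G1 G2 G3 G4) (hT : t ≤ 284 / 1000 * s) (hy : 0 ≤ 1 / 2 - s + t) (ha : 0 ≤ 1 - h0 - t) (hl : 0 ≤ 2 * h0 - 9 / 5 + t)
    (s1 : 57 / 100 ≤ s) (s2 : s ≤ 607 / 1000)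
    (b1 : 15 / 40 ≤ b) (b2 : b ≤ 1 / 2) (t1 : 1509 / 10000 ≤ t) (t2 : t ≤ 345 / 2000) :
    4 * ph (s - t) - 2 * ph s - dl s ≤ (G1 + G2 + G3 + G4) / 2 := by
  exfalso
  exact absurd ha (not_le.mpr (by linear_combination t1 + R.h1))

theorem oc34 {s b t k G1 G2 G3 G4 : ℝ} (R : RegB s b t k G1 G2 G3 G4) (hT : t ≤ 284 / 1000 * s) (hy : 0 ≤ 1 / 2 - s + t) (ha : 0 ≤ 1 - h0 - t) (hl : 0 ≤ 2 * h0 - 9 / 5 + t)
    (s1 : 57 / 100 ≤ s) (s2 : s ≤ 5793 / 10000)
    (b1 : 875 / 2000 ≤ b) (b2 : b ≤ 4532 / 10000) (t1 : 1294 / 10000 ≤ t) (t2 : t ≤ 1321 / 10000) :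
    4 * ph (s - t) - 2 * ph s - dl s ≤ (G1 + G2 + G3 + G4) / 2 := by
  rcases le_total t (1307 / 10000) with h | h
  · exact oc35 R hT hy ha hl s1 s2 b1 b2 t1 h
  · exact oc36 R hT hy ha hl s1 s2 b1 b2 h t2

theorem oc33 {s b t k G1 G2 G3 G4 : ℝ} (R : RegB s b t k G1 G2 G3 G4) (hT : t ≤ 284 / 1000 * s) (hy : 0 ≤ 1 / 2 - s + t) (ha : 0 ≤ 1 - h0 - t) (hl : 0 ≤ 2 * h0 - 9 / 5 + t)
    (s1 : 57 / 100 ≤ s) (s2 : s ≤ 1177 / 2000)
    (b1 : 875 / 2000 ≤ b) (b2 : b ≤ 4532 / 10000) (t1 : 1294 / 10000 ≤ t) (t2 : t ≤ 1321 / 10000) :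
    4 * ph (s - t) - 2 * ph s - dl s ≤ (G1 + G2 + G3 + G4) / 2 := by
  rcases le_total s (5793 / 10000) with h | h
  · exact oc34 R hT hy ha hl s1 h b1 b2 t1 t2
  · exact oc37 R hT hy ha hl h s2 b1 b2 t1 t2

theorem oc32 {s b t k G1 G2 G3 G4 : ℝ} (R : RegB s b t k G1 G2 G3 G4) (hT : t ≤ 284 / 1000 * s) (hy : 0 ≤ 1 / 2 - s + t) (ha : 0 ≤ 1 - h0 - t) (hl : 0 ≤ 2 * h0 - 9 / 5 + t)
    (s1 : 57 / 100 ≤ s) (s2 : s ≤ 1177 / 2000)
    (b1 : 875 / 2000 ≤ b) (b2 : b ≤ 4688 / 10000) (t1 : 1294 / 10000 ≤ t) (t2 : t ≤ 1321 / 10000) :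
    4 * ph (s - t) - 2 * ph s - dl s ≤ (G1 + G2 + G3 + G4) / 2 := by
  rcases le_total b (4532 / 10000) with h | h
  · exact oc33 R hT hy ha hl s1 s2 b1 h t1 t2
  · exact oc38 R hT hy ha hl s1 s2 h b2 t1 t2

theorem oc31 {s b t k G1 G2 G3 G4 : ℝ} (R : RegB s b t k G1 G2 G3 G4) (hT : t ≤ 284 / 1000 * s) (hy : 0 ≤ 1 / 2 - s + t) (ha : 0 ≤ 1 - h0 - t) (hl : 0 ≤ 2 * h0 - 9 / 5 + t)
    (s1 : 57 / 100 ≤ s) (s2 : s ≤ 1177 / 2000)
    (b1 : 875 / 2000 ≤ b) (b2 : b ≤ 4688 / 10000) (t1 : 1294 / 10000 ≤ t) (t2 : t ≤ 1348 / 10000) :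
    4 * ph (s - t) - 2 * ph s - dl s ≤ (G1 + G2 + G3 + G4) / 2 := by
  rcases le_total t (1321 / 10000) with h | h
  · exact oc32 R hT hy ha hl s1 s2 b1 b2 t1 h
  · exact oc39 R hT hy ha hl s1 s2 b1 b2 h t2

theorem oc30 {s b t k G1 G2 G3 G4 : ℝ} (R : RegB s b t k G1 G2 G3 G4) (hT : t ≤ 284 / 1000 * s) (hy : 0 ≤ 1 / 2 - s + t) (ha : 0 ≤ 1 - h0 - t) (hl : 0 ≤ 2 * h0 - 9 / 5 + t)
    (s1 : 57 / 100 ≤ s) (s2 : s ≤ 1177 / 2000)
    (b1 : 875 / 2000 ≤ b) (b2 : b ≤ 1 / 2) (t1 : 1294 / 10000 ≤ t) (t2 : t ≤ 1348 / 10000) :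
    4 * ph (s - t) - 2 * ph s - dl s ≤ (G1 + G2 + G3 + G4) / 2 := by
  rcases le_total b (4688 / 10000) with h | h
  · exact oc31 R hT hy ha hl s1 s2 b1 h t1 t2
  · exact oc40 R hT hy ha hl s1 s2 h b2 t1 t2

theorem oc28 {s b t k G1 G2 G3 G4 : ℝ} (R : RegB s b t k G1 G2 G3 G4) (hT : t ≤ 284 / 1000 * s) (hy : 0 ≤ 1 / 2 - s + t) (ha : 0 ≤ 1 - h0 - t) (hl : 0 ≤ 2 * h0 - 9 / 5 + t)
    (s1 : 57 / 100 ≤ s) (s2 : s ≤ 1177 / 2000)
    (b1 : 15 / 40 ≤ b) (b2 : b ≤ 1 / 2) (t1 : 1294 / 10000 ≤ t) (t2 : t ≤ 1348 / 10000) :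
    4 * ph (s - t) - 2 * ph s - dl s ≤ (G1 + G2 + G3 + G4) / 2 := by
  rcases le_total b (875 / 2000) with h | h
  · exact oc29 R hT hy ha hl s1 s2 b1 h t1 t2
  · exact oc30 R hT hy ha hl s1 s2 h b2 t1 t2

theorem oc27 {s b t k G1 G2 G3 G4 : ℝ} (R : RegB s b t k G1 G2 G3 G4) (hT : t ≤ 284 / 1000 * s) (hy : 0 ≤ 1 / 2 - s + t) (ha : 0 ≤ 1 - h0 - t) (hl : 0 ≤ 2 * h0 - 9 / 5 + t)
    (s1 : 57 / 100 ≤ s) (s2 : s ≤ 607 / 1000)
    (b1 : 15 / 40 ≤ b) (b2 : b ≤ 1 / 2) (t1 : 1294 / 10000 ≤ t) (t2 : t ≤ 1348 / 10000) :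
    4 * ph (s - t) - 2 * ph s - dl s ≤ (G1 + G2 + G3 + G4) / 2 := by
  rcases le_total s (1177 / 2000) with h | h
  · exact oc28 R hT hy ha hl s1 h b1 b2 t1 t2
  · exact oc41 R hT hy ha hl h s2 b1 b2 t1 t2

theorem oc26 {s b t k G1 G2 G3 G4 : ℝ} (R : RegB s b t k G1 G2 G3 G4) (hT : t ≤ 284 / 1000 * s) (hy : 0 ≤ 1 / 2 - s + t) (ha : 0 ≤ 1 - h0 - t) (hl : 0 ≤ 2 * h0 - 9 / 5 + t)
    (s1 : 57 / 100 ≤ s) (s2 : s ≤ 607 / 1000)
    (b1 : 15 / 40 ≤ b) (b2 : b ≤ 1 / 2) (t1 : 1294 / 10000 ≤ t) (t2 : t ≤ 1402 / 10000) :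
    4 * ph (s - t) - 2 * ph s - dl s ≤ (G1 + G2 + G3 + G4) / 2 := by
  rcases le_total t (1348 / 10000) with h | h
  · exact oc27 R hT hy ha hl s1 s2 b1 b2 t1 h
  · exact oc42 R hT hy ha hl s1 s2 b1 b2 h t2

theorem oc25 {s b t k G1 G2 G3 G4 : ℝ} (R : RegB s b t k G1 G2 G3 G4) (hT : t ≤ 284 / 1000 * s) (hy : 0 ≤ 1 / 2 - s + t) (ha : 0 ≤ 1 - h0 - t) (hl : 0 ≤ 2 * h0 - 9 / 5 + t)
    (s1 : 57 / 100 ≤ s) (s2 : s ≤ 607 / 1000)
    (b1 : 15 / 40 ≤ b) (b2 : b ≤ 1 / 2) (t1 : 1294 / 10000 ≤ t) (t2 : t ≤ 1509 / 10000) :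
    4 * ph (s - t) - 2 * ph s - dl s ≤ (G1 + G2 + G3 + G4) / 2 := by
  rcases le_total t (1402 / 10000) with h | h
  · exact oc26 R hT hy ha hl s1 s2 b1 b2 t1 h
  · exact oc43 R hT hy ha hl s1 s2 b1 b2 h t2

theorem oc24 {s b t k G1 G2 G3 G4 : ℝ} (R : RegB s b t k G1 G2 G3 G4) (hT : t ≤ 284 / 1000 * s) (hy : 0 ≤ 1 / 2 - s + t) (ha : 0 ≤ 1 - h0 - t) (hl : 0 ≤ 2 * h0 - 9 / 5 + t)
    (s1 : 57 / 100 ≤ s) (s2 : s ≤ 607 / 1000)
    (b1 : 15 / 40 ≤ b) (b2 : b ≤ 1 / 2) (t1 : 1294 / 10000 ≤ t) (t2 : t ≤ 345 / 2000) :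
    4 * ph (s - t) - 2 * ph s - dl s ≤ (G1 + G2 + G3 + G4) / 2 := by
  rcases le_total t (1509 / 10000) with h | h
  · exact oc25 R hT hy ha hl s1 s2 b1 b2 t1 h
  · exact oc44 R hT hy ha hl s1 s2 b1 b2 h t2

theorem oc21 {s b t k G1 G2 G3 G4 : ℝ} (R : RegB s b t k G1 G2 G3 G4) (hT : t ≤ 284 / 1000 * s) (hy : 0 ≤ 1 / 2 - s + t) (ha : 0 ≤ 1 - h0 - t) (hl : 0 ≤ 2 * h0 - 9 / 5 + t)
    (s1 : 57 / 100 ≤ s) (s2 : s ≤ 607 / 1000)
    (b1 : 875 / 2000 ≤ b) (b2 : b ≤ 1 / 2) (t1 : 1078 / 10000 ≤ t) (t2 : t ≤ 1294 / 10000) :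
    4 * ph (s - t) - 2 * ph s - dl s ≤ (G1 + G2 + G3 + G4) / 2 := by
  rcases le_total s (1177 / 2000) with h | h
  · exact oc22 R hT hy ha hl s1 h b1 b2 t1 t2
  · exact oc23 R hT hy ha hl h s2 b1 b2 t1 t2

theorem oc19 {s b t k G1 G2 G3 G4 : ℝ} (R : RegB s b t k G1 G2 G3 G4) (hT : t ≤ 284 / 1000 * s) (hy : 0 ≤ 1 / 2 - s + t) (ha : 0 ≤ 1 - h0 - t) (hl : 0 ≤ 2 * h0 - 9 / 5 + t)
    (s1 : 57 / 100 ≤ s) (s2 : s ≤ 607 / 1000)
    (b1 : 875 / 2000 ≤ b) (b2 : b ≤ 1 / 2) (t1 : 862 / 10000 ≤ t) (t2 : t ≤ 1294 / 10000) :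
    4 * ph (s - t) - 2 * ph s - dl s ≤ (G1 + G2 + G3 + G4) / 2 := by
  rcases le_total t (1078 / 10000) with h | h
  · exact oc20 R hT hy ha hl s1 s2 b1 b2 t1 h
  · exact oc21 R hT hy ha hl s1 s2 b1 b2 h t2

theorem oc16 {s b t k G1 G2 G3 G4 : ℝ} (R : RegB s b t k G1 G2 G3 G4) (hT : t ≤ 284 / 1000 * s) (hy : 0 ≤ 1 / 2 - s + t) (ha : 0 ≤ 1 - h0 - t) (hl : 0 ≤ 2 * h0 - 9 / 5 + t)
    (s1 : 57 / 100 ≤ s) (s2 : s ≤ 607 / 1000)
    (b1 : 4063 / 10000 ≤ b) (b2 : b ≤ 875 / 2000) (t1 : 124 / 1000 ≤ t) (t2 : t ≤ 1294 / 10000) :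
    4 * ph (s - t) - 2 * ph s - dl s ≤ (G1 + G2 + G3 + G4) / 2 := by
  rcases le_total b (4219 / 10000) with h | h
  · exact oc17 R hT hy ha hl s1 s2 b1 h t1 t2
  · exact oc18 R hT hy ha hl s1 s2 h b2 t1 t2

theorem oc14 {s b t k G1 G2 G3 G4 : ℝ} (R : RegB s b t k G1 G2 G3 G4) (hT : t ≤ 284 / 1000 * s) (hy : 0 ≤ 1 / 2 - s + t) (ha : 0 ≤ 1 - h0 - t) (hl : 0 ≤ 2 * h0 - 9 / 5 + t)
    (s1 : 57 / 100 ≤ s) (s2 : s ≤ 607 / 1000)
    (b1 : 15 / 40 ≤ b) (b2 : b ≤ 875 / 2000) (t1 : 124 / 1000 ≤ t) (t2 : t ≤ 1294 / 10000) :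
    4 * ph (s - t) - 2 * ph s - dl s ≤ (G1 + G2 + G3 + G4) / 2 := by
  rcases le_total b (4063 / 10000) with h | h
  · exact oc15 R hT hy ha hl s1 s2 b1 h t1 t2
  · exact oc16 R hT hy ha hl s1 s2 h b2 t1 t2

theorem oc12 {s b t k G1 G2 G3 G4 : ℝ} (R : RegB s b t k G1 G2 G3 G4) (hT : t ≤ 284 / 1000 * s) (hy : 0 ≤ 1 / 2 - s + t) (ha : 0 ≤ 1 - h0 - t) (hl : 0 ≤ 2 * h0 - 9 / 5 + t)
    (s1 : 57 / 100 ≤ s) (s2 : s ≤ 607 / 1000)
    (b1 : 15 / 40 ≤ b) (b2 : b ≤ 875 / 2000) (t1 : 1186 / 10000 ≤ t) (t2 : t ≤ 1294 / 10000) :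
    4 * ph (s - t) - 2 * ph s - dl s ≤ (G1 + G2 + G3 + G4) / 2 := by
  rcases le_total t (124 / 1000) with h | h
  · exact oc13 R hT hy ha hl s1 s2 b1 b2 t1 h
  · exact oc14 R hT hy ha hl s1 s2 b1 b2 h t2

theorem oc10 {s b t k G1 G2 G3 G4 : ℝ} (R : RegB s b t k G1 G2 G3 G4) (hT : t ≤ 284 / 1000 * s) (hy : 0 ≤ 1 / 2 - s + t) (ha : 0 ≤ 1 - h0 - t) (hl : 0 ≤ 2 * h0 - 9 / 5 + t)
    (s1 : 57 / 100 ≤ s) (s2 : s ≤ 607 / 1000)
    (b1 : 15 / 40 ≤ b) (b2 : b ≤ 875 / 2000) (t1 : 1078 / 10000 ≤ t) (t2 : t ≤ 1294 / 10000) :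
    4 * ph (s - t) - 2 * ph s - dl s ≤ (G1 + G2 + G3 + G4) / 2 := by
  rcases le_total t (1186 / 10000) with h | h
  · exact oc11 R hT hy ha hl s1 s2 b1 b2 t1 h
  · exact oc12 R hT hy ha hl s1 s2 b1 b2 h t2

theorem oc8 {s b t k G1 G2 G3 G4 : ℝ} (R : RegB s b t k G1 G2 G3 G4) (hT : t ≤ 284 / 1000 * s) (hy : 0 ≤ 1 / 2 - s + t) (ha : 0 ≤ 1 - h0 - t) (hl : 0 ≤ 2 * h0 - 9 / 5 + t)
    (s1 : 57 / 100 ≤ s) (s2 : s ≤ 607 / 1000)
    (b1 : 15 / 40 ≤ b) (b2 : b ≤ 875 / 2000) (t1 : 862 / 10000 ≤ t) (t2 : t ≤ 1294 / 10000) :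
    4 * ph (s - t) - 2 * ph s - dl s ≤ (G1 + G2 + G3 + G4) / 2 := by
  rcases le_total t (1078 / 10000) with h | h
  · exact oc9 R hT hy ha hl s1 s2 b1 b2 t1 h
  · exact oc10 R hT hy ha hl s1 s2 b1 b2 h t2

theorem oc7 {s b t k G1 G2 G3 G4 : ℝ} (R : RegB s b t k G1 G2 G3 G4) (hT : t ≤ 284 / 1000 * s) (hy : 0 ≤ 1 / 2 - s + t) (ha : 0 ≤ 1 - h0 - t) (hl : 0 ≤ 2 * h0 - 9 / 5 + t)
    (s1 : 57 / 100 ≤ s) (s2 : s ≤ 607 / 1000)
    (b1 : 15 / 40 ≤ b) (b2 : b ≤ 1 / 2) (t1 : 862 / 10000 ≤ t) (t2 : t ≤ 1294 / 10000) :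
    4 * ph (s - t) - 2 * ph s - dl s ≤ (G1 + G2 + G3 + G4) / 2 := by
  rcases le_total b (875 / 2000) with h | h
  · exact oc8 R hT hy ha hl s1 s2 b1 h t1 t2
  · exact oc19 R hT hy ha hl s1 s2 h b2 t1 t2

theorem oc6 {s b t k G1 G2 G3 G4 : ℝ} (R : RegB s b t k G1 G2 G3 G4) (hT : t ≤ 284 / 1000 * s) (hy : 0 ≤ 1 / 2 - s + t) (ha : 0 ≤ 1 - h0 - t) (hl : 0 ≤ 2 * h0 - 9 / 5 + t)
    (s1 : 57 / 100 ≤ s) (s2 : s ≤ 607 / 1000)
    (b1 : 15 / 40 ≤ b) (b2 : b ≤ 1 / 2) (t1 : 862 / 10000 ≤ t) (t2 : t ≤ 345 / 2000) :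
    4 * ph (s - t) - 2 * ph s - dl s ≤ (G1 + G2 + G3 + G4) / 2 := by
  rcases le_total t (1294 / 10000) with h | h
  · exact oc7 R hT hy ha hl s1 s2 b1 b2 t1 h
  · exact oc24 R hT hy ha hl s1 s2 b1 b2 h t2

theorem oc3 {s b t k G1 G2 G3 G4 : ℝ} (R : RegB s b t k G1 G2 G3 G4) (hT : t ≤ 284 / 1000 * s) (hy : 0 ≤ 1 / 2 - s + t) (ha : 0 ≤ 1 - h0 - t) (hl : 0 ≤ 2 * h0 - 9 / 5 + t)
    (s1 : 57 / 100 ≤ s) (s2 : s ≤ 607 / 1000)
    (b1 : 15 / 40 ≤ b) (b2 : b ≤ 1 / 2) (t1 : 431 / 10000 ≤ t) (t2 : t ≤ 862 / 10000) :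
    4 * ph (s - t) - 2 * ph s - dl s ≤ (G1 + G2 + G3 + G4) / 2 := by
  rcases le_total s (1177 / 2000) with h | h
  · exact oc4 R hT hy ha hl s1 h b1 b2 t1 t2
  · exact oc5 R hT hy ha hl h s2 b1 b2 t1 t2

theorem oc1 {s b t k G1 G2 G3 G4 : ℝ} (R : RegB s b t k G1 G2 G3 G4) (hT : t ≤ 284 / 1000 * s) (hy : 0 ≤ 1 / 2 - s + t) (ha : 0 ≤ 1 - h0 - t) (hl : 0 ≤ 2 * h0 - 9 / 5 + t)
    (s1 : 57 / 100 ≤ s) (s2 : s ≤ 607 / 1000)
    (b1 : 15 / 40 ≤ b) (b2 : b ≤ 1 / 2) (t1 : 0 ≤ t) (t2 : t ≤ 862 / 10000) :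
    4 * ph (s - t) - 2 * ph s - dl s ≤ (G1 + G2 + G3 + G4) / 2 := by
  rcases le_total t (431 / 10000) with h | h
  · exact oc2 R hT hy ha hl s1 s2 b1 b2 t1 h
  · exact oc3 R hT hy ha hl s1 s2 b1 b2 h t2

theorem oc0 {s b t k G1 G2 G3 G4 : ℝ} (R : RegB s b t k G1 G2 G3 G4) (hT : t ≤ 284 / 1000 * s) (hy : 0 ≤ 1 / 2 - s + t) (ha : 0 ≤ 1 - h0 - t) (hl : 0 ≤ 2 * h0 - 9 / 5 + t)
    (s1 : 57 / 100 ≤ s) (s2 : s ≤ 607 / 1000)
    (b1 : 15 / 40 ≤ b) (b2 : b ≤ 1 / 2) (t1 : 0 ≤ t) (t2 : t ≤ 345 / 2000) :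
    4 * ph (s - t) - 2 * ph s - dl s ≤ (G1 + G2 + G3 + G4) / 2 := by
  rcases le_total t (862 / 10000) with h | h
  · exact oc1 R hT hy ha hl s1 s2 b1 b2 t1 h
  · exact oc6 R hT hy ha hl s1 s2 b1 b2 h t2

end Pool.Agent.Strip051.FourG.LA
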