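import Pool.Agent.Strip051.FourG.Box

set_option linter.unusedVariables false

/-! # Boxes, higher upper disc -/

namespace Pool.Agent.Strip051.FourG.LA

open Pool.Agent.StripNear Pool.Agent.StripSquare Pool.Agent.Strip051
open Pool.Agent.Strip051.Four.Low (ph)
open Pool.Agent.Strip051.FourC.LA (lo up)

theorem ha2 {s b t k G1 G2 G3 G4 : ℝ} (R : RegH s b t k G1 G2 G3 G4) (hT : t ≤ 284 / 1000 * s) (hy : 0 ≤ 1 / 2 - s + t) (hb : 0 ≤ t - s - 3 / 200 + b)
    (s1 : 57 / 100 ≤ s) (s2 : s ≤ 607 / 1000)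
    (b1 : 15 / 40 ≤ b) (b2 : b ≤ 1 / 2) (t1 : 0 ≤ t) (t2 : t ≤ 431 / 10000) :
    4 * ph (s - t) - 2 * ph s + dl s ≤ (G1 + G2 + G3 + G4) / 2 := by
  exfalso
  exact absurd hy (not_le.mpr (by linear_combination s1 + t2))

theorem ha4 {s b t k G1 G2 G3 G4 : ℝ} (R : RegH s b t k G1 G2 G3 G4) (hT : t ≤ 284 / 1000 * s) (hy : 0 ≤ 1 / 2 - s + t) (hb : 0 ≤ t - s - 3 / 200 + b)
    (s1 : 57 / 100 ≤ s) (s2 : s ≤ 607 / 1000)
    (b1 : 15 / 40 ≤ b) (b2 : b ≤ 875 / 2000) (t1 : 431 / 10000 ≤ t) (t2 : t ≤ 862 / 10000) :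
    4 * ph (s - t) - 2 * ph s + dl s ≤ (G1 + G2 + G3 + G4) / 2 := by
  exfalso
  exact absurd b2 (not_le.mpr (by linear_combination s1 + t2 + hb))

theorem ha6 {s b t k G1 G2 G3 G4 : ℝ} (R : RegH s b t k G1 G2 G3 G4) (hT : t ≤ 284 / 1000 * s) (hy : 0 ≤ 1 / 2 - s + t) (hb : 0 ≤ t - s - 3 / 200 + b)
    (s1 : 57 / 100 ≤ s) (s2 : s ≤ 607 / 1000)
    (b1 : 875 / 2000 ≤ b) (b2 : b ≤ 1 / 2) (t1 : 431 / 10000 ≤ t) (t2 : t ≤ 647 / 10000) :
    4 * ph (s - t) - 2 * ph s + dl s ≤ (G1 + G2 + G3 + G4) / 2 := by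
  exfalso
  exact absurd hy (not_le.mpr (by linear_combination s1 + t2))

theorem ha8 {s b t k G1 G2 G3 G4 : ℝ} (R : RegH s b t k G1 G2 G3 G4) (hT : t ≤ 284 / 1000 * s) (hy : 0 ≤ 1 / 2 - s + t) (hb : 0 ≤ t - s - 3 / 200 + b)
    (s1 : 57 / 100 ≤ s) (s2 : s ≤ 607 / 1000)
    (b1 : 875 / 2000 ≤ b) (b2 : b ≤ 4688 / 10000) (t1 : 647 / 10000 ≤ t) (t2 : t ≤ 862 / 10000) :
    4 * ph (s - t) - 2 * ph s + dl s ≤ (G1 + G2 + G3 + G4) / 2 := by
  exfalso
  exact absurd b2 (not_le.mpr (by linear_combination s1 + t2 + hb))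

theorem ha9 {s b t k G1 G2 G3 G4 : ℝ} (R : RegH s b t k G1 G2 G3 G4) (hT : t ≤ 284 / 1000 * s) (hy : 0 ≤ 1 / 2 - s + t) (hb : 0 ≤ t - s - 3 / 200 + b)
    (s1 : 57 / 100 ≤ s) (s2 : s ≤ 607 / 1000)
    (b1 : 4688 / 10000 ≤ b) (b2 : b ≤ 1 / 2) (t1 : 647 / 10000 ≤ t) (t2 : t ≤ 862 / 10000) :
    4 * ph (s - t) - 2 * ph s + dl s ≤ (G1 + G2 + G3 + G4) / 2 := by
  have e1 := up (t1 := (67 / 1000)) (t2 := (68 / 1000)) (x := 1 - h0) (by norm_num)
    (by linear_combination (1004489 / 1000000) * R.h2) (by linear_combination (62789 / 62500) * R.h1)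
  have e2 := up (t1 := (229 / 1000)) (t2 := (252 / 1000)) (x := h0 + s - 1) (by norm_num)
    (by linear_combination (1052441 / 1000000) * s1 + (1052441 / 1000000) * R.h1) (by linear_combination (66469 / 62500) * s2 + (66469 / 62500) * R.h2)
  have e3 := lo (t := (367 / 1000)) (x := s - t + b / 2 - k) (by norm_num)
    (by linear_combination s1 + (1 / 2) * b1 + t2 + R.k4) (by linear_combination s2 + (1 / 2) * b2 + t1 + R.k3)
  have e4 := up (t1 := (258 / 1000)) (t2 := (295 / 1000)) (x := s - t) (by norm_num)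
    (by linear_combination (266641 / 250000) * s1 + (266641 / 250000) * t2) (by linear_combination (43481 / 40000) * s2 + (43481 / 40000) * t1)
  have e5 := up (t1 := (681 / 1000)) (t2 := (730 / 1000)) (x := h0 + t) (by norm_num)
    (by linear_combination (1463761 / 1000000) * t1 + (1463761 / 1000000) * R.h1) (by linear_combination (15329 / 10000) * t2 + (15329 / 10000) * R.h2)
  have e6 := up (t1 := (267 / 1000)) (t2 := (305 / 1000)) (x := s + 3 / 200 - t) (by norm_num)
    (by linear_combination (1071289 / 1000000) * s1 + (1071289 / 1000000) * t2) (by linear_combination (43721 / 40000) * s2 + (43721 / 40000) * t1)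
  have e7 := lo (t := (8 / 1000)) (x := 203 / 200 - h0 - b / 2 + k) (by norm_num)
    (by linear_combination (1 / 2) * b2 + R.k3 + R.h2) (by linear_combination (1 / 2) * b1 + R.k4 + R.h1)
  have e8 := lo (t := (173 / 1000)) (x := h0 + s - 197 / 200 - b / 2 + k) (by norm_num)
    (by linear_combination s1 + (1 / 2) * b2 + R.k3 + R.h1) (by linear_combination s2 + (1 / 2) * b1 + R.k4 + R.h2)
  have e9 := lo (t := (250 / 1000)) (x := s + 3 / 200 - b / 2 + k) (by norm_num)
    (by linear_combination s1 + (1 / 2) * b2 + R.k3) (by linear_combination s2 + (1 / 2) * b1 + R.k4)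
  have e10 := lo (t := (325 / 1000)) (x := s) (by norm_num)
    (by linear_combination s1) (by linear_combination s2)
  have e11 := up (t1 := (248 / 1000)) (t2 := (268 / 1000)) (x := b) (by norm_num)
    (by linear_combination (16586 / 15625) * b1) (by linear_combination (66989 / 62500) * b2)
  have c1 := R.ph1
  have c2 := R.qh1
  have c3 := R.rh1
  have c4 := R.syv (by linear_combination (125 / 129) * e11 + (497413 / 129) * R.k1 + (497542 / 129) * R.k2 + t2)
  unfold dl
  linear_combination (164910273561107277493 / 340092101780074292544) * e11 + (3200 / 1431) * e10 + (8 / 15) * e9 + (500000 / 970071) * e8 + (15625 / 15624) * e7 + (400000 / 183713) * e6 + (50000 / 50287) * e5 + (400000 / 92389) * e4 + (500000 / 288437) * e3 + (125000 / 235573) * e2 + (250000 / 248861) * e1 + (2955862910977631 / 3643052884731540) * R.k2 + (174038844189754276015585927093 / 410501914132760632396728891630) * s2 + (178696251569088661507937 / 303653662303637761200000)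 * b1 + (237404804789734089250 / 246187984530725556583) * t1 + (779199867351714641742575 / 572847775930331306609148) * R.h2 + (1 / 2) * R.h3 + (1 / 2) * c1 + (1 / 2) * c2 + (1 / 2) * c3 + (1 / 2) * c4

theorem ha12 {s b t k G1 G2 G3 G4 : ℝ} (R : RegH s b t k G1 G2 G3 G4) (hT : t ≤ 284 / 1000 * s) (hy : 0 ≤ 1 / 2 - s + t) (hb : 0 ≤ t - s - 3 / 200 + b)
    (s1 : 57 / 100 ≤ s) (s2 : s ≤ 607 / 1000)
    (b1 : 15 / 40 ≤ b) (b2 : b ≤ 875 / 2000) (t1 : 862 / 10000 ≤ t) (t2 : t ≤ 1294 / 10000) :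
    4 * ph (s - t) - 2 * ph s + dl s ≤ (G1 + G2 + G3 + G4) / 2 := by
  exfalso
  exact absurd b2 (not_le.mpr (by linear_combination s1 + t2 + hb))

theorem ha15 {s b t k G1 G2 G3 G4 : ℝ} (R : RegH s b t k G1 G2 G3 G4) (hT : t ≤ 284 / 1000 * s) (hy : 0 ≤ 1 / 2 - s + t) (hb : 0 ≤ t - s - 3 / 200 + b)
    (s1 : 57 / 100 ≤ s) (s2 : s ≤ 607 / 1000)
    (b1 : 875 / 2000 ≤ b) (b2 : b ≤ 4532 / 10000) (t1 : 862 / 10000 ≤ t) (t2 : t ≤ 1294 / 10000) :
    4 * ph (s - t) - 2 * ph s + dl s ≤ (G1 + G2 + G3 + G4) / 2 := by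
  exfalso
  exact absurd b2 (not_le.mpr (by linear_combination s1 + t2 + hb))

theorem ha16 {s b t k G1 G2 G3 G4 : ℝ} (R : RegH s b t k G1 G2 G3 G4) (hT : t ≤ 284 / 1000 * s) (hy : 0 ≤ 1 / 2 - s + t) (hb : 0 ≤ t - s - 3 / 200 + b)
    (s1 : 57 / 100 ≤ s) (s2 : s ≤ 607 / 1000)
    (b1 : 4532 / 10000 ≤ b) (b2 : b ≤ 4688 / 10000) (t1 : 862 / 10000 ≤ t) (t2 : t ≤ 1294 / 10000) :
    4 * ph (s - t) - 2 * ph s + dl s ≤ (G1 + G2 + G3 + G4) / 2 := by
  have e1 := up (t1 := (67 / 1000)) (t2 := (68 / 1000)) (x := 1 - h0) (by norm_num)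
    (by linear_combination (1004489 / 1000000) * R.h2) (by linear_combination (62789 / 62500) * R.h1)
  have e2 := up (t1 := (229 / 1000)) (t2 := (252 / 1000)) (x := h0 + s - 1) (by norm_num)
    (by linear_combination (1052441 / 1000000) * s1 + (1052441 / 1000000) * R.h1) (by linear_combination (66469 / 62500) * s2 + (66469 / 62500) * R.h2)
  have e3 := lo (t := (343 / 1000)) (x := s - t + b / 2 - k) (by norm_num)
    (by linear_combination s1 + (1 / 2) * b1 + t2 + R.k4) (by linear_combination s2 + (1 / 2) * b2 + t1 + R.k3)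
  have e4 := up (t1 := (232 / 1000)) (t2 := (281 / 1000)) (x := s - t) (by norm_num)
    (by linear_combination (16466 / 15625) * s1 + (16466 / 15625) * t2) (by linear_combination (1078961 / 1000000) * s2 + (1078961 / 1000000) * t1)
  have e5 := up (t1 := (729 / 1000)) (t2 := (909 / 1000)) (x := h0 + t) (by norm_num)
    (by linear_combination (1531441 / 1000000) * t1 + (1531441 / 1000000) * R.h1) (by linear_combination (1826281 / 1000000) * t2 + (1826281 / 1000000) * R.h2)
  have e6 := up (t1 := (241 / 1000)) (t2 := (291 / 1000)) (x := s + 3 / 200 - t) (by norm_num)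
    (by linear_combination (1058081 / 1000000) * s1 + (1058081 / 1000000) * t2) (by linear_combination (1084681 / 1000000) * s2 + (1084681 / 1000000) * t1)
  have e7 := lo (t := (8 / 1000)) (x := 203 / 200 - h0 - b / 2 + k) (by norm_num)
    (by linear_combination (1 / 2) * b2 + R.k3 + R.h2) (by linear_combination (1 / 2) * b1 + R.k4 + R.h1)
  have e8 := lo (t := (173 / 1000)) (x := h0 + s - 197 / 200 - b / 2 + k) (by norm_num)
    (by linear_combination s1 + (1 / 2) * b2 + R.k3 + R.h1) (by linear_combination s2 + (1 / 2) * b1 + R.k4 + R.h2)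
  have e9 := lo (t := (250 / 1000)) (x := s + 3 / 200 - b / 2 + k) (by norm_num)
    (by linear_combination s1 + (1 / 2) * b2 + R.k3) (by linear_combination s2 + (1 / 2) * b1 + R.k4)
  have e10 := lo (t := (325 / 1000)) (x := s) (by norm_num)
    (by linear_combination s1) (by linear_combination s2)
  have e11 := up (t1 := (239 / 1000)) (t2 := (249 / 1000)) (x := b) (by norm_num)
    (by linear_combination (1057121 / 1000000) * b1) (by linear_combination (1062001 / 1000000) * b2)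
  have c1 := R.ph1
  have c2 := R.qh1
  have c3 := R.rh1
  have c4 := R.syv (by linear_combination (78730 / 85499) * e11 + R.k2 + (216463 / 4274950) * b1 + t2)
  unfold dl
  linear_combination (2627466737108073863 / 6850435438490643846) * e11 + (3200 / 1431) * e10 + (8 / 15) * e9 + (500000 / 970071) * e8 + (15625 / 15624) * e7 + (2000000 / 929869) * e6 + (500000 / 337339) * e5 + (500000 / 116851) * e4 + (500000 / 294117) * e3 + (125000 / 235573) * e2 + (250000 / 248861) * e1 + (51365931438421 / 72839080930140) * R.k2 + (12076477426313731721350518421 / 52542195413681967945524242110) * s2 + (204977897807077502003123 / 342521771924532192300000) * b1 + (2745558222638376062500 / 10780549139927049776097) * t2 + (9165507434482613550219875 / 3842820130144212870925356) * R.h2 + (1 / 2) * R.h3 + (1 / 2) * c1 + (1 / 2) * c2 + (1 / 2) * c3 + (1 / 2) * c4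

theorem ha17 {s b t k G1 G2 G3 G4 : ℝ} (R : RegH s b t k G1 G2 G3 G4) (hT : t ≤ 284 / 1000 * s) (hy : 0 ≤ 1 / 2 - s + t) (hb : 0 ≤ t - s - 3 / 200 + b)
    (s1 : 57 / 100 ≤ s) (s2 : s ≤ 607 / 1000)
    (b1 : 4688 / 10000 ≤ b) (b2 : b ≤ 1 / 2) (t1 : 862 / 10000 ≤ t) (t2 : t ≤ 1294 / 10000) :
    4 * ph (s - t) - 2 * ph s + dl s ≤ (G1 + G2 + G3 + G4) / 2 := by
  have e1 := up (t1 := (67 / 1000)) (t2 := (68 / 1000)) (x := 1 - h0) (by norm_num)
    (by linear_combination (1004489 / 1000000) * R.h2) (by linear_combination (62789 / 62500) * R.h1)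
  have e2 := up (t1 := (229 / 1000)) (t2 := (252 / 1000)) (x := h0 + s - 1) (by norm_num)
    (by linear_combination (1052441 / 1000000) * s1 + (1052441 / 1000000) * R.h1) (by linear_combination (66469 / 62500) * s2 + (66469 / 62500) * R.h2)
  have e3 := lo (t := (343 / 1000)) (x := s - t + b / 2 - k) (by norm_num)
    (by linear_combination s1 + (1 / 2) * b1 + t2 + R.k4) (by linear_combination s2 + (1 / 2) * b2 + t1 + R.k3)
  have e4 := up (t1 := (232 / 1000)) (t2 := (281 / 1000)) (x := s - t) (by norm_num)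
    (by linear_combination (16466 / 15625) * s1 + (16466 / 15625) * t2) (by linear_combination (1078961 / 1000000) * s2 + (1078961 / 1000000) * t1)
  have e5 := up (t1 := (729 / 1000)) (t2 := (909 / 1000)) (x := h0 + t) (by norm_num)
    (by linear_combination (1531441 / 1000000) * t1 + (1531441 / 1000000) * R.h1) (by linear_combination (1826281 / 1000000) * t2 + (1826281 / 1000000) * R.h2)
  have e6 := up (t1 := (241 / 1000)) (t2 := (291 / 1000)) (x := s + 3 / 200 - t) (by norm_num)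
    (by linear_combination (1058081 / 1000000) * s1 + (1058081 / 1000000) * t2) (by linear_combination (1084681 / 1000000) * s2 + (1084681 / 1000000) * t1)
  have e7 := lo (t := (8 / 1000)) (x := 203 / 200 - h0 - b / 2 + k) (by norm_num)
    (by linear_combination (1 / 2) * b2 + R.k3 + R.h2) (by linear_combination (1 / 2) * b1 + R.k4 + R.h1)
  have e8 := lo (t := (173 / 1000)) (x := h0 + s - 197 / 200 - b / 2 + k) (by norm_num)
    (by linear_combination s1 + (1 / 2) * b2 + R.k3 + R.h1) (by linear_combination s2 + (1 / 2) * b1 + R.k4 + R.h2)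
  have e9 := lo (t := (250 / 1000)) (x := s + 3 / 200 - b / 2 + k) (by norm_num)
    (by linear_combination s1 + (1 / 2) * b2 + R.k3) (by linear_combination s2 + (1 / 2) * b1 + R.k4)
  have e10 := lo (t := (325 / 1000)) (x := s) (by norm_num)
    (by linear_combination s1) (by linear_combination s2)
  have e11 := up (t1 := (248 / 1000)) (t2 := (268 / 1000)) (x := b) (by norm_num)
    (by linear_combination (16586 / 15625) * b1) (by linear_combination (66989 / 62500) * b2)
  have c1 := R.ph1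
  have c2 := R.qh1
  have c3 := R.rh1
  have c4 := R.syv (by linear_combination (433015 / 466768) * e11 + R.k2 + (497413 / 23338400) * b1 + t2)
  unfold dl
  linear_combination (2627466737108073863 / 6799790425519917504) * e11 + (3200 / 1431) * e10 + (8 / 15) * e9 + (500000 / 970071) * e8 + (15625 / 15624) * e7 + (2000000 / 929869) * e6 + (500000 / 337339) * e5 + (500000 / 116851) * e4 + (500000 / 294117) * e3 + (125000 / 235573) * e2 + (250000 / 248861) * e1 + (51365931438421 / 72839080930140) * R.k2 + (12076477426313731721350518421 / 52542195413681967945524242110) * s2 + (3559108682474555980267 / 6071241451357069200000) * b1 + (2745558222638376062500 / 10780549139927049776097) * t2 + (9165507434482613550219875 / 3842820130144212870925356) * R.h2 + (1 / 2) * R.h3 + (1 / 2) * c1 + (1 / 2) * c2 + (1 / 2) * c3 + (1 / 2) * c4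

theorem ha21 {s b t k G1 G2 G3 G4 : ℝ} (R : RegH s b t k G1 G2 G3 G4) (hT : t ≤ 284 / 1000 * s) (hy : 0 ≤ 1 / 2 - s + t) (hb : 0 ≤ t - s - 3 / 200 + b)
    (s1 : 57 / 100 ≤ s) (s2 : s ≤ 607 / 1000)
    (b1 : 15 / 40 ≤ b) (b2 : b ≤ 875 / 2000) (t1 : 1294 / 10000 ≤ t) (t2 : t ≤ 1402 / 10000) :
    4 * ph (s - t) - 2 * ph s + dl s ≤ (G1 + G2 + G3 + G4) / 2 := by
  exfalso
  exact absurd b2 (not_le.mpr (by linear_combination s1 + t2 + hb))

theorem ha27 {s b t k G1 G2 G3 G4 : ℝ} (R : RegH s b t k G1 G2 G3 G4) (hT : t ≤ 284 / 1000 * s) (hy : 0 ≤ 1 / 2 - s + t) (hb : 0 ≤ t - s - 3 / 200 + b)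
    (s1 : 57 / 100 ≤ s) (s2 : s ≤ 1177 / 2000)
    (b1 : 875 / 2000 ≤ b) (b2 : b ≤ 4688 / 10000) (t1 : 1294 / 10000 ≤ t) (t2 : t ≤ 1307 / 10000) :
    4 * ph (s - t) - 2 * ph s + dl s ≤ (G1 + G2 + G3 + G4) / 2 := by
  have e1 := up (t1 := (67 / 1000)) (t2 := (68 / 1000)) (x := 1 - h0) (by norm_num)
    (by linear_combination (1004489 / 1000000) * R.h2) (by linear_combination (62789 / 62500) * R.h1)
  have e2 := up (t1 := (229 / 1000)) (t2 := (241 / 1000)) (x := h0 + s - 1) (by norm_num)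
    (by linear_combination (1052441 / 1000000) * s1 + (1052441 / 1000000) * R.h1) (by linear_combination (1058081 / 1000000) * s2 + (1058081 / 1000000) * R.h2)
  have e3 := lo (t := (321 / 1000)) (x := s - t + b / 2 - k) (by norm_num)
    (by linear_combination s1 + (1 / 2) * b1 + t2 + R.k4) (by linear_combination s2 + (1 / 2) * b2 + t1 + R.k3)
  have e4 := up (t1 := (231 / 1000)) (t2 := (244 / 1000)) (x := s - t) (by norm_num)
    (by linear_combination (1053361 / 1000000) * s1 + (1053361 / 1000000) * t2) (by linear_combination (66221 / 62500) * s2 + (66221 / 62500) * t1)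
  have e5 := up (t1 := (908 / 1000)) (t2 := (923 / 1000)) (x := h0 + t) (by norm_num)
    (by linear_combination (114029 / 62500) * t1 + (114029 / 62500) * R.h1) (by linear_combination (1851929 / 1000000) * t2 + (1851929 / 1000000) * R.h2)
  have e6 := up (t1 := (240 / 1000)) (t2 := (253 / 1000)) (x := s + 3 / 200 - t) (by norm_num)
    (by linear_combination (661 / 625) * s1 + (661 / 625) * t2) (by linear_combination (1064009 / 1000000) * s2 + (1064009 / 1000000) * t1)
  have e7 := lo (t := (8 / 1000)) (x := 203 / 200 - h0 - b / 2 + k) (by norm_num)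
    (by linear_combination (1 / 2) * b2 + R.k3 + R.h2) (by linear_combination (1 / 2) * b1 + R.k4 + R.h1)
  have e8 := lo (t := (169 / 1000)) (x := h0 + s - 197 / 200 - b / 2 + k) (by norm_num)
    (by linear_combination s1 + (1 / 2) * b2 + R.k3 + R.h1) (by linear_combination s2 + (1 / 2) * b1 + R.k4 + R.h2)
  have e9 := lo (t := (245 / 1000)) (x := s + 3 / 200 - b / 2 + k) (by norm_num)
    (by linear_combination s1 + (1 / 2) * b2 + R.k3) (by linear_combination s2 + (1 / 2) * b1 + R.k4)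
  have e10 := lo (t := (319 / 1000)) (x := s) (by norm_num)
    (by linear_combination s1) (by linear_combination s2)
  have e11 := up (t1 := (230 / 1000)) (t2 := (249 / 1000)) (x := b) (by norm_num)
    (by linear_combination (10529 / 10000) * b1) (by linear_combination (1062001 / 1000000) * b2)
  have c1 := R.ph1
  have c2 := R.qh1
  have c3 := R.rh1
  have c4 := R.syv (by linear_combination (86603 / 94273) * e11 + R.k2 + (5653663 / 94273000) * b1 + t2)
  unfold dl
  linear_combination (2400546488866973096225 / 7815870481642467525252) * e11 + (2000000 / 898239) * e10 + (20000 / 37599) * e9 + (500000 / 971439) * e8 + (15625 / 15624) * e7 + (25000 / 11741) * e6 + (125000 / 40479) * e5 + (1000000 / 235909) * e4 + (1500000 / 896959) * e3 + (500000 / 944811) * e2 + (250000 / 248861) * e1 + (51651973784167075 / 82906775870529924) * R.k2 + (48404676370234824793469142404425511 / 582091185840741719319613508219669130) * s2 + (58364769642076451009438669 /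 97698381020530844065650000) * b1 + (368531367781722876700 / 100566182524575239409) * t2 + (102079256645329602908375 / 18198191406638431653948) * R.h2 + (1 / 2) * R.h3 + (1 / 2) * c1 + (1 / 2) * c2 + (1 / 2) * c3 + (1 / 2) * c4

theorem ha30 {s b t k G1 G2 G3 G4 : ℝ} (R : RegH s b t k G1 G2 G3 G4) (hT : t ≤ 284 / 1000 * s) (hy : 0 ≤ 1 / 2 - s + t) (hb : 0 ≤ t - s - 3 / 200 + b)
    (s1 : 57 / 100 ≤ s) (s2 : s ≤ 1177 / 2000)
    (b1 : 875 / 2000 ≤ b) (b2 : b ≤ 4532 / 10000) (t1 : 1307 / 10000 ≤ t) (t2 : t ≤ 1314 / 10000) :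
    4 * ph (s - t) - 2 * ph s + dl s ≤ (G1 + G2 + G3 + G4) / 2 := by
  exfalso
  exact absurd b2 (not_le.mpr (by linear_combination s1 + t2 + hb))

theorem ha31 {s b t k G1 G2 G3 G4 : ℝ} (R : RegH s b t k G1 G2 G3 G4) (hT : t ≤ 284 / 1000 * s) (hy : 0 ≤ 1 / 2 - s + t) (hb : 0 ≤ t - s - 3 / 200 + b)
    (s1 : 57 / 100 ≤ s) (s2 : s ≤ 1177 / 2000)
    (b1 : 875 / 2000 ≤ b) (b2 : b ≤ 4532 / 10000) (t1 : 1314 / 10000 ≤ t) (t2 : t ≤ 1321 / 10000) :
    4 * ph (s - t) - 2 * ph s + dl s ≤ (G1 + G2 + G3 + G4) / 2 := by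
  have e1 := up (t1 := (67 / 1000)) (t2 := (68 / 1000)) (x := 1 - h0) (by norm_num)
    (by linear_combination (1004489 / 1000000) * R.h2) (by linear_combination (62789 / 62500) * R.h1)
  have e2 := up (t1 := (229 / 1000)) (t2 := (241 / 1000)) (x := h0 + s - 1) (by norm_num)
    (by linear_combination (1052441 / 1000000) * s1 + (1052441 / 1000000) * R.h1) (by linear_combination (1058081 / 1000000) * s2 + (1058081 / 1000000) * R.h2)
  have e3 := lo (t := (319 / 1000)) (x := s - t + b / 2 - k) (by norm_num)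
    (by linear_combination s1 + (1 / 2) * b1 + t2 + R.k4) (by linear_combination s2 + (1 / 2) * b2 + t1 + R.k3)
  have e4 := up (t1 := (230 / 1000)) (t2 := (242 / 1000)) (x := s - t) (by norm_num)
    (by linear_combination (10529 / 10000) * s1 + (10529 / 10000) * t2) (by linear_combination (264641 / 250000) * s2 + (264641 / 250000) * t1)
  have e5 := up (t1 := (239 / 1000)) (t2 := (251 / 1000)) (x := s + 3 / 200 - t) (by norm_num)
    (by linear_combination (1057121 / 1000000) * s1 + (1057121 / 1000000) * t2) (by linear_combination (1063001 / 1000000) * s2 + (1063001 / 1000000) * t1)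
  have e6 := lo (t := (8 / 1000)) (x := 203 / 200 - h0 - b / 2 + k) (by norm_num)
    (by linear_combination (1 / 2) * b2 + R.k3 + R.h2) (by linear_combination (1 / 2) * b1 + R.k4 + R.h1)
  have e7 := lo (t := (169 / 1000)) (x := h0 + s - 197 / 200 - b / 2 + k) (by norm_num)
    (by linear_combination s1 + (1 / 2) * b2 + R.k3 + R.h1) (by linear_combination s2 + (1 / 2) * b1 + R.k4 + R.h2)
  have e8 := lo (t := (319 / 1000)) (x := s) (by norm_num)
    (by linear_combination s1) (by linear_combination s2)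
  have e9 := up (t1 := (230 / 1000)) (t2 := (240 / 1000)) (x := b) (by norm_num)
    (by linear_combination (10529 / 10000) * b1) (by linear_combination (661 / 625) * b2)
  have c1 := R.ph1
  have c2 := R.qh1
  have c3 := R.rh1
  unfold dl
  linear_combination (1640674929948318275 / 2044555988420078784) * e9 + (2000000 / 898239) * e8 + (500000 / 971439) * e7 + (15625 / 15624) * e6 + (500000 / 313337) * e5 + (200000 / 47217) * e4 + (500000 / 299413) * e3 + (500000 / 944811) * e2 + (250000 / 248861) * e1 + (94723908522125 / 108200465094204) * R.k2 + (45154791621745684940097427 / 645357929025736958707781910) * s2 + (495337082565309643 / 8178223953680315136) * b1 + (7600448178480400 / 4429765371653277) * t1 + (60501369603910625 / 1348713511201247436) * R.h1 + (1 / 2) * c1 + (1 / 2) * c2 + (1 / 2) * c3 + (1 / 2) * R.n4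

theorem ha32 {s b t k G1 G2 G3 G4 : ℝ} (R : RegH s b t k G1 G2 G3 G4) (hT : t ≤ 284 / 1000 * s) (hy : 0 ≤ 1 / 2 - s + t) (hb : 0 ≤ t - s - 3 / 200 + b)
    (s1 : 57 / 100 ≤ s) (s2 : s ≤ 1177 / 2000)
    (b1 : 4532 / 10000 ≤ b) (b2 : b ≤ 4688 / 10000) (t1 : 1307 / 10000 ≤ t) (t2 : t ≤ 1321 / 10000) :
    4 * ph (s - t) - 2 * ph s + dl s ≤ (G1 + G2 + G3 + G4) / 2 := by
  have e1 := up (t1 := (67 / 1000)) (t2 := (68 / 1000)) (x := 1 - h0) (by norm_num)
    (by linear_combination (1004489 / 1000000) * R.h2) (by linear_combination (62789 / 62500) * R.h1)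
  have e2 := up (t1 := (229 / 1000)) (t2 := (241 / 1000)) (x := h0 + s - 1) (by norm_num)
    (by linear_combination (1052441 / 1000000) * s1 + (1052441 / 1000000) * R.h1) (by linear_combination (1058081 / 1000000) * s2 + (1058081 / 1000000) * R.h2)
  have e3 := lo (t := (320 / 1000)) (x := s - t + b / 2 - k) (by norm_num)
    (by linear_combination s1 + (1 / 2) * b1 + t2 + R.k4) (by linear_combination s2 + (1 / 2) * b2 + t1 + R.k3)
  have e4 := up (t1 := (230 / 1000)) (t2 := (243 / 1000)) (x := s - t) (by norm_num)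
    (by linear_combination (10529 / 10000) * s1 + (10529 / 10000) * t2) (by linear_combination (1059049 / 1000000) * s2 + (1059049 / 1000000) * t1)
  have e5 := up (t1 := (922 / 1000)) (t2 := (941 / 1000)) (x := h0 + t) (by norm_num)
    (by linear_combination (462521 / 250000) * t1 + (462521 / 250000) * R.h1) (by linear_combination (1885481 / 1000000) * t2 + (1885481 / 1000000) * R.h2)
  have e6 := up (t1 := (239 / 1000)) (t2 := (252 / 1000)) (x := s + 3 / 200 - t) (by norm_num)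
    (by linear_combination (1057121 / 1000000) * s1 + (1057121 / 1000000) * t2) (by linear_combination (66469 / 62500) * s2 + (66469 / 62500) * t1)
  have e7 := lo (t := (8 / 1000)) (x := 203 / 200 - h0 - b / 2 + k) (by norm_num)
    (by linear_combination (1 / 2) * b2 + R.k3 + R.h2) (by linear_combination (1 / 2) * b1 + R.k4 + R.h1)
  have e8 := lo (t := (168 / 1000)) (x := h0 + s - 197 / 200 - b / 2 + k) (by norm_num)
    (by linear_combination s1 + (1 / 2) * b2 + R.k3 + R.h1) (by linear_combination s2 + (1 / 2) * b1 + R.k4 + R.h2)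
  have e9 := lo (t := (244 / 1000)) (x := s + 3 / 200 - b / 2 + k) (by norm_num)
    (by linear_combination s1 + (1 / 2) * b2 + R.k3) (by linear_combination s2 + (1 / 2) * b1 + R.k4)
  have e10 := lo (t := (319 / 1000)) (x := s) (by norm_num)
    (by linear_combination s1) (by linear_combination s2)
  have e11 := up (t1 := (239 / 1000)) (t2 := (249 / 1000)) (x := b) (by norm_num)
    (by linear_combination (1057121 / 1000000) * b1) (by linear_combination (1062001 / 1000000) * b2)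
  have c1 := R.ph1
  have c2 := R.qh1
  have c3 := R.rh1
  have c4 := R.syv (by linear_combination (78730 / 85499) * e11 + R.k2 + (216463 / 4274950) * b1 + t2)
  unfold dl
  linear_combination (67723212543708625 / 221178408230884104) * e11 + (2000000 / 898239) * e10 + (31250 / 58779) * e9 + (15625 / 30368) * e8 + (15625 / 15624) * e7 + (500000 / 234943) * e6 + (250000 / 66199) * e5 + (400000 / 94411) * e4 + (625 / 374) * e3 + (500000 / 944811) * e2 + (250000 / 248861) * e1 + (3213938071325 / 5173824447792) * R.k2 + (2085172426347366263826268827077 / 27705047323828102044351865490160) * s2 + (31591504234802730919 / 53167886593962525000) * b1 + (1388356936353504350 / 274585843626528049) * t2 + (7318031367354457089875 / 1046653815083184414288) * R.h2 + (1 / 2) * R.h3 + (1 / 2) * c1 + (1 / 2) * c2 + (1 / 2) * c3 + (1 / 2) * c4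

theorem ha33 {s b t k G1 G2 G3 G4 : ℝ} (R : RegH s b t k G1 G2 G3 G4) (hT : t ≤ 284 / 1000 * s) (hy : 0 ≤ 1 / 2 - s + t) (hb : 0 ≤ t - s - 3 / 200 + b)
    (s1 : 1177 / 2000 ≤ s) (s2 : s ≤ 607 / 1000)
    (b1 : 875 / 2000 ≤ b) (b2 : b ≤ 4688 / 10000) (t1 : 1294 / 10000 ≤ t) (t2 : t ≤ 1321 / 10000) :
    4 * ph (s - t) - 2 * ph s + dl s ≤ (G1 + G2 + G3 + G4) / 2 := by
  exfalso
  exact absurd b2 (not_le.mpr (by linear_combination s1 + t2 + hb))

theorem ha34 {s b t k G1 G2 G3 G4 : ℝ} (R : RegH s b t k G1 G2 G3 G4) (hT : t ≤ 284 / 1000 * s) (hy : 0 ≤ 1 / 2 - s + t) (hb : 0 ≤ t - s - 3 / 200 + b)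
    (s1 : 57 / 100 ≤ s) (s2 : s ≤ 607 / 1000)
    (b1 : 4688 / 10000 ≤ b) (b2 : b ≤ 1 / 2) (t1 : 1294 / 10000 ≤ t) (t2 : t ≤ 1321 / 10000) :
    4 * ph (s - t) - 2 * ph s + dl s ≤ (G1 + G2 + G3 + G4) / 2 := by
  have e1 := up (t1 := (67 / 1000)) (t2 := (68 / 1000)) (x := 1 - h0) (by norm_num)
    (by linear_combination (1004489 / 1000000) * R.h2) (by linear_combination (62789 / 62500) * R.h1)
  have e2 := up (t1 := (229 / 1000)) (t2 := (252 / 1000)) (x := h0 + s - 1) (by norm_num)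
    (by linear_combination (1052441 / 1000000) * s1 + (1052441 / 1000000) * R.h1) (by linear_combination (66469 / 62500) * s2 + (66469 / 62500) * R.h2)
  have e3 := lo (t := (327 / 1000)) (x := s - t + b / 2 - k) (by norm_num)
    (by linear_combination s1 + (1 / 2) * b1 + t2 + R.k4) (by linear_combination s2 + (1 / 2) * b2 + t1 + R.k3)
  have e4 := up (t1 := (230 / 1000)) (t2 := (255 / 1000)) (x := s - t) (by norm_num)
    (by linear_combination (10529 / 10000) * s1 + (10529 / 10000) * t2) (by linear_combination (42601 / 40000) * s2 + (42601 / 40000) * t1)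
  have e5 := up (t1 := (908 / 1000)) (t2 := (941 / 1000)) (x := h0 + t) (by norm_num)
    (by linear_combination (114029 / 62500) * t1 + (114029 / 62500) * R.h1) (by linear_combination (1885481 / 1000000) * t2 + (1885481 / 1000000) * R.h2)
  have e6 := up (t1 := (239 / 1000)) (t2 := (264 / 1000)) (x := s + 3 / 200 - t) (by norm_num)
    (by linear_combination (1057121 / 1000000) * s1 + (1057121 / 1000000) * t2) (by linear_combination (16714 / 15625) * s2 + (16714 / 15625) * t1)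
  have e7 := lo (t := (8 / 1000)) (x := 203 / 200 - h0 - b / 2 + k) (by norm_num)
    (by linear_combination (1 / 2) * b2 + R.k3 + R.h2) (by linear_combination (1 / 2) * b1 + R.k4 + R.h1)
  have e8 := lo (t := (173 / 1000)) (x := h0 + s - 197 / 200 - b / 2 + k) (by norm_num)
    (by linear_combination s1 + (1 / 2) * b2 + R.k3 + R.h1) (by linear_combination s2 + (1 / 2) * b1 + R.k4 + R.h2)
  have e9 := lo (t := (250 / 1000)) (x := s + 3 / 200 - b / 2 + k) (by norm_num)
    (by linear_combination s1 + (1 / 2) * b2 + R.k3) (by linear_combination s2 + (1 / 2) * b1 + R.k4)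
  have e10 := lo (t := (325 / 1000)) (x := s) (by norm_num)
    (by linear_combination s1) (by linear_combination s2)
  have e11 := up (t1 := (248 / 1000)) (t2 := (268 / 1000)) (x := b) (by norm_num)
    (by linear_combination (16586 / 15625) * b1) (by linear_combination (66989 / 62500) * b2)
  have c1 := R.ph1
  have c2 := R.qh1
  have c3 := R.rh1
  have c4 := R.syv (by linear_combination (433015 / 466768) * e11 + R.k2 + (497413 / 23338400) * b1 + t2)
  unfold dl
  linear_combination (340708281466903071119 / 1053007739745014434752) * e11 + (3200 / 1431) * e10 + (8 / 15) * e9 + (500000 / 970071) * e8 + (15625 / 15624) * e7 + (250000 / 117113) * e6 + (125000 / 36393) * e5 + (80000 / 18827) * e4 + (1500000 / 893071) * e3 + (125000 / 235573) * e2 + (250000 / 248861) * e1 + (7190313187409773 / 11279776460093820) * R.k2 + (901875935729923746779445101 / 9712417784361380882813375910) * s2 + (549801981014424292911571 / 940185481915191459600000) * b1 + (309197037271515437675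 / 71662189534555397253) * t2 + (124531583438235397746625 / 19741587203198921278932) * R.h2 + (1 / 2) * R.h3 + (1 / 2) * c1 + (1 / 2) * c2 + (1 / 2) * c3 + (1 / 2) * c4

theorem ha36 {s b t k G1 G2 G3 G4 : ℝ} (R : RegH s b t k G1 G2 G3 G4) (hT : t ≤ 284 / 1000 * s) (hy : 0 ≤ 1 / 2 - s + t) (hb : 0 ≤ t - s - 3 / 200 + b)
    (s1 : 57 / 100 ≤ s) (s2 : s ≤ 1177 / 2000)
    (b1 : 875 / 2000 ≤ b) (b2 : b ≤ 1 / 2) (t1 : 1321 / 10000 ≤ t) (t2 : t ≤ 1348 / 10000) :
    4 * ph (s - t) - 2 * ph s + dl s ≤ (G1 + G2 + G3 + G4) / 2 := by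
  have e1 := up (t1 := (67 / 1000)) (t2 := (68 / 1000)) (x := 1 - h0) (by norm_num)
    (by linear_combination (1004489 / 1000000) * R.h2) (by linear_combination (62789 / 62500) * R.h1)
  have e2 := up (t1 := (229 / 1000)) (t2 := (241 / 1000)) (x := h0 + s - 1) (by norm_num)
    (by linear_combination (1052441 / 1000000) * s1 + (1052441 / 1000000) * R.h1) (by linear_combination (1058081 / 1000000) * s2 + (1058081 / 1000000) * R.h2)
  have e3 := lo (t := (319 / 1000)) (x := s - t + b / 2 - k) (by norm_num)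
    (by linear_combination s1 + (1 / 2) * b1 + t2 + R.k4) (by linear_combination s2 + (1 / 2) * b2 + t1 + R.k3)
  have e4 := up (t1 := (229 / 1000)) (t2 := (242 / 1000)) (x := s - t) (by norm_num)
    (by linear_combination (1052441 / 1000000) * s1 + (1052441 / 1000000) * t2) (by linear_combination (264641 / 250000) * s2 + (264641 / 250000) * t1)
  have e5 := up (t1 := (237 / 1000)) (t2 := (251 / 1000)) (x := s + 3 / 200 - t) (by norm_num)
    (by linear_combination (1056169 / 1000000) * s1 + (1056169 / 1000000) * t2) (by linear_combination (1063001 / 1000000) * s2 + (1063001 / 1000000) * t1)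
  have e6 := lo (t := (8 / 1000)) (x := 203 / 200 - h0 - b / 2 + k) (by norm_num)
    (by linear_combination (1 / 2) * b2 + R.k3 + R.h2) (by linear_combination (1 / 2) * b1 + R.k4 + R.h1)
  have e7 := lo (t := (168 / 1000)) (x := h0 + s - 197 / 200 - b / 2 + k) (by norm_num)
    (by linear_combination s1 + (1 / 2) * b2 + R.k3 + R.h1) (by linear_combination s2 + (1 / 2) * b1 + R.k4 + R.h2)
  have e8 := lo (t := (319 / 1000)) (x := s) (by norm_num)
    (by linear_combination s1) (by linear_combination s2)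
  have e9 := up (t1 := (230 / 1000)) (t2 := (268 / 1000)) (x := b) (by norm_num)
    (by linear_combination (10529 / 10000) * b1) (by linear_combination (66989 / 62500) * b2)
  have c1 := R.ph1
  have c2 := R.qh1
  have c3 := R.rh1
  unfold dl
  linear_combination (674004185015220125 / 833160319212102336) * e9 + (2000000 / 898239) * e8 + (15625 / 30368) * e7 + (15625 / 15624) * e6 + (1500000 / 940513) * e5 + (2000000 / 472291) * e4 + (500000 / 299413) * e3 + (500000 / 944811) * e2 + (250000 / 248861) * e1 + (7782688648375 / 8878898495376) * R.k2 + (12208024572316748298799919 / 194692932068560456231181520) * s2 + (117976407467514511 / 3332641276848409344) * b1 + (227082612823277000 / 132998004635458879) * t1 + (4844158179956125 / 110675035961000784) * R.h1 + (1 / 2) * c1 + (1 / 2) * c2 + (1 / 2) * c3 + (1 / 2) * R.n4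

theorem ha37 {s b t k G1 G2 G3 G4 : ℝ} (R : RegH s b t k G1 G2 G3 G4) (hT : t ≤ 284 / 1000 * s) (hy : 0 ≤ 1 / 2 - s + t) (hb : 0 ≤ t - s - 3 / 200 + b)
    (s1 : 1177 / 2000 ≤ s) (s2 : s ≤ 607 / 1000)
    (b1 : 875 / 2000 ≤ b) (b2 : b ≤ 1 / 2) (t1 : 1321 / 10000 ≤ t) (t2 : t ≤ 1348 / 10000) :
    4 * ph (s - t) - 2 * ph s + dl s ≤ (G1 + G2 + G3 + G4) / 2 := by
  have e1 := up (t1 := (67 / 1000)) (t2 := (68 / 1000)) (x := 1 - h0) (by norm_num)
    (by linear_combination (1004489 / 1000000) * R.h2) (by linear_combination (62789 / 62500) * R.h1)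
  have e2 := up (t1 := (240 / 1000)) (t2 := (252 / 1000)) (x := h0 + s - 1) (by norm_num)
    (by linear_combination (661 / 625) * s1 + (661 / 625) * R.h1) (by linear_combination (66469 / 62500) * s2 + (66469 / 62500) * R.h2)
  have e3 := lo (t := (331 / 1000)) (x := s - t + b / 2 - k) (by norm_num)
    (by linear_combination s1 + (1 / 2) * b1 + t2 + R.k4) (by linear_combination s2 + (1 / 2) * b2 + t1 + R.k3)
  have e4 := up (t1 := (239 / 1000)) (t2 := (253 / 1000)) (x := s - t) (by norm_num)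
    (by linear_combination (1057121 / 1000000) * s1 + (1057121 / 1000000) * t2) (by linear_combination (1064009 / 1000000) * s2 + (1064009 / 1000000) * t1)
  have e5 := up (t1 := (248 / 1000)) (t2 := (262 / 1000)) (x := s + 3 / 200 - t) (by norm_num)
    (by linear_combination (16586 / 15625) * s1 + (16586 / 15625) * t2) (by linear_combination (267161 / 250000) * s2 + (267161 / 250000) * t1)
  have e6 := lo (t := (8 / 1000)) (x := 203 / 200 - h0 - b / 2 + k) (by norm_num)
    (by linear_combination (1 / 2) * b2 + R.k3 + R.h2) (by linear_combination (1 / 2) * b1 + R.k4 + R.h1)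
  have e7 := lo (t := (179 / 1000)) (x := h0 + s - 197 / 200 - b / 2 + k) (by norm_num)
    (by linear_combination s1 + (1 / 2) * b2 + R.k3 + R.h1) (by linear_combination s2 + (1 / 2) * b1 + R.k4 + R.h2)
  have e8 := lo (t := (332 / 1000)) (x := s) (by norm_num)
    (by linear_combination s1) (by linear_combination s2)
  have e9 := up (t1 := (230 / 1000)) (t2 := (268 / 1000)) (x := b) (by norm_num)
    (by linear_combination (10529 / 10000) * b1) (by linear_combination (66989 / 62500) * b2)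
  have c1 := R.ph1
  have c2 := R.qh1
  have c3 := R.rh1
  unfold dl
  linear_combination (1795009501030665625 / 2127337556730580656) * e9 + (125000 / 55611) * e8 + (500000 / 967959) * e7 + (15625 / 15624) * e6 + (93750 / 58439) * e5 + (4000000 / 939533) * e4 + (500000 / 296813) * e3 + (3125 / 5872) * e2 + (250000 / 248861) * e1 + (227995618065625 / 249378843130956) * R.k2 + (156514576147619431878303764423 / 1907821253796550593439399839840) * s2 + (3456145447028029825 / 93602852496145548864) * b1 + (58590880041018625 / 32593254570276862) * t1 + (8738951626009925 / 204629538992892384) * R.h1 + (1 / 2) * c1 + (1 / 2) * c2 + (1 / 2) * c3 + (1 / 2) * R.n4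

theorem ha38 {s b t k G1 G2 G3 G4 : ℝ} (R : RegH s b t k G1 G2 G3 G4) (hT : t ≤ 284 / 1000 * s) (hy : 0 ≤ 1 / 2 - s + t) (hb : 0 ≤ t - s - 3 / 200 + b)
    (s1 : 57 / 100 ≤ s) (s2 : s ≤ 607 / 1000)
    (b1 : 875 / 2000 ≤ b) (b2 : b ≤ 1 / 2) (t1 : 1348 / 10000 ≤ t) (t2 : t ≤ 1402 / 10000) :
    4 * ph (s - t) - 2 * ph s + dl s ≤ (G1 + G2 + G3 + G4) / 2 := by
  have e1 := up (t1 := (67 / 1000)) (t2 := (68 / 1000)) (x := 1 - h0) (by norm_num)
    (by linear_combination (1004489 / 1000000) * R.h2) (by linear_combination (62789 / 62500) * R.h1)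
  have e2 := up (t1 := (229 / 1000)) (t2 := (252 / 1000)) (x := h0 + s - 1) (by norm_num)
    (by linear_combination (1052441 / 1000000) * s1 + (1052441 / 1000000) * R.h1) (by linear_combination (66469 / 62500) * s2 + (66469 / 62500) * R.h2)
  have e3 := lo (t := (322 / 1000)) (x := s - t + b / 2 - k) (by norm_num)
    (by linear_combination s1 + (1 / 2) * b1 + t2 + R.k4) (by linear_combination s2 + (1 / 2) * b2 + t1 + R.k3)
  have e4 := up (t1 := (225 / 1000)) (t2 := (251 / 1000)) (x := s - t) (by norm_num)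
    (by linear_combination (1681 / 1600) * s1 + (1681 / 1600) * t2) (by linear_combination (1063001 / 1000000) * s2 + (1063001 / 1000000) * t1)
  have e5 := up (t1 := (234 / 1000)) (t2 := (261 / 1000)) (x := s + 3 / 200 - t) (by norm_num)
    (by linear_combination (263689 / 250000) * s1 + (263689 / 250000) * t2) (by linear_combination (1068121 / 1000000) * s2 + (1068121 / 1000000) * t1)
  have e6 := lo (t := (8 / 1000)) (x := 203 / 200 - h0 - b / 2 + k) (by norm_num)
    (by linear_combination (1 / 2) * b2 + R.k3 + R.h2) (by linear_combination (1 / 2) * b1 + R.k4 + R.h1)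
  have e7 := lo (t := (173 / 1000)) (x := h0 + s - 197 / 200 - b / 2 + k) (by norm_num)
    (by linear_combination s1 + (1 / 2) * b2 + R.k3 + R.h1) (by linear_combination s2 + (1 / 2) * b1 + R.k4 + R.h2)
  have e8 := lo (t := (325 / 1000)) (x := s) (by norm_num)
    (by linear_combination s1) (by linear_combination s2)
  have e9 := up (t1 := (230 / 1000)) (t2 := (268 / 1000)) (x := b) (by norm_num)
    (by linear_combination (10529 / 10000) * b1) (by linear_combination (66989 / 62500) * b2)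
  have c1 := R.ph1
  have c2 := R.qh1
  have c3 := R.rh1
  unfold dl
  linear_combination (14435036637782242625 / 17704916836019107632) * e9 + (3200 / 1431) * e8 + (500000 / 970071) * e7 + (15625 / 15624) * e6 + (750000 / 469463) * e5 + (160000 / 37741) * e4 + (125000 / 74693) * e3 + (125000 / 235573) * e2 + (250000 / 248861) * e1 + (166680561155875 / 188679364380612) * R.k2 + (82662328501033424972186287 / 1520113013054696155081614210) * s2 + (2526681290783145691 / 70819667344076430528) * b1 + (31381456473030 / 18128915127103) * t1 + (486711263672686375 / 11391567918752984004) * R.h1 + (1 / 2) * c1 + (1 / 2) * c2 + (1 / 2) * c3 + (1 / 2) * R.n4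

theorem ha39 {s b t k G1 G2 G3 G4 : ℝ} (R : RegH s b t k G1 G2 G3 G4) (hT : t ≤ 284 / 1000 * s) (hy : 0 ≤ 1 / 2 - s + t) (hb : 0 ≤ t - s - 3 / 200 + b)
    (s1 : 57 / 100 ≤ s) (s2 : s ≤ 607 / 1000)
    (b1 : 15 / 40 ≤ b) (b2 : b ≤ 1 / 2) (t1 : 1402 / 10000 ≤ t) (t2 : t ≤ 1509 / 10000) :
    4 * ph (s - t) - 2 * ph s + dl s ≤ (G1 + G2 + G3 + G4) / 2 := by
  have e1 := up (t1 := (67 / 1000)) (t2 := (68 / 1000)) (x := 1 - h0) (by norm_num)
    (by linear_combination (1004489 / 1000000) * R.h2) (by linear_combination (62789 / 62500) * R.h1)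
  have e2 := up (t1 := (229 / 1000)) (t2 := (252 / 1000)) (x := h0 + s - 1) (by norm_num)
    (by linear_combination (1052441 / 1000000) * s1 + (1052441 / 1000000) * R.h1) (by linear_combination (66469 / 62500) * s2 + (66469 / 62500) * R.h2)
  have e3 := lo (t := (314 / 1000)) (x := s - t + b / 2 - k) (by norm_num)
    (by linear_combination s1 + (1 / 2) * b1 + t2 + R.k4) (by linear_combination s2 + (1 / 2) * b2 + t1 + R.k3)
  have e4 := up (t1 := (219 / 1000)) (t2 := (248 / 1000)) (x := s - t) (by norm_num)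
    (by linear_combination (1047961 / 1000000) * s1 + (1047961 / 1000000) * t2) (by linear_combination (16586 / 15625) * s2 + (16586 / 15625) * t1)
  have e5 := up (t1 := (228 / 1000)) (t2 := (257 / 1000)) (x := s + 3 / 200 - t) (by norm_num)
    (by linear_combination (65749 / 62500) * s1 + (65749 / 62500) * t2) (by linear_combination (1066049 / 1000000) * s2 + (1066049 / 1000000) * t1)
  have e6 := lo (t := (10 / 1000)) (x := 203 / 200 - h0 - b / 2 + k) (by norm_num)
    (by linear_combination (1 / 2) * b2 + R.k3 + R.h2) (by linear_combination (1 / 2) * b1 + R.k4 + R.h1)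
  have e7 := lo (t := (175 / 1000)) (x := h0 + s - 197 / 200 - b / 2 + k) (by norm_num)
    (by linear_combination s1 + (1 / 2) * b2 + R.k3 + R.h1) (by linear_combination s2 + (1 / 2) * b1 + R.k4 + R.h2)
  have e8 := lo (t := (325 / 1000)) (x := s) (by norm_num)
    (by linear_combination s1) (by linear_combination s2)
  have e9 := up (t1 := (194 / 1000)) (t2 := (268 / 1000)) (x := b) (by norm_num)
    (by linear_combination (259409 / 250000) * b1) (by linear_combination (66989 / 62500) * b2)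
  have c1 := R.ph1
  have c2 := R.qh1
  have c3 := R.rh1
  unfold dl
  linear_combination (97796714682775 / 126765401585697) * e9 + (3200 / 1431) * e8 + (800 / 1551) * e7 + (10000 / 9999) * e6 + (375000 / 235351) * e5 + (500000 / 118211) * e4 + (125000 / 75117) * e3 + (125000 / 235573) * e2 + (250000 / 248861) * e1 + (9937428140 / 11767153167) * R.k2 + (2259871494175240098833521 / 93390619565104162290303930) * s2 + (1835893639824149 / 27888388348853340) * b1 + (3559046887929125 / 2089835845591137) * t1 + (86713107528265 / 2119304833391493) * R.h1 + (1 / 2) * c1 + (1 / 2) * c2 + (1 / 2) * c3 + (1 / 2) * R.n4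

theorem ha40 {s b t k G1 G2 G3 G4 : ℝ} (R : RegH s b t k G1 G2 G3 G4) (hT : t ≤ 284 / 1000 * s) (hy : 0 ≤ 1 / 2 - s + t) (hb : 0 ≤ t - s - 3 / 200 + b)
    (s1 : 57 / 100 ≤ s) (s2 : s ≤ 607 / 1000)
    (b1 : 15 / 40 ≤ b) (b2 : b ≤ 1 / 2) (t1 : 1509 / 10000 ≤ t) (t2 : t ≤ 345 / 2000) :
    4 * ph (s - t) - 2 * ph s + dl s ≤ (G1 + G2 + G3 + G4) / 2 := by
  have e1 := up (t1 := (67 / 1000)) (t2 := (68 / 1000)) (x := 1 - h0) (by norm_num)
    (by linear_combination (1004489 / 1000000) * R.h2) (by linear_combination (62789 / 62500) * R.h1)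
  have e2 := up (t1 := (229 / 1000)) (t2 := (252 / 1000)) (x := h0 + s - 1) (by norm_num)
    (by linear_combination (1052441 / 1000000) * s1 + (1052441 / 1000000) * R.h1) (by linear_combination (66469 / 62500) * s2 + (66469 / 62500) * R.h2)
  have e3 := lo (t := (304 / 1000)) (x := s - t + b / 2 - k) (by norm_num)
    (by linear_combination s1 + (1 / 2) * b1 + t2 + R.k4) (by linear_combination s2 + (1 / 2) * b2 + t1 + R.k3)
  have e4 := up (t1 := (207 / 1000)) (t2 := (242 / 1000)) (x := s - t) (by norm_num)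
    (by linear_combination (1042849 / 1000000) * s1 + (1042849 / 1000000) * t2) (by linear_combination (264641 / 250000) * s2 + (264641 / 250000) * t1)
  have e5 := up (t1 := (215 / 1000)) (t2 := (251 / 1000)) (x := s + 3 / 200 - t) (by norm_num)
    (by linear_combination (41849 / 40000) * s1 + (41849 / 40000) * t2) (by linear_combination (1063001 / 1000000) * s2 + (1063001 / 1000000) * t1)
  have e6 := lo (t := (10 / 1000)) (x := 203 / 200 - h0 - b / 2 + k) (by norm_num)
    (by linear_combination (1 / 2) * b2 + R.k3 + R.h2) (by linear_combination (1 / 2) * b1 + R.k4 + R.h1)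
  have e7 := lo (t := (175 / 1000)) (x := h0 + s - 197 / 200 - b / 2 + k) (by norm_num)
    (by linear_combination s1 + (1 / 2) * b2 + R.k3 + R.h1) (by linear_combination s2 + (1 / 2) * b1 + R.k4 + R.h2)
  have e8 := lo (t := (325 / 1000)) (x := s) (by norm_num)
    (by linear_combination s1) (by linear_combination s2)
  have e9 := up (t1 := (194 / 1000)) (t2 := (268 / 1000)) (x := b) (by norm_num)
    (by linear_combination (259409 / 250000) * b1) (by linear_combination (66989 / 62500) * b2)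
  have c1 := R.ph1
  have c2 := R.qh1
  have c3 := R.rh1
  unfold dl
  linear_combination (446701067500 / 513159068961) * e9 + (3200 / 1431) * e8 + (800 / 1551) * e7 + (10000 / 9999) * e6 + (100000 / 63069) * e5 + (2000000 / 474953) * e4 + (15625 / 9454) * e3 + (125000 / 235573) * e2 + (250000 / 248861) * e1 + (6602075604852890 / 513159068961) * R.k1 + (6602488356639260 / 513159068961) * R.k2 + (342376640004515053970063 / 6327661887918407904445710) * s1 + (230054633202850 / 141596390448339) * t1 + (86713107528265 / 2119304833391493) * R.h1 + (1 / 2) * c1 + (1 / 2) * c2 + (1 / 2) * c3 + (1 / 2) * R.n4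

theorem ha35 {s b t k G1 G2 G3 G4 : ℝ} (R : RegH s b t k G1 G2 G3 G4) (hT : t ≤ 284 / 1000 * s) (hy : 0 ≤ 1 / 2 - s + t) (hb : 0 ≤ t - s - 3 / 200 + b)
    (s1 : 57 / 100 ≤ s) (s2 : s ≤ 607 / 1000)
    (b1 : 875 / 2000 ≤ b) (b2 : b ≤ 1 / 2) (t1 : 1321 / 10000 ≤ t) (t2 : t ≤ 1348 / 10000) :
    4 * ph (s - t) - 2 * ph s + dl s ≤ (G1 + G2 + G3 + G4) / 2 := by
  rcases le_total s (1177 / 2000) with h | h
  · exact ha36 R hT hy hb s1 h b1 b2 t1 t2
  · exact ha37 R hT hy hb h s2 b1 b2 t1 t2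

theorem ha29 {s b t k G1 G2 G3 G4 : ℝ} (R : RegH s b t k G1 G2 G3 G4) (hT : t ≤ 284 / 1000 * s) (hy : 0 ≤ 1 / 2 - s + t) (hb : 0 ≤ t - s - 3 / 200 + b)
    (s1 : 57 / 100 ≤ s) (s2 : s ≤ 1177 / 2000)
    (b1 : 875 / 2000 ≤ b) (b2 : b ≤ 4532 / 10000) (t1 : 1307 / 10000 ≤ t) (t2 : t ≤ 1321 / 10000) :
    4 * ph (s - t) - 2 * ph s + dl s ≤ (G1 + G2 + G3 + G4) / 2 := by
  rcases le_total t (1314 / 10000) with h | h
  · exact ha30 R hT hy hb s1 s2 b1 b2 t1 h
  · exact ha31 R hT hy hb s1 s2 b1 b2 h t2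

theorem ha28 {s b t k G1 G2 G3 G4 : ℝ} (R : RegH s b t k G1 G2 G3 G4) (hT : t ≤ 284 / 1000 * s) (hy : 0 ≤ 1 / 2 - s + t) (hb : 0 ≤ t - s - 3 / 200 + b)
    (s1 : 57 / 100 ≤ s) (s2 : s ≤ 1177 / 2000)
    (b1 : 875 / 2000 ≤ b) (b2 : b ≤ 4688 / 10000) (t1 : 1307 / 10000 ≤ t) (t2 : t ≤ 1321 / 10000) :
    4 * ph (s - t) - 2 * ph s + dl s ≤ (G1 + G2 + G3 + G4) / 2 := by
  rcases le_total b (4532 / 10000) with h | h
  · exact ha29 R hT hy hb s1 s2 b1 h t1 t2
  · exact ha32 R hT hy hb s1 s2 h b2 t1 t2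

theorem ha26 {s b t k G1 G2 G3 G4 : ℝ} (R : RegH s b t k G1 G2 G3 G4) (hT : t ≤ 284 / 1000 * s) (hy : 0 ≤ 1 / 2 - s + t) (hb : 0 ≤ t - s - 3 / 200 + b)
    (s1 : 57 / 100 ≤ s) (s2 : s ≤ 1177 / 2000)
    (b1 : 875 / 2000 ≤ b) (b2 : b ≤ 4688 / 10000) (t1 : 1294 / 10000 ≤ t) (t2 : t ≤ 1321 / 10000) :
    4 * ph (s - t) - 2 * ph s + dl s ≤ (G1 + G2 + G3 + G4) / 2 := by
  rcases le_total t (1307 / 10000) with h | h
  · exact ha27 R hT hy hb s1 s2 b1 b2 t1 h
  · exact ha28 R hT hy hb s1 s2 b1 b2 h t2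

theorem ha25 {s b t k G1 G2 G3 G4 : ℝ} (R : RegH s b t k G1 G2 G3 G4) (hT : t ≤ 284 / 1000 * s) (hy : 0 ≤ 1 / 2 - s + t) (hb : 0 ≤ t - s - 3 / 200 + b)
    (s1 : 57 / 100 ≤ s) (s2 : s ≤ 607 / 1000)
    (b1 : 875 / 2000 ≤ b) (b2 : b ≤ 4688 / 10000) (t1 : 1294 / 10000 ≤ t) (t2 : t ≤ 1321 / 10000) :
    4 * ph (s - t) - 2 * ph s + dl s ≤ (G1 + G2 + G3 + G4) / 2 := by
  rcases le_total s (1177 / 2000) with h | h
  · exact ha26 R hT hy hb s1 h b1 b2 t1 t2
  · exact ha33 R hT hy hb h s2 b1 b2 t1 t2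

theorem ha24 {s b t k G1 G2 G3 G4 : ℝ} (R : RegH s b t k G1 G2 G3 G4) (hT : t ≤ 284 / 1000 * s) (hy : 0 ≤ 1 / 2 - s + t) (hb : 0 ≤ t - s - 3 / 200 + b)
    (s1 : 57 / 100 ≤ s) (s2 : s ≤ 607 / 1000)
    (b1 : 875 / 2000 ≤ b) (b2 : b ≤ 1 / 2) (t1 : 1294 / 10000 ≤ t) (t2 : t ≤ 1321 / 10000) :
    4 * ph (s - t) - 2 * ph s + dl s ≤ (G1 + G2 + G3 + G4) / 2 := by
  rcases le_total b (4688 / 10000) with h | h
  · exact ha25 R hT hy hb s1 s2 b1 h t1 t2
  · exact ha34 R hT hy hb s1 s2 h b2 t1 t2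

theorem ha23 {s b t k G1 G2 G3 G4 : ℝ} (R : RegH s b t k G1 G2 G3 G4) (hT : t ≤ 284 / 1000 * s) (hy : 0 ≤ 1 / 2 - s + t) (hb : 0 ≤ t - s - 3 / 200 + b)
    (s1 : 57 / 100 ≤ s) (s2 : s ≤ 607 / 1000)
    (b1 : 875 / 2000 ≤ b) (b2 : b ≤ 1 / 2) (t1 : 1294 / 10000 ≤ t) (t2 : t ≤ 1348 / 10000) :
    4 * ph (s - t) - 2 * ph s + dl s ≤ (G1 + G2 + G3 + G4) / 2 := by
  rcases le_total t (1321 / 10000) with h | h
  · exact ha24 R hT hy hb s1 s2 b1 b2 t1 h
  · exact ha35 R hT hy hb s1 s2 b1 b2 h t2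

theorem ha22 {s b t k G1 G2 G3 G4 : ℝ} (R : RegH s b t k G1 G2 G3 G4) (hT : t ≤ 284 / 1000 * s) (hy : 0 ≤ 1 / 2 - s + t) (hb : 0 ≤ t - s - 3 / 200 + b)
    (s1 : 57 / 100 ≤ s) (s2 : s ≤ 607 / 1000)
    (b1 : 875 / 2000 ≤ b) (b2 : b ≤ 1 / 2) (t1 : 1294 / 10000 ≤ t) (t2 : t ≤ 1402 / 10000) :
    4 * ph (s - t) - 2 * ph s + dl s ≤ (G1 + G2 + G3 + G4) / 2 := by
  rcases le_total t (1348 / 10000) with h | h
  · exact ha23 R hT hy hb s1 s2 b1 b2 t1 h
  · exact ha38 R hT hy hb s1 s2 b1 b2 h t2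

theorem ha20 {s b t k G1 G2 G3 G4 : ℝ} (R : RegH s b t k G1 G2 G3 G4) (hT : t ≤ 284 / 1000 * s) (hy : 0 ≤ 1 / 2 - s + t) (hb : 0 ≤ t - s - 3 / 200 + b)
    (s1 : 57 / 100 ≤ s) (s2 : s ≤ 607 / 1000)
    (b1 : 15 / 40 ≤ b) (b2 : b ≤ 1 / 2) (t1 : 1294 / 10000 ≤ t) (t2 : t ≤ 1402 / 10000) :
    4 * ph (s - t) - 2 * ph s + dl s ≤ (G1 + G2 + G3 + G4) / 2 := by
  rcases le_total b (875 / 2000) with h | h
  · exact ha21 R hT hy hb s1 s2 b1 h t1 t2
  · exact ha22 R hT hy hb s1 s2 h b2 t1 t2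

theorem ha19 {s b t k G1 G2 G3 G4 : ℝ} (R : RegH s b t k G1 G2 G3 G4) (hT : t ≤ 284 / 1000 * s) (hy : 0 ≤ 1 / 2 - s + t) (hb : 0 ≤ t - s - 3 / 200 + b)
    (s1 : 57 / 100 ≤ s) (s2 : s ≤ 607 / 1000)
    (b1 : 15 / 40 ≤ b) (b2 : b ≤ 1 / 2) (t1 : 1294 / 10000 ≤ t) (t2 : t ≤ 1509 / 10000) :
    4 * ph (s - t) - 2 * ph s + dl s ≤ (G1 + G2 + G3 + G4) / 2 := by
  rcases le_total t (1402 / 10000) with h | h
  · exact ha20 R hT hy hb s1 s2 b1 b2 t1 h
  · exact ha39 R hT hy hb s1 s2 b1 b2 h t2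

theorem ha18 {s b t k G1 G2 G3 G4 : ℝ} (R : RegH s b t k G1 G2 G3 G4) (hT : t ≤ 284 / 1000 * s) (hy : 0 ≤ 1 / 2 - s + t) (hb : 0 ≤ t - s - 3 / 200 + b)
    (s1 : 57 / 100 ≤ s) (s2 : s ≤ 607 / 1000)
    (b1 : 15 / 40 ≤ b) (b2 : b ≤ 1 / 2) (t1 : 1294 / 10000 ≤ t) (t2 : t ≤ 345 / 2000) :
    4 * ph (s - t) - 2 * ph s + dl s ≤ (G1 + G2 + G3 + G4) / 2 := by
  rcases le_total t (1509 / 10000) with h | h
  · exact ha19 R hT hy hb s1 s2 b1 b2 t1 h
  · exact ha40 R hT hy hb s1 s2 b1 b2 h t2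

theorem ha14 {s b t k G1 G2 G3 G4 : ℝ} (R : RegH s b t k G1 G2 G3 G4) (hT : t ≤ 284 / 1000 * s) (hy : 0 ≤ 1 / 2 - s + t) (hb : 0 ≤ t - s - 3 / 200 + b)
    (s1 : 57 / 100 ≤ s) (s2 : s ≤ 607 / 1000)
    (b1 : 875 / 2000 ≤ b) (b2 : b ≤ 4688 / 10000) (t1 : 862 / 10000 ≤ t) (t2 : t ≤ 1294 / 10000) :
    4 * ph (s - t) - 2 * ph s + dl s ≤ (G1 + G2 + G3 + G4) / 2 := by
  rcases le_total b (4532 / 10000) with h | h
  · exact ha15 R hT hy hb s1 s2 b1 h t1 t2
  · exact ha16 R hT hy hb s1 s2 h b2 t1 t2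

theorem ha13 {s b t k G1 G2 G3 G4 : ℝ} (R : RegH s b t k G1 G2 G3 G4) (hT : t ≤ 284 / 1000 * s) (hy : 0 ≤ 1 / 2 - s + t) (hb : 0 ≤ t - s - 3 / 200 + b)
    (s1 : 57 / 100 ≤ s) (s2 : s ≤ 607 / 1000)
    (b1 : 875 / 2000 ≤ b) (b2 : b ≤ 1 / 2) (t1 : 862 / 10000 ≤ t) (t2 : t ≤ 1294 / 10000) :
    4 * ph (s - t) - 2 * ph s + dl s ≤ (G1 + G2 + G3 + G4) / 2 := by
  rcases le_total b (4688 / 10000) with h | h
  · exact ha14 R hT hy hb s1 s2 b1 h t1 t2
  · exact ha17 R hT hy hb s1 s2 h b2 t1 t2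

theorem ha11 {s b t k G1 G2 G3 G4 : ℝ} (R : RegH s b t k G1 G2 G3 G4) (hT : t ≤ 284 / 1000 * s) (hy : 0 ≤ 1 / 2 - s + t) (hb : 0 ≤ t - s - 3 / 200 + b)
    (s1 : 57 / 100 ≤ s) (s2 : s ≤ 607 / 1000)
    (b1 : 15 / 40 ≤ b) (b2 : b ≤ 1 / 2) (t1 : 862 / 10000 ≤ t) (t2 : t ≤ 1294 / 10000) :
    4 * ph (s - t) - 2 * ph s + dl s ≤ (G1 + G2 + G3 + G4) / 2 := by
  rcases le_total b (875 / 2000) with h | h
  · exact ha12 R hT hy hb s1 s2 b1 h t1 t2
  · exact ha13 R hT hy hb s1 s2 h b2 t1 t2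

theorem ha10 {s b t k G1 G2 G3 G4 : ℝ} (R : RegH s b t k G1 G2 G3 G4) (hT : t ≤ 284 / 1000 * s) (hy : 0 ≤ 1 / 2 - s + t) (hb : 0 ≤ t - s - 3 / 200 + b)
    (s1 : 57 / 100 ≤ s) (s2 : s ≤ 607 / 1000)
    (b1 : 15 / 40 ≤ b) (b2 : b ≤ 1 / 2) (t1 : 862 / 10000 ≤ t) (t2 : t ≤ 345 / 2000) :
    4 * ph (s - t) - 2 * ph s + dl s ≤ (G1 + G2 + G3 + G4) / 2 := by
  rcases le_total t (1294 / 10000) with h | h
  · exact ha11 R hT hy hb s1 s2 b1 b2 t1 h
  · exact ha18 R hT hy hb s1 s2 b1 b2 h t2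

theorem ha7 {s b t k G1 G2 G3 G4 : ℝ} (R : RegH s b t k G1 G2 G3 G4) (hT : t ≤ 284 / 1000 * s) (hy : 0 ≤ 1 / 2 - s + t) (hb : 0 ≤ t - s - 3 / 200 + b)
    (s1 : 57 / 100 ≤ s) (s2 : s ≤ 607 / 1000)
    (b1 : 875 / 2000 ≤ b) (b2 : b ≤ 1 / 2) (t1 : 647 / 10000 ≤ t) (t2 : t ≤ 862 / 10000) :
    4 * ph (s - t) - 2 * ph s + dl s ≤ (G1 + G2 + G3 + G4) / 2 := by
  rcases le_total b (4688 / 10000) with h | h
  · exact ha8 R hT hy hb s1 s2 b1 h t1 t2
  · exact ha9 R hT hy hb s1 s2 h b2 t1 t2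

theorem ha5 {s b t k G1 G2 G3 G4 : ℝ} (R : RegH s b t k G1 G2 G3 G4) (hT : t ≤ 284 / 1000 * s) (hy : 0 ≤ 1 / 2 - s + t) (hb : 0 ≤ t - s - 3 / 200 + b)
    (s1 : 57 / 100 ≤ s) (s2 : s ≤ 607 / 1000)
    (b1 : 875 / 2000 ≤ b) (b2 : b ≤ 1 / 2) (t1 : 431 / 10000 ≤ t) (t2 : t ≤ 862 / 10000) :
    4 * ph (s - t) - 2 * ph s + dl s ≤ (G1 + G2 + G3 + G4) / 2 := by
  rcases le_total t (647 / 10000) with h | h
  · exact ha6 R hT hy hb s1 s2 b1 b2 t1 h
  · exact ha7 R hT hy hb s1 s2 b1 b2 h t2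

theorem ha3 {s b t k G1 G2 G3 G4 : ℝ} (R : RegH s b t k G1 G2 G3 G4) (hT : t ≤ 284 / 1000 * s) (hy : 0 ≤ 1 / 2 - s + t) (hb : 0 ≤ t - s - 3 / 200 + b)
    (s1 : 57 / 100 ≤ s) (s2 : s ≤ 607 / 1000)
    (b1 : 15 / 40 ≤ b) (b2 : b ≤ 1 / 2) (t1 : 431 / 10000 ≤ t) (t2 : t ≤ 862 / 10000) :
    4 * ph (s - t) - 2 * ph s + dl s ≤ (G1 + G2 + G3 + G4) / 2 := by
  rcases le_total b (875 / 2000) with h | h
  · exact ha4 R hT hy hb s1 s2 b1 h t1 t2
  · exact ha5 R hT hy hb s1 s2 h b2 t1 t2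

theorem ha1 {s b t k G1 G2 G3 G4 : ℝ} (R : RegH s b t k G1 G2 G3 G4) (hT : t ≤ 284 / 1000 * s) (hy : 0 ≤ 1 / 2 - s + t) (hb : 0 ≤ t - s - 3 / 200 + b)
    (s1 : 57 / 100 ≤ s) (s2 : s ≤ 607 / 1000)
    (b1 : 15 / 40 ≤ b) (b2 : b ≤ 1 / 2) (t1 : 0 ≤ t) (t2 : t ≤ 862 / 10000) :
    4 * ph (s - t) - 2 * ph s + dl s ≤ (G1 + G2 + G3 + G4) / 2 := by
  rcases le_total t (431 / 10000) with h | h
  · exact ha2 R hT hy hb s1 s2 b1 b2 t1 h
  · exact ha3 R hT hy hb s1 s2 b1 b2 h t2

theorem ha0 {s b t k G1 G2 G3 G4 : ℝ} (R : RegH s b t k G1 G2 G3 G4) (hT : t ≤ 284 / 1000 * s) (hy : 0 ≤ 1 / 2 - s + t) (hb : 0 ≤ t - s - 3 / 200 + b)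
    (s1 : 57 / 100 ≤ s) (s2 : s ≤ 607 / 1000)
    (b1 : 15 / 40 ≤ b) (b2 : b ≤ 1 / 2) (t1 : 0 ≤ t) (t2 : t ≤ 345 / 2000) :
    4 * ph (s - t) - 2 * ph s + dl s ≤ (G1 + G2 + G3 + G4) / 2 := by
  rcases le_total t (862 / 10000) with h | h
  · exact ha1 R hT hy hb s1 s2 b1 b2 t1 h
  · exact ha10 R hT hy hb s1 s2 b1 b2 h t2

end Pool.Agent.Strip051.FourG.LA
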