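import Pool.Agent.Strip051.FourG.Box

set_option linter.unusedVariables false

/-! # Boxes, the rim -/

namespace Pool.Agent.Strip051.FourG.LA

open Pool.Agent.StripNear Pool.Agent.StripSquare Pool.Agent.Strip051
open Pool.Agent.Strip051.Four.Low (ph)
open Pool.Agent.Strip051.FourC.LA (lo up)

theorem ra1 {s b t k G1 G2 G3 G4 : ℝ} (R : RegA s b t k G1 G2 G3 G4) (hT : t ≤ 284 / 1000 * s) (hy : 0 ≤ 1 / 2 - s + t) (hb : 0 ≤ t - s + b) (hc : 0 ≤ s + 3 / 200 - t - b)
    (s1 : 57 / 100 ≤ s) (s2 : s ≤ 607 / 1000)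
    (b1 : 15 / 40 ≤ b) (b2 : b ≤ 1 / 2) (t1 : 0 ≤ t) (t2 : t ≤ 862 / 10000) :
    4 * ph (s - t) - 2 * ph s + dl s ≤ (G1 + G2 + G3 + G4) / 2 := by
  have e1 := up (t1 := (67 / 1000)) (t2 := (68 / 1000)) (x := 1 - h0) (by norm_num)
    (by linear_combination (1004489 / 1000000) * R.h2) (by linear_combination (62789 / 62500) * R.h1)
  have e2 := up (t1 := (229 / 1000)) (t2 := (252 / 1000)) (x := h0 + s - 1) (by norm_num)
    (by linear_combination (1052441 / 1000000) * s1 + (1052441 / 1000000) * R.h1) (by linear_combination (66469 / 62500) * s2 + (66469 / 62500) * R.h2)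
  have e3 := lo (t := (388 / 1000)) (x := s - t + b / 2 - k) (by norm_num)
    (by linear_combination s1 + (1 / 2) * b1 + t2 + R.k4) (by linear_combination s2 + (1 / 2) * b2 + t1 + R.k3)
  have e4 := lo (t := (52 / 1000)) (x := h0 + s - 1 - t - b / 2 - k) (by norm_num)
    (by linear_combination s1 + (1 / 2) * b2 + t2 + R.k4 + R.h1) (by linear_combination s2 + (1 / 2) * b1 + t1 + R.k3 + R.h2)
  have e5 := lo (t := (120 / 1000)) (x := s - t - b / 2 - k) (by norm_num)
    (by linear_combination s1 + (1 / 2) * b2 + t2 + R.k4) (by linear_combination s2 + (1 / 2) * b1 + t1 + R.k3)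
  have e6 := up (t1 := (258 / 1000)) (t2 := (339 / 1000)) (x := s - t) (by norm_num)
    (by linear_combination (266641 / 250000) * s1 + (266641 / 250000) * t2) (by linear_combination (1114921 / 1000000) * s2 + (1114921 / 1000000) * t1)
  have e7 := lo (t := (110 / 1000)) (x := h0 - 1 + t + b / 2 + k) (by norm_num)
    (by linear_combination (1 / 2) * b1 + t1 + R.k3 + R.h1) (by linear_combination (1 / 2) * b2 + t2 + R.k4 + R.h2)
  have e8 := lo (t := (182 / 1000)) (x := t + b / 2 + k) (by norm_num)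
    (by linear_combination (1 / 2) * b1 + t1 + R.k3) (by linear_combination (1 / 2) * b2 + t2 + R.k4)
  have e9 := up (t1 := (577 / 1000)) (t2 := (730 / 1000)) (x := h0 + t) (by norm_num)
    (by linear_combination (1332929 / 1000000) * t1 + (1332929 / 1000000) * R.h1) (by linear_combination (15329 / 10000) * t2 + (15329 / 10000) * R.h2)
  have e10 := lo (t := (325 / 1000)) (x := s) (by norm_num)
    (by linear_combination s1) (by linear_combination s2)
  have e11 := up (t1 := (194 / 1000)) (t2 := (268 / 1000)) (x := b) (by norm_num)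
    (by linear_combination (259409 / 250000) * b1) (by linear_combination (66989 / 62500) * b2)
  have c1 := R.ph1
  have c2 := R.qhh
  have c3 := R.rh1
  have c4 := R.syv (by linear_combination (250 / 231) * e11 + (3694907 / 231) * R.k1 + (3695138 / 231) * R.k2 + t2) (by linear_combination (433015 / 237002) * e11 + 2 * R.k2 + (43705493 / 23700200) * b2 + t2 + R.h1)
  unfold dl
  linear_combination (7724669611038094039786375 / 2589606575472639199308384) * e11 + (3200 / 1431) * e10 + (50000 / 57879) * e9 + (125000 / 241719) * e8 + (5000 / 9879) * e7 + (2000000 / 456269) * e6 + (625 / 1232) * e5 + (31250 / 62331) * e4 + (31250 / 17697) * e3 + (125000 / 235573) * e2 + (375000 / 248861) * e1 + (74795327485202891675 / 60095847989044462056) * R.k2 + (172810324577281168061833 / 406033647205476367206360) * s1 + (70190448450880459663486885447 / 356070904127487889904902800000) * b2 + (11695826521478774858653687975 / 48091963589884039136590557432)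 * t1 + (18168683153722850583500 / 17858072912211148673439) * R.h2 + (1 / 2) * R.h3 + (1 / 2) * c1 + (1 / 2) * c2 + (1 / 2) * c3 + (1 / 2) * c4

theorem ra4 {s b t k G1 G2 G3 G4 : ℝ} (R : RegA s b t k G1 G2 G3 G4) (hT : t ≤ 284 / 1000 * s) (hy : 0 ≤ 1 / 2 - s + t) (hb : 0 ≤ t - s + b) (hc : 0 ≤ s + 3 / 200 - t - b)
    (s1 : 57 / 100 ≤ s) (s2 : s ≤ 607 / 1000)
    (b1 : 15 / 40 ≤ b) (b2 : b ≤ 875 / 2000) (t1 : 862 / 10000 ≤ t) (t2 : t ≤ 1294 / 10000) :
    4 * ph (s - t) - 2 * ph s + dl s ≤ (G1 + G2 + G3 + G4) / 2 := by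
  exfalso
  exact absurd b2 (not_le.mpr (by linear_combination s1 + t2 + hb))

theorem ra5 {s b t k G1 G2 G3 G4 : ℝ} (R : RegA s b t k G1 G2 G3 G4) (hT : t ≤ 284 / 1000 * s) (hy : 0 ≤ 1 / 2 - s + t) (hb : 0 ≤ t - s + b) (hc : 0 ≤ s + 3 / 200 - t - b)
    (s1 : 57 / 100 ≤ s) (s2 : s ≤ 607 / 1000)
    (b1 : 875 / 2000 ≤ b) (b2 : b ≤ 1 / 2) (t1 : 862 / 10000 ≤ t) (t2 : t ≤ 1294 / 10000) :
    4 * ph (s - t) - 2 * ph s + dl s ≤ (G1 + G2 + G3 + G4) / 2 := by
  have e1 := up (t1 := (67 / 1000)) (t2 := (68 / 1000)) (x := 1 - h0) (by norm_num)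
    (by linear_combination (1004489 / 1000000) * R.h2) (by linear_combination (62789 / 62500) * R.h1)
  have e2 := up (t1 := (229 / 1000)) (t2 := (252 / 1000)) (x := h0 + s - 1) (by norm_num)
    (by linear_combination (1052441 / 1000000) * s1 + (1052441 / 1000000) * R.h1) (by linear_combination (66469 / 62500) * s2 + (66469 / 62500) * R.h2)
  have e3 := lo (t := (343 / 1000)) (x := s - t + b / 2 - k) (by norm_num)
    (by linear_combination s1 + (1 / 2) * b1 + t2 + R.k4) (by linear_combination s2 + (1 / 2) * b2 + t1 + R.k3)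
  have e4 := lo (t := (5 / 1000)) (x := h0 + s - 1 - t - b / 2 - k) (by norm_num)
    (by linear_combination s1 + (1 / 2) * b2 + t2 + R.k4 + R.h1) (by linear_combination s2 + (1 / 2) * b1 + t1 + R.k3 + R.h2)
  have e5 := up (t1 := (232 / 1000)) (t2 := (281 / 1000)) (x := s - t) (by norm_num)
    (by linear_combination (16466 / 15625) * s1 + (16466 / 15625) * t2) (by linear_combination (1078961 / 1000000) * s2 + (1078961 / 1000000) * t1)
  have e6 := lo (t := (159 / 1000)) (x := h0 - 1 + t + b / 2 + k) (by norm_num)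
    (by linear_combination (1 / 2) * b1 + t1 + R.k3 + R.h1) (by linear_combination (1 / 2) * b2 + t2 + R.k4 + R.h2)
  have e7 := lo (t := (234 / 1000)) (x := t + b / 2 + k) (by norm_num)
    (by linear_combination (1 / 2) * b1 + t1 + R.k3) (by linear_combination (1 / 2) * b2 + t2 + R.k4)
  have e8 := up (t1 := (729 / 1000)) (t2 := (909 / 1000)) (x := h0 + t) (by norm_num)
    (by linear_combination (1531441 / 1000000) * t1 + (1531441 / 1000000) * R.h1) (by linear_combination (1826281 / 1000000) * t2 + (1826281 / 1000000) * R.h2)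
  have e9 := lo (t := (325 / 1000)) (x := s) (by norm_num)
    (by linear_combination s1) (by linear_combination s2)
  have e10 := up (t1 := (230 / 1000)) (t2 := (268 / 1000)) (x := b) (by norm_num)
    (by linear_combination (10529 / 10000) * b1) (by linear_combination (66989 / 62500) * b2)
  have c1 := R.ph1
  have c2 := R.qh1
  have c3 := R.rh1
  have c4 := R.syv (by linear_combination (86603 / 93836) * e10 + R.k2 + (1894853 / 46918000) * b1 + t2) (by linear_combination (86603 / 46918) * e10 + 2 * R.k2 + (45023147 / 23459000) * b2 + t2 + R.h1)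
  unfold dl
  linear_combination (18162742629852683156421475 / 7063169312415650873142097) * e10 + (3200 / 1431) * e9 + (500000 / 337339) * e8 + (125000 / 236311) * e7 + (500000 / 974719) * e6 + (500000 / 116851) * e5 + (40000 / 39999) * e4 + (500000 / 294117) * e3 + (125000 / 235573) * e2 + (250000 / 248861) * e1 + (230488250332738060300 / 301085694719112105083) * R.k2 + (18987987107637787812311 / 39607823627012821224870) * s1 + (135914593274001616253345538409 / 2118950793724695261942629100000) * b2 + (11847492216470549078316900473200 / 11868316194861058601537441502587) * t2 + (140822424939780763035095725 / 59310846311407354561203879) * R.h2 + (1 / 2) * R.h3 + (1 / 2) * c1 + (1 / 2) * c2 + (1 / 2) * c3 + (1 / 2) * c4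

theorem ra7 {s b t k G1 G2 G3 G4 : ℝ} (R : RegA s b t k G1 G2 G3 G4) (hT : t ≤ 284 / 1000 * s) (hy : 0 ≤ 1 / 2 - s + t) (hb : 0 ≤ t - s + b) (hc : 0 ≤ s + 3 / 200 - t - b)
    (s1 : 57 / 100 ≤ s) (s2 : s ≤ 607 / 1000)
    (b1 : 15 / 40 ≤ b) (b2 : b ≤ 875 / 2000) (t1 : 1294 / 10000 ≤ t) (t2 : t ≤ 345 / 2000) :
    4 * ph (s - t) - 2 * ph s + dl s ≤ (G1 + G2 + G3 + G4) / 2 := by
  have e1 := up (t1 := (67 / 1000)) (t2 := (68 / 1000)) (x := 1 - h0) (by norm_num)
    (by linear_combination (1004489 / 1000000) * R.h2) (by linear_combination (62789 / 62500) * R.h1)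
  have e2 := up (t1 := (229 / 1000)) (t2 := (252 / 1000)) (x := h0 + s - 1) (by norm_num)
    (by linear_combination (1052441 / 1000000) * s1 + (1052441 / 1000000) * R.h1) (by linear_combination (66469 / 62500) * s2 + (66469 / 62500) * R.h2)
  have e3 := lo (t := (310 / 1000)) (x := s - t + b / 2 - k) (by norm_num)
    (by linear_combination s1 + (1 / 2) * b1 + t2 + R.k4) (by linear_combination s2 + (1 / 2) * b2 + t1 + R.k3)
  have e4 := lo (t := (13 / 1000)) (x := h0 + s - 1 - t - b / 2 - k) (by norm_num)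
    (by linear_combination s1 + (1 / 2) * b2 + t2 + R.k4 + R.h1) (by linear_combination s2 + (1 / 2) * b1 + t1 + R.k3 + R.h2)
  have e5 := lo (t := (80 / 1000)) (x := s - t - b / 2 - k) (by norm_num)
    (by linear_combination s1 + (1 / 2) * b2 + t2 + R.k4) (by linear_combination s2 + (1 / 2) * b1 + t1 + R.k3)
  have e6 := up (t1 := (207 / 1000)) (t2 := (255 / 1000)) (x := s - t) (by norm_num)
    (by linear_combination (1042849 / 1000000) * s1 + (1042849 / 1000000) * t2) (by linear_combination (42601 / 40000) * s2 + (42601 / 40000) * t1)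
  have e7 := lo (t := (151 / 1000)) (x := h0 - 1 + t + b / 2 + k) (by norm_num)
    (by linear_combination (1 / 2) * b1 + t1 + R.k3 + R.h1) (by linear_combination (1 / 2) * b2 + t2 + R.k4 + R.h2)
  have e8 := lo (t := (325 / 1000)) (x := s) (by norm_num)
    (by linear_combination s1) (by linear_combination s2)
  have e9 := up (t1 := (194 / 1000)) (t2 := (231 / 1000)) (x := b) (by norm_num)
    (by linear_combination (259409 / 250000) * b1) (by linear_combination (1053361 / 1000000) * b2)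
  have c1 := R.ph1
  have c2 := R.qhh
  have c3 := R.rh1
  unfold dl
  linear_combination (10324816441820554763750 / 4217819118824697724863) * e9 + (3200 / 1431) * e8 + (500000 / 977199) * e7 + (800000 / 189443) * e6 + (625 / 1242) * e5 + (500000 / 999831) * e4 + (5000 / 3013) * e3 + (125000 / 235573) * e2 + (375000 / 248861) * e1 + (8547647752084250 / 8831409000602391) * R.k2 + (3670701886690049737081 / 5481031805419344370770) * s1 + (928705437011625236275 / 1874586275033198988828) * b2 + (1644796733524547140850 / 1673048615301118758213) * t1 + (56653646999129445500 / 489560201370500394421) * R.h1 + (1 / 2) * c1 + (1 / 2) * c2 + (1 / 2) * c3 + (1 / 2) * R.n4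

theorem ra13 {s b t k G1 G2 G3 G4 : ℝ} (R : RegA s b t k G1 G2 G3 G4) (hT : t ≤ 284 / 1000 * s) (hy : 0 ≤ 1 / 2 - s + t) (hb : 0 ≤ t - s + b) (hc : 0 ≤ s + 3 / 200 - t - b)
    (s1 : 57 / 100 ≤ s) (s2 : s ≤ 1177 / 2000)
    (b1 : 875 / 2000 ≤ b) (b2 : b ≤ 4532 / 10000) (t1 : 1294 / 10000 ≤ t) (t2 : t ≤ 1402 / 10000) :
    4 * ph (s - t) - 2 * ph s + dl s ≤ (G1 + G2 + G3 + G4) / 2 := by
  have e1 := up (t1 := (67 / 1000)) (t2 := (68 / 1000)) (x := 1 - h0) (by norm_num)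
    (by linear_combination (1004489 / 1000000) * R.h2) (by linear_combination (62789 / 62500) * R.h1)
  have e2 := up (t1 := (229 / 1000)) (t2 := (241 / 1000)) (x := h0 + s - 1) (by norm_num)
    (by linear_combination (1052441 / 1000000) * s1 + (1052441 / 1000000) * R.h1) (by linear_combination (1058081 / 1000000) * s2 + (1058081 / 1000000) * R.h2)
  have e3 := lo (t := (317 / 1000)) (x := s - t + b / 2 - k) (by norm_num)
    (by linear_combination s1 + (1 / 2) * b1 + t2 + R.k4) (by linear_combination s2 + (1 / 2) * b2 + t1 + R.k3)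
  have e4 := lo (t := (-1 / 1000)) (x := h0 + s - 1 - t - b / 2 - k) (by norm_num)
    (by linear_combination s1 + (1 / 2) * b2 + t2 + R.k4 + R.h1) (by linear_combination s2 + (1 / 2) * b1 + t1 + R.k3 + R.h2)
  have e5 := up (t1 := (225 / 1000)) (t2 := (244 / 1000)) (x := s - t) (by norm_num)
    (by linear_combination (1681 / 1600) * s1 + (1681 / 1600) * t2) (by linear_combination (66221 / 62500) * s2 + (66221 / 62500) * t1)
  have e6 := lo (t := (161 / 1000)) (x := h0 - 1 + t + b / 2 + k) (by norm_num)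
    (by linear_combination (1 / 2) * b1 + t1 + R.k3 + R.h1) (by linear_combination (1 / 2) * b2 + t2 + R.k4 + R.h2)
  have e7 := lo (t := (319 / 1000)) (x := s) (by norm_num)
    (by linear_combination s1) (by linear_combination s2)
  have e8 := up (t1 := (230 / 1000)) (t2 := (240 / 1000)) (x := b) (by norm_num)
    (by linear_combination (10529 / 10000) * b1) (by linear_combination (661 / 625) * b2)
  have c1 := R.ph1
  have c2 := R.qh1
  have c3 := R.rh1
  unfold dl
  linear_combination (2791244557906678525 / 1161374854012075521) * e8 + (2000000 / 898239) * e7 + (500000 / 974079) * e6 + (40000 / 9451) * e5 + (1000000 / 999999) * e4 + (500000 / 299837) * e3 + (500000 / 944811) * e2 + (250000 / 248861) * e1 + (9626847986684000 / 10817208631780551) * R.k2 + (1768680701059801298934061 / 3262668800386686071250870) * s1 + (2937334479072648433 / 5677832619614591436) * b2 + (8611345662311742520 / 7864110675304460577) * t1 + (2251952346148120750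 / 44881768444889673297) * R.h1 + (1 / 2) * c1 + (1 / 2) * c2 + (1 / 2) * c3 + (1 / 2) * R.n4

theorem ra16 {s b t k G1 G2 G3 G4 : ℝ} (R : RegA s b t k G1 G2 G3 G4) (hT : t ≤ 284 / 1000 * s) (hy : 0 ≤ 1 / 2 - s + t) (hb : 0 ≤ t - s + b) (hc : 0 ≤ s + 3 / 200 - t - b)
    (s1 : 57 / 100 ≤ s) (s2 : s ≤ 1177 / 2000)
    (b1 : 4532 / 10000 ≤ b) (b2 : b ≤ 4688 / 10000) (t1 : 1294 / 10000 ≤ t) (t2 : t ≤ 1321 / 10000) :
    4 * ph (s - t) - 2 * ph s + dl s ≤ (G1 + G2 + G3 + G4) / 2 := by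
  have e1 := up (t1 := (67 / 1000)) (t2 := (68 / 1000)) (x := 1 - h0) (by norm_num)
    (by linear_combination (1004489 / 1000000) * R.h2) (by linear_combination (62789 / 62500) * R.h1)
  have e2 := up (t1 := (229 / 1000)) (t2 := (241 / 1000)) (x := h0 + s - 1) (by norm_num)
    (by linear_combination (1052441 / 1000000) * s1 + (1052441 / 1000000) * R.h1) (by linear_combination (1058081 / 1000000) * s2 + (1058081 / 1000000) * R.h2)
  have e3 := lo (t := (321 / 1000)) (x := s - t + b / 2 - k) (by norm_num)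
    (by linear_combination s1 + (1 / 2) * b1 + t2 + R.k4) (by linear_combination s2 + (1 / 2) * b2 + t1 + R.k3)
  have e4 := lo (t := (-7 / 1000)) (x := h0 + s - 1 - t - b / 2 - k) (by norm_num)
    (by linear_combination s1 + (1 / 2) * b2 + t2 + R.k4 + R.h1) (by linear_combination s2 + (1 / 2) * b1 + t1 + R.k3 + R.h2)
  have e5 := up (t1 := (230 / 1000)) (t2 := (244 / 1000)) (x := s - t) (by norm_num)
    (by linear_combination (10529 / 10000) * s1 + (10529 / 10000) * t2) (by linear_combination (66221 / 62500) * s2 + (66221 / 62500) * t1)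
  have e6 := lo (t := (167 / 1000)) (x := h0 - 1 + t + b / 2 + k) (by norm_num)
    (by linear_combination (1 / 2) * b1 + t1 + R.k3 + R.h1) (by linear_combination (1 / 2) * b2 + t2 + R.k4 + R.h2)
  have e7 := lo (t := (243 / 1000)) (x := t + b / 2 + k) (by norm_num)
    (by linear_combination (1 / 2) * b1 + t1 + R.k3) (by linear_combination (1 / 2) * b2 + t2 + R.k4)
  have e8 := up (t1 := (908 / 1000)) (t2 := (941 / 1000)) (x := h0 + t) (by norm_num)
    (by linear_combination (114029 / 62500) * t1 + (114029 / 62500) * R.h1) (by linear_combination (1885481 / 1000000) * t2 + (1885481 / 1000000) * R.h2)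
  have e9 := lo (t := (319 / 1000)) (x := s) (by norm_num)
    (by linear_combination s1) (by linear_combination s2)
  have e10 := up (t1 := (239 / 1000)) (t2 := (249 / 1000)) (x := b) (by norm_num)
    (by linear_combination (1057121 / 1000000) * b1) (by linear_combination (1062001 / 1000000) * b2)
  have c1 := R.ph1
  have c2 := R.qh1
  have c3 := R.rh1
  have c4 := R.syv (by linear_combination (78730 / 85499) * e10 + R.k2 + (216463 / 4274950) * b1 + t2) (by linear_combination (157460 / 85499) * e10 + 2 * R.k2 + (4058487 / 2137475) * b2 + t2 + R.h1)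
  unfold dl
  linear_combination (1552076730728077435445747123 / 635496918601054146611682400) * e10 + (2000000 / 898239) * e9 + (125000 / 36393) * e8 + (500000 / 940951) * e7 + (500000 / 972111) * e6 + (100000 / 23597) * e5 + (1000000 / 999951) * e4 + (1500000 / 896959) * e3 + (500000 / 944811) * e2 + (250000 / 248861) * e1 + (99329080229727441412877269377 / 577724471455503769646984000) * R.k1 + (1096620885551970356179721963147 / 6354969186010541466116824000) * R.k2 + (212902924852428082010644811 / 407292452601313609909529370) * s1 + (1134681899805753275526529985975 / 228229719783381028550353998867) * t2 + (39647622580747977629364875 / 6287157971670873494122821) * R.h2 + (1 / 2) * R.h3 + (1 / 2) * c1 + (1 / 2) * c2 + (1 / 2) * c3 + (1 / 2) * c4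

theorem ra19 {s b t k G1 G2 G3 G4 : ℝ} (R : RegA s b t k G1 G2 G3 G4) (hT : t ≤ 284 / 1000 * s) (hy : 0 ≤ 1 / 2 - s + t) (hb : 0 ≤ t - s + b) (hc : 0 ≤ s + 3 / 200 - t - b)
    (s1 : 57 / 100 ≤ s) (s2 : s ≤ 5793 / 10000)
    (b1 : 4532 / 10000 ≤ b) (b2 : b ≤ 461 / 1000) (t1 : 1321 / 10000 ≤ t) (t2 : t ≤ 1348 / 10000) :
    4 * ph (s - t) - 2 * ph s + dl s ≤ (G1 + G2 + G3 + G4) / 2 := by
  have e1 := up (t1 := (67 / 1000)) (t2 := (68 / 1000)) (x := 1 - h0) (by norm_num)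
    (by linear_combination (1004489 / 1000000) * R.h2) (by linear_combination (62789 / 62500) * R.h1)
  have e2 := up (t1 := (229 / 1000)) (t2 := (235 / 1000)) (x := h0 + s - 1) (by norm_num)
    (by linear_combination (1052441 / 1000000) * s1 + (1052441 / 1000000) * R.h1) (by linear_combination (42209 / 40000) * s2 + (42209 / 40000) * R.h2)
  have e3 := lo (t := (316 / 1000)) (x := s - t + b / 2 - k) (by norm_num)
    (by linear_combination s1 + (1 / 2) * b1 + t2 + R.k4) (by linear_combination s2 + (1 / 2) * b2 + t1 + R.k3)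
  have e4 := lo (t := (-9 / 1000)) (x := h0 + s - 1 - t - b / 2 - k) (by norm_num)
    (by linear_combination s1 + (1 / 2) * b2 + t2 + R.k4 + R.h1) (by linear_combination s2 + (1 / 2) * b1 + t1 + R.k3 + R.h2)
  have e5 := up (t1 := (229 / 1000)) (t2 := (237 / 1000)) (x := s - t) (by norm_num)
    (by linear_combination (1052441 / 1000000) * s1 + (1052441 / 1000000) * t2) (by linear_combination (1056169 / 1000000) * s2 + (1056169 / 1000000) * t1)
  have e6 := lo (t := (166 / 1000)) (x := h0 - 1 + t + b / 2 + k) (by norm_num)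
    (by linear_combination (1 / 2) * b1 + t1 + R.k3 + R.h1) (by linear_combination (1 / 2) * b2 + t2 + R.k4 + R.h2)
  have e7 := lo (t := (316 / 1000)) (x := s) (by norm_num)
    (by linear_combination s1) (by linear_combination s2)
  have e8 := up (t1 := (239 / 1000)) (t2 := (245 / 1000)) (x := b) (by norm_num)
    (by linear_combination (1057121 / 1000000) * b1) (by linear_combination (42401 / 40000) * b2)
  have c1 := R.ph1
  have c2 := R.qh1
  have c3 := R.rh1
  unfold dl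
  linear_combination (62126613618219071500 / 26010649273178178441) * e8 + (125000 / 56259) * e7 + (125000 / 243111) * e6 + (4000000 / 945727) * e5 + (1000000 / 999919) * e4 + (31250 / 18753) * e3 + (100000 / 189237) * e2 + (250000 / 248861) * e1 + (1313601260297750 / 1519563766364259) * R.k2 + (2508370130499140766397 / 4794125259007426572990) * s1 + (153101914403264738291 / 286117142004959962851) * b2 + (1590158681405368561750 / 1437092482072371571293) * t1 + (164566618922063064550 / 3816023777887139979171) * R.h1 + (1 / 2) * c1 + (1 / 2) * c2 + (1 / 2) * c3 + (1 / 2) * R.n4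

theorem ra21 {s b t k G1 G2 G3 G4 : ℝ} (R : RegA s b t k G1 G2 G3 G4) (hT : t ≤ 284 / 1000 * s) (hy : 0 ≤ 1 / 2 - s + t) (hb : 0 ≤ t - s + b) (hc : 0 ≤ s + 3 / 200 - t - b)
    (s1 : 57 / 100 ≤ s) (s2 : s ≤ 5747 / 10000)
    (b1 : 461 / 1000 ≤ b) (b2 : b ≤ 4688 / 10000) (t1 : 1321 / 10000 ≤ t) (t2 : t ≤ 1348 / 10000) :
    4 * ph (s - t) - 2 * ph s + dl s ≤ (G1 + G2 + G3 + G4) / 2 := by
  exfalso
  exact absurd b1 (not_le.mpr (by linear_combination s2 + t1 + hc))

theorem ra23 {s b t k G1 G2 G3 G4 : ℝ} (R : RegA s b t k G1 G2 G3 G4) (hT : t ≤ 284 / 1000 * s) (hy : 0 ≤ 1 / 2 - s + t) (hb : 0 ≤ t - s + b) (hc : 0 ≤ s + 3 / 200 - t - b)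
    (s1 : 5747 / 10000 ≤ s) (s2 : s ≤ 5793 / 10000)
    (b1 : 461 / 1000 ≤ b) (b2 : b ≤ 4649 / 10000) (t1 : 1321 / 10000 ≤ t) (t2 : t ≤ 1348 / 10000) :
    4 * ph (s - t) - 2 * ph s + dl s ≤ (G1 + G2 + G3 + G4) / 2 := by
  have e1 := up (t1 := (67 / 1000)) (t2 := (68 / 1000)) (x := 1 - h0) (by norm_num)
    (by linear_combination (1004489 / 1000000) * R.h2) (by linear_combination (62789 / 62500) * R.h1)
  have e2 := up (t1 := (232 / 1000)) (t2 := (235 / 1000)) (x := h0 + s - 1) (by norm_num)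
    (by linear_combination (16466 / 15625) * s1 + (16466 / 15625) * R.h1) (by linear_combination (42209 / 40000) * s2 + (42209 / 40000) * R.h2)
  have e3 := lo (t := (317 / 1000)) (x := s - t + b / 2 - k) (by norm_num)
    (by linear_combination s1 + (1 / 2) * b1 + t2 + R.k4) (by linear_combination s2 + (1 / 2) * b2 + t1 + R.k3)
  have e4 := lo (t := (-10 / 1000)) (x := h0 + s - 1 - t - b / 2 - k) (by norm_num)
    (by linear_combination s1 + (1 / 2) * b2 + t2 + R.k4 + R.h1) (by linear_combination s2 + (1 / 2) * b1 + t1 + R.k3 + R.h2)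
  have e5 := up (t1 := (231 / 1000)) (t2 := (237 / 1000)) (x := s - t) (by norm_num)
    (by linear_combination (1053361 / 1000000) * s1 + (1053361 / 1000000) * t2) (by linear_combination (1056169 / 1000000) * s2 + (1056169 / 1000000) * t1)
  have e6 := lo (t := (169 / 1000)) (x := h0 - 1 + t + b / 2 + k) (by norm_num)
    (by linear_combination (1 / 2) * b1 + t1 + R.k3 + R.h1) (by linear_combination (1 / 2) * b2 + t2 + R.k4 + R.h2)
  have e7 := lo (t := (318 / 1000)) (x := s) (by norm_num)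
    (by linear_combination s1) (by linear_combination s2)
  have e8 := up (t1 := (244 / 1000)) (t2 := (247 / 1000)) (x := b) (by norm_num)
    (by linear_combination (66221 / 62500) * b1) (by linear_combination (1061009 / 1000000) * b2)
  have c1 := R.ph1
  have c2 := R.qh1
  have c3 := R.rh1
  unfold dl
  linear_combination (49591347217961393500 / 20734206133929966657) * e8 + (500000 / 224719) * e7 + (500000 / 971439) * e6 + (4000000 / 945253) * e5 + (10000 / 9999) * e4 + (500000 / 299837) * e3 + (12500 / 23637) * e2 + (250000 / 248861) * e1 + (838075051733800 / 970814093691519) * R.k2 + (1197287757058041542869436 / 2280752029185106329938745) * s1 + (250314010507477193987 / 456152534946459266454) * b2 + (1025171026513993916600 / 917664934504189409307) * t1 + (541156844751729125 / 12697224156156384306) * R.h1 + (1 / 2) * c1 + (1 / 2) * c2 + (1 / 2) * c3 + (1 / 2) * R.n4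

theorem ra24 {s b t k G1 G2 G3 G4 : ℝ} (R : RegA s b t k G1 G2 G3 G4) (hT : t ≤ 284 / 1000 * s) (hy : 0 ≤ 1 / 2 - s + t) (hb : 0 ≤ t - s + b) (hc : 0 ≤ s + 3 / 200 - t - b)
    (s1 : 5747 / 10000 ≤ s) (s2 : s ≤ 5793 / 10000)
    (b1 : 4649 / 10000 ≤ b) (b2 : b ≤ 4688 / 10000) (t1 : 1321 / 10000 ≤ t) (t2 : t ≤ 1348 / 10000) :
    4 * ph (s - t) - 2 * ph s + dl s ≤ (G1 + G2 + G3 + G4) / 2 := by
  exfalso
  exact absurd b1 (not_le.mpr (by linear_combination s2 + t1 + hc))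

theorem ra25 {s b t k G1 G2 G3 G4 : ℝ} (R : RegA s b t k G1 G2 G3 G4) (hT : t ≤ 284 / 1000 * s) (hy : 0 ≤ 1 / 2 - s + t) (hb : 0 ≤ t - s + b) (hc : 0 ≤ s + 3 / 200 - t - b)
    (s1 : 5793 / 10000 ≤ s) (s2 : s ≤ 1177 / 2000)
    (b1 : 4532 / 10000 ≤ b) (b2 : b ≤ 4688 / 10000) (t1 : 1321 / 10000 ≤ t) (t2 : t ≤ 1348 / 10000) :
    4 * ph (s - t) - 2 * ph s + dl s ≤ (G1 + G2 + G3 + G4) / 2 := by
  have e1 := up (t1 := (67 / 1000)) (t2 := (68 / 1000)) (x := 1 - h0) (by norm_num)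
    (by linear_combination (1004489 / 1000000) * R.h2) (by linear_combination (62789 / 62500) * R.h1)
  have e2 := up (t1 := (234 / 1000)) (t2 := (241 / 1000)) (x := h0 + s - 1) (by norm_num)
    (by linear_combination (263689 / 250000) * s1 + (263689 / 250000) * R.h1) (by linear_combination (1058081 / 1000000) * s2 + (1058081 / 1000000) * R.h2)
  have e3 := lo (t := (322 / 1000)) (x := s - t + b / 2 - k) (by norm_num)
    (by linear_combination s1 + (1 / 2) * b1 + t2 + R.k4) (by linear_combination s2 + (1 / 2) * b2 + t1 + R.k3)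
  have e4 := lo (t := (-6 / 1000)) (x := h0 + s - 1 - t - b / 2 - k) (by norm_num)
    (by linear_combination s1 + (1 / 2) * b2 + t2 + R.k4 + R.h1) (by linear_combination s2 + (1 / 2) * b1 + t1 + R.k3 + R.h2)
  have e5 := up (t1 := (234 / 1000)) (t2 := (242 / 1000)) (x := s - t) (by norm_num)
    (by linear_combination (263689 / 250000) * s1 + (263689 / 250000) * t2) (by linear_combination (264641 / 250000) * s2 + (264641 / 250000) * t1)
  have e6 := lo (t := (168 / 1000)) (x := h0 - 1 + t + b / 2 + k) (by norm_num)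
    (by linear_combination (1 / 2) * b1 + t1 + R.k3 + R.h1) (by linear_combination (1 / 2) * b2 + t2 + R.k4 + R.h2)
  have e7 := lo (t := (322 / 1000)) (x := s) (by norm_num)
    (by linear_combination s1) (by linear_combination s2)
  have e8 := up (t1 := (239 / 1000)) (t2 := (249 / 1000)) (x := b) (by norm_num)
    (by linear_combination (1057121 / 1000000) * b1) (by linear_combination (1062001 / 1000000) * b2)
  have c1 := R.ph1
  have c2 := R.qh1
  have c3 := R.rh1
  unfold dl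
  linear_combination (322260658824227546875 / 133325799474968444344) * e8 + (500000 / 224079) * e7 + (15625 / 30368) * e6 + (1000000 / 235843) * e5 + (250000 / 249991) * e4 + (125000 / 74693) * e3 + (250000 / 471803) * e2 + (250000 / 248861) * e1 + (253149067028125 / 283524420753392) * R.k2 + (33207345028699285006943 / 62331735645370406514810) * s1 + (292371915918936648625 / 533303197899873777376) * b2 + (75254188863500507625 / 66867249963742229456) * t1 + (19967920672518015625 / 445685093548871564752) * R.h1 + (1 / 2) * c1 + (1 / 2) * c2 + (1 / 2) * c3 + (1 / 2) * R.n4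

theorem ra28 {s b t k G1 G2 G3 G4 : ℝ} (R : RegA s b t k G1 G2 G3 G4) (hT : t ≤ 284 / 1000 * s) (hy : 0 ≤ 1 / 2 - s + t) (hb : 0 ≤ t - s + b) (hc : 0 ≤ s + 3 / 200 - t - b)
    (s1 : 57 / 100 ≤ s) (s2 : s ≤ 5793 / 10000)
    (b1 : 4532 / 10000 ≤ b) (b2 : b ≤ 461 / 1000) (t1 : 1348 / 10000 ≤ t) (t2 : t ≤ 1402 / 10000) :
    4 * ph (s - t) - 2 * ph s + dl s ≤ (G1 + G2 + G3 + G4) / 2 := by
  have e1 := up (t1 := (67 / 1000)) (t2 := (68 / 1000)) (x := 1 - h0) (by norm_num)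
    (by linear_combination (1004489 / 1000000) * R.h2) (by linear_combination (62789 / 62500) * R.h1)
  have e2 := up (t1 := (229 / 1000)) (t2 := (235 / 1000)) (x := h0 + s - 1) (by norm_num)
    (by linear_combination (1052441 / 1000000) * s1 + (1052441 / 1000000) * R.h1) (by linear_combination (42209 / 40000) * s2 + (42209 / 40000) * R.h2)
  have e3 := lo (t := (313 / 1000)) (x := s - t + b / 2 - k) (by norm_num)
    (by linear_combination s1 + (1 / 2) * b1 + t2 + R.k4) (by linear_combination s2 + (1 / 2) * b2 + t1 + R.k3)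
  have e4 := lo (t := (-11 / 1000)) (x := h0 + s - 1 - t - b / 2 - k) (by norm_num)
    (by linear_combination s1 + (1 / 2) * b2 + t2 + R.k4 + R.h1) (by linear_combination s2 + (1 / 2) * b1 + t1 + R.k3 + R.h2)
  have e5 := up (t1 := (225 / 1000)) (t2 := (235 / 1000)) (x := s - t) (by norm_num)
    (by linear_combination (1681 / 1600) * s1 + (1681 / 1600) * t2) (by linear_combination (42209 / 40000) * s2 + (42209 / 40000) * t1)
  have e6 := lo (t := (169 / 1000)) (x := h0 - 1 + t + b / 2 + k) (by norm_num)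
    (by linear_combination (1 / 2) * b1 + t1 + R.k3 + R.h1) (by linear_combination (1 / 2) * b2 + t2 + R.k4 + R.h2)
  have e7 := lo (t := (316 / 1000)) (x := s) (by norm_num)
    (by linear_combination s1) (by linear_combination s2)
  have e8 := up (t1 := (239 / 1000)) (t2 := (245 / 1000)) (x := b) (by norm_num)
    (by linear_combination (1057121 / 1000000) * b1) (by linear_combination (42401 / 40000) * b2)
  have c1 := R.ph1
  have c2 := R.qh1
  have c3 := R.rh1
  unfold dl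
  linear_combination (43453869557928732220000 / 18330186544496266780431) * e8 + (125000 / 56259) * e7 + (500000 / 971439) * e6 + (32000 / 7577) * e5 + (1000000 / 999879) * e4 + (500000 / 300677) * e3 + (100000 / 189237) * e2 + (250000 / 248861) * e1 + (82263128407420000 / 97351340463310479) * R.k2 + (14423987508320921928960551 / 26946384115297389473719170) * s1 + (106536920514188220280 / 201430621368090843741) * b2 + (809704007676908910880 / 737631106690503499383) * t1 + (215443813761119144150 / 5082570004897941734913) * R.h1 + (1 / 2) * c1 + (1 / 2) * c2 + (1 / 2) * c3 + (1 / 2) * R.n4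

theorem ra29 {s b t k G1 G2 G3 G4 : ℝ} (R : RegA s b t k G1 G2 G3 G4) (hT : t ≤ 284 / 1000 * s) (hy : 0 ≤ 1 / 2 - s + t) (hb : 0 ≤ t - s + b) (hc : 0 ≤ s + 3 / 200 - t - b)
    (s1 : 57 / 100 ≤ s) (s2 : s ≤ 5793 / 10000)
    (b1 : 461 / 1000 ≤ b) (b2 : b ≤ 4688 / 10000) (t1 : 1348 / 10000 ≤ t) (t2 : t ≤ 1402 / 10000) :
    4 * ph (s - t) - 2 * ph s + dl s ≤ (G1 + G2 + G3 + G4) / 2 := by
  exfalso
  exact absurd b1 (not_le.mpr (by linear_combination s2 + t1 + hc))

theorem ra30 {s b t k G1 G2 G3 G4 : ℝ} (R : RegA s b t k G1 G2 G3 G4) (hT : t ≤ 284 / 1000 * s) (hy : 0 ≤ 1 / 2 - s + t) (hb : 0 ≤ t - s + b) (hc : 0 ≤ s + 3 / 200 - t - b)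
    (s1 : 5793 / 10000 ≤ s) (s2 : s ≤ 1177 / 2000)
    (b1 : 4532 / 10000 ≤ b) (b2 : b ≤ 4688 / 10000) (t1 : 1348 / 10000 ≤ t) (t2 : t ≤ 1402 / 10000) :
    4 * ph (s - t) - 2 * ph s + dl s ≤ (G1 + G2 + G3 + G4) / 2 := by
  have e1 := up (t1 := (67 / 1000)) (t2 := (68 / 1000)) (x := 1 - h0) (by norm_num)
    (by linear_combination (1004489 / 1000000) * R.h2) (by linear_combination (62789 / 62500) * R.h1)
  have e2 := up (t1 := (234 / 1000)) (t2 := (241 / 1000)) (x := h0 + s - 1) (by norm_num)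
    (by linear_combination (263689 / 250000) * s1 + (263689 / 250000) * R.h1) (by linear_combination (1058081 / 1000000) * s2 + (1058081 / 1000000) * R.h2)
  have e3 := lo (t := (319 / 1000)) (x := s - t + b / 2 - k) (by norm_num)
    (by linear_combination s1 + (1 / 2) * b1 + t2 + R.k4) (by linear_combination s2 + (1 / 2) * b2 + t1 + R.k3)
  have e4 := lo (t := (-8 / 1000)) (x := h0 + s - 1 - t - b / 2 - k) (by norm_num)
    (by linear_combination s1 + (1 / 2) * b2 + t2 + R.k4 + R.h1) (by linear_combination s2 + (1 / 2) * b1 + t1 + R.k3 + R.h2)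
  have e5 := up (t1 := (231 / 1000)) (t2 := (240 / 1000)) (x := s - t) (by norm_num)
    (by linear_combination (1053361 / 1000000) * s1 + (1053361 / 1000000) * t2) (by linear_combination (661 / 625) * s2 + (661 / 625) * t1)
  have e6 := lo (t := (171 / 1000)) (x := h0 - 1 + t + b / 2 + k) (by norm_num)
    (by linear_combination (1 / 2) * b1 + t1 + R.k3 + R.h1) (by linear_combination (1 / 2) * b2 + t2 + R.k4 + R.h2)
  have e7 := lo (t := (322 / 1000)) (x := s) (by norm_num)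
    (by linear_combination s1) (by linear_combination s2)
  have e8 := up (t1 := (239 / 1000)) (t2 := (249 / 1000)) (x := b) (by norm_num)
    (by linear_combination (1057121 / 1000000) * b1) (by linear_combination (1062001 / 1000000) * b2)
  have c1 := R.ph1
  have c2 := R.qh1
  have c3 := R.rh1
  unfold dl
  linear_combination (2561570351666504389375 / 1067746207895115241878) * e8 + (500000 / 224079) * e7 + (500000 / 970759) * e6 + (50000 / 11807) * e5 + (15625 / 15624) * e4 + (500000 / 299413) * e3 + (250000 / 471803) * e2 + (250000 / 248861) * e1 + (1982854921317625 / 2270619237216204) * R.k2 + (2628371266784014016902177 / 4866122704764213651854340) * s1 + (257183827337166658965 / 474553870175606774168) * b2 + (30061514980444405825 / 26809201333811720628) * t1 + (39243719177357588875 / 890412401651077772964) * R.h1 + (1 / 2) * c1 + (1 / 2) * c2 + (1 / 2) * c3 + (1 / 2) * R.n4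

theorem ra31 {s b t k G1 G2 G3 G4 : ℝ} (R : RegA s b t k G1 G2 G3 G4) (hT : t ≤ 284 / 1000 * s) (hy : 0 ≤ 1 / 2 - s + t) (hb : 0 ≤ t - s + b) (hc : 0 ≤ s + 3 / 200 - t - b)
    (s1 : 1177 / 2000 ≤ s) (s2 : s ≤ 607 / 1000)
    (b1 : 875 / 2000 ≤ b) (b2 : b ≤ 4688 / 10000) (t1 : 1294 / 10000 ≤ t) (t2 : t ≤ 1402 / 10000) :
    4 * ph (s - t) - 2 * ph s + dl s ≤ (G1 + G2 + G3 + G4) / 2 := by
  have e1 := up (t1 := (67 / 1000)) (t2 := (68 / 1000)) (x := 1 - h0) (by norm_num)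
    (by linear_combination (1004489 / 1000000) * R.h2) (by linear_combination (62789 / 62500) * R.h1)
  have e2 := up (t1 := (240 / 1000)) (t2 := (252 / 1000)) (x := h0 + s - 1) (by norm_num)
    (by linear_combination (661 / 625) * s1 + (661 / 625) * R.h1) (by linear_combination (66469 / 62500) * s2 + (66469 / 62500) * R.h2)
  have e3 := lo (t := (330 / 1000)) (x := s - t + b / 2 - k) (by norm_num)
    (by linear_combination s1 + (1 / 2) * b1 + t2 + R.k4) (by linear_combination s2 + (1 / 2) * b2 + t1 + R.k3)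
  have e4 := lo (t := (4 / 1000)) (x := h0 + s - 1 - t - b / 2 - k) (by norm_num)
    (by linear_combination s1 + (1 / 2) * b2 + t2 + R.k4 + R.h1) (by linear_combination s2 + (1 / 2) * b1 + t1 + R.k3 + R.h2)
  have e5 := up (t1 := (236 / 1000)) (t2 := (255 / 1000)) (x := s - t) (by norm_num)
    (by linear_combination (65981 / 62500) * s1 + (65981 / 62500) * t2) (by linear_combination (42601 / 40000) * s2 + (42601 / 40000) * t1)
  have e6 := lo (t := (165 / 1000)) (x := h0 - 1 + t + b / 2 + k) (by norm_num)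
    (by linear_combination (1 / 2) * b1 + t1 + R.k3 + R.h1) (by linear_combination (1 / 2) * b2 + t2 + R.k4 + R.h2)
  have e7 := lo (t := (332 / 1000)) (x := s) (by norm_num)
    (by linear_combination s1) (by linear_combination s2)
  have e8 := up (t1 := (230 / 1000)) (t2 := (249 / 1000)) (x := b) (by norm_num)
    (by linear_combination (10529 / 10000) * b1) (by linear_combination (1062001 / 1000000) * b2)
  have c1 := R.ph1
  have c2 := R.qh1
  have c3 := R.rh1
  unfold dl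
  linear_combination (5032318466636482600 / 2042957029691582067) * e8 + (125000 / 55611) * e7 + (20000 / 38911) * e6 + (200000 / 46991) * e5 + (62500 / 62499) * e4 + (15000 / 8911) * e3 + (3125 / 5872) * e2 + (250000 / 248861) * e1 + (20573435304200 / 21670648326579) * R.k2 + (2278513462860870361069 / 4069505654596686336480) * s1 + (1850904599159013609 / 3404928382819303445) * b2 + (165898766755770800 / 145475062216324827) * t1 + (365326869080725925 / 7107524170107722976) * R.h1 + (1 / 2) * c1 + (1 / 2) * c2 + (1 / 2) * c3 + (1 / 2) * R.n4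

theorem ra32 {s b t k G1 G2 G3 G4 : ℝ} (R : RegA s b t k G1 G2 G3 G4) (hT : t ≤ 284 / 1000 * s) (hy : 0 ≤ 1 / 2 - s + t) (hb : 0 ≤ t - s + b) (hc : 0 ≤ s + 3 / 200 - t - b)
    (s1 : 57 / 100 ≤ s) (s2 : s ≤ 607 / 1000)
    (b1 : 875 / 2000 ≤ b) (b2 : b ≤ 4688 / 10000) (t1 : 1402 / 10000 ≤ t) (t2 : t ≤ 1509 / 10000) :
    4 * ph (s - t) - 2 * ph s + dl s ≤ (G1 + G2 + G3 + G4) / 2 := by
  have e1 := up (t1 := (67 / 1000)) (t2 := (68 / 1000)) (x := 1 - h0) (by norm_num)
    (by linear_combination (1004489 / 1000000) * R.h2) (by linear_combination (62789 / 62500) * R.h1)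
  have e2 := up (t1 := (229 / 1000)) (t2 := (252 / 1000)) (x := h0 + s - 1) (by norm_num)
    (by linear_combination (1052441 / 1000000) * s1 + (1052441 / 1000000) * R.h1) (by linear_combination (66469 / 62500) * s2 + (66469 / 62500) * R.h2)
  have e3 := lo (t := (316 / 1000)) (x := s - t + b / 2 - k) (by norm_num)
    (by linear_combination s1 + (1 / 2) * b1 + t2 + R.k4) (by linear_combination s2 + (1 / 2) * b2 + t1 + R.k3)
  have e4 := lo (t := (-6 / 1000)) (x := h0 + s - 1 - t - b / 2 - k) (by norm_num)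
    (by linear_combination s1 + (1 / 2) * b2 + t2 + R.k4 + R.h1) (by linear_combination s2 + (1 / 2) * b1 + t1 + R.k3 + R.h2)
  have e5 := up (t1 := (219 / 1000)) (t2 := (248 / 1000)) (x := s - t) (by norm_num)
    (by linear_combination (1047961 / 1000000) * s1 + (1047961 / 1000000) * t2) (by linear_combination (16586 / 15625) * s2 + (16586 / 15625) * t1)
  have e6 := lo (t := (171 / 1000)) (x := h0 - 1 + t + b / 2 + k) (by norm_num)
    (by linear_combination (1 / 2) * b1 + t1 + R.k3 + R.h1) (by linear_combination (1 / 2) * b2 + t2 + R.k4 + R.h2)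
  have e7 := lo (t := (325 / 1000)) (x := s) (by norm_num)
    (by linear_combination s1) (by linear_combination s2)
  have e8 := up (t1 := (230 / 1000)) (t2 := (249 / 1000)) (x := b) (by norm_num)
    (by linear_combination (10529 / 10000) * b1) (by linear_combination (1062001 / 1000000) * b2)
  have c1 := R.ph1
  have c2 := R.qh1
  have c3 := R.rh1
  unfold dl
  linear_combination (146225335843239488750 / 61290877706854966023) * e8 + (3200 / 1431) * e7 + (500000 / 970759) * e6 + (500000 / 118211) * e5 + (250000 / 249991) * e4 + (31250 / 18753) * e3 + (125000 / 235573) * e2 + (250000 / 248861) * e1 + (562382027196250 / 650142434279751) * R.k2 + (3860785226092566256579 / 6843141464885416001430) * s1 + (128005038717675323945 / 245163510827419864092) * b2 + (85328516587425949750 / 76853987298643645461) * t1 + (48743916791877103625 / 1094396767722317473589) * R.h1 + (1 / 2) * c1 + (1 / 2) * c2 + (1 / 2) * c3 + (1 / 2) * R.n4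

theorem ra37 {s b t k G1 G2 G3 G4 : ℝ} (R : RegA s b t k G1 G2 G3 G4) (hT : t ≤ 284 / 1000 * s) (hy : 0 ≤ 1 / 2 - s + t) (hb : 0 ≤ t - s + b) (hc : 0 ≤ s + 3 / 200 - t - b)
    (s1 : 57 / 100 ≤ s) (s2 : s ≤ 5793 / 10000)
    (b1 : 4688 / 10000 ≤ b) (b2 : b ≤ 4844 / 10000) (t1 : 1294 / 10000 ≤ t) (t2 : t ≤ 1402 / 10000) :
    4 * ph (s - t) - 2 * ph s + dl s ≤ (G1 + G2 + G3 + G4) / 2 := by
  exfalso
  exact absurd b1 (not_le.mpr (by linear_combination s2 + t1 + hc))

theorem ra41 {s b t k G1 G2 G3 G4 : ℝ} (R : RegA s b t k G1 G2 G3 G4) (hT : t ≤ 284 / 1000 * s) (hy : 0 ≤ 1 / 2 - s + t) (hb : 0 ≤ t - s + b) (hc : 0 ≤ s + 3 / 200 - t - b)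
    (s1 : 5793 / 10000 ≤ s) (s2 : s ≤ 1177 / 2000)
    (b1 : 4688 / 10000 ≤ b) (b2 : b ≤ 4766 / 10000) (t1 : 1294 / 10000 ≤ t) (t2 : t ≤ 1321 / 10000) :
    4 * ph (s - t) - 2 * ph s + dl s ≤ (G1 + G2 + G3 + G4) / 2 := by
  have e1 := up (t1 := (67 / 1000)) (t2 := (68 / 1000)) (x := 1 - h0) (by norm_num)
    (by linear_combination (1004489 / 1000000) * R.h2) (by linear_combination (62789 / 62500) * R.h1)
  have e2 := up (t1 := (234 / 1000)) (t2 := (241 / 1000)) (x := h0 + s - 1) (by norm_num)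
    (by linear_combination (263689 / 250000) * s1 + (263689 / 250000) * R.h1) (by linear_combination (1058081 / 1000000) * s2 + (1058081 / 1000000) * R.h2)
  have e3 := lo (t := (324 / 1000)) (x := s - t + b / 2 - k) (by norm_num)
    (by linear_combination s1 + (1 / 2) * b1 + t2 + R.k4) (by linear_combination s2 + (1 / 2) * b2 + t1 + R.k3)
  have e4 := lo (t := (-10 / 1000)) (x := h0 + s - 1 - t - b / 2 - k) (by norm_num)
    (by linear_combination s1 + (1 / 2) * b2 + t2 + R.k4 + R.h1) (by linear_combination s2 + (1 / 2) * b1 + t1 + R.k3 + R.h2)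
  have e5 := up (t1 := (236 / 1000)) (t2 := (244 / 1000)) (x := s - t) (by norm_num)
    (by linear_combination (65981 / 62500) * s1 + (65981 / 62500) * t2) (by linear_combination (66221 / 62500) * s2 + (66221 / 62500) * t1)
  have e6 := lo (t := (173 / 1000)) (x := h0 - 1 + t + b / 2 + k) (by norm_num)
    (by linear_combination (1 / 2) * b1 + t1 + R.k3 + R.h1) (by linear_combination (1 / 2) * b2 + t2 + R.k4 + R.h2)
  have e7 := lo (t := (250 / 1000)) (x := t + b / 2 + k) (by norm_num)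
    (by linear_combination (1 / 2) * b1 + t1 + R.k3) (by linear_combination (1 / 2) * b2 + t2 + R.k4)
  have e8 := up (t1 := (908 / 1000)) (t2 := (941 / 1000)) (x := h0 + t) (by norm_num)
    (by linear_combination (114029 / 62500) * t1 + (114029 / 62500) * R.h1) (by linear_combination (1885481 / 1000000) * t2 + (1885481 / 1000000) * R.h2)
  have e9 := lo (t := (322 / 1000)) (x := s) (by norm_num)
    (by linear_combination s1) (by linear_combination s2)
  have e10 := up (t1 := (248 / 1000)) (t2 := (254 / 1000)) (x := b) (by norm_num)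
    (by linear_combination (16586 / 15625) * b1) (by linear_combination (266129 / 250000) * b2)
  have c1 := R.ph1
  have c2 := R.qh1
  have c3 := R.rh1
  have c4 := R.syv (by linear_combination (433015 / 468504) * e10 + R.k2 + (1687847 / 46850400) * b1 + t2) (by linear_combination (433015 / 234252) * e10 + 2 * R.k2 + (45162553 / 23425200) * b2 + t2 + R.h1)
  unfold dl
  linear_combination (9404149123661688911 / 3851626411131676164) * e10 + (500000 / 224079) * e9 + (125000 / 36393) * e8 + (8 / 15) * e7 + (500000 / 970071) * e6 + (250000 / 58901) * e5 + (10000 / 9999) * e4 + (93750 / 55939) * e3 + (250000 / 471803) * e2 + (250000 / 248861) * e1 + (561582967716214 / 904322919813885) * R.k2 + (5967394351818073808243957 / 11610061919237571295553190) * s1 + (18186727366402932645799 / 1059197263061210945100000) * b2 + (3188490579276504161989009 / 646164075282786135510435) * t2 + (29052433910936369345688575 / 4605247527237818085325239) * R.h2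 + (1 / 2) * R.h3 + (1 / 2) * c1 + (1 / 2) * c2 + (1 / 2) * c3 + (1 / 2) * c4

theorem ra43 {s b t k G1 G2 G3 G4 : ℝ} (R : RegA s b t k G1 G2 G3 G4) (hT : t ≤ 284 / 1000 * s) (hy : 0 ≤ 1 / 2 - s + t) (hb : 0 ≤ t - s + b) (hc : 0 ≤ s + 3 / 200 - t - b)
    (s1 : 5793 / 10000 ≤ s) (s2 : s ≤ 5839 / 10000)
    (b1 : 4688 / 10000 ≤ b) (b2 : b ≤ 4766 / 10000) (t1 : 1321 / 10000 ≤ t) (t2 : t ≤ 1348 / 10000) :
    4 * ph (s - t) - 2 * ph s + dl s ≤ (G1 + G2 + G3 + G4) / 2 := by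
  exfalso
  exact absurd b1 (not_le.mpr (by linear_combination s2 + t1 + hc))

theorem ra45 {s b t k G1 G2 G3 G4 : ℝ} (R : RegA s b t k G1 G2 G3 G4) (hT : t ≤ 284 / 1000 * s) (hy : 0 ≤ 1 / 2 - s + t) (hb : 0 ≤ t - s + b) (hc : 0 ≤ s + 3 / 200 - t - b)
    (s1 : 5839 / 10000 ≤ s) (s2 : s ≤ 1177 / 2000)
    (b1 : 4688 / 10000 ≤ b) (b2 : b ≤ 4727 / 10000) (t1 : 1321 / 10000 ≤ t) (t2 : t ≤ 1348 / 10000) :
    4 * ph (s - t) - 2 * ph s + dl s ≤ (G1 + G2 + G3 + G4) / 2 := by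
  have e1 := up (t1 := (67 / 1000)) (t2 := (68 / 1000)) (x := 1 - h0) (by norm_num)
    (by linear_combination (1004489 / 1000000) * R.h2) (by linear_combination (62789 / 62500) * R.h1)
  have e2 := up (t1 := (237 / 1000)) (t2 := (241 / 1000)) (x := h0 + s - 1) (by norm_num)
    (by linear_combination (1056169 / 1000000) * s1 + (1056169 / 1000000) * R.h1) (by linear_combination (1058081 / 1000000) * s2 + (1058081 / 1000000) * R.h2)
  have e3 := lo (t := (324 / 1000)) (x := s - t + b / 2 - k) (by norm_num)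
    (by linear_combination s1 + (1 / 2) * b1 + t2 + R.k4) (by linear_combination s2 + (1 / 2) * b2 + t1 + R.k3)
  have e4 := lo (t := (-9 / 1000)) (x := h0 + s - 1 - t - b / 2 - k) (by norm_num)
    (by linear_combination s1 + (1 / 2) * b2 + t2 + R.k4 + R.h1) (by linear_combination s2 + (1 / 2) * b1 + t1 + R.k3 + R.h2)
  have e5 := up (t1 := (237 / 1000)) (t2 := (242 / 1000)) (x := s - t) (by norm_num)
    (by linear_combination (1056169 / 1000000) * s1 + (1056169 / 1000000) * t2) (by linear_combination (264641 / 250000) * s2 + (264641 / 250000) * t1)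
  have e6 := lo (t := (173 / 1000)) (x := h0 - 1 + t + b / 2 + k) (by norm_num)
    (by linear_combination (1 / 2) * b1 + t1 + R.k3 + R.h1) (by linear_combination (1 / 2) * b2 + t2 + R.k4 + R.h2)
  have e7 := lo (t := (324 / 1000)) (x := s) (by norm_num)
    (by linear_combination s1) (by linear_combination s2)
  have e8 := up (t1 := (248 / 1000)) (t2 := (252 / 1000)) (x := b) (by norm_num)
    (by linear_combination (16586 / 15625) * b1) (by linear_combination (66469 / 62500) * b2)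
  have c1 := R.ph1
  have c2 := R.qh1
  have c3 := R.rh1
  unfold dl
  linear_combination (30799250996428090188125 / 12717336968233910142936) * e8 + (125000 / 55939) * e7 + (500000 / 970071) * e6 + (2000000 / 471323) * e5 + (1000000 / 999919) * e4 + (93750 / 55939) * e3 + (500000 / 942883) * e2 + (250000 / 248861) * e1 + (48273610216291750 / 54260406220064811) * R.k2 + (131732992818385610890507 / 248574147129127958126690) * s1 + (371570741455101924875 / 652171126576097956048) * b2 + (29229006370848812452750 / 25574177440859606914953) * t1 + (9667772355345672507250 / 227605624449332806271487) * R.h1 + (1 / 2) * c1 + (1 / 2) * c2 + (1 / 2) * c3 + (1 / 2) * R.n4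

theorem ra46 {s b t k G1 G2 G3 G4 : ℝ} (R : RegA s b t k G1 G2 G3 G4) (hT : t ≤ 284 / 1000 * s) (hy : 0 ≤ 1 / 2 - s + t) (hb : 0 ≤ t - s + b) (hc : 0 ≤ s + 3 / 200 - t - b)
    (s1 : 5839 / 10000 ≤ s) (s2 : s ≤ 1177 / 2000)
    (b1 : 4727 / 10000 ≤ b) (b2 : b ≤ 4766 / 10000) (t1 : 1321 / 10000 ≤ t) (t2 : t ≤ 1348 / 10000) :
    4 * ph (s - t) - 2 * ph s + dl s ≤ (G1 + G2 + G3 + G4) / 2 := by
  exfalso
  exact absurd b1 (not_le.mpr (by linear_combination s2 + t1 + hc))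

theorem ra47 {s b t k G1 G2 G3 G4 : ℝ} (R : RegA s b t k G1 G2 G3 G4) (hT : t ≤ 284 / 1000 * s) (hy : 0 ≤ 1 / 2 - s + t) (hb : 0 ≤ t - s + b) (hc : 0 ≤ s + 3 / 200 - t - b)
    (s1 : 5793 / 10000 ≤ s) (s2 : s ≤ 1177 / 2000)
    (b1 : 4688 / 10000 ≤ b) (b2 : b ≤ 4766 / 10000) (t1 : 1348 / 10000 ≤ t) (t2 : t ≤ 1402 / 10000) :
    4 * ph (s - t) - 2 * ph s + dl s ≤ (G1 + G2 + G3 + G4) / 2 := by
  exfalso
  exact absurd b1 (not_le.mpr (by linear_combination s2 + t1 + hc))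

theorem ra48 {s b t k G1 G2 G3 G4 : ℝ} (R : RegA s b t k G1 G2 G3 G4) (hT : t ≤ 284 / 1000 * s) (hy : 0 ≤ 1 / 2 - s + t) (hb : 0 ≤ t - s + b) (hc : 0 ≤ s + 3 / 200 - t - b)
    (s1 : 5793 / 10000 ≤ s) (s2 : s ≤ 1177 / 2000)
    (b1 : 4766 / 10000 ≤ b) (b2 : b ≤ 4844 / 10000) (t1 : 1294 / 10000 ≤ t) (t2 : t ≤ 1402 / 10000) :
    4 * ph (s - t) - 2 * ph s + dl s ≤ (G1 + G2 + G3 + G4) / 2 := by
  exfalso
  exact absurd b1 (not_le.mpr (by linear_combination s2 + t1 + hc))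

theorem ra49 {s b t k G1 G2 G3 G4 : ℝ} (R : RegA s b t k G1 G2 G3 G4) (hT : t ≤ 284 / 1000 * s) (hy : 0 ≤ 1 / 2 - s + t) (hb : 0 ≤ t - s + b) (hc : 0 ≤ s + 3 / 200 - t - b)
    (s1 : 57 / 100 ≤ s) (s2 : s ≤ 1177 / 2000)
    (b1 : 4844 / 10000 ≤ b) (b2 : b ≤ 1 / 2) (t1 : 1294 / 10000 ≤ t) (t2 : t ≤ 1402 / 10000) :
    4 * ph (s - t) - 2 * ph s + dl s ≤ (G1 + G2 + G3 + G4) / 2 := by
  exfalso
  exact absurd b1 (not_le.mpr (by linear_combination s2 + t1 + hc))

theorem ra53 {s b t k G1 G2 G3 G4 : ℝ} (R : RegA s b t k G1 G2 G3 G4) (hT : t ≤ 284 / 1000 * s) (hy : 0 ≤ 1 / 2 - s + t) (hb : 0 ≤ t - s + b) (hc : 0 ≤ s + 3 / 200 - t - b)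
    (s1 : 1177 / 2000 ≤ s) (s2 : s ≤ 607 / 1000)
    (b1 : 4688 / 10000 ≤ b) (b2 : b ≤ 4844 / 10000) (t1 : 1294 / 10000 ≤ t) (t2 : t ≤ 1321 / 10000) :
    4 * ph (s - t) - 2 * ph s + dl s ≤ (G1 + G2 + G3 + G4) / 2 := by
  have e1 := up (t1 := (67 / 1000)) (t2 := (68 / 1000)) (x := 1 - h0) (by norm_num)
    (by linear_combination (1004489 / 1000000) * R.h2) (by linear_combination (62789 / 62500) * R.h1)
  have e2 := up (t1 := (240 / 1000)) (t2 := (252 / 1000)) (x := h0 + s - 1) (by norm_num)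
    (by linear_combination (661 / 625) * s1 + (661 / 625) * R.h1) (by linear_combination (66469 / 62500) * s2 + (66469 / 62500) * R.h2)
  have e3 := lo (t := (334 / 1000)) (x := s - t + b / 2 - k) (by norm_num)
    (by linear_combination s1 + (1 / 2) * b1 + t2 + R.k4) (by linear_combination s2 + (1 / 2) * b2 + t1 + R.k3)
  have e4 := lo (t := (-5 / 1000)) (x := h0 + s - 1 - t - b / 2 - k) (by norm_num)
    (by linear_combination s1 + (1 / 2) * b2 + t2 + R.k4 + R.h1) (by linear_combination s2 + (1 / 2) * b1 + t1 + R.k3 + R.h2)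
  have e5 := up (t1 := (241 / 1000)) (t2 := (255 / 1000)) (x := s - t) (by norm_num)
    (by linear_combination (1058081 / 1000000) * s1 + (1058081 / 1000000) * t2) (by linear_combination (42601 / 40000) * s2 + (42601 / 40000) * t1)
  have e6 := lo (t := (175 / 1000)) (x := h0 - 1 + t + b / 2 + k) (by norm_num)
    (by linear_combination (1 / 2) * b1 + t1 + R.k3 + R.h1) (by linear_combination (1 / 2) * b2 + t2 + R.k4 + R.h2)
  have e7 := lo (t := (252 / 1000)) (x := t + b / 2 + k) (by norm_num)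
    (by linear_combination (1 / 2) * b1 + t1 + R.k3) (by linear_combination (1 / 2) * b2 + t2 + R.k4)
  have e8 := up (t1 := (908 / 1000)) (t2 := (941 / 1000)) (x := h0 + t) (by norm_num)
    (by linear_combination (114029 / 62500) * t1 + (114029 / 62500) * R.h1) (by linear_combination (1885481 / 1000000) * t2 + (1885481 / 1000000) * R.h2)
  have e9 := lo (t := (332 / 1000)) (x := s) (by norm_num)
    (by linear_combination s1) (by linear_combination s2)
  have e10 := up (t1 := (248 / 1000)) (t2 := (259 / 1000)) (x := b) (by norm_num)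
    (by linear_combination (16586 / 15625) * b1) (by linear_combination (1067081 / 1000000) * b2)
  have c1 := R.ph1
  have c2 := R.qh1
  have c3 := R.rh1
  have c4 := R.syv (by linear_combination (433015 / 467884) * e10 + R.k2 + (2880679 / 93576800) * b1 + t2) (by linear_combination (433015 / 233942) * e10 + 2 * R.k2 + (90696121 / 46788400) * b2 + t2 + R.h1)
  unfold dl
  linear_combination (143720075164969434925 / 57753193936125588234) * e10 + (125000 / 55611) * e9 + (125000 / 36393) * e8 + (31250 / 58531) * e7 + (800 / 1551) * e6 + (800000 / 187709) * e5 + (40000 / 39999) * e4 + (125000 / 74037) * e3 + (3125 / 5872) * e2 + (250000 / 248861) * e1 + (164957687804990 / 246869711022927) * R.k2 + (2914050350219984819449 / 5451117715829827306080) * s1 + (33645757111930013929511 / 962553232268759803900000) * b2 + (919127548846025920945245 / 187382165119883330690611) * t2 + (4623783354492919074215 / 733177559807140110432) * R.h2 + (1 / 2)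 * R.h3 + (1 / 2) * c1 + (1 / 2) * c2 + (1 / 2) * c3 + (1 / 2) * c4

theorem ra56 {s b t k G1 G2 G3 G4 : ℝ} (R : RegA s b t k G1 G2 G3 G4) (hT : t ≤ 284 / 1000 * s) (hy : 0 ≤ 1 / 2 - s + t) (hb : 0 ≤ t - s + b) (hc : 0 ≤ s + 3 / 200 - t - b)
    (s1 : 1177 / 2000 ≤ s) (s2 : s ≤ 5978 / 10000)
    (b1 : 4688 / 10000 ≤ b) (b2 : b ≤ 4766 / 10000) (t1 : 1321 / 10000 ≤ t) (t2 : t ≤ 1348 / 10000) :
    4 * ph (s - t) - 2 * ph s + dl s ≤ (G1 + G2 + G3 + G4) / 2 := by
  have e1 := up (t1 := (67 / 1000)) (t2 := (68 / 1000)) (x := 1 - h0) (by norm_num)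
    (by linear_combination (1004489 / 1000000) * R.h2) (by linear_combination (62789 / 62500) * R.h1)
  have e2 := up (t1 := (240 / 1000)) (t2 := (246 / 1000)) (x := h0 + s - 1) (by norm_num)
    (by linear_combination (661 / 625) * s1 + (661 / 625) * R.h1) (by linear_combination (265129 / 250000) * s2 + (265129 / 250000) * R.h2)
  have e3 := lo (t := (329 / 1000)) (x := s - t + b / 2 - k) (by norm_num)
    (by linear_combination s1 + (1 / 2) * b1 + t2 + R.k4) (by linear_combination s2 + (1 / 2) * b2 + t1 + R.k3)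
  have e4 := lo (t := (-7 / 1000)) (x := h0 + s - 1 - t - b / 2 - k) (by norm_num)
    (by linear_combination s1 + (1 / 2) * b2 + t2 + R.k4 + R.h1) (by linear_combination s2 + (1 / 2) * b1 + t1 + R.k3 + R.h2)
  have e5 := up (t1 := (239 / 1000)) (t2 := (248 / 1000)) (x := s - t) (by norm_num)
    (by linear_combination (1057121 / 1000000) * s1 + (1057121 / 1000000) * t2) (by linear_combination (16586 / 15625) * s2 + (16586 / 15625) * t1)
  have e6 := lo (t := (175 / 1000)) (x := h0 - 1 + t + b / 2 + k) (by norm_num)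
    (by linear_combination (1 / 2) * b1 + t1 + R.k3 + R.h1) (by linear_combination (1 / 2) * b2 + t2 + R.k4 + R.h2)
  have e7 := lo (t := (329 / 1000)) (x := s) (by norm_num)
    (by linear_combination s1) (by linear_combination s2)
  have e8 := up (t1 := (248 / 1000)) (t2 := (254 / 1000)) (x := b) (by norm_num)
    (by linear_combination (16586 / 15625) * b1) (by linear_combination (266129 / 250000) * b2)
  have c1 := R.ph1
  have c2 := R.qh1
  have c3 := R.rh1
  unfold dl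
  linear_combination (181775788354128100 / 74376108995073453) * e8 + (2000000 / 891759) * e7 + (800 / 1551) * e6 + (500000 / 117591) * e5 + (1000000 / 999951) * e4 + (500000 / 297253) * e3 + (3125 / 5881) * e2 + (250000 / 248861) * e1 + (12744626757520 / 13970206426341) * R.k2 + (682721907624564947 / 1265349543696912740) * s1 + (214287452325271931 / 371880544975367265) * b2 + (585746955915820 / 505623436097219) * t1 + (44286410676348705 / 1008825427394415796) * R.h1 + (1 / 2) * c1 + (1 / 2) * c2 + (1 / 2) * c3 + (1 / 2) * R.n4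

theorem ra58 {s b t k G1 G2 G3 G4 : ℝ} (R : RegA s b t k G1 G2 G3 G4) (hT : t ≤ 284 / 1000 * s) (hy : 0 ≤ 1 / 2 - s + t) (hb : 0 ≤ t - s + b) (hc : 0 ≤ s + 3 / 200 - t - b)
    (s1 : 1177 / 2000 ≤ s) (s2 : s ≤ 5932 / 10000)
    (b1 : 4766 / 10000 ≤ b) (b2 : b ≤ 4844 / 10000) (t1 : 1321 / 10000 ≤ t) (t2 : t ≤ 1348 / 10000) :
    4 * ph (s - t) - 2 * ph s + dl s ≤ (G1 + G2 + G3 + G4) / 2 := by
  exfalso
  exact absurd b1 (not_le.mpr (by linear_combination s2 + t1 + hc))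

theorem ra60 {s b t k G1 G2 G3 G4 : ℝ} (R : RegA s b t k G1 G2 G3 G4) (hT : t ≤ 284 / 1000 * s) (hy : 0 ≤ 1 / 2 - s + t) (hb : 0 ≤ t - s + b) (hc : 0 ≤ s + 3 / 200 - t - b)
    (s1 : 5932 / 10000 ≤ s) (s2 : s ≤ 5978 / 10000)
    (b1 : 4766 / 10000 ≤ b) (b2 : b ≤ 4844 / 10000) (t1 : 1321 / 10000 ≤ t) (t2 : t ≤ 267 / 2000) :
    4 * ph (s - t) - 2 * ph s + dl s ≤ (G1 + G2 + G3 + G4) / 2 := by
  have e1 := up (t1 := (67 / 1000)) (t2 := (68 / 1000)) (x := 1 - h0) (by norm_num)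
    (by linear_combination (1004489 / 1000000) * R.h2) (by linear_combination (62789 / 62500) * R.h1)
  have e2 := up (t1 := (243 / 1000)) (t2 := (246 / 1000)) (x := h0 + s - 1) (by norm_num)
    (by linear_combination (1059049 / 1000000) * s1 + (1059049 / 1000000) * R.h1) (by linear_combination (265129 / 250000) * s2 + (265129 / 250000) * R.h2)
  have e3 := lo (t := (331 / 1000)) (x := s - t + b / 2 - k) (by norm_num)
    (by linear_combination s1 + (1 / 2) * b1 + t2 + R.k4) (by linear_combination s2 + (1 / 2) * b2 + t1 + R.k3)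
  have e4 := lo (t := (-9 / 1000)) (x := h0 + s - 1 - t - b / 2 - k) (by norm_num)
    (by linear_combination s1 + (1 / 2) * b2 + t2 + R.k4 + R.h1) (by linear_combination s2 + (1 / 2) * b1 + t1 + R.k3 + R.h2)
  have e5 := up (t1 := (243 / 1000)) (t2 := (248 / 1000)) (x := s - t) (by norm_num)
    (by linear_combination (1059049 / 1000000) * s1 + (1059049 / 1000000) * t2) (by linear_combination (16586 / 15625) * s2 + (16586 / 15625) * t1)
  have e6 := lo (t := (178 / 1000)) (x := h0 - 1 + t + b / 2 + k) (by norm_num)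
    (by linear_combination (1 / 2) * b1 + t1 + R.k3 + R.h1) (by linear_combination (1 / 2) * b2 + t2 + R.k4 + R.h2)
  have e7 := lo (t := (255 / 1000)) (x := t + b / 2 + k) (by norm_num)
    (by linear_combination (1 / 2) * b1 + t1 + R.k3) (by linear_combination (1 / 2) * b2 + t2 + R.k4)
  have e8 := up (t1 := (940 / 1000)) (t2 := (970 / 1000)) (x := h0 + t) (by norm_num)
    (by linear_combination (4709 / 2500) * t1 + (4709 / 2500) * R.h1) (by linear_combination (19409 / 10000) * t2 + (19409 / 10000) * R.h2)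
  have e9 := lo (t := (330 / 1000)) (x := s) (by norm_num)
    (by linear_combination s1) (by linear_combination s2)
  have e10 := up (t1 := (253 / 1000)) (t2 := (259 / 1000)) (x := b) (by norm_num)
    (by linear_combination (1064009 / 1000000) * b1) (by linear_combination (1067081 / 1000000) * b2)
  have c1 := R.ph1
  have c2 := R.qh1
  have c3 := R.rh1
  have c4 := R.syv (by linear_combination (866030 / 934473) * e10 + R.k2 + (1191457 / 46723650) * b1 + t2) (by linear_combination (1732060 / 934473) * e10 + 2 * R.k2 + (45532193 / 23361825) * b2 + t2 + R.h1)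
  unfold dl
  linear_combination (562995172126871032362997000 / 228264785746469029272197241) * e10 + (20000 / 8911) * e9 + (2500 / 441) * e8 + (20000 / 37399) * e7 + (125000 / 242079) * e6 + (500000 / 117467) * e5 + (1000000 / 999919) * e4 + (500000 / 296813) * e3 + (250000 / 470111) * e2 + (250000 / 248861) * e1 + (1721334634144734943900 / 2686982548678409458587) * R.k2 + (110265018455911763156940441 / 208637530461147125337546470) * s1 + (8768866868163552467239905342049 / 251091264321115932199416965100000) * b2 + (62162116316223517232251460275 / 6628267359957741201308621709) * t2 + (44902214550645857078644675 / 4162905260358871023484137) * R.h2 + (1 / 2) * R.h3 + (1 / 2) * c1 + (1 / 2) * c2 + (1 / 2) * c3 + (1 / 2) * c4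

theorem ra61 {s b t k G1 G2 G3 G4 : ℝ} (R : RegA s b t k G1 G2 G3 G4) (hT : t ≤ 284 / 1000 * s) (hy : 0 ≤ 1 / 2 - s + t) (hb : 0 ≤ t - s + b) (hc : 0 ≤ s + 3 / 200 - t - b)
    (s1 : 5932 / 10000 ≤ s) (s2 : s ≤ 5978 / 10000)
    (b1 : 4766 / 10000 ≤ b) (b2 : b ≤ 4844 / 10000) (t1 : 267 / 2000 ≤ t) (t2 : t ≤ 1348 / 10000) :
    4 * ph (s - t) - 2 * ph s + dl s ≤ (G1 + G2 + G3 + G4) / 2 := by
  have e1 := up (t1 := (67 / 1000)) (t2 := (68 / 1000)) (x := 1 - h0) (by norm_num)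
    (by linear_combination (1004489 / 1000000) * R.h2) (by linear_combination (62789 / 62500) * R.h1)
  have e2 := up (t1 := (243 / 1000)) (t2 := (246 / 1000)) (x := h0 + s - 1) (by norm_num)
    (by linear_combination (1059049 / 1000000) * s1 + (1059049 / 1000000) * R.h1) (by linear_combination (265129 / 250000) * s2 + (265129 / 250000) * R.h2)
  have e3 := lo (t := (330 / 1000)) (x := s - t + b / 2 - k) (by norm_num)
    (by linear_combination s1 + (1 / 2) * b1 + t2 + R.k4) (by linear_combination s2 + (1 / 2) * b2 + t1 + R.k3)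
  have e4 := lo (t := (-10 / 1000)) (x := h0 + s - 1 - t - b / 2 - k) (by norm_num)
    (by linear_combination s1 + (1 / 2) * b2 + t2 + R.k4 + R.h1) (by linear_combination s2 + (1 / 2) * b1 + t1 + R.k3 + R.h2)
  have e5 := up (t1 := (242 / 1000)) (t2 := (247 / 1000)) (x := s - t) (by norm_num)
    (by linear_combination (264641 / 250000) * s1 + (264641 / 250000) * t2) (by linear_combination (1061009 / 1000000) * s2 + (1061009 / 1000000) * t1)
  have e6 := lo (t := (179 / 1000)) (x := h0 - 1 + t + b / 2 + k) (by norm_num)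
    (by linear_combination (1 / 2) * b1 + t1 + R.k3 + R.h1) (by linear_combination (1 / 2) * b2 + t2 + R.k4 + R.h2)
  have e7 := lo (t := (330 / 1000)) (x := s) (by norm_num)
    (by linear_combination s1) (by linear_combination s2)
  have e8 := up (t1 := (253 / 1000)) (t2 := (259 / 1000)) (x := b) (by norm_num)
    (by linear_combination (1064009 / 1000000) * b1) (by linear_combination (1067081 / 1000000) * b2)
  have c1 := R.ph1
  have c2 := R.qh1
  have c3 := R.rh1
  unfold dl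
  linear_combination (1990348426639247000 / 814088345393356677) * e8 + (20000 / 8911) * e7 + (500000 / 967959) * e6 + (2000000 / 470113) * e5 + (10000 / 9999) * e4 + (15000 / 8911) * e3 + (250000 / 470111) * e2 + (250000 / 248861) * e1 + (8682685193900 / 9582911223039) * R.k2 + (14963070718875293783 / 28131160343349827610) * s1 + (5317657707460564154 / 8954971799326923447) * b2 + (755749141653175900 / 643578734828076201) * t1 + (1698322505826778600 / 41937933006793451793) * R.h1 + (1 / 2) * c1 + (1 / 2) * c2 + (1 / 2) * c3 + (1 / 2) * R.n4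

theorem ra62 {s b t k G1 G2 G3 G4 : ℝ} (R : RegA s b t k G1 G2 G3 G4) (hT : t ≤ 284 / 1000 * s) (hy : 0 ≤ 1 / 2 - s + t) (hb : 0 ≤ t - s + b) (hc : 0 ≤ s + 3 / 200 - t - b)
    (s1 : 5978 / 10000 ≤ s) (s2 : s ≤ 607 / 1000)
    (b1 : 4688 / 10000 ≤ b) (b2 : b ≤ 4844 / 10000) (t1 : 1321 / 10000 ≤ t) (t2 : t ≤ 1348 / 10000) :
    4 * ph (s - t) - 2 * ph s + dl s ≤ (G1 + G2 + G3 + G4) / 2 := by
  have e1 := up (t1 := (67 / 1000)) (t2 := (68 / 1000)) (x := 1 - h0) (by norm_num)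
    (by linear_combination (1004489 / 1000000) * R.h2) (by linear_combination (62789 / 62500) * R.h1)
  have e2 := up (t1 := (245 / 1000)) (t2 := (252 / 1000)) (x := h0 + s - 1) (by norm_num)
    (by linear_combination (42401 / 40000) * s1 + (42401 / 40000) * R.h1) (by linear_combination (66469 / 62500) * s2 + (66469 / 62500) * R.h2)
  have e3 := lo (t := (335 / 1000)) (x := s - t + b / 2 - k) (by norm_num)
    (by linear_combination s1 + (1 / 2) * b1 + t2 + R.k4) (by linear_combination s2 + (1 / 2) * b2 + t1 + R.k3)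
  have e4 := lo (t := (-4 / 1000)) (x := h0 + s - 1 - t - b / 2 - k) (by norm_num)
    (by linear_combination s1 + (1 / 2) * b2 + t2 + R.k4 + R.h1) (by linear_combination s2 + (1 / 2) * b1 + t1 + R.k3 + R.h2)
  have e5 := up (t1 := (245 / 1000)) (t2 := (253 / 1000)) (x := s - t) (by norm_num)
    (by linear_combination (42401 / 40000) * s1 + (42401 / 40000) * t2) (by linear_combination (1064009 / 1000000) * s2 + (1064009 / 1000000) * t1)
  have e6 := lo (t := (177 / 1000)) (x := h0 - 1 + t + b / 2 + k) (by norm_num)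
    (by linear_combination (1 / 2) * b1 + t1 + R.k3 + R.h1) (by linear_combination (1 / 2) * b2 + t2 + R.k4 + R.h2)
  have e7 := lo (t := (335 / 1000)) (x := s) (by norm_num)
    (by linear_combination s1) (by linear_combination s2)
  have e8 := up (t1 := (248 / 1000)) (t2 := (259 / 1000)) (x := b) (by norm_num)
    (by linear_combination (16586 / 15625) * b1) (by linear_combination (1067081 / 1000000) * b2)
  have c1 := R.ph1
  have c2 := R.qh1
  have c3 := R.rh1
  unfold dl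
  linear_combination (18853796090303061625 / 7620378303580482153) * e8 + (80000 / 35511) * e7 + (500000 / 968671) * e6 + (800000 / 187603) * e5 + (62500 / 62499) * e4 + (20000 / 11837) * e3 + (25000 / 46913) * e2 + (250000 / 248861) * e1 + (674571185644100 / 716623448028873) * R.k2 + (5068809318456946403 / 9301428700040220510) * s1 + (397661193311911477061 / 670593290715082429464) * b2 + (158951203554312910900 / 134440708720560661419) * t1 + (32152802988189356425 / 706804677170620565097) * R.h1 + (1 / 2) * c1 + (1 / 2) * c2 + (1 / 2) * c3 + (1 / 2) * R.n4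

theorem ra65 {s b t k G1 G2 G3 G4 : ℝ} (R : RegA s b t k G1 G2 G3 G4) (hT : t ≤ 284 / 1000 * s) (hy : 0 ≤ 1 / 2 - s + t) (hb : 0 ≤ t - s + b) (hc : 0 ≤ s + 3 / 200 - t - b)
    (s1 : 1177 / 2000 ≤ s) (s2 : s ≤ 5978 / 10000)
    (b1 : 4688 / 10000 ≤ b) (b2 : b ≤ 4766 / 10000) (t1 : 1348 / 10000 ≤ t) (t2 : t ≤ 1402 / 10000) :
    4 * ph (s - t) - 2 * ph s + dl s ≤ (G1 + G2 + G3 + G4) / 2 := by
  have e1 := up (t1 := (67 / 1000)) (t2 := (68 / 1000)) (x := 1 - h0) (by norm_num)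
    (by linear_combination (1004489 / 1000000) * R.h2) (by linear_combination (62789 / 62500) * R.h1)
  have e2 := up (t1 := (240 / 1000)) (t2 := (246 / 1000)) (x := h0 + s - 1) (by norm_num)
    (by linear_combination (661 / 625) * s1 + (661 / 625) * R.h1) (by linear_combination (265129 / 250000) * s2 + (265129 / 250000) * R.h2)
  have e3 := lo (t := (326 / 1000)) (x := s - t + b / 2 - k) (by norm_num)
    (by linear_combination s1 + (1 / 2) * b1 + t2 + R.k4) (by linear_combination s2 + (1 / 2) * b2 + t1 + R.k3)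
  have e4 := lo (t := (-9 / 1000)) (x := h0 + s - 1 - t - b / 2 - k) (by norm_num)
    (by linear_combination s1 + (1 / 2) * b2 + t2 + R.k4 + R.h1) (by linear_combination s2 + (1 / 2) * b1 + t1 + R.k3 + R.h2)
  have e5 := up (t1 := (236 / 1000)) (t2 := (246 / 1000)) (x := s - t) (by norm_num)
    (by linear_combination (65981 / 62500) * s1 + (65981 / 62500) * t2) (by linear_combination (265129 / 250000) * s2 + (265129 / 250000) * t1)
  have e6 := lo (t := (177 / 1000)) (x := h0 - 1 + t + b / 2 + k) (by norm_num)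
    (by linear_combination (1 / 2) * b1 + t1 + R.k3 + R.h1) (by linear_combination (1 / 2) * b2 + t2 + R.k4 + R.h2)
  have e7 := lo (t := (329 / 1000)) (x := s) (by norm_num)
    (by linear_combination s1) (by linear_combination s2)
  have e8 := up (t1 := (248 / 1000)) (t2 := (254 / 1000)) (x := b) (by norm_num)
    (by linear_combination (16586 / 15625) * b1) (by linear_combination (266129 / 250000) * b2)
  have c1 := R.ph1
  have c2 := R.qh1
  have c3 := R.rh1
  unfold dl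
  linear_combination (1863993081737616893125 / 768110885733493827018) * e8 + (2000000 / 891759) * e7 + (500000 / 968671) * e6 + (500000 / 117743) * e5 + (1000000 / 999919) * e4 + (125000 / 74477) * e3 + (3125 / 5881) * e2 + (250000 / 248861) * e1 + (64460343813936500 / 72137866426484573) * R.k2 + (503038386134974284534389341 / 919709703452158361164928220) * s1 + (19288001170438106609345 / 33796878972273728388792) * b2 + (9795471547098456773500 / 8493728806653573078739) * t1 + (238687867214403936825 / 5670340404309177868436) * R.h1 + (1 / 2) * c1 + (1 / 2) * c2 + (1 / 2) * c3 + (1 / 2) * R.n4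

theorem ra67 {s b t k G1 G2 G3 G4 : ℝ} (R : RegA s b t k G1 G2 G3 G4) (hT : t ≤ 284 / 1000 * s) (hy : 0 ≤ 1 / 2 - s + t) (hb : 0 ≤ t - s + b) (hc : 0 ≤ s + 3 / 200 - t - b)
    (s1 : 1177 / 2000 ≤ s) (s2 : s ≤ 5932 / 10000)
    (b1 : 4766 / 10000 ≤ b) (b2 : b ≤ 4844 / 10000) (t1 : 1348 / 10000 ≤ t) (t2 : t ≤ 1402 / 10000) :
    4 * ph (s - t) - 2 * ph s + dl s ≤ (G1 + G2 + G3 + G4) / 2 := by
  exfalso
  exact absurd b1 (not_le.mpr (by linear_combination s2 + t1 + hc))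

theorem ra68 {s b t k G1 G2 G3 G4 : ℝ} (R : RegA s b t k G1 G2 G3 G4) (hT : t ≤ 284 / 1000 * s) (hy : 0 ≤ 1 / 2 - s + t) (hb : 0 ≤ t - s + b) (hc : 0 ≤ s + 3 / 200 - t - b)
    (s1 : 5932 / 10000 ≤ s) (s2 : s ≤ 5978 / 10000)
    (b1 : 4766 / 10000 ≤ b) (b2 : b ≤ 4844 / 10000) (t1 : 1348 / 10000 ≤ t) (t2 : t ≤ 1402 / 10000) :
    4 * ph (s - t) - 2 * ph s + dl s ≤ (G1 + G2 + G3 + G4) / 2 := by
  have e1 := up (t1 := (67 / 1000)) (t2 := (68 / 1000)) (x := 1 - h0) (by norm_num)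
    (by linear_combination (1004489 / 1000000) * R.h2) (by linear_combination (62789 / 62500) * R.h1)
  have e2 := up (t1 := (243 / 1000)) (t2 := (246 / 1000)) (x := h0 + s - 1) (by norm_num)
    (by linear_combination (1059049 / 1000000) * s1 + (1059049 / 1000000) * R.h1) (by linear_combination (265129 / 250000) * s2 + (265129 / 250000) * R.h2)
  have e3 := lo (t := (328 / 1000)) (x := s - t + b / 2 - k) (by norm_num)
    (by linear_combination s1 + (1 / 2) * b1 + t2 + R.k4) (by linear_combination s2 + (1 / 2) * b2 + t1 + R.k3)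
  have e4 := lo (t := (-11 / 1000)) (x := h0 + s - 1 - t - b / 2 - k) (by norm_num)
    (by linear_combination s1 + (1 / 2) * b2 + t2 + R.k4 + R.h1) (by linear_combination s2 + (1 / 2) * b1 + t1 + R.k3 + R.h2)
  have e5 := up (t1 := (239 / 1000)) (t2 := (246 / 1000)) (x := s - t) (by norm_num)
    (by linear_combination (1057121 / 1000000) * s1 + (1057121 / 1000000) * t2) (by linear_combination (265129 / 250000) * s2 + (265129 / 250000) * t1)
  have e6 := lo (t := (181 / 1000)) (x := h0 - 1 + t + b / 2 + k) (by norm_num)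
    (by linear_combination (1 / 2) * b1 + t1 + R.k3 + R.h1) (by linear_combination (1 / 2) * b2 + t2 + R.k4 + R.h2)
  have e7 := lo (t := (330 / 1000)) (x := s) (by norm_num)
    (by linear_combination s1) (by linear_combination s2)
  have e8 := up (t1 := (253 / 1000)) (t2 := (259 / 1000)) (x := b) (by norm_num)
    (by linear_combination (1064009 / 1000000) * b1) (by linear_combination (1067081 / 1000000) * b2)
  have c1 := R.ph1
  have c2 := R.qh1
  have c3 := R.rh1
  unfold dl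
  linear_combination (243359620041199324375 / 100014929520900183972) * e8 + (20000 / 8911) * e7 + (500000 / 967239) * e6 + (2000000 / 470603) * e5 + (1000000 / 999879) * e4 + (15625 / 9296) * e3 + (250000 / 470111) * e2 + (250000 / 248861) * e1 + (191257517646625 / 214056328049928) * R.k2 + (21978762561213289337447 / 40648189181374456425240) * s1 + (236009727551608476695 / 400059718083600735888) * b2 + (730610413859475125 / 625686646889939544) * t1 + (1535042873250576440000 / 37715272246908823074417) * R.h1 + (1 / 2) * c1 + (1 / 2) * c2 + (1 / 2) * c3 + (1 / 2) * R.n4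

theorem ra69 {s b t k G1 G2 G3 G4 : ℝ} (R : RegA s b t k G1 G2 G3 G4) (hT : t ≤ 284 / 1000 * s) (hy : 0 ≤ 1 / 2 - s + t) (hb : 0 ≤ t - s + b) (hc : 0 ≤ s + 3 / 200 - t - b)
    (s1 : 5978 / 10000 ≤ s) (s2 : s ≤ 607 / 1000)
    (b1 : 4688 / 10000 ≤ b) (b2 : b ≤ 4844 / 10000) (t1 : 1348 / 10000 ≤ t) (t2 : t ≤ 1402 / 10000) :
    4 * ph (s - t) - 2 * ph s + dl s ≤ (G1 + G2 + G3 + G4) / 2 := by
  have e1 := up (t1 := (67 / 1000)) (t2 := (68 / 1000)) (x := 1 - h0) (by norm_num)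
    (by linear_combination (1004489 / 1000000) * R.h2) (by linear_combination (62789 / 62500) * R.h1)
  have e2 := up (t1 := (245 / 1000)) (t2 := (252 / 1000)) (x := h0 + s - 1) (by norm_num)
    (by linear_combination (42401 / 40000) * s1 + (42401 / 40000) * R.h1) (by linear_combination (66469 / 62500) * s2 + (66469 / 62500) * R.h2)
  have e3 := lo (t := (332 / 1000)) (x := s - t + b / 2 - k) (by norm_num)
    (by linear_combination s1 + (1 / 2) * b1 + t2 + R.k4) (by linear_combination s2 + (1 / 2) * b2 + t1 + R.k3)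
  have e4 := lo (t := (-6 / 1000)) (x := h0 + s - 1 - t - b / 2 - k) (by norm_num)
    (by linear_combination s1 + (1 / 2) * b2 + t2 + R.k4 + R.h1) (by linear_combination s2 + (1 / 2) * b1 + t1 + R.k3 + R.h2)
  have e5 := up (t1 := (242 / 1000)) (t2 := (251 / 1000)) (x := s - t) (by norm_num)
    (by linear_combination (264641 / 250000) * s1 + (264641 / 250000) * t2) (by linear_combination (1063001 / 1000000) * s2 + (1063001 / 1000000) * t1)
  have e6 := lo (t := (179 / 1000)) (x := h0 - 1 + t + b / 2 + k) (by norm_num)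
    (by linear_combination (1 / 2) * b1 + t1 + R.k3 + R.h1) (by linear_combination (1 / 2) * b2 + t2 + R.k4 + R.h2)
  have e7 := lo (t := (335 / 1000)) (x := s) (by norm_num)
    (by linear_combination s1) (by linear_combination s2)
  have e8 := up (t1 := (248 / 1000)) (t2 := (259 / 1000)) (x := b) (by norm_num)
    (by linear_combination (16586 / 15625) * b1) (by linear_combination (1067081 / 1000000) * b2)
  have c1 := R.ph1
  have c2 := R.qh1
  have c3 := R.rh1
  unfold dl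
  linear_combination (859320194761878536875 / 349790273994707175042) * e8 + (80000 / 35511) * e7 + (500000 / 967959) * e6 + (2000000 / 469629) * e5 + (250000 / 249991) * e4 + (31250 / 18537) * e3 + (25000 / 46913) * e2 + (250000 / 248861) * e1 + (1379258830438250 / 1495200836082051) * R.k2 + (45413383421852659474817 / 82212196175469645661890) * s1 + (1643675100206379915565 / 2798322191957657400336) * b2 + (10204050359222436750 / 8669008314177500359) * t1 + (123429820760116605425 / 2825084120951251672317) * R.h1 + (1 / 2) * c1 + (1 / 2) * c2 + (1 / 2) * c3 + (1 / 2) * R.n4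

theorem ra71 {s b t k G1 G2 G3 G4 : ℝ} (R : RegA s b t k G1 G2 G3 G4) (hT : t ≤ 284 / 1000 * s) (hy : 0 ≤ 1 / 2 - s + t) (hb : 0 ≤ t - s + b) (hc : 0 ≤ s + 3 / 200 - t - b)
    (s1 : 1177 / 2000 ≤ s) (s2 : s ≤ 5978 / 10000)
    (b1 : 4844 / 10000 ≤ b) (b2 : b ≤ 1 / 2) (t1 : 1294 / 10000 ≤ t) (t2 : t ≤ 1402 / 10000) :
    4 * ph (s - t) - 2 * ph s + dl s ≤ (G1 + G2 + G3 + G4) / 2 := by
  exfalso
  exact absurd b1 (not_le.mpr (by linear_combination s2 + t1 + hc))

theorem ra74 {s b t k G1 G2 G3 G4 : ℝ} (R : RegA s b t k G1 G2 G3 G4) (hT : t ≤ 284 / 1000 * s) (hy : 0 ≤ 1 / 2 - s + t) (hb : 0 ≤ t - s + b) (hc : 0 ≤ s + 3 / 200 - t - b)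
    (s1 : 5978 / 10000 ≤ s) (s2 : s ≤ 607 / 1000)
    (b1 : 4844 / 10000 ≤ b) (b2 : b ≤ 1 / 2) (t1 : 1294 / 10000 ≤ t) (t2 : t ≤ 1321 / 10000) :
    4 * ph (s - t) - 2 * ph s + dl s ≤ (G1 + G2 + G3 + G4) / 2 := by
  have e1 := up (t1 := (67 / 1000)) (t2 := (68 / 1000)) (x := 1 - h0) (by norm_num)
    (by linear_combination (1004489 / 1000000) * R.h2) (by linear_combination (62789 / 62500) * R.h1)
  have e2 := up (t1 := (245 / 1000)) (t2 := (252 / 1000)) (x := h0 + s - 1) (by norm_num)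
    (by linear_combination (42401 / 40000) * s1 + (42401 / 40000) * R.h1) (by linear_combination (66469 / 62500) * s2 + (66469 / 62500) * R.h2)
  have e3 := lo (t := (337 / 1000)) (x := s - t + b / 2 - k) (by norm_num)
    (by linear_combination s1 + (1 / 2) * b1 + t2 + R.k4) (by linear_combination s2 + (1 / 2) * b2 + t1 + R.k3)
  have e4 := lo (t := (-10 / 1000)) (x := h0 + s - 1 - t - b / 2 - k) (by norm_num)
    (by linear_combination s1 + (1 / 2) * b2 + t2 + R.k4 + R.h1) (by linear_combination s2 + (1 / 2) * b1 + t1 + R.k3 + R.h2)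
  have e5 := up (t1 := (247 / 1000)) (t2 := (255 / 1000)) (x := s - t) (by norm_num)
    (by linear_combination (1061009 / 1000000) * s1 + (1061009 / 1000000) * t2) (by linear_combination (42601 / 40000) * s2 + (42601 / 40000) * t1)
  have e6 := lo (t := (184 / 1000)) (x := h0 - 1 + t + b / 2 + k) (by norm_num)
    (by linear_combination (1 / 2) * b1 + t1 + R.k3 + R.h1) (by linear_combination (1 / 2) * b2 + t2 + R.k4 + R.h2)
  have e7 := lo (t := (261 / 1000)) (x := t + b / 2 + k) (by norm_num)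
    (by linear_combination (1 / 2) * b1 + t1 + R.k3) (by linear_combination (1 / 2) * b2 + t2 + R.k4)
  have e8 := up (t1 := (908 / 1000)) (t2 := (941 / 1000)) (x := h0 + t) (by norm_num)
    (by linear_combination (114029 / 62500) * t1 + (114029 / 62500) * R.h1) (by linear_combination (1885481 / 1000000) * t2 + (1885481 / 1000000) * R.h2)
  have e9 := lo (t := (335 / 1000)) (x := s) (by norm_num)
    (by linear_combination s1) (by linear_combination s2)
  have e10 := up (t1 := (258 / 1000)) (t2 := (268 / 1000)) (x := b) (by norm_num)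
    (by linear_combination (266641 / 250000) * b1) (by linear_combination (66989 / 62500) * b2)
  have c1 := R.ph1
  have c2 := R.qh1
  have c3 := R.rh1
  have c4 := R.syv (by linear_combination (433015 / 465428) * e10 + R.k2 + (494811 / 46542800) * b1 + t2) (by linear_combination (433015 / 232714) * e10 + 2 * R.k2 + (46047989 / 23271400) * b2 + t2 + R.h1)
  unfold dl
  linear_combination (6590614484957895653875 / 2652454572434854623072) * e10 + (80000 / 35511) * e9 + (125000 / 36393) * e8 + (500000 / 931879) * e7 + (15625 / 30192) * e6 + (800000 / 187403) * e5 + (10000 / 9999) * e4 + (500000 / 295477) * e3 + (25000 / 46913) * e2 + (250000 / 248861) * e1 + (40747525262161175 / 62688536780733864) * R.k2 + (229318834875680699548331 / 439231624917943778190270) * s1 + (21308446969480239707128451 / 364712503709792510672400000) * b2 + (98902179950090476689115625 / 20359318414468331790227736) * t2 + (44961988250097986458975 / 7125967735256558871144)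 * R.h2 + (1 / 2) * R.h3 + (1 / 2) * c1 + (1 / 2) * c2 + (1 / 2) * c3 + (1 / 2) * c4

theorem ra77 {s b t k G1 G2 G3 G4 : ℝ} (R : RegA s b t k G1 G2 G3 G4) (hT : t ≤ 284 / 1000 * s) (hy : 0 ≤ 1 / 2 - s + t) (hb : 0 ≤ t - s + b) (hc : 0 ≤ s + 3 / 200 - t - b)
    (s1 : 5978 / 10000 ≤ s) (s2 : s ≤ 607 / 1000)
    (b1 : 4844 / 10000 ≤ b) (b2 : b ≤ 4922 / 10000) (t1 : 1321 / 10000 ≤ t) (t2 : t ≤ 267 / 2000) :
    4 * ph (s - t) - 2 * ph s + dl s ≤ (G1 + G2 + G3 + G4) / 2 := by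
  have e1 := up (t1 := (67 / 1000)) (t2 := (68 / 1000)) (x := 1 - h0) (by norm_num)
    (by linear_combination (1004489 / 1000000) * R.h2) (by linear_combination (62789 / 62500) * R.h1)
  have e2 := up (t1 := (245 / 1000)) (t2 := (252 / 1000)) (x := h0 + s - 1) (by norm_num)
    (by linear_combination (42401 / 40000) * s1 + (42401 / 40000) * R.h1) (by linear_combination (66469 / 62500) * s2 + (66469 / 62500) * R.h2)
  have e3 := lo (t := (336 / 1000)) (x := s - t + b / 2 - k) (by norm_num)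
    (by linear_combination s1 + (1 / 2) * b1 + t2 + R.k4) (by linear_combination s2 + (1 / 2) * b2 + t1 + R.k3)
  have e4 := lo (t := (-9 / 1000)) (x := h0 + s - 1 - t - b / 2 - k) (by norm_num)
    (by linear_combination s1 + (1 / 2) * b2 + t2 + R.k4 + R.h1) (by linear_combination s2 + (1 / 2) * b1 + t1 + R.k3 + R.h2)
  have e5 := up (t1 := (246 / 1000)) (t2 := (253 / 1000)) (x := s - t) (by norm_num)
    (by linear_combination (265129 / 250000) * s1 + (265129 / 250000) * t2) (by linear_combination (1064009 / 1000000) * s2 + (1064009 / 1000000) * t1)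
  have e6 := lo (t := (183 / 1000)) (x := h0 - 1 + t + b / 2 + k) (by norm_num)
    (by linear_combination (1 / 2) * b1 + t1 + R.k3 + R.h1) (by linear_combination (1 / 2) * b2 + t2 + R.k4 + R.h2)
  have e7 := lo (t := (260 / 1000)) (x := t + b / 2 + k) (by norm_num)
    (by linear_combination (1 / 2) * b1 + t1 + R.k3) (by linear_combination (1 / 2) * b2 + t2 + R.k4)
  have e8 := up (t1 := (940 / 1000)) (t2 := (970 / 1000)) (x := h0 + t) (by norm_num)
    (by linear_combination (4709 / 2500) * t1 + (4709 / 2500) * R.h1) (by linear_combination (19409 / 10000) * t2 + (19409 / 10000) * R.h2)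
  have e9 := lo (t := (335 / 1000)) (x := s) (by norm_num)
    (by linear_combination s1) (by linear_combination s2)
  have e10 := up (t1 := (258 / 1000)) (t2 := (264 / 1000)) (x := b) (by norm_num)
    (by linear_combination (266641 / 250000) * b1) (by linear_combination (16714 / 15625) * b2)
  have c1 := R.ph1
  have c2 := R.qh1
  have c3 := R.rh1
  have c4 := R.syv (by linear_combination (433015 / 465944) * e10 + R.k2 + (693817 / 46594400) * b1 + t2) (by linear_combination (433015 / 232972) * e10 + 2 * R.k2 + (45900583 / 23297200) * b2 + t2 + R.h1)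
  unfold dl
  linear_combination (644860000815855893381000 / 259808978619005416513731) * e10 + (80000 / 35511) * e9 + (2500 / 441) * e8 + (1250 / 2331) * e7 + (500000 / 966511) * e6 + (2000000 / 468881) * e5 + (1000000 / 999919) * e4 + (46875 / 27722) * e3 + (25000 / 46913) * e2 + (250000 / 248861) * e1 + (2899901794889438200 / 4460776035214625217) * R.k2 + (8264263640650219864164263 / 15466074126090565441201710) * s1 + (1335034887890513516332133969 / 25980897861900541651373100000) * b2 + (310392162988948859619625 / 33199573462975693434479) * t2 + (178293876268445085835250 / 16530795900373474991817) * R.h2 + (1 / 2) * R.h3 + (1 / 2) * c1 + (1 / 2) * c2 + (1 / 2) * c3 + (1 / 2) * c4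

theorem ra79 {s b t k G1 G2 G3 G4 : ℝ} (R : RegA s b t k G1 G2 G3 G4) (hT : t ≤ 284 / 1000 * s) (hy : 0 ≤ 1 / 2 - s + t) (hb : 0 ≤ t - s + b) (hc : 0 ≤ s + 3 / 200 - t - b)
    (s1 : 5978 / 10000 ≤ s) (s2 : s ≤ 6024 / 10000)
    (b1 : 4844 / 10000 ≤ b) (b2 : b ≤ 4922 / 10000) (t1 : 267 / 2000 ≤ t) (t2 : t ≤ 1348 / 10000) :
    4 * ph (s - t) - 2 * ph s + dl s ≤ (G1 + G2 + G3 + G4) / 2 := by
  exfalso
  exact absurd b1 (not_le.mpr (by linear_combination s2 + t1 + hc))

theorem ra80 {s b t k G1 G2 G3 G4 : ℝ} (R : RegA s b t k G1 G2 G3 G4) (hT : t ≤ 284 / 1000 * s) (hy : 0 ≤ 1 / 2 - s + t) (hb : 0 ≤ t - s + b) (hc : 0 ≤ s + 3 / 200 - t - b)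
    (s1 : 6024 / 10000 ≤ s) (s2 : s ≤ 607 / 1000)
    (b1 : 4844 / 10000 ≤ b) (b2 : b ≤ 4922 / 10000) (t1 : 267 / 2000 ≤ t) (t2 : t ≤ 1348 / 10000) :
    4 * ph (s - t) - 2 * ph s + dl s ≤ (G1 + G2 + G3 + G4) / 2 := by
  have e1 := up (t1 := (67 / 1000)) (t2 := (68 / 1000)) (x := 1 - h0) (by norm_num)
    (by linear_combination (1004489 / 1000000) * R.h2) (by linear_combination (62789 / 62500) * R.h1)
  have e2 := up (t1 := (248 / 1000)) (t2 := (252 / 1000)) (x := h0 + s - 1) (by norm_num)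
    (by linear_combination (16586 / 15625) * s1 + (16586 / 15625) * R.h1) (by linear_combination (66469 / 62500) * s2 + (66469 / 62500) * R.h2)
  have e3 := lo (t := (336 / 1000)) (x := s - t + b / 2 - k) (by norm_num)
    (by linear_combination s1 + (1 / 2) * b1 + t2 + R.k4) (by linear_combination s2 + (1 / 2) * b2 + t1 + R.k3)
  have e4 := lo (t := (-9 / 1000)) (x := h0 + s - 1 - t - b / 2 - k) (by norm_num)
    (by linear_combination s1 + (1 / 2) * b2 + t2 + R.k4 + R.h1) (by linear_combination s2 + (1 / 2) * b1 + t1 + R.k3 + R.h2)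
  have e5 := up (t1 := (248 / 1000)) (t2 := (252 / 1000)) (x := s - t) (by norm_num)
    (by linear_combination (16586 / 15625) * s1 + (16586 / 15625) * t2) (by linear_combination (66469 / 62500) * s2 + (66469 / 62500) * t1)
  have e6 := lo (t := (183 / 1000)) (x := h0 - 1 + t + b / 2 + k) (by norm_num)
    (by linear_combination (1 / 2) * b1 + t1 + R.k3 + R.h1) (by linear_combination (1 / 2) * b2 + t2 + R.k4 + R.h2)
  have e7 := lo (t := (337 / 1000)) (x := s) (by norm_num)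
    (by linear_combination s1) (by linear_combination s2)
  have e8 := up (t1 := (258 / 1000)) (t2 := (264 / 1000)) (x := b) (by norm_num)
    (by linear_combination (266641 / 250000) * b1) (by linear_combination (16714 / 15625) * b2)
  have c1 := R.ph1
  have c2 := R.qh1
  have c3 := R.rh1
  unfold dl
  linear_combination (7717575738950610125625 / 3120828572000065063228) * e8 + (2000000 / 886431) * e7 + (500000 / 966511) * e6 + (125000 / 29297) * e5 + (1000000 / 999919) * e4 + (46875 / 27722) * e3 + (15625 / 29297) * e2 + (250000 / 248861) * e1 + (12443815123716750 / 13395723829473349) * R.k2 + (970024076122778773657 / 1799689054408011559065) * s1 + (7727858135851482580305 / 12483314288000260252912) * b2 + (472666287662554687750 / 392454521032080705653) * t1 + (567802699407655360375 / 14092291257277921721306) * R.h1 + (1 / 2) * c1 + (1 / 2) * c2 + (1 / 2) * c3 + (1 / 2) * R.n4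

theorem ra81 {s b t k G1 G2 G3 G4 : ℝ} (R : RegA s b t k G1 G2 G3 G4) (hT : t ≤ 284 / 1000 * s) (hy : 0 ≤ 1 / 2 - s + t) (hb : 0 ≤ t - s + b) (hc : 0 ≤ s + 3 / 200 - t - b)
    (s1 : 5978 / 10000 ≤ s) (s2 : s ≤ 607 / 1000)
    (b1 : 4922 / 10000 ≤ b) (b2 : b ≤ 1 / 2) (t1 : 1321 / 10000 ≤ t) (t2 : t ≤ 1348 / 10000) :
    4 * ph (s - t) - 2 * ph s + dl s ≤ (G1 + G2 + G3 + G4) / 2 := by
  exfalso
  exact absurd b1 (not_le.mpr (by linear_combination s2 + t1 + hc))

theorem ra84 {s b t k G1 G2 G3 G4 : ℝ} (R : RegA s b t k G1 G2 G3 G4) (hT : t ≤ 284 / 1000 * s) (hy : 0 ≤ 1 / 2 - s + t) (hb : 0 ≤ t - s + b) (hc : 0 ≤ s + 3 / 200 - t - b)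
    (s1 : 5978 / 10000 ≤ s) (s2 : s ≤ 6024 / 10000)
    (b1 : 4844 / 10000 ≤ b) (b2 : b ≤ 4922 / 10000) (t1 : 1348 / 10000 ≤ t) (t2 : t ≤ 1402 / 10000) :
    4 * ph (s - t) - 2 * ph s + dl s ≤ (G1 + G2 + G3 + G4) / 2 := by
  exfalso
  exact absurd b1 (not_le.mpr (by linear_combination s2 + t1 + hc))

theorem ra85 {s b t k G1 G2 G3 G4 : ℝ} (R : RegA s b t k G1 G2 G3 G4) (hT : t ≤ 284 / 1000 * s) (hy : 0 ≤ 1 / 2 - s + t) (hb : 0 ≤ t - s + b) (hc : 0 ≤ s + 3 / 200 - t - b)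
    (s1 : 6024 / 10000 ≤ s) (s2 : s ≤ 607 / 1000)
    (b1 : 4844 / 10000 ≤ b) (b2 : b ≤ 4922 / 10000) (t1 : 1348 / 10000 ≤ t) (t2 : t ≤ 1402 / 10000) :
    4 * ph (s - t) - 2 * ph s + dl s ≤ (G1 + G2 + G3 + G4) / 2 := by
  have e1 := up (t1 := (67 / 1000)) (t2 := (68 / 1000)) (x := 1 - h0) (by norm_num)
    (by linear_combination (1004489 / 1000000) * R.h2) (by linear_combination (62789 / 62500) * R.h1)
  have e2 := up (t1 := (248 / 1000)) (t2 := (252 / 1000)) (x := h0 + s - 1) (by norm_num)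
    (by linear_combination (16586 / 15625) * s1 + (16586 / 15625) * R.h1) (by linear_combination (66469 / 62500) * s2 + (66469 / 62500) * R.h2)
  have e3 := lo (t := (334 / 1000)) (x := s - t + b / 2 - k) (by norm_num)
    (by linear_combination s1 + (1 / 2) * b1 + t2 + R.k4) (by linear_combination s2 + (1 / 2) * b2 + t1 + R.k3)
  have e4 := lo (t := (-11 / 1000)) (x := h0 + s - 1 - t - b / 2 - k) (by norm_num)
    (by linear_combination s1 + (1 / 2) * b2 + t2 + R.k4 + R.h1) (by linear_combination s2 + (1 / 2) * b1 + t1 + R.k3 + R.h2)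
  have e5 := up (t1 := (244 / 1000)) (t2 := (251 / 1000)) (x := s - t) (by norm_num)
    (by linear_combination (66221 / 62500) * s1 + (66221 / 62500) * t2) (by linear_combination (1063001 / 1000000) * s2 + (1063001 / 1000000) * t1)
  have e6 := lo (t := (185 / 1000)) (x := h0 - 1 + t + b / 2 + k) (by norm_num)
    (by linear_combination (1 / 2) * b1 + t1 + R.k3 + R.h1) (by linear_combination (1 / 2) * b2 + t2 + R.k4 + R.h2)
  have e7 := lo (t := (337 / 1000)) (x := s) (by norm_num)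
    (by linear_combination s1) (by linear_combination s2)
  have e8 := up (t1 := (258 / 1000)) (t2 := (264 / 1000)) (x := b) (by norm_num)
    (by linear_combination (266641 / 250000) * b1) (by linear_combination (16714 / 15625) * b2)
  have c1 := R.ph1
  have c2 := R.qh1
  have c3 := R.rh1
  unfold dl
  linear_combination (1319235146508342375 / 536431586658502358) * e8 + (2000000 / 886431) * e7 + (20000 / 38631) * e6 + (1000000 / 234689) * e5 + (1000000 / 999879) * e4 + (125000 / 74037) * e3 + (15625 / 29297) * e2 + (250000 / 248861) * e1 + (4210254381300 / 4605116380153) * R.k2 + (21983204069346928045621 / 39920327261798119467695) * s1 + (3946359434350259437 / 6437179039902028296) * b2 + (1291432217682819300 / 1080770158141727417) * t1 + (2409770952845036975 / 62582207298412580074) * R.h1 + (1 / 2) * c1 + (1 / 2) * c2 + (1 / 2) * c3 + (1 / 2) * R.n4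

theorem ra86 {s b t k G1 G2 G3 G4 : ℝ} (R : RegA s b t k G1 G2 G3 G4) (hT : t ≤ 284 / 1000 * s) (hy : 0 ≤ 1 / 2 - s + t) (hb : 0 ≤ t - s + b) (hc : 0 ≤ s + 3 / 200 - t - b)
    (s1 : 5978 / 10000 ≤ s) (s2 : s ≤ 607 / 1000)
    (b1 : 4922 / 10000 ≤ b) (b2 : b ≤ 1 / 2) (t1 : 1348 / 10000 ≤ t) (t2 : t ≤ 1402 / 10000) :
    4 * ph (s - t) - 2 * ph s + dl s ≤ (G1 + G2 + G3 + G4) / 2 := by
  exfalso
  exact absurd b1 (not_le.mpr (by linear_combination s2 + t1 + hc))

theorem ra88 {s b t k G1 G2 G3 G4 : ℝ} (R : RegA s b t k G1 G2 G3 G4) (hT : t ≤ 284 / 1000 * s) (hy : 0 ≤ 1 / 2 - s + t) (hb : 0 ≤ t - s + b) (hc : 0 ≤ s + 3 / 200 - t - b)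
    (s1 : 57 / 100 ≤ s) (s2 : s ≤ 1177 / 2000)
    (b1 : 4688 / 10000 ≤ b) (b2 : b ≤ 1 / 2) (t1 : 1402 / 10000 ≤ t) (t2 : t ≤ 1509 / 10000) :
    4 * ph (s - t) - 2 * ph s + dl s ≤ (G1 + G2 + G3 + G4) / 2 := by
  exfalso
  exact absurd b1 (not_le.mpr (by linear_combination s2 + t1 + hc))

theorem ra90 {s b t k G1 G2 G3 G4 : ℝ} (R : RegA s b t k G1 G2 G3 G4) (hT : t ≤ 284 / 1000 * s) (hy : 0 ≤ 1 / 2 - s + t) (hb : 0 ≤ t - s + b) (hc : 0 ≤ s + 3 / 200 - t - b)
    (s1 : 1177 / 2000 ≤ s) (s2 : s ≤ 607 / 1000)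
    (b1 : 4688 / 10000 ≤ b) (b2 : b ≤ 4844 / 10000) (t1 : 1402 / 10000 ≤ t) (t2 : t ≤ 1509 / 10000) :
    4 * ph (s - t) - 2 * ph s + dl s ≤ (G1 + G2 + G3 + G4) / 2 := by
  have e1 := up (t1 := (67 / 1000)) (t2 := (68 / 1000)) (x := 1 - h0) (by norm_num)
    (by linear_combination (1004489 / 1000000) * R.h2) (by linear_combination (62789 / 62500) * R.h1)
  have e2 := up (t1 := (240 / 1000)) (t2 := (252 / 1000)) (x := h0 + s - 1) (by norm_num)
    (by linear_combination (661 / 625) * s1 + (661 / 625) * R.h1) (by linear_combination (66469 / 62500) * s2 + (66469 / 62500) * R.h2)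
  have e3 := lo (t := (324 / 1000)) (x := s - t + b / 2 - k) (by norm_num)
    (by linear_combination s1 + (1 / 2) * b1 + t2 + R.k4) (by linear_combination s2 + (1 / 2) * b2 + t1 + R.k3)
  have e4 := lo (t := (-12 / 1000)) (x := h0 + s - 1 - t - b / 2 - k) (by norm_num)
    (by linear_combination s1 + (1 / 2) * b2 + t2 + R.k4 + R.h1) (by linear_combination s2 + (1 / 2) * b1 + t1 + R.k3 + R.h2)
  have e5 := up (t1 := (230 / 1000)) (t2 := (248 / 1000)) (x := s - t) (by norm_num)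
    (by linear_combination (10529 / 10000) * s1 + (10529 / 10000) * t2) (by linear_combination (16586 / 15625) * s2 + (16586 / 15625) * t1)
  have e6 := lo (t := (183 / 1000)) (x := h0 - 1 + t + b / 2 + k) (by norm_num)
    (by linear_combination (1 / 2) * b1 + t1 + R.k3 + R.h1) (by linear_combination (1 / 2) * b2 + t2 + R.k4 + R.h2)
  have e7 := lo (t := (332 / 1000)) (x := s) (by norm_num)
    (by linear_combination s1) (by linear_combination s2)
  have e8 := up (t1 := (248 / 1000)) (t2 := (259 / 1000)) (x := b) (by norm_num)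
    (by linear_combination (16586 / 15625) * b1) (by linear_combination (1067081 / 1000000) * b2)
  have c1 := R.ph1
  have c2 := R.qh1
  have c3 := R.rh1
  unfold dl
  linear_combination (4149479021131875 / 1721356522063906) * e8 + (125000 / 55611) * e7 + (500000 / 966511) * e6 + (50000 / 11787) * e5 + (62500 / 62491) * e4 + (93750 / 55939) * e3 + (3125 / 5872) * e2 + (250000 / 248861) * e1 + (70631826750 / 80938530673) * R.k2 + (1949305378829124138367 / 3449988130364160596640) * s1 + (86720893007529735 / 151479373941623728) * b2 + (1101893541182450 / 954022461042651) * t1 + (27957133742119275 / 714661204227242272) * R.h1 + (1 / 2) * c1 + (1 / 2) * c2 + (1 / 2) * c3 + (1 / 2) * R.n4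

theorem ra91 {s b t k G1 G2 G3 G4 : ℝ} (R : RegA s b t k G1 G2 G3 G4) (hT : t ≤ 284 / 1000 * s) (hy : 0 ≤ 1 / 2 - s + t) (hb : 0 ≤ t - s + b) (hc : 0 ≤ s + 3 / 200 - t - b)
    (s1 : 1177 / 2000 ≤ s) (s2 : s ≤ 607 / 1000)
    (b1 : 4844 / 10000 ≤ b) (b2 : b ≤ 1 / 2) (t1 : 1402 / 10000 ≤ t) (t2 : t ≤ 1509 / 10000) :
    4 * ph (s - t) - 2 * ph s + dl s ≤ (G1 + G2 + G3 + G4) / 2 := by
  exfalso
  exact absurd b1 (not_le.mpr (by linear_combination s2 + t1 + hc))

theorem ra93 {s b t k G1 G2 G3 G4 : ℝ} (R : RegA s b t k G1 G2 G3 G4) (hT : t ≤ 284 / 1000 * s) (hy : 0 ≤ 1 / 2 - s + t) (hb : 0 ≤ t - s + b) (hc : 0 ≤ s + 3 / 200 - t - b)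
    (s1 : 57 / 100 ≤ s) (s2 : s ≤ 607 / 1000)
    (b1 : 875 / 2000 ≤ b) (b2 : b ≤ 4688 / 10000) (t1 : 1509 / 10000 ≤ t) (t2 : t ≤ 345 / 2000) :
    4 * ph (s - t) - 2 * ph s + dl s ≤ (G1 + G2 + G3 + G4) / 2 := by
  have e1 := up (t1 := (67 / 1000)) (t2 := (68 / 1000)) (x := 1 - h0) (by norm_num)
    (by linear_combination (1004489 / 1000000) * R.h2) (by linear_combination (62789 / 62500) * R.h1)
  have e2 := up (t1 := (229 / 1000)) (t2 := (252 / 1000)) (x := h0 + s - 1) (by norm_num)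
    (by linear_combination (1052441 / 1000000) * s1 + (1052441 / 1000000) * R.h1) (by linear_combination (66469 / 62500) * s2 + (66469 / 62500) * R.h2)
  have e3 := lo (t := (306 / 1000)) (x := s - t + b / 2 - k) (by norm_num)
    (by linear_combination s1 + (1 / 2) * b1 + t2 + R.k4) (by linear_combination s2 + (1 / 2) * b2 + t1 + R.k3)
  have e4 := lo (t := (-14 / 1000)) (x := h0 + s - 1 - t - b / 2 - k) (by norm_num)
    (by linear_combination s1 + (1 / 2) * b2 + t2 + R.k4 + R.h1) (by linear_combination s2 + (1 / 2) * b1 + t1 + R.k3 + R.h2)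
  have e5 := up (t1 := (207 / 1000)) (t2 := (242 / 1000)) (x := s - t) (by norm_num)
    (by linear_combination (1042849 / 1000000) * s1 + (1042849 / 1000000) * t2) (by linear_combination (264641 / 250000) * s2 + (264641 / 250000) * t1)
  have e6 := lo (t := (180 / 1000)) (x := h0 - 1 + t + b / 2 + k) (by norm_num)
    (by linear_combination (1 / 2) * b1 + t1 + R.k3 + R.h1) (by linear_combination (1 / 2) * b2 + t2 + R.k4 + R.h2)
  have e7 := lo (t := (325 / 1000)) (x := s) (by norm_num)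
    (by linear_combination s1) (by linear_combination s2)
  have e8 := up (t1 := (230 / 1000)) (t2 := (249 / 1000)) (x := b) (by norm_num)
    (by linear_combination (10529 / 10000) * b1) (by linear_combination (1062001 / 1000000) * b2)
  have c1 := R.ph1
  have c2 := R.qh1
  have c3 := R.rh1
  unfold dl
  linear_combination (30028402075370272150 / 12915782729494290867) * e8 + (3200 / 1431) * e7 + (1250 / 2419) * e6 + (2000000 / 474953) * e5 + (250000 / 249951) * e4 + (375000 / 226591) * e3 + (125000 / 235573) * e2 + (250000 / 248861) * e1 + (109439565564050 / 137004049192179) * R.k2 + (1377456975468432658490573 / 2325137868003674028793410) * s1 + (43070704785548077899 / 86105218196628605780) * b2 + (71050986191234502350 / 65070484175972992587) * t1 + (104733247410673075 / 2726652228355385889) * R.h1 + (1 / 2) * c1 + (1 / 2) * c2 + (1 / 2) * c3 + (1 / 2) * R.n4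

theorem ra95 {s b t k G1 G2 G3 G4 : ℝ} (R : RegA s b t k G1 G2 G3 G4) (hT : t ≤ 284 / 1000 * s) (hy : 0 ≤ 1 / 2 - s + t) (hb : 0 ≤ t - s + b) (hc : 0 ≤ s + 3 / 200 - t - b)
    (s1 : 57 / 100 ≤ s) (s2 : s ≤ 1177 / 2000)
    (b1 : 4688 / 10000 ≤ b) (b2 : b ≤ 1 / 2) (t1 : 1509 / 10000 ≤ t) (t2 : t ≤ 345 / 2000) :
    4 * ph (s - t) - 2 * ph s + dl s ≤ (G1 + G2 + G3 + G4) / 2 := by
  exfalso
  exact absurd b1 (not_le.mpr (by linear_combination s2 + t1 + hc))

theorem ra96 {s b t k G1 G2 G3 G4 : ℝ} (R : RegA s b t k G1 G2 G3 G4) (hT : t ≤ 284 / 1000 * s) (hy : 0 ≤ 1 / 2 - s + t) (hb : 0 ≤ t - s + b) (hc : 0 ≤ s + 3 / 200 - t - b)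
    (s1 : 1177 / 2000 ≤ s) (s2 : s ≤ 607 / 1000)
    (b1 : 4688 / 10000 ≤ b) (b2 : b ≤ 1 / 2) (t1 : 1509 / 10000 ≤ t) (t2 : t ≤ 345 / 2000) :
    4 * ph (s - t) - 2 * ph s + dl s ≤ (G1 + G2 + G3 + G4) / 2 := by
  have e1 := up (t1 := (67 / 1000)) (t2 := (68 / 1000)) (x := 1 - h0) (by norm_num)
    (by linear_combination (1004489 / 1000000) * R.h2) (by linear_combination (62789 / 62500) * R.h1)
  have e2 := up (t1 := (240 / 1000)) (t2 := (252 / 1000)) (x := h0 + s - 1) (by norm_num)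
    (by linear_combination (661 / 625) * s1 + (661 / 625) * R.h1) (by linear_combination (66469 / 62500) * s2 + (66469 / 62500) * R.h2)
  have e3 := lo (t := (313 / 1000)) (x := s - t + b / 2 - k) (by norm_num)
    (by linear_combination s1 + (1 / 2) * b1 + t2 + R.k4) (by linear_combination s2 + (1 / 2) * b2 + t1 + R.k3)
  have e4 := lo (t := (-24 / 1000)) (x := h0 + s - 1 - t - b / 2 - k) (by norm_num)
    (by linear_combination s1 + (1 / 2) * b2 + t2 + R.k4 + R.h1) (by linear_combination s2 + (1 / 2) * b1 + t1 + R.k3 + R.h2)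
  have e5 := up (t1 := (217 / 1000)) (t2 := (242 / 1000)) (x := s - t) (by norm_num)
    (by linear_combination (1047089 / 1000000) * s1 + (1047089 / 1000000) * t2) (by linear_combination (264641 / 250000) * s2 + (264641 / 250000) * t1)
  have e6 := lo (t := (197 / 1000)) (x := h0 - 1 + t + b / 2 + k) (by norm_num)
    (by linear_combination (1 / 2) * b1 + t1 + R.k3 + R.h1) (by linear_combination (1 / 2) * b2 + t2 + R.k4 + R.h2)
  have e7 := lo (t := (332 / 1000)) (x := s) (by norm_num)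
    (by linear_combination s1) (by linear_combination s2)
  have e8 := up (t1 := (248 / 1000)) (t2 := (268 / 1000)) (x := b) (by norm_num)
    (by linear_combination (16586 / 15625) * b1) (by linear_combination (66989 / 62500) * b2)
  have c1 := R.ph1
  have c2 := R.qh1
  have c3 := R.rh1
  unfold dl
  linear_combination (223855670461046234375 / 95754258662623561728) * e8 + (125000 / 55611) * e7 + (500000 / 961191) * e6 + (2000000 / 473743) * e5 + (15625 / 15616) * e4 + (500000 / 300677) * e3 + (3125 / 5872) * e2 + (250000 / 248861) * e1 + (1778186374646875 / 2256574669405056) * R.k2 + (66493941960051431112559 / 113495748208859370257280) * s1 + (1178279365246557498625 / 2106593690577718358016) * b2 + (1229132198829506904875 / 1069036453607959444608) * t1 + (21048938194172825 / 685444674420164736) * R.h1 + (1 / 2) * c1 + (1 / 2) * c2 + (1 / 2) * c3 + (1 / 2) * R.n4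

theorem ra94 {s b t k G1 G2 G3 G4 : ℝ} (R : RegA s b t k G1 G2 G3 G4) (hT : t ≤ 284 / 1000 * s) (hy : 0 ≤ 1 / 2 - s + t) (hb : 0 ≤ t - s + b) (hc : 0 ≤ s + 3 / 200 - t - b)
    (s1 : 57 / 100 ≤ s) (s2 : s ≤ 607 / 1000)
    (b1 : 4688 / 10000 ≤ b) (b2 : b ≤ 1 / 2) (t1 : 1509 / 10000 ≤ t) (t2 : t ≤ 345 / 2000) :
    4 * ph (s - t) - 2 * ph s + dl s ≤ (G1 + G2 + G3 + G4) / 2 := by
  rcases le_total s (1177 / 2000) with h | h
  · exact ra95 R hT hy hb hc s1 h b1 b2 t1 t2
  · exact ra96 R hT hy hb hc h s2 b1 b2 t1 t2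

theorem ra92 {s b t k G1 G2 G3 G4 : ℝ} (R : RegA s b t k G1 G2 G3 G4) (hT : t ≤ 284 / 1000 * s) (hy : 0 ≤ 1 / 2 - s + t) (hb : 0 ≤ t - s + b) (hc : 0 ≤ s + 3 / 200 - t - b)
    (s1 : 57 / 100 ≤ s) (s2 : s ≤ 607 / 1000)
    (b1 : 875 / 2000 ≤ b) (b2 : b ≤ 1 / 2) (t1 : 1509 / 10000 ≤ t) (t2 : t ≤ 345 / 2000) :
    4 * ph (s - t) - 2 * ph s + dl s ≤ (G1 + G2 + G3 + G4) / 2 := by
  rcases le_total b (4688 / 10000) with h | h
  · exact ra93 R hT hy hb hc s1 s2 b1 h t1 t2
  · exact ra94 R hT hy hb hc s1 s2 h b2 t1 t2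

theorem ra89 {s b t k G1 G2 G3 G4 : ℝ} (R : RegA s b t k G1 G2 G3 G4) (hT : t ≤ 284 / 1000 * s) (hy : 0 ≤ 1 / 2 - s + t) (hb : 0 ≤ t - s + b) (hc : 0 ≤ s + 3 / 200 - t - b)
    (s1 : 1177 / 2000 ≤ s) (s2 : s ≤ 607 / 1000)
    (b1 : 4688 / 10000 ≤ b) (b2 : b ≤ 1 / 2) (t1 : 1402 / 10000 ≤ t) (t2 : t ≤ 1509 / 10000) :
    4 * ph (s - t) - 2 * ph s + dl s ≤ (G1 + G2 + G3 + G4) / 2 := by
  rcases le_total b (4844 / 10000) with h | h
  · exact ra90 R hT hy hb hc s1 s2 b1 h t1 t2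
  · exact ra91 R hT hy hb hc s1 s2 h b2 t1 t2

theorem ra87 {s b t k G1 G2 G3 G4 : ℝ} (R : RegA s b t k G1 G2 G3 G4) (hT : t ≤ 284 / 1000 * s) (hy : 0 ≤ 1 / 2 - s + t) (hb : 0 ≤ t - s + b) (hc : 0 ≤ s + 3 / 200 - t - b)
    (s1 : 57 / 100 ≤ s) (s2 : s ≤ 607 / 1000)
    (b1 : 4688 / 10000 ≤ b) (b2 : b ≤ 1 / 2) (t1 : 1402 / 10000 ≤ t) (t2 : t ≤ 1509 / 10000) :
    4 * ph (s - t) - 2 * ph s + dl s ≤ (G1 + G2 + G3 + G4) / 2 := by
  rcases le_total s (1177 / 2000) with h | h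
  · exact ra88 R hT hy hb hc s1 h b1 b2 t1 t2
  · exact ra89 R hT hy hb hc h s2 b1 b2 t1 t2

theorem ra83 {s b t k G1 G2 G3 G4 : ℝ} (R : RegA s b t k G1 G2 G3 G4) (hT : t ≤ 284 / 1000 * s) (hy : 0 ≤ 1 / 2 - s + t) (hb : 0 ≤ t - s + b) (hc : 0 ≤ s + 3 / 200 - t - b)
    (s1 : 5978 / 10000 ≤ s) (s2 : s ≤ 607 / 1000)
    (b1 : 4844 / 10000 ≤ b) (b2 : b ≤ 4922 / 10000) (t1 : 1348 / 10000 ≤ t) (t2 : t ≤ 1402 / 10000) :
    4 * ph (s - t) - 2 * ph s + dl s ≤ (G1 + G2 + G3 + G4) / 2 := by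
  rcases le_total s (6024 / 10000) with h | h
  · exact ra84 R hT hy hb hc s1 h b1 b2 t1 t2
  · exact ra85 R hT hy hb hc h s2 b1 b2 t1 t2

theorem ra82 {s b t k G1 G2 G3 G4 : ℝ} (R : RegA s b t k G1 G2 G3 G4) (hT : t ≤ 284 / 1000 * s) (hy : 0 ≤ 1 / 2 - s + t) (hb : 0 ≤ t - s + b) (hc : 0 ≤ s + 3 / 200 - t - b)
    (s1 : 5978 / 10000 ≤ s) (s2 : s ≤ 607 / 1000)
    (b1 : 4844 / 10000 ≤ b) (b2 : b ≤ 1 / 2) (t1 : 1348 / 10000 ≤ t) (t2 : t ≤ 1402 / 10000) :
    4 * ph (s - t) - 2 * ph s + dl s ≤ (G1 + G2 + G3 + G4) / 2 := by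
  rcases le_total b (4922 / 10000) with h | h
  · exact ra83 R hT hy hb hc s1 s2 b1 h t1 t2
  · exact ra86 R hT hy hb hc s1 s2 h b2 t1 t2

theorem ra78 {s b t k G1 G2 G3 G4 : ℝ} (R : RegA s b t k G1 G2 G3 G4) (hT : t ≤ 284 / 1000 * s) (hy : 0 ≤ 1 / 2 - s + t) (hb : 0 ≤ t - s + b) (hc : 0 ≤ s + 3 / 200 - t - b)
    (s1 : 5978 / 10000 ≤ s) (s2 : s ≤ 607 / 1000)
    (b1 : 4844 / 10000 ≤ b) (b2 : b ≤ 4922 / 10000) (t1 : 267 / 2000 ≤ t) (t2 : t ≤ 1348 / 10000) :
    4 * ph (s - t) - 2 * ph s + dl s ≤ (G1 + G2 + G3 + G4) / 2 := by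
  rcases le_total s (6024 / 10000) with h | h
  · exact ra79 R hT hy hb hc s1 h b1 b2 t1 t2
  · exact ra80 R hT hy hb hc h s2 b1 b2 t1 t2

theorem ra76 {s b t k G1 G2 G3 G4 : ℝ} (R : RegA s b t k G1 G2 G3 G4) (hT : t ≤ 284 / 1000 * s) (hy : 0 ≤ 1 / 2 - s + t) (hb : 0 ≤ t - s + b) (hc : 0 ≤ s + 3 / 200 - t - b)
    (s1 : 5978 / 10000 ≤ s) (s2 : s ≤ 607 / 1000)
    (b1 : 4844 / 10000 ≤ b) (b2 : b ≤ 4922 / 10000) (t1 : 1321 / 10000 ≤ t) (t2 : t ≤ 1348 / 10000) :
    4 * ph (s - t) - 2 * ph s + dl s ≤ (G1 + G2 + G3 + G4) / 2 := by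
  rcases le_total t (267 / 2000) with h | h
  · exact ra77 R hT hy hb hc s1 s2 b1 b2 t1 h
  · exact ra78 R hT hy hb hc s1 s2 b1 b2 h t2

theorem ra75 {s b t k G1 G2 G3 G4 : ℝ} (R : RegA s b t k G1 G2 G3 G4) (hT : t ≤ 284 / 1000 * s) (hy : 0 ≤ 1 / 2 - s + t) (hb : 0 ≤ t - s + b) (hc : 0 ≤ s + 3 / 200 - t - b)
    (s1 : 5978 / 10000 ≤ s) (s2 : s ≤ 607 / 1000)
    (b1 : 4844 / 10000 ≤ b) (b2 : b ≤ 1 / 2) (t1 : 1321 / 10000 ≤ t) (t2 : t ≤ 1348 / 10000) :
    4 * ph (s - t) - 2 * ph s + dl s ≤ (G1 + G2 + G3 + G4) / 2 := by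
  rcases le_total b (4922 / 10000) with h | h
  · exact ra76 R hT hy hb hc s1 s2 b1 h t1 t2
  · exact ra81 R hT hy hb hc s1 s2 h b2 t1 t2

theorem ra73 {s b t k G1 G2 G3 G4 : ℝ} (R : RegA s b t k G1 G2 G3 G4) (hT : t ≤ 284 / 1000 * s) (hy : 0 ≤ 1 / 2 - s + t) (hb : 0 ≤ t - s + b) (hc : 0 ≤ s + 3 / 200 - t - b)
    (s1 : 5978 / 10000 ≤ s) (s2 : s ≤ 607 / 1000)
    (b1 : 4844 / 10000 ≤ b) (b2 : b ≤ 1 / 2) (t1 : 1294 / 10000 ≤ t) (t2 : t ≤ 1348 / 10000) :
    4 * ph (s - t) - 2 * ph s + dl s ≤ (G1 + G2 + G3 + G4) / 2 := by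
  rcases le_total t (1321 / 10000) with h | h
  · exact ra74 R hT hy hb hc s1 s2 b1 b2 t1 h
  · exact ra75 R hT hy hb hc s1 s2 b1 b2 h t2

theorem ra72 {s b t k G1 G2 G3 G4 : ℝ} (R : RegA s b t k G1 G2 G3 G4) (hT : t ≤ 284 / 1000 * s) (hy : 0 ≤ 1 / 2 - s + t) (hb : 0 ≤ t - s + b) (hc : 0 ≤ s + 3 / 200 - t - b)
    (s1 : 5978 / 10000 ≤ s) (s2 : s ≤ 607 / 1000)
    (b1 : 4844 / 10000 ≤ b) (b2 : b ≤ 1 / 2) (t1 : 1294 / 10000 ≤ t) (t2 : t ≤ 1402 / 10000) :
    4 * ph (s - t) - 2 * ph s + dl s ≤ (G1 + G2 + G3 + G4) / 2 := by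
  rcases le_total t (1348 / 10000) with h | h
  · exact ra73 R hT hy hb hc s1 s2 b1 b2 t1 h
  · exact ra82 R hT hy hb hc s1 s2 b1 b2 h t2

theorem ra70 {s b t k G1 G2 G3 G4 : ℝ} (R : RegA s b t k G1 G2 G3 G4) (hT : t ≤ 284 / 1000 * s) (hy : 0 ≤ 1 / 2 - s + t) (hb : 0 ≤ t - s + b) (hc : 0 ≤ s + 3 / 200 - t - b)
    (s1 : 1177 / 2000 ≤ s) (s2 : s ≤ 607 / 1000)
    (b1 : 4844 / 10000 ≤ b) (b2 : b ≤ 1 / 2) (t1 : 1294 / 10000 ≤ t) (t2 : t ≤ 1402 / 10000) :
    4 * ph (s - t) - 2 * ph s + dl s ≤ (G1 + G2 + G3 + G4) / 2 := by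
  rcases le_total s (5978 / 10000) with h | h
  · exact ra71 R hT hy hb hc s1 h b1 b2 t1 t2
  · exact ra72 R hT hy hb hc h s2 b1 b2 t1 t2

theorem ra66 {s b t k G1 G2 G3 G4 : ℝ} (R : RegA s b t k G1 G2 G3 G4) (hT : t ≤ 284 / 1000 * s) (hy : 0 ≤ 1 / 2 - s + t) (hb : 0 ≤ t - s + b) (hc : 0 ≤ s + 3 / 200 - t - b)
    (s1 : 1177 / 2000 ≤ s) (s2 : s ≤ 5978 / 10000)
    (b1 : 4766 / 10000 ≤ b) (b2 : b ≤ 4844 / 10000) (t1 : 1348 / 10000 ≤ t) (t2 : t ≤ 1402 / 10000) :
    4 * ph (s - t) - 2 * ph s + dl s ≤ (G1 + G2 + G3 + G4) / 2 := by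
  rcases le_total s (5932 / 10000) with h | h
  · exact ra67 R hT hy hb hc s1 h b1 b2 t1 t2
  · exact ra68 R hT hy hb hc h s2 b1 b2 t1 t2

theorem ra64 {s b t k G1 G2 G3 G4 : ℝ} (R : RegA s b t k G1 G2 G3 G4) (hT : t ≤ 284 / 1000 * s) (hy : 0 ≤ 1 / 2 - s + t) (hb : 0 ≤ t - s + b) (hc : 0 ≤ s + 3 / 200 - t - b)
    (s1 : 1177 / 2000 ≤ s) (s2 : s ≤ 5978 / 10000)
    (b1 : 4688 / 10000 ≤ b) (b2 : b ≤ 4844 / 10000) (t1 : 1348 / 10000 ≤ t) (t2 : t ≤ 1402 / 10000) :
    4 * ph (s - t) - 2 * ph s + dl s ≤ (G1 + G2 + G3 + G4) / 2 := by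
  rcases le_total b (4766 / 10000) with h | h
  · exact ra65 R hT hy hb hc s1 s2 b1 h t1 t2
  · exact ra66 R hT hy hb hc s1 s2 h b2 t1 t2

theorem ra63 {s b t k G1 G2 G3 G4 : ℝ} (R : RegA s b t k G1 G2 G3 G4) (hT : t ≤ 284 / 1000 * s) (hy : 0 ≤ 1 / 2 - s + t) (hb : 0 ≤ t - s + b) (hc : 0 ≤ s + 3 / 200 - t - b)
    (s1 : 1177 / 2000 ≤ s) (s2 : s ≤ 607 / 1000)
    (b1 : 4688 / 10000 ≤ b) (b2 : b ≤ 4844 / 10000) (t1 : 1348 / 10000 ≤ t) (t2 : t ≤ 1402 / 10000) :
    4 * ph (s - t) - 2 * ph s + dl s ≤ (G1 + G2 + G3 + G4) / 2 := by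
  rcases le_total s (5978 / 10000) with h | h
  · exact ra64 R hT hy hb hc s1 h b1 b2 t1 t2
  · exact ra69 R hT hy hb hc h s2 b1 b2 t1 t2

theorem ra59 {s b t k G1 G2 G3 G4 : ℝ} (R : RegA s b t k G1 G2 G3 G4) (hT : t ≤ 284 / 1000 * s) (hy : 0 ≤ 1 / 2 - s + t) (hb : 0 ≤ t - s + b) (hc : 0 ≤ s + 3 / 200 - t - b)
    (s1 : 5932 / 10000 ≤ s) (s2 : s ≤ 5978 / 10000)
    (b1 : 4766 / 10000 ≤ b) (b2 : b ≤ 4844 / 10000) (t1 : 1321 / 10000 ≤ t) (t2 : t ≤ 1348 / 10000) :
    4 * ph (s - t) - 2 * ph s + dl s ≤ (G1 + G2 + G3 + G4) / 2 := by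
  rcases le_total t (267 / 2000) with h | h
  · exact ra60 R hT hy hb hc s1 s2 b1 b2 t1 h
  · exact ra61 R hT hy hb hc s1 s2 b1 b2 h t2

theorem ra57 {s b t k G1 G2 G3 G4 : ℝ} (R : RegA s b t k G1 G2 G3 G4) (hT : t ≤ 284 / 1000 * s) (hy : 0 ≤ 1 / 2 - s + t) (hb : 0 ≤ t - s + b) (hc : 0 ≤ s + 3 / 200 - t - b)
    (s1 : 1177 / 2000 ≤ s) (s2 : s ≤ 5978 / 10000)
    (b1 : 4766 / 10000 ≤ b) (b2 : b ≤ 4844 / 10000) (t1 : 1321 / 10000 ≤ t) (t2 : t ≤ 1348 / 10000) :
    4 * ph (s - t) - 2 * ph s + dl s ≤ (G1 + G2 + G3 + G4) / 2 := by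
  rcases le_total s (5932 / 10000) with h | h
  · exact ra58 R hT hy hb hc s1 h b1 b2 t1 t2
  · exact ra59 R hT hy hb hc h s2 b1 b2 t1 t2

theorem ra55 {s b t k G1 G2 G3 G4 : ℝ} (R : RegA s b t k G1 G2 G3 G4) (hT : t ≤ 284 / 1000 * s) (hy : 0 ≤ 1 / 2 - s + t) (hb : 0 ≤ t - s + b) (hc : 0 ≤ s + 3 / 200 - t - b)
    (s1 : 1177 / 2000 ≤ s) (s2 : s ≤ 5978 / 10000)
    (b1 : 4688 / 10000 ≤ b) (b2 : b ≤ 4844 / 10000) (t1 : 1321 / 10000 ≤ t) (t2 : t ≤ 1348 / 10000) :
    4 * ph (s - t) - 2 * ph s + dl s ≤ (G1 + G2 + G3 + G4) / 2 := by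
  rcases le_total b (4766 / 10000) with h | h
  · exact ra56 R hT hy hb hc s1 s2 b1 h t1 t2
  · exact ra57 R hT hy hb hc s1 s2 h b2 t1 t2

theorem ra54 {s b t k G1 G2 G3 G4 : ℝ} (R : RegA s b t k G1 G2 G3 G4) (hT : t ≤ 284 / 1000 * s) (hy : 0 ≤ 1 / 2 - s + t) (hb : 0 ≤ t - s + b) (hc : 0 ≤ s + 3 / 200 - t - b)
    (s1 : 1177 / 2000 ≤ s) (s2 : s ≤ 607 / 1000)
    (b1 : 4688 / 10000 ≤ b) (b2 : b ≤ 4844 / 10000) (t1 : 1321 / 10000 ≤ t) (t2 : t ≤ 1348 / 10000) :
    4 * ph (s - t) - 2 * ph s + dl s ≤ (G1 + G2 + G3 + G4) / 2 := by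
  rcases le_total s (5978 / 10000) with h | h
  · exact ra55 R hT hy hb hc s1 h b1 b2 t1 t2
  · exact ra62 R hT hy hb hc h s2 b1 b2 t1 t2

theorem ra52 {s b t k G1 G2 G3 G4 : ℝ} (R : RegA s b t k G1 G2 G3 G4) (hT : t ≤ 284 / 1000 * s) (hy : 0 ≤ 1 / 2 - s + t) (hb : 0 ≤ t - s + b) (hc : 0 ≤ s + 3 / 200 - t - b)
    (s1 : 1177 / 2000 ≤ s) (s2 : s ≤ 607 / 1000)
    (b1 : 4688 / 10000 ≤ b) (b2 : b ≤ 4844 / 10000) (t1 : 1294 / 10000 ≤ t) (t2 : t ≤ 1348 / 10000) :
    4 * ph (s - t) - 2 * ph s + dl s ≤ (G1 + G2 + G3 + G4) / 2 := by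
  rcases le_total t (1321 / 10000) with h | h
  · exact ra53 R hT hy hb hc s1 s2 b1 b2 t1 h
  · exact ra54 R hT hy hb hc s1 s2 b1 b2 h t2

theorem ra51 {s b t k G1 G2 G3 G4 : ℝ} (R : RegA s b t k G1 G2 G3 G4) (hT : t ≤ 284 / 1000 * s) (hy : 0 ≤ 1 / 2 - s + t) (hb : 0 ≤ t - s + b) (hc : 0 ≤ s + 3 / 200 - t - b)
    (s1 : 1177 / 2000 ≤ s) (s2 : s ≤ 607 / 1000)
    (b1 : 4688 / 10000 ≤ b) (b2 : b ≤ 4844 / 10000) (t1 : 1294 / 10000 ≤ t) (t2 : t ≤ 1402 / 10000) :
    4 * ph (s - t) - 2 * ph s + dl s ≤ (G1 + G2 + G3 + G4) / 2 := by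
  rcases le_total t (1348 / 10000) with h | h
  · exact ra52 R hT hy hb hc s1 s2 b1 b2 t1 h
  · exact ra63 R hT hy hb hc s1 s2 b1 b2 h t2

theorem ra50 {s b t k G1 G2 G3 G4 : ℝ} (R : RegA s b t k G1 G2 G3 G4) (hT : t ≤ 284 / 1000 * s) (hy : 0 ≤ 1 / 2 - s + t) (hb : 0 ≤ t - s + b) (hc : 0 ≤ s + 3 / 200 - t - b)
    (s1 : 1177 / 2000 ≤ s) (s2 : s ≤ 607 / 1000)
    (b1 : 4688 / 10000 ≤ b) (b2 : b ≤ 1 / 2) (t1 : 1294 / 10000 ≤ t) (t2 : t ≤ 1402 / 10000) :
    4 * ph (s - t) - 2 * ph s + dl s ≤ (G1 + G2 + G3 + G4) / 2 := by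
  rcases le_total b (4844 / 10000) with h | h
  · exact ra51 R hT hy hb hc s1 s2 b1 h t1 t2
  · exact ra70 R hT hy hb hc s1 s2 h b2 t1 t2

theorem ra44 {s b t k G1 G2 G3 G4 : ℝ} (R : RegA s b t k G1 G2 G3 G4) (hT : t ≤ 284 / 1000 * s) (hy : 0 ≤ 1 / 2 - s + t) (hb : 0 ≤ t - s + b) (hc : 0 ≤ s + 3 / 200 - t - b)
    (s1 : 5839 / 10000 ≤ s) (s2 : s ≤ 1177 / 2000)
    (b1 : 4688 / 10000 ≤ b) (b2 : b ≤ 4766 / 10000) (t1 : 1321 / 10000 ≤ t) (t2 : t ≤ 1348 / 10000) :
    4 * ph (s - t) - 2 * ph s + dl s ≤ (G1 + G2 + G3 + G4) / 2 := by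
  rcases le_total b (4727 / 10000) with h | h
  · exact ra45 R hT hy hb hc s1 s2 b1 h t1 t2
  · exact ra46 R hT hy hb hc s1 s2 h b2 t1 t2

theorem ra42 {s b t k G1 G2 G3 G4 : ℝ} (R : RegA s b t k G1 G2 G3 G4) (hT : t ≤ 284 / 1000 * s) (hy : 0 ≤ 1 / 2 - s + t) (hb : 0 ≤ t - s + b) (hc : 0 ≤ s + 3 / 200 - t - b)
    (s1 : 5793 / 10000 ≤ s) (s2 : s ≤ 1177 / 2000)
    (b1 : 4688 / 10000 ≤ b) (b2 : b ≤ 4766 / 10000) (t1 : 1321 / 10000 ≤ t) (t2 : t ≤ 1348 / 10000) :
    4 * ph (s - t) - 2 * ph s + dl s ≤ (G1 + G2 + G3 + G4) / 2 := by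
  rcases le_total s (5839 / 10000) with h | h
  · exact ra43 R hT hy hb hc s1 h b1 b2 t1 t2
  · exact ra44 R hT hy hb hc h s2 b1 b2 t1 t2

theorem ra40 {s b t k G1 G2 G3 G4 : ℝ} (R : RegA s b t k G1 G2 G3 G4) (hT : t ≤ 284 / 1000 * s) (hy : 0 ≤ 1 / 2 - s + t) (hb : 0 ≤ t - s + b) (hc : 0 ≤ s + 3 / 200 - t - b)
    (s1 : 5793 / 10000 ≤ s) (s2 : s ≤ 1177 / 2000)
    (b1 : 4688 / 10000 ≤ b) (b2 : b ≤ 4766 / 10000) (t1 : 1294 / 10000 ≤ t) (t2 : t ≤ 1348 / 10000) :
    4 * ph (s - t) - 2 * ph s + dl s ≤ (G1 + G2 + G3 + G4) / 2 := by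
  rcases le_total t (1321 / 10000) with h | h
  · exact ra41 R hT hy hb hc s1 s2 b1 b2 t1 h
  · exact ra42 R hT hy hb hc s1 s2 b1 b2 h t2

theorem ra39 {s b t k G1 G2 G3 G4 : ℝ} (R : RegA s b t k G1 G2 G3 G4) (hT : t ≤ 284 / 1000 * s) (hy : 0 ≤ 1 / 2 - s + t) (hb : 0 ≤ t - s + b) (hc : 0 ≤ s + 3 / 200 - t - b)
    (s1 : 5793 / 10000 ≤ s) (s2 : s ≤ 1177 / 2000)
    (b1 : 4688 / 10000 ≤ b) (b2 : b ≤ 4766 / 10000) (t1 : 1294 / 10000 ≤ t) (t2 : t ≤ 1402 / 10000) :
    4 * ph (s - t) - 2 * ph s + dl s ≤ (G1 + G2 + G3 + G4) / 2 := by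
  rcases le_total t (1348 / 10000) with h | h
  · exact ra40 R hT hy hb hc s1 s2 b1 b2 t1 h
  · exact ra47 R hT hy hb hc s1 s2 b1 b2 h t2

theorem ra38 {s b t k G1 G2 G3 G4 : ℝ} (R : RegA s b t k G1 G2 G3 G4) (hT : t ≤ 284 / 1000 * s) (hy : 0 ≤ 1 / 2 - s + t) (hb : 0 ≤ t - s + b) (hc : 0 ≤ s + 3 / 200 - t - b)
    (s1 : 5793 / 10000 ≤ s) (s2 : s ≤ 1177 / 2000)
    (b1 : 4688 / 10000 ≤ b) (b2 : b ≤ 4844 / 10000) (t1 : 1294 / 10000 ≤ t) (t2 : t ≤ 1402 / 10000) :
    4 * ph (s - t) - 2 * ph s + dl s ≤ (G1 + G2 + G3 + G4) / 2 := by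
  rcases le_total b (4766 / 10000) with h | h
  · exact ra39 R hT hy hb hc s1 s2 b1 h t1 t2
  · exact ra48 R hT hy hb hc s1 s2 h b2 t1 t2

theorem ra36 {s b t k G1 G2 G3 G4 : ℝ} (R : RegA s b t k G1 G2 G3 G4) (hT : t ≤ 284 / 1000 * s) (hy : 0 ≤ 1 / 2 - s + t) (hb : 0 ≤ t - s + b) (hc : 0 ≤ s + 3 / 200 - t - b)
    (s1 : 57 / 100 ≤ s) (s2 : s ≤ 1177 / 2000)
    (b1 : 4688 / 10000 ≤ b) (b2 : b ≤ 4844 / 10000) (t1 : 1294 / 10000 ≤ t) (t2 : t ≤ 1402 / 10000) :
    4 * ph (s - t) - 2 * ph s + dl s ≤ (G1 + G2 + G3 + G4) / 2 := by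
  rcases le_total s (5793 / 10000) with h | h
  · exact ra37 R hT hy hb hc s1 h b1 b2 t1 t2
  · exact ra38 R hT hy hb hc h s2 b1 b2 t1 t2

theorem ra35 {s b t k G1 G2 G3 G4 : ℝ} (R : RegA s b t k G1 G2 G3 G4) (hT : t ≤ 284 / 1000 * s) (hy : 0 ≤ 1 / 2 - s + t) (hb : 0 ≤ t - s + b) (hc : 0 ≤ s + 3 / 200 - t - b)
    (s1 : 57 / 100 ≤ s) (s2 : s ≤ 1177 / 2000)
    (b1 : 4688 / 10000 ≤ b) (b2 : b ≤ 1 / 2) (t1 : 1294 / 10000 ≤ t) (t2 : t ≤ 1402 / 10000) :
    4 * ph (s - t) - 2 * ph s + dl s ≤ (G1 + G2 + G3 + G4) / 2 := by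
  rcases le_total b (4844 / 10000) with h | h
  · exact ra36 R hT hy hb hc s1 s2 b1 h t1 t2
  · exact ra49 R hT hy hb hc s1 s2 h b2 t1 t2

theorem ra34 {s b t k G1 G2 G3 G4 : ℝ} (R : RegA s b t k G1 G2 G3 G4) (hT : t ≤ 284 / 1000 * s) (hy : 0 ≤ 1 / 2 - s + t) (hb : 0 ≤ t - s + b) (hc : 0 ≤ s + 3 / 200 - t - b)
    (s1 : 57 / 100 ≤ s) (s2 : s ≤ 607 / 1000)
    (b1 : 4688 / 10000 ≤ b) (b2 : b ≤ 1 / 2) (t1 : 1294 / 10000 ≤ t) (t2 : t ≤ 1402 / 10000) :
    4 * ph (s - t) - 2 * ph s + dl s ≤ (G1 + G2 + G3 + G4) / 2 := by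
  rcases le_total s (1177 / 2000) with h | h
  · exact ra35 R hT hy hb hc s1 h b1 b2 t1 t2
  · exact ra50 R hT hy hb hc h s2 b1 b2 t1 t2

theorem ra33 {s b t k G1 G2 G3 G4 : ℝ} (R : RegA s b t k G1 G2 G3 G4) (hT : t ≤ 284 / 1000 * s) (hy : 0 ≤ 1 / 2 - s + t) (hb : 0 ≤ t - s + b) (hc : 0 ≤ s + 3 / 200 - t - b)
    (s1 : 57 / 100 ≤ s) (s2 : s ≤ 607 / 1000)
    (b1 : 4688 / 10000 ≤ b) (b2 : b ≤ 1 / 2) (t1 : 1294 / 10000 ≤ t) (t2 : t ≤ 1509 / 10000) :
    4 * ph (s - t) - 2 * ph s + dl s ≤ (G1 + G2 + G3 + G4) / 2 := by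
  rcases le_total t (1402 / 10000) with h | h
  · exact ra34 R hT hy hb hc s1 s2 b1 b2 t1 h
  · exact ra87 R hT hy hb hc s1 s2 b1 b2 h t2

theorem ra27 {s b t k G1 G2 G3 G4 : ℝ} (R : RegA s b t k G1 G2 G3 G4) (hT : t ≤ 284 / 1000 * s) (hy : 0 ≤ 1 / 2 - s + t) (hb : 0 ≤ t - s + b) (hc : 0 ≤ s + 3 / 200 - t - b)
    (s1 : 57 / 100 ≤ s) (s2 : s ≤ 5793 / 10000)
    (b1 : 4532 / 10000 ≤ b) (b2 : b ≤ 4688 / 10000) (t1 : 1348 / 10000 ≤ t) (t2 : t ≤ 1402 / 10000) :
    4 * ph (s - t) - 2 * ph s + dl s ≤ (G1 + G2 + G3 + G4) / 2 := by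
  rcases le_total b (461 / 1000) with h | h
  · exact ra28 R hT hy hb hc s1 s2 b1 h t1 t2
  · exact ra29 R hT hy hb hc s1 s2 h b2 t1 t2

theorem ra26 {s b t k G1 G2 G3 G4 : ℝ} (R : RegA s b t k G1 G2 G3 G4) (hT : t ≤ 284 / 1000 * s) (hy : 0 ≤ 1 / 2 - s + t) (hb : 0 ≤ t - s + b) (hc : 0 ≤ s + 3 / 200 - t - b)
    (s1 : 57 / 100 ≤ s) (s2 : s ≤ 1177 / 2000)
    (b1 : 4532 / 10000 ≤ b) (b2 : b ≤ 4688 / 10000) (t1 : 1348 / 10000 ≤ t) (t2 : t ≤ 1402 / 10000) :
    4 * ph (s - t) - 2 * ph s + dl s ≤ (G1 + G2 + G3 + G4) / 2 := by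
  rcases le_total s (5793 / 10000) with h | h
  · exact ra27 R hT hy hb hc s1 h b1 b2 t1 t2
  · exact ra30 R hT hy hb hc h s2 b1 b2 t1 t2

theorem ra22 {s b t k G1 G2 G3 G4 : ℝ} (R : RegA s b t k G1 G2 G3 G4) (hT : t ≤ 284 / 1000 * s) (hy : 0 ≤ 1 / 2 - s + t) (hb : 0 ≤ t - s + b) (hc : 0 ≤ s + 3 / 200 - t - b)
    (s1 : 5747 / 10000 ≤ s) (s2 : s ≤ 5793 / 10000)
    (b1 : 461 / 1000 ≤ b) (b2 : b ≤ 4688 / 10000) (t1 : 1321 / 10000 ≤ t) (t2 : t ≤ 1348 / 10000) :
    4 * ph (s - t) - 2 * ph s + dl s ≤ (G1 + G2 + G3 + G4) / 2 := by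
  rcases le_total b (4649 / 10000) with h | h
  · exact ra23 R hT hy hb hc s1 s2 b1 h t1 t2
  · exact ra24 R hT hy hb hc s1 s2 h b2 t1 t2

theorem ra20 {s b t k G1 G2 G3 G4 : ℝ} (R : RegA s b t k G1 G2 G3 G4) (hT : t ≤ 284 / 1000 * s) (hy : 0 ≤ 1 / 2 - s + t) (hb : 0 ≤ t - s + b) (hc : 0 ≤ s + 3 / 200 - t - b)
    (s1 : 57 / 100 ≤ s) (s2 : s ≤ 5793 / 10000)
    (b1 : 461 / 1000 ≤ b) (b2 : b ≤ 4688 / 10000) (t1 : 1321 / 10000 ≤ t) (t2 : t ≤ 1348 / 10000) :
    4 * ph (s - t) - 2 * ph s + dl s ≤ (G1 + G2 + G3 + G4) / 2 := by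
  rcases le_total s (5747 / 10000) with h | h
  · exact ra21 R hT hy hb hc s1 h b1 b2 t1 t2
  · exact ra22 R hT hy hb hc h s2 b1 b2 t1 t2

theorem ra18 {s b t k G1 G2 G3 G4 : ℝ} (R : RegA s b t k G1 G2 G3 G4) (hT : t ≤ 284 / 1000 * s) (hy : 0 ≤ 1 / 2 - s + t) (hb : 0 ≤ t - s + b) (hc : 0 ≤ s + 3 / 200 - t - b)
    (s1 : 57 / 100 ≤ s) (s2 : s ≤ 5793 / 10000)
    (b1 : 4532 / 10000 ≤ b) (b2 : b ≤ 4688 / 10000) (t1 : 1321 / 10000 ≤ t) (t2 : t ≤ 1348 / 10000) :
    4 * ph (s - t) - 2 * ph s + dl s ≤ (G1 + G2 + G3 + G4) / 2 := by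
  rcases le_total b (461 / 1000) with h | h
  · exact ra19 R hT hy hb hc s1 s2 b1 h t1 t2
  · exact ra20 R hT hy hb hc s1 s2 h b2 t1 t2

theorem ra17 {s b t k G1 G2 G3 G4 : ℝ} (R : RegA s b t k G1 G2 G3 G4) (hT : t ≤ 284 / 1000 * s) (hy : 0 ≤ 1 / 2 - s + t) (hb : 0 ≤ t - s + b) (hc : 0 ≤ s + 3 / 200 - t - b)
    (s1 : 57 / 100 ≤ s) (s2 : s ≤ 1177 / 2000)
    (b1 : 4532 / 10000 ≤ b) (b2 : b ≤ 4688 / 10000) (t1 : 1321 / 10000 ≤ t) (t2 : t ≤ 1348 / 10000) :
    4 * ph (s - t) - 2 * ph s + dl s ≤ (G1 + G2 + G3 + G4) / 2 := by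
  rcases le_total s (5793 / 10000) with h | h
  · exact ra18 R hT hy hb hc s1 h b1 b2 t1 t2
  · exact ra25 R hT hy hb hc h s2 b1 b2 t1 t2

theorem ra15 {s b t k G1 G2 G3 G4 : ℝ} (R : RegA s b t k G1 G2 G3 G4) (hT : t ≤ 284 / 1000 * s) (hy : 0 ≤ 1 / 2 - s + t) (hb : 0 ≤ t - s + b) (hc : 0 ≤ s + 3 / 200 - t - b)
    (s1 : 57 / 100 ≤ s) (s2 : s ≤ 1177 / 2000)
    (b1 : 4532 / 10000 ≤ b) (b2 : b ≤ 4688 / 10000) (t1 : 1294 / 10000 ≤ t) (t2 : t ≤ 1348 / 10000) :
    4 * ph (s - t) - 2 * ph s + dl s ≤ (G1 + G2 + G3 + G4) / 2 := by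
  rcases le_total t (1321 / 10000) with h | h
  · exact ra16 R hT hy hb hc s1 s2 b1 b2 t1 h
  · exact ra17 R hT hy hb hc s1 s2 b1 b2 h t2

theorem ra14 {s b t k G1 G2 G3 G4 : ℝ} (R : RegA s b t k G1 G2 G3 G4) (hT : t ≤ 284 / 1000 * s) (hy : 0 ≤ 1 / 2 - s + t) (hb : 0 ≤ t - s + b) (hc : 0 ≤ s + 3 / 200 - t - b)
    (s1 : 57 / 100 ≤ s) (s2 : s ≤ 1177 / 2000)
    (b1 : 4532 / 10000 ≤ b) (b2 : b ≤ 4688 / 10000) (t1 : 1294 / 10000 ≤ t) (t2 : t ≤ 1402 / 10000) :
    4 * ph (s - t) - 2 * ph s + dl s ≤ (G1 + G2 + G3 + G4) / 2 := by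
  rcases le_total t (1348 / 10000) with h | h
  · exact ra15 R hT hy hb hc s1 s2 b1 b2 t1 h
  · exact ra26 R hT hy hb hc s1 s2 b1 b2 h t2

theorem ra12 {s b t k G1 G2 G3 G4 : ℝ} (R : RegA s b t k G1 G2 G3 G4) (hT : t ≤ 284 / 1000 * s) (hy : 0 ≤ 1 / 2 - s + t) (hb : 0 ≤ t - s + b) (hc : 0 ≤ s + 3 / 200 - t - b)
    (s1 : 57 / 100 ≤ s) (s2 : s ≤ 1177 / 2000)
    (b1 : 875 / 2000 ≤ b) (b2 : b ≤ 4688 / 10000) (t1 : 1294 / 10000 ≤ t) (t2 : t ≤ 1402 / 10000) :
    4 * ph (s - t) - 2 * ph s + dl s ≤ (G1 + G2 + G3 + G4) / 2 := by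
  rcases le_total b (4532 / 10000) with h | h
  · exact ra13 R hT hy hb hc s1 s2 b1 h t1 t2
  · exact ra14 R hT hy hb hc s1 s2 h b2 t1 t2

theorem ra11 {s b t k G1 G2 G3 G4 : ℝ} (R : RegA s b t k G1 G2 G3 G4) (hT : t ≤ 284 / 1000 * s) (hy : 0 ≤ 1 / 2 - s + t) (hb : 0 ≤ t - s + b) (hc : 0 ≤ s + 3 / 200 - t - b)
    (s1 : 57 / 100 ≤ s) (s2 : s ≤ 607 / 1000)
    (b1 : 875 / 2000 ≤ b) (b2 : b ≤ 4688 / 10000) (t1 : 1294 / 10000 ≤ t) (t2 : t ≤ 1402 / 10000) :
    4 * ph (s - t) - 2 * ph s + dl s ≤ (G1 + G2 + G3 + G4) / 2 := by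
  rcases le_total s (1177 / 2000) with h | h
  · exact ra12 R hT hy hb hc s1 h b1 b2 t1 t2
  · exact ra31 R hT hy hb hc h s2 b1 b2 t1 t2

theorem ra10 {s b t k G1 G2 G3 G4 : ℝ} (R : RegA s b t k G1 G2 G3 G4) (hT : t ≤ 284 / 1000 * s) (hy : 0 ≤ 1 / 2 - s + t) (hb : 0 ≤ t - s + b) (hc : 0 ≤ s + 3 / 200 - t - b)
    (s1 : 57 / 100 ≤ s) (s2 : s ≤ 607 / 1000)
    (b1 : 875 / 2000 ≤ b) (b2 : b ≤ 4688 / 10000) (t1 : 1294 / 10000 ≤ t) (t2 : t ≤ 1509 / 10000) :
    4 * ph (s - t) - 2 * ph s + dl s ≤ (G1 + G2 + G3 + G4) / 2 := by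
  rcases le_total t (1402 / 10000) with h | h
  · exact ra11 R hT hy hb hc s1 s2 b1 b2 t1 h
  · exact ra32 R hT hy hb hc s1 s2 b1 b2 h t2

theorem ra9 {s b t k G1 G2 G3 G4 : ℝ} (R : RegA s b t k G1 G2 G3 G4) (hT : t ≤ 284 / 1000 * s) (hy : 0 ≤ 1 / 2 - s + t) (hb : 0 ≤ t - s + b) (hc : 0 ≤ s + 3 / 200 - t - b)
    (s1 : 57 / 100 ≤ s) (s2 : s ≤ 607 / 1000)
    (b1 : 875 / 2000 ≤ b) (b2 : b ≤ 1 / 2) (t1 : 1294 / 10000 ≤ t) (t2 : t ≤ 1509 / 10000) :
    4 * ph (s - t) - 2 * ph s + dl s ≤ (G1 + G2 + G3 + G4) / 2 := by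
  rcases le_total b (4688 / 10000) with h | h
  · exact ra10 R hT hy hb hc s1 s2 b1 h t1 t2
  · exact ra33 R hT hy hb hc s1 s2 h b2 t1 t2

theorem ra8 {s b t k G1 G2 G3 G4 : ℝ} (R : RegA s b t k G1 G2 G3 G4) (hT : t ≤ 284 / 1000 * s) (hy : 0 ≤ 1 / 2 - s + t) (hb : 0 ≤ t - s + b) (hc : 0 ≤ s + 3 / 200 - t - b)
    (s1 : 57 / 100 ≤ s) (s2 : s ≤ 607 / 1000)
    (b1 : 875 / 2000 ≤ b) (b2 : b ≤ 1 / 2) (t1 : 1294 / 10000 ≤ t) (t2 : t ≤ 345 / 2000) :
    4 * ph (s - t) - 2 * ph s + dl s ≤ (G1 + G2 + G3 + G4) / 2 := by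
  rcases le_total t (1509 / 10000) with h | h
  · exact ra9 R hT hy hb hc s1 s2 b1 b2 t1 h
  · exact ra92 R hT hy hb hc s1 s2 b1 b2 h t2

theorem ra6 {s b t k G1 G2 G3 G4 : ℝ} (R : RegA s b t k G1 G2 G3 G4) (hT : t ≤ 284 / 1000 * s) (hy : 0 ≤ 1 / 2 - s + t) (hb : 0 ≤ t - s + b) (hc : 0 ≤ s + 3 / 200 - t - b)
    (s1 : 57 / 100 ≤ s) (s2 : s ≤ 607 / 1000)
    (b1 : 15 / 40 ≤ b) (b2 : b ≤ 1 / 2) (t1 : 1294 / 10000 ≤ t) (t2 : t ≤ 345 / 2000) :
    4 * ph (s - t) - 2 * ph s + dl s ≤ (G1 + G2 + G3 + G4) / 2 := by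
  rcases le_total b (875 / 2000) with h | h
  · exact ra7 R hT hy hb hc s1 s2 b1 h t1 t2
  · exact ra8 R hT hy hb hc s1 s2 h b2 t1 t2

theorem ra3 {s b t k G1 G2 G3 G4 : ℝ} (R : RegA s b t k G1 G2 G3 G4) (hT : t ≤ 284 / 1000 * s) (hy : 0 ≤ 1 / 2 - s + t) (hb : 0 ≤ t - s + b) (hc : 0 ≤ s + 3 / 200 - t - b)
    (s1 : 57 / 100 ≤ s) (s2 : s ≤ 607 / 1000)
    (b1 : 15 / 40 ≤ b) (b2 : b ≤ 1 / 2) (t1 : 862 / 10000 ≤ t) (t2 : t ≤ 1294 / 10000) :
    4 * ph (s - t) - 2 * ph s + dl s ≤ (G1 + G2 + G3 + G4) / 2 := by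
  rcases le_total b (875 / 2000) with h | h
  · exact ra4 R hT hy hb hc s1 s2 b1 h t1 t2
  · exact ra5 R hT hy hb hc s1 s2 h b2 t1 t2

theorem ra2 {s b t k G1 G2 G3 G4 : ℝ} (R : RegA s b t k G1 G2 G3 G4) (hT : t ≤ 284 / 1000 * s) (hy : 0 ≤ 1 / 2 - s + t) (hb : 0 ≤ t - s + b) (hc : 0 ≤ s + 3 / 200 - t - b)
    (s1 : 57 / 100 ≤ s) (s2 : s ≤ 607 / 1000)
    (b1 : 15 / 40 ≤ b) (b2 : b ≤ 1 / 2) (t1 : 862 / 10000 ≤ t) (t2 : t ≤ 345 / 2000) :
    4 * ph (s - t) - 2 * ph s + dl s ≤ (G1 + G2 + G3 + G4) / 2 := by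
  rcases le_total t (1294 / 10000) with h | h
  · exact ra3 R hT hy hb hc s1 s2 b1 b2 t1 h
  · exact ra6 R hT hy hb hc s1 s2 b1 b2 h t2

theorem ra0 {s b t k G1 G2 G3 G4 : ℝ} (R : RegA s b t k G1 G2 G3 G4) (hT : t ≤ 284 / 1000 * s) (hy : 0 ≤ 1 / 2 - s + t) (hb : 0 ≤ t - s + b) (hc : 0 ≤ s + 3 / 200 - t - b)
    (s1 : 57 / 100 ≤ s) (s2 : s ≤ 607 / 1000)
    (b1 : 15 / 40 ≤ b) (b2 : b ≤ 1 / 2) (t1 : 0 ≤ t) (t2 : t ≤ 345 / 2000) :
    4 * ph (s - t) - 2 * ph s + dl s ≤ (G1 + G2 + G3 + G4) / 2 := by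
  rcases le_total t (862 / 10000) with h | h
  · exact ra1 R hT hy hb hc s1 s2 b1 b2 t1 h
  · exact ra2 R hT hy hb hc s1 s2 b1 b2 h t2

end Pool.Agent.Strip051.FourG.LA
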