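import Pool.Agent.Strip051.FourG.Box

/-! # The corner `y` close to `s`, `r` close to `h0` -/

namespace Pool.Agent.Strip051.FourG.LA

open Pool.Agent.StripNear Pool.Agent.StripSquare Pool.Agent.Strip051
open Pool.Agent.Strip051.Four.Low (ph ph_nonneg ph_neg ph_zero ph_mono ph_abs ph_quad)

theorem sq1 {x : ℝ} (h1 : -1 ≤ x) (h2 : x ≤ 1) : x ^ 2 ≤ 1 := by linear_combination (mul_nonneg (sub_nonneg.mpr h1) (sub_nonneg.mpr h2))

/-- Increments of `ph`, `m1 ≤ a / g a ≤ m2`. -/
theorem inc {a x m1 m2 p n : ℝ} (a1 : a ^ 2 ≤ 1) (a2 : 0 < g a) (hx : x ^ 2 ≤ 1)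
    (h1 : m1 * g a ≤ a) (h2 : a ≤ m2 * g a) (hp : 0 ≤ p) (hn : 0 ≤ n) (hd : x - a = p - n) :
    m1 * p - m2 * n ≤ ph x - ph a := by
  have e1 := g_sq (r := a) a1
  have e2 := g_sq (r := x) hx
  have e3 := g_nonneg x
  have e4 : g a * g x ≤ 1 - a * x := by
    have k1 : (g a * g x) ^ 2 ≤ (1 - a * x) ^ 2 := by
      rw [mul_pow, e1, e2]
      linear_combination (sq_nonneg (a - x))
    exact abs_le_of_sq_le_sq' k1 (by linear_combination (1 / 2) * (sq_nonneg (a - x)) + (1 / 2) * a1 + (1 / 2) * hx) |>.2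
  have e5 : a * (x - a) ≤ g a * (g a - g x) := by linear_combination -e1 + e4
  have e6 : g a * (m1 * p - m2 * n) ≤ g a * (g a - g x) := by
    rw [hd] at e5
    linear_combination (mul_le_mul_of_nonneg_right h1 hp) + (mul_le_mul_of_nonneg_right h2 hn) + e5
  have e7 := le_of_mul_le_mul_left e6 a2
  unfold Four.Low.ph
  linear_combination e7

theorem inc3 {s u m : ℝ} (s1 : 57 / 100 ≤ s) (s2 : s ≤ 607 / 1000) (hm : m * g s = s)
    (m0 : 0 ≤ m) (m1 : m ≤ 77 / 100) (u0 : 0 ≤ u) (u1 : u ≤ 1 / 50) :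
    (m - 22 / 1000) * u ≤ ph s - ph (s - u) := by
  have e1 := g_sq (r := s) (by linear_combination (1177 / 1000) * s2 + (mul_nonneg (sub_nonneg.mpr s1) (sub_nonneg.mpr s2)))
  have e2 := g_sq (r := s - u) (by linear_combination (sq_nonneg (g s)) + (28 / 25) * u0 + e1 + 2 * (mul_nonneg (sub_nonneg.mpr s1) (sub_nonneg.mpr u0)) +
    (mul_nonneg (sub_nonneg.mpr u0) (sub_nonneg.mpr u1)))
  have e3 := g_nonneg s
  have e4 := g_nonneg (s - u)
  have e5 : 79 / 100 ≤ g s := by exact not_lt.mp (fun hg__ => absurd hg__ (not_lt.mpr (by linear_combination -(7900000000 / 3683195567) * hm + (6241000000 / 3683195567) * (mul_nonneg (sub_nonneg.mpr (sq_nonneg (s))) (sub_nonneg.mpr m1)) + (4805570000 / 3683195567) * (mul_nonneg (sub_nonneg.mpr s1) (sub_nonneg.mpr s2)) + (3400691000 / 3683195567) * (mul_nonneg (sub_nonneg.mpr s2) (sub_nonneg.mpr e3)) + (6241000000 / 3683195567) * (mul_nonneg (sub_nonneg.mpr (le_of_eq hm)) (sub_nonneg.mpr e3)) + (6241000000 / 3683195567)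 * (mul_nonneg (sub_nonneg.mpr m0) (sub_nonneg.mpr (ge_of_eq e1))) + (2840309000 / 3683195567) * (mul_nonneg (sub_nonneg.mpr (le_of_lt hg__)) (sub_nonneg.mpr s1)) + (7900000000 / 3683195567) * (mul_nonneg (sub_nonneg.mpr (le_of_lt hg__)) (sub_nonneg.mpr m0)))))
  unfold Four.Low.ph
  by_contra h
  push Not at h
  have h1 : g (s - u) < g s + (m - 22 / 1000) * u := by linear_combination h
  have h2 : g (s - u) ^ 2 < (g s + (m - 22 / 1000) * u) ^ 2 := by
    apply pow_lt_pow_left₀ h1 e4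
    norm_num
  rw [e2] at h2
  have h3 : (g s + (m - 22 / 1000) * u) ^ 2 =
      g s ^ 2 + 2 * u * (m * g s) - 44 / 1000 * g s * u + (m - 22 / 1000) ^ 2 * u ^ 2 := by ring
  rw [h3, e1, hm] at h2
  have h4 : 44 / 1000 * g s * u < u ^ 2 * (1 + (m - 22 / 1000) ^ 2) := by linear_combination h2
  have h5 : (m - 22 / 1000) ^ 2 ≤ 57 / 100 := by linear_combination (9317 / 11257500) * (sq_nonneg (s)) + (363 / 395) * s2 - (22 / 395) * hm +
    (57 / 79) * m1 + (9317 / 11257500) * e1 + (100 / 79) * (mul_nonneg (sub_nonneg.mpr (sq_nonneg (m - 22 / 1000))) (sub_nonneg.mpr e5)) +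
    (121 / 112575) * (mul_nonneg (sub_nonneg.mpr (sq_nonneg (g s))) (sub_nonneg.mpr m1)) +
    (100 / 79) * (mul_nonneg (sub_nonneg.mpr s1) (sub_nonneg.mpr m1)) + (121 / 112575) * (mul_nonneg (sub_nonneg.mpr s1) (sub_nonneg.mpr e3)) +
    (100 / 79) * (mul_nonneg (sub_nonneg.mpr (le_of_eq hm)) (sub_nonneg.mpr m0)) + (121 / 112575) * (mul_nonneg (sub_nonneg.mpr (ge_of_eq hm)) (sub_nonneg.mpr e3))
  have h6 : u ^ 2 * (1 + (m - 22 / 1000) ^ 2) ≤ u ^ 2 * (157 / 100) :=
    mul_le_mul_of_nonneg_left (by linear_combination h5) (sq_nonneg u)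
  exact absurd h2 (not_lt.mpr (by linear_combination h6 + (24649 / 451) * (mul_nonneg (sub_nonneg.mpr (sq_nonneg (u))) (sub_nonneg.mpr m1)) + (314 / 205) * (mul_nonneg (sub_nonneg.mpr s1) (sub_nonneg.mpr u0)) + (314 / 205) * (mul_nonneg (sub_nonneg.mpr (ge_of_eq hm)) (sub_nonneg.mpr u0)) + (15700 / 451) * (mul_nonneg (sub_nonneg.mpr m0) (sub_nonneg.mpr (le_of_lt h2))) + (15700 / 451) * (mul_nonneg (sub_nonneg.mpr m0) (sub_nonneg.mpr h6)) + (8949 / 205) * (mul_nonneg (sub_nonneg.mpr u0) (sub_nonneg.mpr u1)) + (11 / 250) * (mul_nonneg (sub_nonneg.mpr u0) (sub_nonneg.mpr e3))))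

/-- Numerical facts about the slopes. -/
theorem slopes {s : ℝ} (s1 : 57 / 100 ≤ s) (s2 : s ≤ 607 / 1000)
    (hl : 86602 / 100000 ≤ h0) (hu : h0 ≤ 86603 / 100000) :
    (∃ m, m * g s = s ∧ 693 / 1000 ≤ m ∧ m ≤ 77 / 100) ∧ 0 < g s ∧
      (48 / 100 * g (h0 + s - 1) ≤ h0 + s - 1 ∧ h0 + s - 1 ≤ 54 / 100 * g (h0 + s - 1) ∧
        0 < g (h0 + s - 1)) ∧
      (135 / 1000 * g (1 - h0) ≤ 1 - h0 ∧ 1 - h0 ≤ 136 / 1000 * g (1 - h0) ∧ 0 < g (1 - h0)) ∧
      (99 / 100 * g (s - h0 + 1) ≤ s - h0 + 1 ∧ s - h0 + 1 ≤ 2 * g (s - h0 + 1) ∧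
        0 < g (s - h0 + 1)) ∧ g h0 = 1 / 2 := by
  have e1 := g_sq (r := s) (by linear_combination (1177 / 1000) * s2 + (mul_nonneg (sub_nonneg.mpr s1) (sub_nonneg.mpr s2)))
  have e2 := g_sq (r := h0 + s - 1) (by linear_combination (sq_nonneg (g s)) + (13397 / 50000) * s1 + (17441 / 20000) * hu +
    e1 + 2 * (mul_nonneg (sub_nonneg.mpr s1) (sub_nonneg.mpr hu)) + (mul_nonneg (sub_nonneg.mpr hl) (sub_nonneg.mpr hu)))
  have e3 := g_sq (r := 1 - h0) (by linear_combination (34051301 / 316855734) * (sq_nonneg (g (h0 + s - 1))) + (34051301 / 316855734) * e2 +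
    (307525000 / 158427867) * (mul_nonneg (sub_nonneg.mpr (sq_nonneg (1 - h0))) (sub_nonneg.mpr s1)) +
    (41950000 / 52809289) * (mul_nonneg (sub_nonneg.mpr (sq_nonneg (1 - h0))) (sub_nonneg.mpr hl)) +
    (55825000 / 158427867) * (mul_nonneg (sub_nonneg.mpr (sq_nonneg (s))) (sub_nonneg.mpr s1)) +
    (237500000 / 158427867) * (mul_nonneg (sub_nonneg.mpr (sq_nonneg (s))) (sub_nonneg.mpr hl)) +
    (55825000 / 158427867) * (mul_nonneg (sub_nonneg.mpr (sq_nonneg (h0 + s - 1))) (sub_nonneg.mpr s2)) +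
    (41950000 / 52809289) * (mul_nonneg (sub_nonneg.mpr (sq_nonneg (h0 + s - 1))) (sub_nonneg.mpr hu)))
  have e4 := g_sq (r := s - h0 + 1) (by linear_combination (97047 / 129101) * (sq_nonneg (h0 + s - 1)) + (149946269 / 64550500) * s2 +
    (50000 / 129101) * (mul_nonneg (sub_nonneg.mpr (sq_nonneg (s - h0 + 1))) (sub_nonneg.mpr s1)) +
    (200000 / 129101) * (mul_nonneg (sub_nonneg.mpr (sq_nonneg (s - h0 + 1))) (sub_nonneg.mpr hl)) +
    (50000 / 129101) * (mul_nonneg (sub_nonneg.mpr (sq_nonneg (h0 + s - 1))) (sub_nonneg.mpr s2)) +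
    (400000 / 129101) * (mul_nonneg (sub_nonneg.mpr (sq_nonneg (1 - h0))) (sub_nonneg.mpr s1)) +
    (200000 / 129101) * (mul_nonneg (sub_nonneg.mpr (sq_nonneg (1 - h0))) (sub_nonneg.mpr hu)) +
    (254794 / 129101) * (mul_nonneg (sub_nonneg.mpr s1) (sub_nonneg.mpr s2)))
  have f1 := g_nonneg s
  have f2 := g_nonneg (h0 + s - 1)
  have f3 := g_nonneg (1 - h0)
  have f4 := g_nonneg (s - h0 + 1)
  have k1 : 79 / 100 ≤ g s := by exact not_lt.mp (fun hg__ => absurd s2 (not_le.mpr (by linear_combination (790 / 1177) * hg__ - (1000 / 1177) * e1 + (1000 / 1177) * (mul_nonneg (sub_nonneg.mpr s1) (sub_nonneg.mpr s2)) + (1000 / 1177) * (mul_nonneg (sub_nonneg.mpr (le_of_lt hg__)) (sub_nonneg.mpr f1)))))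
  have k1' : g s ≤ 822 / 1000 := by exact not_lt.mp (fun hg__ => absurd s1 (not_le.mpr (by linear_combination (137 / 95) * hg__ + (50 / 57) * e1 + (50 / 57) * (mul_nonneg (sub_nonneg.mpr s1) (sub_nonneg.mpr s1)) + (50 / 57) * (mul_pos (sub_pos.mpr hg__) (sub_pos.mpr hg__)))))
  have k2 : 88 / 100 ≤ g (h0 + s - 1) := by exact not_lt.mp (fun hg__ => absurd hu (not_le.mpr (by linear_combination (62772522152813 / 72094647020175) * hg__ - (5706592922983 / 5767571761614) * e2 + (33060332537 / 961261960269) * e3 + (2415911950000 / 2883785880807) * (mul_nonneg (sub_nonneg.mpr (sq_nonneg (s))) (sub_nonneg.mpr hl)) + (2415911950000 / 2883785880807) * (mul_nonneg (sub_nonneg.mpr (sq_nonneg (h0 + s - 1))) (sub_nonneg.mpr hu)) + (893522501000 / 961261960269) * (mul_nonneg (sub_nonneg.mpr (sq_nonneg (g (1 - h0)))) (sub_nonneg.mpr s2)) + (2151256397000 / 2883785880807) * (mul_nonneg (sub_nonneg.mpr (sq_nonneg (1 - h0))) (sub_nonneg.mpr s1)) + (2415911950000 / 2883785880807)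 * (mul_nonneg (sub_nonneg.mpr (sq_nonneg (1 - h0))) (sub_nonneg.mpr hl)) + (951106873537 / 961261960269) * (mul_nonneg (sub_nonneg.mpr s1) (sub_nonneg.mpr s2)) + (100 / 57) * (mul_nonneg (sub_nonneg.mpr s1) (sub_nonneg.mpr hu)) + (893522501000 / 961261960269) * (mul_nonneg (sub_nonneg.mpr s1) (sub_nonneg.mpr (ge_of_eq e3))) + (5706592922983 / 5767571761614) * (mul_nonneg (sub_nonneg.mpr (le_of_lt hg__)) (sub_nonneg.mpr f2)))))
  have k2' : g (h0 + s - 1) ≤ 901 / 1000 := by linear_combination (21801 / 44000) * s1 + (21801 / 44000) * hl + (25 / 44) * e2 + (25 / 44) * (mul_nonneg (sub_nonneg.mpr s1) (sub_nonneg.mpr s1)) +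
    (25 / 22) * (mul_nonneg (sub_nonneg.mpr s1) (sub_nonneg.mpr hl)) + (25 / 44) * (mul_nonneg (sub_nonneg.mpr hl) (sub_nonneg.mpr hl)) +
    (25 / 44) * (mul_nonneg (sub_nonneg.mpr k2) (sub_nonneg.mpr k2))
  have k3 : 99 / 100 ≤ g (1 - h0) := by exact not_lt.mp (fun hg__ => absurd hg__ (not_lt.mpr (by linear_combination -(100 / 99) * e3 + (3165792179600 / 1337638205916297) * e4 + (18879401690000000 / 14714020265079267) * (mul_nonneg (sub_nonneg.mpr (sq_nonneg (s))) (sub_nonneg.mpr hl)) + (1456289833750000 / 14714020265079267) * (mul_nonneg (sub_nonneg.mpr (sq_nonneg (h0 + s - 1))) (sub_nonneg.mpr s2)) + (1186749305000000 / 1337638205916297) * (mul_nonneg (sub_nonneg.mpr (sq_nonneg (h0 + s - 1))) (sub_nonneg.mpr hu)) + (2373498610000000 / 1337638205916297) * (mul_nonneg (sub_nonneg.mpr (sq_nonneg (1 - h0))) (sub_nonneg.mpr s1)) + (1186749305000000 / 1337638205916297) * (mul_nonneg (sub_nonneg.mpr (sq_nonneg (1 - h0))) (sub_nonneg.mpr hl)) + (85561950800000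 / 1337638205916297) * (mul_nonneg (sub_nonneg.mpr (sq_nonneg (g (s - h0 + 1)))) (sub_nonneg.mpr s2)) + (171702791650000 / 4904673421693089) * (mul_nonneg (sub_nonneg.mpr (sq_nonneg (s - h0 + 1))) (sub_nonneg.mpr s1)) + (799644400000000 / 14714020265079267) * (mul_nonneg (sub_nonneg.mpr s1) (sub_nonneg.mpr s2)) + (85561950800000 / 1337638205916297) * (mul_nonneg (sub_nonneg.mpr s1) (sub_nonneg.mpr (ge_of_eq e4))) + (100 / 99) * (mul_nonneg (sub_nonneg.mpr (le_of_lt hg__)) (sub_nonneg.mpr f3)))))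
  have k3' : g (1 - h0) ≤ 992 / 1000 := by linear_combination (203 / 750) * hu + (100 / 99) * e3 + (100 / 99) * (mul_nonneg (sub_nonneg.mpr hl) (sub_nonneg.mpr hl)) +
    (100 / 99) * (mul_nonneg (sub_nonneg.mpr f3) (sub_nonneg.mpr k3))
  have k4 : 67 / 100 ≤ g (s - h0 + 1) := by exact not_lt.mp (fun hg__ => absurd hl (not_le.mpr (by linear_combination (13400 / 28159) * hg__ + (144496 / 140795) * s2 - (20000 / 28159) * e4 + (20000 / 28159) * (mul_nonneg (sub_nonneg.mpr s1) (sub_nonneg.mpr s2)) + (40000 / 28159) * (mul_nonneg (sub_nonneg.mpr s1) (sub_nonneg.mpr hl)) + (20000 / 28159) * (mul_nonneg (sub_nonneg.mpr hl) (sub_nonneg.mpr hu)) + (20000 / 28159) * (mul_nonneg (sub_nonneg.mpr (le_of_lt hg__)) (sub_nonneg.mpr f4)))))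
  have k4' : g (s - h0 + 1) ≤ 711 / 1000 := by exact not_lt.mp (fun hg__ => absurd hu (not_le.mpr (by linear_combination (71100 / 70397) * hg__ + (13397 / 70397) * s1 - (50000 / 70397) * e1 + (50000 / 70397) * e4 + (80600 / 70397) * k1' + (100000 / 70397) * (mul_nonneg (sub_nonneg.mpr s1) (sub_nonneg.mpr hu)) + (50000 / 70397) * (mul_nonneg (sub_nonneg.mpr hu) (sub_nonneg.mpr hu)) + (50000 / 70397) * (mul_nonneg (sub_nonneg.mpr k1) (sub_nonneg.mpr k1')) + (50000 / 70397) * (mul_pos (sub_pos.mpr hg__) (sub_pos.mpr hg__)))))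
  refine ⟨⟨s / g s, div_mul_cancel₀ _ (by linarith), ?_, ?_⟩, by linear_combination k1, ⟨?_, ?_, by linear_combination k2⟩,
    ⟨?_, ?_, by linear_combination k3⟩, ⟨?_, ?_, by linear_combination k4⟩, g_h0⟩
  · rw [le_div_iff₀ (by linear_combination k1)]
    linear_combination s1 + (693 / 1000) * k1'
  · rw [div_le_iff₀ (by linear_combination k1)]
    linear_combination s2 + (77 / 100) * k1
  · linear_combination s1 + hl + (12 / 25) * k2'
  · linear_combination s2 + hu + (27 / 50) * k2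
  · linear_combination hu + (27 / 200) * k3'
  · linear_combination hl + (17 / 125) * k3
  · linear_combination s1 + hu + (99 / 100) * k4'
  · linear_combination s2 + hl + 2 * k4

theorem cornA {s b t k G1 G2 G3 G4 : ℝ} (R : RegA s b t k G1 G2 G3 G4) (b2 : b ≤ 3 / 50)
    (t2 : t ≤ 1 / 50) : 4 * ph (s - t) - 2 * ph s ≤ (G1 + G2 + G3 + G4) / 2 := by
  obtain ⟨⟨m, hm, m1, m2⟩, gs, ⟨a1, a2, a3⟩, ⟨c1, c2, c3⟩, -, -⟩ := slopes R.s1 R.s2 R.h1 R.h2
  have s1 := R.s1
  have s2 := R.s2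
  have hl := R.h1
  have hu := R.h2
  have b0 := R.b1
  have t0 := R.t1
  have k0 := R.k3
  have k1 := R.k1
  have k2 := R.k2
  have qb := ph_quad (x := b) (sq1 (by linear_combination b0) (by linear_combination b2))
  have nb := ph_nonneg b
  have hb1 : ph b ≤ b / 2 := by
    have : ph b ≤ 1 := by
      unfold Four.Low.ph
      linear_combination (g_nonneg b)
    linear_combination (211691 / 28867) * (sq_nonneg (b)) + (1 / 2) * qb + (50000 / 86601) * (mul_nonneg (sub_nonneg.mpr (sq_nonneg (b))) (sub_nonneg.mpr k2)) +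
      (86603 / 173202) * (mul_nonneg (sub_nonneg.mpr (sq_nonneg (b))) (sub_nonneg.mpr this)) +
      (50000 / 86601) * (mul_nonneg (sub_nonneg.mpr (sq_nonneg (ph b))) (sub_nonneg.mpr k2)) +
      (86603 / 173202) * (mul_nonneg (sub_nonneg.mpr (sq_nonneg (ph b))) (sub_nonneg.mpr this)) +
      (25 / 3) * (mul_nonneg (sub_nonneg.mpr b2) (sub_nonneg.mpr b0)) + (10000000000 / 7499906403) * (mul_nonneg (sub_nonneg.mpr k0) (sub_nonneg.mpr k1)) +
      (50000 / 86601) * (mul_nonneg (sub_nonneg.mpr k0) (sub_nonneg.mpr (le_of_eq qb))) +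
      (10000000000 / 7499906403) * (mul_nonneg (sub_nonneg.mpr k1) (sub_nonneg.mpr k2))
  have hb2 : ph b ≤ 51 / 100 * b ^ 2 := by linear_combination (40041207077 / 80106835000) * qb + (1991871 / 16021367) * (mul_nonneg (sub_nonneg.mpr (sq_nonneg (b))) (sub_nonneg.mpr b2)) +
    (4694000 / 16021367) * (mul_nonneg (sub_nonneg.mpr (sq_nonneg (b))) (sub_nonneg.mpr k2)) +
    (203257241 / 801068350) * (mul_nonneg (sub_nonneg.mpr (sq_nonneg (b))) (sub_nonneg.mpr hb1)) +
    (1991871 / 16021367) * (mul_nonneg (sub_nonneg.mpr (sq_nonneg (ph b))) (sub_nonneg.mpr b2)) +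
    (4694000 / 16021367) * (mul_nonneg (sub_nonneg.mpr (sq_nonneg (ph b))) (sub_nonneg.mpr k2)) +
    (203257241 / 801068350) * (mul_nonneg (sub_nonneg.mpr (sq_nonneg (ph b))) (sub_nonneg.mpr hb1)) +
    (4070141 / 1602136700) * (mul_nonneg (sub_nonneg.mpr b2) (sub_nonneg.mpr (le_of_eq qb))) +
    (4070141 / 801068350) * (mul_nonneg (sub_nonneg.mpr b0) (sub_nonneg.mpr hb1)) + (938800000000 / 1387498446301) * (mul_nonneg (sub_nonneg.mpr k0) (sub_nonneg.mpr k1)) +
    (4694000 / 16021367) * (mul_nonneg (sub_nonneg.mpr k0) (sub_nonneg.mpr (le_of_eq qb))) +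
    (938800000000 / 1387498446301) * (mul_nonneg (sub_nonneg.mpr k1) (sub_nonneg.mpr k2))
  have hb3 : ph b ≤ 306 / 10000 * b := by linear_combination hb2 + (51 / 100) * (mul_nonneg (sub_nonneg.mpr b2) (sub_nonneg.mpr b0))
  have hk : k ≤ 27 / 1000 * b := by linear_combination (249741 / 500000000) * b0 + k2 + (86603 / 100000) * hb3
  have i1 := inc (a := s) (x := s - t + b / 2 - k) (m1 := m) (m2 := m) (p := b / 2) (n := t + k)
    (sq1 (by linear_combination a1 + (12 / 25) * a3 + 136 * c1 + 135 * c2) (by linear_combination s2)) gs (sq1 (by linear_combination t2 + a1 + (12 / 25) * a3 + hu + (13397 / 200000) * b0 + k2 + (86603 / 100000) * hb1) (by linear_combination (1 / 2) * b2 + s2 + t0 + k0)) hm.le hm.ge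
      (by linear_combination (1 / 2) * b0) (by linear_combination t0 + k0) (by ring)
  have i2 := inc (a := s) (x := s - t - b / 2 - k) (m1 := m) (m2 := m) (p := 0)
    (n := t + b / 2 + k) (sq1 (by linear_combination a1 + (12 / 25) * a3 + 136 * c1 + 135 * c2) (by linear_combination s2)) gs (sq1 (by linear_combination (186603 / 200000) * b2 + t2 + a1 + (12 / 25) * a3 + hu + k2 + (86603 / 100000) * hb1)
      (by linear_combination s2 + (1 / 2) * b0 + t0 + k0)) hm.le hm.ge le_rfl (by linear_combination (1 / 2) * b0 + t0 + k0)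
    (by ring)
  have i3 := inc (a := h0 + s - 1) (x := h0 + s - 1 - t - b / 2 - k) (p := 0)
    (n := t + b / 2 + k) (sq1 (by linear_combination 9 * a1 + 8 * a2) (by linear_combination c1 + (27 / 200) * c3 + s2)) a3 (sq1 (by linear_combination (186603 / 200000) * b2 + t2 + a1 + (12 / 25) * a3 + k2 + (86603 / 100000) * hb1)
      (by linear_combination s2 + hu + (1 / 2) * b0 + t0 + k0)) a1 a2 le_rfl (by linear_combination (1 / 2) * b0 + t0 + k0) (by ring)
  have i4 := inc (a := 1 - h0) (x := 1 - h0 - t - b / 2 - k) (p := 0)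
    (n := t + b / 2 + k) (sq1 (by linear_combination 136 * c1 + 135 * c2) (by linear_combination a1 + (12 / 25) * a3 + s2)) c3 (sq1 (by linear_combination (186603 / 200000) * b2 + t2 + hu + k2 + (86603 / 100000) * hb1)
      (by linear_combination a1 + (12 / 25) * a3 + s2 + (1 / 2) * b0 + t0 + k0)) c1 c2 le_rfl (by linear_combination (1 / 2) * b0 + t0 + k0) (by ring)
  have i5 := inc (a := 1 - h0) (x := 1 - h0 - t + b / 2 - k) (p := b / 2)
    (n := t + k) (sq1 (by linear_combination 136 * c1 + 135 * c2) (by linear_combination a1 + (12 / 25) * a3 + s2)) c3 (sq1 (by linear_combination t2 + hu + (13397 / 200000) * b0 + k2 + (86603 / 100000) * hb1) (by linear_combination (1 / 2) * b2 + a1 + (12 / 25) * a3 + s2 + t0 + k0)) c1 c2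
      (by linear_combination (1 / 2) * b0) (by linear_combination t0 + k0) (by ring)
  have i6 := inc3 s1 s2 hm (by linear_combination m1) m2 t0 t2
  have n1 := R.ph1
  have n2 := R.qhh
  have n3 := R.rh1
  have n4 := R.sHH (by linear_combination (186603 / 200000) * b2 + t2 + hu + k2 + (86603 / 100000) * hb1)
  rw [show h0 - 1 + t + b / 2 + k = -(1 - h0 - t - b / 2 - k) by ring, ph_neg] at n3 n4
  have p1 : 0 ≤ (m - 693 / 1000) * (b / 2 + 2 * t - 2 * k) :=
    mul_nonneg (by linear_combination m1) (by linear_combination 2 * t0 + 2 * k2 + (111749741 / 117350000) * hb1 + (36603 / 46940) * hb3)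
  linear_combination (103 / 125) * t0 + (93 / 50) * k2 + (1668975913 / 11735000000) * hb1 +
    (16281579 / 4694000) * hb3 + (3 / 2) * i1 + (1 / 2) * i2 + (1 / 2) * i3 + i4 + (1 / 2) * i5 +
    4 * i6 + (1 / 2) * n1 + (1 / 2) * n2 + (1 / 2) * n3 + (1 / 2) * n4 + p1

theorem cornB {s b t k G1 G2 G3 G4 : ℝ} (R : RegB s b t k G1 G2 G3 G4) (b2 : b ≤ 3 / 50)
    (t2 : t ≤ 1 / 50) : 4 * ph (s - t) - 2 * ph s ≤ (G1 + G2 + G3 + G4) / 2 := by
  obtain ⟨⟨m, hm, m1, m2⟩, gs, ⟨a1, a2, a3⟩, ⟨c1, c2, c3⟩, ⟨d1, d2, d3⟩, gh⟩ :=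
    slopes R.s1 R.s2 R.h1 R.h2
  have s1 := R.s1
  have s2 := R.s2
  have hl := R.h1
  have hu := R.h2
  have b0 := R.b1
  have t0 := R.t1
  have k0 := R.k3
  have k1 := R.k1
  have k2 := R.k2
  have qb := ph_quad (x := b) (sq1 (by linear_combination b0) (by linear_combination b2))
  have nb := ph_nonneg b
  have hb1 : ph b ≤ b / 2 := by
    have : ph b ≤ 1 := by
      unfold Four.Low.ph
      linear_combination (g_nonneg b)
    linear_combination (211691 / 28867) * (sq_nonneg (b)) + (1 / 2) * qb + (50000 / 86601) * (mul_nonneg (sub_nonneg.mpr (sq_nonneg (b))) (sub_nonneg.mpr k2)) +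
      (86603 / 173202) * (mul_nonneg (sub_nonneg.mpr (sq_nonneg (b))) (sub_nonneg.mpr this)) +
      (50000 / 86601) * (mul_nonneg (sub_nonneg.mpr (sq_nonneg (ph b))) (sub_nonneg.mpr k2)) +
      (86603 / 173202) * (mul_nonneg (sub_nonneg.mpr (sq_nonneg (ph b))) (sub_nonneg.mpr this)) +
      (25 / 3) * (mul_nonneg (sub_nonneg.mpr b2) (sub_nonneg.mpr b0)) + (10000000000 / 7499906403) * (mul_nonneg (sub_nonneg.mpr k0) (sub_nonneg.mpr k1)) +
      (50000 / 86601) * (mul_nonneg (sub_nonneg.mpr k0) (sub_nonneg.mpr (le_of_eq qb))) +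
      (10000000000 / 7499906403) * (mul_nonneg (sub_nonneg.mpr k1) (sub_nonneg.mpr k2))
  have hb2 : ph b ≤ 51 / 100 * b ^ 2 := by linear_combination (4070141 / 1706059100) * (sq_nonneg (b)) + (1 / 2) * qb + (2165075 / 17060591) * (mul_nonneg (sub_nonneg.mpr (sq_nonneg (b))) (sub_nonneg.mpr b2)) +
    (5000000 / 17060591) * (mul_nonneg (sub_nonneg.mpr (sq_nonneg (b))) (sub_nonneg.mpr k2)) +
    (4330150 / 17060591) * (mul_nonneg (sub_nonneg.mpr (sq_nonneg (b))) (sub_nonneg.mpr hb1)) +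
    (2165075 / 17060591) * (mul_nonneg (sub_nonneg.mpr (sq_nonneg (ph b))) (sub_nonneg.mpr b2)) +
    (5000000 / 17060591) * (mul_nonneg (sub_nonneg.mpr (sq_nonneg (ph b))) (sub_nonneg.mpr k2)) +
    (4330150 / 17060591) * (mul_nonneg (sub_nonneg.mpr (sq_nonneg (ph b))) (sub_nonneg.mpr hb1)) +
    (1000000000000 / 1477498362373) * (mul_nonneg (sub_nonneg.mpr k0) (sub_nonneg.mpr k1)) +
    (5000000 / 17060591) * (mul_nonneg (sub_nonneg.mpr k0) (sub_nonneg.mpr (le_of_eq qb))) +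
    (1000000000000 / 1477498362373) * (mul_nonneg (sub_nonneg.mpr k1) (sub_nonneg.mpr k2))
  have hb3 : ph b ≤ 306 / 10000 * b := by linear_combination hb2 + (51 / 100) * (mul_nonneg (sub_nonneg.mpr b2) (sub_nonneg.mpr b0))
  have hk : k ≤ 27 / 1000 * b := by linear_combination (249741 / 500000000) * b0 + k2 + (86603 / 100000) * hb3
  have i1 := inc (a := s) (x := s - t + b / 2 - k) (m1 := m) (m2 := m) (p := b / 2) (n := t + k)
    (sq1 (by linear_combination a1 + (12 / 25) * a3 + 136 * c1 + 135 * c2) (by linear_combination s2)) gs (sq1 (by linear_combination t2 + d1 + (99 / 100) * d3 + hl + (13397 / 200000) * b0 + k2 + (86603 / 100000) * hb1) (by linear_combination (1 / 2) * b2 + s2 + t0 + k0)) hm.le hm.ge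
      (by linear_combination (1 / 2) * b0) (by linear_combination t0 + k0) (by ring)
  have i2 := inc (a := s) (x := s - t - b / 2 - k) (m1 := m) (m2 := m) (p := 0)
    (n := t + b / 2 + k) (sq1 (by linear_combination a1 + (12 / 25) * a3 + 136 * c1 + 135 * c2) (by linear_combination s2)) gs (sq1 (by linear_combination (186603 / 200000) * b2 + t2 + d1 + (99 / 100) * d3 + hl + k2 + (86603 / 100000) * hb1)
      (by linear_combination s2 + (1 / 2) * b0 + t0 + k0)) hm.le hm.ge le_rfl (by linear_combination (1 / 2) * b0 + t0 + k0)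
    (by ring)
  have i4 := inc (a := 1 - h0) (x := 1 - h0 - t - b / 2 - k) (p := 0)
    (n := t + b / 2 + k) (sq1 (by linear_combination 136 * c1 + 135 * c2) (by linear_combination a1 + (12 / 25) * a3 + s2)) c3 (sq1 (by linear_combination (186603 / 200000) * b2 + t2 + d1 + (99 / 100) * d3 + s2 + k2 + (86603 / 100000) * hb1)
      (by linear_combination 9 * a1 + 8 * a2 + s2 + (1 / 2) * b0 + t0 + k0)) c1 c2 le_rfl (by linear_combination (1 / 2) * b0 + t0 + k0) (by ring)
  have i5 := inc (a := 1 - h0) (x := 1 - h0 - t + b / 2 - k) (p := b / 2)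
    (n := t + k) (sq1 (by linear_combination 136 * c1 + 135 * c2) (by linear_combination a1 + (12 / 25) * a3 + s2)) c3 (sq1 (by linear_combination t2 + d1 + (99 / 100) * d3 + s2 + (13397 / 200000) * b0 + k2 + (86603 / 100000) * hb1) (by linear_combination (1 / 2) * b2 + 9 * a1 + 8 * a2 + s2 + t0 + k0)) c1 c2
      (by linear_combination (1 / 2) * b0) (by linear_combination t0 + k0) (by ring)
  have i6 := inc3 s1 s2 hm (by linear_combination m1) m2 t0 t2
  have n2 := R.qhh
  have n4 := R.sHH (by linear_combination t2 + hu + (13397 / 200000) * b0 + k2 + (86603 / 100000) * hb1)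
  rw [show h0 - 1 + t + b / 2 + k = -(1 - h0 - t - b / 2 - k) by ring, ph_neg] at n4
  have phh : ph h0 = 1 / 2 := by
    unfold Four.Low.ph
    rw [gh]
    norm_num
  rcases le_total (b / 2 - k) t with h | h
  · have i3 := inc (a := h0 + s - 1) (x := h0 + s - 1 - t + b / 2 - k) (p := b / 2)
      (n := t + k) (sq1 (by linear_combination 9 * a1 + 8 * a2) (by linear_combination c1 + (27 / 200) * c3 + s2)) a3 (sq1 (by linear_combination t2 + d1 + (99 / 100) * d3 + 2 * hl + (13397 / 200000) * b0 + k2 +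
        (86603 / 100000) * hb1) (by linear_combination (1 / 2) * b2 + s2 + hu + t0 + k0)) a1 a2
      (by linear_combination (1 / 2) * b0) (by linear_combination t0 + k0) (by ring)
    have n1 := R.ph1
    have n3 := R.rh1
    have p1 : 0 ≤ (m - 693 / 1000) * (2 * t - b / 2 - 2 * k) :=
      mul_nonneg (by linear_combination m1) (by linear_combination (196998964 / 236749741) * t0 + (750000000 / 236749741) * k2 + (649522500 / 236749741) * hb3 +
        (276500518 / 236749741) * h)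
    linear_combination (10834076211 / 59187435250) * t0 + (592100000 / 236749741) * k2 +
      (986275845 / 236749741) * hb3 + (1 / 2) * i1 + (3 / 2) * i2 + (1 / 2) * i4 + i5 + 4 * i6 +
      (1 / 2) * n2 + (1 / 2) * n4 + (7587274087 / 11837487050) * h + (1 / 2) * i3 + (1 / 2) * n1 +
      (1 / 2) * n3 + p1
  · have i3 := inc (a := h0) (x := h0 - t + b / 2 - k) (m1 := 173 / 100) (m2 := 174 / 100)
      (p := b / 2 - t - k) (n := 0) (sq1 (by linear_combination a1 + (12 / 25) * a3 + s2) (by linear_combination 136 * c1 + 135 * c2)) (by rw [gh]; norm_num)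
      (sq1 (by linear_combination t2 + hl + (13397 / 200000) * b0 + k2 + (86603 / 100000) * hb1) (by linear_combination (1 / 2) * b2 + hu + t0 + k0))
      (by rw [gh]; linear_combination hl) (by rw [gh]; linear_combination hu) (by linear_combination h) le_rfl (by ring)
    have i7 := inc (a := s - h0 + 1) (x := s - h0 + 1 - t + b / 2 - k)
      (p := b / 2 - t - k) (n := 0) (sq1 (by linear_combination a1 + (12 / 25) * a3 + 272 * c1 + 270 * c2) (by linear_combination s2 + hl)) d3 (sq1 (by linear_combination t2 + d1 + (99 / 100) * d3 + (13397 / 200000) * b0 + k2 + (86603 / 100000) * hb1)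
      (by linear_combination (1 / 2) * b2 + s2 + hl + t0 + k0))
      d1 d2 (by linear_combination h) le_rfl (by ring)
    have n1 := R.phs
    have n3 := R.rh2
    have p1 : (m - 693 / 1000) * (b / 2 + 2 * k - 2 * t) ≤ 77 / 1000 * (b / 2 + 2 * k - 2 * t) ∨
        0 ≤ (m - 693 / 1000) * (2 * t - b / 2 - 2 * k) := by
      rcases le_total (b / 2 + 2 * k) (2 * t) with h3 | h3
      · right
        exact mul_nonneg (by linear_combination m1) (by linear_combination h3)
      · left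
        exact mul_le_mul_of_nonneg_right (by linear_combination m2) (by linear_combination h3)
    rcases p1 with p1 | p1 <;> linarith

end Pool.Agent.Strip051.FourG.LA
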