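import Pool.Agent.Strip051.FourG.Reg
import Pool.Agent.Strip051.FourG.Corner
import Pool.Agent.Strip051.FourG.BoxA
import Pool.Agent.Strip051.FourG.BoxB
import Pool.Agent.Strip051.FourG.BoxC
import Pool.Agent.Strip051.FourG.BoxR
import Pool.Agent.Strip051.FourG.BoxH

/-! # The new point below `s` -/

namespace Pool.Agent.Strip051.FourG.LA

open Pool.Agent.StripNear Pool.Agent.StripSquare Pool.Agent.Strip051
open Pool.Agent.Strip051.Four (ext_facts)
open Pool.Agent.Strip051.Four.Low (ph ph_nonneg ph_neg ph_zero ph_mono ph_abs ph_quad)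
open Pool.Agent.Strip051.FourC (ga ext_window)
open Pool.Agent.Strip051.FourC.LA (h0_lo h0_up)

theorem dl_nonneg {s t : ℝ} (P : Par s t) : 0 ≤ dl s := by
  have := P.s1
  unfold dl
  linear_combination (3 / 10) * this

section

variable {s t y r : ℝ}

theorem goal_eq (s y : ℝ) : 2 * (1 + g s - 2 * g y) = 4 * ph (s - (s - y)) - 2 * ph s := by
  rw [sub_sub_cancel]
  unfold Four.Low.ph
  ring

/-- The window, `r ≤ ext r`. -/
theorem winA (P : Par s t) (h1 : t ≤ y) (h2 : y ≤ s) (hr1 : 1 / 2 ≤ r) (hr2 : r ≤ 1)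
    (h3 : r ≤ ext r) (hb : ext r - r ≤ y) :
    2 * (1 + g s - 2 * g y) ≤ mid s (gam r y) y := by
  obtain ⟨b, k, eb, hk, e1, e2, e3, e4, e5, -, b1⟩ := sideA hr1 hr2
  have R := regA P h1 h2 hr1 hr2 (by linear_combination h3 - eb) b1 hk e1 e2 e4 e5
  have ht := t_low P
  have hs0 := P.s0
  have hs1 := P.s1
  have hT : s - y ≤ 284 / 1000 * s := by linear_combination h1 + ht
  rw [goal_eq]
  unfold mid
  rcases le_total b (3 / 50) with h4 | h4
  · rcases le_total (s - y) (1 / 50) with h5 | h5
    · exact cornA R h4 h5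
    · exact wz0 R hT hs0 hs1 R.b1 h4 h5 (by linear_combination R.t2)
  · exact wa0 R hT (by linear_combination hb + eb) hs0 hs1 h4 R.b2 R.t1 (by linear_combination R.t2)

/-- The window, `ext r ≤ r`. -/
theorem winB (P : Par s t) (h1 : t ≤ y) (h2 : y ≤ s) (hr1 : 1 / 2 ≤ r) (hr2 : r ≤ 1)
    (h3 : ext r ≤ r) (hb : r - ext r ≤ 3 / 8 ∨ 1 / 2 ≤ y) :
    2 * (1 + g s - 2 * g y) ≤ mid s (gam r y) y := by
  obtain ⟨b, k, eb, hk, e1, e2, e3, e4, e5, -, b1⟩ := sideB hr1 hr2
  have R := regB P h1 h2 hr1 hr2 (by linear_combination h3 - eb) b1 hk e1 e2 e3 e5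
  have ht := t_low P
  have hs0 := P.s0
  have hs1 := P.s1
  have hl := h0_lo
  have hu := h0_up
  have hT : s - y ≤ 284 / 1000 * s := by linear_combination h1 + ht
  have T2 : s - y ≤ 345 / 2000 := by linear_combination R.t2
  rw [goal_eq]
  unfold mid
  rcases le_total b (3 / 50) with h4 | h4
  · rcases le_total (s - y) (1 / 50) with h5 | h5
    · exact cornB R h4 h5
    · exact wy0 R hT hs0 hs1 R.b1 h4 h5 T2
  · rcases le_total b (15 / 40) with h5 | h5
    · rcases le_total 0 (h0 - 1 + (s - y)) with h6 | h6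
      · exact wb0 R hT h6 hs0 hs1 h4 h5 R.t1 T2
      · rcases le_total 0 (2 * h0 - 9 / 5 + (s - y)) with h7 | h7
        · exact wc0 R hT (by linear_combination h6) h7 hs0 hs1 h4 h5 R.t1 T2
        · exact wd0 R hT (by linear_combination h7) hs0 hs1 h4 h5 R.t1 T2
    · have hy : 1 / 2 ≤ y ∨ b = 15 / 40 := by
        rcases hb with hb | hb
        · right
          exact le_antisymm (by linear_combination eb + hb) (by linear_combination h5)
        · exact Or.inl hb
      rcases hy with hy | hy
      · rcases le_total 0 (2 * h0 - 9 / 5 + (s - y)) with h7 | h7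
        · exact we0 R hT (by linear_combination hy) (by linear_combination hs1 + hu + hy) h7 hs0 hs1 h5 R.b2 R.t1 T2
        · exact wf0 R hT (by linear_combination hy) (by linear_combination h7) hs0 hs1 h5 R.b2 R.t1 T2
      · rcases le_total 0 (h0 - 1 + (s - y)) with h6 | h6
        · exact wb0 R hT h6 hs0 hs1 h4 hy.le R.t1 T2
        · rcases le_total 0 (2 * h0 - 9 / 5 + (s - y)) with h7 | h7
          · exact wc0 R hT (by linear_combination h6) h7 hs0 hs1 h4 hy.le R.t1 T2
          · exact wd0 R hT (by linear_combination h7) hs0 hs1 h4 hy.le R.t1 T2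

theorem win (P : Par s t) : Win s t := by
  intro y r h1 h2 hr1 hr2 h3 h4
  obtain ⟨f1, f2, -, -, -⟩ := ext_facts hr1 hr2
  rcases le_total r (ext r) with h5 | h5
  · apply winA P h1 h2 hr1 hr2 h5
    rcases lt_or_ge y (1 / 2) with h6 | h6
    · exact h3 h6
    · linear_combination hr1 + f2 + h6
  · apply winB P h1 h2 hr1 hr2 h5
    rcases lt_or_ge y (1 / 2) with h6 | h6
    · exact Or.inl (h4 h6)
    · exact Or.inr h6

theorem out (P : Par s t) : Out s t := by
  intro y r h1 hy hr1 hr2
  have hd := dl_nonneg P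
  have hs0 := P.s0
  have hs1 := P.s1
  have h2 : y ≤ s := by linear_combination hy + hs0
  have ht := t_low P
  have hl := h0_lo
  have hu := h0_up
  have hT : s - y ≤ 284 / 1000 * s := by linear_combination h1 + ht
  rcases le_total r (ext r) with h5 | h5
  · rcases le_total (ext r - r) y with h6 | h6
    · have := winA P h1 h2 hr1 hr2 h5 h6
      linear_combination hd + this
    · obtain ⟨b, k, eb, hk, e1, e2, e3, e4, e5, -, b1⟩ := sideA hr1 hr2
      have R := regA P h1 h2 hr1 hr2 (by linear_combination h1 + (179 / 250) * hs0 + ht + h6 - eb) b1 hk e1 e2 e4 e5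
      rw [goal_eq]
      unfold mid
      exact oa0 R hT (by linear_combination hy) (by linear_combination h6 - eb) hs0 hs1 (by linear_combination h1 + (179 / 250) * hs0 + ht + h6 - eb) R.b2 R.t1
        (by linear_combination R.t2)
  · rcases le_total (r - ext r) (3 / 8) with h6 | h6
    · have := winB P h1 h2 hr1 hr2 h5 (Or.inl h6)
      linear_combination hd + this
    · obtain ⟨b, k, eb, hk, e1, e2, e3, e4, e5, -, b1⟩ := sideB hr1 hr2
      have R := regB P h1 h2 hr1 hr2 (by linear_combination h6 - eb) b1 hk e1 e2 e3 e5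
      have T2 : s - y ≤ 345 / 2000 := by linear_combination R.t2
      rw [goal_eq]
      unfold mid
      rcases le_total 0 (h0 - 1 + (s - y)) with h7 | h7
      · exact ob0 R hT (by linear_combination hy) h7 hs0 hs1 (by linear_combination h6 - eb) R.b2 R.t1 T2
      · exact oc0 R hT (by linear_combination hy) (by linear_combination h7) (by linear_combination hy + hs0 + 2 * hl) hs0 hs1 (by linear_combination h6 - eb) R.b2
          R.t1 T2

theorem insd (P : Par s t) : Ins s t := by
  intro y r h1 hy hr1 hr2 h3 h4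
  have hs0 := P.s0
  have hs1 := P.s1
  have h2 : y ≤ s := by linear_combination hy + hs0
  have ht := t_low P
  have hT : s - y ≤ 284 / 1000 * s := by linear_combination h1 + ht
  obtain ⟨b, k, eb, hk, e1, e2, e3, e4, e5, -, b1⟩ := sideA hr1 hr2
  have R := regA P h1 h2 hr1 hr2 (by linear_combination h3 - eb) b1 hk e1 e2 e4 e5
  rw [goal_eq]
  unfold mid
  exact ia0 R hT (by linear_combination hy) (by linear_combination h4 + eb) hs0 hs1 (by linear_combination h3 - eb) R.b2 R.t1 (by linear_combination R.t2)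

/-- Outside of the window the distance of the two sides is more than `y`. -/
theorem outside (hy0 : 0 ≤ y) (hy : y < 1 / 2) (hr1 : 1 / 2 ≤ r) (hr3 : r < h0 * g y - y / 2) :
    r ≤ 1 ∧ y ≤ ext r - r := by
  have hr2 : r ≤ 1 := by
    have := g_le_one y
    have := h0_lt
    have := h0_pos
    linear_combination (1 / 2) * hy0 + (‹h0 < 0.8661›) + (10000 / 8661) * (mul_pos (sub_pos.mpr hr3) (sub_pos.mpr this)) +
      (10000 / 8661) * (mul_pos (sub_pos.mpr hr3) (sub_pos.mpr ‹h0 < 0.8661›)) + (mul_nonneg (sub_nonneg.mpr (le_of_lt this)) (sub_nonneg.mpr ‹g y ≤ 1›))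
  refine ⟨hr2, ?_⟩
  obtain ⟨w1, w2⟩ := ext_window hy0 hy.le
  have := ext_anti hr1 hr3.le (by
    have := g_le_one y
    have := h0_lt
    have := h0_pos
    linear_combination (1 / 2) * hy0 + (‹h0 < 0.8661›) + (mul_nonneg (sub_nonneg.mpr (le_of_lt this)) (sub_nonneg.mpr ‹g y ≤ 1›)))
  rw [w1] at this
  linear_combination hr3 + this

theorem rim (P : Par s t) : Rim s t := by
  intro y r h1 hy hr1 hr3 hr4
  have hs0 := P.s0
  have hs1 := P.s1
  have ht := t_low P
  have hy0 : 0 ≤ y := by linear_combination h1 + (179 / 250) * hs0 + ht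
  obtain ⟨hr2, hb⟩ := outside hy0 hy hr1 hr3
  have h2 : y ≤ s := by linear_combination hy + hs0
  have hT : s - y ≤ 284 / 1000 * s := by linear_combination h1 + ht
  obtain ⟨b, k, eb, hk, e1, e2, e3, e4, e5, -, b1⟩ := sideA hr1 hr2
  have R := regA P h1 h2 hr1 hr2 (by linear_combination h1 + (179 / 250) * hs0 + ht + hb - eb) b1 hk e1 e2 e4 e5
  rw [goal_eq]
  unfold mid
  exact ra0 R hT (by linear_combination hy) (by linear_combination hb - eb) (by linear_combination hr4 + eb) hs0 hs1 (by linear_combination h1 + (179 / 250) * hs0 + ht + hb - eb) R.b2 R.t1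
    (by linear_combination R.t2)

theorem high (P : Par s t) : High s t := by
  intro y r h1 hy hr1 hr3 hr4
  have hs0 := P.s0
  have hs1 := P.s1
  have ht := t_low P
  have hy0 : 0 ≤ y := by linear_combination h1 + (179 / 250) * hs0 + ht
  obtain ⟨hr2, hb⟩ := outside hy0 hy hr1 hr3
  have h2 : y ≤ s := by linear_combination hy + hs0
  have hT : s - y ≤ 284 / 1000 * s := by linear_combination h1 + ht
  obtain ⟨b, k, eb, hk, e1, e2, e3, e4, e5, -, b1⟩ := sideA hr1 hr2
  have R := regH P h1 h2 hr1 hr2 hr4 (by linear_combination h1 + hr4 + (179 / 250) * hs0 + ht - eb) b1 hk e1 e2 e3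
  rw [goal_eq]
  unfold mid
  exact ha0 R hT (by linear_combination hy) (by linear_combination hr4 - eb) hs0 hs1 (by linear_combination h1 + hr4 + (179 / 250) * hs0 + ht - eb) R.b2 R.t1
    (by linear_combination R.t2)

end

end Pool.Agent.Strip051.FourG.LA
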