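import Pool.Agent.Strip051.FourG.Props
import Pool.Agent.Strip051.FourC.Main

/-! # The assembly of the eight probes -/

namespace Pool.Agent.Strip051.FourG

open Pool.Agent.StripNear Pool.Agent.StripSquare Pool.Agent.Strip051
open Pool.Agent.Strip051.Four (mirP j1 gn mirP_ok mirP_val arc_sub le_gn gn_nonneg adm_low
  g_le_of_abs ext_facts)
open Pool.Agent.Strip051.FourC (k0 j4 k5 ga gn_eq le_ga ga_nonneg ga_mono mirP_ga vir_floor
  vir_floor_le gam_zero' vir_zero_disc real_floor high_floor hi_zero ww ww_ok ga_line ga_high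
  ext_window window)

section

variable {s t y r q w : ℝ} {γ γ' : ℝ → ℝ}

theorem k0_ok (P : Par s t) : k0.Ok (2 * h0 + s) := by
  have hh := h0_pos
  have := P.s0
  refine ⟨le_rfl, le_rfl, by simp only [k0]; linear_combination 2 * hh + this, 0, fun z _ _ => le_rfl⟩

theorem j1_ok (P : Par s t) : (j1 t).Ok (2 * h0 + s) := by
  have hh := h0_pos
  have := P.s0
  have := P.t0
  have := P.ts
  refine ⟨le_rfl, P.t0, by simp only [j1]; linear_combination 2 * hh + this, 1, fun z _ _ => g_le_one _⟩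

theorem j4_ok (P : Par s t) : (j4 s t).Ok (2 * h0 + s) := mirP_ok (j1_ok P)

theorem k5_ok (P : Par s t) : (k5 s).Ok (2 * h0 + s) := mirP_ok (k0_ok P)

/-- The two lower wall probes when the new point is not above `t`. -/
theorem wall_low (P : Par s t) {γ : ℝ → ℝ} {y : ℝ} (hγ : ∀ v, 0 ≤ γ v) (h0' : γ 0 = 0)
    (h1 : 0 ≤ y) (h2 : y ≤ t) (h3 : γ (-y) ≤ 1 - g y) :
    1 + g s ≤ ga k0 γ y + ga (j1 t) γ y := by
  have hs0 := P.s0
  have hs1 := P.s1
  have ht0 := P.t0
  have hts := P.ts
  have hgt := P.gt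
  have a1 := le_ga (y := y) (z0 := 0) (v := g y) (k0_ok P) hγ le_rfl le_rfl (by
    intro z k1 k2
    simp only [k0] at k1 k2 ⊢
    right
    rw [show z = 0 by exact le_antisymm (by linear_combination k2) (by linear_combination k1), zero_sub, g_neg]
    linear_combination)
  have a2 := le_ga (y := y) (z0 := y) (v := g (t - y) - 1) (j1_ok P) hγ h1 h2 (by
    intro z k1 k2
    simp only [j1] at k1 k2 ⊢
    right
    have := arc_sub (a := y) (b := t) (x := z) (y := t) h2 k2 (by linear_combination hs1 + hts + k1) (by linear_combination h1 + hs1 + hts)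
    rw [sub_self, g_zero] at this
    linear_combination this)
  simp only [k0, zero_sub] at a1
  simp only [j1, sub_self, h0'] at a2
  have a3 : g (y - t) = g (t - y) := by rw [← g_neg, neg_sub]
  have a4 := four (x := 0) (y := y) (z := t - y) (w := t) (by linear_combination) (by linear_combination hs1 + hts)
    (by linear_combination h1) (by linear_combination h2) (by ring)
  rw [g_zero] at a4
  rw [a3] at a2
  simp only [j1, k0]
  linear_combination h3 - hgt + a1 + a2 + 2 * a4

/-- The two lower wall probes when the new point is between `t` and `h0`. -/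
theorem wall_high (P : Par s t) {γ : ℝ → ℝ} {y A B : ℝ} (hγ : ∀ v, 0 ≤ γ v)
    (h1 : t ≤ y) (h2 : y ≤ h0) (h3 : γ (-y) ≤ A) (h4 : γ (t - y) ≤ B) :
    1 + 2 * g y - g t - A - B ≤ ga k0 γ y + ga (j1 t) γ y := by
  have hh := h0_lt
  have hs0 := P.s0
  have hs1 := P.s1
  have ht0 := P.t0
  have hts := P.ts
  have a1 := le_ga (y := y) (z0 := 0) (v := g y) (k0_ok P) hγ le_rfl le_rfl (by
    intro z k1 k2
    simp only [k0] at k1 k2 ⊢
    right
    rw [show z = 0 by exact le_antisymm (by linear_combination k2) (by linear_combination k1), zero_sub, g_neg]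
    linear_combination)
  have a2 := le_ga (y := y) (z0 := t) (v := g y - g t) (j1_ok P) hγ P.t0 le_rfl (by
    intro z k1 k2
    simp only [j1] at k1 k2 ⊢
    right
    have := arc_sub (a := t) (b := y) (x := 0) (y := z) h1 k1 (by linear_combination h2 + hh) (by linear_combination k2)
    rw [zero_sub, zero_sub, g_neg, g_neg] at this
    linear_combination this)
  simp only [k0, zero_sub] at a1
  simp only [j1, sub_self, g_zero] at a2
  simp only [j1, k0]
  linear_combination h3 + h4 + a1 + a2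

/-- The eight probes. -/
noncomputable def probes (s t : ℝ) : Fin 8 → Probe :=
  ![k0, j1 t, jP s, jQ s, jR s, jS s, j4 s t, k5 s]

/-- The weights. -/
noncomputable def weights (s : ℝ) : Fin 8 → ℝ :=
  ![1 / (1 + g s), 1 / (1 + g s), 1 / (1 + g s) / 2, 1 / (1 + g s) / 2, 1 / (1 + g s) / 2,
    1 / (1 + g s) / 2, 1 / (1 + g s), 1 / (1 + g s)]

/-- The sum of the gains. -/
noncomputable def tot (s t : ℝ) (γ : ℝ → ℝ) (y : ℝ) : ℝ :=
  ga k0 γ y + ga (j1 t) γ y + mid s γ y + ga (j4 s t) γ y + ga (k5 s) γ y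

theorem pg_eq (s t : ℝ) (γ : ℝ → ℝ) (y : ℝ) :
    pg (weights s) (probes s t) y γ = 1 / (1 + g s) * tot s t γ y := by
  unfold pg tot mid ga weights probes
  rw [Fin.sum_univ_eight]
  simp
  ring

theorem mid_nonneg (P : Par s t) (hγ : ∀ v, 0 ≤ γ v) : 0 ≤ mid s γ y := by
  have k1 := ga_nonneg (y := y) (jP_ok P.bd) hγ
  have k2 := ga_nonneg (y := y) (jQ_ok P.bd) hγ
  have k3 := ga_nonneg (y := y) (jR_ok P.bd) hγ
  have k4 := ga_nonneg (y := y) (jS_ok P.bd) hγ
  unfold mid
  linear_combination (1 / 2) * k1 + (1 / 2) * k2 + (1 / 2) * k3 + (1 / 2) * k4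

theorem tot_ge (P : Par s t) (hγ : ∀ v, 0 ≤ γ v) :
    ga k0 γ y + ga (j1 t) γ y + mid s γ y ≤ tot s t γ y := by
  have k4 := ga_nonneg (y := y) (j4_ok P) hγ
  have k5 := ga_nonneg (y := y) (k5_ok P) hγ
  unfold tot
  linear_combination k4 + k5

theorem s_lt (P : Par s t) : g s ≤ 83 / 100 := by
  have h0' := P.s0
  have h1 := P.s1
  have := g_sq (r := s) (by linear_combination (1177 / 1000) * h1 + (mul_nonneg (sub_nonneg.mpr h0') (sub_nonneg.mpr h1)))
  have g0 := g_nonneg s
  exact not_lt.mp (fun hg__ => absurd h0' (not_le.mpr (by linear_combination (83 / 57) * hg__ + (50 / 57) * this + (50 / 57) * (mul_nonneg (sub_nonneg.mpr h0') (sub_nonneg.mpr h0')) + (50 / 57) * (mul_pos (sub_pos.mpr hg__) (sub_pos.mpr hg__)))))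

theorem dl_pos (P : Par s t) : 0 ≤ dl s := by
  have h0' := P.s0
  have h1 := P.s1
  unfold dl
  linear_combination (3 / 10) * h1

theorem dl_le (P : Par s t) : dl s ≤ 41 / 2000 := by
  have h0' := P.s0
  have h1 := P.s1
  unfold dl
  linear_combination (3 / 10) * h0'

/-- The new point is not above `t`. -/
theorem low (P : Par s t) (hγ : ∀ v, 0 ≤ γ v) (h0' : γ 0 = 0) (h1 : 0 ≤ y) (h2 : y ≤ t)
    (h3 : γ (-y) ≤ 1 - g y) : 1 + g s ≤ tot s t γ y := by
  have k1 := wall_low P hγ h0' h1 h2 h3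
  have k2 := mid_nonneg (y := y) P hγ
  have := tot_ge (y := y) P hγ
  linear_combination k1 + k2 + this

/-- A front with a lower disc on the floor. -/
theorem mid_real (P : Par s t) (hγ : ∀ v, 0 ≤ γ v) (h1 : t ≤ y) (h2 : y ≤ h0)
    (h3 : ∀ v, v ≤ 0 → γ v = vir y (-v)) {x : ℝ}
    (h4 : 2 * (1 + g s - 2 * g y) + x ≤ mid s γ y) :
    1 + g s + x ≤ tot s t γ y := by
  have ht := P.t0
  have hgt := P.gt
  have k1 := wall_high (A := 1 - g y) (B := g t - g y) P hγ h1 h2
    (by rw [h3 _ (by linear_combination h1 + ht), neg_neg, vir_floor])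
    (by
      rw [h3 _ (by linear_combination h1), neg_sub]
      exact vir_floor_le ht h1)
  have := tot_ge (y := y) P hγ
  linear_combination h4 + hgt + k1 + this

/-- A front without lower disc. -/
theorem mid_line (P : Par s t) (h1 : t ≤ y) (h2 : y ≤ h0)
    (h4 : 2 * (1 + g s - 2 * g y) - dl s ≤ mid s (gam r 0) y) :
    1 + g s + dl s ≤ tot s t (gam r 0) y := by
  have ht := P.t0
  have hgt := P.gt
  have hz : ∀ v, v ≤ 0 → gam r 0 v = 0 := by
    intro v hv
    rcases hv.eq_or_lt with h | h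
    · rw [h]
      exact gam_zero' _ _
    · unfold gam
      rw [if_neg (not_le.2 h)]
      exact vir_zero_disc _
  have k1 := wall_high (A := 0) (B := 0) P (fun v => gam_nonneg r 0 v) h1 h2
    (hz _ (by linear_combination h1 + ht)).le (hz _ (by linear_combination h1)).le
  have := tot_ge (y := y) P (fun v => gam_nonneg r 0 v)
  have k2 := g_anti ht h1
  have k3 := s_lt P
  have k4 := dl_le P
  linear_combination h4 + (3 / 2) * hgt + k1 + this + 2 * k2 + (1 / 2) * k3 + 2 * k4

theorem mid_line_ge (P : Par s t) (h2 : y ≤ h0) (hr1 : 1 / 2 ≤ r) (hr2 : r ≤ 1) :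
    mid s (gam r y) y ≤ mid s (gam r 0) y := by
  have k1 := ga_line (jP_ok P.bd) h2 hr1 hr2
  have k2 := ga_line (jQ_ok P.bd) h2 hr1 hr2
  have k3 := ga_line (jR_ok P.bd) h2 hr1 hr2
  have k4 := ga_line (jS_ok P.bd) h2 hr1 hr2
  rw [gn_eq] at k1 k2 k3 k4
  unfold mid
  linear_combination (1 / 2) * k1 + (1 / 2) * k2 + (1 / 2) * k3 + (1 / 2) * k4

theorem mid_high_ge (P : Par s t) (h2 : y ≤ h0) (hr1 : 1 / 2 ≤ r) (hr2 : r ≤ 1) (h3 : r ≤ w)
    (h4 : w ≤ ext r) : mid s (gam r y) y ≤ mid s (gamH (ext r) w y) y := by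
  have k1 := ga_high (jP_ok P.bd) h2 hr1 hr2 h3 h4
  have k2 := ga_high (jQ_ok P.bd) h2 hr1 hr2 h3 h4
  have k3 := ga_high (jR_ok P.bd) h2 hr1 hr2 h3 h4
  have k4 := ga_high (jS_ok P.bd) h2 hr1 hr2 h3 h4
  rw [gn_eq] at k1 k2 k3 k4
  unfold mid
  linear_combination (1 / 2) * k1 + (1 / 2) * k2 + (1 / 2) * k3 + (1 / 2) * k4

/-- One real side. -/
theorem side_real (P : Par s t) (hW : Win s t) (hB : MidW s (h0 + s - 1))
    (hC : HighC s (h0 + s - 1) t)
    (h1 : 0 ≤ y) (h2 : y ≤ h0 + s / 2) (hr : Adm (2 * h0 + s - y) r) (hq : Adm y q)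
    (hw : y < 1 / 2 → ext r - r ≤ y) (hw' : t ≤ y → y < 1 / 2 → r - ext r ≤ 3 / 8)
    (hv : 17 / 20 ≤ y → y ≤ h0 → r - ext r ≤ 3 / 8)
    (hv' : 17 / 20 ≤ y → y ≤ h0 → ext r - r ≤ 3 / 8) :
    1 + g s ≤ tot s t (gam r q) y := by
  have hh := h0_lt
  have hg := h0_gt
  have hs0 := P.s0
  have hs1 := P.s1
  have ht0 := P.t0
  have hts := P.ts
  have hγ := fun v => gam_nonneg r q v
  have hr' : 1 / 2 ≤ r ∧ r ≤ 1 ∧ r ≤ 2 * h0 + s - y ∧ ext r ≤ 2 * h0 + s - y := by
    rcases hr with hr | ⟨-, -, hr⟩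
    · exact hr
    · exact absurd h2 (not_le.mpr (by linear_combination (1 / 2) * hs0 + hr))
  obtain ⟨r1, r2, r3, r4⟩ := hr'
  rcases le_total y h0 with h3 | h3
  · have hqy := adm_low h3 hq
    subst hqy
    rcases le_total q t with h4 | h4
    · exact low P hγ (gam_zero' _ _) h1 h4 (by
        rw [real_floor _ _ _ (by linear_combination h1), neg_neg, vir_floor])
    · have key : 2 * (1 + g s - 2 * g q) ≤ mid s (gam r q) q := by
        rcases le_total q s with h5 | h5
        · exact hW q r h4 h5 r1 r2 hw (hw' h4)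
        · have := hB q r h5 h3 r1 r2 (fun h => hv h h3) (fun h => hv' h h3)
          rw [mid_eq]
          linear_combination (1 / 2) * this
      have := mid_real (x := 0) P hγ h4 h3 (fun v hv => real_floor _ _ v hv) (by linear_combination key)
      linear_combination this
  · have hq' : 1 / 2 ≤ q ∧ q ≤ 1 ∧ q ≤ y ∧ ext q ≤ y := by
      rcases hq with hq | ⟨-, -, hq⟩
      · exact hq
      · exact absurd h3 (not_le.mpr (by linear_combination hq))
    obtain ⟨q1, q2, q3, q4⟩ := hq'
    have k := hC y r q h3 h2 r1 r2 r3 r4 q1 q2 q3 q4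
    have k0 := ga_nonneg (y := y) (k0_ok P) hγ
    have k1 := tot_ge (y := y) P hγ
    rw [gn_eq] at k
    rw [mid_eq] at k1
    linear_combination (1 / 2) * k + k0 + k1

/-- One crude side. -/
theorem side_crude (P : Par s t) (hO : Out s t) (hR : Rim s t) (hH : High s t)
    (h1 : 0 ≤ y) (hy : y < 1 / 2) (hr1 : 1 / 2 ≤ r) (hr2 : r < h0 * g y - y / 2)
    (hγ : γ = gam r 0 ∨ γ = gamH (ext r) (ww y r) y) :
    1 + g s ≤ tot s t γ y ∧ (t ≤ y → 1 + g s + dl s ≤ tot s t γ y) := by
  have hh := h0_lt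
  have hg := h0_gt
  have hs0 := P.s0
  have hs1 := P.s1
  have ht0 := P.t0
  have hts := P.ts
  have gy := g_le_one y
  have r1 : r ≤ 1 := by linear_combination (1 / 2) * h1 + (433 / 500) * gy + 10000 * (mul_pos (sub_pos.mpr hr2) (sub_pos.mpr hh)) +
    10000 * (mul_pos (sub_pos.mpr hr2) (sub_pos.mpr hg)) + 10000 * (mul_pos (sub_pos.mpr hh) (sub_pos.mpr hh)) +
    10000 * (mul_pos (sub_pos.mpr hh) (sub_pos.mpr hg)) + (mul_nonneg (sub_nonneg.mpr (le_of_lt hg)) (sub_nonneg.mpr gy))
  have yh : y ≤ h0 := by linear_combination hy + hg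
  obtain ⟨e1, e2, -, -, -⟩ := ext_facts hr1 r1
  have hww : r ≤ ww y r ∧ ww y r ≤ ext r := by
    have hh0 : r ≤ h0 := by linear_combination (1 / 2) * h1 + hr2 + (mul_nonneg (sub_nonneg.mpr (le_of_lt h0_pos)) (sub_nonneg.mpr gy))
    unfold ww
    split
    · next h => exact ⟨h, by linear_combination h1⟩
    · refine ⟨le_rfl, ?_⟩
      have h5 : 1 / 2 ≤ g r := by
        rw [← g_h0]
        exact g_anti (by linear_combination hr1) hh0
      unfold ext
      have := h0_pos
      have hsq := h0_sq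
      have h6 : h0 * (1 / 2) ≤ h0 * g r := mul_le_mul_of_nonneg_left h5 (by linear_combination hg)
      linear_combination (1 / 2) * hh0 + h6
  have nn : ∀ v, 0 ≤ γ v := by
    rcases hγ with h | h <;> rw [h]
    · exact gam_nonneg _ _
    · exact gamH_nonneg _ _ _
  have z0 : γ 0 = 0 := by
    rcases hγ with h | h <;> rw [h]
    · exact gam_zero' _ _
    · unfold gamH
      rw [if_pos le_rfl]
      exact hi_zero hr1 r1 hww.1 hww.2
  have fl : γ (-y) ≤ 1 - g y := by
    rcases hγ with h | h <;> rw [h]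
    · rcases h1.eq_or_lt with h3 | h3
      · rw [← h3, neg_zero, gam_zero', g_zero]
        norm_num
      · unfold gam
        rw [if_neg (by exact not_le.mpr (by linear_combination h3)), vir_zero_disc]
        linear_combination gy
    · rw [high_floor hr1 r1 hww.1 hww.2 _ (by linear_combination h1), neg_neg, vir_floor]
  have strong : t ≤ y → 1 + g s + dl s ≤ tot s t γ y := by
    intro h3
    rcases hγ with h | h
    · rw [h]
      apply mid_line P h3 yh
      exact (hO y r h3 hy hr1 r1).trans (mid_line_ge P yh hr1 r1)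
    · rw [h]
      apply mid_real P (gamH_nonneg _ _ _) h3 yh (high_floor hr1 r1 hww.1 hww.2)
      by_cases h5 : r ≤ ext r - y - 3 / 200
      · have e : ww y r = ext r - y - 3 / 200 := by
          unfold ww
          rw [if_pos h5]
        rw [e]
        exact hH y r h3 hy hr1 hr2 h5
      · exact (hR y r h3 hy hr1 hr2 (not_le.1 h5)).trans
          (mid_high_ge P yh hr1 r1 hww.1 hww.2)
  refine ⟨?_, strong⟩
  rcases le_total y t with h3 | h3
  · exact low P nn z0 h1 h3 fl
  · have := strong h3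
    have := dl_pos P
    linear_combination this + (‹1 + g s + dl s ≤ tot s t γ y›)

end

/-- The certificate. -/
theorem cert {s t : ℝ} (P : Par s t) (hW : Win s t) (hO : Out s t) (hI : Ins s t) (hR : Rim s t)
    (hH : High s t) (hB : MidW s (h0 + s - 1)) (hBO : MidO s (h0 + s - 1))
    (hBI : MidI s (h0 + s - 1)) (hC : HighC s (h0 + s - 1) t) :
    ProbeCert2 (2 * h0 + s) (weights s) (probes s t) ww := by
  have hh := h0_lt
  have hg := h0_gt
  have hs0 := P.s0
  have hs1 := P.s1
  have ht0 := P.t0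
  have hts := P.ts
  have hc : 0 < 1 + g s := by linear_combination (g_nonneg s)
  refine ⟨by linear_combination hg + hs0, ww_ok, ?_, ?_, ?_, ?_⟩
  · intro i
    unfold weights
    fin_cases i <;> simp <;> positivity
  · intro i
    fin_cases i
    · exact k0_ok P
    · exact j1_ok P
    · exact jP_ok P.bd
    · exact jQ_ok P.bd
    · exact jR_ok P.bd
    · exact jS_ok P.bd
    · exact j4_ok P
    · exact k5_ok P
  · intro f
    unfold pot weights probes
    rw [Fin.sum_univ_eight, Fin.sum_univ_eight]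
    simp only [Matrix.cons_val_zero, Matrix.cons_val_one, Matrix.cons_val]
    unfold jR jS j4 k5
    simp only [mirP_val, sub_sub_cancel]
    ring
  · intro y r q γ r' q' γ' hy0 hy1 h h' c1 c2 c3 c4
    rw [pg_eq, pg_eq]
    have hy2 : y ≤ h0 + s / 2 := by linear_combination hy1
    suffices h3 : 2 * (1 + g s) ≤ tot s t γ y + tot s t γ' y by
      calc (2 : ℝ) = 1 / (1 + g s) * (2 * (1 + g s)) := by field_simp
        _ ≤ 1 / (1 + g s) * (tot s t γ y + tot s t γ' y) :=
          mul_le_mul_of_nonneg_left h3 (by positivity)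
        _ = _ := by ring
    have bds : ∀ {r : ℝ}, Adm (2 * h0 + s - y) r → 1 / 2 ≤ r ∧ r ≤ 1 := by
      intro r hr
      rcases hr with hr | ⟨-, -, hr⟩
      · exact ⟨hr.1, hr.2.1⟩
      · exact absurd hr (not_lt.mpr (by linear_combination (1 / 2) * hs0 + hy1))
    have lft : ∀ {r : ℝ}, Adm (2 * h0 + s - y) r → y < 1 / 2 → h0 * g y - y / 2 ≤ r →
        ext r - r ≤ y := by
      intro r hr h6 hc
      obtain ⟨w1, w2⟩ := ext_window hy0 h6.le
      have := ext_anti w2 hc (bds hr).2
      rw [w1] at this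
      linear_combination hc + this
    -- a real side outside of the good part of the window
    have big : ∀ {r q : ℝ}, Adm (2 * h0 + s - y) r → Adm y q → t ≤ y → y < 1 / 2 →
        1 + g s - dl s ≤ tot s t (gam r q) y := by
      intro r q hr hq h4 h6
      have yh : y ≤ h0 := by linear_combination hg + h6
      have hqy := adm_low yh hq
      subst hqy
      have k4 := hO q r h4 h6 (bds hr).1 (bds hr).2
      have k5 := mid_real (x := -dl s) P (fun v => gam_nonneg r q v) h4 yh
        (fun v hv => real_floor _ _ v hv) (by linear_combination k4)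
      linear_combination k5
    have ins : ∀ {r q : ℝ}, Adm (2 * h0 + s - y) r → Adm y q →
        (y < 1 / 2 → h0 * g y - y / 2 ≤ r) → t ≤ y → y < 1 / 2 → 3 / 8 ≤ ext r - r →
        1 + g s + dl s ≤ tot s t (gam r q) y := by
      intro r q hr hq hc h4 h6 h7
      have yh : y ≤ h0 := by linear_combination hg + h6
      have hqy := adm_low yh hq
      subst hqy
      have k4 := hI q r h4 h6 (bds hr).1 (bds hr).2 h7 (lft hr h6 (hc h6))
      exact mid_real P (fun v => gam_nonneg r q v) h4 yh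
        (fun v hv => real_floor _ _ v hv) k4
    -- the same close to `h0`
    have bigM : ∀ {r q : ℝ}, Adm (2 * h0 + s - y) r → Adm y q → 17 / 20 ≤ y → y ≤ h0 →
        3 / 8 < r - ext r → 1 + g s - del y ≤ tot s t (gam r q) y := by
      intro r q hr hq h4 yh h7
      have hqy := adm_low yh hq
      subst hqy
      have k4 := hBO q r h4 yh (bds hr).2 h7.le
      have k5 := mid_real (x := -del q) P (fun v => gam_nonneg r q v) (by linear_combination hs1 + hts + h4) yh
        (fun v hv => real_floor _ _ v hv) (by rw [mid_eq]; linear_combination (1 / 2) * k4)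
      linear_combination k5
    have insM : ∀ {r q : ℝ}, Adm (2 * h0 + s - y) r → Adm y q → 17 / 20 ≤ y → y ≤ h0 →
        3 / 8 ≤ ext r - r → 1 + g s + del y ≤ tot s t (gam r q) y := by
      intro r q hr hq h4 yh h7
      have hqy := adm_low yh hq
      subst hqy
      have k4 := hBI q r h4 yh (bds hr).1 h7
      exact mid_real P (fun v => gam_nonneg r q v) (by linear_combination hs1 + hts + h4) yh
        (fun v hv => real_floor _ _ v hv) (by rw [mid_eq]; linear_combination (1 / 2) * k4)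
    have ok : ∀ {r q : ℝ}, Adm (2 * h0 + s - y) r → Adm y q →
        (y < 1 / 2 → h0 * g y - y / 2 ≤ r) → (t ≤ y → y < 1 / 2 → r - ext r ≤ 3 / 8) →
        (17 / 20 ≤ y → y ≤ h0 → r - ext r ≤ 3 / 8) → 1 + g s ≤ tot s t (gam r q) y := by
      intro r q hr hq hc h7 h8
      by_cases h9 : 17 / 20 ≤ y ∧ y ≤ h0 ∧ 3 / 8 < ext r - r
      · have k1 := insM hr hq h9.1 h9.2.1 h9.2.2.le
        have k2 : 0 ≤ del y := by
          unfold del
          apply mul_nonneg
          · linear_combination h9.2.1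
          · linear_combination 30 * h9.1 + 30 * hh
        linear_combination k1 + k2
      · exact side_real P hW hB hC hy0 hy2 hr hq (fun h6 => lft hr h6 (hc h6)) h7 h8
          (fun a b => by
            by_contra hcon
            exact h9 ⟨a, b, not_le.1 hcon⟩)
    -- two real sides, the first one is large
    have rr : ∀ {r q r' q' : ℝ}, Adm (2 * h0 + s - y) r → Adm y q →
        (y < 1 / 2 → h0 * g y - y / 2 ≤ r) → Adm (2 * h0 + s - y) r' → Adm y q' →
        (y < 1 / 2 → h0 * g y - y / 2 ≤ r') → r ≤ ext r' → r' ≤ ext r →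
        (t ≤ y ∧ y < 1 / 2 ∨ 17 / 20 ≤ y ∧ y ≤ h0) → 3 / 8 < r - ext r →
        2 * (1 + g s) ≤ tot s t (gam r q) y + tot s t (gam r' q') y := by
      intro r q r' q' hr hq hc hr' hq' hc' c c' hz h7
      rcases hz with ⟨h4, h6⟩ | ⟨h4, h6⟩
      · have k1 := big hr hq h4 h6
        have k2 := ins hr' hq' hc' h4 h6 (by linear_combination c + c' + h7)
        linear_combination k1 + k2
      · have k1 := bigM hr hq h4 h6 h7
        have k2 := insM hr' hq' h4 h6 (by linear_combination c + c' + h7)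
        linear_combination k1 + k2
    -- a real side together with a crude side
    have rc : ∀ {r q : ℝ} {γ' : ℝ → ℝ}, Adm (2 * h0 + s - y) r → Adm y q →
        (y < 1 / 2 → h0 * g y - y / 2 ≤ r) → y < 1 / 2 → 1 + g s ≤ tot s t γ' y →
        (t ≤ y → 1 + g s + dl s ≤ tot s t γ' y) →
        2 * (1 + g s) ≤ tot s t (gam r q) y + tot s t γ' y := by
      intro r q γ' hr hq hc h6 k1 k2
      by_cases h4 : t ≤ y ∧ 3 / 8 < r - ext r
      · have k3 := k2 h4.1
        have k4 := big hr hq h4.1 h6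
        linear_combination k3 + k4
      · have k3 := ok hr hq hc (by
          intro h5 _
          by_contra hcon
          exact h4 ⟨h5, not_le.1 hcon⟩) (fun h5 _ => by exact absurd h5 (not_le.mpr (by linear_combination h6)))
        linear_combination k1 + k3
    have inv : ∀ {r q : ℝ} {γ : ℝ → ℝ}, Sd (2 * h0 + s) ww y r q γ →
        (γ = gam r q ∧ Adm (2 * h0 + s - y) r ∧ Adm y q ∧ (y < 1 / 2 → h0 * g y - y / 2 ≤ r)) ∨
          (y < 1 / 2 ∧ 1 + g s ≤ tot s t γ y ∧ (t ≤ y → 1 + g s + dl s ≤ tot s t γ y)) := by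
      intro r q γ h
      cases h with
      | real _ hr hq hc => exact Or.inl ⟨rfl, hr, hq, hc⟩
      | line hy a1 a2 =>
        exact Or.inr ⟨hy, side_crude P hO hR hH hy0 hy a1 a2 (Or.inl rfl)⟩
      | high hy a1 a2 =>
        exact Or.inr ⟨hy, side_crude P hO hR hH hy0 hy a1 a2 (Or.inr rfl)⟩
    rcases inv h with ⟨rfl, hr, hq, hc1⟩ | ⟨hy, k1, k2⟩
    · rcases inv h' with ⟨rfl, hr', hq', hc1'⟩ | ⟨hy, k1, k2⟩
      · by_cases h7 : (t ≤ y ∧ y < 1 / 2 ∨ 17 / 20 ≤ y ∧ y ≤ h0) ∧ 3 / 8 < r - ext r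
        · exact rr hr hq hc1 hr' hq' hc1' c2 c1 h7.1 h7.2
        · by_cases h8 : (t ≤ y ∧ y < 1 / 2 ∨ 17 / 20 ≤ y ∧ y ≤ h0) ∧ 3 / 8 < r' - ext r'
          · have := rr hr' hq' hc1' hr hq hc1 c1 c2 h8.1 h8.2
            linear_combination this
          · have k1 := ok hr hq hc1 (fun a b => by
              by_contra hcon
              exact h7 ⟨Or.inl ⟨a, b⟩, not_le.1 hcon⟩) (fun a b => by
              by_contra hcon
              exact h7 ⟨Or.inr ⟨a, b⟩, not_le.1 hcon⟩)
            have k2 := ok hr' hq' hc1' (fun a b => by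
              by_contra hcon
              exact h8 ⟨Or.inl ⟨a, b⟩, not_le.1 hcon⟩) (fun a b => by
              by_contra hcon
              exact h8 ⟨Or.inr ⟨a, b⟩, not_le.1 hcon⟩)
            linear_combination k1 + k2
      · exact rc hr hq hc1 hy k1 k2
    · rcases inv h' with ⟨rfl, hr', hq', hc1'⟩ | ⟨_, k3, -⟩
      · have := rc hr' hq' hc1' hy k1 k2
        linear_combination this
      · linear_combination k1 + k3

theorem count {s t : ℝ} (P : Par s t) (hW : Win s t) (hO : Out s t) (hI : Ins s t) (hR : Rim s t)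
    (hH : High s t) (hB : MidW s (h0 + s - 1)) (hBO : MidO s (h0 + s - 1))
    (hBI : MidI s (h0 + s - 1)) (hC : HighC s (h0 + s - 1) t) : CountBound 2 s := by
  have hc : 0 < 1 + g s := by linear_combination (g_nonneg s)
  have hp := h0_gt
  have hs0 := P.s0
  have hs1 := P.s1
  apply countBound_of_probe2 (by linear_combination hs0) (by linear_combination hp + hs1) (c := weights s) (j := probes s t)
    (w := ww)
  · have := cert P hW hO hI hR hH hB hBO hBI hC
    push_cast
    exact this
  · unfold weights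
    rw [Fin.sum_univ_eight]
    simp only [Matrix.cons_val_zero, Matrix.cons_val_one, Matrix.cons_val]
    apply le_of_eq
    push_cast
    field_simp
    ring

end Pool.Agent.Strip051.FourG
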