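import Pool.Agent.Strip051.FourB.Box

/-! # The new point close to h0, C -/

namespace Pool.Agent.Strip051.FourG

set_option linter.unusedVariables false

open Pool.Agent.StripNear Pool.Agent.StripSquare Pool.Agent.Strip051
open Pool.Agent.Strip051.Four.Low (ph)
open Pool.Agent.Strip051.FourB (lo up)

/-- The function of the boxes `oc_`. -/
noncomputable def fBoxOC (s y b k M1 M2 M3 M4 G1 G2 G3 G4 : ℝ) : ℝ :=
  G1 + G2 + G3 + G4 - 8 * ph y + 4 * ph s - 3 * (h0 - y) - 6 / 1000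

/-- The region of the boxes `oc_`. -/
structure RoC (s y b k M1 M2 M3 M4 G1 G2 G3 G4 : ℝ) : Prop where
  k1 : 86602 / 100000 * ph b ≤ k
  k2 : k ≤ 86603 / 100000 * ph b
  h1 : 86602 / 100000 ≤ h0
  h2 : h0 ≤ 86603 / 100000
  h3 : 86602 / 100000 * b ≤ h0 * b
  k3 : 0 ≤ k
  k4 : k ≤ 1161 / 10000
  hq : h0 + b / 2 - k ≤ 1
  ys : s ≤ y
  yh : y ≤ h0
  x0 : 17 / 20 ≤ y
  x1 : y ≤ h0 - 1 / 200
  n1x : 1 - 1 / 2 - 1 / 2 * ph b - h0 * b + ph (y + b / 2 - k) - ph (1 - h0) ≤ M1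
  n1e : 1 - ph (s + 1 - y) + ph (s + 1 - h0) - ph (1 - h0) ≤ M1
  o11 : M1 - 1 / 2 - 1 / 2 * ph b + h0 * b + ph (y - b / 2 - k + h0 - 1) ≤ G1
  o1y : M1 - ph (h0 + s - y) + ph (h0 + s - 1) ≤ G1
  n2h : 1 - 1 / 2 - 1 / 2 * ph b - h0 * b + ph (y + b / 2 - k) - ph (h0 + s - 1) ≤ M2
  n2e : 3 / 2 - ph (2 * h0 - y) - ph (h0 + s - 1) ≤ M2
  o2m : M2 - 1 / 2 - 1 / 2 * ph b + h0 * b + ph (y - b / 2 - k - h0 - s + 1) ≤ G2
  o2y : M2 - ph (h0 + s - y) + ph (1 - h0) ≤ G2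
  n3x : 1 - 1 / 2 - 1 / 2 * ph b - h0 * b + ph (y + b / 2 - k) - ph (1 - h0) ≤ M3
  n3e : 1 - ph (9 / 5 - y) + ph (9 / 5 - h0) - ph (1 - h0) ≤ M3
  o3h : M3 - 1 / 2 - 1 / 2 * ph b + h0 * b + ph (y - b / 2 - k) - ph (1 - h0) ≤ G3
  n4e : 1 - ph (h0 + s - y) + ph (1 - h0) ≤ M4
  o4y : M4 - ph (h0 + s - y) + ph (1 - h0) ≤ G4
  o4m : M4 - 1 / 2 - 1 / 2 * ph b + h0 * b + ph (y - b / 2 - k - h0 - s + 1) ≤ G4
  o4v : M4 - 1 / 2 - 1 / 2 * ph b + h0 * b + ph (y - b / 2 - k - s) - ph (1 - h0) ≤ G4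
  s1 : 57 / 100 ≤ s
  s2 : s ≤ 607 / 1000
  y1 : 17 / 20 ≤ y
  y2 : y ≤ 2153 / 2500
  b1 : 3 / 8 ≤ b
  b2 : b ≤ 1 / 2

theorem RoC.lo3 {s y b k M1 M2 M3 M4 G1 G2 G3 G4 : ℝ} (R : RoC s y b k M1 M2 M3 M4 G1 G2 G3 G4) (w0 : ℝ) (hw0 : w0 ^ 2 < 1) :
    2 * w0 * (9 / 5 - h0) - 2 * w0 ^ 2 ≤ (1 - w0 ^ 2) * ph (9 / 5 - h0) :=
  lo hw0 (by linarith only [R.h2]) (by linarith only [R.h1])

theorem RoC.lo8 {s y b k M1 M2 M3 M4 G1 G2 G3 G4 : ℝ} (R : RoC s y b k M1 M2 M3 M4 G1 G2 G3 G4) (w0 : ℝ) (hw0 : w0 ^ 2 < 1) :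
    2 * w0 * (s + 1 - h0) - 2 * w0 ^ 2 ≤ (1 - w0 ^ 2) * ph (s + 1 - h0) :=
  lo hw0 (by linarith only [R.h2, R.s1]) (by linarith only [R.h1, R.s2])

theorem RoC.lo10 {s y b k M1 M2 M3 M4 G1 G2 G3 G4 : ℝ} (R : RoC s y b k M1 M2 M3 M4 G1 G2 G3 G4) (w0 : ℝ) (hw0 : w0 ^ 2 < 1) :
    2 * w0 * (s) - 2 * w0 ^ 2 ≤ (1 - w0 ^ 2) * ph (s) :=
  lo hw0 (by linarith only [R.s1]) (by linarith only [R.s2])

theorem RoC.lo12 {s y b k M1 M2 M3 M4 G1 G2 G3 G4 : ℝ} (R : RoC s y b k M1 M2 M3 M4 G1 G2 G3 G4) (w0 : ℝ) (hw0 : w0 ^ 2 < 1) :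
    2 * w0 * (y - b / 2 - k + h0 - 1) - 2 * w0 ^ 2 ≤ (1 - w0 ^ 2) * ph (y - b / 2 - k + h0 - 1) :=
  lo hw0 (by linarith only [R.h1, R.k4, R.x0, R.b2]) (by linarith only [R.h2, R.hq, R.x1, R.b1])

theorem RoC.lo13 {s y b k M1 M2 M3 M4 G1 G2 G3 G4 : ℝ} (R : RoC s y b k M1 M2 M3 M4 G1 G2 G3 G4) (w0 : ℝ) (hw0 : w0 ^ 2 < 1) :
    2 * w0 * (y - b / 2 - k - h0 - s + 1) - 2 * w0 ^ 2 ≤ (1 - w0 ^ 2) * ph (y - b / 2 - k - h0 - s + 1) :=
  lo hw0 (by linarith only [R.h2, R.k4, R.x0, R.s2, R.b2]) (by linarith only [R.h1, R.hq, R.x1, R.s1, R.b1])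

theorem RoC.lo15 {s y b k M1 M2 M3 M4 G1 G2 G3 G4 : ℝ} (R : RoC s y b k M1 M2 M3 M4 G1 G2 G3 G4) (w0 : ℝ) (hw0 : w0 ^ 2 < 1) :
    2 * w0 * (y - b / 2 - k) - 2 * w0 ^ 2 ≤ (1 - w0 ^ 2) * ph (y - b / 2 - k) :=
  lo hw0 (by linarith only [R.k4, R.x0, R.b2]) (by linarith only [R.hq, R.x1, R.b1])

theorem oc_3 {s y b k M1 M2 M3 M4 G1 G2 G3 G4 : ℝ} (R : RoC s y b k M1 M2 M3 M4 G1 G2 G3 G4)
    (s1 : 57 / 100 ≤ s) (s2 : s ≤ 1159 / 2000) (y1 : 17 / 20 ≤ y) (y2 : y ≤ 2153 / 2500)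
    (b1 : 3 / 8 ≤ b) (b2 : b ≤ 219 / 500) :
    0 ≤ fBoxOC s y b k M1 M2 M3 M4 G1 G2 G3 G4 := by
  have e1 := up (t1 := (584 / 1000)) (t2 := (600 / 1000)) (x := 2 * h0 - y) (by norm_num)
    (by linarith only [R.h1, R.x1]) (by linarith only [R.h2, R.x0])
  have e2 := R.lo3 (688 / 1000) (by norm_num)
  have e3 := up (t1 := (698 / 1000)) (t2 := (724 / 1000)) (x := 9 / 5 - y) (by norm_num)
    (by linarith only [R.h2, R.x1]) (by linarith only [R.x0])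
  have e4 := up (t1 := (194 / 1000)) (t2 := (231 / 1000)) (x := b) (by norm_num)
    (by linarith only [b1]) (by linarith only [b2])
  have e5 := up (t1 := (316 / 1000)) (t2 := (331 / 1000)) (x := h0 + s - y) (by norm_num)
    (by linarith only [R.x1, s1]) (by linarith only [R.h2, R.x0, s2])
  have e6 := R.lo8 (420 / 1000) (by norm_num)
  have e7 := up (t1 := (415 / 1000)) (t2 := (434 / 1000)) (x := s + 1 - y) (by norm_num)
    (by linarith only [R.h2, R.x1, s1]) (by linarith only [R.x0, s2])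
  have e8 := R.lo10 (319 / 1000) (by norm_num)
  have e9 := up (t1 := (556 / 1000)) (t2 := (571 / 1000)) (x := y) (by norm_num)
    (by linarith only [R.x0]) (by linarith only [R.h2, R.x1])
  have e10 := R.lo15 (318 / 1000) (by norm_num)
  have e11 := R.lo15 (341 / 1000) (by norm_num)
  unfold fBoxOC
  linarith only [R.k2, R.h2, R.h3, R.x1, R.n1e, R.o1y, R.n2e, R.o2y, R.n3e, R.o3h, R.n4e, R.o4y, s2, e1, e2, e3, e4, e5, e6, e7, e8, e9, e10, e11]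

theorem oc_4 {s y b k M1 M2 M3 M4 G1 G2 G3 G4 : ℝ} (R : RoC s y b k M1 M2 M3 M4 G1 G2 G3 G4)
    (s1 : 1159 / 2000 ≤ s) (s2 : s ≤ 589 / 1000) (y1 : 17 / 20 ≤ y) (y2 : y ≤ 2153 / 2500)
    (b1 : 3 / 8 ≤ b) (b2 : b ≤ 219 / 500) :
    0 ≤ fBoxOC s y b k M1 M2 M3 M4 G1 G2 G3 G4 := by
  have e1 := up (t1 := (67 / 1000)) (t2 := (68 / 1000)) (x := 1 - h0) (by norm_num)
    (by linarith only [R.h2]) (by linarith only [R.h1])
  have e2 := up (t1 := (584 / 1000)) (t2 := (600 / 1000)) (x := 2 * h0 - y) (by norm_num)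
    (by linarith only [R.h1, R.x1]) (by linarith only [R.h2, R.x0])
  have e3 := R.lo3 (688 / 1000) (by norm_num)
  have e4 := up (t1 := (698 / 1000)) (t2 := (724 / 1000)) (x := 9 / 5 - y) (by norm_num)
    (by linarith only [R.h2, R.x1]) (by linarith only [R.x0])
  have e5 := up (t1 := (194 / 1000)) (t2 := (231 / 1000)) (x := b) (by norm_num)
    (by linarith only [b1]) (by linarith only [b2])
  have e6 := up (t1 := (322 / 1000)) (t2 := (337 / 1000)) (x := h0 + s - y) (by norm_num)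
    (by linarith only [R.x1, s1]) (by linarith only [R.h2, R.x0, s2])
  have e7 := R.lo8 (428 / 1000) (by norm_num)
  have e8 := up (t1 := (423 / 1000)) (t2 := (442 / 1000)) (x := s + 1 - y) (by norm_num)
    (by linarith only [R.h2, R.x1, s1]) (by linarith only [R.x0, s2])
  have e9 := R.lo10 (326 / 1000) (by norm_num)
  have e10 := up (t1 := (556 / 1000)) (t2 := (571 / 1000)) (x := y) (by norm_num)
    (by linarith only [R.x0]) (by linarith only [R.h2, R.x1])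
  have e11 := R.lo13 (64 / 1000) (by norm_num)
  have e12 := R.lo15 (330 / 1000) (by norm_num)
  unfold fBoxOC
  linarith only [R.k2, R.h2, R.h3, R.x1, R.n1e, R.o1y, R.n2e, R.o2y, R.n3e, R.o3h, R.n4e, R.o4y, R.o4m, s2, e1, e2, e3, e4, e5, e6, e7, e8, e9, e10, e11, e12]

theorem oc_6 {s y b k M1 M2 M3 M4 G1 G2 G3 G4 : ℝ} (R : RoC s y b k M1 M2 M3 M4 G1 G2 G3 G4)
    (s1 : 589 / 1000 ≤ s) (s2 : s ≤ 607 / 1000) (y1 : 17 / 20 ≤ y) (y2 : y ≤ 2139 / 2500)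
    (b1 : 3 / 8 ≤ b) (b2 : b ≤ 219 / 500) :
    0 ≤ fBoxOC s y b k M1 M2 M3 M4 G1 G2 G3 G4 := by
  have e1 := up (t1 := (591 / 1000)) (t2 := (600 / 1000)) (x := 2 * h0 - y) (by norm_num)
    (by linarith only [R.h1, y2]) (by linarith only [R.h2, R.x0])
  have e2 := R.lo3 (688 / 1000) (by norm_num)
  have e3 := up (t1 := (710 / 1000)) (t2 := (724 / 1000)) (x := 9 / 5 - y) (by norm_num)
    (by linarith only [y2]) (by linarith only [R.x0])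
  have e4 := up (t1 := (194 / 1000)) (t2 := (231 / 1000)) (x := b) (by norm_num)
    (by linarith only [b1]) (by linarith only [b2])
  have e5 := up (t1 := (240 / 1000)) (t2 := (252 / 1000)) (x := h0 + s - 1) (by norm_num)
    (by linarith only [R.h1, s1]) (by linarith only [R.h2, s2])
  have e6 := up (t1 := (332 / 1000)) (t2 := (350 / 1000)) (x := h0 + s - y) (by norm_num)
    (by linarith only [R.h1, s1, y2]) (by linarith only [R.h2, R.x0, s2])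
  have e7 := R.lo8 (443 / 1000) (by norm_num)
  have e8 := up (t1 := (436 / 1000)) (t2 := (458 / 1000)) (x := s + 1 - y) (by norm_num)
    (by linarith only [s1, y2]) (by linarith only [R.x0, s2])
  have e9 := R.lo10 (338 / 1000) (by norm_num)
  have e10 := up (t1 := (556 / 1000)) (t2 := (564 / 1000)) (x := y) (by norm_num)
    (by linarith only [R.x0]) (by linarith only [y2])
  have e11 := R.lo12 (250 / 1000) (by norm_num)
  have e12 := R.lo15 (337 / 1000) (by norm_num)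
  unfold fBoxOC
  linarith only [R.k2, R.h2, R.h3, R.n1e, R.o11, R.o1y, R.n2e, R.o2y, R.n3e, R.o3h, R.n4e, R.o4y, y2, b1, e1, e2, e3, e4, e5, e6, e7, e8, e9, e10, e11, e12]

theorem oc_8 {s y b k M1 M2 M3 M4 G1 G2 G3 G4 : ℝ} (R : RoC s y b k M1 M2 M3 M4 G1 G2 G3 G4)
    (s1 : 589 / 1000 ≤ s) (s2 : s ≤ 299 / 500) (y1 : 2139 / 2500 ≤ y) (y2 : y ≤ 2153 / 2500)
    (b1 : 3 / 8 ≤ b) (b2 : b ≤ 219 / 500) :
    0 ≤ fBoxOC s y b k M1 M2 M3 M4 G1 G2 G3 G4 := by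
  have e1 := up (t1 := (67 / 1000)) (t2 := (68 / 1000)) (x := 1 - h0) (by norm_num)
    (by linarith only [R.h2]) (by linarith only [R.h1])
  have e2 := up (t1 := (584 / 1000)) (t2 := (592 / 1000)) (x := 2 * h0 - y) (by norm_num)
    (by linarith only [R.h1, R.x1]) (by linarith only [R.h2, y1])
  have e3 := R.lo3 (688 / 1000) (by norm_num)
  have e4 := up (t1 := (698 / 1000)) (t2 := (711 / 1000)) (x := 9 / 5 - y) (by norm_num)
    (by linarith only [R.h2, R.x1]) (by linarith only [y1])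
  have e5 := up (t1 := (194 / 1000)) (t2 := (231 / 1000)) (x := b) (by norm_num)
    (by linarith only [b1]) (by linarith only [b2])
  have e6 := up (t1 := (329 / 1000)) (t2 := (340 / 1000)) (x := h0 + s - y) (by norm_num)
    (by linarith only [R.x1, s1]) (by linarith only [R.h2, s2, y1])
  have e7 := R.lo8 (435 / 1000) (by norm_num)
  have e8 := up (t1 := (431 / 1000)) (t2 := (445 / 1000)) (x := s + 1 - y) (by norm_num)
    (by linarith only [R.h2, R.x1, s1]) (by linarith only [s2, y1])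
  have e9 := R.lo10 (332 / 1000) (by norm_num)
  have e10 := up (t1 := (563 / 1000)) (t2 := (571 / 1000)) (x := y) (by norm_num)
    (by linarith only [y1]) (by linarith only [R.h2, R.x1])
  have e11 := R.lo13 (67 / 1000) (by norm_num)
  have e12 := R.lo15 (330 / 1000) (by norm_num)
  unfold fBoxOC
  linarith only [R.k2, R.h2, R.h3, R.x1, R.n1e, R.o1y, R.n2e, R.o2m, R.o2y, R.n3e, R.o3h, R.n4e, R.o4y, s2, e1, e2, e3, e4, e5, e6, e7, e8, e9, e10, e11, e12]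

theorem oc_10 {s y b k M1 M2 M3 M4 G1 G2 G3 G4 : ℝ} (R : RoC s y b k M1 M2 M3 M4 G1 G2 G3 G4)
    (s1 : 299 / 500 ≤ s) (s2 : s ≤ 241 / 400) (y1 : 2139 / 2500 ≤ y) (y2 : y ≤ 2153 / 2500)
    (b1 : 3 / 8 ≤ b) (b2 : b ≤ 219 / 500) :
    0 ≤ fBoxOC s y b k M1 M2 M3 M4 G1 G2 G3 G4 := by
  have e1 := up (t1 := (67 / 1000)) (t2 := (68 / 1000)) (x := 1 - h0) (by norm_num)
    (by linarith only [R.h2]) (by linarith only [R.h1])
  have e2 := up (t1 := (584 / 1000)) (t2 := (592 / 1000)) (x := 2 * h0 - y) (by norm_num)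
    (by linarith only [R.h1, R.x1]) (by linarith only [R.h2, y1])
  have e3 := R.lo3 (688 / 1000) (by norm_num)
  have e4 := up (t1 := (698 / 1000)) (t2 := (711 / 1000)) (x := 9 / 5 - y) (by norm_num)
    (by linarith only [R.h2, R.x1]) (by linarith only [y1])
  have e5 := up (t1 := (194 / 1000)) (t2 := (231 / 1000)) (x := b) (by norm_num)
    (by linarith only [b1]) (by linarith only [b2])
  have e6 := up (t1 := (335 / 1000)) (t2 := (343 / 1000)) (x := h0 + s - y) (by norm_num)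
    (by linarith only [R.x1, s1]) (by linarith only [R.h2, s2, y1])
  have e7 := R.lo8 (439 / 1000) (by norm_num)
  have e8 := up (t1 := (439 / 1000)) (t2 := (449 / 1000)) (x := s + 1 - y) (by norm_num)
    (by linarith only [R.h2, R.x1, s1]) (by linarith only [s2, y1])
  have e9 := R.lo10 (335 / 1000) (by norm_num)
  have e10 := up (t1 := (563 / 1000)) (t2 := (571 / 1000)) (x := y) (by norm_num)
    (by linarith only [y1]) (by linarith only [R.h2, R.x1])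
  have e11 := R.lo13 (74 / 1000) (by norm_num)
  have e12 := R.lo15 (341 / 1000) (by norm_num)
  unfold fBoxOC
  linarith only [R.k2, R.h2, R.h3, R.x1, R.n1e, R.o1y, R.n2e, R.o2y, R.n3e, R.o3h, R.n4e, R.o4y, R.o4m, s2, e1, e2, e3, e4, e5, e6, e7, e8, e9, e10, e11, e12]

theorem oc_11 {s y b k M1 M2 M3 M4 G1 G2 G3 G4 : ℝ} (R : RoC s y b k M1 M2 M3 M4 G1 G2 G3 G4)
    (s1 : 241 / 400 ≤ s) (s2 : s ≤ 607 / 1000) (y1 : 2139 / 2500 ≤ y) (y2 : y ≤ 2153 / 2500)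
    (b1 : 3 / 8 ≤ b) (b2 : b ≤ 219 / 500) :
    0 ≤ fBoxOC s y b k M1 M2 M3 M4 G1 G2 G3 G4 := by
  have e1 := up (t1 := (67 / 1000)) (t2 := (68 / 1000)) (x := 1 - h0) (by norm_num)
    (by linarith only [R.h2]) (by linarith only [R.h1])
  have e2 := up (t1 := (584 / 1000)) (t2 := (592 / 1000)) (x := 2 * h0 - y) (by norm_num)
    (by linarith only [R.h1, R.x1]) (by linarith only [R.h2, y1])
  have e3 := R.lo3 (688 / 1000) (by norm_num)
  have e4 := up (t1 := (698 / 1000)) (t2 := (711 / 1000)) (x := 9 / 5 - y) (by norm_num)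
    (by linarith only [R.h2, R.x1]) (by linarith only [y1])
  have e5 := up (t1 := (194 / 1000)) (t2 := (231 / 1000)) (x := b) (by norm_num)
    (by linarith only [b1]) (by linarith only [b2])
  have e6 := up (t1 := (338 / 1000)) (t2 := (346 / 1000)) (x := h0 + s - y) (by norm_num)
    (by linarith only [R.x1, s1]) (by linarith only [R.h2, s2, y1])
  have e7 := R.lo8 (443 / 1000) (by norm_num)
  have e8 := up (t1 := (443 / 1000)) (t2 := (453 / 1000)) (x := s + 1 - y) (by norm_num)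
    (by linarith only [R.h2, R.x1, s1]) (by linarith only [s2, y1])
  have e9 := R.lo10 (338 / 1000) (by norm_num)
  have e10 := up (t1 := (563 / 1000)) (t2 := (571 / 1000)) (x := y) (by norm_num)
    (by linarith only [y1]) (by linarith only [R.h2, R.x1])
  have e11 := R.lo13 (71 / 1000) (by norm_num)
  have e12 := R.lo15 (341 / 1000) (by norm_num)
  unfold fBoxOC
  linarith only [R.k2, R.h2, R.h3, R.x1, R.n1e, R.o1y, R.n2e, R.o2m, R.o2y, R.n3e, R.o3h, R.n4e, R.o4y, s2, e1, e2, e3, e4, e5, e6, e7, e8, e9, e10, e11, e12]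

theorem oc_12 {s y b k M1 M2 M3 M4 G1 G2 G3 G4 : ℝ} (R : RoC s y b k M1 M2 M3 M4 G1 G2 G3 G4)
    (s1 : 57 / 100 ≤ s) (s2 : s ≤ 607 / 1000) (y1 : 17 / 20 ≤ y) (y2 : y ≤ 2153 / 2500)
    (b1 : 219 / 500 ≤ b) (b2 : b ≤ 1 / 2) :
    0 ≤ fBoxOC s y b k M1 M2 M3 M4 G1 G2 G3 G4 := by
  have e1 := up (t1 := (67 / 1000)) (t2 := (68 / 1000)) (x := 1 - h0) (by norm_num)
    (by linarith only [R.h2]) (by linarith only [R.h1])
  have e2 := up (t1 := (584 / 1000)) (t2 := (600 / 1000)) (x := 2 * h0 - y) (by norm_num)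
    (by linarith only [R.h1, R.x1]) (by linarith only [R.h2, R.x0])
  have e3 := R.lo3 (688 / 1000) (by norm_num)
  have e4 := up (t1 := (698 / 1000)) (t2 := (724 / 1000)) (x := 9 / 5 - y) (by norm_num)
    (by linarith only [R.h2, R.x1]) (by linarith only [R.x0])
  have e5 := up (t1 := (230 / 1000)) (t2 := (268 / 1000)) (x := b) (by norm_num)
    (by linarith only [b1]) (by linarith only [b2])
  have e6 := up (t1 := (229 / 1000)) (t2 := (252 / 1000)) (x := h0 + s - 1) (by norm_num)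
    (by linarith only [R.h1, s1]) (by linarith only [R.h2, s2])
  have e7 := up (t1 := (316 / 1000)) (t2 := (350 / 1000)) (x := h0 + s - y) (by norm_num)
    (by linarith only [R.x1, s1]) (by linarith only [R.h2, R.x0, s2])
  have e8 := R.lo8 (412 / 1000) (by norm_num)
  have e9 := up (t1 := (415 / 1000)) (t2 := (458 / 1000)) (x := s + 1 - y) (by norm_num)
    (by linarith only [R.h2, R.x1, s1]) (by linarith only [R.x0, s2])
  have e10 := R.lo10 (313 / 1000) (by norm_num)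
  have e11 := up (t1 := (556 / 1000)) (t2 := (571 / 1000)) (x := y) (by norm_num)
    (by linarith only [R.x0]) (by linarith only [R.h2, R.x1])
  have e12 := R.lo12 (221 / 1000) (by norm_num)
  have e13 := R.lo13 (59 / 1000) (by norm_num)
  have e14 := R.lo15 (303 / 1000) (by norm_num)
  unfold fBoxOC
  linarith only [R.k2, R.h2, R.h3, R.x1, R.n1e, R.o11, R.n2e, R.o2m, R.n3e, R.o3h, R.n4e, R.o4m, s1, b1, e1, e2, e3, e4, e5, e6, e7, e8, e9, e10, e11, e12, e13, e14]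

theorem oc_9 {s y b k M1 M2 M3 M4 G1 G2 G3 G4 : ℝ} (R : RoC s y b k M1 M2 M3 M4 G1 G2 G3 G4)
    (s1 : 299 / 500 ≤ s) (s2 : s ≤ 607 / 1000) (y1 : 2139 / 2500 ≤ y) (y2 : y ≤ 2153 / 2500)
    (b1 : 3 / 8 ≤ b) (b2 : b ≤ 219 / 500) :
    0 ≤ fBoxOC s y b k M1 M2 M3 M4 G1 G2 G3 G4 := by
  rcases le_total s (241 / 400) with h | h
  · exact oc_10 R s1 h y1 y2 b1 b2
  · exact oc_11 R h s2 y1 y2 b1 b2

theorem oc_7 {s y b k M1 M2 M3 M4 G1 G2 G3 G4 : ℝ} (R : RoC s y b k M1 M2 M3 M4 G1 G2 G3 G4)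
    (s1 : 589 / 1000 ≤ s) (s2 : s ≤ 607 / 1000) (y1 : 2139 / 2500 ≤ y) (y2 : y ≤ 2153 / 2500)
    (b1 : 3 / 8 ≤ b) (b2 : b ≤ 219 / 500) :
    0 ≤ fBoxOC s y b k M1 M2 M3 M4 G1 G2 G3 G4 := by
  rcases le_total s (299 / 500) with h | h
  · exact oc_8 R s1 h y1 y2 b1 b2
  · exact oc_9 R h s2 y1 y2 b1 b2

theorem oc_5 {s y b k M1 M2 M3 M4 G1 G2 G3 G4 : ℝ} (R : RoC s y b k M1 M2 M3 M4 G1 G2 G3 G4)
    (s1 : 589 / 1000 ≤ s) (s2 : s ≤ 607 / 1000) (y1 : 17 / 20 ≤ y) (y2 : y ≤ 2153 / 2500)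
    (b1 : 3 / 8 ≤ b) (b2 : b ≤ 219 / 500) :
    0 ≤ fBoxOC s y b k M1 M2 M3 M4 G1 G2 G3 G4 := by
  rcases le_total y (2139 / 2500) with h | h
  · exact oc_6 R s1 s2 y1 h b1 b2
  · exact oc_7 R s1 s2 h y2 b1 b2

theorem oc_2 {s y b k M1 M2 M3 M4 G1 G2 G3 G4 : ℝ} (R : RoC s y b k M1 M2 M3 M4 G1 G2 G3 G4)
    (s1 : 57 / 100 ≤ s) (s2 : s ≤ 589 / 1000) (y1 : 17 / 20 ≤ y) (y2 : y ≤ 2153 / 2500)
    (b1 : 3 / 8 ≤ b) (b2 : b ≤ 219 / 500) :
    0 ≤ fBoxOC s y b k M1 M2 M3 M4 G1 G2 G3 G4 := by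
  rcases le_total s (1159 / 2000) with h | h
  · exact oc_3 R s1 h y1 y2 b1 b2
  · exact oc_4 R h s2 y1 y2 b1 b2

theorem oc_1 {s y b k M1 M2 M3 M4 G1 G2 G3 G4 : ℝ} (R : RoC s y b k M1 M2 M3 M4 G1 G2 G3 G4)
    (s1 : 57 / 100 ≤ s) (s2 : s ≤ 607 / 1000) (y1 : 17 / 20 ≤ y) (y2 : y ≤ 2153 / 2500)
    (b1 : 3 / 8 ≤ b) (b2 : b ≤ 219 / 500) :
    0 ≤ fBoxOC s y b k M1 M2 M3 M4 G1 G2 G3 G4 := by
  rcases le_total s (589 / 1000) with h | h
  · exact oc_2 R s1 h y1 y2 b1 b2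
  · exact oc_5 R h s2 y1 y2 b1 b2

theorem oc_0 {s y b k M1 M2 M3 M4 G1 G2 G3 G4 : ℝ} (R : RoC s y b k M1 M2 M3 M4 G1 G2 G3 G4)
    (s1 : 57 / 100 ≤ s) (s2 : s ≤ 607 / 1000) (y1 : 17 / 20 ≤ y) (y2 : y ≤ 2153 / 2500)
    (b1 : 3 / 8 ≤ b) (b2 : b ≤ 1 / 2) :
    0 ≤ fBoxOC s y b k M1 M2 M3 M4 G1 G2 G3 G4 := by
  rcases le_total b (219 / 500) with h | h
  · exact oc_1 R s1 s2 y1 y2 b1 h
  · exact oc_12 R s1 s2 y1 y2 h b2

end Pool.Agent.Strip051.FourG
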