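import Pool.Agent.Strip051.FourB.Box

/-! # The new point close to h0, T -/

namespace Pool.Agent.Strip051.FourG

set_option linter.unusedVariables false

open Pool.Agent.StripNear Pool.Agent.StripSquare Pool.Agent.Strip051
open Pool.Agent.Strip051.Four.Low (ph)
open Pool.Agent.Strip051.FourB (lo up)

/-- The function of the boxes `ot_`. -/
noncomputable def fBoxOT (s y b k M1 M2 M3 M4 G1 G2 G3 G4 : ℝ) : ℝ :=
  G1 + G2 + G3 + G4 - 8 * ph y + 4 * ph s + 408 / 100 * (h0 - y)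

/-- The region of the boxes `ot_`. -/
structure RoT (s y b k M1 M2 M3 M4 G1 G2 G3 G4 : ℝ) : Prop where
  k1 : 86602 / 100000 * ph b ≤ k
  k2 : k ≤ 86603 / 100000 * ph b
  h1 : 86602 / 100000 ≤ h0
  h2 : h0 ≤ 86603 / 100000
  h3 : 86602 / 100000 * b ≤ h0 * b
  k3 : 0 ≤ k
  k4 : k ≤ 1161 / 10000
  hq : h0 + b / 2 - k ≤ 1
  ys : s ≤ y
  yh : y ≤ h0
  x0 : h0 - 1 / 500 ≤ y
  x1 : h0 - b / 2 - k ≤ s - 1 / 1000
  n1x : 1 - 1 / 2 - 1 / 2 * ph b + h0 * b + ph (y - b / 2 - k) - ph (1 - h0) ≤ M1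
  n1e : 1 - ph (s + 1 - y) + ph (s + 1 - h0) - ph (1 - h0) ≤ M1
  o11 : M1 - 1 / 2 - 1 / 2 * ph b - h0 * b + ph (y + b / 2 - k + h0 - 1) ≤ G1
  o1y : M1 - ph (h0 + s - y) + ph (h0 + s - 1) ≤ G1
  n2h : 1 - 1 / 2 - 1 / 2 * ph b + h0 * b + ph (y - b / 2 - k) - ph (h0 + s - 1) ≤ M2
  n2v : 1 - 1 / 2 - 1 / 2 * ph b + h0 * b + ph (y - b / 2 - k - s) - ph (1 - h0) ≤ M2
  n2e : 3 / 2 - ph (2 * h0 - y) - ph (h0 + s - 1) ≤ M2
  o2m : M2 - 1 / 2 - 1 / 2 * ph b - h0 * b + ph (y + b / 2 - k - h0 - s + 1) ≤ G2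
  o2y : M2 - ph (h0 + s - y) + ph (1 - h0) ≤ G2
  n3x : 1 - 1 / 2 - 1 / 2 * ph b + h0 * b + ph (y - b / 2 - k) - ph (1 - h0) ≤ M3
  n3e : 1 - ph (9 / 5 - y) + ph (9 / 5 - h0) - ph (1 - h0) ≤ M3
  o3h : M3 - 1 / 2 - 1 / 2 * ph b - h0 * b + ph (y + b / 2 - k) - ph (1 - h0) ≤ G3
  n4x : 1 - 1 / 2 - 1 / 2 * ph b + h0 * b + ph (y - b / 2 - k - h0 - s + 1) ≤ M4
  n4v : 1 - 1 / 2 - 1 / 2 * ph b + h0 * b + ph (y - b / 2 - k - s) - ph (1 - h0) ≤ M4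
  n4e : 1 - ph (h0 + s - y) + ph (1 - h0) ≤ M4
  o4y : M4 - ph (h0 + s - y) + ph (1 - h0) ≤ G4
  o4m : M4 - 1 / 2 - 1 / 2 * ph b - h0 * b + ph (y + b / 2 - k - h0 - s + 1) ≤ G4
  s1 : 57 / 100 ≤ s
  s2 : s ≤ 607 / 1000
  y1 : 108 / 125 ≤ y
  y2 : y ≤ 8661 / 10000
  b1 : 3 / 8 ≤ b
  b2 : b ≤ 1 / 2

theorem RoT.lo3 {s y b k M1 M2 M3 M4 G1 G2 G3 G4 : ℝ} (R : RoT s y b k M1 M2 M3 M4 G1 G2 G3 G4) (w0 : ℝ) (hw0 : w0 ^ 2 < 1) :
    2 * w0 * (9 / 5 - h0) - 2 * w0 ^ 2 ≤ (1 - w0 ^ 2) * ph (9 / 5 - h0) :=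
  lo hw0 (by linarith only [R.h2]) (by linarith only [R.h1])

theorem RoT.lo8 {s y b k M1 M2 M3 M4 G1 G2 G3 G4 : ℝ} (R : RoT s y b k M1 M2 M3 M4 G1 G2 G3 G4) (w0 : ℝ) (hw0 : w0 ^ 2 < 1) :
    2 * w0 * (s + 1 - h0) - 2 * w0 ^ 2 ≤ (1 - w0 ^ 2) * ph (s + 1 - h0) :=
  lo hw0 (by linarith only [R.h2, R.s1]) (by linarith only [R.h1, R.s2])

theorem RoT.lo10 {s y b k M1 M2 M3 M4 G1 G2 G3 G4 : ℝ} (R : RoT s y b k M1 M2 M3 M4 G1 G2 G3 G4) (w0 : ℝ) (hw0 : w0 ^ 2 < 1) :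
    2 * w0 * (s) - 2 * w0 ^ 2 ≤ (1 - w0 ^ 2) * ph (s) :=
  lo hw0 (by linarith only [R.s1]) (by linarith only [R.s2])

theorem RoT.lo13 {s y b k M1 M2 M3 M4 G1 G2 G3 G4 : ℝ} (R : RoT s y b k M1 M2 M3 M4 G1 G2 G3 G4) (w0 : ℝ) (hw0 : w0 ^ 2 < 1) :
    2 * w0 * (y + b / 2 - k) - 2 * w0 ^ 2 ≤ (1 - w0 ^ 2) * ph (y + b / 2 - k) :=
  lo hw0 (by linarith only [R.h1, R.k4, R.x0, R.b1]) (by linarith only [R.hq, R.yh])

theorem RoT.lo14 {s y b k M1 M2 M3 M4 G1 G2 G3 G4 : ℝ} (R : RoT s y b k M1 M2 M3 M4 G1 G2 G3 G4) (w0 : ℝ) (hw0 : w0 ^ 2 < 1) :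
    2 * w0 * (y - b / 2 - k - h0 - s + 1) - 2 * w0 ^ 2 ≤ (1 - w0 ^ 2) * ph (y - b / 2 - k - h0 - s + 1) :=
  lo hw0 (by linarith only [R.k4, R.x0, R.s2, R.b2]) (by linarith only [R.h1, R.yh, R.x1])

theorem RoT.lo16 {s y b k M1 M2 M3 M4 G1 G2 G3 G4 : ℝ} (R : RoT s y b k M1 M2 M3 M4 G1 G2 G3 G4) (w0 : ℝ) (hw0 : w0 ^ 2 < 1) :
    2 * w0 * (y - b / 2 - k) - 2 * w0 ^ 2 ≤ (1 - w0 ^ 2) * ph (y - b / 2 - k) :=
  lo hw0 (by linarith only [R.h1, R.k4, R.x0, R.b2]) (by linarith only [R.yh, R.x1, R.s2])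

theorem ot_3 {s y b k M1 M2 M3 M4 G1 G2 G3 G4 : ℝ} (R : RoT s y b k M1 M2 M3 M4 G1 G2 G3 G4)
    (s1 : 57 / 100 ≤ s) (s2 : s ≤ 607 / 1000) (y1 : 108 / 125 ≤ y) (y2 : y ≤ 8661 / 10000)
    (b1 : 3 / 8 ≤ b) (b2 : b ≤ 391 / 1000) :
    0 ≤ fBoxOT s y b k M1 M2 M3 M4 G1 G2 G3 G4 := by
  have e1 := up (t1 := (67 / 1000)) (t2 := (68 / 1000)) (x := 1 - h0) (by norm_num)
    (by linarith only [R.h2]) (by linarith only [R.h1])
  have e2 := up (t1 := (577 / 1000)) (t2 := (581 / 1000)) (x := 2 * h0 - y) (by norm_num)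
    (by linarith only [R.h1, R.yh]) (by linarith only [R.h2, R.x0])
  have e3 := R.lo3 (688 / 1000) (by norm_num)
  have e4 := up (t1 := (688 / 1000)) (t2 := (693 / 1000)) (x := 9 / 5 - y) (by norm_num)
    (by linarith only [R.h2, R.yh]) (by linarith only [R.h1, R.x0])
  have e5 := up (t1 := (194 / 1000)) (t2 := (204 / 1000)) (x := b) (by norm_num)
    (by linarith only [b1]) (by linarith only [b2])
  have e6 := up (t1 := (335 / 1000)) (t2 := (340 / 1000)) (x := h0 + s - y) (by norm_num)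
    (by linarith only [R.k2, R.h1, R.yh, R.x1, b2, e5]) (by linarith only [R.x0, s2])
  have e7 := R.lo8 (443 / 1000) (by norm_num)
  have e8 := up (t1 := (439 / 1000)) (t2 := (446 / 1000)) (x := s + 1 - y) (by norm_num)
    (by linarith only [R.k2, R.yh, R.x1, b2, e5]) (by linarith only [R.h1, R.x0, s2])
  have e9 := R.lo10 (338 / 1000) (by norm_num)
  have e10 := up (t1 := (574 / 1000)) (t2 := (578 / 1000)) (x := y) (by norm_num)
    (by linarith only [R.h1, R.x0]) (by linarith only [R.h2, R.yh])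
  have e11 := R.lo14 (67 / 1000) (by norm_num)
  have e12 := R.lo13 (880 / 1000) (by norm_num)
  unfold fBoxOT
  linarith only [R.k2, R.h2, R.yh, R.x1, R.n1e, R.o1y, R.n2e, R.o2y, R.n3e, R.o3h, R.n4x, R.o4y, s2, e1, e2, e3, e4, e5, e6, e7, e8, e9, e10, e11, e12]

theorem ot_5 {s y b k M1 M2 M3 M4 G1 G2 G3 G4 : ℝ} (R : RoT s y b k M1 M2 M3 M4 G1 G2 G3 G4)
    (s1 : 57 / 100 ≤ s) (s2 : s ≤ 607 / 1000) (y1 : 108 / 125 ≤ y) (y2 : y ≤ 8661 / 10000)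
    (b1 : 391 / 1000 ≤ b) (b2 : b ≤ 399 / 1000) :
    0 ≤ fBoxOT s y b k M1 M2 M3 M4 G1 G2 G3 G4 := by
  have e1 := up (t1 := (67 / 1000)) (t2 := (68 / 1000)) (x := 1 - h0) (by norm_num)
    (by linarith only [R.h2]) (by linarith only [R.h1])
  have e2 := up (t1 := (577 / 1000)) (t2 := (581 / 1000)) (x := 2 * h0 - y) (by norm_num)
    (by linarith only [R.h1, R.yh]) (by linarith only [R.h2, R.x0])
  have e3 := R.lo3 (688 / 1000) (by norm_num)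
  have e4 := up (t1 := (688 / 1000)) (t2 := (693 / 1000)) (x := 9 / 5 - y) (by norm_num)
    (by linarith only [R.h2, R.yh]) (by linarith only [R.h1, R.x0])
  have e5 := up (t1 := (203 / 1000)) (t2 := (209 / 1000)) (x := b) (by norm_num)
    (by linarith only [b1]) (by linarith only [b2])
  have e6 := up (t1 := (330 / 1000)) (t2 := (340 / 1000)) (x := h0 + s - y) (by norm_num)
    (by linarith only [R.k2, R.h1, R.yh, R.x1, b2, e5]) (by linarith only [R.x0, s2])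
  have e7 := R.lo10 (334 / 1000) (by norm_num)
  have e8 := up (t1 := (574 / 1000)) (t2 := (578 / 1000)) (x := y) (by norm_num)
    (by linarith only [R.h1, R.x0]) (by linarith only [R.h2, R.yh])
  have e9 := R.lo13 (881 / 1000) (by norm_num)
  have e10 := R.lo13 (893 / 1000) (by norm_num)
  have e11 := R.lo14 (67 / 1000) (by norm_num)
  have e12 := R.lo16 (334 / 1000) (by norm_num)
  unfold fBoxOT
  linarith only [R.k2, R.h2, R.h3, R.yh, R.x1, R.n1x, R.o1y, R.n2e, R.o2y, R.n3e, R.o3h, R.n4x, R.o4y, e1, e2, e3, e4, e5, e6, e7, e8, e9, e10, e11, e12]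

theorem ot_6 {s y b k M1 M2 M3 M4 G1 G2 G3 G4 : ℝ} (R : RoT s y b k M1 M2 M3 M4 G1 G2 G3 G4)
    (s1 : 57 / 100 ≤ s) (s2 : s ≤ 607 / 1000) (y1 : 108 / 125 ≤ y) (y2 : y ≤ 8661 / 10000)
    (b1 : 399 / 1000 ≤ b) (b2 : b ≤ 407 / 1000) :
    0 ≤ fBoxOT s y b k M1 M2 M3 M4 G1 G2 G3 G4 := by
  have e1 := up (t1 := (67 / 1000)) (t2 := (68 / 1000)) (x := 1 - h0) (by norm_num)
    (by linarith only [R.h2]) (by linarith only [R.h1])
  have e2 := up (t1 := (577 / 1000)) (t2 := (581 / 1000)) (x := 2 * h0 - y) (by norm_num)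
    (by linarith only [R.h1, R.yh]) (by linarith only [R.h2, R.x0])
  have e3 := R.lo3 (688 / 1000) (by norm_num)
  have e4 := up (t1 := (688 / 1000)) (t2 := (693 / 1000)) (x := 9 / 5 - y) (by norm_num)
    (by linarith only [R.h2, R.yh]) (by linarith only [R.h1, R.x0])
  have e5 := up (t1 := (208 / 1000)) (t2 := (213 / 1000)) (x := b) (by norm_num)
    (by linarith only [b1]) (by linarith only [b2])
  have e6 := up (t1 := (325 / 1000)) (t2 := (340 / 1000)) (x := h0 + s - y) (by norm_num)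
    (by linarith only [R.k2, R.h1, R.yh, R.x1, b2, e5]) (by linarith only [R.x0, s2])
  have e7 := up (t1 := (574 / 1000)) (t2 := (578 / 1000)) (x := y) (by norm_num)
    (by linarith only [R.h1, R.x0]) (by linarith only [R.h2, R.yh])
  have e8 := R.lo14 (67 / 1000) (by norm_num)
  have e9 := R.lo16 (326 / 1000) (by norm_num)
  have e10 := R.lo10 (329 / 1000) (by norm_num)
  have e11 := R.lo13 (895 / 1000) (by norm_num)
  have e12 := R.lo16 (328 / 1000) (by norm_num)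
  unfold fBoxOT
  linarith only [R.k2, R.h2, R.h3, R.yh, R.x1, R.n1x, R.o1y, R.n2e, R.o2y, R.n3e, R.o3h, R.n4x, R.o4y, e1, e2, e3, e4, e5, e6, e7, e8, e9, e10, e11, e12]

theorem ot_10 {s y b k M1 M2 M3 M4 G1 G2 G3 G4 : ℝ} (R : RoT s y b k M1 M2 M3 M4 G1 G2 G3 G4)
    (s1 : 57 / 100 ≤ s) (s2 : s ≤ 589 / 1000) (y1 : 108 / 125 ≤ y) (y2 : y ≤ 8661 / 10000)
    (b1 : 407 / 1000 ≤ b) (b2 : b ≤ 83 / 200) :
    0 ≤ fBoxOT s y b k M1 M2 M3 M4 G1 G2 G3 G4 := by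
  have e1 := up (t1 := (67 / 1000)) (t2 := (68 / 1000)) (x := 1 - h0) (by norm_num)
    (by linarith only [R.h2]) (by linarith only [R.h1])
  have e2 := up (t1 := (577 / 1000)) (t2 := (581 / 1000)) (x := 2 * h0 - y) (by norm_num)
    (by linarith only [R.h1, R.yh]) (by linarith only [R.h2, R.x0])
  have e3 := R.lo3 (688 / 1000) (by norm_num)
  have e4 := up (t1 := (688 / 1000)) (t2 := (693 / 1000)) (x := 9 / 5 - y) (by norm_num)
    (by linarith only [R.h2, R.yh]) (by linarith only [R.h1, R.x0])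
  have e5 := up (t1 := (212 / 1000)) (t2 := (218 / 1000)) (x := b) (by norm_num)
    (by linarith only [b1]) (by linarith only [b2])
  have e6 := up (t1 := (320 / 1000)) (t2 := (328 / 1000)) (x := h0 + s - y) (by norm_num)
    (by linarith only [R.k2, R.h1, R.yh, R.x1, b2, e5]) (by linarith only [R.x0, s2])
  have e7 := R.lo10 (323 / 1000) (by norm_num)
  have e8 := up (t1 := (574 / 1000)) (t2 := (578 / 1000)) (x := y) (by norm_num)
    (by linarith only [R.h1, R.x0]) (by linarith only [R.h2, R.yh])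
  have e9 := R.lo13 (909 / 1000) (by norm_num)
  have e10 := R.lo14 (67 / 1000) (by norm_num)
  have e11 := R.lo16 (322 / 1000) (by norm_num)
  have e12 := R.lo13 (903 / 1000) (by norm_num)
  unfold fBoxOT
  linarith only [R.k2, R.h2, R.h3, R.yh, R.x1, R.n1x, R.o1y, R.n2e, R.o2y, R.n3e, R.o3h, R.n4x, R.o4y, e1, e2, e3, e4, e5, e6, e7, e8, e9, e10, e11, e12]

theorem ot_11 {s y b k M1 M2 M3 M4 G1 G2 G3 G4 : ℝ} (R : RoT s y b k M1 M2 M3 M4 G1 G2 G3 G4)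
    (s1 : 589 / 1000 ≤ s) (s2 : s ≤ 607 / 1000) (y1 : 108 / 125 ≤ y) (y2 : y ≤ 8661 / 10000)
    (b1 : 407 / 1000 ≤ b) (b2 : b ≤ 83 / 200) :
    0 ≤ fBoxOT s y b k M1 M2 M3 M4 G1 G2 G3 G4 := by
  have e1 := up (t1 := (67 / 1000)) (t2 := (68 / 1000)) (x := 1 - h0) (by norm_num)
    (by linarith only [R.h2]) (by linarith only [R.h1])
  have e2 := R.lo3 (688 / 1000) (by norm_num)
  have e3 := up (t1 := (688 / 1000)) (t2 := (693 / 1000)) (x := 9 / 5 - y) (by norm_num)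
    (by linarith only [R.h2, R.yh]) (by linarith only [R.h1, R.x0])
  have e4 := up (t1 := (212 / 1000)) (t2 := (218 / 1000)) (x := b) (by norm_num)
    (by linarith only [b1]) (by linarith only [b2])
  have e5 := up (t1 := (325 / 1000)) (t2 := (340 / 1000)) (x := h0 + s - y) (by norm_num)
    (by linarith only [R.yh, s1]) (by linarith only [R.x0, s2])
  have e6 := R.lo10 (326 / 1000) (by norm_num)
  have e7 := up (t1 := (574 / 1000)) (t2 := (578 / 1000)) (x := y) (by norm_num)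
    (by linarith only [R.h1, R.x0]) (by linarith only [R.h2, R.yh])
  have e8 := R.lo13 (896 / 1000) (by norm_num)
  have e9 := R.lo14 (67 / 1000) (by norm_num)
  have e10 := R.lo16 (325 / 1000) (by norm_num)
  unfold fBoxOT
  linarith only [R.k2, R.h2, R.h3, R.yh, R.n1x, R.o1y, R.n2h, R.o2y, R.n3e, R.o3h, R.n4x, R.o4y, s1, b1, e1, e2, e3, e4, e5, e6, e7, e8, e9, e10]

theorem ot_13 {s y b k M1 M2 M3 M4 G1 G2 G3 G4 : ℝ} (R : RoT s y b k M1 M2 M3 M4 G1 G2 G3 G4)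
    (s1 : 57 / 100 ≤ s) (s2 : s ≤ 589 / 1000) (y1 : 108 / 125 ≤ y) (y2 : y ≤ 8661 / 10000)
    (b1 : 83 / 200 ≤ b) (b2 : b ≤ 423 / 1000) :
    0 ≤ fBoxOT s y b k M1 M2 M3 M4 G1 G2 G3 G4 := by
  have e1 := up (t1 := (67 / 1000)) (t2 := (68 / 1000)) (x := 1 - h0) (by norm_num)
    (by linarith only [R.h2]) (by linarith only [R.h1])
  have e2 := up (t1 := (577 / 1000)) (t2 := (581 / 1000)) (x := 2 * h0 - y) (by norm_num)
    (by linarith only [R.h1, R.yh]) (by linarith only [R.h2, R.x0])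
  have e3 := R.lo3 (688 / 1000) (by norm_num)
  have e4 := up (t1 := (688 / 1000)) (t2 := (693 / 1000)) (x := 9 / 5 - y) (by norm_num)
    (by linarith only [R.h2, R.yh]) (by linarith only [R.h1, R.x0])
  have e5 := up (t1 := (217 / 1000)) (t2 := (222 / 1000)) (x := b) (by norm_num)
    (by linarith only [b1]) (by linarith only [b2])
  have e6 := up (t1 := (315 / 1000)) (t2 := (328 / 1000)) (x := h0 + s - y) (by norm_num)
    (by linarith only [R.k2, R.h1, R.yh, R.x1, b2, e5]) (by linarith only [R.x0, s2])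
  have e7 := R.lo10 (316 / 1000) (by norm_num)
  have e8 := up (t1 := (574 / 1000)) (t2 := (578 / 1000)) (x := y) (by norm_num)
    (by linarith only [R.h1, R.x0]) (by linarith only [R.h2, R.yh])
  have e9 := R.lo14 (67 / 1000) (by norm_num)
  have e10 := R.lo16 (317 / 1000) (by norm_num)
  have e11 := R.lo10 (320 / 1000) (by norm_num)
  have e12 := R.lo13 (910 / 1000) (by norm_num)
  unfold fBoxOT
  linarith only [R.k2, R.h2, R.h3, R.x1, R.n1x, R.o1y, R.n2h, R.n2e, R.o2y, R.n3e, R.o3h, R.n4x, R.o4y, e1, e2, e3, e4, e5, e6, e7, e8, e9, e10, e11, e12]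

theorem ot_14 {s y b k M1 M2 M3 M4 G1 G2 G3 G4 : ℝ} (R : RoT s y b k M1 M2 M3 M4 G1 G2 G3 G4)
    (s1 : 589 / 1000 ≤ s) (s2 : s ≤ 607 / 1000) (y1 : 108 / 125 ≤ y) (y2 : y ≤ 8661 / 10000)
    (b1 : 83 / 200 ≤ b) (b2 : b ≤ 423 / 1000) :
    0 ≤ fBoxOT s y b k M1 M2 M3 M4 G1 G2 G3 G4 := by
  have e1 := up (t1 := (67 / 1000)) (t2 := (68 / 1000)) (x := 1 - h0) (by norm_num)
    (by linarith only [R.h2]) (by linarith only [R.h1])
  have e2 := R.lo3 (688 / 1000) (by norm_num)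
  have e3 := up (t1 := (688 / 1000)) (t2 := (693 / 1000)) (x := 9 / 5 - y) (by norm_num)
    (by linarith only [R.h2, R.yh]) (by linarith only [R.h1, R.x0])
  have e4 := up (t1 := (217 / 1000)) (t2 := (222 / 1000)) (x := b) (by norm_num)
    (by linarith only [b1]) (by linarith only [b2])
  have e5 := up (t1 := (325 / 1000)) (t2 := (340 / 1000)) (x := h0 + s - y) (by norm_num)
    (by linarith only [R.yh, s1]) (by linarith only [R.x0, s2])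
  have e6 := R.lo10 (326 / 1000) (by norm_num)
  have e7 := up (t1 := (574 / 1000)) (t2 := (578 / 1000)) (x := y) (by norm_num)
    (by linarith only [R.h1, R.x0]) (by linarith only [R.h2, R.yh])
  have e8 := R.lo13 (903 / 1000) (by norm_num)
  have e9 := R.lo14 (63 / 1000) (by norm_num)
  have e10 := R.lo16 (320 / 1000) (by norm_num)
  unfold fBoxOT
  linarith only [R.k2, R.h2, R.h3, R.yh, R.n1x, R.o1y, R.n2h, R.o2y, R.n3e, R.o3h, R.n4x, R.o4y, s1, b1, e1, e2, e3, e4, e5, e6, e7, e8, e9, e10]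

theorem ot_17 {s y b k M1 M2 M3 M4 G1 G2 G3 G4 : ℝ} (R : RoT s y b k M1 M2 M3 M4 G1 G2 G3 G4)
    (s1 : 57 / 100 ≤ s) (s2 : s ≤ 589 / 1000) (y1 : 108 / 125 ≤ y) (y2 : y ≤ 8661 / 10000)
    (b1 : 423 / 1000 ≤ b) (b2 : b ≤ 861 / 2000) :
    0 ≤ fBoxOT s y b k M1 M2 M3 M4 G1 G2 G3 G4 := by
  have e1 := up (t1 := (67 / 1000)) (t2 := (68 / 1000)) (x := 1 - h0) (by norm_num)
    (by linarith only [R.h2]) (by linarith only [R.h1])
  have e2 := up (t1 := (577 / 1000)) (t2 := (581 / 1000)) (x := 2 * h0 - y) (by norm_num)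
    (by linarith only [R.h1, R.yh]) (by linarith only [R.h2, R.x0])
  have e3 := R.lo3 (688 / 1000) (by norm_num)
  have e4 := up (t1 := (688 / 1000)) (t2 := (693 / 1000)) (x := 9 / 5 - y) (by norm_num)
    (by linarith only [R.h2, R.yh]) (by linarith only [R.h1, R.x0])
  have e5 := up (t1 := (221 / 1000)) (t2 := (227 / 1000)) (x := b) (by norm_num)
    (by linarith only [b1]) (by linarith only [b2])
  have e6 := up (t1 := (312 / 1000)) (t2 := (328 / 1000)) (x := h0 + s - y) (by norm_num)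
    (by linarith only [R.yh, s1]) (by linarith only [R.x0, s2])
  have e7 := R.lo10 (313 / 1000) (by norm_num)
  have e8 := up (t1 := (574 / 1000)) (t2 := (578 / 1000)) (x := y) (by norm_num)
    (by linarith only [R.h1, R.x0]) (by linarith only [R.h2, R.yh])
  have e9 := R.lo14 (67 / 1000) (by norm_num)
  have e10 := R.lo16 (312 / 1000) (by norm_num)
  have e11 := R.lo10 (315 / 1000) (by norm_num)
  have e12 := R.lo13 (917 / 1000) (by norm_num)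
  unfold fBoxOT
  linarith only [R.k2, R.h2, R.h3, R.x1, R.n1x, R.o1y, R.n2e, R.o2y, R.n3x, R.n3e, R.o3h, R.n4x, R.o4y, e1, e2, e3, e4, e5, e6, e7, e8, e9, e10, e11, e12]

theorem ot_18 {s y b k M1 M2 M3 M4 G1 G2 G3 G4 : ℝ} (R : RoT s y b k M1 M2 M3 M4 G1 G2 G3 G4)
    (s1 : 589 / 1000 ≤ s) (s2 : s ≤ 607 / 1000) (y1 : 108 / 125 ≤ y) (y2 : y ≤ 8661 / 10000)
    (b1 : 423 / 1000 ≤ b) (b2 : b ≤ 861 / 2000) :
    0 ≤ fBoxOT s y b k M1 M2 M3 M4 G1 G2 G3 G4 := by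
  have e1 := up (t1 := (67 / 1000)) (t2 := (68 / 1000)) (x := 1 - h0) (by norm_num)
    (by linarith only [R.h2]) (by linarith only [R.h1])
  have e2 := R.lo3 (688 / 1000) (by norm_num)
  have e3 := up (t1 := (688 / 1000)) (t2 := (693 / 1000)) (x := 9 / 5 - y) (by norm_num)
    (by linarith only [R.h2, R.yh]) (by linarith only [R.h1, R.x0])
  have e4 := up (t1 := (221 / 1000)) (t2 := (227 / 1000)) (x := b) (by norm_num)
    (by linarith only [b1]) (by linarith only [b2])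
  have e5 := up (t1 := (325 / 1000)) (t2 := (340 / 1000)) (x := h0 + s - y) (by norm_num)
    (by linarith only [R.yh, s1]) (by linarith only [R.x0, s2])
  have e6 := R.lo10 (326 / 1000) (by norm_num)
  have e7 := up (t1 := (574 / 1000)) (t2 := (578 / 1000)) (x := y) (by norm_num)
    (by linarith only [R.h1, R.x0]) (by linarith only [R.h2, R.yh])
  have e8 := R.lo13 (910 / 1000) (by norm_num)
  have e9 := R.lo14 (59 / 1000) (by norm_num)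
  have e10 := R.lo16 (315 / 1000) (by norm_num)
  unfold fBoxOT
  linarith only [R.k2, R.h2, R.h3, R.yh, R.n1x, R.o1y, R.n2h, R.o2y, R.n3e, R.o3h, R.n4x, R.o4y, s1, b1, e1, e2, e3, e4, e5, e6, e7, e8, e9, e10]

theorem ot_19 {s y b k M1 M2 M3 M4 G1 G2 G3 G4 : ℝ} (R : RoT s y b k M1 M2 M3 M4 G1 G2 G3 G4)
    (s1 : 57 / 100 ≤ s) (s2 : s ≤ 607 / 1000) (y1 : 108 / 125 ≤ y) (y2 : y ≤ 8661 / 10000)
    (b1 : 861 / 2000 ≤ b) (b2 : b ≤ 219 / 500) :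
    0 ≤ fBoxOT s y b k M1 M2 M3 M4 G1 G2 G3 G4 := by
  have e1 := up (t1 := (67 / 1000)) (t2 := (68 / 1000)) (x := 1 - h0) (by norm_num)
    (by linarith only [R.h2]) (by linarith only [R.h1])
  have e2 := R.lo3 (688 / 1000) (by norm_num)
  have e3 := up (t1 := (688 / 1000)) (t2 := (693 / 1000)) (x := 9 / 5 - y) (by norm_num)
    (by linarith only [R.h2, R.yh]) (by linarith only [R.h1, R.x0])
  have e4 := up (t1 := (226 / 1000)) (t2 := (231 / 1000)) (x := b) (by norm_num)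
    (by linarith only [b1]) (by linarith only [b2])
  have e5 := up (t1 := (312 / 1000)) (t2 := (340 / 1000)) (x := h0 + s - y) (by norm_num)
    (by linarith only [R.yh, s1]) (by linarith only [R.x0, s2])
  have e6 := R.lo10 (313 / 1000) (by norm_num)
  have e7 := up (t1 := (574 / 1000)) (t2 := (578 / 1000)) (x := y) (by norm_num)
    (by linarith only [R.h1, R.x0]) (by linarith only [R.h2, R.yh])
  have e8 := R.lo13 (917 / 1000) (by norm_num)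
  have e9 := R.lo14 (65 / 1000) (by norm_num)
  have e10 := R.lo16 (311 / 1000) (by norm_num)
  unfold fBoxOT
  linarith only [R.k2, R.h2, R.h3, R.yh, R.n1x, R.o1y, R.n2h, R.o2y, R.n3e, R.o3h, R.n4x, R.o4y, s1, b1, e1, e2, e3, e4, e5, e6, e7, e8, e9, e10]

theorem ot_21 {s y b k M1 M2 M3 M4 G1 G2 G3 G4 : ℝ} (R : RoT s y b k M1 M2 M3 M4 G1 G2 G3 G4)
    (s1 : 57 / 100 ≤ s) (s2 : s ≤ 607 / 1000) (y1 : 108 / 125 ≤ y) (y2 : y ≤ 8661 / 10000)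
    (b1 : 219 / 500 ≤ b) (b2 : b ≤ 469 / 1000) :
    0 ≤ fBoxOT s y b k M1 M2 M3 M4 G1 G2 G3 G4 := by
  have e1 := up (t1 := (67 / 1000)) (t2 := (68 / 1000)) (x := 1 - h0) (by norm_num)
    (by linarith only [R.h2]) (by linarith only [R.h1])
  have e2 := up (t1 := (577 / 1000)) (t2 := (581 / 1000)) (x := 2 * h0 - y) (by norm_num)
    (by linarith only [R.h1, R.yh]) (by linarith only [R.h2, R.x0])
  have e3 := up (t1 := (230 / 1000)) (t2 := (250 / 1000)) (x := b) (by norm_num)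
    (by linarith only [b1]) (by linarith only [b2])
  have e4 := up (t1 := (312 / 1000)) (t2 := (340 / 1000)) (x := h0 + s - y) (by norm_num)
    (by linarith only [R.yh, s1]) (by linarith only [R.x0, s2])
  have e5 := R.lo10 (313 / 1000) (by norm_num)
  have e6 := up (t1 := (574 / 1000)) (t2 := (578 / 1000)) (x := y) (by norm_num)
    (by linarith only [R.h1, R.x0]) (by linarith only [R.h2, R.yh])
  have e7 := R.lo13 (928 / 1000) (by norm_num)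
  have e8 := R.lo14 (62 / 1000) (by norm_num)
  have e9 := R.lo16 (306 / 1000) (by norm_num)
  unfold fBoxOT
  linarith only [R.k2, R.h1, R.h3, R.n1x, R.o1y, R.n2h, R.n2e, R.o2y, R.n3x, R.o3h, R.n4x, R.o4y, s1, b1, e1, e2, e3, e4, e5, e6, e7, e8, e9]

theorem ot_22 {s y b k M1 M2 M3 M4 G1 G2 G3 G4 : ℝ} (R : RoT s y b k M1 M2 M3 M4 G1 G2 G3 G4)
    (s1 : 57 / 100 ≤ s) (s2 : s ≤ 607 / 1000) (y1 : 108 / 125 ≤ y) (y2 : y ≤ 8661 / 10000)
    (b1 : 469 / 1000 ≤ b) (b2 : b ≤ 1 / 2) :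
    0 ≤ fBoxOT s y b k M1 M2 M3 M4 G1 G2 G3 G4 := by
  have e1 := up (t1 := (67 / 1000)) (t2 := (68 / 1000)) (x := 1 - h0) (by norm_num)
    (by linarith only [R.h2]) (by linarith only [R.h1])
  have e2 := up (t1 := (249 / 1000)) (t2 := (268 / 1000)) (x := b) (by norm_num)
    (by linarith only [b1]) (by linarith only [b2])
  have e3 := up (t1 := (312 / 1000)) (t2 := (340 / 1000)) (x := h0 + s - y) (by norm_num)
    (by linarith only [R.yh, s1]) (by linarith only [R.x0, s2])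
  have e4 := R.lo10 (313 / 1000) (by norm_num)
  have e5 := up (t1 := (574 / 1000)) (t2 := (578 / 1000)) (x := y) (by norm_num)
    (by linarith only [R.h1, R.x0]) (by linarith only [R.h2, R.yh])
  have e6 := R.lo13 (941 / 1000) (by norm_num)
  have e7 := R.lo14 (30 / 1000) (by norm_num)
  have e8 := R.lo16 (267 / 1000) (by norm_num)
  unfold fBoxOT
  linarith only [R.k2, R.h1, R.h3, R.x0, R.n1x, R.o1y, R.n2h, R.o2y, R.n3x, R.o3h, R.n4x, R.o4y, s1, b2, e1, e2, e3, e4, e5, e6, e7, e8]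

theorem ot_20 {s y b k M1 M2 M3 M4 G1 G2 G3 G4 : ℝ} (R : RoT s y b k M1 M2 M3 M4 G1 G2 G3 G4)
    (s1 : 57 / 100 ≤ s) (s2 : s ≤ 607 / 1000) (y1 : 108 / 125 ≤ y) (y2 : y ≤ 8661 / 10000)
    (b1 : 219 / 500 ≤ b) (b2 : b ≤ 1 / 2) :
    0 ≤ fBoxOT s y b k M1 M2 M3 M4 G1 G2 G3 G4 := by
  rcases le_total b (469 / 1000) with h | h
  · exact ot_21 R s1 s2 y1 y2 b1 h
  · exact ot_22 R s1 s2 y1 y2 h b2

theorem ot_16 {s y b k M1 M2 M3 M4 G1 G2 G3 G4 : ℝ} (R : RoT s y b k M1 M2 M3 M4 G1 G2 G3 G4)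
    (s1 : 57 / 100 ≤ s) (s2 : s ≤ 607 / 1000) (y1 : 108 / 125 ≤ y) (y2 : y ≤ 8661 / 10000)
    (b1 : 423 / 1000 ≤ b) (b2 : b ≤ 861 / 2000) :
    0 ≤ fBoxOT s y b k M1 M2 M3 M4 G1 G2 G3 G4 := by
  rcases le_total s (589 / 1000) with h | h
  · exact ot_17 R s1 h y1 y2 b1 b2
  · exact ot_18 R h s2 y1 y2 b1 b2

theorem ot_15 {s y b k M1 M2 M3 M4 G1 G2 G3 G4 : ℝ} (R : RoT s y b k M1 M2 M3 M4 G1 G2 G3 G4)
    (s1 : 57 / 100 ≤ s) (s2 : s ≤ 607 / 1000) (y1 : 108 / 125 ≤ y) (y2 : y ≤ 8661 / 10000)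
    (b1 : 423 / 1000 ≤ b) (b2 : b ≤ 219 / 500) :
    0 ≤ fBoxOT s y b k M1 M2 M3 M4 G1 G2 G3 G4 := by
  rcases le_total b (861 / 2000) with h | h
  · exact ot_16 R s1 s2 y1 y2 b1 h
  · exact ot_19 R s1 s2 y1 y2 h b2

theorem ot_12 {s y b k M1 M2 M3 M4 G1 G2 G3 G4 : ℝ} (R : RoT s y b k M1 M2 M3 M4 G1 G2 G3 G4)
    (s1 : 57 / 100 ≤ s) (s2 : s ≤ 607 / 1000) (y1 : 108 / 125 ≤ y) (y2 : y ≤ 8661 / 10000)
    (b1 : 83 / 200 ≤ b) (b2 : b ≤ 423 / 1000) :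
    0 ≤ fBoxOT s y b k M1 M2 M3 M4 G1 G2 G3 G4 := by
  rcases le_total s (589 / 1000) with h | h
  · exact ot_13 R s1 h y1 y2 b1 b2
  · exact ot_14 R h s2 y1 y2 b1 b2

theorem ot_9 {s y b k M1 M2 M3 M4 G1 G2 G3 G4 : ℝ} (R : RoT s y b k M1 M2 M3 M4 G1 G2 G3 G4)
    (s1 : 57 / 100 ≤ s) (s2 : s ≤ 607 / 1000) (y1 : 108 / 125 ≤ y) (y2 : y ≤ 8661 / 10000)
    (b1 : 407 / 1000 ≤ b) (b2 : b ≤ 83 / 200) :
    0 ≤ fBoxOT s y b k M1 M2 M3 M4 G1 G2 G3 G4 := by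
  rcases le_total s (589 / 1000) with h | h
  · exact ot_10 R s1 h y1 y2 b1 b2
  · exact ot_11 R h s2 y1 y2 b1 b2

theorem ot_8 {s y b k M1 M2 M3 M4 G1 G2 G3 G4 : ℝ} (R : RoT s y b k M1 M2 M3 M4 G1 G2 G3 G4)
    (s1 : 57 / 100 ≤ s) (s2 : s ≤ 607 / 1000) (y1 : 108 / 125 ≤ y) (y2 : y ≤ 8661 / 10000)
    (b1 : 407 / 1000 ≤ b) (b2 : b ≤ 423 / 1000) :
    0 ≤ fBoxOT s y b k M1 M2 M3 M4 G1 G2 G3 G4 := by
  rcases le_total b (83 / 200) with h | h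
  · exact ot_9 R s1 s2 y1 y2 b1 h
  · exact ot_12 R s1 s2 y1 y2 h b2

theorem ot_7 {s y b k M1 M2 M3 M4 G1 G2 G3 G4 : ℝ} (R : RoT s y b k M1 M2 M3 M4 G1 G2 G3 G4)
    (s1 : 57 / 100 ≤ s) (s2 : s ≤ 607 / 1000) (y1 : 108 / 125 ≤ y) (y2 : y ≤ 8661 / 10000)
    (b1 : 407 / 1000 ≤ b) (b2 : b ≤ 219 / 500) :
    0 ≤ fBoxOT s y b k M1 M2 M3 M4 G1 G2 G3 G4 := by
  rcases le_total b (423 / 1000) with h | h
  · exact ot_8 R s1 s2 y1 y2 b1 h
  · exact ot_15 R s1 s2 y1 y2 h b2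

theorem ot_4 {s y b k M1 M2 M3 M4 G1 G2 G3 G4 : ℝ} (R : RoT s y b k M1 M2 M3 M4 G1 G2 G3 G4)
    (s1 : 57 / 100 ≤ s) (s2 : s ≤ 607 / 1000) (y1 : 108 / 125 ≤ y) (y2 : y ≤ 8661 / 10000)
    (b1 : 391 / 1000 ≤ b) (b2 : b ≤ 407 / 1000) :
    0 ≤ fBoxOT s y b k M1 M2 M3 M4 G1 G2 G3 G4 := by
  rcases le_total b (399 / 1000) with h | h
  · exact ot_5 R s1 s2 y1 y2 b1 h
  · exact ot_6 R s1 s2 y1 y2 h b2

theorem ot_2 {s y b k M1 M2 M3 M4 G1 G2 G3 G4 : ℝ} (R : RoT s y b k M1 M2 M3 M4 G1 G2 G3 G4)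
    (s1 : 57 / 100 ≤ s) (s2 : s ≤ 607 / 1000) (y1 : 108 / 125 ≤ y) (y2 : y ≤ 8661 / 10000)
    (b1 : 3 / 8 ≤ b) (b2 : b ≤ 407 / 1000) :
    0 ≤ fBoxOT s y b k M1 M2 M3 M4 G1 G2 G3 G4 := by
  rcases le_total b (391 / 1000) with h | h
  · exact ot_3 R s1 s2 y1 y2 b1 h
  · exact ot_4 R s1 s2 y1 y2 h b2

theorem ot_1 {s y b k M1 M2 M3 M4 G1 G2 G3 G4 : ℝ} (R : RoT s y b k M1 M2 M3 M4 G1 G2 G3 G4)
    (s1 : 57 / 100 ≤ s) (s2 : s ≤ 607 / 1000) (y1 : 108 / 125 ≤ y) (y2 : y ≤ 8661 / 10000)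
    (b1 : 3 / 8 ≤ b) (b2 : b ≤ 219 / 500) :
    0 ≤ fBoxOT s y b k M1 M2 M3 M4 G1 G2 G3 G4 := by
  rcases le_total b (407 / 1000) with h | h
  · exact ot_2 R s1 s2 y1 y2 b1 h
  · exact ot_7 R s1 s2 y1 y2 h b2

theorem ot_0 {s y b k M1 M2 M3 M4 G1 G2 G3 G4 : ℝ} (R : RoT s y b k M1 M2 M3 M4 G1 G2 G3 G4)
    (s1 : 57 / 100 ≤ s) (s2 : s ≤ 607 / 1000) (y1 : 108 / 125 ≤ y) (y2 : y ≤ 8661 / 10000)
    (b1 : 3 / 8 ≤ b) (b2 : b ≤ 1 / 2) :
    0 ≤ fBoxOT s y b k M1 M2 M3 M4 G1 G2 G3 G4 := by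
  rcases le_total b (219 / 500) with h | h
  · exact ot_1 R s1 s2 y1 y2 b1 h
  · exact ot_20 R s1 s2 y1 y2 h b2

end Pool.Agent.Strip051.FourG
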