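import Pool.Agent.Strip051.FourF.MidFacts
import Pool.Agent.Strip051.FourG.Props
import Pool.Agent.Strip051.FourG.BoxOA
import Pool.Agent.Strip051.FourG.BoxOB
import Pool.Agent.Strip051.FourG.BoxOC
import Pool.Agent.Strip051.FourG.BoxOD
import Pool.Agent.Strip051.FourG.BoxOE
import Pool.Agent.Strip051.FourG.BoxOF
import Pool.Agent.Strip051.FourG.BoxOT

/-! # The new point is close to `h0`, the virtual discs are far apart -/

namespace Pool.Agent.Strip051.FourG

open Pool.Agent.StripNear Pool.Agent.StripSquare Pool.Agent.Strip051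
open Pool.Agent.Strip051.Four (gn)
open Pool.Agent.Strip051.Four.Low (ph ph_nonneg)
open Pool.Agent.Strip051.FourF (p2 p3 q2 q3)
open Pool.Agent.Strip051.FourF.MB (Ak ak_exists F1 F2 facts_1 facts_2 mt1_gen ph_step g_top')

section

variable {s e w y r p q b k u M1 M2 M3 M4 G1 G2 G3 G4 : ℝ}

/-- The corner at `h0`, the exit is the lower virtual side. -/
theorem mo_top (A : Ak r p q b k) (hs1 : 57 / 100 ≤ s) (hs2 : s ≤ 607 / 1000) (u0 : 0 ≤ u)
    (u1 : u ≤ 1 / 500) (hp : s - 1 / 1000 ≤ h0 - b / 2 - k) :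
    0 ≤ 8 * (1 / 2 - ph (h0 - u)) - 3 * (ph p - ph (p - u)) - (ph q - ph (q - u)) -
      4 * (ph (s + u) - ph s) + 408 / 100 * u := by
  have hh : h0 ≤ 86603 / 100000 := Four.Low.h0_hi
  have b0 := A.h.b0
  have b1 := A.h.b1
  have k1 := A.k1
  rcases le_total b (2 / 5) with h | h
  · exact mt1_gen (β := 2 / 5) (B := 112 / 10) (S := 609 / 1000) (κ := 77 / 100)
      (G := 793 / 1000) A hs1 u0 u1 h (by norm_num) (by norm_num) (by norm_num)
      (by linear_combination hs2) (by norm_num) (by norm_num) (by norm_num) (by norm_num) (by norm_num)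
  · have t1 := FourB.lo (t := 2087 / 10000) (x := b) (by norm_num) (by linear_combination b0) (by linear_combination b1)
    have t2 := FourB.lo (t := 2251 / 10000) (x := b) (by norm_num) (by linear_combination b0) (by linear_combination b1)
    have hb : b ≤ 4286 / 10000 := by
      by_contra hcon
      push Not at hcon
      exact absurd hh (not_le.mpr (by linear_combination hs1 + hp + k1 + (86602000 / 95644431) * t1 + (839698903 / 956444310) * hcon))
    exact mt1_gen (β := 4286 / 10000) (B := 145 / 10) (S := 597 / 1000) (κ := 745 / 1000)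
      (G := 802 / 1000) A hs1 u0 u1 hb (by norm_num) (by norm_num) (by norm_num)
      (by linear_combination hp + hh + k1 + (839698903 / 956444310) * h + (86602000 / 95644431) * t1) (by norm_num) (by norm_num) (by norm_num) (by norm_num) (by norm_num)

/-- The corner at `h0`, the exit is the upper virtual side. -/
theorem mi_top (hs1 : 57 / 100 ≤ s) (hs2 : s ≤ 607 / 1000) (u0 : 0 ≤ u) (u1 : u ≤ 1 / 500)
    (p0 : 1 / 2 ≤ p) (p1 : p ≤ 616 / 1000) :
    0 ≤ 8 * (1 / 2 - ph (h0 - u)) + (1 / 2 - ph (h0 + u)) - (ph (s + 1 - h0 + u) -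
      ph (s + 1 - h0)) - (ph (9 / 5 - h0 + u) - ph (9 / 5 - h0)) - 4 * (ph (s + u) - ph s) -
      (ph p - ph (p - u)) - 42 / 10 * u := by
  have hh : h0 ≤ 86603 / 100000 := Four.Low.h0_hi
  have hl : 86602 / 100000 ≤ h0 := Four.Low.h0_lo
  have e1 := g_top' u0 u1
  have e1' : ph (h0 - u) = 1 - g (h0 - u) := rfl
  have e2 := ph_step (x := h0) (u := u) (X := 86804 / 100000) (G := 4964 / 10000)
    (B := 17493 / 10000) (by linear_combination hl) u0 (by linear_combination u1 + hh) (by norm_num) (by norm_num) (by norm_num)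
    (by norm_num)
  have e2' : ph h0 = 1 / 2 := by
    unfold Four.Low.ph
    rw [g_h0]
    norm_num
  have e3 := ph_step (x := s + 1 - h0) (u := u) (X := 743 / 1000) (G := 669 / 1000)
    (B := 1111 / 1000) (by linear_combination hs1 + hh) u0 (by linear_combination hs2 + u1 + hl) (by norm_num) (by norm_num) (by norm_num)
    (by norm_num)
  have e4 := ph_step (x := 9 / 5 - h0) (u := u) (X := 936 / 1000) (G := 3519 / 10000)
    (B := 266 / 100) (by linear_combination hh) u0 (by linear_combination u1 + hl) (by norm_num) (by norm_num) (by norm_num)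
    (by norm_num)
  have e5 := ph_step (x := s) (u := u) (X := 609 / 1000) (G := 793 / 1000)
    (B := 769 / 1000) (by linear_combination hs1) u0 (by linear_combination hs2 + u1) (by norm_num) (by norm_num) (by norm_num)
    (by norm_num)
  have e6 := ph_step (x := p - u) (u := u) (X := 616 / 1000) (G := 787 / 1000)
    (B := 783 / 1000) (by linear_combination u1 + p0) u0 (by linear_combination p1) (by norm_num) (by norm_num) (by norm_num)
    (by norm_num)
  rw [sub_add_cancel] at e6
  rw [e1']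
  rw [e2'] at e2
  linear_combination (2087 / 10000) * u0 + 8 * e1 + e2 + e3 + e4 + 4 * e5 + e6

theorem mo_1 (hs1 : 57 / 100 ≤ s) (hs2 : s ≤ 607 / 1000) (A : Ak r p q b k)
    (h1 : s ≤ y) (h2 : y ≤ h0) (h3 : 17 / 20 ≤ y) (hb : 3 / 8 ≤ b)
    (F : F1 s y b k M1 M2 M3 M4 G1 G2 G3 G4) :
    8 * ph y - 4 * ph s - 2 * del y ≤ G1 + G2 + G3 + G4 := by
  have hh : h0 ≤ 86603 / 100000 := Four.Low.h0_hi
  have hl : 86602 / 100000 ≤ h0 := Four.Low.h0_lo
  have b0 := A.h.b0
  have b1 := A.h.b1
  have k0 := A.k3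
  have k4 := A.k4
  have hy : 2 * h0 - 1 ≤ y := by linear_combination h3 + 2 * hh
  have hy3 : 4 / 5 ≤ y := by linear_combination h3
  obtain ⟨u, hu⟩ : ∃ u, u = h0 - y := ⟨_, rfl⟩
  have hd : 2 * del y = 42 / 10 * u - 60 * u ^ 2 := by
    unfold del
    rw [← hu]
    ring
  have u0 : 0 ≤ u := by linear_combination h2 - hu
  have u2 : 0 ≤ (17 / 1000 - u) * u := mul_nonneg (by linear_combination h3 + hh + hu) u0
  rcases F.n4 with ⟨m1, m2, m3⟩ | ⟨m1, m2⟩
  · rcases le_total y (h0 - 1 / 200) with ht | ht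
    · have R : RoA s y b k M1 M2 M3 M4 G1 G2 G3 G4 := {
        k1 := A.k1, k2 := A.k2, h1 := hl, h2 := hh, h3 := A.h3, k3 := k0, k4 := k4, hq := A.hq,
        ys := h1, yh := h2, x0 := h3, x1 := ht, n1x := F.n1x, n1e := F.n1e, o11 := F.o11,
        o1y := F.o1y, n2h := F.n2h, n2v := F.n2v, n2e := F.n2e hy, o2m := F.o2m,
        o2y := F.o2y hy, n3x := F.n3x, n3e := F.n3e hy3, o3h := F.o3h,
        n4x := m1, n4v := m2, n4e := m3, o4y := F.o4y, o4m := F.o4m,
        s1 := hs1, s2 := hs2, y1 := by linear_combination h3, y2 := by linear_combination ht + hh,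
        b1 := hb, b2 := b1 }
      have := oa_0 R hs1 hs2 R.y1 R.y2 hb b1
      unfold fBoxOA at this
      rw [← hu] at this
      linear_combination this - hd + 60 * u2
    have u3 : 0 ≤ (1 / 200 - u) * u := mul_nonneg (by linear_combination hu + ht) u0
    rcases le_total y (h0 - 1 / 500) with ht2 | ht2
    · have R : RoE s y b k M1 M2 M3 M4 G1 G2 G3 G4 := {
        k1 := A.k1, k2 := A.k2, h1 := hl, h2 := hh, h3 := A.h3, k3 := k0, k4 := k4, hq := A.hq,
        ys := h1, yh := h2, x0 := ht, x1 := ht2, n1x := F.n1x, n1e := F.n1e, o11 := F.o11,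
        o1y := F.o1y, n2h := F.n2h, n2v := F.n2v, n2e := F.n2e hy, o2m := F.o2m,
        o2y := F.o2y hy, n3x := F.n3x, n3e := F.n3e hy3, o3h := F.o3h,
        n4x := m1, n4v := m2, n4e := m3, o4y := F.o4y, o4m := F.o4m,
        s1 := hs1, s2 := hs2, y1 := by linear_combination ht + hl, y2 := by linear_combination ht2 + hh,
        b1 := hb, b2 := b1 }
      have := oe_0 R hs1 hs2 R.y1 R.y2 hb b1
      unfold fBoxOE at this
      rw [← hu] at this
      linear_combination this - hd + 60 * u3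
    have u4 : 0 ≤ (1 / 500 - u) * u := mul_nonneg (by linear_combination hu + ht2) u0
    rcases le_total (h0 - b / 2 - k) (s - 1 / 1000) with hc | hc
    · have R : RoT s y b k M1 M2 M3 M4 G1 G2 G3 G4 := {
        k1 := A.k1, k2 := A.k2, h1 := hl, h2 := hh, h3 := A.h3, k3 := k0, k4 := k4, hq := A.hq,
        ys := h1, yh := h2, x0 := ht2, x1 := hc, n1x := F.n1x, n1e := F.n1e, o11 := F.o11,
        o1y := F.o1y, n2h := F.n2h, n2v := F.n2v, n2e := F.n2e hy, o2m := F.o2m,
        o2y := F.o2y hy, n3x := F.n3x, n3e := F.n3e hy3, o3h := F.o3h,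
        n4x := m1, n4v := m2, n4e := m3, o4y := F.o4y, o4m := F.o4m,
        s1 := hs1, s2 := hs2, y1 := by linear_combination ht2 + hl, y2 := by linear_combination h2 + hh,
        b1 := hb, b2 := b1 }
      have := ot_0 R hs1 hs2 R.y1 R.y2 hb b1
      unfold fBoxOT at this
      rw [← hu] at this
      linear_combination this - hd + 60 * u4
    · have m := mo_top (u := u) A hs1 hs2 u0 (by linear_combination hu + ht2) hc
      have hp := A.p_eq
      have hq := A.q_eq
      have e1 : ph p = 1 / 2 + 1 / 2 * ph b - h0 * b := by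
        have := A.gp
        unfold Four.Low.ph
        linear_combination -this
      have e2 : ph q = 1 / 2 + 1 / 2 * ph b + h0 * b := by
        have := A.gq
        unfold Four.Low.ph
        linear_combination -this
      rw [e1, e2, show h0 - u = y by linear_combination -hu, show s + u = h0 + s - y by linear_combination hu,
        show p - u = y - b / 2 - k by linear_combination -hu + hp, show q - u = y + b / 2 - k by linear_combination -hu + hq] at m
      have := F.n1x
      have := F.n2h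
      have := F.n3x
      have := F.o1y
      have := F.o2y hy
      have := F.o3h
      have := F.o4y
      linear_combination -hd + m3 + 60 * u4 + m + this + (‹1 - 1 / 2 - 1 / 2 * ph b + h0 * b + ph (y - b / 2 - k) - ph (1 - h0) ≤ M1›) +
        (‹1 - 1 / 2 - 1 / 2 * ph b + h0 * b + ph (y - b / 2 - k) - ph (h0 + s - 1) ≤ M2›) +
        (‹1 - 1 / 2 - 1 / 2 * ph b + h0 * b + ph (y - b / 2 - k) - ph (1 - h0) ≤ M3›) + (‹M1 - ph (h0 + s - y) + ph (h0 + s - 1) ≤ G1›) +
        (‹M2 - ph (h0 + s - y) + ph (1 - h0) ≤ G2›) + (‹M3 - 1 / 2 - 1 / 2 * ph b - h0 * b + ph (y + b / 2 - k) - ph (1 - h0) ≤ G3›)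
  · have R : RoB s y b k M1 M2 M3 M4 G1 G2 G3 G4 := {
      k1 := A.k1, k2 := A.k2, h1 := hl, h2 := hh, h3 := A.h3, k3 := k0, k4 := k4, hq := A.hq,
      ys := h1, yh := h2, x0 := h3, n1x := F.n1x, n1e := F.n1e, o11 := F.o11,
      o1y := F.o1y, n2h := F.n2h, n2v := F.n2v, n2e := F.n2e hy, o2m := F.o2m,
      o2y := F.o2y hy, n3x := F.n3x, n3e := F.n3e hy3, o3h := F.o3h,
      n4a := m1, n4b := m2, o4y := F.o4y, o4m := F.o4m,
      s1 := hs1, s2 := hs2, y1 := by linear_combination h3, y2 := by linear_combination h2 + hh,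
      b1 := hb, b2 := b1 }
    have := ob_0 R hs1 hs2 R.y1 R.y2 hb b1
    unfold fBoxOB at this
    rw [← hu] at this
    linear_combination this - hd + 60 * u2

theorem mi_1 (hs1 : 57 / 100 ≤ s) (hs2 : s ≤ 607 / 1000) (A : Ak r p q b k)
    (h1 : s ≤ y) (h2 : y ≤ h0) (h3 : 17 / 20 ≤ y) (hb : 3 / 8 ≤ b)
    (F : F2 s y b k M1 M2 M3 M4 G1 G2 G3 G4) :
    8 * ph y - 4 * ph s + 2 * del y ≤ G1 + G2 + G3 + G4 := by
  have hh : h0 ≤ 86603 / 100000 := Four.Low.h0_hi
  have hl : 86602 / 100000 ≤ h0 := Four.Low.h0_lo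
  have b0 := A.h.b0
  have b1 := A.h.b1
  have k0 := A.k3
  have k4 := A.k4
  have hy : 2 * h0 - 1 ≤ y := by linear_combination h3 + 2 * hh
  have hy3 : 4 / 5 ≤ y := by linear_combination h3
  obtain ⟨u, hu⟩ : ∃ u, u = h0 - y := ⟨_, rfl⟩
  have hd : 2 * del y = 42 / 10 * u - 60 * u ^ 2 := by
    unfold del
    rw [← hu]
    ring
  have u0 : 0 ≤ u := by linear_combination h2 - hu
  have u2 : 0 ≤ (17 / 1000 - u) * u := mul_nonneg (by linear_combination h3 + hh + hu) u0
  rcases F.n4 with m3 | ⟨m1, m2⟩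
  · rcases le_total y (h0 - 1 / 200) with ht | ht
    · have R : RoC s y b k M1 M2 M3 M4 G1 G2 G3 G4 := {
        k1 := A.k1, k2 := A.k2, h1 := hl, h2 := hh, h3 := A.h3, k3 := k0, k4 := k4, hq := A.hq,
        ys := h1, yh := h2, x0 := h3, x1 := ht, n1x := F.n1x, n1e := F.n1e, o11 := F.o11,
        o1y := F.o1y, n2h := F.n2h, n2e := F.n2e hy, o2m := F.o2m,
        o2y := F.o2y hy, n3x := F.n3x, n3e := F.n3e hy3, o3h := F.o3h,
        n4e := m3, o4y := F.o4y, o4m := F.o4m, o4v := F.o4v,
        s1 := hs1, s2 := hs2, y1 := by linear_combination h3, y2 := by linear_combination ht + hh,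
        b1 := hb, b2 := b1 }
      have := oc_0 R hs1 hs2 R.y1 R.y2 hb b1
      unfold fBoxOC at this
      rw [← hu] at this
      linear_combination this + hd + 60 * (sq_nonneg (u - 1 / 100))
    rcases le_total y (h0 - 1 / 500) with ht2 | ht2
    · have R : RoF s y b k M1 M2 M3 M4 G1 G2 G3 G4 := {
        k1 := A.k1, k2 := A.k2, h1 := hl, h2 := hh, h3 := A.h3, k3 := k0, k4 := k4, hq := A.hq,
        ys := h1, yh := h2, x0 := ht, x1 := ht2, n1x := F.n1x, n1e := F.n1e, o11 := F.o11,
        o1y := F.o1y, n2h := F.n2h, n2e := F.n2e hy, o2m := F.o2m,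
        o2y := F.o2y hy, n3x := F.n3x, n3e := F.n3e hy3, o3h := F.o3h,
        n4e := m3, o4y := F.o4y, o4m := F.o4m, o4v := F.o4v,
        s1 := hs1, s2 := hs2, y1 := by linear_combination ht + hl, y2 := by linear_combination ht2 + hh,
        b1 := hb, b2 := b1 }
      have := of_0 R hs1 hs2 R.y1 R.y2 hb b1
      unfold fBoxOF at this
      rw [← hu] at this
      linear_combination this + hd + 60 * (sq_nonneg (u - 1 / 250))
    · have hp := A.p_eq
      have k1 := A.k1
      have t1 := FourB.lo (t := 1946 / 10000) (x := b) (by norm_num) (by linear_combination hb) (by linear_combination b1)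
      have m := mi_top hs1 hs2 (u := u) (p := p) u0 (by linear_combination hu + ht2) A.h.p1 (by linear_combination (204530101 / 240532710) * hb + hh + hp + k1 + (21650500 / 24053271) * t1)
      have e1 : ph p = 1 / 2 + 1 / 2 * ph b - h0 * b := by
        have := A.gp
        unfold Four.Low.ph
        linear_combination -this
      rw [e1, show h0 - u = y by linear_combination -hu, show h0 + u = 2 * h0 - y by linear_combination hu,
        show s + 1 - h0 + u = s + 1 - y by linear_combination hu,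
        show 9 / 5 - h0 + u = 9 / 5 - y by linear_combination hu, show s + u = h0 + s - y by linear_combination hu,
        show p - u = y - b / 2 - k by linear_combination -hu + hp] at m
      have := F.n1e
      have := F.n2e hy
      have := F.n3e hy3
      have := F.o1y
      have := F.o2y hy
      have := F.o3h
      have := F.o4y
      have := sq_nonneg u
      linear_combination hd + m3 + m + 60 * this + (‹1 - ph (s + 1 - y) + ph (s + 1 - h0) - ph (1 - h0) ≤ M1›) +
        (‹3 / 2 - ph (2 * h0 - y) - ph (h0 + s - 1) ≤ M2›) + (‹1 - ph (9 / 5 - y) + ph (9 / 5 - h0) - ph (1 - h0) ≤ M3›) +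
        (‹M1 - ph (h0 + s - y) + ph (h0 + s - 1) ≤ G1›) + (‹M2 - ph (h0 + s - y) + ph (1 - h0) ≤ G2›) +
        (‹M3 - 1 / 2 - 1 / 2 * ph b + h0 * b + ph (y - b / 2 - k) - ph (1 - h0) ≤ G3›) + (‹M4 - ph (h0 + s - y) + ph (1 - h0) ≤ G4›)
  · have R : RoD s y b k M1 M2 M3 M4 G1 G2 G3 G4 := {
      k1 := A.k1, k2 := A.k2, h1 := hl, h2 := hh, h3 := A.h3, k3 := k0, k4 := k4, hq := A.hq,
      ys := h1, yh := h2, x0 := h3, n1x := F.n1x, n1e := F.n1e, o11 := F.o11,
      o1y := F.o1y, n2h := F.n2h, n2e := F.n2e hy, o2m := F.o2m,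
      o2y := F.o2y hy, n3x := F.n3x, n3e := F.n3e hy3, o3h := F.o3h,
      n4a := m1, n4b := m2, o4y := F.o4y, o4m := F.o4m, o4v := F.o4v,
      s1 := hs1, s2 := hs2, y1 := by linear_combination h3, y2 := by linear_combination h2 + hh,
      b1 := hb, b2 := b1 }
    have := od_0 R hs1 hs2 R.y1 R.y2 hb b1
    unfold fBoxOD at this
    rw [← hu] at this
    linear_combination this + hd + 60 * (sq_nonneg u)

/-- Large virtual discs. -/
theorem midO (P : FourF.Par s e w) (hs : s ≤ 607 / 1000) : MidO s e := by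
  intro y r h3 h2 r2 hd
  have s0 := P.s0
  have g0 : 0 ≤ h0 * g r := mul_nonneg h0_pos.le (g_nonneg r)
  have r1 : 1 / 2 ≤ r := by
    unfold ext at hd
    linear_combination 2 * hd + 2 * g0
  obtain ⟨p, q, b, k, A⟩ := ak_exists r1 r2
  have hp := A.p_eq
  have hq := A.q_eq
  have b0 := A.h.b0
  have hrhs : 4 * (1 + g s - 2 * g y) = 8 * ph y - 4 * ph s := by
    unfold Four.Low.ph
    ring
  rw [hrhs]
  unfold FourF.mid
  rcases A.h.two with ⟨e1, e2⟩ | ⟨e1, e2⟩
  · have h1 : s ≤ y := by linear_combination hs + h3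
    obtain ⟨M1, M2, M3, M4, F⟩ := facts_1 P A e1 e2 h1 h2
    exact mo_1 s0 hs A h1 h2 h3 (by linear_combination hd - hp + hq + e1 - e2) F
  · exact absurd b0 (not_le.mpr (by linear_combination hd + hp - hq + e1 - e2))

/-- Small virtual discs. -/
theorem midI (P : FourF.Par s e w) (hs : s ≤ 607 / 1000) : MidI s e := by
  intro y r h3 h2 r1 hd
  have s0 := P.s0
  have r2 : r ≤ 1 := by
    have g1 := g_le_one r
    have hh := h0_lt
    have hp := h0_pos
    unfold ext at hd
    linear_combination 2 * hd + (17 / 10) * g1 + 2 * hh + 2 * (mul_nonneg (sub_nonneg.mpr h3) (sub_nonneg.mpr g1)) +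
      2 * (mul_nonneg (sub_nonneg.mpr h2) (sub_nonneg.mpr g1))
  obtain ⟨p, q, b, k, A⟩ := ak_exists r1 r2
  have hp := A.p_eq
  have hq := A.q_eq
  have b0 := A.h.b0
  have hrhs : 4 * (1 + g s - 2 * g y) = 8 * ph y - 4 * ph s := by
    unfold Four.Low.ph
    ring
  rw [hrhs]
  unfold FourF.mid
  rcases A.h.two with ⟨e1, e2⟩ | ⟨e1, e2⟩
  · exact absurd b0 (not_le.mpr (by linear_combination hd + hp - hq - e1 + e2))
  · have h1 : s ≤ y := by linear_combination hs + h3
    obtain ⟨M1, M2, M3, M4, F⟩ := facts_2 P A e1 e2 h1 h2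
    exact mi_1 s0 hs A h1 h2 h3 (by linear_combination hd - hp + hq - e1 + e2) F

theorem midO_par {t : ℝ} (P : Par s t) : MidO s (h0 + s - 1) := by
  obtain ⟨e, w, Q⟩ := FourF.par_exists P.s0 (by linear_combination P.s1)
  have := midO Q P.s1
  rwa [Q.he] at this

theorem midI_par {t : ℝ} (P : Par s t) : MidI s (h0 + s - 1) := by
  obtain ⟨e, w, Q⟩ := FourF.par_exists P.s0 (by linear_combination P.s1)
  have := midI Q P.s1
  rwa [Q.he] at this

end

end Pool.Agent.Strip051.FourG
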