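import Pool.Agent.Strip051.FourB.Box

/-! # The new point between s and h0, A12 -/

namespace Pool.Agent.Strip051.FourG

set_option linter.unusedVariables false

open Pool.Agent.StripNear Pool.Agent.StripSquare Pool.Agent.Strip051
open Pool.Agent.Strip051.Four.Low (ph)
open Pool.Agent.Strip051.FourB (lo up)

/-- The function of the boxes `wa12_`. -/
noncomputable def fBoxWA12 (s y b k M1 M2 M3 M4 G1 G2 G3 G4 : ℝ) : ℝ :=
  G1 + G2 + G3 + G4 - 8 * ph y + 4 * ph s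

/-- The region of the boxes `wa12_`. -/
structure RwA12 (s y b k M1 M2 M3 M4 G1 G2 G3 G4 : ℝ) : Prop where
  k1 : 86602 / 100000 * ph b ≤ k
  k2 : k ≤ 86603 / 100000 * ph b
  h1 : 86602 / 100000 ≤ h0
  h2 : h0 ≤ 86603 / 100000
  h3 : 86602 / 100000 * b ≤ h0 * b
  k3 : 0 ≤ k
  k4 : k ≤ 1161 / 10000
  hq : h0 + b / 2 - k ≤ 1
  ys : s ≤ y
  yh : y ≤ h0
  yt : 2 * h0 - 1 ≤ y
  n1x : 1 - 1 / 2 - 1 / 2 * ph b + h0 * b + ph (y - b / 2 - k) - ph (1 - h0) ≤ M1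
  n1e : 1 - ph (s + 1 - y) + ph (s + 1 - h0) - ph (1 - h0) ≤ M1
  o11 : M1 - 1 / 2 - 1 / 2 * ph b - h0 * b + ph (y + b / 2 - k + h0 - 1) ≤ G1
  o1y : M1 - ph (h0 + s - y) + ph (h0 + s - 1) ≤ G1
  n2h : 1 - 1 / 2 - 1 / 2 * ph b + h0 * b + ph (y - b / 2 - k) - ph (h0 + s - 1) ≤ M2
  n2v : 1 - 1 / 2 - 1 / 2 * ph b + h0 * b + ph (y - b / 2 - k - s) - ph (1 - h0) ≤ M2
  n2e : 3 / 2 - ph (2 * h0 - y) - ph (h0 + s - 1) ≤ M2
  o2m : M2 - 1 / 2 - 1 / 2 * ph b - h0 * b + ph (y + b / 2 - k - h0 - s + 1) ≤ G2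
  o2y : M2 - ph (h0 + s - y) + ph (1 - h0) ≤ G2
  n3x : 1 - 1 / 2 - 1 / 2 * ph b + h0 * b + ph (y - b / 2 - k) - ph (1 - h0) ≤ M3
  o3h : M3 - 1 / 2 - 1 / 2 * ph b - h0 * b + ph (y + b / 2 - k) - ph (1 - h0) ≤ G3
  n4x : 1 - 1 / 2 - 1 / 2 * ph b + h0 * b + ph (y - b / 2 - k - h0 - s + 1) ≤ M4
  n4v : 1 - 1 / 2 - 1 / 2 * ph b + h0 * b + ph (y - b / 2 - k - s) - ph (1 - h0) ≤ M4
  n4e : 1 - ph (h0 + s - y) + ph (1 - h0) ≤ M4
  o4y : M4 - ph (h0 + s - y) + ph (1 - h0) ≤ G4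
  o4m : M4 - 1 / 2 - 1 / 2 * ph b - h0 * b + ph (y + b / 2 - k - h0 - s + 1) ≤ G4
  s1 : 57 / 100 ≤ s
  s2 : s ≤ 607 / 1000
  y1 : 183 / 250 ≤ y
  y2 : y ≤ 4 / 5
  b1 : 0 ≤ b
  b2 : b ≤ 1 / 2

theorem RwA12.lo6 {s y b k M1 M2 M3 M4 G1 G2 G3 G4 : ℝ} (R : RwA12 s y b k M1 M2 M3 M4 G1 G2 G3 G4) (w0 : ℝ) (hw0 : w0 ^ 2 < 1) :
    2 * w0 * (s + 1 - h0) - 2 * w0 ^ 2 ≤ (1 - w0 ^ 2) * ph (s + 1 - h0) :=
  lo hw0 (by linear_combination R.h2 + R.s1) (by linear_combination R.h1 + R.s2)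

theorem RwA12.lo8 {s y b k M1 M2 M3 M4 G1 G2 G3 G4 : ℝ} (R : RwA12 s y b k M1 M2 M3 M4 G1 G2 G3 G4) (w0 : ℝ) (hw0 : w0 ^ 2 < 1) :
    2 * w0 * (s) - 2 * w0 ^ 2 ≤ (1 - w0 ^ 2) * ph (s) :=
  lo hw0 (by linear_combination R.s1) (by linear_combination R.s2)

theorem RwA12.lo11 {s y b k M1 M2 M3 M4 G1 G2 G3 G4 : ℝ} (R : RwA12 s y b k M1 M2 M3 M4 G1 G2 G3 G4) (w0 : ℝ) (hw0 : w0 ^ 2 < 1) :
    2 * w0 * (y + b / 2 - k) - 2 * w0 ^ 2 ≤ (1 - w0 ^ 2) * ph (y + b / 2 - k) :=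
  lo hw0 (by linear_combination 2 * R.h1 + R.k4 + R.yt + (1 / 2) * R.b1) (by linear_combination R.h1 + R.hq + R.y2)

theorem RwA12.lo12 {s y b k M1 M2 M3 M4 G1 G2 G3 G4 : ℝ} (R : RwA12 s y b k M1 M2 M3 M4 G1 G2 G3 G4) (w0 : ℝ) (hw0 : w0 ^ 2 < 1) :
    2 * w0 * (y - b / 2 - k - h0 - s + 1) - 2 * w0 ^ 2 ≤ (1 - w0 ^ 2) * ph (y - b / 2 - k - h0 - s + 1) :=
  lo hw0 (by linear_combination R.h1 + R.k4 + R.yt + R.s2 + (1 / 2) * R.b2) (by linear_combination R.h1 + R.k3 + R.s1 + R.y2 + (1 / 2) * R.b1)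

theorem RwA12.lo14 {s y b k M1 M2 M3 M4 G1 G2 G3 G4 : ℝ} (R : RwA12 s y b k M1 M2 M3 M4 G1 G2 G3 G4) (w0 : ℝ) (hw0 : w0 ^ 2 < 1) :
    2 * w0 * (y - b / 2 - k) - 2 * w0 ^ 2 ≤ (1 - w0 ^ 2) * ph (y - b / 2 - k) :=
  lo hw0 (by linear_combination 2 * R.h1 + R.k4 + R.yt + (1 / 2) * R.b2) (by linear_combination R.k3 + R.y2 + (1 / 2) * R.b1)

theorem wa12_0 {s y b k M1 M2 M3 M4 G1 G2 G3 G4 : ℝ} (R : RwA12 s y b k M1 M2 M3 M4 G1 G2 G3 G4)
    (s1 : 57 / 100 ≤ s) (s2 : s ≤ 607 / 1000) (y1 : 183 / 250 ≤ y) (y2 : y ≤ 4 / 5)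
    (b1 : 0 ≤ b) (b2 : b ≤ 1 / 2) :
    0 ≤ fBoxWA12 s y b k M1 M2 M3 M4 G1 G2 G3 G4 := by
  have e1 := up (t1 := (67 / 1000)) (t2 := (68 / 1000)) (x := 1 - h0) (by norm_num)
    (by linear_combination (1004489 / 1000000) * R.h2) (by linear_combination (62789 / 62500) * R.h1)
  have e2 := up (t1 := (0 / 1000)) (t2 := (268 / 1000)) (x := b) (by norm_num)
    (by linear_combination b1) (by linear_combination (66989 / 62500) * b2)
  have e3 := up (t1 := (358 / 1000)) (t2 := (444 / 1000)) (x := h0 + s - y) (by norm_num)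
    (by linear_combination (282041 / 250000) * R.h1 + (282041 / 250000) * s1 + (282041 / 250000) * y2) (by linear_combination (74821 / 62500) * R.h1 + (74821 / 62500) * R.yt + (74821 / 62500) * s2)
  have e4 := R.lo6 (443 / 1000) (by norm_num)
  have e5 := up (t1 := (470 / 1000)) (t2 := (590 / 1000)) (x := s + 1 - y) (by norm_num)
    (by linear_combination (12209 / 10000) * s1 + (12209 / 10000) * y2) (by linear_combination (13481 / 5000) * R.h1 + (13481 / 10000) * R.yt + (13481 / 10000) * s2)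
  have e6 := R.lo8 (338 / 1000) (by norm_num)
  have e7 := up (t1 := (435 / 1000)) (t2 := (500 / 1000)) (x := y) (by norm_num)
    (by linear_combination (47569 / 20000) * R.h1 + (47569 / 40000) * R.yt) (by linear_combination (5 / 4) * y2)
  have e8 := R.lo11 (536 / 1000) (by norm_num)
  have e9 := R.lo12 (65 / 1000) (by norm_num)
  have e10 := R.lo14 (322 / 1000) (by norm_num)
  unfold fBoxWA12
  linear_combination (7852038663973786625 / 2635726502474187072) * R.k2 + (169006318609989273154350587453625 / 36440161496226942619498806651712) * R.h2 + (4536021495036989631 / 3514302003298916096) * R.h3 + R.n1e + R.o1y + R.n2h + R.o2y + R.n3x + R.o3h + (1021719491738073535 / 3514302003298916096) * R.n4x + (2492582511560842561 / 3514302003298916096) * R.n4e + R.o4y + (1800677104612011988752609460352655475 / 2030896123414985929473923747317828992) * s2 + (658668776603695060460071106467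 / 417871038184013226556055714688) * y2 + (15964367058407398984375 / 54660794427685722410416) * e1 + (8909468485819421291579 / 2108581201979349657600) * e2 + (203679508147774857015625 / 46182760488602293511072) * e3 + (1000000 / 803751) * e4 + (10000 / 7227) * e5 + (1000000 / 221439) * e6 + (3200 / 313) * e7 + (15625 / 11136) * e8 + (48096308076846875 / 164732906404636692) * e9 + (500000 / 224079) * e10

end Pool.Agent.Strip051.FourG
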