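import Pool.Agent.Strip051.FourB.Box

/-! # The new point between s and h0, A14 -/

namespace Pool.Agent.Strip051.FourG

set_option linter.unusedVariables false

open Pool.Agent.StripNear Pool.Agent.StripSquare Pool.Agent.Strip051
open Pool.Agent.Strip051.Four.Low (ph)
open Pool.Agent.Strip051.FourB (lo up)

/-- The function of the boxes `wa14_`. -/
noncomputable def fBoxWA14 (s y b k M1 M2 M3 M4 G1 G2 G3 G4 : ℝ) : ℝ :=
  G1 + G2 + G3 + G4 - 8 * ph y + 4 * ph s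

/-- The region of the boxes `wa14_`. -/
structure RwA14 (s y b k M1 M2 M3 M4 G1 G2 G3 G4 : ℝ) : Prop where
  k1 : 86602 / 100000 * ph b ≤ k
  k2 : k ≤ 86603 / 100000 * ph b
  h1 : 86602 / 100000 ≤ h0
  h2 : h0 ≤ 86603 / 100000
  h3 : 86602 / 100000 * b ≤ h0 * b
  k3 : 0 ≤ k
  k4 : k ≤ 1161 / 10000
  hq : h0 + b / 2 - k ≤ 1
  ys : s ≤ y
  yh : y ≤ h0
  x0 : 17 / 20 ≤ y
  x1 : y ≤ h0 - 1 / 500
  n1x : 1 - 1 / 2 - 1 / 2 * ph b + h0 * b + ph (y - b / 2 - k) - ph (1 - h0) ≤ M1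
  n1e : 1 - ph (s + 1 - y) + ph (s + 1 - h0) - ph (1 - h0) ≤ M1
  o11 : M1 - 1 / 2 - 1 / 2 * ph b - h0 * b + ph (y + b / 2 - k + h0 - 1) ≤ G1
  o1y : M1 - ph (h0 + s - y) + ph (h0 + s - 1) ≤ G1
  n2h : 1 - 1 / 2 - 1 / 2 * ph b + h0 * b + ph (y - b / 2 - k) - ph (h0 + s - 1) ≤ M2
  n2v : 1 - 1 / 2 - 1 / 2 * ph b + h0 * b + ph (y - b / 2 - k - s) - ph (1 - h0) ≤ M2
  n2e : 3 / 2 - ph (2 * h0 - y) - ph (h0 + s - 1) ≤ M2
  o2m : M2 - 1 / 2 - 1 / 2 * ph b - h0 * b + ph (y + b / 2 - k - h0 - s + 1) ≤ G2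
  o2y : M2 - ph (h0 + s - y) + ph (1 - h0) ≤ G2
  n3x : 1 - 1 / 2 - 1 / 2 * ph b + h0 * b + ph (y - b / 2 - k) - ph (1 - h0) ≤ M3
  n3e : 1 - ph (9 / 5 - y) + ph (9 / 5 - h0) - ph (1 - h0) ≤ M3
  o3h : M3 - 1 / 2 - 1 / 2 * ph b - h0 * b + ph (y + b / 2 - k) - ph (1 - h0) ≤ G3
  n4x : 1 - 1 / 2 - 1 / 2 * ph b + h0 * b + ph (y - b / 2 - k - h0 - s + 1) ≤ M4
  n4v : 1 - 1 / 2 - 1 / 2 * ph b + h0 * b + ph (y - b / 2 - k - s) - ph (1 - h0) ≤ M4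
  n4e : 1 - ph (h0 + s - y) + ph (1 - h0) ≤ M4
  o4y : M4 - ph (h0 + s - y) + ph (1 - h0) ≤ G4
  o4m : M4 - 1 / 2 - 1 / 2 * ph b - h0 * b + ph (y + b / 2 - k - h0 - s + 1) ≤ G4
  s1 : 57 / 100 ≤ s
  s2 : s ≤ 607 / 1000
  y1 : 17 / 20 ≤ y
  y2 : y ≤ 8661 / 10000
  b1 : 0 ≤ b
  b2 : b ≤ 3 / 8

theorem RwA14.lo8 {s y b k M1 M2 M3 M4 G1 G2 G3 G4 : ℝ} (R : RwA14 s y b k M1 M2 M3 M4 G1 G2 G3 G4) (w0 : ℝ) (hw0 : w0 ^ 2 < 1) :
    2 * w0 * (s + 1 - h0) - 2 * w0 ^ 2 ≤ (1 - w0 ^ 2) * ph (s + 1 - h0) :=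
  lo hw0 (by linarith only [R.h2, R.s1]) (by linarith only [R.h1, R.s2])

theorem RwA14.lo10 {s y b k M1 M2 M3 M4 G1 G2 G3 G4 : ℝ} (R : RwA14 s y b k M1 M2 M3 M4 G1 G2 G3 G4) (w0 : ℝ) (hw0 : w0 ^ 2 < 1) :
    2 * w0 * (s) - 2 * w0 ^ 2 ≤ (1 - w0 ^ 2) * ph (s) :=
  lo hw0 (by linarith only [R.s1]) (by linarith only [R.s2])

theorem RwA14.lo13 {s y b k M1 M2 M3 M4 G1 G2 G3 G4 : ℝ} (R : RwA14 s y b k M1 M2 M3 M4 G1 G2 G3 G4) (w0 : ℝ) (hw0 : w0 ^ 2 < 1) :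
    2 * w0 * (y + b / 2 - k) - 2 * w0 ^ 2 ≤ (1 - w0 ^ 2) * ph (y + b / 2 - k) :=
  lo hw0 (by linarith only [R.k4, R.x0, R.b1]) (by linarith only [R.hq, R.x1])

theorem RwA14.lo16 {s y b k M1 M2 M3 M4 G1 G2 G3 G4 : ℝ} (R : RwA14 s y b k M1 M2 M3 M4 G1 G2 G3 G4) (w0 : ℝ) (hw0 : w0 ^ 2 < 1) :
    2 * w0 * (y - b / 2 - k) - 2 * w0 ^ 2 ≤ (1 - w0 ^ 2) * ph (y - b / 2 - k) :=
  lo hw0 (by linarith only [R.k4, R.x0, R.b2]) (by linarith only [R.h2, R.k3, R.x1, R.b1])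

theorem wa14_2 {s y b k M1 M2 M3 M4 G1 G2 G3 G4 : ℝ} (R : RwA14 s y b k M1 M2 M3 M4 G1 G2 G3 G4)
    (s1 : 57 / 100 ≤ s) (s2 : s ≤ 607 / 1000) (y1 : 17 / 20 ≤ y) (y2 : y ≤ 8661 / 10000)
    (b1 : 0 ≤ b) (b2 : b ≤ 47 / 500) :
    0 ≤ fBoxWA14 s y b k M1 M2 M3 M4 G1 G2 G3 G4 := by
  have e1 := up (t1 := (580 / 1000)) (t2 := (600 / 1000)) (x := 2 * h0 - y) (by norm_num)
    (by linarith only [R.h1, R.x1]) (by linarith only [R.h2, R.x0])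
  have e2 := up (t1 := (0 / 1000)) (t2 := (48 / 1000)) (x := b) (by norm_num)
    (by linarith only [b1]) (by linarith only [b2])
  have e3 := up (t1 := (314 / 1000)) (t2 := (350 / 1000)) (x := h0 + s - y) (by norm_num)
    (by linarith only [R.x1, s1]) (by linarith only [R.h2, R.x0, s2])
  have e4 := R.lo8 (443 / 1000) (by norm_num)
  have e5 := up (t1 := (413 / 1000)) (t2 := (458 / 1000)) (x := s + 1 - y) (by norm_num)
    (by linarith only [R.h2, R.x1, s1]) (by linarith only [R.x0, s2])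
  have e6 := up (t1 := (556 / 1000)) (t2 := (575 / 1000)) (x := y) (by norm_num)
    (by linarith only [R.x0]) (by linarith only [R.h2, R.x1])
  have e7 := R.lo13 (595 / 1000) (by norm_num)
  have e8 := R.lo16 (535 / 1000) (by norm_num)
  have e9 := R.lo8 (435 / 1000) (by norm_num)
  have e10 := R.lo10 (332 / 1000) (by norm_num)
  have e11 := R.lo13 (617 / 1000) (by norm_num)
  unfold fBoxWA14
  linarith only [R.k2, R.h2, R.x1, R.n1e, R.o1y, R.n2e, R.o2y, R.n3x, R.o3h, R.n4e, R.o4y, e1, e2, e3, e4, e5, e6, e7, e8, e9, e10, e11]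

theorem wa14_4 {s y b k M1 M2 M3 M4 G1 G2 G3 G4 : ℝ} (R : RwA14 s y b k M1 M2 M3 M4 G1 G2 G3 G4)
    (s1 : 57 / 100 ≤ s) (s2 : s ≤ 589 / 1000) (y1 : 17 / 20 ≤ y) (y2 : y ≤ 8661 / 10000)
    (b1 : 47 / 500 ≤ b) (b2 : b ≤ 47 / 250) :
    0 ≤ fBoxWA14 s y b k M1 M2 M3 M4 G1 G2 G3 G4 := by
  have e1 := up (t1 := (580 / 1000)) (t2 := (600 / 1000)) (x := 2 * h0 - y) (by norm_num)
    (by linarith only [R.h1, R.x1]) (by linarith only [R.h2, R.x0])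
  have e2 := up (t1 := (47 / 1000)) (t2 := (95 / 1000)) (x := b) (by norm_num)
    (by linarith only [b1]) (by linarith only [b2])
  have e3 := up (t1 := (314 / 1000)) (t2 := (337 / 1000)) (x := h0 + s - y) (by norm_num)
    (by linarith only [R.x1, s1]) (by linarith only [R.h2, R.x0, s2])
  have e4 := R.lo8 (420 / 1000) (by norm_num)
  have e5 := R.lo8 (428 / 1000) (by norm_num)
  have e6 := up (t1 := (413 / 1000)) (t2 := (442 / 1000)) (x := s + 1 - y) (by norm_num)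
    (by linarith only [R.h2, R.x1, s1]) (by linarith only [R.x0, s2])
  have e7 := R.lo10 (326 / 1000) (by norm_num)
  have e8 := up (t1 := (556 / 1000)) (t2 := (575 / 1000)) (x := y) (by norm_num)
    (by linarith only [R.x0]) (by linarith only [R.h2, R.x1])
  have e9 := R.lo13 (657 / 1000) (by norm_num)
  have e10 := R.lo13 (707 / 1000) (by norm_num)
  have e11 := R.lo16 (477 / 1000) (by norm_num)
  unfold fBoxWA14
  linarith only [R.k2, R.h2, R.x1, R.n1e, R.o1y, R.n2e, R.o2y, R.n3x, R.o3h, R.n4e, R.o4y, e1, e2, e3, e4, e5, e6, e7, e8, e9, e10, e11]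

theorem wa14_5 {s y b k M1 M2 M3 M4 G1 G2 G3 G4 : ℝ} (R : RwA14 s y b k M1 M2 M3 M4 G1 G2 G3 G4)
    (s1 : 589 / 1000 ≤ s) (s2 : s ≤ 607 / 1000) (y1 : 17 / 20 ≤ y) (y2 : y ≤ 8661 / 10000)
    (b1 : 47 / 500 ≤ b) (b2 : b ≤ 47 / 250) :
    0 ≤ fBoxWA14 s y b k M1 M2 M3 M4 G1 G2 G3 G4 := by
  have e1 := up (t1 := (580 / 1000)) (t2 := (600 / 1000)) (x := 2 * h0 - y) (by norm_num)
    (by linarith only [R.h1, R.x1]) (by linarith only [R.h2, R.x0])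
  have e2 := up (t1 := (47 / 1000)) (t2 := (95 / 1000)) (x := b) (by norm_num)
    (by linarith only [b1]) (by linarith only [b2])
  have e3 := up (t1 := (327 / 1000)) (t2 := (350 / 1000)) (x := h0 + s - y) (by norm_num)
    (by linarith only [R.x1, s1]) (by linarith only [R.h2, R.x0, s2])
  have e4 := R.lo8 (443 / 1000) (by norm_num)
  have e5 := up (t1 := (429 / 1000)) (t2 := (458 / 1000)) (x := s + 1 - y) (by norm_num)
    (by linarith only [R.h2, R.x1, s1]) (by linarith only [R.x0, s2])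
  have e6 := R.lo10 (338 / 1000) (by norm_num)
  have e7 := up (t1 := (556 / 1000)) (t2 := (575 / 1000)) (x := y) (by norm_num)
    (by linarith only [R.x0]) (by linarith only [R.h2, R.x1])
  have e8 := R.lo13 (657 / 1000) (by norm_num)
  have e9 := R.lo13 (707 / 1000) (by norm_num)
  have e10 := R.lo16 (477 / 1000) (by norm_num)
  unfold fBoxWA14
  linarith only [R.k2, R.h2, R.x1, R.n1e, R.o1y, R.n2e, R.o2y, R.n3x, R.o3h, R.n4e, R.o4y, s2, e1, e2, e3, e4, e5, e6, e7, e8, e9, e10]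

theorem wa14_8 {s y b k M1 M2 M3 M4 G1 G2 G3 G4 : ℝ} (R : RwA14 s y b k M1 M2 M3 M4 G1 G2 G3 G4)
    (s1 : 57 / 100 ≤ s) (s2 : s ≤ 607 / 1000) (y1 : 17 / 20 ≤ y) (y2 : y ≤ 8661 / 10000)
    (b1 : 47 / 250 ≤ b) (b2 : b ≤ 47 / 200) :
    0 ≤ fBoxWA14 s y b k M1 M2 M3 M4 G1 G2 G3 G4 := by
  have e1 := up (t1 := (94 / 1000)) (t2 := (120 / 1000)) (x := b) (by norm_num)
    (by linarith only [b1]) (by linarith only [b2])
  have e2 := up (t1 := (314 / 1000)) (t2 := (350 / 1000)) (x := h0 + s - y) (by norm_num)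
    (by linarith only [R.x1, s1]) (by linarith only [R.h2, R.x0, s2])
  have e3 := R.lo10 (325 / 1000) (by norm_num)
  have e4 := R.lo10 (338 / 1000) (by norm_num)
  have e5 := up (t1 := (556 / 1000)) (t2 := (575 / 1000)) (x := y) (by norm_num)
    (by linarith only [R.x0]) (by linarith only [R.h2, R.x1])
  have e6 := R.lo13 (707 / 1000) (by norm_num)
  have e7 := R.lo13 (743 / 1000) (by norm_num)
  have e8 := R.lo16 (435 / 1000) (by norm_num)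
  unfold fBoxWA14
  linarith only [R.k2, R.h2, R.h3, R.x1, R.n1x, R.o1y, R.n2h, R.o2y, R.n3x, R.o3h, R.n4e, R.o4y, e1, e2, e3, e4, e5, e6, e7, e8]

theorem wa14_9 {s y b k M1 M2 M3 M4 G1 G2 G3 G4 : ℝ} (R : RwA14 s y b k M1 M2 M3 M4 G1 G2 G3 G4)
    (s1 : 57 / 100 ≤ s) (s2 : s ≤ 607 / 1000) (y1 : 17 / 20 ≤ y) (y2 : y ≤ 8661 / 10000)
    (b1 : 47 / 200 ≤ b) (b2 : b ≤ 141 / 500) :
    0 ≤ fBoxWA14 s y b k M1 M2 M3 M4 G1 G2 G3 G4 := by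
  have e1 := up (t1 := (119 / 1000)) (t2 := (144 / 1000)) (x := b) (by norm_num)
    (by linarith only [b1]) (by linarith only [b2])
  have e2 := up (t1 := (314 / 1000)) (t2 := (350 / 1000)) (x := h0 + s - y) (by norm_num)
    (by linarith only [R.x1, s1]) (by linarith only [R.h2, R.x0, s2])
  have e3 := R.lo10 (325 / 1000) (by norm_num)
  have e4 := R.lo10 (338 / 1000) (by norm_num)
  have e5 := up (t1 := (556 / 1000)) (t2 := (575 / 1000)) (x := y) (by norm_num)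
    (by linarith only [R.x0]) (by linarith only [R.h2, R.x1])
  have e6 := R.lo13 (741 / 1000) (by norm_num)
  have e7 := R.lo13 (780 / 1000) (by norm_num)
  have e8 := R.lo16 (407 / 1000) (by norm_num)
  unfold fBoxWA14
  linarith only [R.k2, R.h2, R.h3, R.x1, R.n1x, R.o1y, R.n2h, R.o2y, R.n3x, R.o3h, R.n4e, R.o4y, e1, e2, e3, e4, e5, e6, e7, e8]

theorem wa14_11 {s y b k M1 M2 M3 M4 G1 G2 G3 G4 : ℝ} (R : RwA14 s y b k M1 M2 M3 M4 G1 G2 G3 G4)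
    (s1 : 57 / 100 ≤ s) (s2 : s ≤ 607 / 1000) (y1 : 17 / 20 ≤ y) (y2 : y ≤ 8661 / 10000)
    (b1 : 141 / 500 ≤ b) (b2 : b ≤ 329 / 1000) :
    0 ≤ fBoxWA14 s y b k M1 M2 M3 M4 G1 G2 G3 G4 := by
  have e1 := up (t1 := (143 / 1000)) (t2 := (170 / 1000)) (x := b) (by norm_num)
    (by linarith only [b1]) (by linarith only [b2])
  have e2 := up (t1 := (314 / 1000)) (t2 := (350 / 1000)) (x := h0 + s - y) (by norm_num)
    (by linarith only [R.x1, s1]) (by linarith only [R.h2, R.x0, s2])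
  have e3 := R.lo10 (325 / 1000) (by norm_num)
  have e4 := up (t1 := (556 / 1000)) (t2 := (575 / 1000)) (x := y) (by norm_num)
    (by linarith only [R.x0]) (by linarith only [R.h2, R.x1])
  have e5 := R.lo16 (379 / 1000) (by norm_num)
  have e6 := R.lo10 (332 / 1000) (by norm_num)
  have e7 := R.lo13 (798 / 1000) (by norm_num)
  have e8 := R.lo16 (384 / 1000) (by norm_num)
  unfold fBoxWA14
  linarith only [R.k2, R.h2, R.h3, R.x1, R.n1x, R.o1y, R.n2h, R.o2y, R.n3x, R.o3h, R.n4e, R.o4y, e1, e2, e3, e4, e5, e6, e7, e8]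

theorem wa14_13 {s y b k M1 M2 M3 M4 G1 G2 G3 G4 : ℝ} (R : RwA14 s y b k M1 M2 M3 M4 G1 G2 G3 G4)
    (s1 : 57 / 100 ≤ s) (s2 : s ≤ 607 / 1000) (y1 : 17 / 20 ≤ y) (y2 : y ≤ 8661 / 10000)
    (b1 : 329 / 1000 ≤ b) (b2 : b ≤ 44 / 125) :
    0 ≤ fBoxWA14 s y b k M1 M2 M3 M4 G1 G2 G3 G4 := by
  have e1 := up (t1 := (169 / 1000)) (t2 := (182 / 1000)) (x := b) (by norm_num)
    (by linarith only [b1]) (by linarith only [b2])
  have e2 := up (t1 := (314 / 1000)) (t2 := (350 / 1000)) (x := h0 + s - y) (by norm_num)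
    (by linarith only [R.x1, s1]) (by linarith only [R.h2, R.x0, s2])
  have e3 := R.lo10 (325 / 1000) (by norm_num)
  have e4 := R.lo10 (338 / 1000) (by norm_num)
  have e5 := up (t1 := (556 / 1000)) (t2 := (575 / 1000)) (x := y) (by norm_num)
    (by linarith only [R.x0]) (by linarith only [R.h2, R.x1])
  have e6 := R.lo13 (838 / 1000) (by norm_num)
  have e7 := R.lo16 (358 / 1000) (by norm_num)
  have e8 := R.lo16 (370 / 1000) (by norm_num)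
  unfold fBoxWA14
  linarith only [R.k2, R.h2, R.h3, R.x1, R.n1x, R.o1y, R.n2h, R.o2y, R.n3x, R.o3h, R.n4e, R.o4y, e1, e2, e3, e4, e5, e6, e7, e8]

theorem wa14_14 {s y b k M1 M2 M3 M4 G1 G2 G3 G4 : ℝ} (R : RwA14 s y b k M1 M2 M3 M4 G1 G2 G3 G4)
    (s1 : 57 / 100 ≤ s) (s2 : s ≤ 607 / 1000) (y1 : 17 / 20 ≤ y) (y2 : y ≤ 8661 / 10000)
    (b1 : 44 / 125 ≤ b) (b2 : b ≤ 3 / 8) :
    0 ≤ fBoxWA14 s y b k M1 M2 M3 M4 G1 G2 G3 G4 := by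
  have e1 := up (t1 := (181 / 1000)) (t2 := (195 / 1000)) (x := b) (by norm_num)
    (by linarith only [b1]) (by linarith only [b2])
  have e2 := up (t1 := (314 / 1000)) (t2 := (350 / 1000)) (x := h0 + s - y) (by norm_num)
    (by linarith only [R.x1, s1]) (by linarith only [R.h2, R.x0, s2])
  have e3 := R.lo10 (325 / 1000) (by norm_num)
  have e4 := up (t1 := (556 / 1000)) (t2 := (575 / 1000)) (x := y) (by norm_num)
    (by linarith only [R.x0]) (by linarith only [R.h2, R.x1])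
  have e5 := R.lo13 (858 / 1000) (by norm_num)
  have e6 := R.lo16 (345 / 1000) (by norm_num)
  have e7 := R.lo10 (332 / 1000) (by norm_num)
  have e8 := R.lo13 (845 / 1000) (by norm_num)
  unfold fBoxWA14
  linarith only [R.k2, R.h2, R.h3, R.x1, R.n1x, R.o1y, R.n2h, R.o2y, R.n3x, R.o3h, R.n4e, R.o4y, e1, e2, e3, e4, e5, e6, e7, e8]

theorem wa14_12 {s y b k M1 M2 M3 M4 G1 G2 G3 G4 : ℝ} (R : RwA14 s y b k M1 M2 M3 M4 G1 G2 G3 G4)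
    (s1 : 57 / 100 ≤ s) (s2 : s ≤ 607 / 1000) (y1 : 17 / 20 ≤ y) (y2 : y ≤ 8661 / 10000)
    (b1 : 329 / 1000 ≤ b) (b2 : b ≤ 3 / 8) :
    0 ≤ fBoxWA14 s y b k M1 M2 M3 M4 G1 G2 G3 G4 := by
  rcases le_total b (44 / 125) with h | h
  · exact wa14_13 R s1 s2 y1 y2 b1 h
  · exact wa14_14 R s1 s2 y1 y2 h b2

theorem wa14_10 {s y b k M1 M2 M3 M4 G1 G2 G3 G4 : ℝ} (R : RwA14 s y b k M1 M2 M3 M4 G1 G2 G3 G4)
    (s1 : 57 / 100 ≤ s) (s2 : s ≤ 607 / 1000) (y1 : 17 / 20 ≤ y) (y2 : y ≤ 8661 / 10000)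
    (b1 : 141 / 500 ≤ b) (b2 : b ≤ 3 / 8) :
    0 ≤ fBoxWA14 s y b k M1 M2 M3 M4 G1 G2 G3 G4 := by
  rcases le_total b (329 / 1000) with h | h
  · exact wa14_11 R s1 s2 y1 y2 b1 h
  · exact wa14_12 R s1 s2 y1 y2 h b2

theorem wa14_7 {s y b k M1 M2 M3 M4 G1 G2 G3 G4 : ℝ} (R : RwA14 s y b k M1 M2 M3 M4 G1 G2 G3 G4)
    (s1 : 57 / 100 ≤ s) (s2 : s ≤ 607 / 1000) (y1 : 17 / 20 ≤ y) (y2 : y ≤ 8661 / 10000)
    (b1 : 47 / 250 ≤ b) (b2 : b ≤ 141 / 500) :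
    0 ≤ fBoxWA14 s y b k M1 M2 M3 M4 G1 G2 G3 G4 := by
  rcases le_total b (47 / 200) with h | h
  · exact wa14_8 R s1 s2 y1 y2 b1 h
  · exact wa14_9 R s1 s2 y1 y2 h b2

theorem wa14_6 {s y b k M1 M2 M3 M4 G1 G2 G3 G4 : ℝ} (R : RwA14 s y b k M1 M2 M3 M4 G1 G2 G3 G4)
    (s1 : 57 / 100 ≤ s) (s2 : s ≤ 607 / 1000) (y1 : 17 / 20 ≤ y) (y2 : y ≤ 8661 / 10000)
    (b1 : 47 / 250 ≤ b) (b2 : b ≤ 3 / 8) :
    0 ≤ fBoxWA14 s y b k M1 M2 M3 M4 G1 G2 G3 G4 := by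
  rcases le_total b (141 / 500) with h | h
  · exact wa14_7 R s1 s2 y1 y2 b1 h
  · exact wa14_10 R s1 s2 y1 y2 h b2

theorem wa14_3 {s y b k M1 M2 M3 M4 G1 G2 G3 G4 : ℝ} (R : RwA14 s y b k M1 M2 M3 M4 G1 G2 G3 G4)
    (s1 : 57 / 100 ≤ s) (s2 : s ≤ 607 / 1000) (y1 : 17 / 20 ≤ y) (y2 : y ≤ 8661 / 10000)
    (b1 : 47 / 500 ≤ b) (b2 : b ≤ 47 / 250) :
    0 ≤ fBoxWA14 s y b k M1 M2 M3 M4 G1 G2 G3 G4 := by
  rcases le_total s (589 / 1000) with h | h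
  · exact wa14_4 R s1 h y1 y2 b1 b2
  · exact wa14_5 R h s2 y1 y2 b1 b2

theorem wa14_1 {s y b k M1 M2 M3 M4 G1 G2 G3 G4 : ℝ} (R : RwA14 s y b k M1 M2 M3 M4 G1 G2 G3 G4)
    (s1 : 57 / 100 ≤ s) (s2 : s ≤ 607 / 1000) (y1 : 17 / 20 ≤ y) (y2 : y ≤ 8661 / 10000)
    (b1 : 0 ≤ b) (b2 : b ≤ 47 / 250) :
    0 ≤ fBoxWA14 s y b k M1 M2 M3 M4 G1 G2 G3 G4 := by
  rcases le_total b (47 / 500) with h | h
  · exact wa14_2 R s1 s2 y1 y2 b1 h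
  · exact wa14_3 R s1 s2 y1 y2 h b2

theorem wa14_0 {s y b k M1 M2 M3 M4 G1 G2 G3 G4 : ℝ} (R : RwA14 s y b k M1 M2 M3 M4 G1 G2 G3 G4)
    (s1 : 57 / 100 ≤ s) (s2 : s ≤ 607 / 1000) (y1 : 17 / 20 ≤ y) (y2 : y ≤ 8661 / 10000)
    (b1 : 0 ≤ b) (b2 : b ≤ 3 / 8) :
    0 ≤ fBoxWA14 s y b k M1 M2 M3 M4 G1 G2 G3 G4 := by
  rcases le_total b (47 / 250) with h | h
  · exact wa14_1 R s1 s2 y1 y2 b1 h
  · exact wa14_6 R s1 s2 y1 y2 h b2

end Pool.Agent.Strip051.FourG
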