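import Pool.Agent.Strip051.FourB.Box

/-! # The new point between s and h0, A24 -/

namespace Pool.Agent.Strip051.FourG

set_option linter.unusedVariables false

open Pool.Agent.StripNear Pool.Agent.StripSquare Pool.Agent.Strip051
open Pool.Agent.Strip051.Four.Low (ph)
open Pool.Agent.Strip051.FourB (lo up)

/-- The function of the boxes `wa24_`. -/
noncomputable def fBoxWA24 (s y b k M1 M2 M3 M4 G1 G2 G3 G4 : ℝ) : ℝ :=
  G1 + G2 + G3 + G4 - 8 * ph y + 4 * ph s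

/-- The region of the boxes `wa24_`. -/
structure RwA24 (s y b k M1 M2 M3 M4 G1 G2 G3 G4 : ℝ) : Prop where
  k1 : 86602 / 100000 * ph b ≤ k
  k2 : k ≤ 86603 / 100000 * ph b
  h1 : 86602 / 100000 ≤ h0
  h2 : h0 ≤ 86603 / 100000
  h3 : 86602 / 100000 * b ≤ h0 * b
  k3 : 0 ≤ k
  k4 : k ≤ 1161 / 10000
  hq : h0 + b / 2 - k ≤ 1
  ys : s ≤ y
  yh : y ≤ h0
  x0 : 17 / 20 ≤ y
  x1 : y ≤ h0 - 1 / 100
  n1x : 1 - 1 / 2 - 1 / 2 * ph b - h0 * b + ph (y + b / 2 - k) - ph (1 - h0) ≤ M1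
  n1e : 1 - ph (s + 1 - y) + ph (s + 1 - h0) - ph (1 - h0) ≤ M1
  o11 : M1 - 1 / 2 - 1 / 2 * ph b + h0 * b + ph (y - b / 2 - k + h0 - 1) ≤ G1
  o1y : M1 - ph (h0 + s - y) + ph (h0 + s - 1) ≤ G1
  n2h : 1 - 1 / 2 - 1 / 2 * ph b - h0 * b + ph (y + b / 2 - k) - ph (h0 + s - 1) ≤ M2
  n2e : 3 / 2 - ph (2 * h0 - y) - ph (h0 + s - 1) ≤ M2
  o2m : M2 - 1 / 2 - 1 / 2 * ph b + h0 * b + ph (y - b / 2 - k - h0 - s + 1) ≤ G2
  o2y : M2 - ph (h0 + s - y) + ph (1 - h0) ≤ G2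
  n3x : 1 - 1 / 2 - 1 / 2 * ph b - h0 * b + ph (y + b / 2 - k) - ph (1 - h0) ≤ M3
  n3e : 1 - ph (9 / 5 - y) + ph (9 / 5 - h0) - ph (1 - h0) ≤ M3
  o3h : M3 - 1 / 2 - 1 / 2 * ph b + h0 * b + ph (y - b / 2 - k) - ph (1 - h0) ≤ G3
  n4e : 1 - ph (h0 + s - y) + ph (1 - h0) ≤ M4
  o4y : M4 - ph (h0 + s - y) + ph (1 - h0) ≤ G4
  o4m : M4 - 1 / 2 - 1 / 2 * ph b + h0 * b + ph (y - b / 2 - k - h0 - s + 1) ≤ G4
  o4v : M4 - 1 / 2 - 1 / 2 * ph b + h0 * b + ph (y - b / 2 - k - s) - ph (1 - h0) ≤ G4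
  s1 : 57 / 100 ≤ s
  s2 : s ≤ 607 / 1000
  y1 : 17 / 20 ≤ y
  y2 : y ≤ 8661 / 10000
  b1 : 0 ≤ b
  b2 : b ≤ 3 / 8

theorem RwA24.lo3 {s y b k M1 M2 M3 M4 G1 G2 G3 G4 : ℝ} (R : RwA24 s y b k M1 M2 M3 M4 G1 G2 G3 G4) (w0 : ℝ) (hw0 : w0 ^ 2 < 1) :
    2 * w0 * (9 / 5 - h0) - 2 * w0 ^ 2 ≤ (1 - w0 ^ 2) * ph (9 / 5 - h0) :=
  lo hw0 (by linear_combination R.h2) (by linear_combination R.h1)

theorem RwA24.lo8 {s y b k M1 M2 M3 M4 G1 G2 G3 G4 : ℝ} (R : RwA24 s y b k M1 M2 M3 M4 G1 G2 G3 G4) (w0 : ℝ) (hw0 : w0 ^ 2 < 1) :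
    2 * w0 * (s + 1 - h0) - 2 * w0 ^ 2 ≤ (1 - w0 ^ 2) * ph (s + 1 - h0) :=
  lo hw0 (by linear_combination R.h2 + R.s1) (by linear_combination R.h1 + R.s2)

theorem RwA24.lo10 {s y b k M1 M2 M3 M4 G1 G2 G3 G4 : ℝ} (R : RwA24 s y b k M1 M2 M3 M4 G1 G2 G3 G4) (w0 : ℝ) (hw0 : w0 ^ 2 < 1) :
    2 * w0 * (s) - 2 * w0 ^ 2 ≤ (1 - w0 ^ 2) * ph (s) :=
  lo hw0 (by linear_combination R.s1) (by linear_combination R.s2)

theorem RwA24.lo15 {s y b k M1 M2 M3 M4 G1 G2 G3 G4 : ℝ} (R : RwA24 s y b k M1 M2 M3 M4 G1 G2 G3 G4) (w0 : ℝ) (hw0 : w0 ^ 2 < 1) :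
    2 * w0 * (y - b / 2 - k) - 2 * w0 ^ 2 ≤ (1 - w0 ^ 2) * ph (y - b / 2 - k) :=
  lo hw0 (by linear_combination R.k4 + R.x0 + (1 / 2) * R.b2) (by linear_combination R.h2 + R.k3 + R.x1 + (1 / 2) * R.b1)

theorem wa24_0 {s y b k M1 M2 M3 M4 G1 G2 G3 G4 : ℝ} (R : RwA24 s y b k M1 M2 M3 M4 G1 G2 G3 G4)
    (s1 : 57 / 100 ≤ s) (s2 : s ≤ 607 / 1000) (y1 : 17 / 20 ≤ y) (y2 : y ≤ 8661 / 10000)
    (b1 : 0 ≤ b) (b2 : b ≤ 3 / 8) :
    0 ≤ fBoxWA24 s y b k M1 M2 M3 M4 G1 G2 G3 G4 := by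
  have e1 := up (t1 := (590 / 1000)) (t2 := (600 / 1000)) (x := 2 * h0 - y) (by norm_num)
    (by linear_combination (13481 / 10000) * R.h1 + (13481 / 10000) * R.x1) (by linear_combination (68 / 25) * R.h2 + (34 / 25) * R.x0)
  have e2 := R.lo3 (688 / 1000) (by norm_num)
  have e3 := up (t1 := (709 / 1000)) (t2 := (724 / 1000)) (x := 9 / 5 - y) (by norm_num)
    (by linear_combination (1502681 / 1000000) * R.h2 + (1502681 / 1000000) * R.x1) (by linear_combination (95261 / 62500) * R.x0)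
  have e4 := up (t1 := (0 / 1000)) (t2 := (195 / 1000)) (x := b) (by norm_num)
    (by linear_combination b1) (by linear_combination (41521 / 40000) * b2)
  have e5 := up (t1 := (319 / 1000)) (t2 := (350 / 1000)) (x := h0 + s - y) (by norm_num)
    (by linear_combination (1101761 / 1000000) * R.x1 + (1101761 / 1000000) * s1) (by linear_combination (449 / 400) * R.h2 + (449 / 400) * R.x0 + (449 / 400) * s2)
  have e6 := R.lo8 (427 / 1000) (by norm_num)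
  have e7 := R.lo8 (443 / 1000) (by norm_num)
  have e8 := up (t1 := (419 / 1000)) (t2 := (458 / 1000)) (x := s + 1 - y) (by norm_num)
    (by linear_combination (1175561 / 1000000) * R.h2 + (1175561 / 1000000) * R.x1 + (1175561 / 1000000) * s1) (by linear_combination (302441 / 250000) * R.x0 + (302441 / 250000) * s2)
  have e9 := R.lo10 (338 / 1000) (by norm_num)
  have e10 := up (t1 := (556 / 1000)) (t2 := (565 / 1000)) (x := y) (by norm_num)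
    (by linear_combination (81821 / 62500) * R.x0) (by linear_combination (52769 / 40000) * R.h2 + (52769 / 40000) * R.x1)
  have e11 := R.lo15 (432 / 1000) (by norm_num)
  have e12 := R.lo15 (564 / 1000) (by norm_num)
  unfold fBoxWA24
  linear_combination (15370400 / 13377517) * R.k2 + (17035941560133958967954036574325 / 1271666356089015900063531500019) * R.h2 + R.h3 + (2573674943736969970793567575 / 845916115198307552109760203) * R.x1 + R.n1e + R.o1y + R.n2e + R.o2y + R.n3e + R.o3h + R.n4e + R.o4y + (500 / 323) * e1 + (15625 / 8229) * e2 + (250000 / 121671) * e3 + (4999996503 / 3344379250) * e4 + (80000 / 17767) * e5 + (255094502784680888125 / 210039220684091124873) * e6 + (1811311584854411875 / 210039220684091124873) * e7 + (500000 / 404049) * e8 + (1000000 / 221439) * e9 + (400000 / 34293) * e10 + (9001370965625 / 8578413041352) * e11 + (460810440625 / 2144603260338) * e12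

end Pool.Agent.Strip051.FourG
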