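import Pool.Agent.Strip051.FourF.MidFacts
import Pool.Agent.Strip051.FourG.Props
import Pool.Agent.Strip051.FourG.BoxWA11
import Pool.Agent.Strip051.FourG.BoxWA12
import Pool.Agent.Strip051.FourG.BoxWA13
import Pool.Agent.Strip051.FourG.BoxWA14
import Pool.Agent.Strip051.FourG.BoxWA21
import Pool.Agent.Strip051.FourG.BoxWA22
import Pool.Agent.Strip051.FourG.BoxWA23
import Pool.Agent.Strip051.FourG.BoxWA24
import Pool.Agent.Strip051.FourG.BoxWB11
import Pool.Agent.Strip051.FourG.BoxWB12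
import Pool.Agent.Strip051.FourG.BoxWB13
import Pool.Agent.Strip051.FourG.BoxWB21
import Pool.Agent.Strip051.FourG.BoxWB22
import Pool.Agent.Strip051.FourG.BoxWB23

/-! # The new point is between `s` and `h0` -/

namespace Pool.Agent.Strip051.FourG

open Pool.Agent.StripNear Pool.Agent.StripSquare Pool.Agent.Strip051
open Pool.Agent.Strip051.Four (gn)
open Pool.Agent.Strip051.Four.Low (ph ph_nonneg)
open Pool.Agent.Strip051.FourF (p2 p3 q2 q3)
open Pool.Agent.Strip051.FourF.MB (Ak ak_exists F1 F2 facts_1 facts_2 mc1 mc2 mt1_aux mt2)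

section

variable {s e w y r p q b k M1 M2 M3 M4 G1 G2 G3 G4 : ℝ}

theorem mw_1 (hs1 : 57 / 100 ≤ s) (hs2 : s ≤ 607 / 1000) (A : Ak r p q b k)
    (h1 : s ≤ y) (h2 : y ≤ h0) (hb : 17 / 20 ≤ y → b ≤ 3 / 8)
    (F : F1 s y b k M1 M2 M3 M4 G1 G2 G3 G4) :
    8 * ph y - 4 * ph s ≤ G1 + G2 + G3 + G4 := by
  have hh : h0 ≤ 86603 / 100000 := Four.Low.h0_hi
  have hl : 86602 / 100000 ≤ h0 := Four.Low.h0_lo
  have b0 := A.h.b0
  have b1 := A.h.b1
  have k0 := A.k3
  have k4 := A.k4
  have kb := A.k2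
  rcases F.n4 with ⟨m1, m2, m3⟩ | ⟨m1, m2⟩
  · rcases le_total y (2 * h0 - 1) with hy | hy
    · rcases le_total ((y - s) + b) (1 / 100) with hc | hc
      · have := mc1 hs1 (by linear_combination hs2) h1 b0 hc k0 kb
        have := F.o2l hy
        have := F.n1x
        have := F.n2h
        have := F.n3x
        have := F.o1y
        have := F.o11
        have := F.o2m
        have := F.o3h
        have := F.o4y
        linear_combination m1 + this + (‹0 ≤   1 + 2 * (h0 * b) - 3 * ph b + 3 * ph (y - b / 2 - k) + ph (y + b / 2 - k) + 4 * ph s - 8 * ph y +         (ph (y + b / 2 - k - h0 + 1) - ph (1 + s - h0)) +       (ph (y - b / 2 - k - h0 - s + 1) - ph (1 - h0)) -     2 * ph (h0 + s - y)›) +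
          (‹M2 - 1 / 2 - 1 / 2 * ph b - h0 * b + ph (y + b / 2 - k - h0 + 1) - ph (1 + s - h0) + ph (1 - h0) ≤ G2›) +
          (‹1 - 1 / 2 - 1 / 2 * ph b + h0 * b + ph (y - b / 2 - k) - ph (1 - h0) ≤ M1›) + (‹1 - 1 / 2 - 1 / 2 * ph b + h0 * b + ph (y - b / 2 - k) - ph (h0 + s - 1) ≤ M2›) +
          (‹1 - 1 / 2 - 1 / 2 * ph b + h0 * b + ph (y - b / 2 - k) - ph (1 - h0) ≤ M3›) + (‹M1 - ph (h0 + s - y) + ph (h0 + s - 1) ≤ G1›) +
          (‹M3 - 1 / 2 - 1 / 2 * ph b - h0 * b + ph (y + b / 2 - k) - ph (1 - h0) ≤ G3›)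
      · have R : RwA11 s y b k M1 M2 M3 M4 G1 G2 G3 G4 := {
          k1 := A.k1, k2 := A.k2, h1 := hl, h2 := hh, h3 := A.h3, k3 := k0, k4 := k4, hq := A.hq,
          ys := h1, yh := h2, yt := hy, x0 := hc, n1x := F.n1x, n1e := F.n1e, o11 := F.o11,
          o1y := F.o1y, n2h := F.n2h, n2v := F.n2v, o2m := F.o2m,
          o2l := F.o2l hy, n3x := F.n3x, o3h := F.o3h,
          n4x := m1, n4v := m2, n4e := m3, o4y := F.o4y, o4m := F.o4m,
          s1 := hs1, s2 := hs2, y1 := by linear_combination hs1 + h1,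
          y2 := by linear_combination hy + 2 * hh, b1 := b0, b2 := b1 }
        have := wa11_0 R hs1 hs2 R.y1 R.y2 b0 b1
        unfold fBoxWA11 at this
        linear_combination this
    rcases le_total y (4 / 5) with hy3 | hy3
    · have R : RwA12 s y b k M1 M2 M3 M4 G1 G2 G3 G4 := {
        k1 := A.k1, k2 := A.k2, h1 := hl, h2 := hh, h3 := A.h3, k3 := k0, k4 := k4, hq := A.hq,
        ys := h1, yh := h2, yt := hy, n1x := F.n1x, n1e := F.n1e, o11 := F.o11,
        o1y := F.o1y, n2h := F.n2h, n2v := F.n2v, n2e := F.n2e hy, o2m := F.o2m,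
        o2y := F.o2y hy, n3x := F.n3x, o3h := F.o3h,
        n4x := m1, n4v := m2, n4e := m3, o4y := F.o4y, o4m := F.o4m,
        s1 := hs1, s2 := hs2, y1 := by linear_combination hy + 2 * hl,
        y2 := by linear_combination hy3, b1 := b0, b2 := b1 }
      have := wa12_0 R hs1 hs2 R.y1 R.y2 b0 b1
      unfold fBoxWA12 at this
      linear_combination this
    rcases le_total y (17 / 20) with hy4 | hy4
    · have R : RwA13 s y b k M1 M2 M3 M4 G1 G2 G3 G4 := {
        k1 := A.k1, k2 := A.k2, h1 := hl, h2 := hh, h3 := A.h3, k3 := k0, k4 := k4, hq := A.hq,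
        ys := h1, yh := h2, x0 := hy4, n1x := F.n1x, n1e := F.n1e, o11 := F.o11,
        o1y := F.o1y, n2h := F.n2h, n2v := F.n2v, n2e := F.n2e hy, o2m := F.o2m,
        o2y := F.o2y hy, n3x := F.n3x, n3e := F.n3e hy3, o3h := F.o3h,
        n4x := m1, n4v := m2, n4e := m3, o4y := F.o4y, o4m := F.o4m,
        s1 := hs1, s2 := hs2, y1 := by linear_combination hy3,
        y2 := by linear_combination hy4, b1 := b0, b2 := b1 }
      have := wa13_0 R hs1 hs2 R.y1 R.y2 b0 b1
      unfold fBoxWA13 at this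
      linear_combination this
    have hb' := hb hy4
    rcases le_total y (h0 - 1 / 500) with ht | ht
    · have R : RwA14 s y b k M1 M2 M3 M4 G1 G2 G3 G4 := {
        k1 := A.k1, k2 := A.k2, h1 := hl, h2 := hh, h3 := A.h3, k3 := k0, k4 := k4, hq := A.hq,
        ys := h1, yh := h2, x0 := hy4, x1 := ht, n1x := F.n1x, n1e := F.n1e, o11 := F.o11,
        o1y := F.o1y, n2h := F.n2h, n2v := F.n2v, n2e := F.n2e hy, o2m := F.o2m,
        o2y := F.o2y hy, n3x := F.n3x, n3e := F.n3e hy3, o3h := F.o3h,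
        n4x := m1, n4v := m2, n4e := m3, o4y := F.o4y, o4m := F.o4m,
        s1 := hs1, s2 := hs2, y1 := by linear_combination hy4,
        y2 := by linear_combination h2 + hh, b1 := b0, b2 := hb' }
      have := wa14_0 R hs1 hs2 R.y1 R.y2 b0 hb'
      unfold fBoxWA14 at this
      linear_combination this
    · obtain ⟨u, hu0⟩ : ∃ u, u = h0 - y := ⟨_, rfl⟩
      have m := mt1_aux (β := 375 / 1000) (B := 96 / 10) (S := 609 / 1000) (κ := 77 / 100)
        (G := 793 / 1000) (u := u) A hs1 (by linear_combination h2 - hu0) (by linear_combination ht + hu0) (by linear_combination hb')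
        (by norm_num) (by norm_num) (by norm_num) (by linear_combination hs2)
        (by norm_num) (by norm_num) (by norm_num) (by norm_num) (by norm_num)
      have hp := A.p_eq
      have hq := A.q_eq
      have e1 : ph p = 1 / 2 + 1 / 2 * ph b - h0 * b := by
        have := A.gp
        unfold Four.Low.ph
        linear_combination -this
      have e2 : ph q = 1 / 2 + 1 / 2 * ph b + h0 * b := by
        have := A.gq
        unfold Four.Low.ph
        linear_combination -this
      rw [e1, e2, show h0 - u = y by linear_combination -hu0, show s + u = h0 + s - y by linear_combination hu0,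
        show p - u = y - b / 2 - k by linear_combination -hu0 + hp, show q - u = y + b / 2 - k by linear_combination -hu0 + hq] at m
      have := F.n1x
      have := F.n2h
      have := F.n3x
      have := F.o1y
      have := F.o2y hy
      have := F.o3h
      have := F.o4y
      linear_combination m3 + m + this + (‹1 - 1 / 2 - 1 / 2 * ph b + h0 * b + ph (y - b / 2 - k) - ph (1 - h0) ≤ M1›) +
        (‹1 - 1 / 2 - 1 / 2 * ph b + h0 * b + ph (y - b / 2 - k) - ph (h0 + s - 1) ≤ M2›) +
        (‹1 - 1 / 2 - 1 / 2 * ph b + h0 * b + ph (y - b / 2 - k) - ph (1 - h0) ≤ M3›) + (‹M1 - ph (h0 + s - y) + ph (h0 + s - 1) ≤ G1›) +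
        (‹M2 - ph (h0 + s - y) + ph (1 - h0) ≤ G2›) + (‹M3 - 1 / 2 - 1 / 2 * ph b - h0 * b + ph (y + b / 2 - k) - ph (1 - h0) ≤ G3›)
  · rcases le_total y (2 * h0 - 1) with hy | hy
    · have R : RwB11 s y b k M1 M2 M3 M4 G1 G2 G3 G4 := {
        k1 := A.k1, k2 := A.k2, h1 := hl, h2 := hh, h3 := A.h3, k3 := k0, k4 := k4, hq := A.hq,
        ys := h1, yh := h2, yt := hy, n1x := F.n1x, n1e := F.n1e, o11 := F.o11,
        o1y := F.o1y, n2h := F.n2h, n2v := F.n2v, o2m := F.o2m,
        o2l := F.o2l hy, n3x := F.n3x, o3h := F.o3h,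
        n4a := m1, n4b := m2, o4y := F.o4y, o4m := F.o4m,
        s1 := hs1, s2 := hs2, y1 := by linear_combination hs1 + h1,
        y2 := by linear_combination hy + 2 * hh, b1 := b0, b2 := b1 }
      have := wb11_0 R hs1 hs2 R.y1 R.y2 b0 b1
      unfold fBoxWB11 at this
      linear_combination this
    rcases le_total y (4 / 5) with hy3 | hy3
    · have R : RwB12 s y b k M1 M2 M3 M4 G1 G2 G3 G4 := {
        k1 := A.k1, k2 := A.k2, h1 := hl, h2 := hh, h3 := A.h3, k3 := k0, k4 := k4, hq := A.hq,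
        ys := h1, yh := h2, yt := hy, n1x := F.n1x, n1e := F.n1e, o11 := F.o11,
        o1y := F.o1y, n2h := F.n2h, n2v := F.n2v, n2e := F.n2e hy, o2m := F.o2m,
        o2y := F.o2y hy, n3x := F.n3x, o3h := F.o3h,
        n4a := m1, n4b := m2, o4y := F.o4y, o4m := F.o4m,
        s1 := hs1, s2 := hs2, y1 := by linear_combination hy + 2 * hl,
        y2 := by linear_combination hy3, b1 := b0, b2 := b1 }
      have := wb12_0 R hs1 hs2 R.y1 R.y2 b0 b1
      unfold fBoxWB12 at this
      linear_combination this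
    · have R : RwB13 s y b k M1 M2 M3 M4 G1 G2 G3 G4 := {
        k1 := A.k1, k2 := A.k2, h1 := hl, h2 := hh, h3 := A.h3, k3 := k0, k4 := k4, hq := A.hq,
        ys := h1, yh := h2, n1x := F.n1x, n1e := F.n1e, o11 := F.o11,
        o1y := F.o1y, n2h := F.n2h, n2v := F.n2v, n2e := F.n2e hy, o2m := F.o2m,
        o2y := F.o2y hy, n3x := F.n3x, n3e := F.n3e hy3, o3h := F.o3h,
        n4a := m1, n4b := m2, o4y := F.o4y, o4m := F.o4m,
        s1 := hs1, s2 := hs2, y1 := by linear_combination hy3,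
        y2 := by linear_combination h2 + hh, b1 := b0, b2 := b1 }
      have := wb13_0 R hs1 hs2 R.y1 R.y2 b0 b1
      unfold fBoxWB13 at this
      linear_combination this

theorem mw_2 (hs1 : 57 / 100 ≤ s) (hs2 : s ≤ 607 / 1000) (A : Ak r p q b k)
    (h1 : s ≤ y) (h2 : y ≤ h0) (hb : 17 / 20 ≤ y → b ≤ 3 / 8)
    (F : F2 s y b k M1 M2 M3 M4 G1 G2 G3 G4) :
    8 * ph y - 4 * ph s ≤ G1 + G2 + G3 + G4 := by
  have hh : h0 ≤ 86603 / 100000 := Four.Low.h0_hi
  have hl : 86602 / 100000 ≤ h0 := Four.Low.h0_lo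
  have b0 := A.h.b0
  have b1 := A.h.b1
  have k0 := A.k3
  have k4 := A.k4
  have kb := A.k2
  rcases F.n4 with m3 | ⟨m1, m2⟩
  · rcases le_total y (2 * h0 - 1) with hy | hy
    · rcases le_total ((y - s) + b) (1 / 100) with hc | hc
      · have := mc2 hs1 (by linear_combination hs2) h1 b0 hc k0 kb
        have := F.o2l hy
        have := F.n1x
        have := F.n2h
        have := F.n3x
        have := F.o1y
        have := F.o11
        have := F.o2m
        have := F.o3h
        have := F.o4y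
        linear_combination m3 + this + (‹0 ≤   1 - 2 * ph (h0 + s - y) - 3 * ph b + 3 * ph (y + b / 2 - k) + ph (y - b / 2 - k) + 4 * ph s - 8 * ph y +       (ph (y - b / 2 - k + h0 - 1) - ph (h0 + s - 1)) +     (ph (y - b / 2 - k - h0 - s + 1) - ph (1 - h0))›) +
          (‹1 - 1 / 2 - 1 / 2 * ph b - h0 * b + ph (y + b / 2 - k) - ph (1 - h0) ≤ M1›) + (‹1 - 1 / 2 - 1 / 2 * ph b - h0 * b + ph (y + b / 2 - k) - ph (h0 + s - 1) ≤ M2›) +
          (‹1 - 1 / 2 - 1 / 2 * ph b - h0 * b + ph (y + b / 2 - k) - ph (1 - h0) ≤ M3›) + (‹M1 - 1 / 2 - 1 / 2 * ph b + h0 * b + ph (y - b / 2 - k + h0 - 1) ≤ G1›) +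
          (‹M2 - 1 / 2 - 1 / 2 * ph b + h0 * b + ph (y - b / 2 - k - h0 - s + 1) ≤ G2›) + (‹M3 - 1 / 2 - 1 / 2 * ph b + h0 * b + ph (y - b / 2 - k) - ph (1 - h0) ≤ G3›)
      · have R : RwA21 s y b k M1 M2 M3 M4 G1 G2 G3 G4 := {
          k1 := A.k1, k2 := A.k2, h1 := hl, h2 := hh, h3 := A.h3, k3 := k0, k4 := k4, hq := A.hq,
          ys := h1, yh := h2, yt := hy, x0 := hc, n1x := F.n1x, n1e := F.n1e, o11 := F.o11,
          o1y := F.o1y, n2h := F.n2h, o2m := F.o2m,
          o2l := F.o2l hy, n3x := F.n3x, o3h := F.o3h,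
          n4e := m3, o4y := F.o4y, o4m := F.o4m, o4v := F.o4v,
          s1 := hs1, s2 := hs2, y1 := by linear_combination hs1 + h1,
          y2 := by linear_combination hy + 2 * hh, b1 := b0, b2 := b1 }
        have := wa21_0 R hs1 hs2 R.y1 R.y2 b0 b1
        unfold fBoxWA21 at this
        linear_combination this
    rcases le_total y (4 / 5) with hy3 | hy3
    · have R : RwA22 s y b k M1 M2 M3 M4 G1 G2 G3 G4 := {
        k1 := A.k1, k2 := A.k2, h1 := hl, h2 := hh, h3 := A.h3, k3 := k0, k4 := k4, hq := A.hq,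
        ys := h1, yh := h2, yt := hy, n1x := F.n1x, n1e := F.n1e, o11 := F.o11,
        o1y := F.o1y, n2h := F.n2h, n2e := F.n2e hy, o2m := F.o2m,
        o2y := F.o2y hy, n3x := F.n3x, o3h := F.o3h,
        n4e := m3, o4y := F.o4y, o4m := F.o4m, o4v := F.o4v,
        s1 := hs1, s2 := hs2, y1 := by linear_combination hy + 2 * hl,
        y2 := by linear_combination hy3, b1 := b0, b2 := b1 }
      have := wa22_0 R hs1 hs2 R.y1 R.y2 b0 b1
      unfold fBoxWA22 at this
      linear_combination this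
    rcases le_total y (17 / 20) with hy4 | hy4
    · have R : RwA23 s y b k M1 M2 M3 M4 G1 G2 G3 G4 := {
        k1 := A.k1, k2 := A.k2, h1 := hl, h2 := hh, h3 := A.h3, k3 := k0, k4 := k4, hq := A.hq,
        ys := h1, yh := h2, x0 := hy4, n1x := F.n1x, n1e := F.n1e, o11 := F.o11,
        o1y := F.o1y, n2h := F.n2h, n2e := F.n2e hy, o2m := F.o2m,
        o2y := F.o2y hy, n3x := F.n3x, n3e := F.n3e hy3, o3h := F.o3h,
        n4e := m3, o4y := F.o4y, o4m := F.o4m, o4v := F.o4v,
        s1 := hs1, s2 := hs2, y1 := by linear_combination hy3,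
        y2 := by linear_combination hy4, b1 := b0, b2 := b1 }
      have := wa23_0 R hs1 hs2 R.y1 R.y2 b0 b1
      unfold fBoxWA23 at this
      linear_combination this
    have hb' := hb hy4
    rcases le_total y (h0 - 1 / 100) with ht | ht
    · have R : RwA24 s y b k M1 M2 M3 M4 G1 G2 G3 G4 := {
        k1 := A.k1, k2 := A.k2, h1 := hl, h2 := hh, h3 := A.h3, k3 := k0, k4 := k4, hq := A.hq,
        ys := h1, yh := h2, x0 := hy4, x1 := ht, n1x := F.n1x, n1e := F.n1e, o11 := F.o11,
        o1y := F.o1y, n2h := F.n2h, n2e := F.n2e hy, o2m := F.o2m,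
        o2y := F.o2y hy, n3x := F.n3x, n3e := F.n3e hy3, o3h := F.o3h,
        n4e := m3, o4y := F.o4y, o4m := F.o4m, o4v := F.o4v,
        s1 := hs1, s2 := hs2, y1 := by linear_combination hy4,
        y2 := by linear_combination h2 + hh, b1 := b0, b2 := hb' }
      have := wa24_0 R hs1 hs2 R.y1 R.y2 b0 hb'
      unfold fBoxWA24 at this
      linear_combination this
    · obtain ⟨u, hu0⟩ : ∃ u, u = h0 - y := ⟨_, rfl⟩
      have hp := A.p_eq
      have m := mt2 hs1 (by linear_combination hs2) (u := u) (p := p) (by linear_combination h2 - hu0) (by linear_combination ht + hu0) A.h.p1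
        (by linear_combination (1 / 2) * b0 + k0 + hp)
      have e1 : ph p = 1 / 2 + 1 / 2 * ph b - h0 * b := by
        have := A.gp
        unfold Four.Low.ph
        linear_combination -this
      rw [e1, show h0 - u = y by linear_combination -hu0, show h0 + u = 2 * h0 - y by linear_combination hu0,
        show s + 1 - h0 + u = s + 1 - y by linear_combination hu0,
        show 9 / 5 - h0 + u = 9 / 5 - y by linear_combination hu0, show s + u = h0 + s - y by linear_combination hu0,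
        show p - u = y - b / 2 - k by linear_combination -hu0 + hp] at m
      have := F.n1e
      have := F.n2e hy
      have := F.n3e hy3
      have := F.o1y
      have := F.o2y hy
      have := F.o3h
      have := F.o4y
      linear_combination m3 + m + this + (‹1 - ph (s + 1 - y) + ph (s + 1 - h0) - ph (1 - h0) ≤ M1›) +
        (‹3 / 2 - ph (2 * h0 - y) - ph (h0 + s - 1) ≤ M2›) + (‹1 - ph (9 / 5 - y) + ph (9 / 5 - h0) - ph (1 - h0) ≤ M3›) +
        (‹M1 - ph (h0 + s - y) + ph (h0 + s - 1) ≤ G1›) + (‹M2 - ph (h0 + s - y) + ph (1 - h0) ≤ G2›) +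
        (‹M3 - 1 / 2 - 1 / 2 * ph b + h0 * b + ph (y - b / 2 - k) - ph (1 - h0) ≤ G3›)
  · rcases le_total y (2 * h0 - 1) with hy | hy
    · have R : RwB21 s y b k M1 M2 M3 M4 G1 G2 G3 G4 := {
        k1 := A.k1, k2 := A.k2, h1 := hl, h2 := hh, h3 := A.h3, k3 := k0, k4 := k4, hq := A.hq,
        ys := h1, yh := h2, yt := hy, n1x := F.n1x, n1e := F.n1e, o11 := F.o11,
        o1y := F.o1y, n2h := F.n2h, o2m := F.o2m,
        o2l := F.o2l hy, n3x := F.n3x, o3h := F.o3h,
        n4a := m1, n4b := m2, o4y := F.o4y, o4m := F.o4m, o4v := F.o4v,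
        s1 := hs1, s2 := hs2, y1 := by linear_combination hs1 + h1,
        y2 := by linear_combination hy + 2 * hh, b1 := b0, b2 := b1 }
      have := wb21_0 R hs1 hs2 R.y1 R.y2 b0 b1
      unfold fBoxWB21 at this
      linear_combination this
    rcases le_total y (4 / 5) with hy3 | hy3
    · have R : RwB22 s y b k M1 M2 M3 M4 G1 G2 G3 G4 := {
        k1 := A.k1, k2 := A.k2, h1 := hl, h2 := hh, h3 := A.h3, k3 := k0, k4 := k4, hq := A.hq,
        ys := h1, yh := h2, yt := hy, n1x := F.n1x, n1e := F.n1e, o11 := F.o11,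
        o1y := F.o1y, n2h := F.n2h, n2e := F.n2e hy, o2m := F.o2m,
        o2y := F.o2y hy, n3x := F.n3x, o3h := F.o3h,
        n4a := m1, n4b := m2, o4y := F.o4y, o4m := F.o4m, o4v := F.o4v,
        s1 := hs1, s2 := hs2, y1 := by linear_combination hy + 2 * hl,
        y2 := by linear_combination hy3, b1 := b0, b2 := b1 }
      have := wb22_0 R hs1 hs2 R.y1 R.y2 b0 b1
      unfold fBoxWB22 at this
      linear_combination this
    · have R : RwB23 s y b k M1 M2 M3 M4 G1 G2 G3 G4 := {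
        k1 := A.k1, k2 := A.k2, h1 := hl, h2 := hh, h3 := A.h3, k3 := k0, k4 := k4, hq := A.hq,
        ys := h1, yh := h2, n1x := F.n1x, n1e := F.n1e, o11 := F.o11,
        o1y := F.o1y, n2h := F.n2h, n2e := F.n2e hy, o2m := F.o2m,
        o2y := F.o2y hy, n3x := F.n3x, n3e := F.n3e hy3, o3h := F.o3h,
        n4a := m1, n4b := m2, o4y := F.o4y, o4m := F.o4m, o4v := F.o4v,
        s1 := hs1, s2 := hs2, y1 := by linear_combination hy3,
        y2 := by linear_combination h2 + hh, b1 := b0, b2 := b1 }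
      have := wb23_0 R hs1 hs2 R.y1 R.y2 b0 b1
      unfold fBoxWB23 at this
      linear_combination this

theorem midW (P : FourF.Par s e w) (hs : s ≤ 607 / 1000) : MidW s e := by
  intro y r h1 h2 r1 r2 w1 w2
  obtain ⟨p, q, b, k, A⟩ := ak_exists r1 r2
  have hp := A.p_eq
  have hq := A.q_eq
  have hrhs : 4 * (1 + g s - 2 * g y) = 8 * ph y - 4 * ph s := by
    unfold Four.Low.ph
    ring
  rw [hrhs]
  unfold FourF.mid
  rcases A.h.two with ⟨e1, e2⟩ | ⟨e1, e2⟩
  · obtain ⟨M1, M2, M3, M4, F⟩ := facts_1 P A e1 e2 h1 h2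
    refine mw_1 P.s0 hs A h1 h2 (fun h => ?_) F
    have := w1 h
    linear_combination hp - hq - e1 + e2 + this
  · obtain ⟨M1, M2, M3, M4, F⟩ := facts_2 P A e1 e2 h1 h2
    refine mw_2 P.s0 hs A h1 h2 (fun h => ?_) F
    have := w2 h
    linear_combination hp - hq + e1 - e2 + this

theorem midW_par {t : ℝ} (P : Par s t) : MidW s (h0 + s - 1) := by
  obtain ⟨e, w, Q⟩ := FourF.par_exists P.s0 (by linear_combination P.s1)
  have := midW Q P.s1
  rwa [Q.he] at this

end

end Pool.Agent.Strip051.FourG
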