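import Pool.Agent.Strip051.FourF.HighAbove
import Pool.Agent.Strip051.FourG.HighSum
import Pool.Agent.Strip051.FourG.Low
import Pool.Agent.Strip051.FourG.Main
import Pool.Agent.Strip051.FourG.MidW
import Pool.Agent.Strip051.FourG.MidO

/-! # At most two rows for `57 / 100 ≤ s ≤ 607 / 1000` -/

namespace Pool.Agent.Strip051.FourG

open Pool.Agent.StripNear Pool.Agent.StripSquare Pool.Agent.Strip051

/-- The new point is above `h0`. -/
theorem highC {s t : ℝ} (P : Par s t) : HighC s (h0 + s - 1) t := by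
  intro y r q y0 y1 r1 r2 _ _ q1 q2 hq hc
  have s0 := P.s0
  have s1 := P.s1
  obtain ⟨e, w, Q⟩ := FourF.par_exists s0 (by linarith)
  have he := Q.he
  subst he
  rcases le_total y 1 with h | h
  · obtain ⟨d, d1, d2, d3, hm⟩ := FourF.MB.mid_highA (q := q) Q r1 r2 y0 h
    exact hs_lowG P rfl y0 h q1 q2 hq hc d1 d2 d3 hm
  · exact hs_topG P rfl h y1 (FourF.HM.mid_top Q h y1)

/-- At most two rows for `57 / 100 ≤ s ≤ 607 / 1000`. -/
theorem countBound {s : ℝ} (h1 : 57 / 100 ≤ s) (h2 : s ≤ 607 / 1000) : CountBound 2 s := by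
  obtain ⟨t, P⟩ := par_exists h1 h2
  exact count P (LA.win P) (LA.out P) (LA.insd P) (LA.rim P) (LA.high P) (midW_par P)
    (midO_par P) (midI_par P) (highC P)

end Pool.Agent.Strip051.FourG
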