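import Pool.Agent.Strip051.FourG.Defs
import Pool.Agent.Strip051.FourC.Box

/-! # The regions of the boxes -/

namespace Pool.Agent.Strip051.FourG.LA

open Pool.Agent.StripNear Pool.Agent.StripSquare Pool.Agent.Strip051
open Pool.Agent.Strip051.Four.Low (ph)

/-- The numbers `s`, `b = |ext r - r|`, `t = s - y`, `k = h0 ph b`: the common constraints. -/
structure Num (s b t k : ℝ) : Prop where
  k1 : 86602 / 100000 * ph b ≤ k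
  k2 : k ≤ 86603 / 100000 * ph b
  h1 : 86602 / 100000 ≤ h0
  h2 : h0 ≤ 86603 / 100000
  h3 : 86602 / 100000 * b ≤ h0 * b
  h4 : h0 * b ≤ 86603 / 100000 * b
  s1 : 57 / 100 ≤ s
  s2 : s ≤ 607 / 1000
  b1 : 0 ≤ b
  b2 : b ≤ 1 / 2
  t1 : 0 ≤ t
  t2 : t ≤ 1725 / 10000
  k3 : 0 ≤ k
  k4 : k ≤ 1161 / 10000
  hz : h0 + b / 2 - k ≤ 1

/-- Lower bounds for the gains of the four bodies, `r ≤ ext r`. -/
structure RegA (s b t k G1 G2 G3 G4 : ℝ) : Prop extends Num s b t k where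
  n1 : 0 ≤ G1
  n2 : 0 ≤ G2
  n3 : 0 ≤ G3
  n4 : 0 ≤ G4
  ph1 : -ph b - ph (1 - h0) + ph (s - t + b / 2 - k) + ph (h0 + s - 1 - t - b / 2 - k) ≤ G1
  qh1 : -ph b - ph (1 - h0) + ph (s - t + b / 2 - k) + ph (h0 + s - 1 - t - b / 2 - k) ≤ G2
  qhh : -ph b - 2 * ph (1 - h0) + ph (s - t + b / 2 - k) + ph (s - t - b / 2 - k) ≤ G2
  rh1 : -ph b - ph (h0 + s - 1) + ph (s - t + b / 2 - k) + ph (h0 - 1 + t + b / 2 + k) ≤ G3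
  sHH : 0 ≤ 1 - h0 - t - b / 2 - k → -ph b + ph (h0 - 1 + t + b / 2 + k) + ph (1 - h0 - t +
    b / 2 - k) ≤ G4
  syv : 0 ≤ b / 2 - t - k → 0 ≤ h0 - t - b - 2 * k → -1 / 2 * ph b + ph (t + b / 2 + k) -
    ph (h0 + t) + 1 / 2 + h0 * b ≤ G4

/-- Lower bounds for the gains of the four bodies, `ext r ≤ r`. -/
structure RegB (s b t k G1 G2 G3 G4 : ℝ) : Prop extends Num s b t k where
  n1 : 0 ≤ G1
  n2 : 0 ≤ G2
  n3 : 0 ≤ G3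
  n4 : 0 ≤ G4
  ph1 : -ph b - ph (1 - h0) + ph (s - t - b / 2 - k) + ph (h0 + s - 1 - t + b / 2 - k) ≤ G1
  phs : -ph b - ph (1 - h0) + ph (h0 + s - 1) + ph (s - t - b / 2 - k) + ph (h0 - t + b / 2 -
    k) - 1 / 2 ≤ G1
  pvs : 0 ≤ b / 2 - t - k → -ph b + ph (t + b / 2 + k) + ph (h0 - t + b / 2 - k) - 1 / 2 ≤ G1
  qhh : -ph b - 2 * ph (1 - h0) + ph (s - t - b / 2 - k) + ph (s - t + b / 2 - k) ≤ G2
  q1h : 0 ≤ h0 + s - 1 - t + b / 2 - k → -ph b - ph (1 - h0) + ph (h0 + s - 1 - t - b / 2 - k) +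
    ph (s - t + b / 2 - k) ≤ G2
  qhw : 0 ≤ 1 - h0 - t → -1 / 2 * ph b - ph (1 - h0) + ph (h0 + s - 1) + ph (s - t - b / 2 -
    k) - ph (s - t) - 281 / 200 + 2 * s + h0 * b ≤ G2
  q1w : 0 ≤ 1 - h0 - t → 0 ≤ h0 + s - 1 - t + b / 2 - k → -1 / 2 * ph b + ph (h0 + s - 1) +
    ph (h0 + s - 1 - t - b / 2 - k) - ph (s - t) - 281 / 200 + 2 * s + h0 * b ≤ G2
  qhy : 0 ≤ h0 - 1 + t → -1 / 2 * ph b - ph (1 - h0) + ph (s - t - b / 2 - k) - ph (2 * h0 - 1 +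
    t) - 181 / 200 + 2 * s + h0 * b ≤ G2
  rh1 : -ph b - ph (h0 + s - 1) + ph (s - t - b / 2 - k) + ph (1 - h0 - t + b / 2 - k) ≤ G3
  rv2 : 0 ≤ b / 2 - t - k → -ph b - ph (s - h0 + 1) + ph (t + b / 2 + k) + ph (s - h0 + 1 - t +
    b / 2 - k) ≤ G3
  rh2 : -ph b + ph (1 - h0) - ph (h0 + s - 1) - ph (s - h0 + 1) + ph (s - t - b / 2 - k) +
    ph (s - h0 + 1 - t + b / 2 - k) ≤ G3
  sHH : 0 ≤ 1 - h0 - t + b / 2 - k → -ph b + ph (1 - h0 - t + b / 2 - k) + ph (h0 - 1 + t +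
    b / 2 + k) ≤ G4
  svl : 0 ≤ b / 2 - t - k → 0 ≤ 2 * h0 - 9 / 5 + t → -ph b - ph (9 / 5 - h0) + ph (t + b / 2 +
    k) + ph (9 / 5 - h0 - t + b / 2 - k) ≤ G4
  svy : 0 ≤ b / 2 - t - k → 0 ≤ 9 / 5 - 2 * h0 - t → -1 / 2 * ph b + ph (t + b / 2 + k) -
    ph (h0 + t) + 1 / 2 + h0 * b ≤ G4
  sHy : 0 ≤ 1 - h0 - t + b / 2 - k → 0 ≤ 9 / 5 - 2 * h0 - t → -1 / 2 * ph b + ph (1 - h0) +
    ph (h0 - 1 + t + b / 2 + k) - ph (h0 + t) + 1 / 2 + h0 * b ≤ G4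

/-- Lower bounds for the gains of the four bodies, higher upper disc. -/
structure RegH (s b t k G1 G2 G3 G4 : ℝ) : Prop extends Num s b t k where
  n1 : 0 ≤ G1
  n2 : 0 ≤ G2
  n3 : 0 ≤ G3
  n4 : 0 ≤ G4
  ph1 : -ph (1 - h0) + ph (s - t + b / 2 - k) - ph (s + 3 / 200 - t) + ph (203 / 200 - h0 -
    b / 2 + k) ≤ G1
  qh1 : -ph (1 - h0) + ph (s - t + b / 2 - k) - ph (s + 3 / 200 - t) + ph (203 / 200 - h0 -
    b / 2 + k) ≤ G2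
  rh1 : -ph (h0 + s - 1) + ph (s - t + b / 2 - k) - ph (s + 3 / 200 - t) + ph (h0 + s -
    197 / 200 - b / 2 + k) ≤ G3
  syv : 0 ≤ b / 2 - t - k → 1 / 2 * ph b - ph (h0 + t) - ph (s + 3 / 200 - t) + ph (s +
    3 / 200 - b / 2 + k) + 1 / 2 + h0 * b ≤ G4

end Pool.Agent.Strip051.FourG.LA
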