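import Pool.Agent.Strip051.FourC.Fronts

/-! # Eight probes for the strip of height `2 h0 + s`, `57 / 100 ≤ s ≤ 607 / 1000`

Besides the point of the floor and the unit arc at the floor there are two bodies `P` and `Q` with
a peak at the height one, and the mirror images. The body `Q` has a wing at the height
`h0 + s - 1`. -/

namespace Pool.Agent.Strip051.FourG

open Pool.Agent.StripNear Pool.Agent.StripSquare Pool.Agent.Strip051
open Pool.Agent.Strip051.Four (mirP j1 gn mirP_ok mirP_val mirP_gn mirP_mirP gam_neg arc_sub le_gn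
  gn_nonneg adm_low g_le_of_abs ext_facts)
open Pool.Agent.Strip051.FourC (k0 j4 k5 ga gn_eq le_ga ga_nonneg ga_mono mirP_ga vir_floor
  vir_floor_le)

/-! ### The two bodies -/

/-- The body `P`: two unit arcs. -/
noncomputable def aP (s z : ℝ) : ℝ :=
  min (g (z - (h0 + s)) - g (h0 + s - 1)) (g (z - h0) - g (1 - h0))

/-- The body `Q`: two unit arcs and the wing. -/
noncomputable def aQ (s z : ℝ) : ℝ :=
  if z ≤ h0 + s - 1 then g (z - (2 * h0 + s - 1)) - 1 / 2 - (381 / 200 - 2 * s)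
  else if z < h0 then -10
  else min (g (z - 1) - 1) (g (z - h0) - g (1 - h0))

/-- The probe `P`. -/
noncomputable def jP (s : ℝ) : Probe := ⟨s, 1 + s, aP s⟩

/-- The probe `Q`. -/
noncomputable def jQ (s : ℝ) : Probe := ⟨2 * h0 + s - 2, 9 / 5, aQ s⟩

/-- The mirror image of `P`. -/
noncomputable def jR (s : ℝ) : Probe := mirP (2 * h0 + s) (jP s)

/-- The mirror image of `Q`. -/
noncomputable def jS (s : ℝ) : Probe := mirP (2 * h0 + s) (jQ s)

/-- The range of the bodies. -/
structure Bd (s : ℝ) : Prop where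
  lo : 57 / 100 ≤ s
  hi : s ≤ 17 / 25

/-- A unit arc above the body of the probe. -/
def Up (j : Probe) (x α : ℝ) : Prop := ∀ z, j.lo ≤ z → z ≤ j.hi → j.a z ≤ g (z - x) + α

/-- A point of the probe and a lower bound for the body there. -/
def At (j : Probe) (z β : ℝ) : Prop := j.lo ≤ z ∧ z ≤ j.hi ∧ β ≤ j.a z

theorem Up.mir {j : Probe} {x α : ℝ} (h : Up j x α) (H : ℝ) : Up (mirP H j) (H - x) α := by
  intro z h1 h2
  simp only [mirP] at h1 h2 ⊢
  have := h (H - z) (by linear_combination h2) (by linear_combination h1)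
  rwa [show H - z - x = -(z - (H - x)) by ring, g_neg] at this

theorem At.mir {j : Probe} {z β : ℝ} (h : At j z β) (H : ℝ) : At (mirP H j) (H - z) β := by
  obtain ⟨h1, h2, h3⟩ := h
  refine ⟨?_, ?_, ?_⟩
  · simp only [mirP]
    linear_combination h2
  · simp only [mirP]
    linear_combination h1
  · simp only [mirP]
    rw [sub_sub_cancel]
    exact h3

section

variable {s : ℝ}

theorem jP_ok (B : Bd s) : (jP s).Ok (2 * h0 + s) := by
  have hh := h0_gt
  have := B.lo
  refine ⟨by simp only [jP]; linear_combination this, by simp only [jP]; linear_combination, by simp only [jP]; linear_combination 2 * hh, 1,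
    fun z _ _ => ?_⟩
  have h1 := g_le_one (z - (h0 + s))
  have h2 := g_nonneg (h0 + s - 1)
  exact (min_le_left _ _).trans (by linear_combination h1 + h2)

theorem aQ_le_one (s z : ℝ) (B : Bd s) : aQ s z ≤ 1 := by
  have := B.hi
  unfold aQ
  split
  · have h1 := g_le_one (z - (2 * h0 + s - 1))
    linear_combination 2 * this + h1
  · split
    · norm_num
    · have h1 := g_le_one (z - 1)
      exact (min_le_left _ _).trans (by linear_combination h1)

theorem jQ_ok (B : Bd s) : (jQ s).Ok (2 * h0 + s) := by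
  have hh := h0_gt
  have hl := h0_lt
  have := B.lo
  have := B.hi
  exact ⟨by simp only [jQ]; linear_combination 2 * hh + (‹57 / 100 ≤ s›), by simp only [jQ]; linear_combination 2 * hl + this, by simp only [jQ]; linear_combination 2 * hh + (‹57 / 100 ≤ s›), 1,
    fun z _ _ => aQ_le_one s z B⟩

theorem jR_ok (B : Bd s) : (jR s).Ok (2 * h0 + s) := mirP_ok (jP_ok B)

theorem jS_ok (B : Bd s) : (jS s).Ok (2 * h0 + s) := mirP_ok (jQ_ok B)

theorem jR_gn (s r q y : ℝ) : gn (jR s) r q y = gn (jP s) q r (2 * h0 + s - y) :=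
  mirP_gn _ _ _ _ _

theorem jS_gn (s r q y : ℝ) : gn (jS s) r q y = gn (jQ s) q r (2 * h0 + s - y) :=
  mirP_gn _ _ _ _ _

/-! ### The arcs of `P` -/

theorem upP_v (s : ℝ) : Up (jP s) (h0 + s) (-g (h0 + s - 1)) := fun z _ _ =>
  (min_le_left _ _).trans (by linear_combination)

theorem upP_h (s : ℝ) : Up (jP s) h0 (-g (1 - h0)) := fun z _ _ =>
  (min_le_right _ _).trans (by linear_combination)

theorem atP_1 (B : Bd s) : At (jP s) 1 0 := by
  have := B.lo
  have := B.hi
  refine ⟨by simp only [jP]; linear_combination this, by simp only [jP]; linear_combination (‹57 / 100 ≤ s›), ?_⟩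
  simp only [jP, aP]
  rw [show (1 : ℝ) - (h0 + s) = -(h0 + s - 1) by ring, g_neg, sub_self, sub_self, min_self]

theorem g_small (B : Bd s) : 95 / 100 ≤ g (h0 - s) ∧ g (h0 + s - 1) ≤ 91 / 100 ∧
    83 / 100 ≤ g (h0 + s - 1) := by
  have hh := h0_gt
  have hl := h0_lt
  have h1 := B.lo
  have h2 := B.hi
  have e1 := g_sq (r := h0 - s) (by linear_combination (241 / 500) * h1 + 5922 * (mul_pos (sub_pos.mpr hh) (sub_pos.mpr hl)) +
    2 * (mul_nonneg (sub_nonneg.mpr (le_of_lt hh)) (sub_nonneg.mpr h1)) + 5921 * (mul_pos (sub_pos.mpr hl) (sub_pos.mpr hl)) +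
    (mul_nonneg (sub_nonneg.mpr h1) (sub_nonneg.mpr h2)))
  have e2 := g_nonneg (h0 - s)
  have e3 := g_sq (r := h0 + s - 1) (by linear_combination (10921 / 10000) * hl + (491 / 500) * h2 + (mul_pos (sub_pos.mpr hh) (sub_pos.mpr hl)) +
    2 * (mul_nonneg (sub_nonneg.mpr (le_of_lt hh)) (sub_nonneg.mpr h2)) + (mul_nonneg (sub_nonneg.mpr h1) (sub_nonneg.mpr h2)))
  have e4 := g_nonneg (h0 + s - 1)
  refine ⟨?_, ?_, ?_⟩ <;> nlinarith

theorem g_const : 99 / 100 ≤ g (1 - h0) ∧ g (1 - h0) ≤ 992 / 1000 := by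
  have hh := h0_gt
  have hl := h0_lt
  have e1 := g_sq (r := 1 - h0) (by linear_combination (2679 / 10000) * hh + (mul_pos (sub_pos.mpr hh) (sub_pos.mpr hl)))
  have e2 := g_nonneg (1 - h0)
  constructor <;> nlinarith

theorem atP_s (B : Bd s) : At (jP s) s (1 / 2 - g (h0 + s - 1)) := by
  have h1 := B.lo
  have h2 := B.hi
  obtain ⟨g1, g2, g3⟩ := g_small B
  obtain ⟨g4, g5⟩ := g_const
  refine ⟨by simp only [jP]; linear_combination, by simp only [jP]; linear_combination, ?_⟩
  simp only [jP, aP]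
  rw [show s - (h0 + s) = -h0 by ring, g_neg, g_h0, show s - h0 = -(h0 - s) by ring, g_neg]
  exact le_min le_rfl (by linear_combination g1 + g3 + g5)

/-- The upper end of `P`. -/
theorem atP_t (B : Bd s) : At (jP s) (1 + s) (g (1 + s - h0) - g (1 - h0)) := by
  have hh := h0_gt
  have h1 := B.lo
  have h2 := B.hi
  obtain ⟨g1, g2, g3⟩ := g_small B
  obtain ⟨g4, g5⟩ := g_const
  refine ⟨by simp only [jP]; linear_combination, by simp only [jP]; linear_combination, ?_⟩
  simp only [jP, aP]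
  rw [show 1 + s - (h0 + s) = 1 - h0 by ring]
  refine le_min ?_ le_rfl
  have := g_sq (r := 1 + s - h0) (by linear_combination (7589 / 5000) * h2 + 16280 * (mul_pos (sub_pos.mpr h0_lt) (sub_pos.mpr hh)) +
    2 * (mul_nonneg (sub_nonneg.mpr (le_of_lt h0_lt)) (sub_nonneg.mpr h2)) + 16279 * (mul_pos (sub_pos.mpr hh) (sub_pos.mpr hh)) +
    (mul_nonneg (sub_nonneg.mpr h1) (sub_nonneg.mpr h2)))
  have := g_nonneg (1 + s - h0)
  have : g (1 + s - h0) ≤ 9 / 10 := by exact not_lt.mp (fun hg__ => absurd h1 (not_le.mpr (by linear_combination (9000 / 7039) * hg__ + (5000 / 7039) * (‹g (1 + s - h0) ^ 2 = 1 - (1 + s - h0) ^ 2›) + (70395000 / 7039) * (mul_pos (sub_pos.mpr h0_lt) (sub_pos.mpr h0_lt)) + 10000 * (mul_pos (sub_pos.mpr h0_lt) (sub_pos.mpr hh)) + (10000 / 7039) * (mul_nonneg (sub_nonneg.mpr (le_of_lt h0_lt)) (sub_nonneg.mpr h1)) + (5000 / 7039) * (mul_nonneg (sub_nonneg.mpr h1) (sub_nonneg.mpr h1)) + (5000 / 7039) * (mul_pos (sub_pos.mpr hg__) (sub_pos.mpr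 hg__)))))
  linear_combination g2 + 2 * g4 + this

/-! ### The arcs of `Q` -/

theorem aQ_wing {z : ℝ} (h : z ≤ h0 + s - 1) :
    aQ s z = g (z - (2 * h0 + s - 1)) - 1 / 2 - (381 / 200 - 2 * s) := by
  unfold aQ
  rw [if_pos h]

theorem aQ_main {z : ℝ} (B : Bd s) (h : h0 ≤ z) :
    aQ s z = min (g (z - 1) - 1) (g (z - h0) - g (1 - h0)) := by
  have := B.hi
  unfold aQ
  rw [if_neg (by exact not_le.mpr (by linear_combination h + this)), if_neg (by exact not_lt.mpr (by linear_combination h))]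

/-- The wing is low. -/
theorem wing_le (_B : Bd s) {z : ℝ} (h : z ≤ h0 + s - 1) (_h2 : 2 * h0 + s - 2 ≤ z) :
    aQ s z ≤ -(381 / 200 - 2 * s) := by
  have h3 : g (z - (2 * h0 + s - 1)) ≤ 1 / 2 := by
    rw [← g_h0, show z - (2 * h0 + s - 1) = -(2 * h0 + s - 1 - z) by ring, g_neg]
    exact g_anti h0_pos.le (by linear_combination h)
  rw [aQ_wing h]
  linear_combination h3

theorem upQ_aux (B : Bd s) {z x α : ℝ} (h1 : (jQ s).lo ≤ z) (_h2 : z ≤ (jQ s).hi)
    (hm : h0 ≤ z → min (g (z - 1) - 1) (g (z - h0) - g (1 - h0)) ≤ g (z - x) + α)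
    (hw : z ≤ h0 + s - 1 → -(381 / 200 - 2 * s) ≤ g (z - x) + α) (hα : -10 ≤ α) :
    (jQ s).a z ≤ g (z - x) + α := by
  simp only [jQ] at h1 ⊢
  rcases le_or_gt z (h0 + s - 1) with h | h
  · exact (wing_le B h h1).trans (hw h)
  · rcases lt_or_ge z h0 with h3 | h3
    · unfold aQ
      rw [if_neg (not_le.2 h), if_pos h3]
      linear_combination (g_nonneg (z - x)) + hα
    · rw [aQ_main B h3]
      exact hm h3

theorem upQ_1 (B : Bd s) : Up (jQ s) 1 (-1) := fun z h1 h2 => by
  refine upQ_aux B h1 h2 (fun _ => (min_le_left _ _).trans (by linear_combination)) (fun h => ?_)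
    (by norm_num)
  have hh := h0_gt
  have hl := h0_lt
  have b1 := B.lo
  have b2 := B.hi
  simp only [jQ] at h1
  have : 1 / 2 ≤ g (z - 1) := by
    have e : g (7 / 10) ≤ g (z - 1) := g_le_of_abs (by linear_combination h + hl + b2) (by linear_combination h1 + 2 * hh + b1)
    have e2 : (1 : ℝ) / 2 ≤ g (7 / 10) := by
      unfold g
      exact Real.le_sqrt_of_sq_le (by norm_num)
    linear_combination e + e2
  linear_combination 2 * b2 + this

theorem upQ_h (B : Bd s) : Up (jQ s) h0 (-g (1 - h0)) := fun z h1 h2 => by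
  have g5 := g_const.2
  refine upQ_aux B h1 h2 (fun _ => (min_le_right _ _).trans (by linear_combination)) (fun h => ?_)
    (by linear_combination g5)
  have hh := h0_gt
  have hl := h0_lt
  have b1 := B.lo
  have b2 := B.hi
  simp only [jQ] at h1
  have : 1 / 2 ≤ g (z - h0) := by
    have e : g (7 / 10) ≤ g (z - h0) := g_le_of_abs (by linear_combination h + b2) (by linear_combination h1 + hh + b1)
    have e2 : (1 : ℝ) / 2 ≤ g (7 / 10) := by
      unfold g
      exact Real.le_sqrt_of_sq_le (by norm_num)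
    linear_combination e + e2
  linear_combination g5 + 2 * b2 + this

theorem atQ_1 (B : Bd s) : At (jQ s) 1 0 := by
  have hh := h0_gt
  have hl := h0_lt
  have := B.lo
  have := B.hi
  refine ⟨by simp only [jQ]; linear_combination 2 * hl + this, by simp only [jQ]; linear_combination, ?_⟩
  simp only [jQ]
  rw [aQ_main B (by linear_combination hl), sub_self, g_zero, sub_self, sub_self, min_self]

theorem atQ_h (B : Bd s) : At (jQ s) h0 (g (1 - h0) - 1) := by
  have hh := h0_gt
  have hl := h0_lt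
  have := B.lo
  have := B.hi
  have := g_const.2
  refine ⟨by simp only [jQ]; linear_combination hl + (‹s ≤ 17 / 25›), by simp only [jQ]; linear_combination hl, ?_⟩
  simp only [jQ]
  rw [aQ_main B le_rfl, show h0 - 1 = -(1 - h0) by ring, g_neg, sub_self, g_zero]
  exact le_min le_rfl (by linear_combination 2 * this)

/-- The body `Q` above its peak. -/
theorem atQ_z (B : Bd s) {z : ℝ} (h1 : 1 ≤ z) (h2 : z ≤ 9 / 5) :
    At (jQ s) z (g (z - h0) - g (1 - h0)) := by
  have hh := h0_gt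
  have hl := h0_lt
  have := B.lo
  have := B.hi
  refine ⟨by simp only [jQ]; linear_combination h1 + 2 * hl + this, by simp only [jQ]; linear_combination h2, ?_⟩
  simp only [jQ]
  rw [aQ_main B (by linear_combination h1 + hl)]
  refine le_min ?_ le_rfl
  have := arc_sub (a := h0) (b := 1) (x := 1) (y := z) (by linear_combination hl) h1 (by linear_combination)
    (by linear_combination h2 + hh)
  rw [sub_self, g_zero] at this
  linear_combination this

/-- The end of the wing of `Q`. -/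
theorem atQ_w (B : Bd s) : At (jQ s) (h0 + s - 1) (-(381 / 200 - 2 * s)) := by
  have hh := h0_gt
  have hl := h0_lt
  have := B.lo
  have := B.hi
  refine ⟨by simp only [jQ]; linear_combination hl, by simp only [jQ]; linear_combination hl + this, ?_⟩
  simp only [jQ]
  rw [aQ_wing le_rfl, show h0 + s - 1 - (2 * h0 + s - 1) = -h0 by ring, g_neg, g_h0]
  linear_combination

/-- The wing of `Q`. -/
theorem atQ_y (B : Bd s) {y : ℝ} (h1 : 2 * h0 + s - 2 ≤ y) (h2 : y ≤ h0 + s - 1) :
    At (jQ s) y (g (2 * h0 + s - 1 - y) - 1 / 2 - (381 / 200 - 2 * s)) := by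
  have hh := h0_gt
  have hl := h0_lt
  have := B.lo
  have := B.hi
  refine ⟨by simp only [jQ]; linear_combination h1, by simp only [jQ]; linear_combination h2 + hl + this, ?_⟩
  simp only [jQ]
  rw [aQ_wing h2, show y - (2 * h0 + s - 1) = -(2 * h0 + s - 1 - y) by ring, g_neg]

/-! ### The mirror images -/

theorem upR_h (s : ℝ) : Up (jR s) h0 (-g (h0 + s - 1)) := by
  have := (upP_v s).mir (2 * h0 + s)
  rwa [show 2 * h0 + s - (h0 + s) = h0 by ring] at this

theorem upR_v (s : ℝ) : Up (jR s) (h0 + s) (-g (1 - h0)) := by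
  have := (upP_h s).mir (2 * h0 + s)
  rwa [show 2 * h0 + s - h0 = h0 + s by ring] at this

theorem atR_1 (B : Bd s) : At (jR s) (2 * h0 + s - 1) 0 := (atP_1 B).mir (2 * h0 + s)

theorem atR_2 (B : Bd s) : At (jR s) (2 * h0 - 1) (g (1 + s - h0) - g (1 - h0)) := by
  have := (atP_t B).mir (2 * h0 + s)
  rwa [show 2 * h0 + s - (1 + s) = 2 * h0 - 1 by ring] at this

/-- The other end of the mirror image of `P`. -/
theorem atR_t (B : Bd s) : At (jR s) (2 * h0) (1 / 2 - g (h0 + s - 1)) := by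
  have := (atP_s B).mir (2 * h0 + s)
  rwa [show 2 * h0 + s - s = 2 * h0 by ring] at this

theorem upS_1 (B : Bd s) : Up (jS s) (2 * h0 + s - 1) (-1) := (upQ_1 B).mir (2 * h0 + s)

theorem upS_v (B : Bd s) : Up (jS s) (h0 + s) (-g (1 - h0)) := by
  have := (upQ_h B).mir (2 * h0 + s)
  rwa [show 2 * h0 + s - h0 = h0 + s by ring] at this

theorem atS_1 (B : Bd s) : At (jS s) (2 * h0 + s - 1) 0 := (atQ_1 B).mir (2 * h0 + s)

theorem atS_v (B : Bd s) : At (jS s) (h0 + s) (g (1 - h0) - 1) := by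
  have := (atQ_h B).mir (2 * h0 + s)
  rwa [show 2 * h0 + s - h0 = h0 + s by ring] at this

theorem atS_z (B : Bd s) {z : ℝ} (h1 : 2 * h0 + s - 9 / 5 ≤ z) (h2 : z ≤ 2 * h0 + s - 1) :
    At (jS s) z (g (h0 + s - z) - g (1 - h0)) := by
  have := (atQ_z B (z := 2 * h0 + s - z) (by linear_combination h2) (by linear_combination h1)).mir (2 * h0 + s)
  rwa [sub_sub_cancel, show 2 * h0 + s - z - h0 = h0 + s - z by ring] at this

end

/-! ### The parameters and the inequalities -/

/-- The parameters. -/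
structure Par (s t : ℝ) : Prop where
  s0 : 57 / 100 ≤ s
  s1 : s ≤ 607 / 1000
  t0 : 0 ≤ t
  ts : t ≤ s
  gt : 2 * g t = 1 + g s

theorem Par.bd {s t : ℝ} (P : Par s t) : Bd s := ⟨P.s0, by linear_combination P.s1⟩

theorem par_exists {s : ℝ} (h1 : 57 / 100 ≤ s) (h2 : s ≤ 607 / 1000) : ∃ t, Par s t := by
  have hc0 := g_nonneg s
  have hc1 := g_le_one s
  have hc := g_sq (r := s) (by linear_combination (1177 / 1000) * h2 + (mul_nonneg (sub_nonneg.mpr h1) (sub_nonneg.mpr h2)))
  have hu := g_sq (r := (1 + g s) / 2) (by linear_combination (1 / 4) * (sq_nonneg (s)) + (1 / 2) * hc1 + (1 / 4) * hc)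
  refine ⟨g ((1 + g s) / 2), h1, h2, g_nonneg _, ?_, ?_⟩
  · apply abs_le_of_sq_le_sq' _ (by linear_combination h1) |>.2
    linear_combination -(9 / 8) * hc + hu + (mul_nonneg (sub_nonneg.mpr (sq_nonneg (g ((1 + g s) / 2)))) (sub_nonneg.mpr hc0)) +
      (1 / 2) * (mul_nonneg (sub_nonneg.mpr (sq_nonneg (g ((1 + g s) / 2)))) (sub_nonneg.mpr (le_of_eq hc))) +
      (1 / 4) * (mul_nonneg (sub_nonneg.mpr (sq_nonneg (s))) (sub_nonneg.mpr hc1)) + (1 / 2) * (mul_nonneg (sub_nonneg.mpr (sq_nonneg (s))) (sub_nonneg.mpr (ge_of_eq hu))) +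
      (1 / 8) * (mul_nonneg (sub_nonneg.mpr (sq_nonneg (g s))) (sub_nonneg.mpr (le_of_eq hc))) +
      (mul_nonneg (sub_nonneg.mpr (sq_nonneg (g s))) (sub_nonneg.mpr (ge_of_eq hu))) + 2 * (mul_nonneg (sub_nonneg.mpr (sq_nonneg ((1 + g s) / 2))) (sub_nonneg.mpr (le_of_eq hu)))
  · unfold g at *
    rw [show 1 - (√(1 - ((1 + √(1 - s ^ 2)) / 2) ^ 2)) ^ 2 = ((1 + √(1 - s ^ 2)) / 2) ^ 2 by
      rw [hu]; ring, Real.sqrt_sq (by positivity)]
    ring

/-- The gains of the four bodies before the front `γ`. -/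
noncomputable def mid (s : ℝ) (γ : ℝ → ℝ) (y : ℝ) : ℝ :=
  (ga (jP s) γ y + ga (jQ s) γ y + ga (jR s) γ y + ga (jS s) γ y) / 2

/-- What the coupled rows need and give. -/
noncomputable def dl (s : ℝ) : ℝ := 41 / 2000 - 3 / 10 * (s - 57 / 100)

/-- The new point is between `t` and `s`, the window. -/
def Win (s t : ℝ) : Prop := ∀ y r : ℝ, t ≤ y → y ≤ s → 1 / 2 ≤ r → r ≤ 1 →
  (y < 1 / 2 → ext r - r ≤ y) → (y < 1 / 2 → r - ext r ≤ 3 / 8) →
  2 * (1 + g s - 2 * g y) ≤ mid s (gam r y) y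

/-- The new point is between `t` and `1 / 2`, a bound for all virtual discs. -/
def Out (s t : ℝ) : Prop := ∀ y r : ℝ, t ≤ y → y < 1 / 2 → 1 / 2 ≤ r → r ≤ 1 →
  2 * (1 + g s - 2 * g y) - dl s ≤ mid s (gam r y) y

/-- The new point is between `t` and `1 / 2`, the left part of the window. -/
def Ins (s t : ℝ) : Prop := ∀ y r : ℝ, t ≤ y → y < 1 / 2 → 1 / 2 ≤ r → r ≤ 1 →
  3 / 8 ≤ ext r - r → ext r - r ≤ y → 2 * (1 + g s - 2 * g y) + dl s ≤ mid s (gam r y) y

/-- The new point is between `t` and `1 / 2`, the virtual disc is just outside of the window. -/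
def Rim (s t : ℝ) : Prop := ∀ y r : ℝ, t ≤ y → y < 1 / 2 → 1 / 2 ≤ r →
  r < h0 * g y - y / 2 → ext r - y - 3 / 200 < r →
  2 * (1 + g s - 2 * g y) + dl s ≤ mid s (gam r y) y

/-- The new point is between `t` and `1 / 2`, the virtual disc is outside of the window and there
is a disc below: the upper disc is higher. -/
def High (s t : ℝ) : Prop := ∀ y r : ℝ, t ≤ y → y < 1 / 2 → 1 / 2 ≤ r →
  r < h0 * g y - y / 2 → r ≤ ext r - y - 3 / 200 →
  2 * (1 + g s - 2 * g y) + dl s ≤ mid s (gamH (ext r) (ext r - y - 3 / 200) y) y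

end Pool.Agent.Strip051.FourG
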