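import Pool.Agent.Strip051.FourG.Touch

/-! # The gains of the four bodies in terms of `s`, `b`, `t`, `k` -/

namespace Pool.Agent.Strip051.FourG.LA

open Pool.Agent.StripNear Pool.Agent.StripSquare Pool.Agent.Strip051
open Pool.Agent.Strip051.Four (mirP j1 gn mirP_ok mirP_val arc_sub le_gn gn_nonneg adm_low
  g_le_of_abs ext_facts gain_ge)
open Pool.Agent.Strip051.Four.Low (ph ph_nonneg ph_neg ph_zero ph_mono ph_abs ph_quad)
open Pool.Agent.Strip051.FourC (k0 j4 k5 ga gn_eq le_ga ga_nonneg ga_mono mirP_ga vir_floor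
  vir_floor_le real_floor)
open Pool.Agent.Strip051.FourC.LA (h0_lo h0_up b_facts)

section

variable {s t y r b k : ℝ}

/-- The gains before the front of the virtual disc, `r ≤ ext r`. -/
theorem regA (P : Par s t) (h1 : t ≤ y) (h2 : y ≤ s) (hr1 : 1 / 2 ≤ r) (hr2 : r ≤ 1)
    (b0 : 0 ≤ b) (b1 : b ≤ 1 / 2) (hk : k = h0 * ph b) (e1 : r = h0 - b / 2 - k)
    (e2 : ext r = h0 + b / 2 - k) (e4 : g r = 1 / 2 - ph b / 2 + h0 * b)
    (e5 : g (ext r - r) = 1 - ph b) :
    RegA s b (s - y) k (ga (jP s) (gam r y) y) (ga (jQ s) (gam r y) y)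
      (ga (jR s) (gam r y) y) (ga (jS s) (gam r y) y) := by
  obtain ⟨f1, f2, -, -, -⟩ := ext_facts hr1 hr2
  have N := num P h1 h2 b0 b1 hk (by linear_combination -e2 + f2)
  have ht := t_low P
  have hs0 := P.s0
  have hs1 := P.s1
  have hl := h0_lo
  have hu := h0_up
  have B := P.bd
  have hγ := fun v => gam_nonneg r y v
  obtain ⟨u, hu'⟩ : ∃ u, u = s - y := ⟨_, rfl⟩
  rw [← hu'] at N ⊢
  have hy : y = s - u := by linear_combination hu'
  have t1 := N.t1
  have t2 := N.t2
  have k3 := N.k3
  have k4 := N.k4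
  have gc : g (1 - h0) = 1 - ph (1 - h0) := pe rfl
  have gal : g (h0 + s - 1) = 1 - ph (h0 + s - 1) := pe rfl
  have xh : g (y + ext r - h0) = 1 - ph (s - u + b / 2 - k) := pe (by rw [e2, hy]; ring)
  have z1 : g (y + r - 1) = 1 - ph (h0 + s - 1 - u - b / 2 - k) := pe (by rw [e1, hy]; ring)
  have zh : g (y + r - h0) = 1 - ph (s - u - b / 2 - k) := pe (by rw [e1, hy]; ring)
  have zH : g (y + r - (2 * h0 + s - 1)) = 1 - ph (h0 - 1 + u + b / 2 + k) :=
    pn (by rw [e1, hy]; ring)
  have xH : g (y + ext r - (2 * h0 + s - 1)) = 1 - ph (1 - h0 - u + b / 2 - k) :=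
    pe (by rw [e2, hy]; ring)
  refine ⟨N, ga_nonneg (jP_ok B) hγ, ga_nonneg (jQ_ok B) hγ, ga_nonneg (jR_ok B) hγ,
    ga_nonneg (jS_ok B) hγ, ?_, ?_, ?_, ?_, ?_, ?_⟩
  · have := std_ge (q := y) (jP_ok B) hr1 hr2 e5 (upP_h s) (atP_1 B) (by linear_combination h2 + hs1 + hl) (by linear_combination h1 + hr1 + ht + (179 / 250) * hs0 + hu)
      (by linear_combination h2 + hs1) (by linear_combination (250 / 71) * h1 + (179 / 71) * h2 + 2 * hr1 + (250 / 71) * ht) xh z1
    linear_combination -gc + this
  · have := std_ge (q := y) (jQ_ok B) hr1 hr2 e5 (upQ_h B) (atQ_1 B) (by linear_combination h2 + hs1 + hl) (by linear_combination h1 + hr1 + ht + (179 / 250) * hs0 + hu)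
      (by linear_combination h2 + hs1) (by linear_combination (250 / 71) * h1 + (179 / 71) * h2 + 2 * hr1 + (250 / 71) * ht) xh z1
    linear_combination -gc + this
  · have := std_ge (q := y) (jQ_ok B) hr1 hr2 e5 (upQ_h B) (atQ_h B) (by linear_combination h2 + hs1 + hl) (by linear_combination h1 + hr1 + ht + (179 / 250) * hs0 + hu)
      (by linear_combination h2 + hs1 + hl) (by linear_combination (250 / 71) * h1 + (179 / 71) * h2 + 2 * hr1 + (250 / 71) * ht + hu) xh zh
    linear_combination -2 * gc + this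
  · have := std_ge (q := y) (jR_ok B) hr1 hr2 e5 (upR_h s) (atR_1 B) (by linear_combination h2 + hs1 + hl) (by linear_combination h1 + hr1 + ht + (179 / 250) * hs0 + hu)
      (by linear_combination h2 + 2 * hl) (by linear_combination h1 + 2 * hr1 + ht + (71 / 250) * hs1 + 2 * hu) xh zH
    linear_combination -gal + this
  · intro h3
    have := std_ge (q := y) (jS_ok B) hr1 hr2 e5 (upS_1 B) (atS_1 B) (by linear_combination h2 + 2 * hl) (by linear_combination -e1 - hu' + h3)
      (by linear_combination h2 + 2 * hl) (by linear_combination h1 + 2 * hr1 + ht + (71 / 250) * hs1 + 2 * hu) xH zH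
    linear_combination this
  · intro h3 h4
    have A := atS_v B
    have k1 := le_gn (r := r) (q := y) (y := y) (v := g (h0 + s - y) + 1 - g (1 - h0)) (jS_ok B)
      A.1 A.2.1 (fun z hz1 hz2 => by
        have := kinkS B h2 (by linear_combination -e2 + f2 - hu' + h3) z hz1 hz2 rfl
        rcases max_choice 0 (g (z - y)) with hm | hm
        · left
          rw [hm] at this
          exact this.trans (gam_nonneg _ _ _)
        · right
          rwa [hm] at this)
    have k2 : gam r y (h0 + s - y) = g (h0 + s - y - r) - g r := by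
      unfold gam
      rw [if_pos (by linear_combination h2 + hl)]
      unfold vir
      have h6 : g r ≤ g (h0 + s - y - r) := g_le_of_abs (by linear_combination hr1 + b1 - e1 - hu' + h3) (by linear_combination h2 + hl)
      exact max_eq_right (by linear_combination h6)
    have k5 : g (h0 + s - y) = 1 - ph (h0 + u) := pe (by rw [hy]; ring)
    have k6 : g (h0 + s - y - r) = 1 - ph (u + b / 2 + k) := pe (by rw [hy, e1]; ring)
    rw [k2, k5, k6, e4, gn_eq] at k1
    have := A.2.2
    linear_combination k1 + this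

/-- The gains before the front of the virtual disc, `ext r ≤ r`. -/
theorem regB (P : Par s t) (h1 : t ≤ y) (h2 : y ≤ s) (hr1 : 1 / 2 ≤ r) (hr2 : r ≤ 1)
    (b0 : 0 ≤ b) (b1 : b ≤ 1 / 2) (hk : k = h0 * ph b) (e1 : r = h0 + b / 2 - k)
    (e2 : ext r = h0 - b / 2 - k) (e3 : g (ext r) = 1 / 2 - ph b / 2 + h0 * b)
    (e5 : g (ext r - r) = 1 - ph b) :
    RegB s b (s - y) k (ga (jP s) (gam r y) y) (ga (jQ s) (gam r y) y)
      (ga (jR s) (gam r y) y) (ga (jS s) (gam r y) y) := by
  obtain ⟨f1, f2, -, -, -⟩ := ext_facts hr1 hr2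
  have N := num P h1 h2 b0 b1 hk (by linear_combination hr2 - e1)
  have ht := t_low P
  have hs0 := P.s0
  have hs1 := P.s1
  have hl := h0_lo
  have hu := h0_up
  have B := P.bd
  have hγ := fun v => gam_nonneg r y v
  obtain ⟨u, hu'⟩ : ∃ u, u = s - y := ⟨_, rfl⟩
  rw [← hu'] at N ⊢
  have hy : y = s - u := by linear_combination hu'
  have t1 := N.t1
  have t2 := N.t2
  have k3 := N.k3
  have k4 := N.k4
  have gc : g (1 - h0) = 1 - ph (1 - h0) := pe rfl
  have gal : g (h0 + s - 1) = 1 - ph (h0 + s - 1) := pe rfl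
  have gsh : g (1 + s - h0) = 1 - ph (s - h0 + 1) := pe (by ring)
  have gyy : g y = 1 - ph (s - u) := pe hy
  have xh : g (y + ext r - h0) = 1 - ph (s - u - b / 2 - k) := pe (by rw [e2, hy]; ring)
  have x1 : g (y + ext r - 1) = 1 - ph (h0 + s - 1 - u - b / 2 - k) :=
    pe (by rw [e2, hy]; ring)
  have xv : g (y + ext r - (h0 + s)) = 1 - ph (u + b / 2 + k) := pn (by rw [e2, hy]; ring)
  have xH : g (y + ext r - (2 * h0 + s - 1)) = 1 - ph (h0 - 1 + u + b / 2 + k) :=
    pn (by rw [e2, hy]; ring)
  have z1 : g (y + r - 1) = 1 - ph (h0 + s - 1 - u + b / 2 - k) := pe (by rw [e1, hy]; ring)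
  have zs : g (y + r - s) = 1 - ph (h0 - u + b / 2 - k) := pe (by rw [e1, hy]; ring)
  have zh : g (y + r - h0) = 1 - ph (s - u + b / 2 - k) := pe (by rw [e1, hy]; ring)
  have zH : g (y + r - (2 * h0 + s - 1)) = 1 - ph (1 - h0 - u + b / 2 - k) :=
    pe (by rw [e1, hy]; ring)
  have z2 : g (y + r - (2 * h0 - 1)) = 1 - ph (s - h0 + 1 - u + b / 2 - k) :=
    pe (by rw [e1, hy]; ring)
  have zl : g (y + r - (2 * h0 + s - 9 / 5)) = 1 - ph (9 / 5 - h0 - u + b / 2 - k) :=
    pe (by rw [e1, hy]; ring)
  refine ⟨N, ga_nonneg (jP_ok B) hγ, ga_nonneg (jQ_ok B) hγ, ga_nonneg (jR_ok B) hγ,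
    ga_nonneg (jS_ok B) hγ, ?_, ?_, ?_, ?_, ?_, ?_, ?_, ?_, ?_, ?_, ?_, ?_, ?_, ?_, ?_⟩
  · have := std_ge (q := y) (jP_ok B) hr1 hr2 e5 (upP_h s) (atP_1 B) (by linear_combination h2 + hs1 + hl) (by linear_combination h1 + hr1 + ht + (179 / 250) * hs0 + hu)
      (by linear_combination h2 + hs1) (by linear_combination (250 / 71) * h1 + (179 / 71) * h2 + 2 * hr1 + (250 / 71) * ht) xh z1
    linear_combination -gc + this
  · have := std_ge (q := y) (jP_ok B) hr1 hr2 e5 (upP_h s) (atP_s B) (by linear_combination h2 + hs1 + hl) (by linear_combination h1 + hr1 + ht + (179 / 250) * hs0 + hu)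
      (by linear_combination h2) (by linear_combination h1 + 2 * hr1 + ht + (71 / 250) * hs1) xh zs
    linear_combination -gc + gal + this
  · intro h3
    have := std_ge (q := y) (jP_ok B) hr1 hr2 e5 (upP_v s) (atP_s B) (by linear_combination h2 + hl) (by linear_combination -e1 - hu' + h3)
      (by linear_combination h2) (by linear_combination h1 + 2 * hr1 + ht + (71 / 250) * hs1) xv zs
    linear_combination this
  · have := std_ge (q := y) (jQ_ok B) hr1 hr2 e5 (upQ_h B) (atQ_h B) (by linear_combination h2 + hs1 + hl) (by linear_combination h1 + hr1 + ht + (179 / 250) * hs0 + hu)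
      (by linear_combination h2 + hs1 + hl) (by linear_combination (250 / 71) * h1 + (179 / 71) * h2 + 2 * hr1 + (250 / 71) * ht + hu) xh zh
    linear_combination -2 * gc + this
  · intro h3
    have := std_ge (q := y) (jQ_ok B) hr1 hr2 e5 (upQ_1 B) (atQ_h B) (by linear_combination h2 + hs1) (by linear_combination h1 + (1 / 2) * b0 - e1 + ht + (179 / 250) * hs0 + hl + k4)
      (by linear_combination h2 + hs1 + hl) (by linear_combination (250 / 71) * h1 + (179 / 71) * h2 + 2 * hr1 + (250 / 71) * ht + hu) x1 zh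
    linear_combination -gc + this
  · intro h3
    have := low_ge (jQ_ok B) hr1 hr2 (upQ_h B) (atQ_w B) (y := y) (by linear_combination h2 + hs1 + hl) (by linear_combination h1 + hr1 + ht + (179 / 250) * hs0 + hu)
      (by linear_combination hs0 + hl) (by linear_combination -hu' + h3) xh
    rw [e3, gyy, gal] at this
    linear_combination -gc + this
  · intro h3 h4
    have := low_ge (jQ_ok B) hr1 hr2 (upQ_1 B) (atQ_w B) (y := y) (by linear_combination h2 + hs1) (by linear_combination h1 + (1 / 2) * b0 - e1 + ht + (179 / 250) * hs0 + hl + k4)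
      (by linear_combination hs0 + hl) (by linear_combination -hu' + h3) x1
    rw [e3, gyy, gal] at this
    linear_combination this
  · intro h3
    have := low_ge (jQ_ok B) hr1 hr2 (upQ_h B) (atQ_y B (y := y) (by linear_combination h1 + ht + (71 / 250) * hs1 + 2 * hu) (by linear_combination hu' + h3))
      (y := y) (by linear_combination h2 + hs1 + hl) (by linear_combination h1 + hr1 + ht + (179 / 250) * hs0 + hu) (by linear_combination (250 / 71) * h1 + (179 / 71) * h2 + (250 / 71) * ht) le_rfl xh
    have e6 : g (2 * h0 + s - 1 - y) = 1 - ph (2 * h0 - 1 + u) := pe (by rw [hy]; ring)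
    rw [e3, e6] at this
    linear_combination -gc + this
  · have := std_ge (q := y) (jR_ok B) hr1 hr2 e5 (upR_h s) (atR_1 B) (by linear_combination h2 + hs1 + hl) (by linear_combination h1 + hr1 + ht + (179 / 250) * hs0 + hu)
      (by linear_combination h2 + 2 * hl) (by linear_combination h1 + 2 * hr1 + ht + (71 / 250) * hs1 + 2 * hu) xh zH
    linear_combination -gal + this
  · intro h3
    have := std_ge (q := y) (jR_ok B) hr1 hr2 e5 (upR_v s) (atR_2 B) (by linear_combination h2 + hl) (by linear_combination -e1 - hu' + h3)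
      (by linear_combination h2 + hs1 + 2 * hl) (by linear_combination (250 / 71) * h1 + (179 / 71) * h2 + 2 * hr1 + (250 / 71) * ht + 2 * hu) xv z2
    linear_combination -gsh + this
  · have := std_ge (q := y) (jR_ok B) hr1 hr2 e5 (upR_h s) (atR_2 B) (by linear_combination h2 + hs1 + hl) (by linear_combination h1 + hr1 + ht + (179 / 250) * hs0 + hu)
      (by linear_combination h2 + hs1 + 2 * hl) (by linear_combination (250 / 71) * h1 + (179 / 71) * h2 + 2 * hr1 + (250 / 71) * ht + 2 * hu) xh z2
    linear_combination gc - gal - gsh + this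
  · intro h3
    have := std_ge (q := y) (jS_ok B) hr1 hr2 e5 (upS_1 B) (atS_1 B) (by linear_combination h2 + 2 * hl) (by linear_combination -e1 - hu' + h3)
      (by linear_combination h2 + 2 * hl) (by linear_combination h1 + 2 * hr1 + ht + (71 / 250) * hs1 + 2 * hu) xH zH
    linear_combination this
  · intro h3 h4
    have := std_ge (q := y) (jS_ok B) hr1 hr2 e5 (upS_v B)
      (atS_z B (z := 2 * h0 + s - 9 / 5) le_rfl (by linear_combination)) (by linear_combination h2 + hl) (by linear_combination -e1 - hu' + h3)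
      (by linear_combination hu' + h4) (by linear_combination h1 + 2 * hr1 + ht + (71 / 250) * hs1 + 2 * hu) xv zl
    have e6 : g (h0 + s - (2 * h0 + s - 9 / 5)) = 1 - ph (9 / 5 - h0) := pe (by ring)
    rw [e6] at this
    linear_combination this
  · intro h3 h4
    have := low_ge (jS_ok B) hr1 hr2 (upS_v B)
      (atS_z B (z := y) (by linear_combination -hu' + h4) (by linear_combination h2 + 2 * hl)) (y := y) (by linear_combination h2 + hl) (by linear_combination -e1 - hu' + h3)
      (by linear_combination (250 / 71) * h1 + (179 / 71) * h2 + (250 / 71) * ht) le_rfl xv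
    have e6 : g (h0 + s - y) = 1 - ph (h0 + u) := pe (by rw [hy]; ring)
    rw [e3, e6] at this
    linear_combination this
  · intro h3 h4
    have := low_ge (jS_ok B) hr1 hr2 (upS_1 B)
      (atS_z B (z := y) (by linear_combination -hu' + h4) (by linear_combination h2 + 2 * hl)) (y := y) (by linear_combination h2 + 2 * hl) (by linear_combination -e1 - hu' + h3)
      (by linear_combination (250 / 71) * h1 + (179 / 71) * h2 + (250 / 71) * ht) le_rfl xH
    have e6 : g (h0 + s - y) = 1 - ph (h0 + u) := pe (by rw [hy]; ring)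
    rw [e3, e6] at this
    linear_combination gc + this

/-- The gain before a front with a higher upper disc. -/
theorem high_std {j : Probe} {H w C α z0 β : ℝ} (hj : j.Ok H) (h1 : 1 / 2 ≤ r)
    (h2 : r ≤ 1) (hw : r ≤ w) (hw2 : w ≤ ext r) (U : Up j C α) (A : At j z0 β)
    (a1 : y ≤ C) (a2 : C ≤ y + w) (a3 : y ≤ z0)
    (a4 : g (ext r - w) - g (ext r) ≤ g (z0 - y - w)) :
    - g (y + ext r - C) - α - g (z0 - y - w) + g (ext r - w) + β ≤
        ga j (gamH (ext r) w y) y := by
  obtain ⟨e1, e2, e3, e4, e5⟩ := ext_facts h1 h2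
  have h4 : g (ext r) ≤ g (y + ext r - C) := g_le_of_abs (by linear_combination a1) (by linear_combination h1 + hw + 2 * hw2 + a2)
  have h3 := le_ga (y := y) (z0 := z0)
    (v := g (ext r) - g (y + ext r - C) - α) hj
    (fun v => gamH_nonneg (ext r) w y v) A.1 A.2.1 (by
      intro z hz1 hz2
      have h3 := U z hz1 hz2
      have hg0 := g_nonneg (z - y)
      rcases le_total (z - y) (ext r) with hz | hz
      · right
        rcases le_total (-1) (z - C) with h5 | h5
        · have := four (x := z - C) (y := z - y) (z := y + ext r - C) (w := ext r) h5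
            (by linear_combination e2) (by linear_combination a1) (by linear_combination hz) (by ring)
          linear_combination h3 + this
        · have : g (z - C) = 0 := g_far (by rw [abs_of_nonpos (by linear_combination h5)]; linear_combination h5)
          linear_combination h4 + h3 + hg0 + this
      · left
        unfold gamH
        rw [if_pos (by linear_combination h1 + hw + hw2 + hz)]
        unfold hi
        rcases le_total (z - C) 1 with h5 | h5
        · refine le_trans ?_ (le_max_right _ _)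
          have := four (x := ext r - w) (y := z - y - w) (z := y + ext r - C) (w := z - C)
            (by linear_combination hw2) (by linear_combination h5) (by linear_combination hz) (by linear_combination a2) (by ring)
          linear_combination h3 + this
        · have : g (z - C) = 0 := g_far (h5.trans (le_abs_self _))
          refine le_trans ?_ (le_max_left _ _)
          linear_combination h4 + h3 + this)
  have h5 : gamH (ext r) w y (z0 - y) = g (z0 - y - w) - (g (ext r - w) - g (ext r)) := by
    unfold gamH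
    rw [if_pos (by linear_combination a3)]
    exact max_eq_right (by linear_combination a4)
  rw [h5] at h3
  linear_combination A.2.2 + h3

/-- The gains before a front with a higher upper disc. -/
theorem regH (P : Par s t) (h1 : t ≤ y) (h2 : y ≤ s) (hr1 : 1 / 2 ≤ r) (hr2 : r ≤ 1)
    (hw : r ≤ ext r - y - 3 / 200)
    (b0 : 0 ≤ b) (b1 : b ≤ 1 / 2) (hk : k = h0 * ph b) (e1 : r = h0 - b / 2 - k)
    (e2 : ext r = h0 + b / 2 - k) (e3 : g (ext r) = 1 / 2 - ph b / 2 - h0 * b) :
    RegH s b (s - y) k (ga (jP s) (gamH (ext r) (ext r - y - 3 / 200) y) y)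
      (ga (jQ s) (gamH (ext r) (ext r - y - 3 / 200) y) y)
      (ga (jR s) (gamH (ext r) (ext r - y - 3 / 200) y) y)
      (ga (jS s) (gamH (ext r) (ext r - y - 3 / 200) y) y) := by
  obtain ⟨f1, f2, -, -, -⟩ := ext_facts hr1 hr2
  have N := num P h1 h2 b0 b1 hk (by linear_combination -e2 + f2)
  have ht := t_low P
  have hs0 := P.s0
  have hs1 := P.s1
  have hl := h0_lo
  have hu := h0_up
  have B := P.bd
  have hkb : k ≤ 24 / 100 * b := by
    rw [hk]
    exact k_le b0 b1
  have hγ := fun v => gamH_nonneg (ext r) (ext r - y - 3 / 200) y v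
  have hw2 : ext r - y - 3 / 200 ≤ ext r := by linear_combination (250 / 71) * h1 + (179 / 71) * h2 + (250 / 71) * ht
  have pos : ∀ z : ℝ, z - ext r + 3 / 200 ≤ y + 3 / 200 → -(y + 3 / 200) ≤ z - ext r + 3 / 200 →
      g (ext r - (ext r - y - 3 / 200)) - g (ext r) ≤ g (z - y - (ext r - y - 3 / 200)) := by
    intro z h3 h4
    have e6 : g (y + 3 / 200) ≤ g (z - ext r + 3 / 200) := g_le_of_abs h3 h4
    rw [show ext r - (ext r - y - 3 / 200) = y + 3 / 200 by ring,
      show z - y - (ext r - y - 3 / 200) = z - ext r + 3 / 200 by ring]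
    have := g_nonneg (ext r)
    linear_combination e6 + this
  obtain ⟨u, hu'⟩ : ∃ u, u = s - y := ⟨_, rfl⟩
  rw [← hu'] at N ⊢
  have hy : y = s - u := by linear_combination hu'
  have t1 := N.t1
  have t2 := N.t2
  have k3 := N.k3
  have k4 := N.k4
  have gc : g (1 - h0) = 1 - ph (1 - h0) := pe rfl
  have gal : g (h0 + s - 1) = 1 - ph (h0 + s - 1) := pe rfl
  have xh : g (y + ext r - h0) = 1 - ph (s - u + b / 2 - k) := pe (by rw [e2, hy]; ring)
  have gW : g (ext r - (ext r - y - 3 / 200)) = 1 - ph (s + 3 / 200 - u) :=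
    pe (by rw [hy]; ring)
  have z1 : g (1 - y - (ext r - y - 3 / 200)) = 1 - ph (203 / 200 - h0 - b / 2 + k) :=
    pe (by rw [e2]; ring)
  have zH : g (2 * h0 + s - 1 - y - (ext r - y - 3 / 200)) =
      1 - ph (h0 + s - 197 / 200 - b / 2 + k) := pe (by rw [e2]; ring)
  have zv : g (h0 + s - y - (ext r - y - 3 / 200)) = 1 - ph (s + 3 / 200 - b / 2 + k) :=
    pe (by rw [e2]; ring)
  refine ⟨N, ga_nonneg (jP_ok B) hγ, ga_nonneg (jQ_ok B) hγ, ga_nonneg (jR_ok B) hγ,
    ga_nonneg (jS_ok B) hγ, ?_, ?_, ?_, ?_⟩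
  · have := high_std (jP_ok B) hr1 hr2 hw hw2 (upP_h s) (atP_1 B) (y := y) (by linear_combination hw + b1 - e1 + e2 + hl)
      (by linear_combination h1 + hr1 + hw + ht + (179 / 250) * hs0 + hu) (by linear_combination hw + b1 - e1 + e2) (pos 1 (by linear_combination 2 * h1 + hr1 + hw + 2 * ht + (179 / 125) * hs0) (by linear_combination (250 / 71) * h1 + (179 / 71) * h2 + f2 + (250 / 71) * ht))
    rw [xh, z1, gW] at this
    linear_combination -gc + this
  · have := high_std (jQ_ok B) hr1 hr2 hw hw2 (upQ_h B) (atQ_1 B) (y := y) (by linear_combination hw + b1 - e1 + e2 + hl)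
      (by linear_combination h1 + hr1 + hw + ht + (179 / 250) * hs0 + hu) (by linear_combination hw + b1 - e1 + e2) (pos 1 (by linear_combination 2 * h1 + hr1 + hw + 2 * ht + (179 / 125) * hs0) (by linear_combination (250 / 71) * h1 + (179 / 71) * h2 + f2 + (250 / 71) * ht))
    rw [xh, z1, gW] at this
    linear_combination -gc + this
  · have := high_std (jR_ok B) hr1 hr2 hw hw2 (upR_h s) (atR_1 B) (y := y) (by linear_combination hw + b1 - e1 + e2 + hl)
      (by linear_combination h1 + hr1 + hw + ht + (179 / 250) * hs0 + hu) (by linear_combination h2 + 2 * hl) (pos _ (by linear_combination 2 * h1 + hr1 + hw + 2 * ht + (54 / 125) * hs0 + 2 * hu) (by linear_combination h1 + f2 + ht + (429 / 250) * hs0 + 2 * hl))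
    rw [xh, zH, gW] at this
    linear_combination -gal + this
  · intro h3
    have A := atS_v B
    have k1 := le_ga (y := y) (z0 := h0 + s) (v := g (h0 + s - y) + 1 - g (1 - h0)) (jS_ok B) hγ
      A.1 A.2.1 (fun z hz1 hz2 => by
        have := kinkS B h2 (by linear_combination -e2 + f2 - hu' + h3) z hz1 hz2 rfl
        rcases max_choice 0 (g (z - y)) with hm | hm
        · left
          rw [hm] at this
          exact this.trans (gamH_nonneg _ _ _ _)
        · right
          rwa [hm] at this)
    have k2 : gamH (ext r) (ext r - y - 3 / 200) y (h0 + s - y) =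
        g (h0 + s - y - (ext r - y - 3 / 200)) -
          (g (ext r - (ext r - y - 3 / 200)) - g (ext r)) := by
      have := pos (h0 + s) (by linear_combination -e2 - hu' + h3) (by linear_combination h1 + f2 + ht + (429 / 250) * hs0 + hl)
      unfold gamH
      rw [if_pos (by linear_combination h2 + hl)]
      exact max_eq_right (by linear_combination this)
    have k5 : g (h0 + s - y) = 1 - ph (h0 + u) := pe (by rw [hy]; ring)
    rw [k2, k5, zv, gW, e3] at k1
    have := A.2.2
    linear_combination k1 + this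

end

end Pool.Agent.Strip051.FourG.LA
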