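import Pool.Agent.Strip051.FourG.Props
import Pool.Agent.Strip051.FourG.Box
import Pool.Agent.Strip051.FourC.Touch
import Pool.Agent.Strip051.FourC.Main

/-! # Gains of the four bodies -/

namespace Pool.Agent.Strip051.FourG.LA

open Pool.Agent.StripNear Pool.Agent.StripSquare Pool.Agent.Strip051
open Pool.Agent.Strip051.Four (mirP j1 gn mirP_ok mirP_val arc_sub le_gn gn_nonneg adm_low
  g_le_of_abs ext_facts gain_ge)
open Pool.Agent.Strip051.Four.Low (ph ph_nonneg ph_neg ph_zero ph_mono ph_abs ph_quad)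
open Pool.Agent.Strip051.FourC (k0 j4 k5 ga gn_eq le_ga ga_nonneg ga_mono mirP_ga vir_floor
  vir_floor_le real_floor)
open Pool.Agent.Strip051.FourC.LA (h0_lo h0_up b_facts)

theorem pe {x A : ℝ} (h : x = A) : g x = 1 - ph A := by
  rw [h]
  unfold Four.Low.ph
  ring

theorem pn {x A : ℝ} (h : x = -A) : g x = 1 - ph A := by
  rw [h, g_neg]
  unfold Four.Low.ph
  ring

/-- The arc of the new disc stays above the body up to the exit. -/
theorem exit_ok {j : Probe} {y r q C α : ℝ} (h1 : 1 / 2 ≤ r) (h2 : r ≤ 1) (U : Up j C α)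
    (hC1 : y ≤ C) (hC2 : C ≤ y + r) (z : ℝ) (hz1 : j.lo ≤ z) (hz2 : z ≤ j.hi) :
    j.a z + (g (ext r) - g (y + ext r - C) - α) ≤ gam r q (z - y) ∨
      j.a z + (g (ext r) - g (y + ext r - C) - α) ≤ g (z - y) := by
  obtain ⟨e1, e2, e3, e4, e5⟩ := ext_facts h1 h2
  have h4 : g (ext r) ≤ g (y + ext r - C) := g_le_of_abs (by linear_combination hC1) (by linear_combination h2 + hC2 + 2 * e1)
  have h3 := U z hz1 hz2
  have hg0 := g_nonneg (z - y)
  rcases le_total (z - y) (ext r) with hz | hz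
  · right
    rcases le_total (-1) (z - C) with h5 | h5
    · have := four (x := z - C) (y := z - y) (z := y + ext r - C) (w := ext r) h5
        (by linear_combination e2) (by linear_combination hC1) (by linear_combination hz) (by ring)
      linear_combination h3 + this
    · have : g (z - C) = 0 := g_far (by rw [abs_of_nonpos (by linear_combination h5)]; linear_combination h5)
      linear_combination h4 + h3 + hg0 + this
  · left
    unfold gam
    rw [if_pos (by linear_combination e1 + hz)]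
    unfold vir
    rcases le_total (z - C) 1 with h5 | h5
    · refine le_trans ?_ (le_max_right _ _)
      have := four (x := ext r - r) (y := z - y - r) (z := y + ext r - C) (w := z - C)
        (by linear_combination h2 + e1) (by linear_combination h5) (by linear_combination hz) (by linear_combination hC2) (by ring)
      linear_combination -e3 + h3 + this
    · have : g (z - C) = 0 := g_far (h5.trans (le_abs_self _))
      refine le_trans ?_ (le_max_left _ _)
      linear_combination h4 + h3 + this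

/-- Exit below an arc, old contact above the new point. -/
theorem std_ge {j : Probe} {H y r q C α z0 β b A1 A2 : ℝ} (hj : j.Ok H) (h1 : 1 / 2 ≤ r)
    (h2 : r ≤ 1) (hb : g (ext r - r) = 1 - ph b) (U : Up j C α) (A : At j z0 β)
    (a1 : y ≤ C) (a2 : C ≤ y + r) (a3 : y ≤ z0) (a4 : z0 ≤ y + 2 * r)
    (e1 : g (y + ext r - C) = 1 - ph A1) (e2 : g (y + r - z0) = 1 - ph A2) :
    ph A1 + ph A2 - ph b - 1 - α + β ≤ ga j (gam r q) y := by
  have := gain_ge (q := q) hj h1 h2 a1 a2 U A.1 A.2.1 a3 a4 A.2.2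
  rw [gn_eq, hb, e1, e2] at this
  linear_combination this

/-- Exit below an arc, old contact not above the new point. -/
theorem low_ge {j : Probe} {H y r C α z0 β A1 : ℝ} (hj : j.Ok H) (h1 : 1 / 2 ≤ r)
    (h2 : r ≤ 1) (U : Up j C α) (A : At j z0 β) (a1 : y ≤ C) (a2 : C ≤ y + r) (a3 : 0 ≤ z0)
    (a4 : z0 ≤ y) (e1 : g (y + ext r - C) = 1 - ph A1) :
    g (ext r) - 1 + ph A1 - α - (g z0 - g y) + β ≤ ga j (gam r y) y := by
  have h3 := le_gn (r := r) (q := y) (y := y) hj A.1 A.2.1
    (fun z hz1 hz2 => exit_ok (q := y) h1 h2 U a1 a2 z hz1 hz2)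
  have h4 : gam r y (z0 - y) ≤ g z0 - g y := by
    rw [real_floor _ _ _ (by linear_combination a4), neg_sub]
    exact vir_floor_le a3 a4
  have h5 := A.2.2
  rw [gn_eq, e1] at h3
  linear_combination h3 + h4 + h5

/-- The new arc touches the mirror image of `Q` at its kink `h0 + s`. -/
theorem kinkS {s y v : ℝ} (B : Bd s) (h1 : y ≤ s) (h2 : h0 + s - y ≤ 1) (z : ℝ)
    (hz1 : (jS s).lo ≤ z) (hz2 : z ≤ (jS s).hi) (hv : v = g (h0 + s - y) + 1 - g (1 - h0)) :
    (jS s).a z + v ≤ max 0 (g (z - y)) := by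
  have hh := h0_gt
  have hl := h0_lt
  have b1 := B.lo
  have b2 := B.hi
  have hg := g_nonneg (z - y)
  obtain ⟨c1, c2⟩ := g_const
  rw [max_eq_right hg]
  rcases le_or_gt z (h0 + s) with h | h
  · have k1 := upS_1 B z hz1 hz2
    simp only [jS, mirP, jQ] at hz1
    have k2 := arc_sub (a := y) (b := 2 * h0 + s - 1) (x := z) (y := h0 + s) (by linear_combination h1 + 2 * hh) h
      (by linear_combination hz1) h2
    rw [show h0 + s - (2 * h0 + s - 1) = 1 - h0 by ring] at k2
    linear_combination hv + k1 + k2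
  · have k3 : g (h0 + s - y) ≤ 1 / 2 := by
      rw [← g_h0]
      exact g_anti h0_pos.le (by linear_combination h1)
    simp only [jS, mirP, jQ] at hz1 hz2 ⊢
    rcases le_or_gt (2 * h0 + s - z) (h0 + s - 1) with h5 | h5
    · have := wing_le B h5 (by linear_combination hz2)
      linear_combination hv + 2 * b2 + hg + c1 + k3 + this
    · unfold aQ
      rw [if_neg (not_le.2 h5), if_pos (by linear_combination h)]
      linear_combination hv + hg + c1 + k3

/-- The two sides, `r ≤ ext r`. -/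
theorem sideA {r : ℝ} (h1 : 1 / 2 ≤ r) (h2 : r ≤ 1) : ∃ b k, b = ext r - r ∧ k = h0 * ph b ∧
    r = h0 - b / 2 - k ∧ ext r = h0 + b / 2 - k ∧ g (ext r) = 1 / 2 - ph b / 2 - h0 * b ∧
      g r = 1 / 2 - ph b / 2 + h0 * b ∧ g (ext r - r) = 1 - ph b ∧ -(1 / 2) ≤ b ∧
      b ≤ 1 / 2 := by
  obtain ⟨e1, e2, e3, e4, e5⟩ := ext_facts h1 h2
  obtain ⟨f1, f2, f3, f4, f5⟩ := ext_facts e1 e2
  have k1 : ext r = r / 2 + h0 * g r := rfl
  have k2 : ext r / 2 + h0 * g (ext r) = r := e5
  have hp := h0_pos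
  have hq := h0_sq
  have hgb : g (ext r - r) = 1 - ph (ext r - r) := pe rfl
  have k3 : h0 * (g (ext r) + g r) = h0 - h0 * ph (ext r - r) := by
    rw [← e3, hgb]
    ring
  refine ⟨ext r - r, h0 * ph (ext r - r), rfl, rfl, by linear_combination k1 - k2 + k3, by linear_combination k1 - k2 + k3, ?_, ?_, hgb,
    by linear_combination h2 + e1, by linear_combination h1 + e2⟩
  · have e1 : h0 * g (ext r) = h0 * (1 / 2 - ph (ext r - r) / 2 - h0 * (ext r - r)) := by
      have : h0 * (1 / 2 - ph (ext r - r) / 2 - h0 * (ext r - r)) =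
        (h0 - h0 * ph (ext r - r)) / 2 - h0 ^ 2 * (ext r - r) := by ring
      rw [this, hq]
      linear_combination (1 / 2) * k1 + (1 / 2) * k2 + (1 / 2) * k3
    exact mul_left_cancel₀ hp.ne' e1
  · have e1 : h0 * g r = h0 * (1 / 2 - ph (ext r - r) / 2 + h0 * (ext r - r)) := by
      have : h0 * (1 / 2 - ph (ext r - r) / 2 + h0 * (ext r - r)) =
        (h0 - h0 * ph (ext r - r)) / 2 + h0 ^ 2 * (ext r - r) := by ring
      rw [this, hq]
      linear_combination -(1 / 2) * k1 - (1 / 2) * k2 + (1 / 2) * k3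
    exact mul_left_cancel₀ hp.ne' e1

/-- The two sides, `ext r ≤ r`. -/
theorem sideB {r : ℝ} (h1 : 1 / 2 ≤ r) (h2 : r ≤ 1) : ∃ b k, b = r - ext r ∧ k = h0 * ph b ∧
    r = h0 + b / 2 - k ∧ ext r = h0 - b / 2 - k ∧ g (ext r) = 1 / 2 - ph b / 2 + h0 * b ∧
      g r = 1 / 2 - ph b / 2 - h0 * b ∧ g (ext r - r) = 1 - ph b ∧ -(1 / 2) ≤ b ∧
      b ≤ 1 / 2 := by
  obtain ⟨b, k, hb, hk, e1, e2, e3, e4, e5, e6, e7⟩ := sideA h1 h2
  have hb' : b = -(r - ext r) := by linear_combination hb
  rw [hb', ph_neg] at hk e3 e4 e5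
  exact ⟨r - ext r, k, rfl, hk, by linear_combination -(1 / 2) * hb + e1, by linear_combination -(1 / 2) * hb + e1, by linear_combination e3, by linear_combination e4, e5,
    by linear_combination -hb + e7, by linear_combination hb + e6⟩

theorem t_low {s t : ℝ} (P : Par s t) : 716 / 1000 * s ≤ t := by
  have hs0 := P.s0
  have hs1 := P.s1
  have ht0 := P.t0
  have hts := P.ts
  have hgt := P.gt
  have c0 := g_nonneg s
  have cs := g_sq (r := s) (by linear_combination (1177 / 1000) * hs1 + (mul_nonneg (sub_nonneg.mpr hs0) (sub_nonneg.mpr hs1)))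
  have ct := g_sq (r := t) (by linear_combination (sq_nonneg (g s)) + (57 / 100) * hts + cs + (mul_nonneg (sub_nonneg.mpr hs0) (sub_nonneg.mpr hts)) +
    (mul_nonneg (sub_nonneg.mpr ht0) (sub_nonneg.mpr hts)))
  have c1 : g s ≤ 825 / 1000 := by exact not_lt.mp (fun hg__ => absurd hs0 (not_le.mpr (by linear_combination (55 / 38) * hg__ + (50 / 57) * cs + (50 / 57) * (mul_nonneg (sub_nonneg.mpr hs0) (sub_nonneg.mpr hs0)) + (50 / 57) * (mul_pos (sub_pos.mpr hg__) (sub_pos.mpr hg__)))))
  have e : g t = (1 + g s) / 2 := by linear_combination (1 / 2) * hgt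
  rw [e] at ct
  apply abs_le_of_sq_le_sq' _ ht0 |>.2
  have : 0 ≤ (1 - g s) * (825 / 1000 - g s) := mul_nonneg (by linear_combination c1) (by linear_combination c1)
  linear_combination (32041 / 62500) * cs - ct + (3227 / 156250) * c1 + (4104 / 15625) * this

theorem k_le {b : ℝ} (b0 : 0 ≤ b) (b1 : b ≤ 1 / 2) : h0 * ph b ≤ 24 / 100 * b := by
  have hu := h0_up
  have e := ph_quad (x := b) (by linear_combination (1 / 2) * b1 + (mul_nonneg (sub_nonneg.mpr b0) (sub_nonneg.mpr b1)))
  have n := ph_nonneg b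
  have m : ph b ≤ 134 / 1000 := by
    have := ph_mono b0 b1
    have e : ph (1 / 2) = 1 - h0 := by
      unfold Four.Low.ph g
      rw [show (1 : ℝ) - (1 / 2) ^ 2 = h0 ^ 2 by rw [h0_sq]; norm_num,
        Real.sqrt_sq h0_pos.le]
    have hl := h0_lo
    linear_combination this + e + hl
  have k1 := mul_le_mul_of_nonneg_right m n
  have k2 := mul_le_mul_of_nonneg_right b1 b0
  have k3 := mul_le_mul_of_nonneg_right hu n
  linear_combination (593 / 74640) * b0 + (86603 / 186600) * e + (86603 / 186600) * k1 +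
    (86603 / 186600) * k2 + k3

/-- The numbers. -/
theorem num {s t y b k : ℝ} (P : Par s t) (h1 : t ≤ y) (h2 : y ≤ s) (b0 : 0 ≤ b)
    (b1 : b ≤ 1 / 2) (hk : k = h0 * ph b) (hr : h0 + b / 2 - k ≤ 1) : Num s b (s - y) k := by
  have ht := t_low P
  have hs0 := P.s0
  have hs1 := P.s1
  have hl := h0_lo
  have hu := h0_up
  have n := ph_nonneg b
  have m : ph b ≤ 134 / 1000 := by
    have := ph_mono b0 b1
    have e : ph (1 / 2) = 1 - h0 := by
      unfold Four.Low.ph g
      rw [show (1 : ℝ) - (1 / 2) ^ 2 = h0 ^ 2 by rw [h0_sq]; norm_num,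
        Real.sqrt_sq h0_pos.le]
    linear_combination hl + this + e
  rw [hk] at hr ⊢
  refine ⟨mul_le_mul_of_nonneg_right hl n, mul_le_mul_of_nonneg_right hu n, hl, hu,
    mul_le_mul_of_nonneg_right hl b0, mul_le_mul_of_nonneg_right hu b0, hs0, hs1, b0, b1,
    by linear_combination h2, by linear_combination h1 + ht + (71 / 250) * hs1, mul_nonneg h0_pos.le n, ?_, hr⟩
  have := mul_le_mul hu m n (by norm_num)
  linear_combination this

end Pool.Agent.Strip051.FourG.LA
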